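import Pool.Agent.PEt5.MS

/-! Assembly for degrees 2 and 3. -/

set_option autoImplicit false

open Complex MeasureTheory Set Filter Topology
open scoped Real ComplexConjugate ContDiff

namespace Pool.Agent.PEt5

open Pool.Agent.PEt Pool.Agent.PEt3

--BEGIN AS1
private theorem AS1_cont {ρ : ℝ → ℝ} (hρ : IsBump ρ (1 / 4) (3 / 8) (5 / 8) (3 / 4)) (T X s : ℝ)
    (κ₁ φ₁ κ₂ φ₂ : ℝ) : Continuous (K3 ρ κ₁ φ₁ κ₂ φ₂ s T X) := by
  unfold K3 w1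
  have h1 : Continuous ρ := hρ.smooth.continuous
  have h2 : Continuous fun x : ℝ => (κ₂ * x) ^ (1 / 3 : ℝ) :=
    (continuous_const.mul continuous_id).rpow_const fun x => Or.inr (by norm_num)
  have h3 : Continuous fun x : ℝ => √(κ₁ * x) := (continuous_const.mul continuous_id).sqrt
  refine ((h1.comp ((continuous_id.sub continuous_const).div_const X)).mul
    (continuous_const.add (Real.continuous_cos.comp ((continuous_const.mul h3).add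
      continuous_const)))).mul (continuous_const.add (continuous_const.mul
        (Real.continuous_cos.comp ((continuous_const.mul h2).add continuous_const))))

private theorem AS1_bd {ρ : ℝ → ℝ} (hρ : IsBump ρ (1 / 4) (3 / 8) (5 / 8) (3 / 4)) {s : ℝ}
    (hs : |s| ≤ 1) (κ₁ φ₁ κ₂ φ₂ T X x : ℝ) :
    0 ≤ K3 ρ κ₁ φ₁ κ₂ φ₂ s T X x ∧ K3 ρ κ₁ φ₁ κ₂ φ₂ s T X x ≤ 4 := by
  unfold K3 w1
  have h1 := hρ.nonneg ((x - T) / X)
  have h2 := hρ.le_one ((x - T) / X)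
  have h3 : 0 ≤ 1 + Real.cos (4 * π * √(κ₁ * x) + φ₁) ∧
      1 + Real.cos (4 * π * √(κ₁ * x) + φ₁) ≤ 2 := by
    constructor
    · linarith [Real.neg_one_le_cos (4 * π * √(κ₁ * x) + φ₁)]
    · linarith [Real.cos_le_one (4 * π * √(κ₁ * x) + φ₁)]
  have h4 : |s * Real.cos (6 * π * (κ₂ * x) ^ (1 / 3 : ℝ) + φ₂)| ≤ 1 := by
    rw [abs_mul]
    calc |s| * |Real.cos (6 * π * (κ₂ * x) ^ (1 / 3 : ℝ) + φ₂)| ≤ 1 * 1 :=
          mul_le_mul hs (Real.abs_cos_le_one _) (abs_nonneg _) zero_le_one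
      _ = 1 := one_mul 1
  have h5 := abs_le.1 h4
  have h6 : 0 ≤ ρ ((x - T) / X) * (1 + Real.cos (4 * π * √(κ₁ * x) + φ₁)) := mul_nonneg h1 h3.1
  have h7 : ρ ((x - T) / X) * (1 + Real.cos (4 * π * √(κ₁ * x) + φ₁)) ≤ 2 := by
    calc ρ ((x - T) / X) * (1 + Real.cos (4 * π * √(κ₁ * x) + φ₁)) ≤ 1 * 2 :=
          mul_le_mul h2 h3.2 h3.1 zero_le_one
      _ = 2 := one_mul 2
  constructor
  · exact mul_nonneg h6 (by linarith)
  · calc _ ≤ 2 * 2 := mul_le_mul h7 (by linarith) (by linarith) zero_le_two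
      _ = 4 := by norm_num

private theorem AS1_supp {ρ : ℝ → ℝ} (hρ : IsBump ρ (1 / 4) (3 / 8) (5 / 8) (3 / 4)) {T X x : ℝ}
    (hX : 0 < X) (hx : x ∉ Ioo T (T + X)) : w1 ρ T X x = 0 := by
  unfold w1
  refine hρ.zero _ fun h => hx ?_
  have h1 := h.1
  have h2 := h.2
  rw [le_div_iff₀ hX] at h1
  rw [div_le_iff₀ hX] at h2
  constructor <;> linarith

/-- **AS1.** The kernel: continuity, support, size and mass. -/
theorem K3_facts {ρ : ℝ → ℝ} (hρ : IsBump ρ (1 / 4) (3 / 8) (5 / 8) (3 / 4)) {T X s : ℝ}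
    (hT : 1 ≤ T) (hX : 0 < X) (hs : |s| ≤ 1) (κ₁ φ₁ κ₂ φ₂ : ℝ) :
    ContinuousOn (K3 ρ κ₁ φ₁ κ₂ φ₂ s T X) (Ioi 0) ∧
    (∀ x, 0 ≤ K3 ρ κ₁ φ₁ κ₂ φ₂ s T X x ∧ K3 ρ κ₁ φ₁ κ₂ φ₂ s T X x ≤ 4) ∧
    (∀ x, x ∉ Ioo T (T + X) → K3 ρ κ₁ φ₁ κ₂ φ₂ s T X x = 0) ∧
    ∫ x in T..(T + X), K3 ρ κ₁ φ₁ κ₂ φ₂ s T X x ≤ 4 * X := by
  refine ⟨(AS1_cont hρ T X s κ₁ φ₁ κ₂ φ₂).continuousOn, AS1_bd hρ hs κ₁ φ₁ κ₂ φ₂ T X, ?_, ?_⟩
  · intro x hx
    unfold K3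
    rw [AS1_supp hρ hX hx, zero_mul, zero_mul]
  · have h1 : ∫ x in T..(T + X), K3 ρ κ₁ φ₁ κ₂ φ₂ s T X x ≤ ∫ _ in T..(T + X), (4 : ℝ) := by
      refine intervalIntegral.integral_mono_on (by linarith)
        ((AS1_cont hρ T X s κ₁ φ₁ κ₂ φ₂).intervalIntegrable _ _)
        (continuous_const.intervalIntegrable _ _) ?_
      intro x _
      exact (AS1_bd hρ hs κ₁ φ₁ κ₂ φ₂ T X x).2
    refine h1.trans (le_of_eq ?_)
    rw [intervalIntegral.integral_const, smul_eq_mul]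
    ring
--END AS1

--BEGIN AS2
private noncomputable def AS2_d (z : ℂ) (i : ℤ) : ℂ := if i = 1 then z / 2 else conj z / 2

private noncomputable def AS2_f (φ : ℝ) (j : ℤ) : ℂ :=
  if j = 0 then 1 else 1 / 2 * cexp (I * ((j * φ : ℝ) : ℂ))

private noncomputable def AS2_c (s θ : ℝ) (l : ℤ) : ℂ :=
  if l = 0 then 1 else s / 2 * cexp (I * ((l * θ : ℝ) : ℂ))

private theorem AS2_d_norm (z : ℂ) (i : ℤ) : ‖AS2_d z i‖ ≤ ‖z‖ := by
  have h := norm_nonneg z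
  unfold AS2_d
  split_ifs
  · rw [norm_div, Complex.norm_ofNat]
    linarith
  · rw [norm_div, Complex.norm_ofNat, RCLike.norm_conj]
    linarith

private theorem AS2_f_norm (φ : ℝ) (j : ℤ) : ‖AS2_f φ j‖ ≤ 1 := by
  unfold AS2_f
  split_ifs
  · simp
  · rw [norm_mul, Complex.norm_exp_I_mul_ofReal, mul_one, norm_div, norm_one,
      Complex.norm_ofNat]
    norm_num

private theorem AS2_c_norm {s : ℝ} (hs : |s| ≤ 1) (θ : ℝ) (l : ℤ) : ‖AS2_c s θ l‖ ≤ 1 := by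
  unfold AS2_c
  split_ifs
  · simp
  · rw [norm_mul, Complex.norm_exp_I_mul_ofReal, mul_one, norm_div, Complex.norm_real,
      Real.norm_eq_abs, Complex.norm_ofNat]
    linarith

private theorem AS2_e_add (a b : ℝ) : e (a + b) = e a * e b := by
  unfold e
  rw [← Complex.exp_add]
  push_cast
  ring_nf

private theorem AS2_e_norm (a : ℝ) : ‖e a‖ = 1 := by
  unfold e
  have : (2 * π * I * a : ℂ) = I * ((2 * π * a : ℝ) : ℂ) := by push_cast; ring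
  rw [this, Complex.norm_exp_I_mul_ofReal]

private theorem AS2_conj (t : ℝ) : conj (e t) = e (-t) := by
  unfold e
  rw [← Complex.exp_conj]
  congr 1
  have h : (2 * π * I * t : ℂ) = ((2 * π * t : ℝ) : ℂ) * I := by
    push_cast
    ring
  rw [h, map_mul, Complex.conj_ofReal, Complex.conj_I]
  push_cast
  ring

private theorem AS2_sum2 (f : ℤ → ℂ) : ∑ i ∈ ({-1, 1} : Finset ℤ), f i = f (-1) + f 1 := by
  rw [Finset.sum_insert (by decide), Finset.sum_singleton]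

private theorem AS2_sum3 (f : ℤ → ℂ) :
    ∑ l ∈ Finset.Icc (-1 : ℤ) 1, f l = f (-1) + f 0 + f 1 := by
  have : Finset.Icc (-1 : ℤ) 1 = {-1, 0, 1} := by decide
  rw [this, Finset.sum_insert (by decide), Finset.sum_insert (by decide), Finset.sum_singleton,
    add_assoc]

private theorem AS2_cos1 {κ : ℝ} (hκ : 0 < κ) (φ x : ℝ) :
    ((1 + Real.cos (4 * π * √(κ * x) + φ) : ℝ) : ℂ) =
      ∑ j ∈ Finset.Icc (-1 : ℤ) 1, AS2_f φ j * e (2 * (j * √κ) * √x) := by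
  rw [AS2_sum3, Real.sqrt_mul hκ.le]
  push_cast
  rw [Complex.cos]
  have e0 : e (2 * ((0 : ℤ) * √κ) * √x) = 1 := by
    unfold e
    simp
  have e1 : cexp ((4 * π * (√κ * √x) + φ) * I) =
      e (2 * ((1 : ℤ) * √κ) * √x) * cexp (I * (((1 : ℤ) * φ : ℝ) : ℂ)) := by
    unfold e
    rw [← Complex.exp_add]
    congr 1
    push_cast
    ring
  have e2 : cexp (-(4 * π * (√κ * √x) + φ) * I) =
      e (2 * ((-1 : ℤ) * √κ) * √x) * cexp (I * (((-1 : ℤ) * φ : ℝ) : ℂ)) := by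
    unfold e
    rw [← Complex.exp_add]
    congr 1
    push_cast
    ring
  simp only [Int.cast_zero, Int.cast_one, Int.cast_neg] at e0 e1 e2 ⊢
  rw [e0, e1, e2]
  simp only [AS2_f, if_neg (by decide : ¬ (-1 : ℤ) = 0), if_neg (by decide : ¬ (1 : ℤ) = 0),
    if_pos, Int.cast_one, Int.cast_neg]
  ring

private theorem AS2_cos2 {κ : ℝ} (hκ : 0 < κ) (s φ : ℝ) {x : ℝ} (hx : 0 < x) :
    ((1 + s * Real.cos (6 * π * (κ * x) ^ (1 / 3 : ℝ) + φ) : ℝ) : ℂ) =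
      ∑ l ∈ Finset.Icc (-1 : ℤ) 1, AS2_c s φ l * e (3 * l * κ ^ (1 / 3 : ℝ) * x ^ (1 / 3 : ℝ)) := by
  rw [AS2_sum3, Real.mul_rpow hκ.le hx.le]
  set u := κ ^ (1 / 3 : ℝ)
  set v := x ^ (1 / 3 : ℝ)
  push_cast
  rw [Complex.cos]
  have e0 : e (3 * ((0 : ℤ) : ℝ) * u * v) = 1 := by
    unfold e
    simp
  have e1 : cexp ((6 * π * (u * v) + φ) * I) =
      e (3 * ((1 : ℤ) : ℝ) * u * v) * cexp (I * (((1 : ℤ) * φ : ℝ) : ℂ)) := by
    unfold e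
    rw [← Complex.exp_add]
    congr 1
    push_cast
    ring
  have e2 : cexp (-(6 * π * (u * v) + φ) * I) =
      e (3 * ((-1 : ℤ) : ℝ) * u * v) * cexp (I * (((-1 : ℤ) * φ : ℝ) : ℂ)) := by
    unfold e
    rw [← Complex.exp_add]
    congr 1
    push_cast
    ring
  simp only [Int.cast_zero, Int.cast_one, Int.cast_neg] at e0 e1 e2 ⊢
  rw [e0, e1, e2]
  simp only [AS2_c, if_neg (by decide : ¬ (-1 : ℤ) = 0), if_neg (by decide : ¬ (1 : ℤ) = 0),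
    if_pos, Int.cast_one, Int.cast_neg]
  ring

private theorem AS2_split {T x : ℝ} (hT : 0 < T) (hx : 0 < x) (γ : ℝ) :
    x ^ γ = T ^ γ * (x / T) ^ γ := by
  rw [Real.div_rpow hx.le hT.le, mul_div_cancel₀ _ (Real.rpow_pos_of_pos hT γ).ne']

private theorem AS2_re {κ : ℝ} (hκ : 0 < κ) (z : ℂ) (m : ℕ) {x : ℝ} (_hx : 0 < x) :
    (((z * e (2 * √(κ * m * x))).re : ℝ) : ℂ) =
      ∑ i ∈ ({-1, 1} : Finset ℤ), AS2_d z i * e (2 * (i * √(κ * m)) * √x) := by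
  rw [AS2_sum2, Complex.re_eq_add_conj, map_mul, AS2_conj,
    Real.sqrt_mul (by positivity : 0 ≤ κ * m)]
  have h1 : AS2_d z 1 = z / 2 := by
    unfold AS2_d
    rw [if_pos rfl]
  have h2 : AS2_d z (-1) = conj z / 2 := by
    unfold AS2_d
    rw [if_neg (by decide)]
  have h3 : 2 * (((1 : ℤ) : ℝ) * √(κ * m)) * √x = 2 * (√(κ * m) * √x) := by
    push_cast
    ring
  have h4 : 2 * (((-1 : ℤ) : ℝ) * √(κ * m)) * √x = -(2 * (√(κ * m) * √x)) := by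
    push_cast
    ring
  rw [h1, h2, h3, h4]
  ring

private theorem AS2_Am_nn {T X C : ℝ} {a : ℝ → ℂ} (h : Am T X C a) : 0 ≤ C :=
  (norm_nonneg _).trans (h.b0 0)

private theorem AS2_Am_mono {T X C C' : ℝ} {a : ℝ → ℂ} (h : Am T X C a) (hX : 0 < X)
    (hC : C ≤ C') : Am T X C' a :=
  ⟨h.smooth, h.supp, fun x => (h.b0 x).trans hC,
    fun x => (h.b1 x).trans (by gcongr), fun x => (h.b2 x).trans (by gcongr)⟩

private theorem AS2_Am_zero (T X : ℝ) : Am T X 0 (fun _ => 0) := by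
  refine ⟨contDiff_const, fun _ _ => rfl, ?_, ?_, ?_⟩ <;> intro x <;> simp

private theorem AS2_Am_const {T X C M : ℝ} {a : ℝ → ℂ} (hX : 0 < X) (h : Am T X C a) (z : ℂ)
    (hz : ‖z‖ ≤ M) : Am T X (M * C) (fun x => z * a x) := by
  have h1 := Am_lin hX (AS2_Am_zero T X) h z
  have h2 : (fun x => 0 + z * a x) = fun x => z * a x := by
    funext x
    rw [zero_add]
  rw [h2] at h1
  refine AS2_Am_mono h1 hX ?_
  rw [zero_add]
  exact mul_le_mul_of_nonneg_right hz (AS2_Am_nn h)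

private theorem AS2_ps (a b c x : ℝ) :
    e (ps (a + b) c x) = e (2 * a * √x) * e (2 * b * √x) * e (c * x ^ (1 / 3 : ℝ)) := by
  rw [← AS2_e_add, ← AS2_e_add]
  unfold ps
  congr 1
  ring

/-- **AS2.** `x^{1/4} Re(z e(2√(κ₁mx))) K(x)` as a sum of 18 exponentials, amplitudes independent
of `m` (compare AB5 `term_expand`; OS6). -/
theorem K3_expand {ρ : ℝ → ℝ} (hρ : IsBump ρ (1 / 4) (3 / 8) (5 / 8) (3 / 4)) {κ₁ κ₂ : ℝ}
    (h1 : 0 < κ₁) (h2 : 0 < κ₂) (z : ℂ) : ∃ D : ℝ, 0 < D ∧ ∀ T X s φ₁ φ₂ : ℝ, 1 ≤ X → X ≤ T →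
      |s| ≤ 1 → ∃ g : ℤ → ℤ → ℤ → ℝ → ℂ, (∀ i j l : ℤ, |i| ≤ 1 → |j| ≤ 1 → |l| ≤ 1 →
        Am T X D (g i j l)) ∧
      ∀ (m : ℕ) (x : ℝ), 0 < x →
        ((x ^ (1 / 4 : ℝ) * (z * e (2 * √(κ₁ * m * x))).re * K3 ρ κ₁ φ₁ κ₂ φ₂ s T X x : ℝ) : ℂ) =
        ((T ^ (1 / 4 : ℝ) : ℝ) : ℂ) * ∑ i ∈ ({-1, 1} : Finset ℤ), ∑ j ∈ Finset.Icc (-1 : ℤ) 1,
          ∑ l ∈ Finset.Icc (-1 : ℤ) 1, g i j l x *
            e (ps (i * √(κ₁ * m) + j * √κ₁) (3 * l * κ₂ ^ (1 / 3 : ℝ)) x) := by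
  obtain ⟨C, hC, hw⟩ := w1_Am hρ
  obtain ⟨D, hD, hpow⟩ := Am_rpow (‖z‖ * C) (1 / 4)
  refine ⟨D, hD, ?_⟩
  intro T X s φ₁ φ₂ hX hXT hs
  have hX0 : 0 < X := by linarith
  have hT0 : 0 < T := by linarith
  refine ⟨fun i j l x => (((x / T) ^ (1 / 4 : ℝ) : ℝ) : ℂ) *
    ((AS2_d z i * AS2_f φ₁ j * AS2_c s φ₂ l) * (w1 ρ T X x : ℂ)), ?_, ?_⟩
  · intro i j l _ _ _
    refine hpow T X _ hX hXT (AS2_Am_const hX0 (hw T X hX0) _ ?_)
    rw [norm_mul, norm_mul]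
    calc ‖AS2_d z i‖ * ‖AS2_f φ₁ j‖ * ‖AS2_c s φ₂ l‖ ≤ ‖z‖ * 1 * 1 :=
          mul_le_mul (mul_le_mul (AS2_d_norm z i) (AS2_f_norm φ₁ j) (norm_nonneg _)
            (norm_nonneg _)) (AS2_c_norm hs φ₂ l) (norm_nonneg _) (by positivity)
      _ = ‖z‖ := by ring
  · intro m x hx
    have h1' : ((x ^ (1 / 4 : ℝ) * (z * e (2 * √(κ₁ * m * x))).re *
        K3 ρ κ₁ φ₁ κ₂ φ₂ s T X x : ℝ) : ℂ) = ((T ^ (1 / 4 : ℝ) : ℝ) : ℂ) *
        ((((x / T) ^ (1 / 4 : ℝ) : ℝ) : ℂ) * (w1 ρ T X x : ℂ) *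
        ((((z * e (2 * √(κ₁ * m * x))).re : ℝ) : ℂ) *
        ((1 + Real.cos (4 * π * √(κ₁ * x) + φ₁) : ℝ) : ℂ) *
        ((1 + s * Real.cos (6 * π * (κ₂ * x) ^ (1 / 3 : ℝ) + φ₂) : ℝ) : ℂ))) := by
      unfold K3
      rw [AS2_split hT0 hx (1 / 4)]
      push_cast
      ring
    rw [h1', AS2_re h1 z m hx, AS2_cos1 h1, AS2_cos2 h2 s φ₂ hx, AS2_sum2]
    simp only [AS2_sum3, AS2_sum2]
    simp only [AS2_ps]
    ring
--END AS2

variable {a b : ℕ → ℝ} {L Lg : ℂ → ℂ} {κ₁ κ₂ L0 C0 : ℝ} {c0 : ℂ} {c : Fin 3 → ℂ} {d : Fin 4 → ℂ}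
variable {S : ℝ → ℝ}

--BEGIN AS3
private theorem AS3_int (h : RealSelberg b Lg 3) {p q : ℝ} (hp : 0 < p) :
    IntegrableOn (errTerm b Lg) (Icc p q) := by
  rcases le_or_gt p q with hpq | hpq
  · have h1 := (errTerm3_int h q (by linarith)).1
    exact h1.mono_set fun x hx => ⟨lt_of_lt_of_le hp hx.1, hx.2⟩
  · rw [Icc_eq_empty (by linarith)]
    exact integrableOn_empty

private theorem AS3_X {T ξ : ℝ} (hT : 1 ≤ T) (hξ : 0 < ξ) (hξ' : ξ < 1 / 6) :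
    1 ≤ T ^ (1 - ξ) ∧ T ^ (1 - ξ) ≤ T := by
  refine ⟨Real.one_le_rpow hT (by linarith), ?_⟩
  calc T ^ (1 - ξ) ≤ T ^ (1 : ℝ) := Real.rpow_le_rpow_of_exponent_le hT (by linarith)
    _ = T := Real.rpow_one T

private theorem AS3_ps_cont (l mu : ℝ) : Continuous fun x => e (ps l mu x) := by
  unfold e ps
  have h1 : Continuous fun x : ℝ => x ^ (1 / 3 : ℝ) :=
    continuous_id.rpow_const fun x => Or.inr (by norm_num)
  have h2 : Continuous fun x : ℝ => 2 * l * √x + mu * x ^ (1 / 3 : ℝ) :=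
    (continuous_const.mul Real.continuous_sqrt).add (continuous_const.mul h1)
  exact Complex.continuous_exp.comp (continuous_const.mul (Complex.continuous_ofReal.comp h2))

private theorem AS3_mem2 {i : ℤ} (hi : i ∈ ({-1, 1} : Finset ℤ)) : |i| ≤ 1 := by
  rw [Finset.mem_insert, Finset.mem_singleton] at hi
  rcases hi with rfl | rfl <;> decide

private theorem AS3_mem3 {l : ℤ} (hl : l ∈ Finset.Icc (-1 : ℤ) 1) : |l| ≤ 1 := by
  rw [Finset.mem_Icc] at hl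
  exact abs_le.2 hl

/-- integration of a finite sum of exponentials against a locally integrable function -/
private theorem AS3_eq {ι : Type*} (s : Finset ι) {p q : ℝ} (hpq : p ≤ q) {R : ℝ → ℝ}
    (hR : IntegrableOn R (Icc p q)) {G : ℝ → ℝ} {z : ℂ} {F : ι → ℝ → ℂ}
    (hF : ∀ i ∈ s, ContinuousOn (F i) (Icc p q))
    (hG : ∀ x ∈ Icc p q, (G x : ℂ) = z * ∑ i ∈ s, F i x) :
    ((∫ x in p..q, R x * G x : ℝ) : ℂ) = z * ∑ i ∈ s, ∫ x in p..q, (R x : ℂ) * F i x := by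
  rw [← intervalIntegral.integral_ofReal]
  have hRC : IntegrableOn (fun x => (R x : ℂ)) (Icc p q) := hR.ofReal
  have hint : ∀ i ∈ s, IntegrableOn (fun x => (R x : ℂ) * F i x) (Ioc p q) := fun i hi =>
    (hRC.mul_continuousOn (hF i hi) isCompact_Icc).mono_set Ioc_subset_Icc_self
  simp only [intervalIntegral.integral_of_le hpq]
  have h3 : ∫ x in Ioc p q, ((R x * G x : ℝ) : ℂ) =
      ∫ x in Ioc p q, z * ∑ i ∈ s, (R x : ℂ) * F i x := by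
    refine setIntegral_congr_fun measurableSet_Ioc fun x hx => ?_
    show ((R x * G x : ℝ) : ℂ) = z * ∑ i ∈ s, (R x : ℂ) * F i x
    rw [ofReal_mul, hG x (Ioc_subset_Icc_self hx), ← Finset.mul_sum]
    ring
  rw [h3, integral_const_mul]
  congr 1
  rw [integral_finsetSum _ fun i hi => hint i hi]

private theorem AS3_gen {ι : Type*} (s : Finset ι) {p q : ℝ} (hpq : p ≤ q) {R : ℝ → ℝ}
    (hR : IntegrableOn R (Icc p q)) {G : ℝ → ℝ} {z : ℂ} {F : ι → ℝ → ℂ} {B : ℝ}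
    (hF : ∀ i ∈ s, ContinuousOn (F i) (Icc p q))
    (hG : ∀ x ∈ Icc p q, (G x : ℂ) = z * ∑ i ∈ s, F i x)
    (hB : ∀ i ∈ s, ‖∫ x in p..q, (R x : ℂ) * F i x‖ ≤ B) :
    |∫ x in p..q, R x * G x| ≤ ‖z‖ * (s.card * B) := by
  rw [← Real.norm_eq_abs, ← Complex.norm_real, AS3_eq s hpq hR hF hG, norm_mul]
  refine mul_le_mul_of_nonneg_left ?_ (norm_nonneg _)
  calc ‖∑ i ∈ s, ∫ x in p..q, (R x : ℂ) * F i x‖ ≤ ∑ _i ∈ s, B := norm_sum_le_of_le _ hB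
    _ = s.card * B := by rw [Finset.sum_const, nsmul_eq_mul]

private theorem AS3_lam {κ : ℝ} (hκ : 0 < κ) {m : ℕ} (hm : 2 ≤ m) {i j : ℤ}
    (hi : i ∈ ({-1, 1} : Finset ℤ)) (hj : |j| ≤ 1) :
    (√2 - 1) * √κ ≤ |i * √(κ * m) + j * √κ| ∧ |i * √(κ * m) + j * √κ| ≤ 2 * √κ * √m := by
  have hr : 0 < √κ := Real.sqrt_pos.2 hκ
  have ht : √2 ≤ √m := Real.sqrt_le_sqrt (by exact_mod_cast hm)
  have h2 : 1 < √2 := by
    rw [Real.lt_sqrt (by norm_num)]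
    norm_num
  have hj' : |(j : ℝ)| ≤ 1 := by exact_mod_cast hj
  have hj2 := abs_le.1 hj'
  have e1 : i * √(κ * m) + j * √κ = √κ * (i * √m + j) := by
    rw [Real.sqrt_mul hκ.le]
    ring
  rw [e1, abs_mul, abs_of_pos hr]
  have h3 : √2 - 1 ≤ |i * √m + j| ∧ |i * √m + j| ≤ 2 * √m := by
    rw [Finset.mem_insert, Finset.mem_singleton] at hi
    rcases hi with rfl | rfl
    · push_cast
      rw [abs_of_neg (by linarith)]
      constructor <;> linarith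
    · push_cast
      rw [abs_of_pos (by linarith)]
      constructor <;> linarith
  constructor
  · calc (√2 - 1) * √κ = √κ * (√2 - 1) := mul_comm _ _
      _ ≤ _ := mul_le_mul_of_nonneg_left h3.1 hr.le
  · calc _ ≤ √κ * (2 * √m) := mul_le_mul_of_nonneg_left h3.2 hr.le
      _ = 2 * √κ * √m := by ring

private theorem AS3_l0 {κ : ℝ} (hκ : 0 < κ) : 0 < (√2 - 1) * √κ := by
  have h2 : 1 < √2 := by
    rw [Real.lt_sqrt (by norm_num)]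
    norm_num
  exact mul_pos (by linarith) (Real.sqrt_pos.2 hκ)

private theorem AS3_mu {κ : ℝ} (hκ : 0 < κ) {l : ℤ} (hl : |l| ≤ 1) :
    |3 * (l : ℝ) * κ ^ (1 / 3 : ℝ)| ≤ 3 * κ ^ (1 / 3 : ℝ) := by
  have hl' : |(l : ℝ)| ≤ 1 := by exact_mod_cast hl
  have hp : 0 < κ ^ (1 / 3 : ℝ) := by positivity
  rw [abs_mul, abs_mul, abs_of_pos hp, abs_of_pos (by norm_num : (0 : ℝ) < 3)]
  calc 3 * |(l : ℝ)| * κ ^ (1 / 3 : ℝ) ≤ 3 * 1 * κ ^ (1 / 3 : ℝ) := by gcongr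
    _ = 3 * κ ^ (1 / 3 : ℝ) := by ring

/-- `c T^{1/10} ≤ T^{1/8}` for large `T` -/
private theorem AS3_big {c T : ℝ} (hc : 0 ≤ c) (hT : (c + 1) ^ (40 : ℝ) ≤ T) :
    c * T ^ (1 / 10 : ℝ) ≤ T ^ (1 / 8 : ℝ) := by
  have hc1 : (0 : ℝ) < c + 1 := by linarith
  have hT0 : 0 < T := lt_of_lt_of_le (Real.rpow_pos_of_pos hc1 _) hT
  have h1 : c + 1 ≤ T ^ (1 / 40 : ℝ) := by
    have h2 := Real.rpow_le_rpow (by positivity) hT (by norm_num : (0 : ℝ) ≤ 1 / 40)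
    rwa [← Real.rpow_mul hc1.le, show (40 : ℝ) * (1 / 40) = 1 by norm_num, Real.rpow_one] at h2
  have h3 : T ^ (1 / 8 : ℝ) = T ^ (1 / 40 : ℝ) * T ^ (1 / 10 : ℝ) := by
    rw [← Real.rpow_add hT0]
    norm_num
  rw [h3]
  have h4 : 0 < T ^ (1 / 10 : ℝ) := by positivity
  nlinarith

/-- **AS3.** One term `m ≥ 2`, `√m ≤ T^{1/10}` (AS2, OS10; `|λ| ≥ (√2-1)√κ₁`, `|λ| ≤ 2√(κ₁m)`). -/
theorem term3 (h : RealSelberg b Lg 3) (hw : Wk b Lg κ₂ C0 c d S) {ρ : ℝ → ℝ}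
    (hρ : IsBump ρ (1 / 4) (3 / 8) (5 / 8) (3 / 4)) (h1 : 0 < κ₁) (z : ℂ) {ξ ε : ℝ} (hξ : 0 < ξ)
    (hξ' : ξ < 1 / 6) (hε : 0 < ε) : ∃ C T0 : ℝ, 0 < C ∧ 1 ≤ T0 ∧ ∀ (T s φ₁ φ₂ : ℝ) (m : ℕ),
      T0 ≤ T → |s| ≤ 1 → 2 ≤ m → √m ≤ T ^ (1 / 10 : ℝ) →
      |∫ x in T..(T + T ^ (1 - ξ)), errTerm b Lg x * (x ^ (1 / 4 : ℝ) *
        (z * e (2 * √(κ₁ * m * x))).re * K3 ρ κ₁ φ₁ κ₂ φ₂ s T (T ^ (1 - ξ)) x)| ≤
        C * (m : ℝ) ^ (1 / 4 : ℝ) * T ^ ((1 - ξ) + 1 / 2 + ε) := by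
  have hk2 := hw.kpos
  obtain ⟨D, hD, hE⟩ := K3_expand hρ h1 hk2 z
  have hB0 : 0 ≤ 3 * κ₂ ^ (1 / 3 : ℝ) := by positivity
  obtain ⟨C2, T0, hC2, hT0, hS⟩ := osc_Eg h hw (D := D) (AS3_l0 h1) hB0 hε hξ hξ'
  have hr : 0 < √κ₁ := Real.sqrt_pos.2 h1
  refine ⟨18 * (C2 * (2 * √κ₁) ^ (1 / 2 : ℝ)), max T0 ((2 * √κ₁ + 1) ^ (40 : ℝ)), by positivity,
    hT0.trans (le_max_left _ _), ?_⟩
  intro T s φ₁ φ₂ m hT hs hm hmT
  have hT' : T0 ≤ T := (le_max_left _ _).trans hT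
  have hT1 : 1 ≤ T := hT0.trans hT'
  have hTp : 0 < T := by linarith
  obtain ⟨hX1, hX2⟩ := AS3_X hT1 hξ hξ'
  obtain ⟨g, hg, hexp⟩ := hE T (T ^ (1 - ξ)) s φ₁ φ₂ hX1 hX2 hs
  have hR : IntegrableOn (errTerm b Lg) (Icc T (T + T ^ (1 - ξ))) := AS3_int h hTp
  let I3 : Finset (ℤ × ℤ × ℤ) := ({-1, 1} : Finset ℤ) ×ˢ (Finset.Icc (-1 : ℤ) 1) ×ˢ
    (Finset.Icc (-1 : ℤ) 1)
  have hcard : I3.card = 18 := by
    simp only [I3, Finset.card_product]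
    rw [Finset.card_pair (by decide)]
    simp
  have key := AS3_gen I3 (z := ((T ^ (1 / 4 : ℝ) : ℝ) : ℂ))
    (B := C2 * ((2 * √κ₁) ^ (1 / 2 : ℝ) * (m : ℝ) ^ (1 / 4 : ℝ)) * T ^ ((1 - ξ) + 1 / 4 + ε))
    (G := fun x => x ^ (1 / 4 : ℝ) * (z * e (2 * √(κ₁ * m * x))).re *
      K3 ρ κ₁ φ₁ κ₂ φ₂ s T (T ^ (1 - ξ)) x)
    (F := fun p x => g p.1 p.2.1 p.2.2 x *
      e (ps (p.1 * √(κ₁ * m) + p.2.1 * √κ₁) (3 * p.2.2 * κ₂ ^ (1 / 3 : ℝ)) x))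
    (by linarith : T ≤ T + T ^ (1 - ξ)) hR ?_ ?_ ?_
  · refine key.trans (le_of_eq ?_)
    rw [hcard, Complex.norm_real, Real.norm_of_nonneg (by positivity)]
    have h6 : T ^ ((1 - ξ) + 1 / 2 + ε) = T ^ (1 / 4 : ℝ) * T ^ ((1 - ξ) + 1 / 4 + ε) := by
      rw [← Real.rpow_add hTp]
      congr 1
      ring
    rw [h6]
    push_cast
    ring
  · rintro ⟨i, j, l⟩ hp
    simp only [I3, Finset.mem_product] at hp
    exact ((hg i j l (AS3_mem2 hp.1) (AS3_mem3 hp.2.1) (AS3_mem3 hp.2.2)).smooth.continuous.mul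
      (AS3_ps_cont _ _)).continuousOn
  · intro x hx
    simp only [I3, Finset.sum_product]
    exact hexp m x (lt_of_lt_of_le hTp hx.1)
  · rintro ⟨i, j, l⟩ hp
    simp only [I3, Finset.mem_product] at hp
    obtain ⟨hl1, hl2⟩ := AS3_lam h1 hm hp.1 (AS3_mem3 hp.2.1)
    have hbig : 2 * √κ₁ * √m ≤ T ^ (1 / 8 : ℝ) := by
      calc 2 * √κ₁ * √m ≤ 2 * √κ₁ * T ^ (1 / 10 : ℝ) := by gcongr
        _ ≤ T ^ (1 / 8 : ℝ) := AS3_big (by positivity) ((le_max_right _ _).trans hT)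
    refine (hS T _ _ _ hT' hl1 (hl2.trans hbig) (AS3_mu hk2 (AS3_mem3 hp.2.2))
      (hg i j l (AS3_mem2 hp.1) (AS3_mem3 hp.2.1) (AS3_mem3 hp.2.2))).trans ?_
    have h3 : |i * √(κ₁ * m) + j * √κ₁| ^ (1 / 2 : ℝ) ≤
        (2 * √κ₁) ^ (1 / 2 : ℝ) * (m : ℝ) ^ (1 / 4 : ℝ) := by
      calc |i * √(κ₁ * m) + j * √κ₁| ^ (1 / 2 : ℝ) ≤ (2 * √κ₁ * √m) ^ (1 / 2 : ℝ) :=
            Real.rpow_le_rpow (abs_nonneg _) hl2 (by norm_num)
        _ = (2 * √κ₁) ^ (1 / 2 : ℝ) * (√m) ^ (1 / 2 : ℝ) :=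
            Real.mul_rpow (by positivity) (Real.sqrt_nonneg _)
        _ = (2 * √κ₁) ^ (1 / 2 : ℝ) * (m : ℝ) ^ (1 / 4 : ℝ) := by
            rw [Real.sqrt_eq_rpow (m : ℝ), ← Real.rpow_mul (Nat.cast_nonneg m)]
            norm_num
    gcongr
--END AS3

--BEGIN AS4
private noncomputable def AS4_k (z : ℂ) (i : ℤ) : ℂ :=
  (if |i| = 1 then (‖z‖ / 2 : ℂ) else (‖z‖ / 4 : ℂ)) * cexp (I * ((i * arg z : ℝ) : ℂ))

private theorem AS4_k_norm (z : ℂ) (i : ℤ) : ‖AS4_k z i‖ ≤ ‖z‖ := by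
  have h := norm_nonneg z
  unfold AS4_k
  rw [norm_mul, Complex.norm_exp_I_mul_ofReal, mul_one]
  split_ifs
  · rw [norm_div, Complex.norm_ofNat, Complex.norm_real, Real.norm_of_nonneg h]
    linarith
  · rw [norm_div, Complex.norm_ofNat, Complex.norm_real, Real.norm_of_nonneg h]
    linarith

private theorem AS4_re (z : ℂ) (y : ℝ) : (z * e y).re = ‖z‖ * Real.cos (2 * π * y + arg z) := by
  have h1 : z * e y = (‖z‖ : ℂ) * cexp (((2 * π * y + arg z : ℝ) : ℂ) * I) := by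
    conv_lhs => rw [← Complex.norm_mul_exp_arg_mul_I z]
    unfold e
    rw [mul_assoc, ← Complex.exp_add]
    congr 2
    push_cast
    ring
  rw [h1, Complex.re_ofReal_mul, Complex.exp_ofReal_mul_I_re]

private theorem AS4_sum4 (f : ℤ → ℂ) :
    ∑ i ∈ ({-2, -1, 1, 2} : Finset ℤ), f i = f (-2) + (f (-1) + (f 1 + f 2)) := by
  rw [Finset.sum_insert (by decide), Finset.sum_insert (by decide), Finset.sum_insert (by decide),
    Finset.sum_singleton]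

private theorem AS4_cos {κ : ℝ} (hκ : 0 < κ) (z : ℂ) (x : ℝ) :
    ((‖z‖ * (Real.cos (4 * π * √(κ * x) + arg z) +
      1 / 2 * Real.cos (2 * (4 * π * √(κ * x) + arg z))) : ℝ) : ℂ) =
      ∑ i ∈ ({-2, -1, 1, 2} : Finset ℤ), AS4_k z i * e (2 * (i * √κ) * √x) := by
  rw [AS4_sum4, Real.sqrt_mul hκ.le]
  push_cast
  rw [Complex.cos, Complex.cos]
  have e1 : cexp ((4 * π * (√κ * √x) + arg z) * I) =
      e (2 * ((1 : ℤ) * √κ) * √x) * cexp (I * (((1 : ℤ) * arg z : ℝ) : ℂ)) := by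
    unfold e
    rw [← Complex.exp_add]
    congr 1
    push_cast
    ring
  have e2 : cexp (-(4 * π * (√κ * √x) + arg z) * I) =
      e (2 * ((-1 : ℤ) * √κ) * √x) * cexp (I * (((-1 : ℤ) * arg z : ℝ) : ℂ)) := by
    unfold e
    rw [← Complex.exp_add]
    congr 1
    push_cast
    ring
  have e3 : cexp (2 * (4 * π * (√κ * √x) + arg z) * I) =
      e (2 * ((2 : ℤ) * √κ) * √x) * cexp (I * (((2 : ℤ) * arg z : ℝ) : ℂ)) := by
    unfold e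
    rw [← Complex.exp_add]
    congr 1
    push_cast
    ring
  have e4 : cexp (-(2 * (4 * π * (√κ * √x) + arg z)) * I) =
      e (2 * ((-2 : ℤ) * √κ) * √x) * cexp (I * (((-2 : ℤ) * arg z : ℝ) : ℂ)) := by
    unfold e
    rw [← Complex.exp_add]
    congr 1
    push_cast
    ring
  have k1 : AS4_k z 1 = ‖z‖ / 2 * cexp (I * (((1 : ℤ) * arg z : ℝ) : ℂ)) := by
    unfold AS4_k
    rw [if_pos (by decide)]
  have k2 : AS4_k z (-1) = ‖z‖ / 2 * cexp (I * (((-1 : ℤ) * arg z : ℝ) : ℂ)) := by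
    unfold AS4_k
    rw [if_pos (by decide)]
  have k3 : AS4_k z 2 = ‖z‖ / 4 * cexp (I * (((2 : ℤ) * arg z : ℝ) : ℂ)) := by
    unfold AS4_k
    rw [if_neg (by decide)]
  have k4 : AS4_k z (-2) = ‖z‖ / 4 * cexp (I * (((-2 : ℤ) * arg z : ℝ) : ℂ)) := by
    unfold AS4_k
    rw [if_neg (by decide)]
  rw [e1, e2, e3, e4, k1, k2, k3, k4]
  ring

private theorem AS4_ps (a c x : ℝ) :
    e (ps a c x) = e (2 * a * √x) * e (c * x ^ (1 / 3 : ℝ)) := by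
  rw [← AS2_e_add]
  unfold ps
  congr 1

/-- the trigonometric identity -/
private theorem AS4_id {κ₁ κ₂ : ℝ} (h1 : 0 < κ₁) (h2 : 0 < κ₂) (z : ℂ) (ρ : ℝ → ℝ)
    (s φ₂ T X : ℝ) (hT : 0 < T) {x : ℝ} (hx : 0 < x) :
    ((x ^ (1 / 4 : ℝ) * (z * e (2 * √(κ₁ * x))).re * K3 ρ κ₁ (arg z) κ₂ φ₂ s T X x -
      ‖z‖ / 2 * (x ^ (1 / 4 : ℝ) * (w1 ρ T X x *
        (1 + s * Real.cos (6 * π * (κ₂ * x) ^ (1 / 3 : ℝ) + φ₂)))) : ℝ) : ℂ) =
      ((T ^ (1 / 4 : ℝ) : ℝ) : ℂ) *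
        ∑ p ∈ ({-2, -1, 1, 2} : Finset ℤ) ×ˢ (Finset.Icc (-1 : ℤ) 1),
          (((x / T) ^ (1 / 4 : ℝ) : ℝ) : ℂ) *
          ((AS4_k z p.1 * AS2_c s φ₂ p.2) * (w1 ρ T X x : ℂ)) *
          e (ps (p.1 * √κ₁) (3 * p.2 * κ₂ ^ (1 / 3 : ℝ)) x) := by
  have e1 : (z * e (2 * √(κ₁ * x))).re = ‖z‖ * Real.cos (4 * π * √(κ₁ * x) + arg z) := by
    rw [AS4_re]
    congr 2
    ring
  have e2 : x ^ (1 / 4 : ℝ) * (z * e (2 * √(κ₁ * x))).re * K3 ρ κ₁ (arg z) κ₂ φ₂ s T X x -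
      ‖z‖ / 2 * (x ^ (1 / 4 : ℝ) * (w1 ρ T X x *
        (1 + s * Real.cos (6 * π * (κ₂ * x) ^ (1 / 3 : ℝ) + φ₂)))) =
      T ^ (1 / 4 : ℝ) * ((x / T) ^ (1 / 4 : ℝ) * w1 ρ T X x *
        ((‖z‖ * (Real.cos (4 * π * √(κ₁ * x) + arg z) +
          1 / 2 * Real.cos (2 * (4 * π * √(κ₁ * x) + arg z)))) *
        (1 + s * Real.cos (6 * π * (κ₂ * x) ^ (1 / 3 : ℝ) + φ₂)))) := by
    rw [e1, Real.cos_two_mul]
    unfold K3
    rw [AS2_split hT hx (1 / 4)]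
    ring
  rw [e2, Finset.sum_product]
  have e3 := AS4_cos h1 z x
  have e4 := AS2_cos2 h2 s φ₂ hx
  rw [ofReal_mul, ofReal_mul, ofReal_mul, ofReal_mul ((‖z‖ * _)), e3, e4, Finset.sum_mul_sum]
  congr 1
  rw [Finset.mul_sum]
  refine Finset.sum_congr rfl fun i _ => ?_
  rw [Finset.mul_sum]
  refine Finset.sum_congr rfl fun l _ => ?_
  rw [AS4_ps]
  ring

/-- **AS4.** The term `m = 1`: `cos u (1 + cos u) = 1/2 + cos u + (1/2) cos 2u`, the phases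
`±√κ₁`, `±2√κ₁` by OS10. -/
theorem term_one (h : RealSelberg b Lg 3) (hw : Wk b Lg κ₂ C0 c d S) {ρ : ℝ → ℝ}
    (hρ : IsBump ρ (1 / 4) (3 / 8) (5 / 8) (3 / 4)) (h1 : 0 < κ₁) (z : ℂ) {ξ ε : ℝ} (hξ : 0 < ξ)
    (hξ' : ξ < 1 / 6) (hε : 0 < ε) : ∃ C T0 : ℝ, 0 < C ∧ 1 ≤ T0 ∧ ∀ (T s φ₂ : ℝ),
      T0 ≤ T → |s| ≤ 1 →
      |(∫ x in T..(T + T ^ (1 - ξ)), errTerm b Lg x * (x ^ (1 / 4 : ℝ) *
          (z * e (2 * √(κ₁ * x))).re * K3 ρ κ₁ (arg z) κ₂ φ₂ s T (T ^ (1 - ξ)) x)) -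
        ‖z‖ / 2 * ∫ x in T..(T + T ^ (1 - ξ)), errTerm b Lg x * (x ^ (1 / 4 : ℝ) *
          (w1 ρ T (T ^ (1 - ξ)) x * (1 + s * Real.cos (6 * π * (κ₂ * x) ^ (1 / 3 : ℝ) + φ₂))))| ≤
        C * T ^ ((1 - ξ) + 1 / 2 + ε) := by
  have hk2 := hw.kpos
  obtain ⟨C, hC, hwA⟩ := w1_Am hρ
  obtain ⟨D, hD, hpow⟩ := Am_rpow (‖z‖ * C) (1 / 4)
  have hB0 : 0 ≤ 3 * κ₂ ^ (1 / 3 : ℝ) := by positivity
  have hr : 0 < √κ₁ := Real.sqrt_pos.2 h1
  obtain ⟨C2, T0, hC2, hT0, hS⟩ := osc_Eg h hw (D := D) hr hB0 hε hξ hξ'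
  refine ⟨12 * (C2 * (2 * √κ₁) ^ (1 / 2 : ℝ)), max T0 ((2 * √κ₁ + 1) ^ (40 : ℝ)), by positivity,
    hT0.trans (le_max_left _ _), ?_⟩
  intro T s φ₂ hT hs
  have hT' : T0 ≤ T := (le_max_left _ _).trans hT
  have hT1 : 1 ≤ T := hT0.trans hT'
  have hTp : 0 < T := by linarith
  obtain ⟨hX1, hX2⟩ := AS3_X hT1 hξ hξ'
  have hX0 : 0 < T ^ (1 - ξ) := by linarith
  have hR : IntegrableOn (errTerm b Lg) (Icc T (T + T ^ (1 - ξ))) := AS3_int h hTp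
  have hle : T ≤ T + T ^ (1 - ξ) := by linarith
  -- the difference as one integral
  have hc1 : ContinuousOn (fun x => x ^ (1 / 4 : ℝ) * (z * e (2 * √(κ₁ * x))).re *
      K3 ρ κ₁ (arg z) κ₂ φ₂ s T (T ^ (1 - ξ)) x) (Icc T (T + T ^ (1 - ξ))) := by
    have c1 : Continuous fun x : ℝ => x ^ (1 / 4 : ℝ) :=
      continuous_id.rpow_const fun x => Or.inr (by norm_num)
    have c2 : Continuous fun x : ℝ => e (2 * √(κ₁ * x)) := by
      unfold e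
      exact Complex.continuous_exp.comp (continuous_const.mul (Complex.continuous_ofReal.comp
        (continuous_const.mul (continuous_const.mul continuous_id).sqrt)))
    exact ((c1.mul (Complex.continuous_re.comp (continuous_const.mul c2))).mul
      (AS1_cont hρ T (T ^ (1 - ξ)) s κ₁ (arg z) κ₂ φ₂)).continuousOn
  have hc2 : ContinuousOn (fun x => x ^ (1 / 4 : ℝ) *
      (w1 ρ T (T ^ (1 - ξ)) x * (1 + s * Real.cos (6 * π * (κ₂ * x) ^ (1 / 3 : ℝ) + φ₂))))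
      (Icc T (T + T ^ (1 - ξ))) := by
    have c1 : Continuous fun x : ℝ => x ^ (1 / 4 : ℝ) :=
      continuous_id.rpow_const fun x => Or.inr (by norm_num)
    have c2 : Continuous fun x : ℝ => (κ₂ * x) ^ (1 / 3 : ℝ) :=
      (continuous_const.mul continuous_id).rpow_const fun x => Or.inr (by norm_num)
    have c3 : Continuous (w1 ρ T (T ^ (1 - ξ))) := by
      unfold w1
      exact hρ.smooth.continuous.comp ((continuous_id.sub continuous_const).div_const _)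
    exact (c1.mul (c3.mul (continuous_const.add (continuous_const.mul
      (Real.continuous_cos.comp ((continuous_const.mul c2).add
        continuous_const)))))).continuousOn
  have hi1 : IntervalIntegrable (fun x => errTerm b Lg x * (x ^ (1 / 4 : ℝ) *
      (z * e (2 * √(κ₁ * x))).re * K3 ρ κ₁ (arg z) κ₂ φ₂ s T (T ^ (1 - ξ)) x)) volume
      T (T + T ^ (1 - ξ)) := by
    rw [intervalIntegrable_iff_integrableOn_Ioc_of_le hle]
    exact (hR.mul_continuousOn hc1 isCompact_Icc).mono_set Ioc_subset_Icc_self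
  have hi2 : IntervalIntegrable (fun x => errTerm b Lg x * (x ^ (1 / 4 : ℝ) *
      (w1 ρ T (T ^ (1 - ξ)) x * (1 + s * Real.cos (6 * π * (κ₂ * x) ^ (1 / 3 : ℝ) + φ₂)))))
      volume T (T + T ^ (1 - ξ)) := by
    rw [intervalIntegrable_iff_integrableOn_Ioc_of_le hle]
    exact (hR.mul_continuousOn hc2 isCompact_Icc).mono_set Ioc_subset_Icc_self
  rw [← intervalIntegral.integral_const_mul, ← intervalIntegral.integral_sub hi1
    (hi2.const_mul _)]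
  have hcongr : ∫ x in T..(T + T ^ (1 - ξ)), (errTerm b Lg x * (x ^ (1 / 4 : ℝ) *
      (z * e (2 * √(κ₁ * x))).re * K3 ρ κ₁ (arg z) κ₂ φ₂ s T (T ^ (1 - ξ)) x) -
      ‖z‖ / 2 * (errTerm b Lg x * (x ^ (1 / 4 : ℝ) *
      (w1 ρ T (T ^ (1 - ξ)) x * (1 + s * Real.cos (6 * π * (κ₂ * x) ^ (1 / 3 : ℝ) + φ₂)))))) =
      ∫ x in T..(T + T ^ (1 - ξ)), errTerm b Lg x * (x ^ (1 / 4 : ℝ) *
      (z * e (2 * √(κ₁ * x))).re * K3 ρ κ₁ (arg z) κ₂ φ₂ s T (T ^ (1 - ξ)) x -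
      ‖z‖ / 2 * (x ^ (1 / 4 : ℝ) * (w1 ρ T (T ^ (1 - ξ)) x *
        (1 + s * Real.cos (6 * π * (κ₂ * x) ^ (1 / 3 : ℝ) + φ₂))))) := by
    refine intervalIntegral.integral_congr fun x _ => ?_
    ring
  rw [hcongr]
  let I2 : Finset (ℤ × ℤ) := ({-2, -1, 1, 2} : Finset ℤ) ×ˢ (Finset.Icc (-1 : ℤ) 1)
  have hcard : I2.card = 12 := by
    simp only [I2, Finset.card_product]
    rfl
  have hA : ∀ p : ℤ × ℤ, Am T (T ^ (1 - ξ)) D (fun x => (((x / T) ^ (1 / 4 : ℝ) : ℝ) : ℂ) *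
      ((AS4_k z p.1 * AS2_c s φ₂ p.2) * (w1 ρ T (T ^ (1 - ξ)) x : ℂ))) := by
    intro p
    refine hpow T _ _ hX1 hX2 (AS2_Am_const hX0 (hwA T _ hX0) _ ?_)
    rw [norm_mul]
    calc ‖AS4_k z p.1‖ * ‖AS2_c s φ₂ p.2‖ ≤ ‖z‖ * 1 :=
          mul_le_mul (AS4_k_norm z p.1) (AS2_c_norm hs φ₂ p.2) (norm_nonneg _) (norm_nonneg _)
      _ = ‖z‖ := mul_one _
  have key := AS3_gen I2 (z := ((T ^ (1 / 4 : ℝ) : ℝ) : ℂ))
    (B := C2 * (2 * √κ₁) ^ (1 / 2 : ℝ) * T ^ ((1 - ξ) + 1 / 4 + ε))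
    (G := fun x => x ^ (1 / 4 : ℝ) *
      (z * e (2 * √(κ₁ * x))).re * K3 ρ κ₁ (arg z) κ₂ φ₂ s T (T ^ (1 - ξ)) x -
      ‖z‖ / 2 * (x ^ (1 / 4 : ℝ) * (w1 ρ T (T ^ (1 - ξ)) x *
        (1 + s * Real.cos (6 * π * (κ₂ * x) ^ (1 / 3 : ℝ) + φ₂)))))
    (F := fun p x => (((x / T) ^ (1 / 4 : ℝ) : ℝ) : ℂ) *
      ((AS4_k z p.1 * AS2_c s φ₂ p.2) * (w1 ρ T (T ^ (1 - ξ)) x : ℂ)) *
      e (ps (p.1 * √κ₁) (3 * p.2 * κ₂ ^ (1 / 3 : ℝ)) x))
    hle hR ?_ ?_ ?_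
  · refine key.trans (le_of_eq ?_)
    rw [hcard, Complex.norm_real, Real.norm_of_nonneg (by positivity)]
    have h6 : T ^ ((1 - ξ) + 1 / 2 + ε) = T ^ (1 / 4 : ℝ) * T ^ ((1 - ξ) + 1 / 4 + ε) := by
      rw [← Real.rpow_add hTp]
      congr 1
      ring
    rw [h6]
    push_cast
    ring
  · intro p _
    exact ((hA p).smooth.continuous.mul (AS3_ps_cont _ _)).continuousOn
  · intro x hx
    exact AS4_id h1 hk2 z ρ s φ₂ T (T ^ (1 - ξ)) hTp (lt_of_lt_of_le hTp hx.1)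
  · rintro ⟨i, l⟩ hp
    simp only [I2, Finset.mem_product] at hp
    have hi : 1 ≤ |(i : ℝ)| ∧ |(i : ℝ)| ≤ 2 := by
      have h4 : 1 ≤ |i| ∧ |i| ≤ 2 := by
        have h5 := hp.1
        simp only [Finset.mem_insert, Finset.mem_singleton] at h5
        rcases h5 with rfl | rfl | rfl | rfl <;> decide
      exact ⟨by exact_mod_cast h4.1, by exact_mod_cast h4.2⟩
    have hl1 : √κ₁ ≤ |i * √κ₁| := by
      rw [abs_mul, abs_of_pos hr]
      nlinarith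
    have hl2 : |i * √κ₁| ≤ 2 * √κ₁ := by
      rw [abs_mul, abs_of_pos hr]
      nlinarith
    have hbig : 2 * √κ₁ ≤ T ^ (1 / 8 : ℝ) := by
      have h5 : 1 ≤ T ^ (1 / 10 : ℝ) := Real.one_le_rpow hT1 (by norm_num)
      calc 2 * √κ₁ = 2 * √κ₁ * 1 := (mul_one _).symm
        _ ≤ 2 * √κ₁ * T ^ (1 / 10 : ℝ) := by gcongr
        _ ≤ T ^ (1 / 8 : ℝ) := AS3_big (by positivity) ((le_max_right _ _).trans hT)
    refine (hS T _ _ _ hT' hl1 (hl2.trans hbig) (AS3_mu hk2 (AS3_mem3 hp.2)) (hA (i, l))).trans ?_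
    have h3 : |i * √κ₁| ^ (1 / 2 : ℝ) ≤ (2 * √κ₁) ^ (1 / 2 : ℝ) :=
      Real.rpow_le_rpow (abs_nonneg _) hl2 (by norm_num)
    gcongr
--END AS4

--BEGIN AS5
private theorem AS5_arg (z : ℂ) : z * cexp (I * (((-1 : ℤ) * arg z : ℝ) : ℂ)) = ‖z‖ ∧
    conj z * cexp (I * (((1 : ℤ) * arg z : ℝ) : ℂ)) = ‖z‖ := by
  have h1 : z * cexp (I * (((-1 : ℤ) * arg z : ℝ) : ℂ)) = ‖z‖ := by
    conv_lhs => rw [← Complex.norm_mul_exp_arg_mul_I z]
    rw [mul_assoc, ← Complex.exp_add]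
    have e1 : arg z * I + I * (((-1 : ℤ) * arg (‖z‖ * cexp (arg z * I)) : ℝ) : ℂ) = 0 := by
      rw [Complex.norm_mul_exp_arg_mul_I z]
      push_cast
      ring
    rw [e1, Complex.exp_zero, mul_one]
  refine ⟨h1, ?_⟩
  have h2 := congrArg conj h1
  rw [map_mul, ← Complex.exp_conj, map_mul, Complex.conj_I, Complex.conj_ofReal,
    Complex.conj_ofReal] at h2
  rw [← h2]
  congr 2
  push_cast
  ring

/-- the mass of the main term -/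
private theorem AS5_mass {ρ : ℝ → ℝ} (hρ : IsBump ρ (1 / 4) (3 / 8) (5 / 8) (3 / 4)) {T X : ℝ}
    (hT : 0 < T) (hX : 0 < X) :
    T ^ (1 / 3 : ℝ) * (X / 4) ≤
      ∫ x in T..(T + X), x ^ (1 / 3 : ℝ) * ((x / T) ^ (1 / 4 : ℝ) * w1 ρ T X x) := by
  have c1 : Continuous fun x : ℝ => x ^ (1 / 3 : ℝ) * ((x / T) ^ (1 / 4 : ℝ) * w1 ρ T X x) := by
    have c1 : Continuous fun x : ℝ => x ^ (1 / 3 : ℝ) :=
      continuous_id.rpow_const fun x => Or.inr (by norm_num)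
    have c2 : Continuous fun x : ℝ => (x / T) ^ (1 / 4 : ℝ) :=
      (continuous_id.div_const T).rpow_const fun x => Or.inr (by norm_num)
    have c3 : Continuous (w1 ρ T X) := by
      unfold w1
      exact hρ.smooth.continuous.comp ((continuous_id.sub continuous_const).div_const _)
    exact c1.mul (c2.mul c3)
  have hnn : ∀ x ∈ Ioc T (T + X), 0 ≤ x ^ (1 / 3 : ℝ) * ((x / T) ^ (1 / 4 : ℝ) * w1 ρ T X x) := by
    intro x hx
    have hx0 : 0 < x := lt_trans hT hx.1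
    have := hρ.nonneg ((x - T) / X)
    unfold w1
    positivity
  have h1 : ∫ x in (T + 3 / 8 * X)..(T + 5 / 8 * X), x ^ (1 / 3 : ℝ) * ((x / T) ^ (1 / 4 : ℝ) *
      w1 ρ T X x) ≤ ∫ x in T..(T + X), x ^ (1 / 3 : ℝ) * ((x / T) ^ (1 / 4 : ℝ) * w1 ρ T X x) := by
    refine intervalIntegral.integral_mono_interval (by linarith) (by linarith) (by linarith) ?_
      (c1.intervalIntegrable _ _)
    filter_upwards [ae_restrict_mem measurableSet_Ioc] with x hx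
    exact hnn x hx
  have h2 : ∫ _ in (T + 3 / 8 * X)..(T + 5 / 8 * X), T ^ (1 / 3 : ℝ) ≤
      ∫ x in (T + 3 / 8 * X)..(T + 5 / 8 * X), x ^ (1 / 3 : ℝ) * ((x / T) ^ (1 / 4 : ℝ) *
        w1 ρ T X x) := by
    refine intervalIntegral.integral_mono_on (by linarith) (continuous_const.intervalIntegrable _ _)
      (c1.intervalIntegrable _ _) ?_
    intro x hx
    have hxT : T ≤ x := by linarith [hx.1]
    have e1 : w1 ρ T X x = 1 := by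
      unfold w1
      refine hρ.one _ ⟨?_, ?_⟩
      · rw [le_div_iff₀ hX]
        linarith [hx.1]
      · rw [div_le_iff₀ hX]
        linarith [hx.2]
    have e2 : 1 ≤ (x / T) ^ (1 / 4 : ℝ) :=
      Real.one_le_rpow (by rw [le_div_iff₀ hT]; linarith) (by norm_num)
    have e3 : T ^ (1 / 3 : ℝ) ≤ x ^ (1 / 3 : ℝ) := Real.rpow_le_rpow hT.le hxT (by norm_num)
    rw [e1, mul_one]
    calc T ^ (1 / 3 : ℝ) = T ^ (1 / 3 : ℝ) * 1 := (mul_one _).symm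
      _ ≤ x ^ (1 / 3 : ℝ) * (x / T) ^ (1 / 4 : ℝ) :=
        mul_le_mul e3 e2 zero_le_one (Real.rpow_nonneg (by linarith) _)
  rw [intervalIntegral.integral_const, smul_eq_mul] at h2
  calc T ^ (1 / 3 : ℝ) * (X / 4) = (T + 5 / 8 * X - (T + 3 / 8 * X)) * T ^ (1 / 3 : ℝ) := by ring
    _ ≤ _ := h2.trans h1

/-- **AS5.** The resonance (OS11, OS6), `φ₂ = arg (d 0)`: the main term is
`(|d_0|/2) ∫ x^{7/12} w`. -/
theorem resonance3 (h : RealSelberg b Lg 3) (hw : Wk b Lg κ₂ C0 c d S) {ρ : ℝ → ℝ}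
    (hρ : IsBump ρ (1 / 4) (3 / 8) (5 / 8) (3 / 4)) {ξ : ℝ} (hξ : 0 < ξ) (hξ' : ξ < 1 / 6) :
    ∃ c1 T0 : ℝ, 0 < c1 ∧ 1 ≤ T0 ∧ ∀ (T s : ℝ), T0 ≤ T → (s = 1 ∨ s = -1) →
      c1 * T ^ ((1 - ξ) + 7 / 12) ≤
        s * ∫ x in T..(T + T ^ (1 - ξ)), errTerm b Lg x * (x ^ (1 / 4 : ℝ) *
          (w1 ρ T (T ^ (1 - ξ)) x *
            (1 + s * Real.cos (6 * π * (κ₂ * x) ^ (1 / 3 : ℝ) + arg (d 0))))) := by
  have hk2 := hw.kpos
  have hd0 : 0 < ‖d 0‖ := norm_pos_iff.2 hw.dne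
  obtain ⟨C, hC, hwA⟩ := w1_Am hρ
  obtain ⟨D, hD, hpow⟩ := Am_rpow (1 * C) (1 / 4)
  obtain ⟨C2, T0, hC2, hT0, hS⟩ := slow_Eg h hw (D := D) hξ hξ'
  refine ⟨‖d 0‖ / 16, max T0 ((48 * C2 / ‖d 0‖ + 1) ^ (12 : ℝ)), by positivity,
    hT0.trans (le_max_left _ _), ?_⟩
  intro T s hT hs
  have hsa : |s| ≤ 1 := by
    rcases hs with rfl | rfl <;> simp
  have hss : s * s = 1 := by
    rcases hs with rfl | rfl <;> norm_num
  have hT' : T0 ≤ T := (le_max_left _ _).trans hT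
  have hT1 : 1 ≤ T := hT0.trans hT'
  have hTp : 0 < T := by linarith
  obtain ⟨hX1, hX2⟩ := AS3_X hT1 hξ hξ'
  set X := T ^ (1 - ξ) with hXdef
  have hX0 : 0 < X := by linarith
  have hR : IntegrableOn (errTerm b Lg) (Icc T (T + X)) := AS3_int h hTp
  have hle : T ≤ T + X := by linarith
  set φ := arg (d 0) with hφ
  let am : ℤ → ℝ → ℂ := fun l x => (((x / T) ^ (1 / 4 : ℝ) : ℝ) : ℂ) *
    (AS2_c s φ l * (w1 ρ T X x : ℂ))
  have hA : ∀ l : ℤ, Am T X D (am l) := by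
    intro l
    exact hpow T X _ hX1 hX2 (AS2_Am_const hX0 (hwA T _ hX0) _ (AS2_c_norm hsa φ l))
  -- the exact expansion
  have key := AS3_eq (Finset.Icc (-1 : ℤ) 1) (z := ((T ^ (1 / 4 : ℝ) : ℝ) : ℂ))
    (G := fun x => x ^ (1 / 4 : ℝ) * (w1 ρ T X x *
      (1 + s * Real.cos (6 * π * (κ₂ * x) ^ (1 / 3 : ℝ) + φ))))
    (F := fun l x => am l x * e (ps 0 (3 * l * κ₂ ^ (1 / 3 : ℝ)) x)) hle hR
    (fun l _ => ((hA l).smooth.continuous.mul (AS3_ps_cont _ _)).continuousOn)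
    (by
      intro x hx
      have hx0 : 0 < x := lt_of_lt_of_le hTp hx.1
      show ((x ^ (1 / 4 : ℝ) * (w1 ρ T X x *
        (1 + s * Real.cos (6 * π * (κ₂ * x) ^ (1 / 3 : ℝ) + φ))) : ℝ) : ℂ) = _
      rw [ofReal_mul, ofReal_mul, AS2_cos2 hk2 s φ hx0, AS2_split hTp hx0 (1 / 4), ofReal_mul,
        Finset.mul_sum, Finset.mul_sum, Finset.mul_sum]
      refine Finset.sum_congr rfl fun l _ => ?_
      simp only [am]
      rw [AS4_ps]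
      have e0 : e (2 * 0 * √x) = 1 := by
        unfold e
        simp
      rw [e0]
      ring)
  -- the main term
  have hJ := AS5_mass hρ hTp hX0
  set J : ℝ := ∫ x in T..(T + X), x ^ (1 / 3 : ℝ) * ((x / T) ^ (1 / 4 : ℝ) * w1 ρ T X x) with hJdef
  have hJl : ∀ l : ℤ, ∫ x in T..(T + X), ((x ^ (1 / 3 : ℝ) : ℝ) : ℂ) * am l x =
      AS2_c s φ l * (J : ℂ) := by
    intro l
    rw [hJdef, ← intervalIntegral.integral_ofReal, ← intervalIntegral.integral_const_mul]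
    refine intervalIntegral.integral_congr fun x _ => ?_
    simp only [am]
    push_cast
    ring
  obtain ⟨g1, g2⟩ := AS5_arg (d 0)
  rw [← hφ] at g1 g2
  have c1 : AS2_c s φ 1 = s / 2 * cexp (I * (((1 : ℤ) * φ : ℝ) : ℂ)) := by
    unfold AS2_c
    rw [if_neg (by decide)]
  have c2 : AS2_c s φ (-1) = s / 2 * cexp (I * (((-1 : ℤ) * φ : ℝ) : ℂ)) := by
    unfold AS2_c
    rw [if_neg (by decide)]
  have m0 := hS T (am 0) 0 hT' (by decide) (hA 0)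
  have m1 := hS T (am 1) 1 hT' (by decide) (hA 1)
  have m2 := hS T (am (-1)) (-1) hT' (by decide) (hA (-1))
  rw [hJl] at m0 m1 m2
  rw [if_neg (by decide), if_neg (by decide), zero_mul, sub_zero] at m0
  rw [if_neg (by decide), if_pos rfl, c1] at m1
  rw [if_pos rfl, c2] at m2
  rw [AS2_sum3] at key
  set A0 := ∫ x in T..(T + X), (errTerm b Lg x : ℂ) *
    (am 0 x * e (ps 0 (3 * (0 : ℤ) * κ₂ ^ (1 / 3 : ℝ)) x)) with hA0
  set A1 := ∫ x in T..(T + X), (errTerm b Lg x : ℂ) *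
    (am 1 x * e (ps 0 (3 * (1 : ℤ) * κ₂ ^ (1 / 3 : ℝ)) x)) with hA1
  set A2 := ∫ x in T..(T + X), (errTerm b Lg x : ℂ) *
    (am (-1) x * e (ps 0 (3 * (-1 : ℤ) * κ₂ ^ (1 / 3 : ℝ)) x)) with hA2
  set E := C2 * T ^ ((1 - ξ) + 1 / 4 : ℝ) with hE
  have n1 : conj (d 0) / 2 * (s / 2 * cexp (I * (((1 : ℤ) * φ : ℝ) : ℂ)) * (J : ℂ)) =
      ((s * ‖d 0‖ / 4 * J : ℝ) : ℂ) := by
    have e0 : conj (d 0) / 2 * (s / 2 * cexp (I * (((1 : ℤ) * φ : ℝ) : ℂ)) * (J : ℂ)) =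
      (conj (d 0) * cexp (I * (((1 : ℤ) * φ : ℝ) : ℂ))) * (s / 4 * J) := by ring
    rw [e0, g2]
    push_cast
    ring
  have n2 : d 0 / 2 * (s / 2 * cexp (I * (((-1 : ℤ) * φ : ℝ) : ℂ)) * (J : ℂ)) =
      ((s * ‖d 0‖ / 4 * J : ℝ) : ℂ) := by
    have e0 : d 0 / 2 * (s / 2 * cexp (I * (((-1 : ℤ) * φ : ℝ) : ℂ)) * (J : ℂ)) =
      (d 0 * cexp (I * (((-1 : ℤ) * φ : ℝ) : ℂ))) * (s / 4 * J) := by ring
    rw [e0, g1]
    push_cast
    ring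
  rw [n1] at m1
  rw [n2] at m2
  -- real parts
  set V : ℝ := ∫ x in T..(T + X), errTerm b Lg x * (x ^ (1 / 4 : ℝ) * (w1 ρ T X x *
      (1 + s * Real.cos (6 * π * (κ₂ * x) ^ (1 / 3 : ℝ) + φ)))) with hV
  have hVd : |V - T ^ (1 / 4 : ℝ) * (s * ‖d 0‖ / 2 * J)| ≤ T ^ (1 / 4 : ℝ) * (3 * E) := by
    rw [← Real.norm_eq_abs, ← Complex.norm_real]
    have e1 : ((V - T ^ (1 / 4 : ℝ) * (s * ‖d 0‖ / 2 * J) : ℝ) : ℂ) =
        ((T ^ (1 / 4 : ℝ) : ℝ) : ℂ) * ((A2 - ((s * ‖d 0‖ / 4 * J : ℝ) : ℂ)) + A0 +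
          (A1 - ((s * ‖d 0‖ / 4 * J : ℝ) : ℂ))) := by
      rw [ofReal_sub, key]
      push_cast
      ring
    rw [e1, norm_mul, Complex.norm_real, Real.norm_of_nonneg (by positivity)]
    refine mul_le_mul_of_nonneg_left ?_ (by positivity)
    calc _ ≤ ‖(A2 - ((s * ‖d 0‖ / 4 * J : ℝ) : ℂ))‖ + ‖A0‖ +
          ‖(A1 - ((s * ‖d 0‖ / 4 * J : ℝ) : ℂ))‖ := norm_add₃_le
      _ ≤ E + E + E := by
          refine add_le_add (add_le_add ?_ ?_) ?_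
          · exact m2
          · exact m0
          · exact m1
      _ = 3 * E := by ring
  have hsV : |s * V - T ^ (1 / 4 : ℝ) * (‖d 0‖ / 2 * J)| ≤ T ^ (1 / 4 : ℝ) * (3 * E) := by
    have e2 : s * V - T ^ (1 / 4 : ℝ) * (‖d 0‖ / 2 * J) =
        s * (V - T ^ (1 / 4 : ℝ) * (s * ‖d 0‖ / 2 * J)) := by
      have : s * (V - T ^ (1 / 4 : ℝ) * (s * ‖d 0‖ / 2 * J)) =
        s * V - T ^ (1 / 4 : ℝ) * ((s * s) * ‖d 0‖ / 2 * J) := by ring
      rw [this, hss, one_mul]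
    rw [e2, abs_mul]
    calc |s| * _ ≤ 1 * (T ^ (1 / 4 : ℝ) * (3 * E)) :=
          mul_le_mul hsa hVd (abs_nonneg _) zero_le_one
      _ = _ := one_mul _
  have hlow := (abs_le.1 hsV).1
  have hJ2 : T ^ (1 / 4 : ℝ) * (‖d 0‖ / 2 * (T ^ (1 / 3 : ℝ) * (X / 4))) ≤
      T ^ (1 / 4 : ℝ) * (‖d 0‖ / 2 * J) := by gcongr
  have p1 : T ^ ((1 - ξ) + 7 / 12) = T ^ (1 / 4 : ℝ) * (T ^ (1 / 3 : ℝ) * X) := by
    rw [hXdef, ← Real.rpow_add hTp, ← Real.rpow_add hTp]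
    congr 1
    ring
  have p2 : T ^ (1 / 4 : ℝ) * T ^ ((1 - ξ) + 1 / 4 : ℝ) * T ^ (1 / 12 : ℝ) =
      T ^ ((1 - ξ) + 7 / 12) := by
    rw [← Real.rpow_add hTp, ← Real.rpow_add hTp]
    congr 1
    ring
  have p3 : 48 * C2 / ‖d 0‖ ≤ T ^ (1 / 12 : ℝ) := by
    have hc1 : (0 : ℝ) < 48 * C2 / ‖d 0‖ + 1 := by positivity
    have h2 := Real.rpow_le_rpow (by positivity) ((le_max_right _ _).trans hT)
      (by norm_num : (0 : ℝ) ≤ 1 / 12)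
    rw [← Real.rpow_mul hc1.le, show (12 : ℝ) * (1 / 12) = 1 by norm_num, Real.rpow_one] at h2
    linarith
  have p4 : 48 * C2 ≤ T ^ (1 / 12 : ℝ) * ‖d 0‖ := by
    rwa [div_le_iff₀ hd0] at p3
  have p5 : T ^ (1 / 4 : ℝ) * (3 * E) ≤ ‖d 0‖ / 16 * T ^ ((1 - ξ) + 7 / 12) := by
    rw [hE, ← p2]
    have h7 : 0 ≤ T ^ (1 / 4 : ℝ) * T ^ ((1 - ξ) + 1 / 4 : ℝ) := by positivity
    calc T ^ (1 / 4 : ℝ) * (3 * (C2 * T ^ ((1 - ξ) + 1 / 4 : ℝ))) =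
        (T ^ (1 / 4 : ℝ) * T ^ ((1 - ξ) + 1 / 4 : ℝ)) * (48 * C2) / 16 := by ring
      _ ≤ (T ^ (1 / 4 : ℝ) * T ^ ((1 - ξ) + 1 / 4 : ℝ)) * (T ^ (1 / 12 : ℝ) * ‖d 0‖) / 16 := by
          gcongr
      _ = _ := by ring
  have p6 : T ^ (1 / 4 : ℝ) * (‖d 0‖ / 2 * (T ^ (1 / 3 : ℝ) * (X / 4))) =
      ‖d 0‖ / 8 * T ^ ((1 - ξ) + 7 / 12) := by
    rw [p1]
    ring
  show ‖d 0‖ / 16 * T ^ ((1 - ξ) + 7 / 12) ≤ s * V
  linarith
--END AS5

--BEGIN AS6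
/-- Cauchy-Schwarz -/
private theorem AS6_cs {p q : ℝ} (hpq : p ≤ q) {F g : ℝ → ℝ}
    (hF : IntervalIntegrable (fun x => F x ^ 2) volume p q)
    (hg : IntervalIntegrable (fun x => g x ^ 2) volume p q)
    (hFm : AEStronglyMeasurable F (volume.restrict (Ioc p q)))
    (hgm : AEStronglyMeasurable g (volume.restrict (Ioc p q))) {A B : ℝ}
    (hA : ∫ x in p..q, F x ^ 2 ≤ A) (hB : ∫ x in p..q, g x ^ 2 ≤ B) (hA0 : 0 ≤ A) (hB0 : 0 < B) :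
    |∫ x in p..q, F x * g x| ≤ √A * √B := by
  have hFg : IntervalIntegrable (fun x => F x * g x) volume p q := by
    rw [intervalIntegrable_iff_integrableOn_Ioc_of_le hpq] at hF hg ⊢
    refine (hF.add hg).mono' (hFm.mul hgm) (Eventually.of_forall fun x => ?_)
    rw [Real.norm_eq_abs, abs_mul]
    show |F x| * |g x| ≤ F x ^ 2 + g x ^ 2
    nlinarith [sq_nonneg (|F x| - |g x|), sq_abs (F x), sq_abs (g x), abs_nonneg (F x),
      abs_nonneg (g x), mul_nonneg (abs_nonneg (F x)) (abs_nonneg (g x))]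
  have key : ∀ t : ℝ, 0 < t → |∫ x in p..q, F x * g x| ≤ t / 2 * A + 1 / (2 * t) * B := by
    intro t ht
    have h1 : |∫ x in p..q, F x * g x| ≤ ∫ x in p..q, |F x * g x| :=
      intervalIntegral.abs_integral_le_integral_abs hpq
    have h2 : ∫ x in p..q, |F x * g x| ≤
        ∫ x in p..q, (t / 2 * F x ^ 2 + 1 / (2 * t) * g x ^ 2) := by
      refine intervalIntegral.integral_mono_on hpq hFg.abs
        ((hF.const_mul _).add (hg.const_mul _)) fun x _ => ?_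
      rw [abs_mul]
      have h3 : t / 2 * F x ^ 2 + 1 / (2 * t) * g x ^ 2 - |F x| * |g x| =
          (t * |F x| - |g x|) ^ 2 / (2 * t) := by
        rw [← sq_abs (F x), ← sq_abs (g x)]
        field_simp
        ring
      have h4 : 0 ≤ (t * |F x| - |g x|) ^ 2 / (2 * t) := by positivity
      linarith
    have h5 : ∫ x in p..q, (t / 2 * F x ^ 2 + 1 / (2 * t) * g x ^ 2) =
        t / 2 * (∫ x in p..q, F x ^ 2) + 1 / (2 * t) * ∫ x in p..q, g x ^ 2 := by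
      rw [intervalIntegral.integral_add (hF.const_mul _) (hg.const_mul _),
        intervalIntegral.integral_const_mul, intervalIntegral.integral_const_mul]
    calc _ ≤ _ := h1.trans h2
      _ = _ := h5
      _ ≤ _ := by gcongr
  rcases hA0.eq_or_lt with hA1 | hA1
  · rw [← hA1, Real.sqrt_zero, zero_mul]
    by_contra hcon
    push Not at hcon
    have h6 := key (B / |∫ x in p..q, F x * g x|) (div_pos hB0 hcon)
    rw [← hA1, mul_zero, zero_add] at h6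
    have h7 : 1 / (2 * (B / |∫ x in p..q, F x * g x|)) * B = |∫ x in p..q, F x * g x| / 2 := by
      field_simp
    rw [h7] at h6
    linarith
  · have ha : 0 < √A := Real.sqrt_pos.2 hA1
    have hb : 0 < √B := Real.sqrt_pos.2 hB0
    have h6 := key (√B / √A) (div_pos hb ha)
    have h7 : √B / √A / 2 * A + 1 / (2 * (√B / √A)) * B = √A * √B := by
      have e1 : A = √A * √A := (Real.mul_self_sqrt hA1.le).symm
      have e2 : B = √B * √B := (Real.mul_self_sqrt hB0.le).symm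
      have h8 : √B / √A / 2 * (√A * √A) + 1 / (2 * (√B / √A)) * (√B * √B) = √A * √B := by
        field_simp
        ring
      rw [← e1, ← e2] at h8
      exact h8
    rwa [h7] at h6

/-- **AS6.** Cauchy-Schwarz (MS6). -/
theorem cs3 (h : RealSelberg b Lg 3) (hw : Wk b Lg κ₂ C0 c d S) {ρ : ℝ → ℝ}
    (hρ : IsBump ρ (1 / 4) (3 / 8) (5 / 8) (3 / 4)) {ξ ε : ℝ} (hξ : 0 < ξ) (hξ' : ξ < 1 / 6)
    (hε : 0 < ε) : ∃ C : ℝ, 0 < C ∧ ∀ (T s φ₁ φ₂ G : ℝ) (F : ℝ → ℝ), 1 ≤ T → |s| ≤ 1 → 0 ≤ G →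
      AEStronglyMeasurable F (volume.restrict (Ioc T (T + T ^ (1 - ξ)))) →
      IntervalIntegrable (fun x => F x ^ 2) volume T (T + T ^ (1 - ξ)) →
      ∫ x in T..(T + T ^ (1 - ξ)), F x ^ 2 ≤ G →
      |∫ x in T..(T + T ^ (1 - ξ)), F x * errTerm b Lg x *
        K3 ρ κ₁ φ₁ κ₂ φ₂ s T (T ^ (1 - ξ)) x| ≤ C * √G * T ^ (5 / 6 + ε) := by
  obtain ⟨C, hC, hms⟩ := Eg_ms h hw (ε := 2 * ε) (by positivity)
  obtain ⟨C1, hC1, htr, -⟩ := errTerm3_trivial h (ε := 1) one_pos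
  refine ⟨4 * √C, by positivity, ?_⟩
  intro T s φ₁ φ₂ G F hT hs hG hFm hFi hFG
  have hTp : 0 < T := by linarith
  obtain ⟨hX1, hX2⟩ := AS3_X hT hξ hξ'
  set X := T ^ (1 - ξ) with hXdef
  have hle : T ≤ T + X := by linarith
  have hR : IntegrableOn (errTerm b Lg) (Icc T (2 * T)) := AS3_int h hTp
  have hE2 : IntervalIntegrable (fun x => errTerm b Lg x ^ 2) volume T (2 * T) := by
    rw [intervalIntegrable_iff_integrableOn_Ioc_of_le (by linarith)]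
    refine Integrable.mono' (g := fun _ => (C1 * (2 * T) ^ (1 + 1 : ℝ)) ^ 2) (integrable_const _)
      ((hR.mono_set Ioc_subset_Icc_self).aestronglyMeasurable.pow 2) ?_
    refine (ae_restrict_iff' measurableSet_Ioc).2 (Eventually.of_forall fun x hx => ?_)
    rw [Real.norm_eq_abs, abs_pow]
    have hx1 : 1 ≤ x := by linarith [hx.1]
    refine pow_le_pow_left₀ (abs_nonneg _) ((htr x hx1).trans ?_) 2
    refine mul_le_mul_of_nonneg_left ?_ hC1.le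
    exact Real.rpow_le_rpow (by linarith) hx.2 (by norm_num)
  have hKc := AS1_cont hρ T X s κ₁ φ₁ κ₂ φ₂
  have hK := fun x => AS1_bd hρ hs κ₁ φ₁ κ₂ φ₂ T X x
  have hsub : Icc T (T + X) ⊆ Icc T (2 * T) := fun x hx => ⟨hx.1, by linarith [hx.2]⟩
  have hgm : AEStronglyMeasurable (fun x => errTerm b Lg x * K3 ρ κ₁ φ₁ κ₂ φ₂ s T X x)
      (volume.restrict (Ioc T (T + X))) :=
    ((hR.mono_set (Ioc_subset_Icc_self.trans hsub)).aestronglyMeasurable).mul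
      hKc.aestronglyMeasurable
  have hE2' : IntervalIntegrable (fun x => errTerm b Lg x ^ 2) volume T (T + X) := by
    rw [intervalIntegrable_iff_integrableOn_Ioc_of_le (by linarith)] at hE2 ⊢
    exact hE2.mono_set (Ioc_subset_Ioc_right (by linarith))
  have hg2 : IntervalIntegrable (fun x => (errTerm b Lg x * K3 ρ κ₁ φ₁ κ₂ φ₂ s T X x) ^ 2) volume
      T (T + X) := by
    have e1 : (fun x => (errTerm b Lg x * K3 ρ κ₁ φ₁ κ₂ φ₂ s T X x) ^ 2) =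
        fun x => errTerm b Lg x ^ 2 * K3 ρ κ₁ φ₁ κ₂ φ₂ s T X x ^ 2 := by
      funext x
      rw [mul_pow]
    rw [e1]
    exact hE2'.mul_continuousOn (hKc.pow 2).continuousOn
  have hB : ∫ x in T..(T + X), (errTerm b Lg x * K3 ρ κ₁ φ₁ κ₂ φ₂ s T X x) ^ 2 ≤
      16 * (C * T ^ (5 / 3 + 2 * ε)) := by
    have h1 : ∫ x in T..(T + X), (errTerm b Lg x * K3 ρ κ₁ φ₁ κ₂ φ₂ s T X x) ^ 2 ≤
        ∫ x in T..(T + X), 16 * errTerm b Lg x ^ 2 := by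
      refine intervalIntegral.integral_mono_on hle hg2 (hE2'.const_mul _) fun x _ => ?_
      rw [mul_pow]
      have h2 : K3 ρ κ₁ φ₁ κ₂ φ₂ s T X x ^ 2 ≤ 16 := by
        have := hK x
        nlinarith
      have h3 := sq_nonneg (errTerm b Lg x)
      nlinarith
    have h4 : ∫ x in T..(T + X), errTerm b Lg x ^ 2 ≤ ∫ x in T..(2 * T), errTerm b Lg x ^ 2 := by
      refine intervalIntegral.integral_mono_interval le_rfl hle (by linarith) ?_ hE2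
      exact Eventually.of_forall fun x => sq_nonneg _
    rw [intervalIntegral.integral_const_mul] at h1
    have h5 := hms T hT
    linarith
  have hcs := AS6_cs hle hFi hg2 hFm hgm hFG hB hG (by positivity)
  have e2 : ∫ x in T..(T + X), F x * errTerm b Lg x * K3 ρ κ₁ φ₁ κ₂ φ₂ s T X x =
      ∫ x in T..(T + X), F x * (errTerm b Lg x * K3 ρ κ₁ φ₁ κ₂ φ₂ s T X x) := by
    refine intervalIntegral.integral_congr fun x _ => ?_
    ring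
  rw [e2]
  refine hcs.trans (le_of_eq ?_)
  have e3 : √(16 * (C * T ^ (5 / 3 + 2 * ε))) = 4 * √C * T ^ (5 / 6 + ε) := by
    have e4 : 16 * (C * T ^ (5 / 3 + 2 * ε)) = (4 * √C * T ^ (5 / 6 + ε)) ^ 2 := by
      have e5 : (T ^ (5 / 6 + ε)) ^ 2 = T ^ (5 / 3 + 2 * ε) := by
        rw [← Real.rpow_natCast, ← Real.rpow_mul hTp.le]
        congr 1
        push_cast
        ring
      rw [mul_pow, mul_pow, Real.sq_sqrt hC.le, e5]
      ring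
    rw [e4, Real.sqrt_sq (by positivity)]
  rw [e3]
  ring
--END AS6

/-! ### The dyadic blocks of the series of `E_f`

Cauchy-Schwarz only with the resonant part of the series of `E_g`. -/

/-- The `m` with `A ≤ (κm)^{1/3} ≤ B`. -/
def Near (κ A B : ℝ) (m : ℕ) : Prop :=
  A ≤ (κ * m) ^ (1 / 3 : ℝ) ∧ (κ * m) ^ (1 / 3 : ℝ) ≤ B

--BEGIN MB1
private theorem MB1_e_add (x y : ℝ) : e (x + y) = e x * e y := by
  unfold e
  rw [← Complex.exp_add]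
  congr 1
  push_cast
  ring

private theorem MB1_e_conj (x : ℝ) : conj (e x) = e (-x) := by
  unfold e
  rw [← Complex.exp_conj]
  congr 1
  simp only [map_mul, Complex.conj_I, Complex.conj_ofReal, map_ofNat]
  push_cast
  ring

private theorem MB1_cont (l mu : ℝ) {T X : ℝ} (hT : 0 < T) :
    ContinuousOn (fun x => e (ps l mu x)) (Icc T (T + X)) := by
  unfold e ps
  refine Continuous.comp_continuousOn (f := fun x : ℝ => (2 * π * I * ((2 * l * √x +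
    mu * x ^ (1 / 3 : ℝ) : ℝ) : ℂ) : ℂ)) Complex.continuous_exp ?_
  refine continuousOn_const.mul (Complex.continuous_ofReal.comp_continuousOn ?_)
  refine (continuousOn_const.mul Real.continuous_sqrt.continuousOn).add
    (continuousOn_const.mul fun x hx => ?_)
  exact (Real.continuousAt_rpow_const x _ (Or.inl (by linarith [hx.1]))).continuousWithinAt

private theorem MB1_point (κ : ℝ) (hκ : 0 < κ) (d : Fin 4 → ℂ) (m : ℕ) (l mu : ℝ) (a : ℝ → ℂ)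
    {T x : ℝ} (hT : 0 < T) (hx : 0 < x) :
    (km κ d m x : ℂ) * (a x * e (ps l mu x)) =
      ∑ i : Fin 4, ((((m : ℝ) ^ (-((2 + (i : ℝ)) / 3)) * T ^ ((1 - (i : ℝ)) / 3) : ℝ) : ℂ) *
        ((d i / 2) * ((((x / T) ^ ((1 - (i : ℝ)) / 3) : ℝ) : ℂ) * a x *
          e (ps l (mu + 3 * (κ * m) ^ (1 / 3 : ℝ)) x)) +
        (conj (d i) / 2) * ((((x / T) ^ ((1 - (i : ℝ)) / 3) : ℝ) : ℂ) * a x *
          e (ps l (mu + -(3 * (κ * m) ^ (1 / 3 : ℝ))) x)))) := by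
  unfold km
  rw [Complex.ofReal_sum, Finset.sum_mul]
  refine Finset.sum_congr rfl fun i _ => ?_
  have hm0 : (0 : ℝ) ≤ κ * m := mul_nonneg hκ.le (Nat.cast_nonneg _)
  set y : ℝ := (κ * m) ^ (1 / 3 : ℝ) with hy
  have h1 : (κ * m * x) ^ (1 / 3 : ℝ) = y * x ^ (1 / 3 : ℝ) := Real.mul_rpow hm0 hx.le
  have h2 : x ^ ((1 - (i : ℝ)) / 3) = T ^ ((1 - (i : ℝ)) / 3) * (x / T) ^ ((1 - (i : ℝ)) / 3) := by
    rw [← Real.mul_rpow hT.le (div_nonneg hx.le hT.le)]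
    congr 1
    field_simp
  have h3 : ps l (mu + 3 * y) x = ps l mu x + 3 * (y * x ^ (1 / 3 : ℝ)) := by
    unfold ps
    ring
  have h4 : ps l (mu + -(3 * y)) x = ps l mu x + -(3 * (y * x ^ (1 / 3 : ℝ))) := by
    unfold ps
    ring
  rw [h1, h2, h3, h4, MB1_e_add, MB1_e_add, ← MB1_e_conj]
  have h5 : (((d i * e (3 * (y * x ^ (1 / 3 : ℝ)))).re : ℝ) : ℂ) =
      (d i * e (3 * (y * x ^ (1 / 3 : ℝ))) + conj (d i) * conj (e (3 * (y * x ^ (1 / 3 : ℝ))))) / 2 := by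
    rw [← map_mul, Complex.re_eq_add_conj]
  push_cast at h5 ⊢
  rw [h5]
  ring

private theorem MB1_dec {T X D : ℝ} (hT : 1 ≤ T) (hX : 0 < X) {a : ℝ → ℂ} (ha : Am T X D a)
    (κ : ℝ) (hκ : 0 < κ) (d : Fin 4 → ℂ) (m : ℕ) (l mu : ℝ) :
    (∫ x in T..(T + X), (km κ d m x : ℂ) * (a x * e (ps l mu x))) =
      ∑ i : Fin 4, ((((m : ℝ) ^ (-((2 + (i : ℝ)) / 3)) * T ^ ((1 - (i : ℝ)) / 3) : ℝ) : ℂ) *
        ((d i / 2) * (∫ x in T..(T + X), (((x / T) ^ ((1 - (i : ℝ)) / 3) : ℝ) : ℂ) * a x *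
          e (ps l (mu + 3 * (κ * m) ^ (1 / 3 : ℝ)) x)) +
        (conj (d i) / 2) * ∫ x in T..(T + X), (((x / T) ^ ((1 - (i : ℝ)) / 3) : ℝ) : ℂ) * a x *
          e (ps l (mu + -(3 * (κ * m) ^ (1 / 3 : ℝ))) x))) := by
  have hT0 : 0 < T := by linarith
  have hle : T ≤ T + X := by linarith
  have hc1 : ∀ (i : Fin 4), ContinuousOn (fun x : ℝ => (((x / T) ^ ((1 - (i : ℝ)) / 3) : ℝ) : ℂ) *
      a x) (Icc T (T + X)) := by
    intro i
    refine ContinuousOn.mul (Complex.continuous_ofReal.comp_continuousOn fun x hx => ?_)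
      ha.smooth.continuous.continuousOn
    have hxT : x / T ≠ 0 := (div_pos (lt_of_lt_of_le hT0 hx.1) hT0).ne'
    exact (ContinuousAt.rpow_const (f := fun z : ℝ => z / T) (continuousAt_id.div_const T)
      (Or.inl hxT)).continuousWithinAt
  have hii : ∀ (i : Fin 4) (nu : ℝ), IntervalIntegrable (fun x : ℝ =>
      (((x / T) ^ ((1 - (i : ℝ)) / 3) : ℝ) : ℂ) * a x * e (ps l nu x)) volume T (T + X) := by
    intro i nu
    refine ContinuousOn.intervalIntegrable ?_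
    rw [uIcc_of_le hle]
    exact (hc1 i).mul (MB1_cont l nu hT0)
  have h1 : (∫ x in T..(T + X), (km κ d m x : ℂ) * (a x * e (ps l mu x))) =
      ∫ x in T..(T + X), ∑ i : Fin 4,
        ((((m : ℝ) ^ (-((2 + (i : ℝ)) / 3)) * T ^ ((1 - (i : ℝ)) / 3) : ℝ) : ℂ) *
        ((d i / 2) * ((((x / T) ^ ((1 - (i : ℝ)) / 3) : ℝ) : ℂ) * a x *
          e (ps l (mu + 3 * (κ * m) ^ (1 / 3 : ℝ)) x)) +
        (conj (d i) / 2) * ((((x / T) ^ ((1 - (i : ℝ)) / 3) : ℝ) : ℂ) * a x *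
          e (ps l (mu + -(3 * (κ * m) ^ (1 / 3 : ℝ))) x)))) := by
    refine intervalIntegral.integral_congr fun x hx => ?_
    rw [uIcc_of_le hle] at hx
    exact MB1_point κ hκ d m l mu a hT0 (lt_of_lt_of_le hT0 hx.1)
  rw [h1, intervalIntegral.integral_finsetSum (fun i _ =>
    (((hii i _).const_mul _).add ((hii i _).const_mul _)).const_mul _)]
  refine Finset.sum_congr rfl fun i _ => ?_
  rw [intervalIntegral.integral_const_mul, intervalIntegral.integral_add ((hii i _).const_mul _)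
    ((hii i _).const_mul _), intervalIntegral.integral_const_mul, intervalIntegral.integral_const_mul]

private theorem MB1_km_zero (κ : ℝ) (d : Fin 4 → ℂ) (x : ℝ) : km κ d 0 x = 0 := by
  unfold km
  refine Finset.sum_eq_zero fun i _ => ?_
  have hi0 : (0 : ℝ) ≤ (i : ℝ) := Nat.cast_nonneg _
  rw [Nat.cast_zero, Real.zero_rpow (by linarith [show 0 < (2 + (i : ℝ)) / 3 by positivity]), zero_mul,
    zero_mul]

/-- one exponential away from the resonance -/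
private theorem MB1_one (D : ℝ) : ∃ C : ℝ, 0 < C ∧ ∀ (T X l mu y σ : ℝ) (a : ℝ → ℂ), 1 ≤ T →
    T ^ (2 / 3 : ℝ) ≤ X → X ≤ T → l ≠ 0 → (σ = 1 ∨ σ = -1) → |mu| ≤ |l| * T ^ (1 / 6 : ℝ) / 2 →
    0 ≤ y → (y < |l| * T ^ (1 / 6 : ℝ) / 2 ∨ 2 * |l| * T ^ (1 / 6 : ℝ) < y) → Am T X D a →
    ‖∫ x in T..(T + X), a x * e (ps l (mu + σ * (3 * y)) x)‖ ≤
      C * T ^ (4 / 3 : ℝ) / (X * (max (|l| * T ^ (1 / 6 : ℝ)) y) ^ 2) := by
  obtain ⟨C2, hC2, hfar⟩ := osc_far D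
  refine ⟨C2, hC2, ?_⟩
  intro T X l mu y σ a hT hX1 hXT hl hσ hmu hy hyy ha
  have hT0 : 0 < T := by linarith
  have hX0 : 1 ≤ X := (Real.one_le_rpow hT (by norm_num)).trans hX1
  have hl0 : 0 < |l| := abs_pos.mpr hl
  have hσ1 : |σ| = 1 := by rcases hσ with h | h <;> rw [h] <;> norm_num
  have hT6 : 0 < T ^ (1 / 6 : ℝ) := by positivity
  have hA : 0 < |l| * T ^ (1 / 6 : ℝ) := by positivity
  refine hfar T X l (mu + σ * (3 * y)) _ a hT hX1 hXT (lt_max_of_lt_left hA) ?_ ?_ ha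
  · refine le_trans ?_ (le_max_left _ _)
    have h1 : X * T ^ (-(5 / 6) : ℝ) ≤ T ^ (1 / 6 : ℝ) := by
      calc X * T ^ (-(5 / 6) : ℝ) ≤ T * T ^ (-(5 / 6) : ℝ) := by gcongr
        _ = T ^ (1 / 6 : ℝ) := by
            have h2 : T ^ (1 / 6 : ℝ) = T ^ (1 : ℝ) * T ^ (-(5 / 6) : ℝ) := by
              rw [← Real.rpow_add hT0]
              norm_num
            rw [h2, Real.rpow_one]
    calc |l| * X * T ^ (-(5 / 6) : ℝ) = |l| * (X * T ^ (-(5 / 6) : ℝ)) := by ring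
      _ ≤ |l| * T ^ (1 / 6 : ℝ) := by gcongr
  · intro x hx
    have hx0 : 0 < x := lt_of_lt_of_le hT0 hx.1
    have hx1 : T ^ (1 / 6 : ℝ) ≤ x ^ (1 / 6 : ℝ) := Real.rpow_le_rpow hT0.le hx.1 (by norm_num)
    have hx2 : x ^ (1 / 6 : ℝ) ≤ 9 / 8 * T ^ (1 / 6 : ℝ) := by
      have h1 : x ^ (1 / 6 : ℝ) ≤ (2 * T) ^ (1 / 6 : ℝ) :=
        Real.rpow_le_rpow hx0.le (by linarith [hx.2]) (by norm_num)
      rw [Real.mul_rpow (by norm_num) hT0.le] at h1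
      have h2 : (2 : ℝ) ^ (1 / 6 : ℝ) ≤ 9 / 8 := by
        have h3 : (2 : ℝ) ^ (1 / 6 : ℝ) ≤ ((9 / 8 : ℝ) ^ (6 : ℝ)) ^ (1 / 6 : ℝ) := by
          refine Real.rpow_le_rpow (by norm_num) ?_ (by norm_num)
          rw [show (6 : ℝ) = ((6 : ℕ) : ℝ) by norm_num, Real.rpow_natCast]
          norm_num
        rwa [← Real.rpow_mul (by norm_num), show (6 : ℝ) * (1 / 6) = 1 by norm_num,
          Real.rpow_one] at h3
      exact h1.trans (mul_le_mul_of_nonneg_right h2 hT6.le)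
    have e1 : |3 * l * x ^ (1 / 6 : ℝ)| = 3 * |l| * x ^ (1 / 6 : ℝ) := by
      rw [abs_mul, abs_mul, abs_of_pos (Real.rpow_pos_of_pos hx0 _)]
      norm_num
    have e2 : |σ * (3 * y)| = 3 * y := by
      rw [abs_mul, hσ1, one_mul, abs_of_nonneg (by positivity)]
    have e3 : |l| * T ^ (1 / 6 : ℝ) ≤ |l| * x ^ (1 / 6 : ℝ) := by gcongr
    have e4 : |l| * x ^ (1 / 6 : ℝ) ≤ 9 / 8 * (|l| * T ^ (1 / 6 : ℝ)) := by
      calc |l| * x ^ (1 / 6 : ℝ) ≤ |l| * (9 / 8 * T ^ (1 / 6 : ℝ)) := by gcongr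
        _ = _ := by ring
    have e5 : |mu + σ * (3 * y)| ≤ |mu| + 3 * y := by
      have := abs_add_le mu (σ * (3 * y))
      rwa [e2] at this
    have e6 : 3 * y - |mu| ≤ |mu + σ * (3 * y)| := by
      have := abs_sub_abs_le_abs_sub (σ * (3 * y)) (-mu)
      rw [abs_neg, e2, sub_neg_eq_add, add_comm (σ * (3 * y))] at this
      exact this
    rcases hyy with h | h
    · have h1 := abs_sub_abs_le_abs_sub (3 * l * x ^ (1 / 6 : ℝ)) (-(mu + σ * (3 * y)))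
      rw [abs_neg, e1, sub_neg_eq_add] at h1
      refine max_le ?_ ?_ <;> linarith
    · have h1 := abs_sub_abs_le_abs_sub (mu + σ * (3 * y)) (-(3 * l * x ^ (1 / 6 : ℝ)))
      rw [abs_neg, e1, sub_neg_eq_add, add_comm (mu + σ * (3 * y))] at h1
      refine max_le ?_ ?_ <;> linarith

private theorem MB1_term {D : ℝ} {κ : ℝ} (hκ : 0 < κ) (d : Fin 4 → ℂ) : ∃ C : ℝ, 0 < C ∧
    ∀ (T X l mu : ℝ) (a : ℝ → ℂ) (m : ℕ), 1 ≤ T → T ^ (2 / 3 : ℝ) ≤ X → X ≤ T → l ≠ 0 →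
    |mu| ≤ |l| * T ^ (1 / 6 : ℝ) / 2 → Am T X D a → 1 ≤ m →
    ¬ Near κ (|l| * T ^ (1 / 6 : ℝ) / 2) (2 * |l| * T ^ (1 / 6 : ℝ)) m →
    ‖∫ x in T..(T + X), (km κ d m x : ℂ) * (a x * e (ps l mu x))‖ ≤
      C * T ^ (1 / 3 : ℝ) * (m : ℝ) ^ (-(2 / 3) : ℝ) *
        (T ^ (4 / 3 : ℝ) / (X * (max (|l| * T ^ (1 / 6 : ℝ)) ((κ * m) ^ (1 / 3 : ℝ))) ^ 2)) := by
  have hA := fun i : Fin 4 => Am_rpow D ((1 - (i : ℝ)) / 3)
  choose D' hD' hAm using hA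
  have hO := fun i : Fin 4 => MB1_one (D' i)
  choose E hE hEE using hO
  refine ⟨∑ i : Fin 4, ‖d i‖ * E i + 1, ?_, ?_⟩
  · have : 0 ≤ ∑ i : Fin 4, ‖d i‖ * E i :=
      Finset.sum_nonneg fun i _ => mul_nonneg (norm_nonneg _) (hE i).le
    linarith
  intro T X l mu a m hT hX1 hXT hl hmu ha hm hN
  have hT0 : 0 < T := by linarith
  have hX0 : 1 ≤ X := (Real.one_le_rpow hT (by norm_num)).trans hX1
  have hmr : (1 : ℝ) ≤ (m : ℝ) := by exact_mod_cast hm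
  have hm0 : (0 : ℝ) < (m : ℝ) := by linarith
  rw [MB1_dec hT (by linarith) ha κ hκ d m l mu]
  set y : ℝ := (κ * m) ^ (1 / 3 : ℝ) with hy
  have hy0 : 0 ≤ y := by positivity
  have hyy : y < |l| * T ^ (1 / 6 : ℝ) / 2 ∨ 2 * |l| * T ^ (1 / 6 : ℝ) < y := by
    unfold Near at hN
    rw [not_and_or, not_le, not_le] at hN
    exact hN
  set G : ℝ := T ^ (4 / 3 : ℝ) / (X * (max (|l| * T ^ (1 / 6 : ℝ)) y) ^ 2) with hG
  have hG0 : 0 ≤ G := by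
    rw [hG]
    positivity
  have hi : ∀ i : Fin 4, ‖((((m : ℝ) ^ (-((2 + (i : ℝ)) / 3)) * T ^ ((1 - (i : ℝ)) / 3) : ℝ) : ℂ) *
        ((d i / 2) * (∫ x in T..(T + X), (((x / T) ^ ((1 - (i : ℝ)) / 3) : ℝ) : ℂ) * a x *
          e (ps l (mu + 3 * y) x)) +
        (conj (d i) / 2) * ∫ x in T..(T + X), (((x / T) ^ ((1 - (i : ℝ)) / 3) : ℝ) : ℂ) * a x *
          e (ps l (mu + -(3 * y)) x)))‖ ≤
      (‖d i‖ * E i) * (T ^ (1 / 3 : ℝ) * (m : ℝ) ^ (-(2 / 3) : ℝ) * G) := by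
    intro i
    have hi0 : (0 : ℝ) ≤ (i : ℝ) := Nat.cast_nonneg _
    have h1 := hEE i T X l mu y 1 _ hT hX1 hXT hl (Or.inl rfl) hmu hy0 hyy
      (hAm i T X a hX0 hXT ha)
    have h2 := hEE i T X l mu y (-1) _ hT hX1 hXT hl (Or.inr rfl) hmu hy0 hyy
      (hAm i T X a hX0 hXT ha)
    rw [one_mul, mul_div_assoc, ← hG] at h1
    rw [neg_one_mul, mul_div_assoc, ← hG] at h2
    have h3 : (m : ℝ) ^ (-((2 + (i : ℝ)) / 3)) ≤ (m : ℝ) ^ (-(2 / 3) : ℝ) :=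
      Real.rpow_le_rpow_of_exponent_le hmr (by linarith)
    have h4 : T ^ ((1 - (i : ℝ)) / 3) ≤ T ^ (1 / 3 : ℝ) :=
      Real.rpow_le_rpow_of_exponent_le hT (by linarith)
    have h5 : 0 ≤ (m : ℝ) ^ (-((2 + (i : ℝ)) / 3)) := (Real.rpow_pos_of_pos hm0 _).le
    have h6 : 0 ≤ T ^ ((1 - (i : ℝ)) / 3) := (Real.rpow_pos_of_pos hT0 _).le
    rw [norm_mul, Complex.norm_real, Real.norm_of_nonneg (mul_nonneg h5 h6)]
    have h7 : (m : ℝ) ^ (-((2 + (i : ℝ)) / 3)) * T ^ ((1 - (i : ℝ)) / 3) ≤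
        (m : ℝ) ^ (-(2 / 3) : ℝ) * T ^ (1 / 3 : ℝ) :=
      mul_le_mul h3 h4 h6 (Real.rpow_pos_of_pos hm0 _).le
    have h8 : ‖(d i / 2) * (∫ x in T..(T + X), (((x / T) ^ ((1 - (i : ℝ)) / 3) : ℝ) : ℂ) * a x *
          e (ps l (mu + 3 * y) x)) +
        (conj (d i) / 2) * ∫ x in T..(T + X), (((x / T) ^ ((1 - (i : ℝ)) / 3) : ℝ) : ℂ) * a x *
          e (ps l (mu + -(3 * y)) x)‖ ≤ ‖d i‖ * E i * G := by
      refine (norm_add_le _ _).trans ?_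
      rw [norm_mul, norm_mul, norm_div, norm_div, Complex.norm_ofNat, RCLike.norm_conj]
      have h9 : ‖d i‖ / 2 * ‖∫ x in T..(T + X), (((x / T) ^ ((1 - (i : ℝ)) / 3) : ℝ) : ℂ) * a x *
          e (ps l (mu + 3 * y) x)‖ ≤ ‖d i‖ / 2 * (E i * G) :=
        mul_le_mul_of_nonneg_left h1 (by positivity)
      have h10 : ‖d i‖ / 2 * ‖∫ x in T..(T + X), (((x / T) ^ ((1 - (i : ℝ)) / 3) : ℝ) : ℂ) * a x *
          e (ps l (mu + -(3 * y)) x)‖ ≤ ‖d i‖ / 2 * (E i * G) :=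
        mul_le_mul_of_nonneg_left h2 (by positivity)
      linarith
    calc _ ≤ ((m : ℝ) ^ (-(2 / 3) : ℝ) * T ^ (1 / 3 : ℝ)) * (‖d i‖ * E i * G) :=
          mul_le_mul h7 h8 (norm_nonneg _) (by positivity)
      _ = _ := by ring
  refine (norm_sum_le _ _).trans ((Finset.sum_le_sum fun i _ => hi i).trans ?_)
  rw [← Finset.sum_mul]
  have h12 : 0 ≤ T ^ (1 / 3 : ℝ) * (m : ℝ) ^ (-(2 / 3) : ℝ) * G := by positivity
  calc (∑ i : Fin 4, ‖d i‖ * E i) * (T ^ (1 / 3 : ℝ) * (m : ℝ) ^ (-(2 / 3) : ℝ) * G) ≤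
        (∑ i : Fin 4, ‖d i‖ * E i + 1) * (T ^ (1 / 3 : ℝ) * (m : ℝ) ^ (-(2 / 3) : ℝ) * G) :=
      mul_le_mul_of_nonneg_right (by linarith) h12
    _ = _ := by ring

open Classical in
/-- **MB1.** The terms which cannot resonate with `λ`: `(κm)^{1/3} < |λ|T^{1/6}/2` or
`> 2|λ|T^{1/6}`. By OS5 (`osc_far`) with `Δ = max(|λ|T^{1/6}, (κm)^{1/3})`, as in OS9 `series_osc`:
each is `≪ |b(m)| m^{-2/3} T^{1/3} T^{4/3}/(X Δ²)`; `∑_{small m} m^{-2/3}/(|λ|T^{1/6})²` and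
`∑_{large m} m^{-4/3}` are both `≪ 1/(|λ|T^{1/6})`; the claim gives `1/|λ|` away. -/
theorem far_series (h : RealSelberg b Lg 3) (hκ : 0 < κ₂) (d : Fin 4 → ℂ) {l0 B0 D ε ξ : ℝ}
    (hl0 : 0 < l0) (hB0 : 0 ≤ B0) (hε : 0 < ε) (hξ : 0 < ξ) (hξ' : ξ < 1 / 6) :
    ∃ C T0 : ℝ, 0 < C ∧ 1 ≤ T0 ∧ ∀ (T l mu : ℝ) (g : ℝ → ℂ), T0 ≤ T → l0 ≤ |l| → |l| ≤ T →
      |mu| ≤ B0 → Am T (T ^ (1 - ξ)) D g →
      Summable (fun m : ℕ => if Near κ₂ (|l| * T ^ (1 / 6 : ℝ) / 2) (2 * |l| * T ^ (1 / 6 : ℝ)) m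
        then 0 else ‖(b m : ℂ) * ∫ x in T..(T + T ^ (1 - ξ)), (km κ₂ d m x : ℂ) *
          (g x * e (ps l mu x))‖) ∧
      ∑' m : ℕ, (if Near κ₂ (|l| * T ^ (1 / 6 : ℝ) / 2) (2 * |l| * T ^ (1 / 6 : ℝ)) m
        then 0 else ‖(b m : ℂ) * ∫ x in T..(T + T ^ (1 - ξ)), (km κ₂ d m x : ℂ) *
          (g x * e (ps l mu x))‖) ≤ C * T ^ (1 / 2 + ξ + ε) := by
  set θ : ℝ := min ε (1 / 2) with hθ
  have hθ0 : 0 < θ := lt_min hε (by norm_num)
  have hθ1 : θ ≤ 1 / 2 := min_le_right _ _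
  have hθ2 : θ ≤ ε := min_le_left _ _
  obtain ⟨Cb, hCb⟩ := h.ramanujan (θ / 6) (by positivity)
  obtain ⟨Ct, hCt, hterm⟩ := MB1_term (D := D) hκ d
  have hZs : Summable fun m : ℕ => (m : ℝ) ^ (-(1 + θ / 6)) :=
    Real.summable_nat_rpow.2 (by linarith)
  have hZ0 : 0 ≤ ∑' m : ℕ, (m : ℝ) ^ (-(1 + θ / 6)) := tsum_nonneg fun m => by positivity
  set Z := ∑' m : ℕ, (m : ℝ) ^ (-(1 + θ / 6)) with hZ
  set K0 : ℝ := (|Cb| + 1) * Ct * κ₂ ^ (-((1 + θ) / 3)) * l0 ^ (-(1 - θ)) with hK0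
  have hK0p : 0 < K0 := by positivity
  refine ⟨K0 * Z + 1, max 1 ((2 * B0 / l0) ^ (6 : ℝ)), by positivity, le_max_left _ _, ?_⟩
  intro T l mu g hT hl hlT hmu ha
  have hT1 : 1 ≤ T := (le_max_left _ _).trans hT
  have hT0 : 0 < T := by linarith
  have hlpos : 0 < |l| := lt_of_lt_of_le hl0 hl
  have hlne : l ≠ 0 := abs_pos.mp hlpos
  have hX1 : T ^ (2 / 3 : ℝ) ≤ T ^ (1 - ξ) := Real.rpow_le_rpow_of_exponent_le hT1 (by linarith)
  have hXT : T ^ (1 - ξ) ≤ T := by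
    have := Real.rpow_le_rpow_of_exponent_le hT1 (show 1 - ξ ≤ 1 by linarith)
    rwa [Real.rpow_one] at this
  have hT6 : 0 < T ^ (1 / 6 : ℝ) := by positivity
  have hX0 : 0 < T ^ (1 - ξ) := by positivity
  have hmu' : |mu| ≤ |l| * T ^ (1 / 6 : ℝ) / 2 := by
    have h2 : (2 * B0 / l0) ^ (6 : ℝ) ≤ T := (le_max_right _ _).trans hT
    have h3 : 0 ≤ 2 * B0 / l0 := by positivity
    have h4 : 2 * B0 / l0 ≤ T ^ (1 / 6 : ℝ) := by
      have h5 := Real.rpow_le_rpow (by positivity) h2 (show (0 : ℝ) ≤ 1 / 6 by norm_num)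
      rwa [← Real.rpow_mul h3, show (6 : ℝ) * (1 / 6) = 1 by norm_num, Real.rpow_one] at h5
    rw [div_le_iff₀ hl0] at h4
    have h6 : T ^ (1 / 6 : ℝ) * l0 ≤ T ^ (1 / 6 : ℝ) * |l| := by gcongr
    linarith
  set A : ℝ := |l| * T ^ (1 / 6 : ℝ) with hA
  have hAp : 0 < A := by positivity
  set K : ℝ := (|Cb| + 1) * (Ct * T ^ (1 / 3 : ℝ)) * (T ^ (4 / 3 : ℝ) / T ^ (1 - ξ)) *
    (κ₂ ^ (-((1 + θ) / 3)) * A ^ (-(1 - θ))) with hK
  have hKp : 0 < K := by positivity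
  have hKb : K ≤ K0 * T ^ (1 / 2 + ξ + ε) := by
    have h1 : A ^ (-(1 - θ)) ≤ l0 ^ (-(1 - θ)) * T ^ (-(1 - θ) / 6) := by
      calc A ^ (-(1 - θ)) ≤ (l0 * T ^ (1 / 6 : ℝ)) ^ (-(1 - θ)) := by
            refine Real.rpow_le_rpow_of_nonpos (by positivity) ?_ (by linarith)
            rw [hA]
            gcongr
        _ = _ := by
            rw [Real.mul_rpow hl0.le hT6.le, ← Real.rpow_mul hT0.le]
            congr 2
            ring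
    have h2 : T ^ (1 / 3 : ℝ) * (T ^ (4 / 3 : ℝ) / T ^ (1 - ξ)) * T ^ (-(1 - θ) / 6) ≤
        T ^ (1 / 2 + ξ + ε) := by
      rw [← Real.rpow_sub hT0, ← Real.rpow_add hT0, ← Real.rpow_add hT0]
      refine Real.rpow_le_rpow_of_exponent_le hT1 ?_
      linarith
    calc K ≤ (|Cb| + 1) * (Ct * T ^ (1 / 3 : ℝ)) * (T ^ (4 / 3 : ℝ) / T ^ (1 - ξ)) *
          (κ₂ ^ (-((1 + θ) / 3)) * (l0 ^ (-(1 - θ)) * T ^ (-(1 - θ) / 6))) := by
          rw [hK]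
          gcongr
      _ = K0 * (T ^ (1 / 3 : ℝ) * (T ^ (4 / 3 : ℝ) / T ^ (1 - ξ)) * T ^ (-(1 - θ) / 6)) := by
          rw [hK0]
          ring
      _ ≤ K0 * T ^ (1 / 2 + ξ + ε) := by gcongr
  have hbound : ∀ m : ℕ, (if Near κ₂ (|l| * T ^ (1 / 6 : ℝ) / 2) (2 * |l| * T ^ (1 / 6 : ℝ)) m
        then 0 else ‖(b m : ℂ) * ∫ x in T..(T + T ^ (1 - ξ)), (km κ₂ d m x : ℂ) *
          (g x * e (ps l mu x))‖) ≤ K * (m : ℝ) ^ (-(1 + θ / 6)) := by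
    intro m
    split_ifs with hN
    · positivity
    rcases Nat.eq_zero_or_pos m with hm | hm
    · rw [hm]
      have h1 : (∫ x in T..(T + T ^ (1 - ξ)), (km κ₂ d 0 x : ℂ) * (g x * e (ps l mu x))) = 0 := by
        simp only [MB1_km_zero, Complex.ofReal_zero, zero_mul, intervalIntegral.integral_zero]
      rw [h1, mul_zero, norm_zero]
      positivity
    · have hmr : (0 : ℝ) < (m : ℝ) := by exact_mod_cast hm
      have h1 := hterm T (T ^ (1 - ξ)) l mu g m hT1 hX1 hXT hlne hmu' ha hm hN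
      have h2 : |b m| ≤ (|Cb| + 1) * (m : ℝ) ^ (θ / 6) := by
        refine (hCb m hm).trans (mul_le_mul_of_nonneg_right ?_ (by positivity))
        linarith [le_abs_self Cb]
      rw [norm_mul, Complex.norm_real, Real.norm_eq_abs]
      refine (mul_le_mul h2 h1 (norm_nonneg _) (by positivity)).trans ?_
      set y : ℝ := (κ₂ * m) ^ (1 / 3 : ℝ) with hy
      have hyp : 0 < y := by positivity
      rw [← hA]
      have h3 : A ^ (1 - θ) * y ^ (1 + θ) ≤ (max A y) ^ 2 := by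
        have h4 : 0 < max A y := lt_max_of_lt_left hAp
        calc A ^ (1 - θ) * y ^ (1 + θ) ≤ (max A y) ^ (1 - θ) * (max A y) ^ (1 + θ) := by
              have e1 : A ^ (1 - θ) ≤ (max A y) ^ (1 - θ) :=
                Real.rpow_le_rpow hAp.le (le_max_left _ _) (by linarith)
              have e2 : y ^ (1 + θ) ≤ (max A y) ^ (1 + θ) :=
                Real.rpow_le_rpow hyp.le (le_max_right _ _) (by linarith)
              gcongr
          _ = (max A y) ^ 2 := by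
              rw [← Real.rpow_add h4, ← Real.rpow_natCast]
              congr 1
              push_cast
              ring
      have h5 : T ^ (4 / 3 : ℝ) / (T ^ (1 - ξ) * (max A y) ^ 2) ≤
          (T ^ (4 / 3 : ℝ) / T ^ (1 - ξ)) * (A ^ (-(1 - θ)) * y ^ (-(1 + θ))) := by
        rw [Real.rpow_neg hAp.le, Real.rpow_neg hyp.le, ← mul_inv, ← div_eq_mul_inv,
          div_div]
        gcongr
      have h6 : y ^ (-(1 + θ)) = κ₂ ^ (-((1 + θ) / 3)) * (m : ℝ) ^ (-((1 + θ) / 3)) := by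
        rw [hy, ← Real.rpow_mul (by positivity), Real.mul_rpow hκ.le hmr.le]
        congr 2 <;> ring
      have h7 : (m : ℝ) ^ (θ / 6) * (m : ℝ) ^ (-(2 / 3) : ℝ) * (m : ℝ) ^ (-((1 + θ) / 3)) =
          (m : ℝ) ^ (-(1 + θ / 6)) := by
        rw [← Real.rpow_add hmr, ← Real.rpow_add hmr]
        congr 1
        ring
      calc _ ≤ (|Cb| + 1) * (m : ℝ) ^ (θ / 6) * (Ct * T ^ (1 / 3 : ℝ) * (m : ℝ) ^ (-(2 / 3) : ℝ) *
            ((T ^ (4 / 3 : ℝ) / T ^ (1 - ξ)) * (A ^ (-(1 - θ)) * y ^ (-(1 + θ))))) := by gcongr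
        _ = K * ((m : ℝ) ^ (θ / 6) * (m : ℝ) ^ (-(2 / 3) : ℝ) * (m : ℝ) ^ (-((1 + θ) / 3))) := by
            rw [h6, hK]
            ring
        _ = K * (m : ℝ) ^ (-(1 + θ / 6)) := by rw [h7]
  have hGs : Summable fun m : ℕ => K * (m : ℝ) ^ (-(1 + θ / 6)) := hZs.mul_left K
  have hFs : Summable (fun m : ℕ => if Near κ₂ (|l| * T ^ (1 / 6 : ℝ) / 2)
      (2 * |l| * T ^ (1 / 6 : ℝ)) m
        then 0 else ‖(b m : ℂ) * ∫ x in T..(T + T ^ (1 - ξ)), (km κ₂ d m x : ℂ) *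
          (g x * e (ps l mu x))‖) := by
    refine Summable.of_nonneg_of_le (fun m => ?_) hbound hGs
    split_ifs
    · exact le_rfl
    · exact norm_nonneg _
  refine ⟨hFs, (hFs.tsum_le_tsum hbound hGs).trans ?_⟩
  rw [tsum_mul_left, ← hZ]
  have hTe : 0 < T ^ (1 / 2 + ξ + ε) := by positivity
  calc K * Z ≤ K0 * T ^ (1 / 2 + ξ + ε) * Z := by gcongr
    _ = K0 * Z * T ^ (1 / 2 + ξ + ε) := by ring
    _ ≤ (K0 * Z + 1) * T ^ (1 / 2 + ξ + ε) := by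
        have : K0 * Z ≤ K0 * Z + 1 := by linarith
        gcongr
--END MB1

--BEGIN MB2
private noncomputable def MB2_S (b : ℕ → ℝ) (α β u : ℝ) (s : Finset ℕ) (x : ℝ) : ℂ :=
  ∑ m ∈ s, ((b m * (m : ℝ) ^ u : ℝ) : ℂ) * e (β * (m * x) ^ α)

private theorem MB2_e_cont : Continuous e := by
  unfold e
  exact Complex.continuous_exp.comp (continuous_const.mul Complex.continuous_ofReal)

private theorem MB2_S_cont (b : ℕ → ℝ) {α : ℝ} (hα : 0 < α) (β u : ℝ) (s : Finset ℕ) :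
    Continuous (MB2_S b α β u s) := by
  unfold MB2_S
  refine continuous_finsetSum _ fun m _ => continuous_const.mul (MB2_e_cont.comp ?_)
  exact continuous_const.mul ((continuous_const.mul continuous_id).rpow_const fun x =>
    Or.inr hα.le)

private theorem MB2_gen {b : ℕ → ℝ} {L : ℂ → ℂ} {deg : ℝ} (h : RealSelberg b L deg)
    {α β u0 ε : ℝ} (hα : 0 < α) (hα' : α < 1) (hβ : 0 < β) (hu0 : u0 < -(1 / 2)) (hε : 0 < ε) :
    ∃ C : ℝ, 0 < C ∧ ∀ (u T p q : ℝ) (M N : ℕ), u ≤ u0 → 1 ≤ T → T ≤ p → p ≤ q → q ≤ 8 * T →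
      1 ≤ M → M ≤ N → (N : ℝ) ≤ T ^ 4 →
      ∫ x in p..q, ‖MB2_S b α β u (Finset.Ioc M N) x‖ ^ 2 ≤ C * T ^ ε *
        ((q - p) * (M : ℝ) ^ (1 + 2 * u0) +
          T ^ (1 - α) * ((M : ℝ) ^ (2 - α + 2 * u0) + (N : ℝ) ^ (2 - α + 2 * u0))) := by
  set η : ℝ := min (ε / 16) ((-(1 / 2) - u0) / 2) with hη
  have hη0 : 0 < η := lt_min (by positivity) (by linarith)
  have hη1 : η ≤ ε / 16 := min_le_left _ _
  have hη2 : η ≤ (-(1 / 2) - u0) / 2 := min_le_right _ _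
  obtain ⟨C1, hC1⟩ := h.ramanujan η hη0
  obtain ⟨C, hC, hms⟩ := range_ms (α := α) (β := β) (γ := -u0 - η) (ε := ε / 2) hα hα' hβ
    (by positivity) (by linarith)
  refine ⟨C * (|C1| + 1) ^ 2, by positivity, ?_⟩
  intro u T p q M N hu hT hp hpq hq hM hMN hN
  have hT0 : 0 < T := by linarith
  have hM0 : (0 : ℝ) < M := by exact_mod_cast hM
  have hN0 : (0 : ℝ) < N := by exact_mod_cast (hM.trans hMN)
  have hcoef : ∀ m : ℕ, 1 ≤ m → |b m * (m : ℝ) ^ u| ≤ (|C1| + 1) * (m : ℝ) ^ (-(-u0 - η)) := by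
    intro m hm
    have hm1 : (1 : ℝ) ≤ m := by exact_mod_cast hm
    have hm0 : (0 : ℝ) < m := by linarith
    rw [abs_mul, abs_of_pos (Real.rpow_pos_of_pos hm0 u)]
    have h1 : |b m| ≤ (|C1| + 1) * (m : ℝ) ^ η := by
      refine (hC1 m hm).trans (mul_le_mul_of_nonneg_right ?_ (by positivity))
      linarith [le_abs_self C1]
    have h2 : (m : ℝ) ^ u ≤ (m : ℝ) ^ u0 := Real.rpow_le_rpow_of_exponent_le hm1 hu
    have h3 : (m : ℝ) ^ (-(-u0 - η)) = (m : ℝ) ^ η * (m : ℝ) ^ u0 := by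
      rw [← Real.rpow_add hm0]
      congr 1
      ring
    rw [h3, ← mul_assoc]
    exact mul_le_mul h1 h2 (by positivity) (by positivity)
  have h1 := hms T p q (|C1| + 1) M N (fun m => b m * (m : ℝ) ^ u) hT hp hpq hq hM hMN hN
    (by positivity) hcoef
  have hpow : ∀ (K : ℕ) (v : ℝ), (0 : ℝ) < K → (K : ℝ) ≤ T ^ 4 →
      (K : ℝ) ^ (v + 2 * η) ≤ T ^ (ε / 2) * (K : ℝ) ^ v := by
    intro K v hK hK4
    rw [Real.rpow_add hK, mul_comm]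
    have h2 : (K : ℝ) ^ (2 * η) ≤ T ^ (ε / 2) := by
      calc (K : ℝ) ^ (2 * η) ≤ (T ^ 4) ^ (2 * η) :=
            Real.rpow_le_rpow hK.le hK4 (by positivity)
        _ = T ^ (4 * (2 * η)) := by
            rw [← Real.rpow_natCast, ← Real.rpow_mul hT0.le]
            norm_num
        _ ≤ T ^ (ε / 2) := Real.rpow_le_rpow_of_exponent_le hT (by linarith)
    gcongr
  have hMN' : (M : ℝ) ≤ N := by exact_mod_cast hMN
  have e1 := hpow M (1 + 2 * u0) hM0 (hMN'.trans hN)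
  have e2 := hpow M (2 - α + 2 * u0) hM0 (hMN'.trans hN)
  have e3 := hpow N (2 - α + 2 * u0) hN0 hN
  rw [show 1 + 2 * u0 + 2 * η = 1 - 2 * (-u0 - η) by ring] at e1
  rw [show 2 - α + 2 * u0 + 2 * η = 2 - α - 2 * (-u0 - η) by ring] at e2 e3
  have hqp : 0 ≤ q - p := by linarith
  have e4 : T ^ ε = T ^ (ε / 2) * T ^ (ε / 2) := by
    rw [← Real.rpow_add hT0]
    congr 1
    ring
  calc _ ≤ _ := h1
    _ ≤ C * (|C1| + 1) ^ 2 * T ^ (ε / 2) * ((q - p) * (T ^ (ε / 2) * (M : ℝ) ^ (1 + 2 * u0)) +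
          T ^ (1 - α) * (T ^ (ε / 2) * (M : ℝ) ^ (2 - α + 2 * u0) +
            T ^ (ε / 2) * (N : ℝ) ^ (2 - α + 2 * u0))) := by gcongr
    _ = _ := by
        rw [e4]
        ring

/-- **MB2.** The mean square of a range of the series of `E_g` (compare MS3 `km_ms`; MS2 `range_ms`
with `α = 1/3`, `γ = 2/3 - ε'`). -/
theorem near_ms (h : RealSelberg b Lg 3) (hκ : 0 < κ₂) (d : Fin 4 → ℂ) {ε : ℝ} (hε : 0 < ε) :
    ∃ C : ℝ, 0 < C ∧ ∀ (T p q : ℝ) (N1 N2 : ℕ), 1 ≤ T → T ≤ p → p ≤ q → q ≤ 8 * T → 1 ≤ N1 →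
      N1 ≤ N2 → (N2 : ℝ) ≤ T ^ 2 →
      ∫ x in p..q, (∑ m ∈ Finset.Ioc N1 N2, b m * km κ₂ d m x) ^ 2 ≤ C * T ^ (2 / 3 + ε) *
        ((q - p) * (N1 : ℝ) ^ (-(1 / 3) : ℝ) + T ^ (2 / 3 : ℝ) * (N2 : ℝ) ^ (1 / 3 : ℝ)) := by
  obtain ⟨C, hC, hgen⟩ := MB2_gen h (α := 1 / 3) (β := 3 * κ₂ ^ (1 / 3 : ℝ)) (u0 := -(2 / 3))
    (ε := ε) (by norm_num) (by norm_num) (by positivity) (by norm_num) hε
  obtain ⟨D, hD⟩ : ∃ D : ℝ, D = ∑ i, ‖d i‖ := ⟨_, rfl⟩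
  have hD0 : 0 ≤ D := by
    rw [hD]
    exact Finset.sum_nonneg fun i _ => norm_nonneg _
  have hdi : ∀ i, ‖d i‖ ≤ D := fun i => by
    rw [hD]
    exact Finset.single_le_sum (fun i _ => norm_nonneg (d i)) (Finset.mem_univ i)
  refine ⟨128 * D ^ 2 * C + 1, by positivity, ?_⟩
  intro T p q N1 N2 hT hp hpq hq hN1 hN12 hN2
  have hT0 : 0 < T := by linarith
  have hN24 : (N2 : ℝ) ≤ T ^ 4 := by
    refine hN2.trans ?_
    exact pow_le_pow_right₀ hT (by norm_num)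
  have hN10 : (0 : ℝ) < N1 := by exact_mod_cast hN1
  have hN12' : (N1 : ℝ) ≤ N2 := by exact_mod_cast hN12
  set F : Fin 4 → ℝ → ℂ := fun i => MB2_S b (1 / 3) (3 * κ₂ ^ (1 / 3 : ℝ))
    (-((2 + ((i : ℕ) : ℝ)) / 3)) (Finset.Ioc N1 N2) with hF
  have hFc : ∀ i, Continuous fun x => ‖F i x‖ ^ 2 := fun i =>
    (MB2_S_cont _ (by norm_num) _ _ _).norm.pow 2
  set R : ℝ := (q - p) * (N1 : ℝ) ^ (-(1 / 3) : ℝ) + T ^ (2 / 3 : ℝ) * (N2 : ℝ) ^ (1 / 3 : ℝ)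
    with hR
  have hqp : 0 ≤ q - p := by linarith
  have hR0 : 0 ≤ R := by positivity
  have hFi : ∀ i, ∫ x in p..q, ‖F i x‖ ^ 2 ≤ C * T ^ ε * (2 * R) := by
    intro i
    have hi : (0 : ℝ) ≤ ((i : ℕ) : ℝ) := Nat.cast_nonneg _
    have h1 := hgen (-((2 + ((i : ℕ) : ℝ)) / 3)) T p q N1 N2 (by linarith) hT hp hpq hq hN1 hN12
      hN24
    refine h1.trans ?_
    have e1 : (1 + 2 * -(2 / 3) : ℝ) = -(1 / 3) := by norm_num
    have e2 : (2 - 1 / 3 + 2 * -(2 / 3) : ℝ) = 1 / 3 := by norm_num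
    have e3 : (1 - 1 / 3 : ℝ) = 2 / 3 := by norm_num
    rw [e1, e2, e3]
    have e4 : (N1 : ℝ) ^ (1 / 3 : ℝ) ≤ (N2 : ℝ) ^ (1 / 3 : ℝ) :=
      Real.rpow_le_rpow hN10.le hN12' (by norm_num)
    have e5 : (q - p) * (N1 : ℝ) ^ (-(1 / 3) : ℝ) + T ^ (2 / 3 : ℝ) *
        ((N1 : ℝ) ^ (1 / 3 : ℝ) + (N2 : ℝ) ^ (1 / 3 : ℝ)) ≤ 2 * R := by
      rw [hR]
      have e6 : 0 ≤ (q - p) * (N1 : ℝ) ^ (-(1 / 3) : ℝ) := by positivity
      have e7 : T ^ (2 / 3 : ℝ) * (N1 : ℝ) ^ (1 / 3 : ℝ) ≤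
          T ^ (2 / 3 : ℝ) * (N2 : ℝ) ^ (1 / 3 : ℝ) := by gcongr
      linarith
    gcongr
  have hpt : ∀ x ∈ Icc p q, (∑ m ∈ Finset.Ioc N1 N2, b m * km κ₂ d m x) ^ 2 ≤
      16 * D ^ 2 * T ^ (2 / 3 : ℝ) * ∑ i, ‖F i x‖ ^ 2 := by
    intro x hx
    have hx1 : 1 ≤ x := by linarith [hx.1]
    have hx0 : 0 ≤ x := by linarith
    have hx3 : ∀ i : Fin 4, x ^ ((1 - ((i : ℕ) : ℝ)) / 3) ≤ 2 * T ^ (1 / 3 : ℝ) := by
      intro i
      have h2 : x ^ ((1 - ((i : ℕ) : ℝ)) / 3) ≤ x ^ (1 / 3 : ℝ) := by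
        refine Real.rpow_le_rpow_of_exponent_le hx1 ?_
        have : (0 : ℝ) ≤ ((i : ℕ) : ℝ) := Nat.cast_nonneg _
        linarith
      have h3 : x ^ (1 / 3 : ℝ) ≤ (8 * T) ^ (1 / 3 : ℝ) :=
        Real.rpow_le_rpow hx0 (by linarith [hx.2]) (by norm_num)
      have h4 : (8 * T) ^ (1 / 3 : ℝ) = 2 * T ^ (1 / 3 : ℝ) := by
        rw [Real.mul_rpow (by norm_num) hT0.le]
        congr 1
        rw [show (8 : ℝ) = 2 ^ (3 : ℝ) by norm_num, ← Real.rpow_mul (by norm_num)]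
        norm_num
      linarith
    have h1 : ∑ m ∈ Finset.Ioc N1 N2, b m * km κ₂ d m x = ∑ i : Fin 4,
        x ^ ((1 - ((i : ℕ) : ℝ)) / 3) * (d i * F i x).re := by
      have e1 : ∀ i : Fin 4, x ^ ((1 - ((i : ℕ) : ℝ)) / 3) * (d i * F i x).re =
          ∑ m ∈ Finset.Ioc N1 N2, b m * ((m : ℝ) ^ (-((2 + ((i : ℕ) : ℝ)) / 3)) *
            x ^ ((1 - ((i : ℕ) : ℝ)) / 3) * (d i * e (3 * (κ₂ * m * x) ^ (1 / 3 : ℝ))).re) := by
        intro i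
        simp only [hF]
        unfold MB2_S
        rw [Finset.mul_sum, Complex.re_sum, Finset.mul_sum]
        refine Finset.sum_congr rfl fun m _ => ?_
        have e2 : e (3 * (κ₂ * m * x) ^ (1 / 3 : ℝ)) =
            e (3 * κ₂ ^ (1 / 3 : ℝ) * (m * x) ^ (1 / 3 : ℝ)) := by
          have hm : (0 : ℝ) ≤ m * x := mul_nonneg (Nat.cast_nonneg m) hx0
          rw [mul_assoc κ₂, Real.mul_rpow hκ.le hm, mul_assoc 3]
        rw [mul_left_comm (d i), Complex.re_ofReal_mul, e2]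
        ring
      rw [Finset.sum_congr rfl fun i _ => e1 i, Finset.sum_comm]
      refine Finset.sum_congr rfl fun m _ => ?_
      unfold km
      rw [Finset.mul_sum]
    have h5 : |∑ m ∈ Finset.Ioc N1 N2, b m * km κ₂ d m x| ≤
        ∑ i : Fin 4, 2 * T ^ (1 / 3 : ℝ) * D * ‖F i x‖ := by
      rw [h1]
      refine (Finset.abs_sum_le_sum_abs _ _).trans (Finset.sum_le_sum fun i _ => ?_)
      rw [abs_mul, abs_of_nonneg (Real.rpow_nonneg hx0 _)]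
      have h6 : |(d i * F i x).re| ≤ D * ‖F i x‖ := by
        refine (Complex.abs_re_le_norm _).trans ?_
        rw [norm_mul]
        have := hdi i
        gcongr
      calc _ ≤ 2 * T ^ (1 / 3 : ℝ) * (D * ‖F i x‖) := by
            have := hx3 i
            gcongr
        _ = _ := by ring
    have h6 := pow_le_pow_left₀ (abs_nonneg _) h5 2
    rw [sq_abs] at h6
    refine h6.trans ?_
    have h7 := sq_sum_le_card_mul_sum_sq (s := (Finset.univ : Finset (Fin 4)))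
      (f := fun i => 2 * T ^ (1 / 3 : ℝ) * D * ‖F i x‖)
    refine h7.trans (le_of_eq ?_)
    rw [Finset.card_univ, Fintype.card_fin, Finset.mul_sum, Finset.mul_sum]
    refine Finset.sum_congr rfl fun i _ => ?_
    have h8 : (T ^ (1 / 3 : ℝ)) ^ 2 = T ^ (2 / 3 : ℝ) := by
      rw [← Real.rpow_natCast, ← Real.rpow_mul hT0.le]
      norm_num
    rw [← h8]
    push_cast
    ring
  have hkc : ContinuousOn (fun x => (∑ m ∈ Finset.Ioc N1 N2, b m * km κ₂ d m x) ^ 2)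
      (Icc p q) := by
    refine ContinuousOn.pow (continuousOn_finsetSum _ fun m _ => continuousOn_const.mul ?_) 2
    unfold km
    refine continuousOn_finsetSum _ fun i _ => ?_
    have h1 : ContinuousOn (fun x : ℝ => x ^ ((1 - ((i : ℕ) : ℝ)) / 3)) (Icc p q) :=
      fun x hx => (Real.continuousAt_rpow_const _ _
        (Or.inl (ne_of_gt (by linarith [hx.1])))).continuousWithinAt
    have h2 : Continuous fun x : ℝ => (κ₂ * m * x) ^ (1 / 3 : ℝ) :=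
      (continuous_const.mul continuous_id).rpow_const fun x => Or.inr (by norm_num)
    exact (continuousOn_const.mul h1).mul (Complex.continuous_re.comp
      (continuous_const.mul (MB2_e_cont.comp (continuous_const.mul h2)))).continuousOn
  have hI : ∫ x in p..q, (∑ m ∈ Finset.Ioc N1 N2, b m * km κ₂ d m x) ^ 2 ≤
      ∫ x in p..q, 16 * D ^ 2 * T ^ (2 / 3 : ℝ) * ∑ i, ‖F i x‖ ^ 2 := by
    refine intervalIntegral.integral_mono_on hpq ?_ ?_ hpt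
    · refine ContinuousOn.intervalIntegrable ?_
      rw [uIcc_of_le hpq]
      exact hkc
    · exact (continuous_const.mul (continuous_finsetSum _ fun i _ =>
        hFc i)).intervalIntegrable _ _
  refine hI.trans ?_
  rw [intervalIntegral.integral_const_mul, intervalIntegral.integral_finsetSum
    (f := fun i x => ‖F i x‖ ^ 2) fun i _ => (hFc i).intervalIntegrable _ _]
  have h9 : ∑ i, ∫ x in p..q, ‖F i x‖ ^ 2 ≤ 4 * (C * T ^ ε * (2 * R)) := by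
    refine (Finset.sum_le_sum fun i _ => hFi i).trans (le_of_eq ?_)
    rw [Finset.sum_const, Finset.card_univ, Fintype.card_fin, nsmul_eq_mul]
    norm_num
  have h10 : T ^ (2 / 3 : ℝ) * T ^ ε = T ^ (2 / 3 + ε) := (Real.rpow_add hT0 _ _).symm
  calc 16 * D ^ 2 * T ^ (2 / 3 : ℝ) * ∑ i, ∫ x in p..q, ‖F i x‖ ^ 2 ≤
        16 * D ^ 2 * T ^ (2 / 3 : ℝ) * (4 * (C * T ^ ε * (2 * R))) :=
        mul_le_mul_of_nonneg_left h9 (by positivity)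
    _ = 128 * D ^ 2 * C * (T ^ (2 / 3 : ℝ) * T ^ ε) * R := by ring
    _ = 128 * D ^ 2 * C * T ^ (2 / 3 + ε) * R := by rw [h10]
    _ ≤ (128 * D ^ 2 * C + 1) * T ^ (2 / 3 + ε) * R := by
        have : 128 * D ^ 2 * C ≤ 128 * D ^ 2 * C + 1 := by linarith
        gcongr
--END MB2

/-- A block of the series of `E_f` (main parts). -/
noncomputable def Pb (a : ℕ → ℝ) (κ : ℝ) (z : ℂ) (M M' : ℕ) (x : ℝ) : ℝ :=
  ∑ m ∈ Finset.Ioc M M', a m * (m : ℝ) ^ (-(3 / 4) : ℝ) *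
    (x ^ (1 / 4 : ℝ) * (z * e (2 * √(κ * m * x))).re)

--BEGIN MB3
/-- **MB3.** The mean square of a block (compare MS8 `Pmd_ms`; MS1 `dyadic_ms` or MS2 `range_ms`,
`α = 1/2`). -/
theorem Pb_ms (h : RealSelberg a L 2) (h1 : 0 < κ₁) (z : ℂ) {ε : ℝ} (hε : 0 < ε) :
    ∃ C : ℝ, 0 < C ∧ ∀ (T p q : ℝ) (M M' : ℕ), 1 ≤ T → T ≤ p → p ≤ q → q ≤ 8 * T → 1 ≤ M →
      M ≤ M' → M' ≤ 2 * M → (M' : ℝ) ≤ T →
      ∫ x in p..q, Pb a κ₁ z M M' x ^ 2 ≤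
        C * T ^ (1 / 2 + ε) * ((q - p) * (M : ℝ) ^ (-(1 / 2) : ℝ) + T ^ (1 / 2 : ℝ)) := by
  have hk : 0 < √κ₁ := Real.sqrt_pos.2 h1
  obtain ⟨C, hC, hgen⟩ := MB2_gen h (α := 1 / 2) (β := 2 * √κ₁) (u0 := -(3 / 4))
    (ε := ε) (by norm_num) (by norm_num) (by positivity) (by norm_num) hε
  refine ⟨6 * ‖z‖ ^ 2 * C + 1, by positivity, ?_⟩
  intro T p q M M' hT hp hpq hq hM hMM _ hM'
  have hT0 : 0 < T := by linarith
  have hM4 : (M' : ℝ) ≤ T ^ 4 := hM'.trans (le_self_pow₀ hT (by norm_num))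
  have hg := hgen (-(3 / 4)) T p q M M' le_rfl hT hp hpq hq hM hMM hM4
  have e1 : (1 + 2 * -(3 / 4) : ℝ) = -(1 / 2) := by norm_num
  have e2 : (2 - 1 / 2 + 2 * -(3 / 4) : ℝ) = 0 := by norm_num
  have e3 : (1 - 1 / 2 : ℝ) = 1 / 2 := by norm_num
  rw [e1, e2, e3, Real.rpow_zero, Real.rpow_zero] at hg
  set R : ℝ := (q - p) * (M : ℝ) ^ (-(1 / 2) : ℝ) + T ^ (1 / 2 : ℝ) with hR
  have hqp : 0 ≤ q - p := by linarith
  have hR0 : 0 ≤ R := by positivity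
  have hg2 : ∫ x in p..q, ‖MB2_S a (1 / 2) (2 * √κ₁) (-(3 / 4)) (Finset.Ioc M M') x‖ ^ 2 ≤
      C * T ^ ε * (2 * R) := by
    refine hg.trans ?_
    have e4 : (q - p) * (M : ℝ) ^ (-(1 / 2) : ℝ) + T ^ (1 / 2 : ℝ) * (1 + 1) ≤ 2 * R := by
      rw [hR]
      have e6 : 0 ≤ (q - p) * (M : ℝ) ^ (-(1 / 2) : ℝ) := by positivity
      linarith
    gcongr
  have hSc := MB2_S_cont a (show (0 : ℝ) < 1 / 2 by norm_num) (2 * √κ₁) (-(3 / 4))
    (Finset.Ioc M M')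
  have hPc : Continuous (Pb a κ₁ z M M') := by
    unfold Pb
    refine continuous_finsetSum _ fun m _ => ?_
    have h1 : Continuous fun x : ℝ => x ^ (1 / 4 : ℝ) :=
      continuous_id.rpow_const fun x => Or.inr (by norm_num)
    exact continuous_const.mul (h1.mul (Complex.continuous_re.comp (continuous_const.mul
      (MB2_e_cont.comp (continuous_const.mul (continuous_const.mul continuous_id).sqrt)))))
  have hpt : ∀ x ∈ Icc p q, Pb a κ₁ z M M' x ^ 2 ≤ 3 * ‖z‖ ^ 2 * T ^ (1 / 2 : ℝ) *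
      ‖MB2_S a (1 / 2) (2 * √κ₁) (-(3 / 4)) (Finset.Ioc M M') x‖ ^ 2 := by
    intro x hx
    have hx0 : 0 ≤ x := by linarith [hx.1]
    have h2 : Pb a κ₁ z M M' x = x ^ (1 / 4 : ℝ) *
        (z * MB2_S a (1 / 2) (2 * √κ₁) (-(3 / 4)) (Finset.Ioc M M') x).re := by
      unfold Pb MB2_S
      rw [Finset.mul_sum, Complex.re_sum, Finset.mul_sum]
      refine Finset.sum_congr rfl fun m _ => ?_
      have e4 : e (2 * √(κ₁ * m * x)) = e (2 * √κ₁ * (m * x) ^ (1 / 2 : ℝ)) := by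
        have hm : (0 : ℝ) ≤ m * x := mul_nonneg (Nat.cast_nonneg m) hx0
        rw [mul_assoc κ₁, Real.sqrt_mul h1.le, ← Real.sqrt_eq_rpow, mul_assoc 2]
      rw [mul_left_comm z, Complex.re_ofReal_mul, e4]
      ring
    rw [h2, mul_pow]
    have h3 : (x ^ (1 / 4 : ℝ)) ^ 2 = x ^ (1 / 2 : ℝ) := by
      rw [← Real.rpow_natCast, ← Real.rpow_mul hx0]
      norm_num
    have h4 : x ^ (1 / 2 : ℝ) ≤ 3 * T ^ (1 / 2 : ℝ) := by
      calc x ^ (1 / 2 : ℝ) ≤ (9 * T) ^ (1 / 2 : ℝ) :=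
            Real.rpow_le_rpow hx0 (by linarith [hx.2]) (by norm_num)
        _ = 3 * T ^ (1 / 2 : ℝ) := by
            rw [Real.mul_rpow (by norm_num) hT0.le]
            congr 1
            rw [show (9 : ℝ) = 3 ^ (2 : ℝ) by norm_num, ← Real.rpow_mul (by norm_num)]
            norm_num
    have h5 : (z * MB2_S a (1 / 2) (2 * √κ₁) (-(3 / 4)) (Finset.Ioc M M') x).re ^ 2 ≤
        ‖z‖ ^ 2 * ‖MB2_S a (1 / 2) (2 * √κ₁) (-(3 / 4)) (Finset.Ioc M M') x‖ ^ 2 := by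
      rw [← mul_pow, ← norm_mul, ← sq_abs]
      exact pow_le_pow_left₀ (abs_nonneg _) (Complex.abs_re_le_norm _) 2
    rw [h3]
    calc _ ≤ 3 * T ^ (1 / 2 : ℝ) * (‖z‖ ^ 2 *
          ‖MB2_S a (1 / 2) (2 * √κ₁) (-(3 / 4)) (Finset.Ioc M M') x‖ ^ 2) := by gcongr
      _ = _ := by ring
  have hI : ∫ x in p..q, Pb a κ₁ z M M' x ^ 2 ≤ ∫ x in p..q, 3 * ‖z‖ ^ 2 * T ^ (1 / 2 : ℝ) *
      ‖MB2_S a (1 / 2) (2 * √κ₁) (-(3 / 4)) (Finset.Ioc M M') x‖ ^ 2 :=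
    intervalIntegral.integral_mono_on hpq ((hPc.pow 2).intervalIntegrable _ _)
      ((continuous_const.mul (hSc.norm.pow 2)).intervalIntegrable _ _) hpt
  rw [intervalIntegral.integral_const_mul] at hI
  have h10 : T ^ (1 / 2 : ℝ) * T ^ ε = T ^ (1 / 2 + ε) := (Real.rpow_add hT0 _ _).symm
  calc _ ≤ 3 * ‖z‖ ^ 2 * T ^ (1 / 2 : ℝ) * (C * T ^ ε * (2 * R)) := hI.trans (by gcongr)
    _ = 6 * ‖z‖ ^ 2 * C * (T ^ (1 / 2 : ℝ) * T ^ ε) * R := by ring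
    _ = 6 * ‖z‖ ^ 2 * C * T ^ (1 / 2 + ε) * R := by rw [h10]
    _ ≤ (6 * ‖z‖ ^ 2 * C + 1) * T ^ (1 / 2 + ε) * R := by
        have : 6 * ‖z‖ ^ 2 * C ≤ 6 * ‖z‖ ^ 2 * C + 1 := by linarith
        gcongr
--END MB3

--BEGIN MB4
/-- `u`, `v`, `w`: a function and its first two derivatives on `(0, ∞)`. -/
private def MB4_D (u v w : ℝ → ℂ) : Prop :=
  ∀ x : ℝ, 0 < x → HasDerivAt u (v x) x ∧ HasDerivAt v (w x) x

private theorem MB4_congr {u v w u' : ℝ → ℂ} (h : MB4_D u v w) (hu : ∀ x : ℝ, 0 < x → u' x = u x) :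
    MB4_D u' v w := by
  intro x hx
  refine ⟨(h x hx).1.congr_of_eventuallyEq ?_, (h x hx).2⟩
  filter_upwards [Ioi_mem_nhds hx] with y hy
  exact hu y hy

private theorem MB4_mul {u v w u' v' w' : ℝ → ℂ} (h : MB4_D u v w) (h' : MB4_D u' v' w') :
    MB4_D (fun x => u x * u' x) (fun x => v x * u' x + u x * v' x)
      (fun x => w x * u' x + 2 * (v x * v' x) + u x * w' x) := by
  intro x hx
  obtain ⟨h1, h2⟩ := h x hx
  obtain ⟨h3, h4⟩ := h' x hx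
  refine ⟨h1.mul h3, ((h2.mul h3).add (h1.mul h4)).congr_deriv ?_⟩
  ring

private theorem MB4_cmul {u v w : ℝ → ℂ} (h : MB4_D u v w) (c : ℂ) :
    MB4_D (fun x => c * u x) (fun x => c * v x) (fun x => c * w x) :=
  fun x hx => ⟨(h x hx).1.const_mul c, (h x hx).2.const_mul c⟩

private theorem MB4_sum {ι : Type*} (s : Finset ι) {u v w : ι → ℝ → ℂ}
    (h : ∀ i ∈ s, MB4_D (u i) (v i) (w i)) :
    MB4_D (fun x => ∑ i ∈ s, u i x) (fun x => ∑ i ∈ s, v i x) (fun x => ∑ i ∈ s, w i x) :=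
  fun x hx => ⟨HasDerivAt.fun_sum fun i hi => (h i hi x hx).1,
    HasDerivAt.fun_sum fun i hi => (h i hi x hx).2⟩

private theorem MB4_re1 {f : ℝ → ℂ} {f' : ℂ} {x : ℝ} (h : HasDerivAt f f' x) :
    HasDerivAt (fun x => (((f x).re : ℝ) : ℂ)) ((f'.re : ℝ) : ℂ) x :=
  (Complex.reCLM.hasFDerivAt.comp_hasDerivAt x h).ofReal_comp

private theorem MB4_re {u v w : ℝ → ℂ} (h : MB4_D u v w) :
    MB4_D (fun x => (((u x).re : ℝ) : ℂ)) (fun x => (((v x).re : ℝ) : ℂ))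
      (fun x => (((w x).re : ℝ) : ℂ)) :=
  fun x hx => ⟨MB4_re1 (h x hx).1, MB4_re1 (h x hx).2⟩

/-- `x^γ e(β x^α)` -/
private noncomputable def MB4_E (α β γ : ℝ) (x : ℝ) : ℂ := ((x ^ γ : ℝ) : ℂ) * e (β * x ^ α)

private theorem MB4_E_norm (α β γ : ℝ) {x : ℝ} (hx : 0 < x) : ‖MB4_E α β γ x‖ = x ^ γ := by
  unfold MB4_E
  rw [norm_mul, AS2_e_norm, mul_one, Complex.norm_real, Real.norm_of_nonneg (by positivity)]

private noncomputable def MB4_c (α β : ℝ) : ℂ := 2 * π * I * (β * α : ℝ)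

private theorem MB4_c_norm (α β : ℝ) : ‖MB4_c α β‖ = 2 * π * |β * α| := by
  unfold MB4_c
  rw [norm_mul, norm_mul, norm_mul, Complex.norm_I, mul_one, Complex.norm_real,
    Complex.norm_real, Complex.norm_ofNat, Real.norm_eq_abs, Real.norm_eq_abs,
    abs_of_pos Real.pi_pos]

private theorem MB4_E_deriv (α β γ : ℝ) {x : ℝ} (hx : 0 < x) :
    HasDerivAt (MB4_E α β γ) (γ * MB4_E α β (γ - 1) x + MB4_c α β * MB4_E α β (γ + α - 1) x) x := by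
  have h1 : HasDerivAt (fun x : ℝ => ((x ^ γ : ℝ) : ℂ)) ((γ * x ^ (γ - 1) : ℝ) : ℂ) x :=
    (Real.hasDerivAt_rpow_const (Or.inl hx.ne')).ofReal_comp
  have h2 : HasDerivAt (fun x : ℝ => ((β * x ^ α : ℝ) : ℂ)) ((β * (α * x ^ (α - 1)) : ℝ) : ℂ) x :=
    ((Real.hasDerivAt_rpow_const (Or.inl hx.ne')).const_mul β).ofReal_comp
  have h3 : HasDerivAt (fun x : ℝ => e (β * x ^ α))
      (cexp (2 * π * I * ((β * x ^ α : ℝ) : ℂ)) *
        (2 * π * I * ((β * (α * x ^ (α - 1)) : ℝ) : ℂ))) x := (h2.const_mul _).cexp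
  refine (h1.mul h3).congr_deriv ?_
  have e1 : x ^ (γ + α - 1) = x ^ γ * x ^ (α - 1) := by
    rw [← Real.rpow_add hx]
    congr 1
    ring
  unfold MB4_E MB4_c
  rw [e1]
  unfold e
  push_cast
  ring

private theorem MB4_ED (α β γ : ℝ) : MB4_D (MB4_E α β γ)
    (fun x => γ * MB4_E α β (γ - 1) x + MB4_c α β * MB4_E α β (γ + α - 1) x)
    (fun x => γ * (γ - 1) * MB4_E α β (γ - 2) x + (2 * γ + α - 1) * MB4_c α β *
      MB4_E α β (γ + α - 2) x + MB4_c α β ^ 2 * MB4_E α β (γ + 2 * α - 2) x) := by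
  intro x hx
  refine ⟨MB4_E_deriv α β γ hx, ?_⟩
  refine (((MB4_E_deriv α β (γ - 1) hx).const_mul (γ : ℂ)).add
    ((MB4_E_deriv α β (γ + α - 1) hx).const_mul (MB4_c α β))).congr_deriv ?_
  have e1 : γ - 1 - 1 = γ - 2 := by ring
  have e2 : γ - 1 + α - 1 = γ + α - 2 := by ring
  have e3 : γ + α - 1 - 1 = γ + α - 2 := by ring
  have e4 : γ + α - 1 + α - 1 = γ + 2 * α - 2 := by ring
  rw [e1, e2, e3, e4]
  push_cast
  ring

/-- bounds on `[T, 2T]` -/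
private def MB4_B (T C : ℝ) (u v w : ℝ → ℂ) : Prop :=
  ∀ x ∈ Icc T (2 * T), ‖u x‖ ≤ C ∧ ‖v x‖ ≤ C * T ^ (-(1 / 2) : ℝ) ∧ ‖w x‖ ≤ C * T ^ (-1 : ℝ)

private theorem MB4_sq {T : ℝ} (hT : 0 < T) :
    T ^ (-(1 / 2) : ℝ) * T ^ (-(1 / 2) : ℝ) = T ^ (-1 : ℝ) := by
  rw [← Real.rpow_add hT]
  norm_num

private theorem MB4_B_mul {T C C' : ℝ} (hT : 0 < T) (hC : 0 ≤ C) (hC' : 0 ≤ C')
    {u v w u' v' w' : ℝ → ℂ} (h : MB4_B T C u v w) (h' : MB4_B T C' u' v' w') :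
    MB4_B T (4 * C * C') (fun x => u x * u' x) (fun x => v x * u' x + u x * v' x)
      (fun x => w x * u' x + 2 * (v x * v' x) + u x * w' x) := by
  intro x hx
  obtain ⟨h1, h2, h3⟩ := h x hx
  obtain ⟨h4, h5, h6⟩ := h' x hx
  have t1 : 0 < T ^ (-(1 / 2) : ℝ) := Real.rpow_pos_of_pos hT _
  have t2 : 0 < T ^ (-1 : ℝ) := Real.rpow_pos_of_pos hT _
  have a1 : ‖u x * u' x‖ ≤ C * C' := by
    rw [norm_mul]
    exact mul_le_mul h1 h4 (norm_nonneg _) hC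
  have a2 : ‖v x * u' x‖ ≤ C * T ^ (-(1 / 2) : ℝ) * C' := by
    rw [norm_mul]
    exact mul_le_mul h2 h4 (norm_nonneg _) (by positivity)
  have a3 : ‖u x * v' x‖ ≤ C * (C' * T ^ (-(1 / 2) : ℝ)) := by
    rw [norm_mul]
    exact mul_le_mul h1 h5 (norm_nonneg _) hC
  have a4 : ‖w x * u' x‖ ≤ C * T ^ (-1 : ℝ) * C' := by
    rw [norm_mul]
    exact mul_le_mul h3 h4 (norm_nonneg _) (by positivity)
  have a5 : ‖v x * v' x‖ ≤ C * T ^ (-(1 / 2) : ℝ) * (C' * T ^ (-(1 / 2) : ℝ)) := by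
    rw [norm_mul]
    exact mul_le_mul h2 h5 (norm_nonneg _) (by positivity)
  have a6 : ‖u x * w' x‖ ≤ C * (C' * T ^ (-1 : ℝ)) := by
    rw [norm_mul]
    exact mul_le_mul h1 h6 (norm_nonneg _) hC
  have a7 : C * T ^ (-(1 / 2) : ℝ) * (C' * T ^ (-(1 / 2) : ℝ)) = C * C' * T ^ (-1 : ℝ) := by
    rw [← MB4_sq hT]
    ring
  rw [a7] at a5
  have p0 : 0 ≤ C * C' := mul_nonneg hC hC'
  have p1 : 0 ≤ C * C' * T ^ (-(1 / 2) : ℝ) := by positivity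
  refine ⟨a1.trans (by linarith), ?_, ?_⟩
  · refine (norm_add_le _ _).trans ?_
    linarith
  · refine (norm_add₃_le).trans ?_
    have a8 : ‖2 * (v x * v' x)‖ = 2 * ‖v x * v' x‖ := by
      rw [norm_mul, Complex.norm_ofNat]
    rw [a8]
    linarith

private theorem MB4_B_sum {ι : Type*} (s : Finset ι) {T C : ℝ} {u v w : ι → ℝ → ℂ}
    (h : ∀ i ∈ s, MB4_B T C (u i) (v i) (w i)) :
    MB4_B T (s.card * C) (fun x => ∑ i ∈ s, u i x) (fun x => ∑ i ∈ s, v i x)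
      (fun x => ∑ i ∈ s, w i x) := by
  intro x hx
  refine ⟨?_, ?_, ?_⟩
  · calc ‖∑ i ∈ s, u i x‖ ≤ ∑ _i ∈ s, C := norm_sum_le_of_le _ fun i hi => (h i hi x hx).1
      _ = s.card * C := by rw [Finset.sum_const, nsmul_eq_mul]
  · calc ‖∑ i ∈ s, v i x‖ ≤ ∑ _i ∈ s, C * T ^ (-(1 / 2) : ℝ) :=
        norm_sum_le_of_le _ fun i hi => (h i hi x hx).2.1
      _ = s.card * C * T ^ (-(1 / 2) : ℝ) := by rw [Finset.sum_const, nsmul_eq_mul, mul_assoc]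
  · calc ‖∑ i ∈ s, w i x‖ ≤ ∑ _i ∈ s, C * T ^ (-1 : ℝ) :=
        norm_sum_le_of_le _ fun i hi => (h i hi x hx).2.2
      _ = s.card * C * T ^ (-1 : ℝ) := by rw [Finset.sum_const, nsmul_eq_mul, mul_assoc]

private theorem MB4_pw {T x : ℝ} (hT : 1 ≤ T) (hx : T ≤ x) {p q : ℝ} (hp : p ≤ q) (hq : q ≤ 0) :
    x ^ p ≤ T ^ q := by
  have hT0 : 0 < T := by linarith
  calc x ^ p ≤ T ^ p := Real.rpow_le_rpow_of_nonpos hT0 hx (hp.trans hq)
    _ ≤ T ^ q := Real.rpow_le_rpow_of_exponent_le hT hp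

/-- one exponential with a constant -/
private theorem MB4_exp {T α β b : ℝ} {f : ℂ} (hT : 1 ≤ T) (hα : 0 < α) (hα' : α ≤ 1 / 2)
    (hβ : |β| ≤ b) (hf : ‖f‖ ≤ 1) :
    MB4_B T (1 + 2 * π * b + (2 * π * b) ^ 2) (fun x => f * MB4_E α β 0 x)
      (fun x => f * (((0 : ℝ) : ℂ) * MB4_E α β (0 - 1) x + MB4_c α β * MB4_E α β (0 + α - 1) x))
      (fun x => f * (((0 : ℝ) : ℂ) * (((0 : ℝ) : ℂ) - 1) * MB4_E α β (0 - 2) x +
        (2 * ((0 : ℝ) : ℂ) + α - 1) * MB4_c α β *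
        MB4_E α β (0 + α - 2) x + MB4_c α β ^ 2 * MB4_E α β (0 + 2 * α - 2) x)) := by
  intro x hx
  have hx0 : 0 < x := by linarith [hx.1]
  have hb : 0 ≤ b := (abs_nonneg _).trans hβ
  have hpi := Real.pi_pos
  have hc : ‖MB4_c α β‖ ≤ 2 * π * b := by
    rw [MB4_c_norm, abs_mul, abs_of_pos hα]
    have : |β| * α ≤ b * 1 := mul_le_mul hβ (by linarith) hα.le hb
    nlinarith
  have hcn := norm_nonneg (MB4_c α β)
  have t1 : 0 < T ^ (-(1 / 2) : ℝ) := Real.rpow_pos_of_pos (by linarith) _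
  have t2 : 0 < T ^ (-1 : ℝ) := Real.rpow_pos_of_pos (by linarith) _
  set B := 2 * π * b with hB
  have hB0 : 0 ≤ B := by positivity
  refine ⟨?_, ?_, ?_⟩
  · rw [norm_mul, MB4_E_norm _ _ _ hx0, Real.rpow_zero, mul_one]
    nlinarith
  · rw [norm_mul, Complex.ofReal_zero, zero_mul, zero_add, norm_mul, MB4_E_norm _ _ _ hx0]
    have h1 : x ^ (0 + α - 1) ≤ T ^ (-(1 / 2) : ℝ) := MB4_pw hT hx.1 (by linarith) (by norm_num)
    calc ‖f‖ * (‖MB4_c α β‖ * x ^ (0 + α - 1)) ≤ 1 * (B * T ^ (-(1 / 2) : ℝ)) := by gcongr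
      _ ≤ _ := by
        rw [one_mul]
        refine mul_le_mul_of_nonneg_right ?_ t1.le
        nlinarith
  · have h1 : x ^ (0 + α - 2) ≤ T ^ (-1 : ℝ) := MB4_pw hT hx.1 (by linarith) (by norm_num)
    have h2 : x ^ (0 + 2 * α - 2) ≤ T ^ (-1 : ℝ) := MB4_pw hT hx.1 (by linarith) (by norm_num)
    have h3 : ‖(2 * ((0 : ℝ) : ℂ) + α - 1)‖ ≤ 1 := by
      have e1 : (2 * ((0 : ℝ) : ℂ) + α - 1) = ((α - 1 : ℝ) : ℂ) := by
        push_cast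
        ring
      rw [e1, Complex.norm_real, Real.norm_eq_abs, abs_le]
      constructor <;> linarith
    rw [norm_mul]
    have h4 : ‖((0 : ℝ) : ℂ) * (((0 : ℝ) : ℂ) - 1) * MB4_E α β (0 - 2) x +
        (2 * ((0 : ℝ) : ℂ) + α - 1) * MB4_c α β * MB4_E α β (0 + α - 2) x +
        MB4_c α β ^ 2 * MB4_E α β (0 + 2 * α - 2) x‖ ≤ B * T ^ (-1 : ℝ) + B ^ 2 * T ^ (-1 : ℝ) := by
      have e2 : ((0 : ℝ) : ℂ) * (((0 : ℝ) : ℂ) - 1) * MB4_E α β (0 - 2) x = 0 := by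
        rw [Complex.ofReal_zero, zero_mul, zero_mul]
      rw [e2, zero_add]
      refine (norm_add_le _ _).trans (add_le_add ?_ ?_)
      · rw [norm_mul, norm_mul, MB4_E_norm _ _ _ hx0]
        calc ‖(2 * ((0 : ℝ) : ℂ) + α - 1)‖ * ‖MB4_c α β‖ * x ^ (0 + α - 2) ≤
            1 * B * T ^ (-1 : ℝ) := by gcongr
          _ = B * T ^ (-1 : ℝ) := by rw [one_mul]
      · rw [norm_mul, norm_pow, MB4_E_norm _ _ _ hx0]
        gcongr
    calc ‖f‖ * _ ≤ 1 * (B * T ^ (-1 : ℝ) + B ^ 2 * T ^ (-1 : ℝ)) :=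
          mul_le_mul hf h4 (norm_nonneg _) zero_le_one
      _ = (B + B ^ 2) * T ^ (-1 : ℝ) := by ring
      _ ≤ _ := by
        refine mul_le_mul_of_nonneg_right ?_ t2.le
        linarith

/-- the kernel -/
private theorem MB4_K {ρ : ℝ → ℝ} (hρ : IsBump ρ (1 / 4) (3 / 8) (5 / 8) (3 / 4)) (h1 : 0 < κ₁)
    (h2 : 0 < κ₂) {ξ : ℝ} (hξ' : ξ < 1 / 6) : ∃ C : ℝ, 0 < C ∧
    ∀ T s φ₁ φ₂ : ℝ, 1 ≤ T → |s| ≤ 1 → ∃ v w : ℝ → ℂ,
      MB4_D (fun x => ((K3 ρ κ₁ φ₁ κ₂ φ₂ s T (T ^ (1 - ξ)) x : ℝ) : ℂ)) v w ∧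
      MB4_B T C (fun x => ((K3 ρ κ₁ φ₁ κ₂ φ₂ s T (T ^ (1 - ξ)) x : ℝ) : ℂ)) v w := by
  obtain ⟨C, hC, hw⟩ := w1_Am hρ
  have hpi := Real.pi_pos
  set b1 : ℝ := 2 * √κ₁ with hb1
  set b2 : ℝ := 3 * κ₂ ^ (1 / 3 : ℝ) with hb2
  have hb10 : 0 ≤ b1 := by positivity
  have hb20 : 0 ≤ b2 := by positivity
  set C1 : ℝ := (Finset.Icc (-1 : ℤ) 1).card * (1 + 2 * π * b1 + (2 * π * b1) ^ 2) with hC1
  set C2 : ℝ := (Finset.Icc (-1 : ℤ) 1).card * (1 + 2 * π * b2 + (2 * π * b2) ^ 2) with hC2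
  have hcard : (0 : ℝ) < (Finset.Icc (-1 : ℤ) 1).card := by
    have : (Finset.Icc (-1 : ℤ) 1).card = 3 := by decide
    rw [this]
    norm_num
  have hC10 : 0 < C1 := by positivity
  have hC20 : 0 < C2 := by positivity
  refine ⟨4 * (4 * C * C1) * C2, by positivity, ?_⟩
  intro T s φ₁ φ₂ hT hs
  have hT0 : 0 < T := by linarith
  have hX0 : 0 < T ^ (1 - ξ) := Real.rpow_pos_of_pos hT0 _
  have hA := hw T (T ^ (1 - ξ)) hX0
  -- the window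
  have hwD : MB4_D (fun x => (w1 ρ T (T ^ (1 - ξ)) x : ℂ))
      (deriv (fun x => (w1 ρ T (T ^ (1 - ξ)) x : ℂ)))
      (deriv (deriv (fun x => (w1 ρ T (T ^ (1 - ξ)) x : ℂ)))) := by
    intro x _
    have hs1 : ContDiff ℝ (1 + 1) (fun x => (w1 ρ T (T ^ (1 - ξ)) x : ℂ)) := by
      simpa [one_add_one_eq_two] using hA.smooth
    have hs2 := (contDiff_succ_iff_deriv.1 hs1).2.2
    exact ⟨(hA.smooth.differentiable (by norm_num) x).hasDerivAt,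
      (hs2.differentiable (by norm_num) x).hasDerivAt⟩
  have hX1 : 1 / T ^ (1 - ξ) ≤ T ^ (-(1 / 2) : ℝ) := by
    rw [one_div, ← Real.rpow_neg hT0.le]
    exact Real.rpow_le_rpow_of_exponent_le hT (by linarith)
  have hX2 : 1 / (T ^ (1 - ξ)) ^ 2 ≤ T ^ (-1 : ℝ) := by
    rw [← MB4_sq hT0, pow_two, ← one_div_mul_one_div]
    exact mul_le_mul hX1 hX1 (by positivity) (by positivity)
  have hwB : MB4_B T C (fun x => (w1 ρ T (T ^ (1 - ξ)) x : ℂ))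
      (deriv (fun x => (w1 ρ T (T ^ (1 - ξ)) x : ℂ)))
      (deriv (deriv (fun x => (w1 ρ T (T ^ (1 - ξ)) x : ℂ)))) := by
    intro x _
    refine ⟨hA.b0 x, (hA.b1 x).trans ?_, (hA.b2 x).trans ?_⟩
    · rw [div_eq_mul_one_div]
      exact mul_le_mul_of_nonneg_left hX1 hC.le
    · rw [div_eq_mul_one_div]
      exact mul_le_mul_of_nonneg_left hX2 hC.le
  -- the two cosines
  have h1D := MB4_sum (Finset.Icc (-1 : ℤ) 1)
    (fun j _ => MB4_cmul (MB4_ED (1 / 2) (2 * (j * √κ₁)) 0) (AS2_f φ₁ j))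
  have h1B := MB4_B_sum (Finset.Icc (-1 : ℤ) 1)
    (fun j (hj : j ∈ Finset.Icc (-1 : ℤ) 1) => MB4_exp (α := 1 / 2) (β := 2 * (j * √κ₁)) (b := b1)
      (f := AS2_f φ₁ j) hT (by norm_num) le_rfl (by
        have hj' : |(j : ℝ)| ≤ 1 := by exact_mod_cast AS3_mem3 hj
        rw [abs_mul, abs_mul, abs_of_pos (by norm_num : (0 : ℝ) < 2),
          abs_of_nonneg (Real.sqrt_nonneg _), hb1]
        have := Real.sqrt_nonneg κ₁
        nlinarith) (AS2_f_norm φ₁ j))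
  have h2D := MB4_sum (Finset.Icc (-1 : ℤ) 1)
    (fun l _ => MB4_cmul (MB4_ED (1 / 3) (3 * l * κ₂ ^ (1 / 3 : ℝ)) 0) (AS2_c s φ₂ l))
  have h2B := MB4_B_sum (Finset.Icc (-1 : ℤ) 1)
    (fun l (hl : l ∈ Finset.Icc (-1 : ℤ) 1) => MB4_exp (α := 1 / 3)
      (β := 3 * l * κ₂ ^ (1 / 3 : ℝ)) (b := b2)
      (f := AS2_c s φ₂ l) hT (by norm_num) (by norm_num) (AS3_mu h2 (AS3_mem3 hl))
      (AS2_c_norm hs φ₂ l))
  have hD := MB4_mul (MB4_mul hwD h1D) h2D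
  have hB := MB4_B_mul hT0 (by positivity) hC20.le (MB4_B_mul hT0 hC.le hC10.le hwB h1B) h2B
  have heq : ∀ x : ℝ, 0 < x → ((K3 ρ κ₁ φ₁ κ₂ φ₂ s T (T ^ (1 - ξ)) x : ℝ) : ℂ) =
      (w1 ρ T (T ^ (1 - ξ)) x : ℂ) *
        (∑ j ∈ Finset.Icc (-1 : ℤ) 1, AS2_f φ₁ j * MB4_E (1 / 2) (2 * (j * √κ₁)) 0 x) *
        ∑ l ∈ Finset.Icc (-1 : ℤ) 1, AS2_c s φ₂ l *
          MB4_E (1 / 3) (3 * l * κ₂ ^ (1 / 3 : ℝ)) 0 x := by
    intro x hx
    unfold K3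
    rw [ofReal_mul, ofReal_mul, AS2_cos1 h1, AS2_cos2 h2 s φ₂ hx]
    unfold MB4_E
    simp only [Real.rpow_zero, Complex.ofReal_one, one_mul, Real.sqrt_eq_rpow x]
  refine ⟨_, _, MB4_congr hD heq, ?_⟩
  intro x hx
  have hx0 : 0 < x := by linarith [hx.1]
  obtain ⟨q1, q2, q3⟩ := hB x hx
  refine ⟨?_, q2, q3⟩
  show ‖((K3 ρ κ₁ φ₁ κ₂ φ₂ s T (T ^ (1 - ξ)) x : ℝ) : ℂ)‖ ≤ _
  rw [heq x hx0]
  exact q1

/-- the complex block -/
private noncomputable def MB4_G (a : ℕ → ℝ) (κ : ℝ) (z : ℂ) (M M' : ℕ) (x : ℝ) : ℂ :=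
  ∑ m ∈ Finset.Ioc M M', (((a m * (m : ℝ) ^ (-(3 / 4) : ℝ) : ℝ) : ℂ) * z) *
    MB4_E (1 / 2) (2 * √(κ * m)) (1 / 4) x

private theorem MB4_Pb {κ : ℝ} (hκ : 0 < κ) (a : ℕ → ℝ) (z : ℂ) (M M' : ℕ) (x : ℝ) :
    Pb a κ z M M' x = (MB4_G a κ z M M' x).re := by
  unfold Pb MB4_G
  rw [Complex.re_sum]
  refine Finset.sum_congr rfl fun m _ => ?_
  unfold MB4_E
  have e1 : √(κ * m * x) = √(κ * m) * x ^ (1 / 2 : ℝ) := by
    rw [Real.sqrt_mul (by positivity), Real.sqrt_eq_rpow x]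
  rw [e1]
  have e2 : (((a m * (m : ℝ) ^ (-(3 / 4) : ℝ) : ℝ) : ℂ) * z) * (((x ^ (1 / 4 : ℝ) : ℝ) : ℂ) *
      e (2 * √(κ * m) * x ^ (1 / 2 : ℝ))) =
      ((a m * (m : ℝ) ^ (-(3 / 4) : ℝ) * x ^ (1 / 4 : ℝ) : ℝ) : ℂ) *
        (z * e (2 * (√(κ * m) * x ^ (1 / 2 : ℝ)))) := by
    rw [mul_assoc 2 (√(κ * m)) (x ^ (1 / 2 : ℝ))]
    push_cast
    ring
  rw [e2, Complex.re_ofReal_mul]
  ring

private noncomputable def MB4_G1 (a : ℕ → ℝ) (κ : ℝ) (z : ℂ) (M M' : ℕ) (x : ℝ) : ℂ :=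
  ∑ m ∈ Finset.Ioc M M', (((a m * (m : ℝ) ^ (-(3 / 4) : ℝ) : ℝ) : ℂ) * z) *
    (((1 / 4 : ℝ) : ℂ) * MB4_E (1 / 2) (2 * √(κ * m)) (1 / 4 - 1) x +
      MB4_c (1 / 2) (2 * √(κ * m)) * MB4_E (1 / 2) (2 * √(κ * m)) (1 / 4 + 1 / 2 - 1) x)

private noncomputable def MB4_G2 (a : ℕ → ℝ) (κ : ℝ) (z : ℂ) (M M' : ℕ) (x : ℝ) : ℂ :=
  ∑ m ∈ Finset.Ioc M M', (((a m * (m : ℝ) ^ (-(3 / 4) : ℝ) : ℝ) : ℂ) * z) *
    (((1 / 4 : ℝ) : ℂ) * (((1 / 4 : ℝ) : ℂ) - 1) *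
      MB4_E (1 / 2) (2 * √(κ * m)) (1 / 4 - 2) x +
      (2 * ((1 / 4 : ℝ) : ℂ) + ((1 / 2 : ℝ) : ℂ) - 1) * MB4_c (1 / 2) (2 * √(κ * m)) *
        MB4_E (1 / 2) (2 * √(κ * m)) (1 / 4 + 1 / 2 - 2) x +
      MB4_c (1 / 2) (2 * √(κ * m)) ^ 2 *
        MB4_E (1 / 2) (2 * √(κ * m)) (1 / 4 + 2 * (1 / 2) - 2) x)

private theorem MB4_GD (a : ℕ → ℝ) (κ : ℝ) (z : ℂ) (M M' : ℕ) :
    MB4_D (MB4_G a κ z M M') (MB4_G1 a κ z M M') (MB4_G2 a κ z M M') :=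
  MB4_sum (Finset.Ioc M M') fun m _ => MB4_cmul (MB4_ED (1 / 2) (2 * √(κ * m)) (1 / 4)) _

/-- the sum in the mean square -/
private noncomputable def MB4_S (a : ℕ → ℝ) (κ : ℝ) (M M' : ℕ) (x : ℝ) : ℂ :=
  ∑ m ∈ Finset.Ico (M + 1) (2 * (M + 1)),
    (((if m ≤ M' then a m * (m : ℝ) ^ (1 / 4 : ℝ) else 0 : ℝ) : ℝ) : ℂ) *
      e (2 * √κ * (m * x) ^ (1 / 2 : ℝ))

private theorem MB4_S_cont (a : ℕ → ℝ) (κ : ℝ) (M M' : ℕ) : Continuous (MB4_S a κ M M') := by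
  unfold MB4_S
  refine continuous_finsetSum _ fun m _ => continuous_const.mul ?_
  unfold e
  have h1 : Continuous fun x : ℝ => ((m : ℝ) * x) ^ (1 / 2 : ℝ) :=
    (continuous_const.mul continuous_id).rpow_const fun x => Or.inr (by norm_num)
  exact Complex.continuous_exp.comp (continuous_const.mul
    (Complex.continuous_ofReal.comp (continuous_const.mul h1)))

private theorem MB4_S_eq {κ : ℝ} (hκ : 0 < κ) (a : ℕ → ℝ) {M M' : ℕ} (hM : M' ≤ 2 * M) {x : ℝ}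
    (hx : 0 < x) : ((x ^ (-(3 / 4) : ℝ) : ℝ) : ℂ) * MB4_S a κ M M' x =
      ∑ m ∈ Finset.Ioc M M', ((a m * (m : ℝ) ^ (-(3 / 4) : ℝ) : ℝ) : ℂ) * ((m : ℝ) : ℂ) *
        MB4_E (1 / 2) (2 * √(κ * m)) (1 / 4 + 2 * (1 / 2) - 2) x := by
  have hsub : Finset.Ioc M M' ⊆ Finset.Ico (M + 1) (2 * (M + 1)) := by
    intro m hm
    rw [Finset.mem_Ioc] at hm
    rw [Finset.mem_Ico]
    omega
  unfold MB4_S
  rw [Finset.mul_sum]
  symm
  refine Finset.sum_subset_zero_on_sdiff hsub ?_ ?_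
  · intro m hm
    rw [Finset.mem_sdiff, Finset.mem_Ico, Finset.mem_Ioc] at hm
    rw [if_neg (by omega)]
    simp
  · intro m hm
    rw [Finset.mem_Ioc] at hm
    rw [if_pos hm.2]
    have hm0 : (0 : ℝ) < m := by
      have : 0 < m := by omega
      exact_mod_cast this
    have e1 : 2 * √(κ * m) * x ^ (1 / 2 : ℝ) = 2 * √κ * ((m : ℝ) * x) ^ (1 / 2 : ℝ) := by
      rw [Real.sqrt_mul hκ.le, Real.mul_rpow hm0.le hx.le, Real.sqrt_eq_rpow (m : ℝ)]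
      ring
    have e2 : (1 / 4 : ℝ) + 2 * (1 / 2) - 2 = -(3 / 4) := by norm_num
    have e3 : (m : ℝ) ^ (1 / 4 : ℝ) = (m : ℝ) ^ (-(3 / 4) : ℝ) * m := by
      rw [← Real.rpow_add_one hm0.ne']
      norm_num
    unfold MB4_E
    rw [e1, e2, e3]
    push_cast
    ring

private theorem MB4_c_sq {κ : ℝ} (hκ : 0 < κ) (m : ℕ) :
    MB4_c (1 / 2) (2 * √(κ * m)) ^ 2 = ((-(4 * π ^ 2 * κ) * m : ℝ) : ℂ) := by
  unfold MB4_c
  have e1 : (√(κ * m)) ^ 2 = κ * m := Real.sq_sqrt (by positivity)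
  have e2 : (2 * π * I * ((2 * √(κ * m) * (1 / 2) : ℝ) : ℂ)) ^ 2 =
      (I ^ 2) * (((4 * π ^ 2 * (√(κ * m)) ^ 2 : ℝ)) : ℂ) := by
    push_cast
    ring
  rw [e2, e1, Complex.I_sq]
  push_cast
  ring

/-- `σ_θ = ∑ |a(m)| m^{-3/4} m^θ` -/
private noncomputable def MB4_s (a : ℕ → ℝ) (M M' : ℕ) (θ : ℝ) : ℝ :=
  ∑ m ∈ Finset.Ioc M M', |a m| * (m : ℝ) ^ (-(3 / 4) : ℝ) * (m : ℝ) ^ θ

private theorem MB4_G_le {κ : ℝ} (a : ℕ → ℝ) (z : ℂ) {M M' : ℕ} {x : ℝ}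
    (hx : 0 < x) : ‖MB4_G a κ z M M' x‖ ≤ ‖z‖ * x ^ (1 / 4 : ℝ) * MB4_s a M M' 0 := by
  unfold MB4_G MB4_s
  rw [Finset.mul_sum]
  refine norm_sum_le_of_le _ fun m hm => ?_
  have hm0 : (0 : ℝ) ≤ (m : ℝ) ^ (-(3 / 4) : ℝ) := by positivity
  rw [norm_mul, norm_mul, MB4_E_norm _ _ _ hx, Complex.norm_real, Real.norm_eq_abs, abs_mul,
    abs_of_nonneg hm0, Real.rpow_zero]
  exact le_of_eq (by ring)

private theorem MB4_G1_le {κ : ℝ} (hκ : 0 < κ) (a : ℕ → ℝ) (z : ℂ) {M M' : ℕ} {x : ℝ}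
    (hx : 0 < x) : ‖MB4_G1 a κ z M M' x‖ ≤ ‖z‖ * (x ^ (-(3 / 4) : ℝ) * MB4_s a M M' 0 +
      2 * π * √κ * x ^ (-(1 / 4) : ℝ) * MB4_s a M M' (1 / 2)) := by
  unfold MB4_G1 MB4_s
  rw [Finset.mul_sum, Finset.mul_sum, ← Finset.sum_add_distrib, Finset.mul_sum]
  refine norm_sum_le_of_le _ fun m hm => ?_
  have hm0 : (0 : ℝ) ≤ (m : ℝ) ^ (-(3 / 4) : ℝ) := by positivity
  have e1 : (1 / 4 : ℝ) - 1 = -(3 / 4) := by norm_num
  have e2 : (1 / 4 : ℝ) + 1 / 2 - 1 = -(1 / 4) := by norm_num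
  have e3 : √(κ * m) = √κ * (m : ℝ) ^ (1 / 2 : ℝ) := by
    rw [Real.sqrt_mul hκ.le, Real.sqrt_eq_rpow (m : ℝ)]
  rw [norm_mul, norm_mul, Complex.norm_real, Real.norm_eq_abs, abs_mul,
    abs_of_nonneg hm0, Real.rpow_zero, e1, e2]
  have h1 : ‖((1 / 4 : ℝ) : ℂ) * MB4_E (1 / 2) (2 * √(κ * m)) (-(3 / 4)) x +
      MB4_c (1 / 2) (2 * √(κ * m)) * MB4_E (1 / 2) (2 * √(κ * m)) (-(1 / 4)) x‖ ≤
      x ^ (-(3 / 4) : ℝ) + 2 * π * (√κ * (m : ℝ) ^ (1 / 2 : ℝ)) * x ^ (-(1 / 4) : ℝ) := by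
    refine (norm_add_le _ _).trans (add_le_add ?_ ?_)
    · rw [norm_mul, MB4_E_norm _ _ _ hx, Complex.norm_real, Real.norm_eq_abs]
      have : 0 ≤ x ^ (-(3 / 4) : ℝ) := by positivity
      rw [abs_of_pos (by norm_num : (0 : ℝ) < 1 / 4)]
      linarith
    · rw [norm_mul, MB4_E_norm _ _ _ hx, MB4_c_norm, ← e3]
      have e4 : |2 * √(κ * m) * (1 / 2)| = √(κ * m) := by
        rw [abs_of_nonneg (by positivity)]
        ring
      rw [e4]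
  calc |a m| * (m : ℝ) ^ (-(3 / 4) : ℝ) * ‖z‖ * _ ≤ |a m| * (m : ℝ) ^ (-(3 / 4) : ℝ) * ‖z‖ *
        (x ^ (-(3 / 4) : ℝ) + 2 * π * (√κ * (m : ℝ) ^ (1 / 2 : ℝ)) * x ^ (-(1 / 4) : ℝ)) :=
        mul_le_mul_of_nonneg_left h1 (by positivity)
    _ = _ := by ring

private theorem MB4_G2_le {κ : ℝ} (hκ : 0 < κ) (a : ℕ → ℝ) (z : ℂ) {M M' : ℕ} (hM : M' ≤ 2 * M)
    {x : ℝ} (hx : 0 < x) : ‖MB4_G2 a κ z M M' x‖ ≤ ‖z‖ * (x ^ (-(7 / 4) : ℝ) * MB4_s a M M' 0 +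
      4 * π ^ 2 * κ * x ^ (-(3 / 4) : ℝ) * ‖MB4_S a κ M M' x‖) := by
  have e0 : MB4_G2 a κ z M M' x = ((-(3 / 16) : ℝ) : ℂ) * z * (∑ m ∈ Finset.Ioc M M',
      ((a m * (m : ℝ) ^ (-(3 / 4) : ℝ) : ℝ) : ℂ) * MB4_E (1 / 2) (2 * √(κ * m)) (-(7 / 4)) x) +
      ((-(4 * π ^ 2 * κ) : ℝ) : ℂ) * z *
        (((x ^ (-(3 / 4) : ℝ) : ℝ) : ℂ) * MB4_S a κ M M' x) := by
    rw [MB4_S_eq hκ a hM hx]
    unfold MB4_G2
    rw [Finset.mul_sum, Finset.mul_sum, ← Finset.sum_add_distrib]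
    refine Finset.sum_congr rfl fun m _ => ?_
    rw [MB4_c_sq hκ m]
    have e1 : (1 / 4 : ℝ) - 2 = -(7 / 4) := by norm_num
    rw [e1]
    push_cast
    ring
  rw [e0]
  refine (norm_add_le _ _).trans ?_
  rw [mul_add]
  refine add_le_add ?_ ?_
  · rw [norm_mul, norm_mul, Complex.norm_real, Real.norm_eq_abs]
    have h1 : ‖∑ m ∈ Finset.Ioc M M', ((a m * (m : ℝ) ^ (-(3 / 4) : ℝ) : ℝ) : ℂ) *
        MB4_E (1 / 2) (2 * √(κ * m)) (-(7 / 4)) x‖ ≤ x ^ (-(7 / 4) : ℝ) * MB4_s a M M' 0 := by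
      unfold MB4_s
      rw [Finset.mul_sum]
      refine norm_sum_le_of_le _ fun m hm => ?_
      have hm0 : (0 : ℝ) ≤ (m : ℝ) ^ (-(3 / 4) : ℝ) := by positivity
      rw [norm_mul, MB4_E_norm _ _ _ hx, Complex.norm_real, Real.norm_eq_abs, abs_mul,
        abs_of_nonneg hm0, Real.rpow_zero]
      exact le_of_eq (by ring)
    have h2 : |(-(3 / 16) : ℝ)| ≤ 1 := by rw [abs_le]; norm_num
    calc |(-(3 / 16) : ℝ)| * ‖z‖ * _ ≤ 1 * ‖z‖ * (x ^ (-(7 / 4) : ℝ) * MB4_s a M M' 0) := by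
          gcongr
      _ = _ := by ring
  · rw [norm_mul, norm_mul, norm_mul, Complex.norm_real, Complex.norm_real, Real.norm_eq_abs,
      Real.norm_of_nonneg (by positivity : 0 ≤ x ^ (-(3 / 4) : ℝ)), abs_neg,
      abs_of_nonneg (by positivity)]
    exact le_of_eq (by ring)

/-- the coefficient sums -/
private theorem MB4_s_le {a : ℕ → ℝ} {Ca η : ℝ} (hCa : 0 < Ca)
    (ha : ∀ m : ℕ, 1 ≤ m → |a m| ≤ Ca * (m : ℝ) ^ η) {M M' : ℕ} (hM1 : 1 ≤ M) (hM : M' ≤ 2 * M)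
    {θ : ℝ} (hθ : η + θ ≤ 3 / 4) :
    0 ≤ MB4_s a M M' θ ∧ MB4_s a M M' θ ≤ Ca * (M : ℝ) ^ (1 / 4 + η + θ) := by
  have hM0 : (0 : ℝ) < M := by
    have : 0 < M := by omega
    exact_mod_cast this
  refine ⟨Finset.sum_nonneg fun m _ => by positivity, ?_⟩
  calc MB4_s a M M' θ ≤ ∑ _m ∈ Finset.Ioc M M', Ca * (M : ℝ) ^ (η - 3 / 4 + θ) := by
        refine Finset.sum_le_sum fun m hm => ?_
        rw [Finset.mem_Ioc] at hm
        have hm0 : (0 : ℝ) < m := by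
          have : 0 < m := by omega
          exact_mod_cast this
        have hMm : (M : ℝ) ≤ m := by exact_mod_cast hm.1.le
        calc |a m| * (m : ℝ) ^ (-(3 / 4) : ℝ) * (m : ℝ) ^ θ ≤
              Ca * (m : ℝ) ^ η * (m : ℝ) ^ (-(3 / 4) : ℝ) * (m : ℝ) ^ θ := by
              gcongr
              exact ha m (by omega)
          _ = Ca * (m : ℝ) ^ (η - 3 / 4 + θ) := by
              rw [mul_assoc, mul_assoc, ← Real.rpow_add hm0, ← Real.rpow_add hm0]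
              congr 2
              ring
          _ ≤ Ca * (M : ℝ) ^ (η - 3 / 4 + θ) := by
              refine mul_le_mul_of_nonneg_left ?_ hCa.le
              exact Real.rpow_le_rpow_of_nonpos hM0 hMm (by linarith)
    _ = ((M' - M : ℕ) : ℝ) * (Ca * (M : ℝ) ^ (η - 3 / 4 + θ)) := by
        rw [Finset.sum_const, Nat.card_Ioc, nsmul_eq_mul]
    _ ≤ (M : ℝ) * (Ca * (M : ℝ) ^ (η - 3 / 4 + θ)) := by
        refine mul_le_mul_of_nonneg_right ?_ (by positivity)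
        exact_mod_cast (by omega : M' - M ≤ M)
    _ = Ca * (M : ℝ) ^ (1 / 4 + η + θ) := by
        have e1 : (M : ℝ) ^ (1 / 4 + η + θ) = M * (M : ℝ) ^ (η - 3 / 4 + θ) := by
          nth_rewrite 2 [← Real.rpow_one (M : ℝ)]
          rw [← Real.rpow_add hM0]
          congr 1
          ring
        rw [e1]
        ring

/-- the mean square, after Cauchy-Schwarz -/
private theorem MB4_ms {κ : ℝ} (hκ : 0 < κ) {a : ℕ → ℝ} {Ca η : ℝ} (hCa : 0 < Ca) (hη : 0 < η)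
    (ha : ∀ m : ℕ, 1 ≤ m → |a m| ≤ Ca * (m : ℝ) ^ η) : ∃ C : ℝ, 0 < C ∧
    ∀ (T X : ℝ) (M M' : ℕ), 1 ≤ T → T ^ (5 / 6 : ℝ) ≤ X → X ≤ T → 1 ≤ M → M ≤ M' →
      (M' : ℝ) ≤ T ^ (1 / 3 : ℝ) →
      ∫ x in T..(T + X), ‖MB4_S a κ M M' x‖ ≤ C * (X * T ^ (1 / 4 + η)) := by
  have hsκ : 0 < √κ := Real.sqrt_pos.2 hκ
  obtain ⟨C1, hC1, hms⟩ := dyadic_ms (α := 1 / 2) (β := 2 * √κ) (by norm_num) (by norm_num)
    (by positivity)
  refine ⟨√(10 * C1) * Ca, by positivity, ?_⟩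
  intro T X M M' hT hX1 hX2 hM1 hMM hM'
  have hT0 : 0 < T := by linarith
  have hX0 : 0 < X := lt_of_lt_of_le (by positivity) hX1
  have hM0 : (1 : ℝ) ≤ M := by exact_mod_cast hM1
  have hMMr : (M : ℝ) ≤ M' := by exact_mod_cast hMM
  have hM'0 : (0 : ℝ) < M' := by linarith
  have h1 := hms T T (T + X) (M + 1) (fun m => if m ≤ M' then a m * (m : ℝ) ^ (1 / 4 : ℝ) else 0)
    hT le_rfl (by linarith) (by linarith) (by omega)
  -- the coefficients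
  have h2 : ∑ m ∈ Finset.Ico (M + 1) (2 * (M + 1)),
      (if m ≤ M' then a m * (m : ℝ) ^ (1 / 4 : ℝ) else 0) ^ 2 ≤
      2 * Ca ^ 2 * T ^ (1 / 2 + 2 * η) := by
    calc _ ≤ ∑ _m ∈ Finset.Ico (M + 1) (2 * (M + 1)), Ca ^ 2 * (M' : ℝ) ^ (1 / 2 + 2 * η) := by
          refine Finset.sum_le_sum fun m hm => ?_
          rw [Finset.mem_Ico] at hm
          split_ifs with hmM
          · have hm0 : (0 : ℝ) < m := by
              have : 0 < m := by omega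
              exact_mod_cast this
            have hmr : (m : ℝ) ≤ M' := by exact_mod_cast hmM
            have h3 : |a m * (m : ℝ) ^ (1 / 4 : ℝ)| ≤ Ca * (m : ℝ) ^ (1 / 4 + η) := by
              rw [abs_mul, abs_of_nonneg (by positivity : (0 : ℝ) ≤ (m : ℝ) ^ (1 / 4 : ℝ))]
              calc |a m| * (m : ℝ) ^ (1 / 4 : ℝ) ≤ Ca * (m : ℝ) ^ η * (m : ℝ) ^ (1 / 4 : ℝ) := by
                    gcongr
                    exact ha m (by omega)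
                _ = Ca * (m : ℝ) ^ (1 / 4 + η) := by
                    rw [mul_assoc, ← Real.rpow_add hm0]
                    congr 2
                    ring
            have h4 : Ca * (m : ℝ) ^ (1 / 4 + η) ≤ Ca * (M' : ℝ) ^ (1 / 4 + η) := by
              refine mul_le_mul_of_nonneg_left ?_ hCa.le
              exact Real.rpow_le_rpow hm0.le hmr (by linarith)
            have h5 : ((M' : ℝ) ^ (1 / 4 + η)) ^ 2 = (M' : ℝ) ^ (1 / 2 + 2 * η) := by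
              rw [← Real.rpow_natCast, ← Real.rpow_mul hM'0.le]
              congr 1
              push_cast
              ring
            rw [← sq_abs, ← h5, ← mul_pow]
            exact pow_le_pow_left₀ (abs_nonneg _) (h3.trans h4) 2
          · rw [zero_pow (by norm_num)]
            positivity
      _ = ((M + 1 : ℕ) : ℝ) * (Ca ^ 2 * (M' : ℝ) ^ (1 / 2 + 2 * η)) := by
          rw [Finset.sum_const, Nat.card_Ico, nsmul_eq_mul]
          congr 2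
          omega
      _ ≤ (2 * M') * (Ca ^ 2 * (M' : ℝ) ^ (1 / 2 + 2 * η)) := by
          refine mul_le_mul_of_nonneg_right ?_ (by positivity)
          push_cast
          linarith
      _ = 2 * Ca ^ 2 * (M' : ℝ) ^ (3 / 2 + 2 * η) := by
          have e1 : (M' : ℝ) ^ (3 / 2 + 2 * η) = M' * (M' : ℝ) ^ (1 / 2 + 2 * η) := by
            nth_rewrite 2 [← Real.rpow_one (M' : ℝ)]
            rw [← Real.rpow_add hM'0]
            congr 1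
            ring
          rw [e1]
          ring
      _ ≤ 2 * Ca ^ 2 * T ^ (1 / 2 + 2 * η) := by
          refine mul_le_mul_of_nonneg_left ?_ (by positivity)
          calc (M' : ℝ) ^ (3 / 2 + 2 * η) ≤ (T ^ (1 / 3 : ℝ)) ^ (3 / 2 + 2 * η) :=
                Real.rpow_le_rpow hM'0.le hM' (by linarith)
            _ = T ^ (1 / 3 * (3 / 2 + 2 * η)) := by rw [← Real.rpow_mul hT0.le]
            _ ≤ T ^ (1 / 2 + 2 * η) := Real.rpow_le_rpow_of_exponent_le hT (by linarith)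
  -- the off-diagonal terms
  have h3 : T ^ (1 - 1 / 2 : ℝ) * ((M + 1 : ℕ) : ℝ) ^ (1 - 1 / 2 : ℝ) *
      (1 + Real.log ((M + 1 : ℕ) : ℝ)) ≤ 4 * X := by
    set N : ℝ := ((M + 1 : ℕ) : ℝ) with hN
    have hN1 : N = M + 1 := by rw [hN]; push_cast; ring
    have hN0 : 0 < N := by linarith
    have e1 : (1 - 1 / 2 : ℝ) = 1 / 2 := by norm_num
    have e2 : N ^ (1 / 2 : ℝ) = √N := (Real.sqrt_eq_rpow N).symm
    have e3 : 1 + Real.log N ≤ 2 * √N := by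
      have h4 : Real.log N = 2 * Real.log (√N) := by
        rw [Real.log_sqrt hN0.le]
        ring
      have h5 := Real.log_le_sub_one_of_pos (Real.sqrt_pos.2 hN0)
      rw [h4]
      linarith
    rw [e1, e2]
    have h6 : N ≤ 2 * T ^ (1 / 3 : ℝ) := by linarith
    calc T ^ (1 / 2 : ℝ) * √N * (1 + Real.log N) ≤ T ^ (1 / 2 : ℝ) * √N * (2 * √N) :=
          mul_le_mul_of_nonneg_left e3 (by positivity)
      _ = 2 * T ^ (1 / 2 : ℝ) * (√N * √N) := by ring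
      _ = 2 * T ^ (1 / 2 : ℝ) * N := by rw [Real.mul_self_sqrt hN0.le]
      _ ≤ 2 * T ^ (1 / 2 : ℝ) * (2 * T ^ (1 / 3 : ℝ)) :=
          mul_le_mul_of_nonneg_left h6 (by positivity)
      _ = 4 * T ^ (5 / 6 : ℝ) := by
          have : T ^ (5 / 6 : ℝ) = T ^ (1 / 2 : ℝ) * T ^ (1 / 3 : ℝ) := by
            rw [← Real.rpow_add hT0]
            norm_num
          rw [this]
          ring
      _ ≤ 4 * X := by linarith
  have h4 : ∫ x in T..(T + X), ‖MB4_S a κ M M' x‖ ^ 2 ≤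
      10 * C1 * Ca ^ 2 * T ^ (1 / 2 + 2 * η) * X := by
    have h5 : ∫ x in T..(T + X), ‖MB4_S a κ M M' x‖ ^ 2 ≤ C1 * (2 * Ca ^ 2 *
        T ^ (1 / 2 + 2 * η)) * (5 * X) := by
      refine h1.trans ?_
      refine mul_le_mul (mul_le_mul_of_nonneg_left h2 hC1.le) ?_ ?_ (by positivity)
      · linarith
      · have h7 : 0 ≤ Real.log ((M + 1 : ℕ) : ℝ) := Real.log_natCast_nonneg _
        have h8 : T + X - T = X := by ring
        rw [h8]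
        positivity
    refine h5.trans (le_of_eq ?_)
    ring
  have hc := MB4_S_cont a κ M M'
  have hcs := AS6_cs (by linarith : T ≤ T + X) (F := fun x => ‖MB4_S a κ M M' x‖)
    (g := fun _ => 1) (A := 10 * C1 * Ca ^ 2 * T ^ (1 / 2 + 2 * η) * X) (B := X)
    ((hc.norm.pow 2).intervalIntegrable _ _)
    ((continuous_const.pow 2).intervalIntegrable _ _)
    hc.norm.aestronglyMeasurable aestronglyMeasurable_const h4
    (by rw [one_pow, intervalIntegral.integral_const, smul_eq_mul]; linarith)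
    (by positivity) hX0
  simp only [mul_one] at hcs
  have h6 : √(10 * C1 * Ca ^ 2 * T ^ (1 / 2 + 2 * η) * X) * √X =
      √(10 * C1) * Ca * (X * T ^ (1 / 4 + η)) := by
    have e1 : T ^ (1 / 2 + 2 * η) = (T ^ (1 / 4 + η)) ^ 2 := by
      rw [← Real.rpow_natCast, ← Real.rpow_mul hT0.le]
      congr 1
      push_cast
      ring
    rw [e1, Real.sqrt_mul (by positivity), Real.sqrt_mul (by positivity),
      Real.sqrt_mul (by positivity), Real.sqrt_sq hCa.le, Real.sqrt_sq (by positivity)]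
    have e2 : √X * √X = X := Real.mul_self_sqrt hX0.le
    calc √(10 * C1) * Ca * T ^ (1 / 4 + η) * √X * √X =
          √(10 * C1) * Ca * T ^ (1 / 4 + η) * (√X * √X) := by ring
      _ = _ := by rw [e2]; ring
  exact (le_abs_self _).trans (hcs.trans (le_of_eq h6))

private theorem MB4_smooth {ρ : ℝ → ℝ}
    (hρ : IsBump ρ (1 / 4) (3 / 8) (5 / 8) (3 / 4)) (h1 : 0 < κ₁) (h2 : 0 < κ₂) (a : ℕ → ℝ) (z : ℂ)
    {T X : ℝ} (hT : 1 ≤ T) (hX : 0 < X) (s φ₁ φ₂ : ℝ) (M M' : ℕ) :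
    ContDiff ℝ 2 (fun x => ((Pb a κ₁ z M M' x * K3 ρ κ₁ φ₁ κ₂ φ₂ s T X x : ℝ) : ℂ)) := by
  rw [contDiff_iff_contDiffAt]
  intro x
  rcases lt_or_ge x T with hx | hx
  · refine ContDiffAt.congr_of_eventuallyEq (contDiffAt_const (c := (0 : ℂ))) ?_
    filter_upwards [Iio_mem_nhds hx] with y hy
    have h3 : w1 ρ T X y = 0 := AS1_supp hρ hX (fun h => absurd h.1 (not_lt.2 (le_of_lt hy)))
    unfold K3
    rw [h3]
    simp
  · have hx0 : 0 < x := by linarith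
    refine Complex.ofRealCLM.contDiff.contDiffAt.comp x ?_
    have hs : ∀ c : ℝ, 0 < c → ContDiffAt ℝ 2 (fun x : ℝ => √(c * x)) x := fun c hc =>
      (contDiffAt_const.mul contDiffAt_id).sqrt (by
        simp only [id_eq]
        positivity)
    have hP : ContDiffAt ℝ 2 (Pb a κ₁ z M M') x := by
      unfold Pb
      refine ContDiffAt.sum fun m hm => contDiffAt_const.mul ?_
      rw [Finset.mem_Ioc] at hm
      have hm0 : (0 : ℝ) < m := by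
        have : 0 < m := by omega
        exact_mod_cast this
      refine (Real.contDiffAt_rpow_const_of_ne hx0.ne').mul ?_
      refine Complex.reCLM.contDiff.contDiffAt.comp x (contDiffAt_const.mul ?_)
      unfold e
      refine ContDiffAt.cexp (contDiffAt_const.mul ?_)
      refine Complex.ofRealCLM.contDiff.contDiffAt.comp x (contDiffAt_const.mul ?_)
      exact hs (κ₁ * m) (by positivity)
    have hK : ContDiffAt ℝ 2 (K3 ρ κ₁ φ₁ κ₂ φ₂ s T X) x := by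
      unfold K3 w1
      have hρ2 : ContDiff ℝ 2 ρ := by exact_mod_cast contDiff_infty.1 hρ.smooth 2
      refine (ContDiffAt.mul ?_ ?_).mul ?_
      · exact hρ2.contDiffAt.comp x ((contDiffAt_id.sub contDiffAt_const).div_const X)
      · refine contDiffAt_const.add ?_
        exact Real.contDiff_cos.contDiffAt.comp x
          ((contDiffAt_const.mul (hs κ₁ h1)).add contDiffAt_const)
      · refine contDiffAt_const.add (contDiffAt_const.mul ?_)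
        refine Real.contDiff_cos.contDiffAt.comp x ((contDiffAt_const.mul ?_).add contDiffAt_const)
        refine (contDiffAt_const.mul contDiffAt_id).rpow_const_of_ne ?_
        simp only [id_eq]
        positivity
    exact hP.mul hK

/-- **MB4.** `F = P_b K` is `C²` with support in `[T, T+X]`, and `∫ |F''| ≪ X T^{-1/2+ε}`, `X = T^{1-ξ}`.
`F'' = P_b'' K + 2 P_b' K' + P_b K''`, `K' ≪ T^{-1/2}`, `K'' ≪ T^{-1}`, and
`P_b'' = Re(z ∑ a(m) m^{-3/4} (A_2 m x^{-3/4} + A_1 m^{1/2} x^{-5/4} + A_0 x^{-7/4}) e(2√(κmx)))`; mean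
squares by MS1 (`dyadic_ms`, `α = 1/2`): `∫ |P_b''|² ≪ T^{-3/2+ε} M^{3/2} (X + (TM)^{1/2})`, and
`M ≤ T^{1/3}`; Cauchy-Schwarz. -/
theorem block_smooth (h : RealSelberg a L 2) {ρ : ℝ → ℝ}
    (hρ : IsBump ρ (1 / 4) (3 / 8) (5 / 8) (3 / 4)) (h1 : 0 < κ₁) (h2 : 0 < κ₂) (z : ℂ)
    {ξ ε : ℝ} (hξ : 0 < ξ) (hξ' : ξ < 1 / 6) (hε : 0 < ε) :
    ∃ C : ℝ, 0 < C ∧ ∀ (T s φ₁ φ₂ : ℝ) (M M' : ℕ), 1 ≤ T → |s| ≤ 1 → 1 ≤ M → M ≤ M' →
      M' ≤ 2 * M → (M' : ℝ) ≤ T ^ (1 / 3 : ℝ) →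
      ContDiff ℝ 2 (fun x => ((Pb a κ₁ z M M' x * K3 ρ κ₁ φ₁ κ₂ φ₂ s T (T ^ (1 - ξ)) x : ℝ) : ℂ)) ∧
      (∀ x, x ∉ Icc T (T + T ^ (1 - ξ)) →
        ((Pb a κ₁ z M M' x * K3 ρ κ₁ φ₁ κ₂ φ₂ s T (T ^ (1 - ξ)) x : ℝ) : ℂ) = 0) ∧
      ∫ x in T..(T + T ^ (1 - ξ)), ‖deriv (deriv (fun x => ((Pb a κ₁ z M M' x *
        K3 ρ κ₁ φ₁ κ₂ φ₂ s T (T ^ (1 - ξ)) x : ℝ) : ℂ))) x‖ ≤ C * T ^ ((1 - ξ) - 1 / 2 + ε) := by
  obtain ⟨η, hη, hη1, hη2⟩ : ∃ η : ℝ, 0 < η ∧ η ≤ ε ∧ η ≤ 1 / 4 :=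
    ⟨min ε (1 / 4), lt_min hε (by norm_num), min_le_left _ _, min_le_right _ _⟩
  obtain ⟨Ca0, hCa0⟩ := h.ramanujan η hη
  obtain ⟨Ca, hCa, ha⟩ : ∃ Ca : ℝ, 0 < Ca ∧ ∀ m : ℕ, 1 ≤ m → |a m| ≤ Ca * (m : ℝ) ^ η := by
    refine ⟨max Ca0 1, lt_of_lt_of_le one_pos (le_max_right _ _), fun m hm => (hCa0 m hm).trans ?_⟩
    exact mul_le_mul_of_nonneg_right (le_max_left _ _) (by positivity)
  obtain ⟨CK, hCK, hK⟩ := MB4_K hρ h1 h2 hξ'
  obtain ⟨C3, hC3, hms⟩ := MB4_ms h1 hCa hη ha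
  have hpi := Real.pi_pos
  have hsκ : 0 < √κ₁ := Real.sqrt_pos.2 h1
  refine ⟨CK * (‖z‖ * (Ca * (5 + 4 * π * √κ₁) + 4 * π ^ 2 * κ₁ * C3)) + 1, by positivity, ?_⟩
  intro T s φ₁ φ₂ M M' hT hs hM1 hMM hM2 hM'
  have hT0 : 0 < T := by linarith
  obtain ⟨hX1, hX2⟩ := AS3_X hT hξ hξ'
  have hX56 : T ^ (5 / 6 : ℝ) ≤ T ^ (1 - ξ) :=
    Real.rpow_le_rpow_of_exponent_le hT (by linarith)
  have hsm := MB4_smooth hρ h1 h2 a z hT (by linarith : 0 < T ^ (1 - ξ)) s φ₁ φ₂ M M'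
  refine ⟨hsm, ?_, ?_⟩
  · intro x hx
    have h3 : w1 ρ T (T ^ (1 - ξ)) x = 0 :=
      AS1_supp hρ (by linarith) (fun h => hx (Ioo_subset_Icc_self h))
    unfold K3
    rw [h3]
    simp
  set X := T ^ (1 - ξ) with hXdef
  have hX0 : 0 < X := by linarith
  set F : ℝ → ℂ := fun x => ((Pb a κ₁ z M M' x * K3 ρ κ₁ φ₁ κ₂ φ₂ s T X x : ℝ) : ℂ) with hF
  obtain ⟨v, w, hKD, hKB⟩ := hK T s φ₁ φ₂ hT hs
  -- the second derivative
  have hD := MB4_congr (MB4_mul (MB4_re (MB4_GD a κ₁ z M M')) hKD) (u' := F) (fun x _ => by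
    rw [hF]
    simp only
    rw [ofReal_mul, MB4_Pb h1])
  have hF2 : ∀ x : ℝ, 0 < x → deriv (deriv F) x =
      (((MB4_G2 a κ₁ z M M' x).re : ℝ) : ℂ) * ((K3 ρ κ₁ φ₁ κ₂ φ₂ s T X x : ℝ) : ℂ) +
        2 * ((((MB4_G1 a κ₁ z M M' x).re : ℝ) : ℂ) * v x) +
        (((MB4_G a κ₁ z M M' x).re : ℝ) : ℂ) * w x := by
    intro x hx
    have hev : deriv F =ᶠ[𝓝 x] fun x => (((MB4_G1 a κ₁ z M M' x).re : ℝ) : ℂ) *
        ((K3 ρ κ₁ φ₁ κ₂ φ₂ s T X x : ℝ) : ℂ) + (((MB4_G a κ₁ z M M' x).re : ℝ) : ℂ) * v x := by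
      filter_upwards [Ioi_mem_nhds hx] with y hy
      exact (hD y hy).1.deriv
    rw [hev.deriv_eq]
    exact (hD x hx).2.deriv
  -- sums of coefficients
  obtain ⟨s0, s0'⟩ := MB4_s_le hCa ha hM1 hM2 (θ := 0) (by linarith)
  obtain ⟨s1, s1'⟩ := MB4_s_le hCa ha hM1 hM2 (θ := 1 / 2) (by linarith)
  have hM0 : (0 : ℝ) < M := by
    have : 0 < M := by omega
    exact_mod_cast this
  have hMT : (M : ℝ) ≤ T ^ (1 / 3 : ℝ) := le_trans (by exact_mod_cast hMM) hM'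
  have s0'' : MB4_s a M M' 0 ≤ Ca * T ^ (1 / 6 : ℝ) := by
    refine s0'.trans (mul_le_mul_of_nonneg_left ?_ hCa.le)
    calc (M : ℝ) ^ (1 / 4 + η + 0) ≤ (T ^ (1 / 3 : ℝ)) ^ (1 / 4 + η + 0) :=
          Real.rpow_le_rpow hM0.le hMT (by linarith)
      _ = T ^ (1 / 3 * (1 / 4 + η + 0)) := by rw [← Real.rpow_mul hT0.le]
      _ ≤ T ^ (1 / 6 : ℝ) := Real.rpow_le_rpow_of_exponent_le hT (by linarith)
  have s1'' : MB4_s a M M' (1 / 2) ≤ Ca * T ^ (1 / 4 + η) := by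
    refine s1'.trans (mul_le_mul_of_nonneg_left ?_ hCa.le)
    calc (M : ℝ) ^ (1 / 4 + η + 1 / 2) ≤ (T ^ (1 / 3 : ℝ)) ^ (1 / 4 + η + 1 / 2) :=
          Real.rpow_le_rpow hM0.le hMT (by linarith)
      _ = T ^ (1 / 3 * (1 / 4 + η + 1 / 2)) := by rw [← Real.rpow_mul hT0.le]
      _ ≤ T ^ (1 / 4 + η) := Real.rpow_le_rpow_of_exponent_le hT (by linarith)
  -- powers of T
  have hQ : 0 < T ^ (-(1 / 2) + η) := Real.rpow_pos_of_pos hT0 _
  have pq : ∀ p q : ℝ, p + q ≤ -(1 / 2) + η → T ^ p * T ^ q ≤ T ^ (-(1 / 2) + η) := by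
    intro p q hpq
    rw [← Real.rpow_add hT0]
    exact Real.rpow_le_rpow_of_exponent_le hT hpq
  -- the pointwise bound
  have hpt : ∀ x ∈ Icc T (T + X), ‖deriv (deriv F) x‖ ≤
      CK * (‖z‖ * (Ca * (5 + 4 * π * √κ₁))) * T ^ (-(1 / 2) + η) +
        CK * (‖z‖ * (4 * π ^ 2 * κ₁)) * T ^ (-(3 / 4) : ℝ) * ‖MB4_S a κ₁ M M' x‖ := by
    intro x hx
    have hx0 : 0 < x := by linarith [hx.1]
    have hx2 : x ∈ Icc T (2 * T) := ⟨hx.1, by linarith [hx.2]⟩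
    obtain ⟨k0, k1, k2⟩ := hKB x hx2
    have g0 : ‖MB4_G a κ₁ z M M' x‖ ≤ ‖z‖ * (2 * Ca) * (T ^ (1 / 4 : ℝ) * T ^ (1 / 6 : ℝ)) := by
      refine (MB4_G_le a z hx0).trans ?_
      have e1 : x ^ (1 / 4 : ℝ) ≤ 2 * T ^ (1 / 4 : ℝ) := by
        calc x ^ (1 / 4 : ℝ) ≤ (2 * T) ^ (1 / 4 : ℝ) :=
              Real.rpow_le_rpow hx0.le hx2.2 (by norm_num)
          _ = (2 : ℝ) ^ (1 / 4 : ℝ) * T ^ (1 / 4 : ℝ) := Real.mul_rpow (by norm_num) hT0.le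
          _ ≤ 2 * T ^ (1 / 4 : ℝ) := by
              refine mul_le_mul_of_nonneg_right ?_ (by positivity)
              calc (2 : ℝ) ^ (1 / 4 : ℝ) ≤ (2 : ℝ) ^ (1 : ℝ) :=
                    Real.rpow_le_rpow_of_exponent_le (by norm_num) (by norm_num)
                _ = 2 := Real.rpow_one 2
      calc ‖z‖ * x ^ (1 / 4 : ℝ) * MB4_s a M M' 0 ≤
            ‖z‖ * (2 * T ^ (1 / 4 : ℝ)) * (Ca * T ^ (1 / 6 : ℝ)) := by gcongr
        _ = _ := by ring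
    have g1 : ‖MB4_G1 a κ₁ z M M' x‖ ≤ ‖z‖ * (T ^ (-(3 / 4) : ℝ) * (Ca * T ^ (1 / 6 : ℝ)) +
        2 * π * √κ₁ * T ^ (-(1 / 4) : ℝ) * (Ca * T ^ (1 / 4 + η))) := by
      refine (MB4_G1_le h1 a z hx0).trans ?_
      have e1 : x ^ (-(3 / 4) : ℝ) ≤ T ^ (-(3 / 4) : ℝ) := MB4_pw hT hx.1 le_rfl (by norm_num)
      have e2 : x ^ (-(1 / 4) : ℝ) ≤ T ^ (-(1 / 4) : ℝ) := MB4_pw hT hx.1 le_rfl (by norm_num)
      gcongr
    have g2 : ‖MB4_G2 a κ₁ z M M' x‖ ≤ ‖z‖ * (T ^ (-(7 / 4) : ℝ) * (Ca * T ^ (1 / 6 : ℝ)) +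
        4 * π ^ 2 * κ₁ * T ^ (-(3 / 4) : ℝ) * ‖MB4_S a κ₁ M M' x‖) := by
      refine (MB4_G2_le h1 a z hM2 hx0).trans ?_
      have e1 : x ^ (-(7 / 4) : ℝ) ≤ T ^ (-(7 / 4) : ℝ) := MB4_pw hT hx.1 le_rfl (by norm_num)
      have e2 : x ^ (-(3 / 4) : ℝ) ≤ T ^ (-(3 / 4) : ℝ) := MB4_pw hT hx.1 le_rfl (by norm_num)
      gcongr
    have hre : ∀ u : ℂ, ‖((u.re : ℝ) : ℂ)‖ ≤ ‖u‖ := by
      intro u
      rw [Complex.norm_real, Real.norm_eq_abs]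
      exact Complex.abs_re_le_norm u
    rw [hF2 x hx0]
    refine (norm_add₃_le).trans ?_
    have r2 : ‖(((MB4_G2 a κ₁ z M M' x).re : ℝ) : ℂ) *
        ((K3 ρ κ₁ φ₁ κ₂ φ₂ s T X x : ℝ) : ℂ)‖ ≤ ‖MB4_G2 a κ₁ z M M' x‖ * CK := by
      rw [norm_mul]
      exact mul_le_mul (hre _) k0 (norm_nonneg _) (norm_nonneg _)
    have r1 : ‖2 * ((((MB4_G1 a κ₁ z M M' x).re : ℝ) : ℂ) * v x)‖ ≤
        2 * (‖MB4_G1 a κ₁ z M M' x‖ * (CK * T ^ (-(1 / 2) : ℝ))) := by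
      rw [norm_mul, Complex.norm_ofNat, norm_mul]
      refine mul_le_mul_of_nonneg_left ?_ (by norm_num)
      exact mul_le_mul (hre _) k1 (norm_nonneg _) (norm_nonneg _)
    have r0 : ‖(((MB4_G a κ₁ z M M' x).re : ℝ) : ℂ) * w x‖ ≤
        ‖MB4_G a κ₁ z M M' x‖ * (CK * T ^ (-1 : ℝ)) := by
      rw [norm_mul]
      exact mul_le_mul (hre _) k2 (norm_nonneg _) (norm_nonneg _)
    have t1 : T ^ (-(7 / 4) : ℝ) * T ^ (1 / 6 : ℝ) ≤ T ^ (-(1 / 2) + η) := pq _ _ (by linarith)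
    have t2 : T ^ (-(1 / 2) : ℝ) * (T ^ (-(3 / 4) : ℝ) * T ^ (1 / 6 : ℝ)) ≤
        T ^ (-(1 / 2) + η) := by
      rw [← Real.rpow_add hT0, ← Real.rpow_add hT0]
      exact Real.rpow_le_rpow_of_exponent_le hT (by linarith)
    have t3 : T ^ (-(1 / 2) : ℝ) * (T ^ (-(1 / 4) : ℝ) * T ^ (1 / 4 + η)) ≤
        T ^ (-(1 / 2) + η) := by
      rw [← Real.rpow_add hT0, ← Real.rpow_add hT0]
      exact Real.rpow_le_rpow_of_exponent_le hT (by linarith)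
    have t4 : T ^ (-1 : ℝ) * (T ^ (1 / 4 : ℝ) * T ^ (1 / 6 : ℝ)) ≤ T ^ (-(1 / 2) + η) := by
      rw [← Real.rpow_add hT0, ← Real.rpow_add hT0]
      exact Real.rpow_le_rpow_of_exponent_le hT (by linarith)
    have hz := norm_nonneg z
    have q2 : ‖MB4_G2 a κ₁ z M M' x‖ * CK ≤ CK * ‖z‖ * Ca * T ^ (-(1 / 2) + η) +
        CK * (‖z‖ * (4 * π ^ 2 * κ₁)) * T ^ (-(3 / 4) : ℝ) * ‖MB4_S a κ₁ M M' x‖ := by
      calc _ ≤ ‖z‖ * (T ^ (-(7 / 4) : ℝ) * (Ca * T ^ (1 / 6 : ℝ)) +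
            4 * π ^ 2 * κ₁ * T ^ (-(3 / 4) : ℝ) * ‖MB4_S a κ₁ M M' x‖) * CK :=
            mul_le_mul_of_nonneg_right g2 hCK.le
        _ = CK * ‖z‖ * Ca * (T ^ (-(7 / 4) : ℝ) * T ^ (1 / 6 : ℝ)) +
            CK * (‖z‖ * (4 * π ^ 2 * κ₁)) * T ^ (-(3 / 4) : ℝ) * ‖MB4_S a κ₁ M M' x‖ := by ring
        _ ≤ _ := by gcongr
    have q1 : 2 * (‖MB4_G1 a κ₁ z M M' x‖ * (CK * T ^ (-(1 / 2) : ℝ))) ≤
        CK * ‖z‖ * Ca * (2 + 4 * π * √κ₁) * T ^ (-(1 / 2) + η) := by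
      calc _ ≤ 2 * (‖z‖ * (T ^ (-(3 / 4) : ℝ) * (Ca * T ^ (1 / 6 : ℝ)) +
            2 * π * √κ₁ * T ^ (-(1 / 4) : ℝ) * (Ca * T ^ (1 / 4 + η))) *
            (CK * T ^ (-(1 / 2) : ℝ))) := by gcongr
        _ = CK * ‖z‖ * Ca * (2 * (T ^ (-(1 / 2) : ℝ) * (T ^ (-(3 / 4) : ℝ) * T ^ (1 / 6 : ℝ))) +
            4 * π * √κ₁ * (T ^ (-(1 / 2) : ℝ) * (T ^ (-(1 / 4) : ℝ) * T ^ (1 / 4 + η)))) := by
            ring
        _ ≤ CK * ‖z‖ * Ca * (2 * T ^ (-(1 / 2) + η) + 4 * π * √κ₁ * T ^ (-(1 / 2) + η)) := by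
            gcongr
        _ = _ := by ring
    have q0 : ‖MB4_G a κ₁ z M M' x‖ * (CK * T ^ (-1 : ℝ)) ≤
        CK * ‖z‖ * Ca * 2 * T ^ (-(1 / 2) + η) := by
      calc _ ≤ ‖z‖ * (2 * Ca) * (T ^ (1 / 4 : ℝ) * T ^ (1 / 6 : ℝ)) * (CK * T ^ (-1 : ℝ)) := by
            gcongr
        _ = CK * ‖z‖ * Ca * 2 * (T ^ (-1 : ℝ) * (T ^ (1 / 4 : ℝ) * T ^ (1 / 6 : ℝ))) := by ring
        _ ≤ _ := by gcongr
    calc _ ≤ (CK * ‖z‖ * Ca * T ^ (-(1 / 2) + η) +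
          CK * (‖z‖ * (4 * π ^ 2 * κ₁)) * T ^ (-(3 / 4) : ℝ) * ‖MB4_S a κ₁ M M' x‖) +
          CK * ‖z‖ * Ca * (2 + 4 * π * √κ₁) * T ^ (-(1 / 2) + η) +
          CK * ‖z‖ * Ca * 2 * T ^ (-(1 / 2) + η) :=
          add_le_add (add_le_add (r2.trans q2) (r1.trans q1)) (r0.trans q0)
      _ = _ := by ring
  -- integration
  have hFc : Continuous (deriv (deriv F)) := by
    have hs1 : ContDiff ℝ (1 + 1) F := by
      simpa [one_add_one_eq_two] using hsm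
    have hs2 : ContDiff ℝ (0 + 1) (deriv F) := by
      simpa using (contDiff_succ_iff_deriv.1 hs1).2.2
    exact (contDiff_succ_iff_deriv.1 hs2).2.2.continuous
  have hSc := MB4_S_cont a κ₁ M M'
  have hle : T ≤ T + X := by linarith
  have hint : ∫ x in T..(T + X), ‖deriv (deriv F) x‖ ≤
      ∫ x in T..(T + X), (CK * (‖z‖ * (Ca * (5 + 4 * π * √κ₁))) * T ^ (-(1 / 2) + η) +
        CK * (‖z‖ * (4 * π ^ 2 * κ₁)) * T ^ (-(3 / 4) : ℝ) * ‖MB4_S a κ₁ M M' x‖) :=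
    intervalIntegral.integral_mono_on hle (hFc.norm.intervalIntegrable _ _)
      ((continuous_const.add (continuous_const.mul hSc.norm)).intervalIntegrable _ _) hpt
  have hspl : ∀ c1 c2 : ℝ, ∫ x in T..(T + X), (c1 + c2 * ‖MB4_S a κ₁ M M' x‖) =
      (T + X - T) * c1 + c2 * ∫ x in T..(T + X), ‖MB4_S a κ₁ M M' x‖ := by
    intro c1 c2
    have i1 : IntervalIntegrable (fun _ : ℝ => c1) volume T (T + X) :=
      continuous_const.intervalIntegrable _ _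
    have i2 : IntervalIntegrable (fun x : ℝ => c2 * ‖MB4_S a κ₁ M M' x‖) volume T (T + X) :=
      (continuous_const.mul hSc.norm).intervalIntegrable _ _
    rw [intervalIntegral.integral_add i1 i2, intervalIntegral.integral_const,
      intervalIntegral.integral_const_mul, smul_eq_mul]
  rw [hspl] at hint
  have hS := hms T X M M' hT hX56 hX2 hM1 hMM hM'
  have hXT : X * T ^ (-(1 / 2) + η) ≤ T ^ ((1 - ξ) - 1 / 2 + ε) := by
    rw [hXdef, ← Real.rpow_add hT0]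
    exact Real.rpow_le_rpow_of_exponent_le hT (by linarith)
  have hS2 : T ^ (-(3 / 4) : ℝ) * (C3 * (X * T ^ (1 / 4 + η))) =
      C3 * (X * T ^ (-(1 / 2) + η)) := by
    have e1 : T ^ (-(1 / 2) + η) = T ^ (-(3 / 4) : ℝ) * T ^ (1 / 4 + η) := by
      rw [← Real.rpow_add hT0]
      congr 1
      ring
    rw [e1]
    ring
  have hz := norm_nonneg z
  calc ∫ x in T..(T + X), ‖deriv (deriv F) x‖ ≤ _ := hint
    _ ≤ (T + X - T) * (CK * (‖z‖ * (Ca * (5 + 4 * π * √κ₁))) * T ^ (-(1 / 2) + η)) +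
        CK * (‖z‖ * (4 * π ^ 2 * κ₁)) * T ^ (-(3 / 4) : ℝ) * (C3 * (X * T ^ (1 / 4 + η))) := by
        gcongr
    _ = CK * (‖z‖ * (Ca * (5 + 4 * π * √κ₁))) * (X * T ^ (-(1 / 2) + η)) +
        CK * (‖z‖ * (4 * π ^ 2 * κ₁)) *
          (T ^ (-(3 / 4) : ℝ) * (C3 * (X * T ^ (1 / 4 + η)))) := by ring
    _ = CK * (‖z‖ * (Ca * (5 + 4 * π * √κ₁) + 4 * π ^ 2 * κ₁ * C3)) *
        (X * T ^ (-(1 / 2) + η)) := by
        rw [hS2]
        ring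
    _ ≤ (CK * (‖z‖ * (Ca * (5 + 4 * π * √κ₁) + 4 * π ^ 2 * κ₁ * C3)) + 1) *
        T ^ ((1 - ξ) - 1 / 2 + ε) := by
        refine mul_le_mul (by linarith) hXT (by positivity) (by positivity)
--END MB4

--BEGIN MB5
private theorem MB5_lam {κ : ℝ} (hκ : 0 < κ) {M m : ℕ} (hM : 1 ≤ M) (hm : M < m) (hm2 : m ≤ 2 * M)
    {i j : ℤ} (hi : i ∈ ({-1, 1} : Finset ℤ)) (hj : |j| ≤ 1) :
    √κ / 4 * √(M : ℝ) ≤ |i * √(κ * m) + j * √κ| ∧
      |i * √(κ * m) + j * √κ| ≤ 4 * √κ * √(M : ℝ) := by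
  have hr : 0 < √κ := Real.sqrt_pos.2 hκ
  have hm2' : (2 : ℝ) ≤ m := by exact_mod_cast (show 2 ≤ m by omega)
  have ht : 4 / 3 ≤ √(m : ℝ) := by
    refine Real.le_sqrt_of_sq_le ?_
    norm_num
    linarith
  have hMm : √(M : ℝ) ≤ √(m : ℝ) := Real.sqrt_le_sqrt (by exact_mod_cast hm.le)
  have hj' : |(j : ℝ)| ≤ 1 := by exact_mod_cast hj
  have hj2 := abs_le.1 hj'
  constructor
  · have e1 : i * √(κ * m) + j * √κ = √κ * (i * √m + j) := by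
      rw [Real.sqrt_mul hκ.le]
      ring
    rw [e1, abs_mul, abs_of_pos hr]
    have h3 : √(m : ℝ) - 1 ≤ |i * √m + j| := by
      rw [Finset.mem_insert, Finset.mem_singleton] at hi
      rcases hi with rfl | rfl
      · push_cast
        rw [abs_of_neg (by linarith)]
        linarith
      · push_cast
        rw [abs_of_pos (by linarith)]
        linarith
    calc √κ / 4 * √(M : ℝ) = √κ * (√(M : ℝ) / 4) := by ring
      _ ≤ √κ * |i * √m + j| := by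
          refine mul_le_mul_of_nonneg_left ?_ hr.le
          linarith
  · have h4 := (AS3_lam hκ (show 2 ≤ m by omega) hi hj).2
    have h5 : √(m : ℝ) ≤ 2 * √(M : ℝ) := by
      have h6 : √((4 : ℝ) * M) = 2 * √(M : ℝ) := by
        rw [Real.sqrt_mul (by norm_num), show (4 : ℝ) = 2 ^ 2 by norm_num,
          Real.sqrt_sq (by norm_num)]
      rw [← h6]
      refine Real.sqrt_le_sqrt ?_
      have : (m : ℝ) ≤ 2 * M := by exact_mod_cast hm2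
      have h0 : (0 : ℝ) ≤ M := Nat.cast_nonneg M
      linarith
    calc _ ≤ 2 * √κ * √(m : ℝ) := h4
      _ ≤ 2 * √κ * (2 * √(M : ℝ)) := by gcongr
      _ = _ := by ring

private theorem MB5_kc (κ : ℝ) (d : Fin 4 → ℂ) (m : ℕ) : ContinuousOn (km κ d m) (Ioi 0) := by
  unfold km
  refine continuousOn_finsetSum _ fun i _ => ?_
  have h1 : ContinuousOn (fun x : ℝ => x ^ ((1 - (i : ℝ)) / 3)) (Ioi 0) :=
    fun x hx => (Real.continuousAt_rpow_const _ _ (Or.inl (ne_of_gt hx))).continuousWithinAt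
  have h2 : Continuous fun x : ℝ => (κ * m * x) ^ (1 / 3 : ℝ) :=
    (continuous_const.mul continuous_id).rpow_const fun x => Or.inr (by norm_num)
  have h3 : Continuous fun x : ℝ => e (3 * (κ * m * x) ^ (1 / 3 : ℝ)) := by
    unfold e
    exact Complex.continuous_exp.comp (continuous_const.mul (Complex.continuous_ofReal.comp
      (continuous_const.mul h2)))
  exact (continuousOn_const.mul h1).mul
    (Complex.continuous_re.comp (continuous_const.mul h3)).continuousOn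

/-- the sum of the coefficients of a block -/
private theorem MB5_coef {ε : ℝ} (hε : 0 < ε) {C T : ℝ} {M M' : ℕ} (hT : 1 ≤ T) (hM : 1 ≤ M)
    (hM2 : M' ≤ 2 * M) (hMM : M ≤ M') (hMT : (M' : ℝ) ≤ T ^ (1 / 3 : ℝ)) (hC : 0 ≤ C)
    (ha : ∀ m : ℕ, 1 ≤ m → |a m| ≤ C * (m : ℝ) ^ ε) :
    ∑ m ∈ Finset.Ioc M M', |a m * (m : ℝ) ^ (-(3 / 4) : ℝ)| ≤ C * T ^ (1 / 12 + ε) := by
  have hT0 : 0 < T := by linarith
  have hM0 : (0 : ℝ) < M := by exact_mod_cast hM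
  have hMM' : (M : ℝ) ≤ M' := by exact_mod_cast hMM
  have hMT' : (M : ℝ) ≤ T ^ (1 / 3 : ℝ) := hMM'.trans hMT
  have h1 : ∀ m ∈ Finset.Ioc M M', |a m * (m : ℝ) ^ (-(3 / 4) : ℝ)| ≤
      C * T ^ ε * (M : ℝ) ^ (-(3 / 4) : ℝ) := by
    intro m hm
    rw [Finset.mem_Ioc] at hm
    have hm0 : (M : ℝ) < m := by exact_mod_cast hm.1
    have hmM : (m : ℝ) ≤ M' := by exact_mod_cast hm.2
    have hm1 : 0 < (m : ℝ) := by linarith
    rw [abs_mul, abs_of_pos (Real.rpow_pos_of_pos hm1 _)]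
    have h2 : |a m| ≤ C * T ^ ε := by
      refine (ha m (by omega)).trans (mul_le_mul_of_nonneg_left ?_ hC)
      refine Real.rpow_le_rpow hm1.le ?_ hε.le
      calc (m : ℝ) ≤ T ^ (1 / 3 : ℝ) := hmM.trans hMT
        _ ≤ T ^ (1 : ℝ) := Real.rpow_le_rpow_of_exponent_le hT (by norm_num)
        _ = T := Real.rpow_one T
    have h3 : (m : ℝ) ^ (-(3 / 4) : ℝ) ≤ (M : ℝ) ^ (-(3 / 4) : ℝ) :=
      Real.rpow_le_rpow_of_nonpos hM0 hm0.le (by norm_num)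
    exact mul_le_mul h2 h3 (by positivity) (by positivity)
  refine (Finset.sum_le_sum h1).trans ?_
  rw [Finset.sum_const, Nat.card_Ioc, nsmul_eq_mul]
  have h4 : ((M' - M : ℕ) : ℝ) ≤ M := by
    have : M' - M ≤ M := by omega
    exact_mod_cast this
  have h5 : (M : ℝ) * (M : ℝ) ^ (-(3 / 4) : ℝ) = (M : ℝ) ^ (1 / 4 : ℝ) := by
    have h6 : (M : ℝ) ^ (1 / 4 : ℝ) = (M : ℝ) ^ (1 : ℝ) * (M : ℝ) ^ (-(3 / 4) : ℝ) := by
      rw [← Real.rpow_add hM0]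
      norm_num
    rw [h6, Real.rpow_one]
  have h7 : (M : ℝ) ^ (1 / 4 : ℝ) ≤ T ^ (1 / 12 : ℝ) := by
    calc (M : ℝ) ^ (1 / 4 : ℝ) ≤ (T ^ (1 / 3 : ℝ)) ^ (1 / 4 : ℝ) :=
          Real.rpow_le_rpow hM0.le hMT' (by norm_num)
      _ = T ^ (1 / 12 : ℝ) := by
          rw [← Real.rpow_mul hT0.le]
          norm_num
  calc ((M' - M : ℕ) : ℝ) * (C * T ^ ε * (M : ℝ) ^ (-(3 / 4) : ℝ)) ≤
        M * (C * T ^ ε * (M : ℝ) ^ (-(3 / 4) : ℝ)) := by gcongr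
    _ = C * T ^ ε * ((M : ℝ) * (M : ℝ) ^ (-(3 / 4) : ℝ)) := by ring
    _ ≤ C * T ^ ε * T ^ (1 / 12 : ℝ) := by
        rw [h5]
        gcongr
    _ = C * T ^ (1 / 12 + ε) := by
        rw [Real.rpow_add hT0]
        ring

open Classical in
/-- **MB5.** The part of the series of `E_g` which is not near the block: AS2 (`K3_expand`) and
MB1 for every `m` in the block and each of the 18 exponentials, `λ = ±√(κ₁m) + j√κ₁`,
`(1-1/√2)√(κ₁m) ≤ |λ| ≤ 2√(κ₁m)` (as `m ≥ 2`; compare AS3_lam), so that `Near` for `λ` implies `Near`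
for the block; `∑ |a(m)| m^{-3/4} T^{1/4} ≪ M^{1/4} T^{1/4+ε} ≪ T^{1/3+ε}`. -/
theorem block_far (hf : RealSelberg a L 2) (h : RealSelberg b Lg 3) {ρ : ℝ → ℝ}
    (hρ : IsBump ρ (1 / 4) (3 / 8) (5 / 8) (3 / 4)) (h1 : 0 < κ₁) (h2 : 0 < κ₂) (z : ℂ)
    (d : Fin 4 → ℂ) {ξ ε : ℝ} (hξ : 0 < ξ) (hξ' : ξ < 1 / 6) (hε : 0 < ε) :
    ∃ C T0 : ℝ, 0 < C ∧ 1 ≤ T0 ∧ ∀ (T s φ₁ φ₂ : ℝ) (M M' : ℕ), T0 ≤ T → |s| ≤ 1 → 1 ≤ M →
      M ≤ M' → M' ≤ 2 * M → (M' : ℝ) ≤ T ^ (1 / 3 : ℝ) →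
      ∑' l : ℕ, (if Near κ₂ (√κ₁ / 8 * √M * T ^ (1 / 6 : ℝ)) (8 * √κ₁ * √M * T ^ (1 / 6 : ℝ)) l
        then 0 else ‖(b l : ℂ) * ∫ x in T..(T + T ^ (1 - ξ)), (km κ₂ d l x : ℂ) *
          ((Pb a κ₁ z M M' x * K3 ρ κ₁ φ₁ κ₂ φ₂ s T (T ^ (1 - ξ)) x : ℝ) : ℂ)‖) ≤
        C * T ^ (5 / 6 + ξ + ε) := by
  obtain ⟨D, hD, hE⟩ := K3_expand hρ h1 h2 z
  have hB0 : 0 ≤ 3 * κ₂ ^ (1 / 3 : ℝ) := by positivity
  obtain ⟨C1, T1, hC1, hT1, hfar⟩ := far_series h h2 d (D := D) (AS3_l0 h1) hB0 (ε := ε / 2)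
    (by positivity) hξ hξ'
  obtain ⟨Ca, hCa⟩ := hf.ramanujan (ε / 2) (by positivity)
  have hr : 0 < √κ₁ := Real.sqrt_pos.2 h1
  refine ⟨18 * C1 * (|Ca| + 1), max T1 ((2 * √κ₁) ^ 2), by positivity,
    hT1.trans (le_max_left _ _), ?_⟩
  intro T s φ₁ φ₂ M M' hT hs hM hMM hM2 hMT
  have hT' : T1 ≤ T := (le_max_left _ _).trans hT
  have hT2 : (2 * √κ₁) ^ 2 ≤ T := (le_max_right _ _).trans hT
  have hTo : 1 ≤ T := hT1.trans hT'
  have hTp : 0 < T := by linarith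
  obtain ⟨hX1, hX2⟩ := AS3_X hTo hξ hξ'
  obtain ⟨g, hg, hexp⟩ := hE T (T ^ (1 - ξ)) s φ₁ φ₂ hX1 hX2 hs
  set X := T ^ (1 - ξ) with hXdef
  have hle : T ≤ T + X := by linarith
  let I3 : Finset (ℤ × ℤ × ℤ) := ({-1, 1} : Finset ℤ) ×ˢ (Finset.Icc (-1 : ℤ) 1) ×ˢ
    (Finset.Icc (-1 : ℤ) 1)
  have hcard : I3.card = 18 := by
    simp only [I3, Finset.card_product]
    rw [Finset.card_pair (by decide)]
    simp
  let J : Finset (ℕ × ℤ × ℤ × ℤ) := Finset.Ioc M M' ×ˢ I3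
  let lam : ℕ × ℤ × ℤ × ℤ → ℝ := fun p => p.2.1 * √(κ₁ * p.1) + p.2.2.1 * √κ₁
  let mu : ℕ × ℤ × ℤ × ℤ → ℝ := fun p => 3 * p.2.2.2 * κ₂ ^ (1 / 3 : ℝ)
  let G : ℕ × ℤ × ℤ × ℤ → ℝ → ℂ := fun p x => g p.2.1 p.2.2.1 p.2.2.2 x * e (ps (lam p) (mu p) x)
  let cf : ℕ → ℝ := fun m => a m * (m : ℝ) ^ (-(3 / 4) : ℝ)
  have hid : ∀ x ∈ Icc T (T + X), ((Pb a κ₁ z M M' x * K3 ρ κ₁ φ₁ κ₂ φ₂ s T X x : ℝ) : ℂ) =
      ((T ^ (1 / 4 : ℝ) : ℝ) : ℂ) * ∑ p ∈ J, (cf p.1 : ℂ) * G p x := by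
    intro x hx
    have hx0 : 0 < x := lt_of_lt_of_le hTp hx.1
    unfold Pb
    rw [Finset.sum_mul, Complex.ofReal_sum]
    simp only [J]
    rw [Finset.sum_product, Finset.mul_sum]
    refine Finset.sum_congr rfl fun m _ => ?_
    have e1 := hexp m x hx0
    have e2 : ((a m * (m : ℝ) ^ (-(3 / 4) : ℝ) * (x ^ (1 / 4 : ℝ) *
        (z * e (2 * √(κ₁ * m * x))).re) * K3 ρ κ₁ φ₁ κ₂ φ₂ s T X x : ℝ) : ℂ) = (cf m : ℂ) *
        ((x ^ (1 / 4 : ℝ) * (z * e (2 * √(κ₁ * m * x))).re *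
          K3 ρ κ₁ φ₁ κ₂ φ₂ s T X x : ℝ) : ℂ) := by
      simp only [cf]
      push_cast
      ring
    have e3 : ∑ y ∈ I3, (cf (m, y).1 : ℂ) * G (m, y) x = (cf m : ℂ) * ∑ y ∈ I3, G (m, y) x := by
      rw [Finset.mul_sum]
    rw [e2, e1, e3]
    simp only [I3, Finset.sum_product, G, lam, mu]
    ring
  have hkc : ∀ l : ℕ, IntegrableOn (km κ₂ d l) (Icc T (T + X)) := fun l =>
    ((MB5_kc κ₂ d l).mono fun x hx => lt_of_lt_of_le hTp hx.1).integrableOn_compact isCompact_Icc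
  have hmemJ : ∀ p ∈ J, p.1 ∈ Finset.Ioc M M' ∧ p.2.1 ∈ ({-1, 1} : Finset ℤ) ∧
      p.2.2.1 ∈ Finset.Icc (-1 : ℤ) 1 ∧ p.2.2.2 ∈ Finset.Icc (-1 : ℤ) 1 := by
    intro p hp
    simp only [J, I3, Finset.mem_product] at hp
    exact hp
  have hAm : ∀ p ∈ J, Am T X D (g p.2.1 p.2.2.1 p.2.2.2) := by
    intro p hp
    obtain ⟨-, q1, q2, q3⟩ := hmemJ p hp
    exact hg _ _ _ (AS3_mem2 q1) (AS3_mem3 q2) (AS3_mem3 q3)
  have hcont : ∀ p ∈ J, ContinuousOn (fun x => (cf p.1 : ℂ) * G p x) (Icc T (T + X)) := by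
    intro p hp
    exact (continuous_const.mul ((hAm p hp).smooth.continuous.mul
      (AS3_ps_cont _ _))).continuousOn
  -- the expansion of one term
  have hterm : ∀ l : ℕ, ‖(b l : ℂ) * ∫ x in T..(T + X), (km κ₂ d l x : ℂ) *
      ((Pb a κ₁ z M M' x * K3 ρ κ₁ φ₁ κ₂ φ₂ s T X x : ℝ) : ℂ)‖ ≤
      ∑ p ∈ J, T ^ (1 / 4 : ℝ) * |cf p.1| *
        ‖(b l : ℂ) * ∫ x in T..(T + X), (km κ₂ d l x : ℂ) * (g p.2.1 p.2.2.1 p.2.2.2 x *
          e (ps (lam p) (mu p) x))‖ := by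
    intro l
    have e1 : ∫ x in T..(T + X), (km κ₂ d l x : ℂ) *
        ((Pb a κ₁ z M M' x * K3 ρ κ₁ φ₁ κ₂ φ₂ s T X x : ℝ) : ℂ) =
        ((∫ x in T..(T + X), km κ₂ d l x *
          (Pb a κ₁ z M M' x * K3 ρ κ₁ φ₁ κ₂ φ₂ s T X x) : ℝ) : ℂ) := by
      rw [← intervalIntegral.integral_ofReal]
      refine intervalIntegral.integral_congr fun x _ => ?_
      push_cast
      ring
    rw [e1, AS3_eq J hle (hkc l) hcont hid]
    have e2 : (b l : ℂ) * (((T ^ (1 / 4 : ℝ) : ℝ) : ℂ) * ∑ p ∈ J, ∫ x in T..(T + X),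
        (km κ₂ d l x : ℂ) * ((cf p.1 : ℂ) * G p x)) = ∑ p ∈ J, (((T ^ (1 / 4 : ℝ) : ℝ) : ℂ) *
        (cf p.1 : ℂ)) * ((b l : ℂ) * ∫ x in T..(T + X), (km κ₂ d l x : ℂ) * G p x) := by
      rw [Finset.mul_sum, Finset.mul_sum]
      refine Finset.sum_congr rfl fun p _ => ?_
      have e3 : ∫ x in T..(T + X), (km κ₂ d l x : ℂ) * ((cf p.1 : ℂ) * G p x) =
          (cf p.1 : ℂ) * ∫ x in T..(T + X), (km κ₂ d l x : ℂ) * G p x := by
        rw [← intervalIntegral.integral_const_mul]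
        refine intervalIntegral.integral_congr fun x _ => ?_
        ring
      rw [e3]
      ring
    rw [e2]
    refine (norm_sum_le _ _).trans (Finset.sum_le_sum fun p _ => ?_)
    rw [norm_mul, norm_mul (((T ^ (1 / 4 : ℝ) : ℝ) : ℂ)), Complex.norm_real, Complex.norm_real,
      Real.norm_of_nonneg (by positivity : 0 ≤ T ^ (1 / 4 : ℝ)), Real.norm_eq_abs]
  -- the bounds for each exponential
  have hT6 : 0 < T ^ (1 / 6 : ℝ) := by positivity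
  have hone : ∀ p ∈ J, (√2 - 1) * √κ₁ ≤ |lam p| ∧ |lam p| ≤ T ∧ |mu p| ≤ 3 * κ₂ ^ (1 / 3 : ℝ) ∧
      √κ₁ / 4 * √(M : ℝ) ≤ |lam p| ∧ |lam p| ≤ 4 * √κ₁ * √(M : ℝ) := by
    intro p hp
    obtain ⟨q0, q1, q2, q3⟩ := hmemJ p hp
    rw [Finset.mem_Ioc] at q0
    obtain ⟨u1, u2⟩ := AS3_lam h1 (show 2 ≤ p.1 by omega) q1 (AS3_mem3 q2)
    obtain ⟨u3, u4⟩ := MB5_lam h1 hM q0.1 (q0.2.trans hM2) q1 (AS3_mem3 q2)
    refine ⟨u1, u2.trans ?_, AS3_mu h2 (AS3_mem3 q3), u3, u4⟩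
    have hp1 : (p.1 : ℝ) ≤ T := by
      have e1 : (p.1 : ℝ) ≤ M' := by exact_mod_cast q0.2
      calc (p.1 : ℝ) ≤ T ^ (1 / 3 : ℝ) := e1.trans hMT
        _ ≤ T ^ (1 : ℝ) := Real.rpow_le_rpow_of_exponent_le hTo (by norm_num)
        _ = T := Real.rpow_one T
    have e2 : 2 * √κ₁ ≤ √T := Real.le_sqrt_of_sq_le hT2
    have e3 : √(p.1 : ℝ) ≤ √T := Real.sqrt_le_sqrt hp1
    calc 2 * √κ₁ * √(p.1 : ℝ) ≤ √T * √T := by gcongr
      _ = T := Real.mul_self_sqrt hTp.le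
  let V : ℕ × ℤ × ℤ × ℤ → ℕ → ℝ := fun p l =>
    if Near κ₂ (|lam p| * T ^ (1 / 6 : ℝ) / 2) (2 * |lam p| * T ^ (1 / 6 : ℝ)) l
      then 0 else ‖(b l : ℂ) * ∫ x in T..(T + X), (km κ₂ d l x : ℂ) *
        (g p.2.1 p.2.2.1 p.2.2.2 x * e (ps (lam p) (mu p) x))‖
  have hV : ∀ p ∈ J, Summable (V p) ∧ ∑' l, V p l ≤ C1 * T ^ (1 / 2 + ξ + ε / 2) := by
    intro p hp
    obtain ⟨u1, u2, u3, -, -⟩ := hone p hp
    exact hfar T (lam p) (mu p) _ hT' u1 u2 u3 (hAm p hp)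
  have hW : ∀ l : ℕ, (if Near κ₂ (√κ₁ / 8 * √M * T ^ (1 / 6 : ℝ))
      (8 * √κ₁ * √M * T ^ (1 / 6 : ℝ)) l
        then (0 : ℝ) else ‖(b l : ℂ) * ∫ x in T..(T + X), (km κ₂ d l x : ℂ) *
          ((Pb a κ₁ z M M' x * K3 ρ κ₁ φ₁ κ₂ φ₂ s T X x : ℝ) : ℂ)‖) ≤
      ∑ p ∈ J, T ^ (1 / 4 : ℝ) * |cf p.1| * V p l := by
    intro l
    have hV0 : ∀ p, 0 ≤ V p l := by
      intro p
      simp only [V]
      split_ifs
      · exact le_rfl
      · exact norm_nonneg _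
    split_ifs with hN
    · exact Finset.sum_nonneg fun p _ => mul_nonneg (by positivity) (hV0 p)
    · refine (hterm l).trans (Finset.sum_le_sum fun p hp => ?_)
      obtain ⟨-, -, -, u4, u5⟩ := hone p hp
      have hNp : ¬ Near κ₂ (|lam p| * T ^ (1 / 6 : ℝ) / 2) (2 * |lam p| * T ^ (1 / 6 : ℝ)) l := by
        rintro ⟨v1, v2⟩
        refine hN ⟨le_trans ?_ v1, v2.trans ?_⟩
        · calc √κ₁ / 8 * √M * T ^ (1 / 6 : ℝ) = (√κ₁ / 4 * √(M : ℝ)) * T ^ (1 / 6 : ℝ) / 2 := by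
                ring
            _ ≤ |lam p| * T ^ (1 / 6 : ℝ) / 2 := by gcongr
        · calc 2 * |lam p| * T ^ (1 / 6 : ℝ) ≤ 2 * (4 * √κ₁ * √(M : ℝ)) * T ^ (1 / 6 : ℝ) := by
                gcongr
            _ = _ := by ring
      simp only [V]
      rw [if_neg hNp]
  have hGs : ∀ p ∈ J, Summable fun l => T ^ (1 / 4 : ℝ) * |cf p.1| * V p l := fun p hp =>
    (hV p hp).1.mul_left _
  have hG : Summable fun l => ∑ p ∈ J, T ^ (1 / 4 : ℝ) * |cf p.1| * V p l := summable_sum hGs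
  have hF : Summable fun l : ℕ => (if Near κ₂ (√κ₁ / 8 * √M * T ^ (1 / 6 : ℝ))
      (8 * √κ₁ * √M * T ^ (1 / 6 : ℝ)) l
        then (0 : ℝ) else ‖(b l : ℂ) * ∫ x in T..(T + X), (km κ₂ d l x : ℂ) *
          ((Pb a κ₁ z M M' x * K3 ρ κ₁ φ₁ κ₂ φ₂ s T X x : ℝ) : ℂ)‖) := by
    refine Summable.of_nonneg_of_le (fun l => ?_) hW hG
    split_ifs
    · exact le_rfl
    · exact norm_nonneg _
  refine (hF.tsum_le_tsum hW hG).trans ?_
  rw [Summable.tsum_finsetSum hGs]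
  have hsum : ∑ p ∈ J, ∑' l, T ^ (1 / 4 : ℝ) * |cf p.1| * V p l ≤
      ∑ p ∈ J, T ^ (1 / 4 : ℝ) * |cf p.1| * (C1 * T ^ (1 / 2 + ξ + ε / 2)) := by
    refine Finset.sum_le_sum fun p hp => ?_
    rw [tsum_mul_left]
    have := (hV p hp).2
    gcongr
  refine hsum.trans ?_
  have e1 : ∑ p ∈ J, T ^ (1 / 4 : ℝ) * |cf p.1| * (C1 * T ^ (1 / 2 + ξ + ε / 2)) =
      18 * C1 * (T ^ (1 / 4 : ℝ) * T ^ (1 / 2 + ξ + ε / 2)) *
        ∑ m ∈ Finset.Ioc M M', |a m * (m : ℝ) ^ (-(3 / 4) : ℝ)| := by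
    simp only [J]
    rw [Finset.sum_product, Finset.mul_sum]
    refine Finset.sum_congr rfl fun m _ => ?_
    have e3 : ∑ y ∈ I3, T ^ (1 / 4 : ℝ) * |cf (m, y).1| * (C1 * T ^ (1 / 2 + ξ + ε / 2)) =
        ∑ _y ∈ I3, T ^ (1 / 4 : ℝ) * |cf m| * (C1 * T ^ (1 / 2 + ξ + ε / 2)) := rfl
    rw [e3, Finset.sum_const, hcard, nsmul_eq_mul]
    simp only [cf]
    push_cast
    ring
  rw [e1]
  have e2 := MB5_coef (a := a) (ε := ε / 2) (by positivity) hTo hM hM2 hMM hMT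
    (C := |Ca| + 1) (by positivity) (fun m hm => (hCa m hm).trans
      (mul_le_mul_of_nonneg_right (by linarith [le_abs_self Ca]) (by positivity)))
  calc _ ≤ 18 * C1 * (T ^ (1 / 4 : ℝ) * T ^ (1 / 2 + ξ + ε / 2)) *
        ((|Ca| + 1) * T ^ (1 / 12 + ε / 2)) := by gcongr
    _ = 18 * C1 * (|Ca| + 1) *
        (T ^ (1 / 4 : ℝ) * T ^ (1 / 2 + ξ + ε / 2) * T ^ (1 / 12 + ε / 2)) := by ring
    _ = _ := by
        rw [← Real.rpow_add hTp, ← Real.rpow_add hTp]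
        congr 2
        ring
--END MB5

--BEGIN MB6
private theorem MB6_kc (κ : ℝ) (d : Fin 4 → ℂ) (m : ℕ) : ContinuousOn (km κ d m) (Ioi 0) := by
  unfold km
  refine continuousOn_finsetSum _ fun i _ => ?_
  have h1 : ContinuousOn (fun x : ℝ => x ^ ((1 - (i : ℝ)) / 3)) (Ioi 0) :=
    fun x hx => (Real.continuousAt_rpow_const _ _ (Or.inl (ne_of_gt hx))).continuousWithinAt
  have h2 : Continuous fun x : ℝ => (κ * m * x) ^ (1 / 3 : ℝ) :=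
    (continuous_const.mul continuous_id).rpow_const fun x => Or.inr (by norm_num)
  have h3 : Continuous fun x : ℝ => e (3 * (κ * m * x) ^ (1 / 3 : ℝ)) := by
    unfold e
    exact Complex.continuous_exp.comp (continuous_const.mul (Complex.continuous_ofReal.comp
      (continuous_const.mul h2)))
  exact (continuousOn_const.mul h1).mul
    (Complex.continuous_re.comp (continuous_const.mul h3)).continuousOn

private theorem MB6_Pc (a : ℕ → ℝ) (κ : ℝ) (z : ℂ) (M M' : ℕ) : Continuous (Pb a κ z M M') := by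
  unfold Pb
  refine continuous_finsetSum _ fun m _ => ?_
  have h1 : Continuous fun x : ℝ => x ^ (1 / 4 : ℝ) :=
    continuous_id.rpow_const fun x => Or.inr (by norm_num)
  have h3 : Continuous fun x : ℝ => e (2 * √(κ * m * x)) := by
    unfold e
    exact Complex.continuous_exp.comp (continuous_const.mul (Complex.continuous_ofReal.comp
      (continuous_const.mul (continuous_const.mul continuous_id).sqrt)))
  exact continuous_const.mul (h1.mul (Complex.continuous_re.comp (continuous_const.mul h3)))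

/-- the near range is an interval -/
private theorem MB6_range {κ A B : ℝ} (hκ : 0 < κ) (hA : 0 < A) (hAB : A ≤ B)
    (h2 : 2 * κ ≤ A ^ 3) : ∃ N1 N2 : ℕ, 1 ≤ N1 ∧ N1 ≤ N2 ∧ A ^ 3 / (2 * κ) ≤ N1 ∧
      (N2 : ℝ) ≤ B ^ 3 / κ ∧ ∀ m : ℕ, m ∈ Finset.Ioc N1 N2 ↔ Near κ A B m := by
  have hB : 0 < B := by linarith
  have hy : 2 ≤ A ^ 3 / κ := by rwa [le_div_iff₀ hκ]
  have hY : A ^ 3 / κ ≤ B ^ 3 / κ := by gcongr
  have hc1 : A ^ 3 / κ ≤ ⌈A ^ 3 / κ⌉₊ := Nat.le_ceil _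
  have hc2 : (⌈A ^ 3 / κ⌉₊ : ℝ) < A ^ 3 / κ + 1 := Nat.ceil_lt_add_one (by linarith)
  have hc3 : 2 ≤ ⌈A ^ 3 / κ⌉₊ := by
    have : (2 : ℝ) ≤ ⌈A ^ 3 / κ⌉₊ := by linarith
    exact_mod_cast this
  have hc4 : ((⌈A ^ 3 / κ⌉₊ - 1 : ℕ) : ℝ) = (⌈A ^ 3 / κ⌉₊ : ℝ) - 1 := by
    rw [Nat.cast_sub (by omega)]
    simp
  have hY0 : 0 ≤ B ^ 3 / κ := by positivity
  refine ⟨⌈A ^ 3 / κ⌉₊ - 1, ⌊B ^ 3 / κ⌋₊, by omega, ?_, ?_, Nat.floor_le hY0, ?_⟩
  · refine Nat.le_floor ?_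
    rw [hc4]
    linarith
  · rw [hc4]
    have : A ^ 3 / (2 * κ) = A ^ 3 / κ / 2 := by
      field_simp
    rw [this]
    linarith
  · intro m
    have ht : 0 ≤ (κ * m) ^ (1 / 3 : ℝ) := by positivity
    have ht3 : ((κ * m) ^ (1 / 3 : ℝ)) ^ 3 = κ * m := by
      rw [← Real.rpow_natCast, ← Real.rpow_mul (by positivity)]
      norm_num
    unfold Near
    rw [Finset.mem_Ioc, ← pow_le_pow_iff_left₀ hA.le ht (n := 3) (by norm_num),
      ← pow_le_pow_iff_left₀ ht hB.le (n := 3) (by norm_num), ht3]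
    constructor
    · rintro ⟨ha, hb⟩
      have ha' : ⌈A ^ 3 / κ⌉₊ ≤ m := by omega
      have ha2 : A ^ 3 / κ ≤ m := Nat.ceil_le.1 ha'
      have hb2 : (m : ℝ) ≤ B ^ 3 / κ := (Nat.le_floor_iff hY0).1 hb
      rw [div_le_iff₀ hκ] at ha2
      rw [le_div_iff₀ hκ] at hb2
      exact ⟨by linarith, by linarith⟩
    · rintro ⟨ha, hb⟩
      have ha2 : A ^ 3 / κ ≤ m := by
        rw [div_le_iff₀ hκ]
        linarith
      have hb2 : (m : ℝ) ≤ B ^ 3 / κ := by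
        rw [le_div_iff₀ hκ]
        linarith
      have ha' := Nat.ceil_le.2 ha2
      exact ⟨by omega, (Nat.le_floor_iff hY0).2 hb2⟩

/-- the split of the series -/
private theorem MB6_split {f : ℕ → ℂ} (hf : Summable fun m => ‖f m‖) {P : ℕ → Prop}
    [DecidablePred P] (s : Finset ℕ) (hs : ∀ m, m ∈ s ↔ P m) :
    ‖∑' m, f m‖ ≤ ‖∑ m ∈ s, f m‖ + ∑' m, if P m then 0 else ‖f m‖ := by
  have hfs : Summable f := hf.of_norm
  have hgn : Summable fun m => if P m then (0 : ℝ) else ‖f m‖ := by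
    refine Summable.of_nonneg_of_le (fun m => ?_) (fun m => ?_) hf
    · split_ifs
      · exact le_rfl
      · exact norm_nonneg _
    · split_ifs
      · exact norm_nonneg _
      · exact le_rfl
  have e1 : (fun m => ‖if P m then (0 : ℂ) else f m‖) = fun m => if P m then (0 : ℝ) else ‖f m‖ := by
    funext m
    split_ifs <;> simp
  have hgn' : Summable fun m => ‖if P m then (0 : ℂ) else f m‖ := by rw [e1]; exact hgn
  have hgs : Summable fun m => if P m then (0 : ℂ) else f m := hgn'.of_norm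
  have h1 : ∑' m, (f m - if P m then (0 : ℂ) else f m) =
      ∑ m ∈ s, (f m - if P m then (0 : ℂ) else f m) := by
    refine tsum_eq_sum fun m hm => ?_
    rw [if_neg (fun h => hm ((hs m).2 h)), sub_self]
  rw [hfs.tsum_sub hgs] at h1
  have h2 : ∑ m ∈ s, (f m - if P m then (0 : ℂ) else f m) = ∑ m ∈ s, f m := by
    refine Finset.sum_congr rfl fun m hm => ?_
    rw [if_pos ((hs m).1 hm), sub_zero]
  have h3 : ∑' m, f m = ∑ m ∈ s, f m + ∑' m, if P m then (0 : ℂ) else f m := by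
    rw [← h2, ← h1]
    ring
  rw [h3]
  refine (norm_add_le _ _).trans ?_
  gcongr
  refine (norm_tsum_le_tsum_norm hgn').trans (le_of_eq ?_)
  rw [e1]

/-- **MB6.** The block. `Wk.main` with `F = P_b K` (MB4), the error `≪ T^{1+δ} X T^{-1/2+ε}`, the part
`∫ S F` by MB3; far `l`: MB5; near `l`: they form an interval `(N1, N2]`, `N_i ≍ M^{3/2} T^{1/2}`
(finite, `≤ T²`), exchange the finite sum and the integral, Cauchy-Schwarz with MB2, MB3, `0 ≤ K ≤ 4`: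
`(T^{2/3}(X N^{-1/3} + T^{2/3} N^{1/3}))^{1/2} (T^{1/2}(X M^{-1/2} + T^{1/2}))^{1/2} ≪ T^{1+ε} X^{1/2}`, as
`T^{1/3} N^{-1/6} ≤ T^{1/4}`, `T^{2/3} N^{1/6} ≪ T^{3/4} M^{1/4}`, `M ≤ T^{1/3}`, `T^{5/6} ≤ X`. -/
theorem block_bound (hf : RealSelberg a L 2) (h : RealSelberg b Lg 3) (hw : Wk b Lg κ₂ C0 c d S)
    {ρ : ℝ → ℝ} (hρ : IsBump ρ (1 / 4) (3 / 8) (5 / 8) (3 / 4)) (h1 : 0 < κ₁) (z : ℂ) {ξ ε : ℝ}
    (hξ : 0 < ξ) (hξ' : ξ < 1 / 6) (hε : 0 < ε) :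
    ∃ C T0 : ℝ, 0 < C ∧ 1 ≤ T0 ∧ ∀ (T s φ₁ φ₂ : ℝ) (M M' : ℕ), T0 ≤ T → |s| ≤ 1 → 1 ≤ M →
      M ≤ M' → M' ≤ 2 * M → (M' : ℝ) ≤ T ^ (1 / 3 : ℝ) →
      |∫ x in T..(T + T ^ (1 - ξ)), errTerm b Lg x *
        (Pb a κ₁ z M M' x * K3 ρ κ₁ φ₁ κ₂ φ₂ s T (T ^ (1 - ξ)) x)| ≤
        C * T ^ (1 + (1 - ξ) / 2 + ε) := by
  classical
  have h2 : 0 < κ₂ := hw.kpos
  obtain ⟨Cm, hCm, hmain⟩ := hw.main (ε / 2) (by positivity)
  obtain ⟨C4, hC4, h4⟩ := block_smooth hf hρ h1 h2 z hξ hξ' (ε := ε / 2) (by positivity)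
  obtain ⟨C5, T5, hC5, hT5, h5⟩ := block_far hf h hρ h1 h2 z d hξ hξ' hε
  obtain ⟨C3, hC3, h3⟩ := Pb_ms hf h1 z hε
  obtain ⟨C2, hC2, hn⟩ := near_ms h h2 d hε
  have hk : 0 < √κ₁ := Real.sqrt_pos.2 h1
  set A0 := √κ₁ / 8 with hA0
  set B0 := 8 * √κ₁ with hB0
  have hA0p : 0 < A0 := by positivity
  have hB0p : 0 < B0 := by positivity
  set CA := C2 * ((2 * κ₂) ^ (1 / 3 : ℝ) / A0 + B0 / κ₂ ^ (1 / 3 : ℝ)) + C0 ^ 2 with hCA
  have hCAp : 0 < CA := by positivity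
  refine ⟨Cm * 4 ^ (1 + ε / 2) * C4 + 2 * √(32 * CA * C3) + C5,
    max T5 (max ((2 * κ₂ / A0 ^ 3) ^ 2) (B0 ^ 3 / κ₂)), by positivity,
    hT5.trans (le_max_left _ _), ?_⟩
  intro T s φ₁ φ₂ M M' hT hs hM hMM hM2 hMT
  have hT5' : T5 ≤ T := (le_max_left _ _).trans hT
  have hT1 : 1 ≤ T := hT5.trans hT5'
  have hTa : (2 * κ₂ / A0 ^ 3) ^ 2 ≤ T := ((le_max_left _ _).trans (le_max_right _ _)).trans hT
  have hTb : B0 ^ 3 / κ₂ ≤ T := ((le_max_right _ _).trans (le_max_right _ _)).trans hT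
  have hTp : 0 < T := by linarith
  obtain ⟨hX1, hX2⟩ := AS3_X hT1 hξ hξ'
  obtain ⟨hs1, hs2, hs3⟩ := h4 T s φ₁ φ₂ M M' hT1 hs hM hMM hM2 hMT
  have hfar := h5 T s φ₁ φ₂ M M' hT5' hs hM hMM hM2 hMT
  have hms := hmain T (T + T ^ (1 - ξ)) _ hT1 (by linarith) hs1 hs2
  set X := T ^ (1 - ξ) with hXdef
  have hXp : 0 < X := by linarith
  have hle : T ≤ T + X := by linarith
  set u := √(M : ℝ) with hu
  have hM1 : (1 : ℝ) ≤ M := by exact_mod_cast hM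
  have hu1 : 1 ≤ u := by
    rw [hu]
    exact Real.one_le_sqrt.2 hM1
  have hup : 0 < u := by linarith
  have hMT' : (M : ℝ) ≤ T ^ (1 / 3 : ℝ) := by
    refine le_trans ?_ hMT
    exact_mod_cast hMM
  have hu6 : u ≤ T ^ (1 / 6 : ℝ) := by
    rw [hu, Real.sqrt_eq_rpow]
    calc (M : ℝ) ^ (1 / 2 : ℝ) ≤ (T ^ (1 / 3 : ℝ)) ^ (1 / 2 : ℝ) :=
          Real.rpow_le_rpow (by positivity) hMT' (by norm_num)
      _ = T ^ (1 / 6 : ℝ) := by
          rw [← Real.rpow_mul hTp.le]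
          norm_num
  have hX56 : T ^ (5 / 6 : ℝ) ≤ X := Real.rpow_le_rpow_of_exponent_le hT1 (by linarith)
  have hKc := AS1_cont hρ T X s κ₁ φ₁ κ₂ φ₂
  have hKb := fun x => AS1_bd hρ hs κ₁ φ₁ κ₂ φ₂ T X x
  have hPc := MB6_Pc a κ₁ z M M'
  -- the mean square of the block
  have hPm : ∫ x in T..(T + X), (Pb a κ₁ z M M' x * K3 ρ κ₁ φ₁ κ₂ φ₂ s T X x) ^ 2 ≤
      32 * C3 * (T ^ (1 / 2 + ε) * X / u) := by
    have e1 := h3 T T (T + X) M M' hT1 le_rfl hle (by linarith) hM hMM hM2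
      (hMT.trans (by
        calc T ^ (1 / 3 : ℝ) ≤ T ^ (1 : ℝ) := Real.rpow_le_rpow_of_exponent_le hT1 (by norm_num)
          _ = T := Real.rpow_one T))
    have e2 : ∫ x in T..(T + X), (Pb a κ₁ z M M' x * K3 ρ κ₁ φ₁ κ₂ φ₂ s T X x) ^ 2 ≤
        ∫ x in T..(T + X), 16 * Pb a κ₁ z M M' x ^ 2 := by
      refine intervalIntegral.integral_mono_on hle
        (((hPc.mul hKc).pow 2).intervalIntegrable _ _)
        ((continuous_const.mul (hPc.pow 2)).intervalIntegrable _ _) fun x _ => ?_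
      rw [mul_pow]
      have h2 : K3 ρ κ₁ φ₁ κ₂ φ₂ s T X x ^ 2 ≤ 16 := by
        have := hKb x
        nlinarith
      have h3 := sq_nonneg (Pb a κ₁ z M M' x)
      nlinarith
    rw [intervalIntegral.integral_const_mul] at e2
    have e3 : (M : ℝ) ^ (-(1 / 2) : ℝ) = 1 / u := by
      rw [hu, Real.rpow_neg (by positivity), Real.sqrt_eq_rpow]
      exact (one_div _).symm
    have e4 : T + X - T = X := by ring
    rw [e3, e4] at e1
    have e5 : T ^ (1 / 2 : ℝ) ≤ X * (1 / u) := by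
      rw [mul_one_div, le_div_iff₀ hup]
      calc T ^ (1 / 2 : ℝ) * u ≤ T ^ (1 / 2 : ℝ) * T ^ (1 / 6 : ℝ) := by gcongr
        _ = T ^ (2 / 3 : ℝ) := by
            rw [← Real.rpow_add hTp]
            norm_num
        _ ≤ T ^ (5 / 6 : ℝ) := Real.rpow_le_rpow_of_exponent_le hT1 (by norm_num)
        _ ≤ X := hX56
    calc _ ≤ 16 * ∫ x in T..(T + X), Pb a κ₁ z M M' x ^ 2 := e2
      _ ≤ 16 * (C3 * T ^ (1 / 2 + ε) * (X * (1 / u) + T ^ (1 / 2 : ℝ))) := by gcongr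
      _ ≤ 16 * (C3 * T ^ (1 / 2 + ε) * (X * (1 / u) + X * (1 / u))) := by gcongr
      _ = _ := by ring
  -- Cauchy-Schwarz
  have hCS : ∀ G : ℝ → ℝ, ContinuousOn G (Icc T (T + X)) →
      ∫ x in T..(T + X), G x ^ 2 ≤ CA * (T ^ (3 / 2 + ε) * u) →
      |∫ x in T..(T + X), G x * (Pb a κ₁ z M M' x * K3 ρ κ₁ φ₁ κ₂ φ₂ s T X x)| ≤
        √(32 * CA * C3) * T ^ (1 + (1 - ξ) / 2 + ε) := by
    intro G hG hG2
    have hGi : IntervalIntegrable (fun x => G x ^ 2) volume T (T + X) := by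
      refine ContinuousOn.intervalIntegrable ?_
      rw [uIcc_of_le hle]
      exact hG.pow 2
    have e1 := AS6_cs hle hGi (((hPc.mul hKc).pow 2).intervalIntegrable _ _)
      ((hG.mono Ioc_subset_Icc_self).aestronglyMeasurable measurableSet_Ioc)
      (hPc.mul hKc).aestronglyMeasurable hG2 hPm (by positivity) (by positivity)
    refine e1.trans (le_of_eq ?_)
    rw [← Real.sqrt_mul (by positivity)]
    have e2 : CA * (T ^ (3 / 2 + ε) * u) * (32 * C3 * (T ^ (1 / 2 + ε) * X / u)) =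
        (32 * CA * C3) * (T ^ (1 + (1 - ξ) / 2 + ε)) ^ 2 := by
      have e3 : (T ^ (1 + (1 - ξ) / 2 + ε)) ^ 2 = T ^ (3 / 2 + ε) * T ^ (1 / 2 + ε) * X := by
        rw [hXdef, ← Real.rpow_natCast, ← Real.rpow_mul hTp.le, ← Real.rpow_add hTp,
          ← Real.rpow_add hTp]
        congr 1
        push_cast
        ring
      rw [e3]
      field_simp
    rw [e2, Real.sqrt_mul (by positivity), Real.sqrt_sq (by positivity)]
  -- the part with S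
  have hS : |∫ x in T..(T + X), S x * (Pb a κ₁ z M M' x * K3 ρ κ₁ φ₁ κ₂ φ₂ s T X x)| ≤
      √(32 * CA * C3) * T ^ (1 + (1 - ξ) / 2 + ε) := by
    have hSc : ContinuousOn S (Icc T (T + X)) :=
      hw.scont.mono fun x hx => mem_Ici.2 (hT1.trans hx.1)
    refine hCS S hSc ?_
    have e1 : ∫ x in T..(T + X), S x ^ 2 ≤ ∫ x in T..(T + X), C0 ^ 2 := by
      refine intervalIntegral.integral_mono_on hle ?_ intervalIntegrable_const fun x hx => ?_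
      · refine ContinuousOn.intervalIntegrable ?_
        rw [uIcc_of_le hle]
        exact hSc.pow 2
      · have := hw.sb x (hT1.trans hx.1)
        rw [← sq_abs]
        have h0 := abs_nonneg (S x)
        gcongr
    rw [intervalIntegral.integral_const, smul_eq_mul] at e1
    have e2 : T ≤ T ^ (3 / 2 + ε) * u := by
      calc T = T ^ (1 : ℝ) * 1 := by rw [Real.rpow_one, mul_one]
        _ ≤ T ^ (3 / 2 + ε) * u := by
            have := Real.rpow_le_rpow_of_exponent_le hT1 (show (1 : ℝ) ≤ 3 / 2 + ε by linarith)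
            gcongr
    calc _ ≤ (T + X - T) * C0 ^ 2 := e1
      _ ≤ T * C0 ^ 2 := by
          have : T + X - T ≤ T := by linarith
          gcongr
      _ ≤ (T ^ (3 / 2 + ε) * u) * CA := by
          have : C0 ^ 2 ≤ CA := by
            rw [hCA]
            have : 0 ≤ C2 * ((2 * κ₂) ^ (1 / 3 : ℝ) / A0 + B0 / κ₂ ^ (1 / 3 : ℝ)) := by positivity
            linarith
          gcongr
      _ = _ := by ring
  -- the near range
  have hA : 0 < A0 * u * T ^ (1 / 6 : ℝ) := by positivity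
  have hT6 : (T ^ (1 / 6 : ℝ)) ^ 3 = T ^ (1 / 2 : ℝ) := by
    rw [← Real.rpow_natCast, ← Real.rpow_mul hTp.le]
    norm_num
  have hAB : A0 * u * T ^ (1 / 6 : ℝ) ≤ B0 * u * T ^ (1 / 6 : ℝ) := by
    have : A0 ≤ B0 := by
      rw [hA0, hB0]
      linarith
    gcongr
  have hA3 : 2 * κ₂ ≤ (A0 * u * T ^ (1 / 6 : ℝ)) ^ 3 := by
    have e1 : 2 * κ₂ / A0 ^ 3 ≤ T ^ (1 / 2 : ℝ) := by
      rw [← Real.sqrt_eq_rpow]
      exact Real.le_sqrt_of_sq_le hTa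
    rw [div_le_iff₀ (by positivity)] at e1
    rw [mul_pow, mul_pow, hT6]
    have e2 : 1 ≤ u ^ 3 := one_le_pow₀ hu1
    have e3 : 0 ≤ T ^ (1 / 2 : ℝ) * A0 ^ 3 := by positivity
    nlinarith
  obtain ⟨N1, N2, hN1, hN12, hN1', hN2', hmem⟩ := MB6_range h2 hA hAB hA3
  have hN2T : (N2 : ℝ) ≤ T ^ 2 := by
    refine hN2'.trans ?_
    have e1 : (B0 * u * T ^ (1 / 6 : ℝ)) ^ 3 / κ₂ = B0 ^ 3 / κ₂ * (u ^ 3 * T ^ (1 / 2 : ℝ)) := by
      rw [mul_pow, mul_pow, hT6]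
      ring
    rw [e1]
    have e2 : u ^ 3 ≤ T ^ (1 / 2 : ℝ) := by
      rw [← hT6]
      gcongr
    have e3 : T ^ (1 / 2 : ℝ) * T ^ (1 / 2 : ℝ) = T := by
      rw [← Real.rpow_add hTp]
      norm_num
    calc B0 ^ 3 / κ₂ * (u ^ 3 * T ^ (1 / 2 : ℝ)) ≤ T * (T ^ (1 / 2 : ℝ) * T ^ (1 / 2 : ℝ)) := by
          gcongr
      _ = T ^ 2 := by
          rw [e3]
          ring
  have hQ : ∫ x in T..(T + X), (∑ m ∈ Finset.Ioc N1 N2, b m * km κ₂ d m x) ^ 2 ≤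
      CA * (T ^ (3 / 2 + ε) * u) := by
    have e1 := hn T T (T + X) N1 N2 hT1 le_rfl hle (by linarith) hN1 hN12 hN2T
    have e4 : T + X - T = X := by ring
    rw [e4] at e1
    have e2 : (N1 : ℝ) ^ (-(1 / 3) : ℝ) ≤
        (2 * κ₂) ^ (1 / 3 : ℝ) / (A0 * u * T ^ (1 / 6 : ℝ)) := by
      have e5 : 0 < (A0 * u * T ^ (1 / 6 : ℝ)) ^ 3 / (2 * κ₂) := by positivity
      calc (N1 : ℝ) ^ (-(1 / 3) : ℝ) ≤
            ((A0 * u * T ^ (1 / 6 : ℝ)) ^ 3 / (2 * κ₂)) ^ (-(1 / 3) : ℝ) :=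
            Real.rpow_le_rpow_of_nonpos e5 hN1' (by norm_num)
        _ = _ := by
            rw [Real.rpow_neg e5.le, Real.div_rpow (by positivity) (by positivity), inv_div]
            congr 1
            rw [← Real.rpow_natCast, ← Real.rpow_mul hA.le]
            norm_num
    have e3 : (N2 : ℝ) ^ (1 / 3 : ℝ) ≤ B0 * u * T ^ (1 / 6 : ℝ) / κ₂ ^ (1 / 3 : ℝ) := by
      calc (N2 : ℝ) ^ (1 / 3 : ℝ) ≤ ((B0 * u * T ^ (1 / 6 : ℝ)) ^ 3 / κ₂) ^ (1 / 3 : ℝ) :=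
            Real.rpow_le_rpow (by positivity) hN2' (by norm_num)
        _ = _ := by
            rw [Real.div_rpow (by positivity) (by positivity)]
            congr 1
            rw [← Real.rpow_natCast, ← Real.rpow_mul (by positivity)]
            norm_num
    have e6 : X * ((2 * κ₂) ^ (1 / 3 : ℝ) / (A0 * u * T ^ (1 / 6 : ℝ))) ≤
        (2 * κ₂) ^ (1 / 3 : ℝ) / A0 * (T ^ (5 / 6 : ℝ) * u) := by
      have e7 : X / (u * T ^ (1 / 6 : ℝ)) ≤ T ^ (5 / 6 : ℝ) * u := by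
        rw [div_le_iff₀ (by positivity)]
        have e8 : T ^ (5 / 6 : ℝ) * T ^ (1 / 6 : ℝ) = T := by
          rw [← Real.rpow_add hTp]
          norm_num
        calc X ≤ T * (1 * 1) := by linarith
          _ ≤ T * (u * u) := by gcongr
          _ = T ^ (5 / 6 : ℝ) * T ^ (1 / 6 : ℝ) * (u * u) := by rw [e8]
          _ = _ := by ring
      calc _ = (2 * κ₂) ^ (1 / 3 : ℝ) / A0 * (X / (u * T ^ (1 / 6 : ℝ))) := by
            field_simp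
        _ ≤ _ := by gcongr
    have e9 : T ^ (2 / 3 : ℝ) * (B0 * u * T ^ (1 / 6 : ℝ) / κ₂ ^ (1 / 3 : ℝ)) =
        B0 / κ₂ ^ (1 / 3 : ℝ) * (T ^ (5 / 6 : ℝ) * u) := by
      have e10 : T ^ (2 / 3 : ℝ) * T ^ (1 / 6 : ℝ) = T ^ (5 / 6 : ℝ) := by
        rw [← Real.rpow_add hTp]
        norm_num
      rw [← e10]
      ring
    have e11 : T ^ (2 / 3 + ε) * T ^ (5 / 6 : ℝ) = T ^ (3 / 2 + ε) := by
      rw [← Real.rpow_add hTp]
      congr 1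
      ring
    calc _ ≤ C2 * T ^ (2 / 3 + ε) * (X * (N1 : ℝ) ^ (-(1 / 3) : ℝ) +
          T ^ (2 / 3 : ℝ) * (N2 : ℝ) ^ (1 / 3 : ℝ)) := e1
      _ ≤ C2 * T ^ (2 / 3 + ε) * ((2 * κ₂) ^ (1 / 3 : ℝ) / A0 * (T ^ (5 / 6 : ℝ) * u) +
          B0 / κ₂ ^ (1 / 3 : ℝ) * (T ^ (5 / 6 : ℝ) * u)) := by
          have e12 := (mul_le_mul_of_nonneg_left e2 hXp.le).trans e6
          have e13 : T ^ (2 / 3 : ℝ) * (N2 : ℝ) ^ (1 / 3 : ℝ) ≤
              B0 / κ₂ ^ (1 / 3 : ℝ) * (T ^ (5 / 6 : ℝ) * u) := by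
            rw [← e9]
            gcongr
          gcongr
      _ = (CA - C0 ^ 2) * (T ^ (3 / 2 + ε) * u) := by
          rw [hCA, ← e11]
          ring
      _ ≤ CA * (T ^ (3 / 2 + ε) * u) := by
          have : CA - C0 ^ 2 ≤ CA := by linarith [sq_nonneg C0]
          gcongr
  have hkc : ∀ m : ℕ, ContinuousOn (km κ₂ d m) (Icc T (T + X)) := fun m =>
    (MB6_kc κ₂ d m).mono fun x hx => lt_of_lt_of_le hTp hx.1
  have hQc : ContinuousOn (fun x => ∑ m ∈ Finset.Ioc N1 N2, b m * km κ₂ d m x)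
      (Icc T (T + X)) := continuousOn_finsetSum _ fun m _ => continuousOn_const.mul (hkc m)
  have hnear := hCS _ hQc hQ
  -- the exchange
  set F : ℝ → ℂ := fun x => ((Pb a κ₁ z M M' x * K3 ρ κ₁ φ₁ κ₂ φ₂ s T X x : ℝ) : ℂ) with hF
  have hFc : Continuous F := Complex.continuous_ofReal.comp (hPc.mul hKc)
  have hex : ∑ m ∈ Finset.Ioc N1 N2, (b m : ℂ) * ∫ x in T..(T + X), (km κ₂ d m x : ℂ) * F x =
      ((∫ x in T..(T + X), (∑ m ∈ Finset.Ioc N1 N2, b m * km κ₂ d m x) *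
        (Pb a κ₁ z M M' x * K3 ρ κ₁ φ₁ κ₂ φ₂ s T X x) : ℝ) : ℂ) := by
    have e1 : ∀ m ∈ Finset.Ioc N1 N2, (b m : ℂ) * ∫ x in T..(T + X), (km κ₂ d m x : ℂ) * F x =
        ∫ x in T..(T + X), (b m : ℂ) * ((km κ₂ d m x : ℂ) * F x) := fun m _ =>
      (intervalIntegral.integral_const_mul _ _).symm
    rw [Finset.sum_congr rfl e1, ← intervalIntegral.integral_finsetSum,
      ← intervalIntegral.integral_ofReal]
    · refine intervalIntegral.integral_congr fun x _ => ?_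
      simp only [hF]
      push_cast
      rw [Finset.sum_mul]
      refine Finset.sum_congr rfl fun m _ => ?_
      ring
    · intro m _
      refine ContinuousOn.intervalIntegrable ?_
      rw [uIcc_of_le hle]
      exact continuousOn_const.mul
        ((Complex.continuous_ofReal.comp_continuousOn (hkc m)).mul hFc.continuousOn)
  obtain ⟨hsm, hbd⟩ := hms
  have hsp := MB6_split hsm (P := Near κ₂ (A0 * u * T ^ (1 / 6 : ℝ)) (B0 * u * T ^ (1 / 6 : ℝ)))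
    (Finset.Ioc N1 N2) hmem
  have hser : ‖∑' m : ℕ, (b m : ℂ) * ∫ x in T..(T + X), (km κ₂ d m x : ℂ) * F x‖ ≤
      √(32 * CA * C3) * T ^ (1 + (1 - ξ) / 2 + ε) + C5 * T ^ (1 + (1 - ξ) / 2 + ε) := by
    refine hsp.trans ?_
    refine add_le_add ?_ ?_
    · rw [hex, Complex.norm_real, Real.norm_eq_abs]
      exact hnear
    · refine le_trans (le_of_eq ?_) (hfar.trans ?_)
      · refine tsum_congr fun m => ?_
        rfl
      · have := Real.rpow_le_rpow_of_exponent_le hT1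
          (show (5 / 6 + ξ + ε : ℝ) ≤ 1 + (1 - ξ) / 2 + ε by linarith)
        gcongr
  have hSF : ‖∫ x in T..(T + X), (S x : ℂ) * F x‖ ≤
      √(32 * CA * C3) * T ^ (1 + (1 - ξ) / 2 + ε) := by
    have e1 : ∫ x in T..(T + X), (S x : ℂ) * F x = ((∫ x in T..(T + X), S x *
        (Pb a κ₁ z M M' x * K3 ρ κ₁ φ₁ κ₂ φ₂ s T X x) : ℝ) : ℂ) := by
      rw [← intervalIntegral.integral_ofReal]
      refine intervalIntegral.integral_congr fun x _ => ?_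
      simp only [hF]
      push_cast
      ring
    rw [e1, Complex.norm_real, Real.norm_eq_abs]
    exact hS
  have herr : Cm * (T + X) ^ (1 + ε / 2) * ∫ x in T..(T + X), ‖deriv (deriv F) x‖ ≤
      Cm * 4 ^ (1 + ε / 2) * C4 * T ^ (1 + (1 - ξ) / 2 + ε) := by
    have e1 : (T + X) ^ (1 + ε / 2) ≤ (4 * T) ^ (1 + ε / 2) :=
      Real.rpow_le_rpow (by positivity) (by linarith) (by positivity)
    rw [Real.mul_rpow (by norm_num) hTp.le] at e1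
    have e2 : 0 ≤ ∫ x in T..(T + X), ‖deriv (deriv F) x‖ :=
      intervalIntegral.integral_nonneg hle fun x _ => norm_nonneg _
    calc _ ≤ Cm * (4 ^ (1 + ε / 2) * T ^ (1 + ε / 2)) *
          (C4 * T ^ ((1 - ξ) - 1 / 2 + ε / 2)) := by gcongr
      _ = Cm * 4 ^ (1 + ε / 2) * C4 * (T ^ (1 + ε / 2) * T ^ ((1 - ξ) - 1 / 2 + ε / 2)) := by ring
      _ ≤ Cm * 4 ^ (1 + ε / 2) * C4 * T ^ (1 + (1 - ξ) / 2 + ε) := by
          rw [← Real.rpow_add hTp]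
          have := Real.rpow_le_rpow_of_exponent_le hT1
            (show (1 + ε / 2 + ((1 - ξ) - 1 / 2 + ε / 2) : ℝ) ≤ 1 + (1 - ξ) / 2 + ε by linarith)
          gcongr
  have hfin : ‖∫ x in T..(T + X), (errTerm b Lg x : ℂ) * F x‖ ≤
      (Cm * 4 ^ (1 + ε / 2) * C4 + 2 * √(32 * CA * C3) + C5) * T ^ (1 + (1 - ξ) / 2 + ε) := by
    have e1 : ∫ x in T..(T + X), (errTerm b Lg x : ℂ) * F x =
        ((∫ x in T..(T + X), (errTerm b Lg x : ℂ) * F x) - (∫ x in T..(T + X), (S x : ℂ) * F x) -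
          ∑' m : ℕ, (b m : ℂ) * ∫ x in T..(T + X), (km κ₂ d m x : ℂ) * F x) +
        (∫ x in T..(T + X), (S x : ℂ) * F x) +
        ∑' m : ℕ, (b m : ℂ) * ∫ x in T..(T + X), (km κ₂ d m x : ℂ) * F x := by ring
    rw [e1]
    refine (norm_add₃_le).trans ?_
    have e2 := hbd.trans herr
    linarith
  have e1 : ∫ x in T..(T + X), (errTerm b Lg x : ℂ) * F x = ((∫ x in T..(T + X),
      errTerm b Lg x * (Pb a κ₁ z M M' x * K3 ρ κ₁ φ₁ κ₂ φ₂ s T X x) : ℝ) : ℂ) := by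
    rw [← intervalIntegral.integral_ofReal]
    refine intervalIntegral.integral_congr fun x _ => ?_
    simp only [hF]
    push_cast
    ring
  rw [e1, Complex.norm_real, Real.norm_eq_abs] at hfin
  exact hfin
--END MB6

--BEGIN AS7
private theorem AS7_small {A B : ℝ} (hAB : A < B) (D : ℝ) {c : ℝ} (hc : 0 < c) :
    ∃ T0 : ℝ, 1 ≤ T0 ∧ ∀ T : ℝ, T0 ≤ T → D * T ^ A ≤ c * T ^ B := by
  have h1 : Tendsto (fun T : ℝ => T ^ (B - A)) atTop atTop := tendsto_rpow_atTop (by linarith)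
  obtain ⟨T1, hT1⟩ := (h1.eventually_ge_atTop (D / c)).exists_forall_of_atTop
  refine ⟨max 1 T1, le_max_left _ _, fun T hT => ?_⟩
  have hT0 : 0 < T := by linarith [le_max_left 1 T1]
  have h2 := hT1 T (le_trans (le_max_right _ _) hT)
  rw [div_le_iff₀ hc] at h2
  have h3 : T ^ B = T ^ (B - A) * T ^ A := by
    rw [← Real.rpow_add hT0]; congr 1; ring
  rw [h3]
  have h4 : 0 ≤ T ^ A := Real.rpow_nonneg hT0.le _
  calc D * T ^ A ≤ (T ^ (B - A) * c) * T ^ A := mul_le_mul_of_nonneg_right h2 h4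
    _ = c * (T ^ (B - A) * T ^ A) := by ring

/-- the coefficients -/
private theorem AS7_coef (h : RealSelberg a L 2) {ε : ℝ} (hε : 0 < ε) : ∃ C : ℝ, 0 < C ∧
    ∀ m : ℕ, 1 ≤ m → |a m| ≤ C * (m : ℝ) ^ ε := by
  obtain ⟨C, hC⟩ := h.ramanujan ε hε
  refine ⟨|C| + 1, by positivity, fun m hm => (hC m hm).trans ?_⟩
  refine mul_le_mul_of_nonneg_right ?_ (by positivity)
  linarith [le_abs_self C]

private theorem AS7_sqrtsum (M : ℕ) :
    ∑ m ∈ Finset.Icc 1 M, (m : ℝ) ^ (-(1 / 2) : ℝ) ≤ 2 * (M : ℝ) ^ (1 / 2 : ℝ) := by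
  induction M with
  | zero => simp
  | succ M ih =>
    rw [Finset.sum_Icc_succ_top (by omega)]
    have hM : (0 : ℝ) < ((M + 1 : ℕ) : ℝ) := by positivity
    have h1 : ((M + 1 : ℕ) : ℝ) ^ (-(1 / 2) : ℝ) = 1 / √((M + 1 : ℕ) : ℝ) := by
      rw [Real.rpow_neg hM.le, ← Real.sqrt_eq_rpow, one_div]
    have h2 : ((M + 1 : ℕ) : ℝ) ^ (1 / 2 : ℝ) = √((M + 1 : ℕ) : ℝ) := by
      rw [← Real.sqrt_eq_rpow]
    have h3 : (M : ℝ) ^ (1 / 2 : ℝ) = √(M : ℝ) := by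
      rw [← Real.sqrt_eq_rpow]
    rw [h3] at ih
    rw [h1, h2]
    have hs : 0 < √((M + 1 : ℕ) : ℝ) := Real.sqrt_pos.2 hM
    have e1 : √((M + 1 : ℕ) : ℝ) * √((M + 1 : ℕ) : ℝ) = (M : ℝ) + 1 := by
      rw [Real.mul_self_sqrt hM.le]
      push_cast
      ring
    have e2 : √(M : ℝ) * √(M : ℝ) = M := Real.mul_self_sqrt (Nat.cast_nonneg M)
    have h4 : 1 / √((M + 1 : ℕ) : ℝ) ≤ 2 * √((M + 1 : ℕ) : ℝ) - 2 * √(M : ℝ) := by
      rw [div_le_iff₀ hs]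
      nlinarith [sq_nonneg (√((M + 1 : ℕ) : ℝ) - √(M : ℝ))]
    linarith

private theorem AS7_re_le (c0 : ℂ) (y : ℝ) : |(c0 * e y).re| ≤ ‖c0‖ := by
  refine (abs_re_le_norm _).trans ?_
  rw [norm_mul, AS2_e_norm, mul_one]

/-- the secondary part of the truncated series -/
private noncomputable def AS7_F2 (a : ℕ → ℝ) (κ L0 : ℝ) (c0 : ℂ) (M : ℕ) (x : ℝ) : ℝ :=
  L0 + ∑ m ∈ Finset.Icc 1 M, a m * (m : ℝ) ^ (-(5 / 4) : ℝ) *
    (3 / 4 * x ^ (-(1 / 4) : ℝ) * (c0 * e (2 * √(κ * m * x))).re)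

private theorem AS7_Etr (a : ℕ → ℝ) (κ L0 : ℝ) (c0 : ℂ) (M : ℕ) (x : ℝ) :
    Etr a κ L0 c0 M x = AS7_F2 a κ L0 c0 M x + ∑ m ∈ Finset.Icc 1 M,
      a m * (m : ℝ) ^ (-(3 / 4) : ℝ) * (x ^ (1 / 4 : ℝ) *
        (2 * π * I * √κ * c0 * e (2 * √(κ * m * x))).re) := by
  unfold Etr AS7_F2 Pmd
  rw [add_assoc, ← Finset.sum_add_distrib]
  congr 1
  refine Finset.sum_congr rfl fun m hm => ?_
  have hm1 : (0 : ℝ) < m := by
    have := (Finset.mem_Icc.1 hm).1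
    exact_mod_cast this
  have e1 : (m : ℝ) ^ (-(5 / 4) : ℝ) * √m = (m : ℝ) ^ (-(3 / 4) : ℝ) := by
    rw [Real.sqrt_eq_rpow, ← Real.rpow_add hm1]
    norm_num
  rw [← e1]
  ring

private theorem AS7_F2_cont (a : ℕ → ℝ) (κ L0 : ℝ) (c0 : ℂ) (M : ℕ) :
    ContinuousOn (AS7_F2 a κ L0 c0 M) (Ioi 0) := by
  unfold AS7_F2
  refine continuousOn_const.add (continuousOn_finsetSum _ fun m _ => ?_)
  refine continuousOn_const.mul ((continuousOn_const.mul ?_).mul ?_)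
  · intro x hx
    exact (Real.continuousAt_rpow_const x _ (Or.inl (ne_of_gt hx))).continuousWithinAt
  · have c2 : Continuous fun x : ℝ => e (2 * √(κ * m * x)) := by
      unfold e
      exact Complex.continuous_exp.comp (continuous_const.mul (Complex.continuous_ofReal.comp
        (continuous_const.mul (continuous_const.mul continuous_id).sqrt)))
    exact (Complex.continuous_re.comp (continuous_const.mul c2)).continuousOn

private theorem AS7_F2_bd (h : RealSelberg a L 2) (κ L0 : ℝ) (c0 : ℂ) : ∃ C : ℝ, 0 < C ∧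
    ∀ (M : ℕ) (x : ℝ), 1 ≤ x → |AS7_F2 a κ L0 c0 M x| ≤ C := by
  obtain ⟨C, hC, hb⟩ := AS7_coef h (ε := 1 / 8) (by norm_num)
  have hsum : Summable fun m : ℕ => (m : ℝ) ^ (-(9 / 8) : ℝ) :=
    Real.summable_nat_rpow.2 (by norm_num)
  refine ⟨|L0| + C * ‖c0‖ * (∑' m : ℕ, (m : ℝ) ^ (-(9 / 8) : ℝ)) + 1, ?_, fun M x hx => ?_⟩
  · have : 0 ≤ ∑' m : ℕ, (m : ℝ) ^ (-(9 / 8) : ℝ) := tsum_nonneg fun m => by positivity
    positivity
  · unfold AS7_F2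
    have hx0 : 0 < x := by linarith
    have h1 : |∑ m ∈ Finset.Icc 1 M, a m * (m : ℝ) ^ (-(5 / 4) : ℝ) *
        (3 / 4 * x ^ (-(1 / 4) : ℝ) * (c0 * e (2 * √(κ * m * x))).re)| ≤
        ∑ m ∈ Finset.Icc 1 M, C * ‖c0‖ * (m : ℝ) ^ (-(9 / 8) : ℝ) := by
      refine (Finset.abs_sum_le_sum_abs _ _).trans (Finset.sum_le_sum fun m hm => ?_)
      have hm1 := (Finset.mem_Icc.1 hm).1
      have hm0 : (0 : ℝ) < m := by exact_mod_cast hm1
      have e1 : (m : ℝ) ^ (-(9 / 8) : ℝ) = (m : ℝ) ^ (1 / 8 : ℝ) * (m : ℝ) ^ (-(5 / 4) : ℝ) := by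
        rw [← Real.rpow_add hm0]
        norm_num
      have e2 : x ^ (-(1 / 4) : ℝ) ≤ 1 := Real.rpow_le_one_of_one_le_of_nonpos hx (by norm_num)
      have e3 : 0 < x ^ (-(1 / 4) : ℝ) := by positivity
      rw [abs_mul, abs_mul, abs_mul, abs_of_pos (by positivity : 0 < (m : ℝ) ^ (-(5 / 4) : ℝ)),
        abs_of_pos (by positivity : 0 < 3 / 4 * x ^ (-(1 / 4) : ℝ))]
      calc |a m| * (m : ℝ) ^ (-(5 / 4) : ℝ) * (3 / 4 * x ^ (-(1 / 4) : ℝ) *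
            |(c0 * e (2 * √(κ * m * x))).re|) ≤
          (C * (m : ℝ) ^ (1 / 8 : ℝ)) * (m : ℝ) ^ (-(5 / 4) : ℝ) * (1 * ‖c0‖) := by
            refine mul_le_mul (mul_le_mul_of_nonneg_right (hb m hm1) (by positivity)) ?_
              (by positivity) (by positivity)
            refine mul_le_mul (by linarith) (AS7_re_le _ _) (abs_nonneg _) zero_le_one
        _ = C * ‖c0‖ * (m : ℝ) ^ (-(9 / 8) : ℝ) := by
            rw [e1]
            ring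
    have h2 : ∑ m ∈ Finset.Icc 1 M, C * ‖c0‖ * (m : ℝ) ^ (-(9 / 8) : ℝ) ≤
        C * ‖c0‖ * (∑' m : ℕ, (m : ℝ) ^ (-(9 / 8) : ℝ)) := by
      rw [← Finset.mul_sum]
      refine mul_le_mul_of_nonneg_left ?_ (by positivity)
      exact hsum.sum_le_tsum _ fun m _ => by positivity
    have h3 := abs_add_le L0 (∑ m ∈ Finset.Icc 1 M, a m * (m : ℝ) ^ (-(5 / 4) : ℝ) *
        (3 / 4 * x ^ (-(1 / 4) : ℝ) * (c0 * e (2 * √(κ * m * x))).re))
    linarith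

private theorem AS7_bi {p q B : ℝ} {f : ℝ → ℝ} (hpq : p ≤ q)
    (hm : AEStronglyMeasurable f (volume.restrict (Ioc p q))) (hB : ∀ x ∈ Ioc p q, |f x| ≤ B) :
    IntervalIntegrable f volume p q := by
  rw [intervalIntegrable_iff_integrableOn_Ioc_of_le hpq]
  refine Integrable.mono' (g := fun _ => B) (integrable_const _) hm ?_
  refine (ae_restrict_iff' measurableSet_Ioc).2 (Eventually.of_forall fun x hx => ?_)
  rw [Real.norm_eq_abs]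
  exact hB x hx

/-- the decomposition of the integral -/
private theorem AS7_dec {p q Bf Bg : ℝ} (hp : 1 ≤ p) (hpq : p ≤ q) {Ef Eg K : ℝ → ℝ}
    (hfm : AEStronglyMeasurable Ef (volume.restrict (Ioc p q)))
    (hgm : AEStronglyMeasurable Eg (volume.restrict (Ioc p q)))
    (hfb : ∀ x ∈ Ioc p q, |Ef x| ≤ Bf) (hgb : ∀ x ∈ Ioc p q, |Eg x| ≤ Bg) (hK : Continuous K)
    (hKb : ∀ x, |K x| ≤ 4) (a : ℕ → ℝ) (κ L0 : ℝ) (c0 : ℂ) (M : ℕ) :
    IntervalIntegrable (fun x => (Ef x - Etr a κ L0 c0 M x) ^ 2) volume p q ∧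
    AEStronglyMeasurable (fun x => Ef x - Etr a κ L0 c0 M x) (volume.restrict (Ioc p q)) ∧
    ∫ x in p..q, Ef x * Eg x * K x =
      (∫ x in p..q, (Ef x - Etr a κ L0 c0 M x) * Eg x * K x) +
      (∫ x in p..q, AS7_F2 a κ L0 c0 M x * Eg x * K x) +
      ∑ m ∈ Finset.Icc 1 M, a m * (m : ℝ) ^ (-(3 / 4) : ℝ) *
        ∫ x in p..q, Eg x * (x ^ (1 / 4 : ℝ) *
          (2 * π * I * √κ * c0 * e (2 * √(κ * m * x))).re * K x) := by
  have hsub : Icc p q ⊆ Ioi (0 : ℝ) := fun x hx => lt_of_lt_of_le (by linarith) hx.1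
  -- the terms
  have ct : ∀ m : ℕ, ContinuousOn (fun x : ℝ => x ^ (1 / 4 : ℝ) *
      (2 * π * I * √κ * c0 * e (2 * √(κ * m * x))).re) (Icc p q) := by
    intro m
    have c1 : Continuous fun x : ℝ => x ^ (1 / 4 : ℝ) :=
      continuous_id.rpow_const fun x => Or.inr (by norm_num)
    have c2 : Continuous fun x : ℝ => e (2 * √(κ * m * x)) := by
      unfold e
      exact Complex.continuous_exp.comp (continuous_const.mul (Complex.continuous_ofReal.comp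
        (continuous_const.mul (continuous_const.mul continuous_id).sqrt)))
    exact (c1.mul (Complex.continuous_re.comp (continuous_const.mul c2))).continuousOn
  have cF2 : ContinuousOn (AS7_F2 a κ L0 c0 M) (Icc p q) := (AS7_F2_cont a κ L0 c0 M).mono hsub
  have cE : ContinuousOn (Etr a κ L0 c0 M) (Icc p q) := by
    have e1 : Etr a κ L0 c0 M = fun x => AS7_F2 a κ L0 c0 M x + ∑ m ∈ Finset.Icc 1 M,
      a m * (m : ℝ) ^ (-(3 / 4) : ℝ) * (x ^ (1 / 4 : ℝ) *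
        (2 * π * I * √κ * c0 * e (2 * √(κ * m * x))).re) := by
      funext x
      exact AS7_Etr a κ L0 c0 M x
    rw [e1]
    exact cF2.add (continuousOn_finsetSum _ fun m _ => continuousOn_const.mul (ct m))
  have hgi : IntegrableOn Eg (Ioc p q) := by
    have := AS7_bi hpq hgm hgb
    rwa [intervalIntegrable_iff_integrableOn_Ioc_of_le hpq] at this
  -- measurability of continuous functions
  have hme : ∀ f : ℝ → ℝ, ContinuousOn f (Icc p q) →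
      AEStronglyMeasurable f (volume.restrict (Ioc p q)) := fun f hf =>
    (hf.mono Ioc_subset_Icc_self).aestronglyMeasurable measurableSet_Ioc
  have hbd : ∀ f : ℝ → ℝ, ContinuousOn f (Icc p q) → ∃ B : ℝ, ∀ x ∈ Ioc p q, |f x| ≤ B := by
    intro f hf
    obtain ⟨B, hB⟩ := isCompact_Icc.exists_bound_of_continuousOn hf
    exact ⟨B, fun x hx => hB x (Ioc_subset_Icc_self hx)⟩
  obtain ⟨BE, hBE⟩ := hbd _ cE
  obtain ⟨B2, hB2⟩ := hbd _ cF2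
  have hm1 : AEStronglyMeasurable (fun x => Ef x - Etr a κ L0 c0 M x)
      (volume.restrict (Ioc p q)) := hfm.sub (hme _ cE)
  have hb1 : ∀ x ∈ Ioc p q, |Ef x - Etr a κ L0 c0 M x| ≤ Bf + BE := fun x hx =>
    (abs_sub _ _).trans (add_le_add (hfb x hx) (hBE x hx))
  have i1 : IntervalIntegrable (fun x => (Ef x - Etr a κ L0 c0 M x) * Eg x * K x) volume p q := by
    refine AS7_bi (B := (Bf + BE) * Bg * 4) hpq ((hm1.mul hgm).mul hK.aestronglyMeasurable) ?_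
    intro x hx
    have h1 := hb1 x hx
    have h2 := hgb x hx
    rw [abs_mul, abs_mul]
    exact mul_le_mul (mul_le_mul h1 h2 (abs_nonneg _) ((abs_nonneg _).trans h1)) (hKb x)
      (abs_nonneg _) (mul_nonneg ((abs_nonneg _).trans h1) ((abs_nonneg _).trans h2))
  have i2 : IntervalIntegrable (fun x => AS7_F2 a κ L0 c0 M x * Eg x * K x) volume p q := by
    refine AS7_bi (B := B2 * Bg * 4) hpq (((hme _ cF2).mul hgm).mul hK.aestronglyMeasurable) ?_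
    intro x hx
    have h1 := hB2 x hx
    have h2 := hgb x hx
    rw [abs_mul, abs_mul]
    exact mul_le_mul (mul_le_mul h1 h2 (abs_nonneg _) ((abs_nonneg _).trans h1)) (hKb x)
      (abs_nonneg _) (mul_nonneg ((abs_nonneg _).trans h1) ((abs_nonneg _).trans h2))
  have i3 : ∀ m : ℕ, IntervalIntegrable (fun x => Eg x * (x ^ (1 / 4 : ℝ) *
      (2 * π * I * √κ * c0 * e (2 * √(κ * m * x))).re * K x)) volume p q := by
    intro m
    obtain ⟨B, hB⟩ := hbd _ ((ct m).mul hK.continuousOn)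
    refine AS7_bi (B := Bg * B) hpq (hgm.mul (hme _ ((ct m).mul hK.continuousOn))) ?_
    intro x hx
    have h2 := hgb x hx
    rw [abs_mul]
    exact mul_le_mul h2 (hB x hx) (abs_nonneg _) ((abs_nonneg _).trans h2)
  refine ⟨?_, hm1, ?_⟩
  · refine AS7_bi (B := (Bf + BE) ^ 2) hpq (hm1.pow 2) ?_
    intro x hx
    rw [abs_pow]
    exact pow_le_pow_left₀ (abs_nonneg _) (hb1 x hx) 2
  · have e1 : ∀ x, Ef x * Eg x * K x = (Ef x - Etr a κ L0 c0 M x) * Eg x * K x +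
        AS7_F2 a κ L0 c0 M x * Eg x * K x + ∑ m ∈ Finset.Icc 1 M,
          a m * (m : ℝ) ^ (-(3 / 4) : ℝ) * (Eg x * (x ^ (1 / 4 : ℝ) *
          (2 * π * I * √κ * c0 * e (2 * √(κ * m * x))).re * K x)) := by
      intro x
      have e2 : ∑ m ∈ Finset.Icc 1 M,
          a m * (m : ℝ) ^ (-(3 / 4) : ℝ) * (Eg x * (x ^ (1 / 4 : ℝ) *
          (2 * π * I * √κ * c0 * e (2 * √(κ * m * x))).re * K x)) =
          (∑ m ∈ Finset.Icc 1 M, a m * (m : ℝ) ^ (-(3 / 4) : ℝ) * (x ^ (1 / 4 : ℝ) *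
        (2 * π * I * √κ * c0 * e (2 * √(κ * m * x))).re)) * (Eg x * K x) := by
        rw [Finset.sum_mul]
        refine Finset.sum_congr rfl fun m _ => ?_
        ring
      rw [e2, AS7_Etr]
      ring
    simp only [e1]
    have i4 : IntervalIntegrable (fun x => ∑ m ∈ Finset.Icc 1 M,
        a m * (m : ℝ) ^ (-(3 / 4) : ℝ) * (Eg x * (x ^ (1 / 4 : ℝ) *
        (2 * π * I * √κ * c0 * e (2 * √(κ * m * x))).re * K x))) volume p q := by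
      have h5 := IntervalIntegrable.sum (Finset.Icc 1 M)
        (f := fun m x => a m * (m : ℝ) ^ (-(3 / 4) : ℝ) * (Eg x * (x ^ (1 / 4 : ℝ) *
        (2 * π * I * √κ * c0 * e (2 * √(κ * m * x))).re * K x)))
        fun m _ => (i3 m).const_mul (a m * (m : ℝ) ^ (-(3 / 4) : ℝ))
      have e3 : (fun x => ∑ m ∈ Finset.Icc 1 M,
        a m * (m : ℝ) ^ (-(3 / 4) : ℝ) * (Eg x * (x ^ (1 / 4 : ℝ) *
        (2 * π * I * √κ * c0 * e (2 * √(κ * m * x))).re * K x))) = ∑ m ∈ Finset.Icc 1 M,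
        (fun x => a m * (m : ℝ) ^ (-(3 / 4) : ℝ) * (Eg x * (x ^ (1 / 4 : ℝ) *
        (2 * π * I * √κ * c0 * e (2 * √(κ * m * x))).re * K x))) := by
        funext x
        rw [Finset.sum_apply]
      rw [e3]
      exact h5
    rw [intervalIntegral.integral_add (i1.add i2) i4,
      intervalIntegral.integral_add i1 i2,
      intervalIntegral.integral_finsetSum fun m _ => (i3 m).const_mul _]
    congr 1
    refine Finset.sum_congr rfl fun m _ => ?_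
    rw [intervalIntegral.integral_const_mul]

/-- **AS7.** The lower bound for `± ∫ E_f E_g K` (AS4 - AS6, MB6 for the dyadic blocks of
`2 ≤ m ≤ M = ⌊T^{1/3}⌋`, MS10 with `η = 1/3`). Errors, against `T^{(1-ξ)+7/12}`: blocks and tail
`T^{1+(1-ξ)/2+ε}`; `L0` and the secondary parts `(3/4)x^{-1/4} Re(c_0 e(..))`, `m ≤ M`:
`T^{(1-ξ)/2 + 5/6 + ε}` (AS6). -/
theorem Q3_lower (hf : RealSelberg a L 2) (hv : Vor a L κ₁ L0 c0) (h : RealSelberg b Lg 3)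
    (hw : Wk b Lg κ₂ C0 c d S) {ρ : ℝ → ℝ} (hρ : IsBump ρ (1 / 4) (3 / 8) (5 / 8) (3 / 4)) {ξ : ℝ}
    (hξ : 0 < ξ) (hξ' : ξ < 1 / 6) :
    ∃ c1 T0 : ℝ, 0 < c1 ∧ 1 ≤ T0 ∧ ∀ (T s : ℝ), T0 ≤ T → (s = 1 ∨ s = -1) →
      c1 * T ^ ((1 - ξ) + 7 / 12) ≤ s * ∫ x in T..(T + T ^ (1 - ξ)), errTerm a L x *
        errTerm b Lg x * K3 ρ κ₁ (arg (2 * π * I * √κ₁ * c0)) κ₂ (arg (d 0)) s T (T ^ (1 - ξ)) x := by
  have hγ : 0 < 1 / 6 - ξ := by linarith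
  set ε := (1 / 6 - ξ) / 16 with hεdef
  have hε : 0 < ε := by rw [hεdef]; positivity
  set η : ℝ := 1 / 3 with hη
  have hη0 : 0 < η := by rw [hη]; norm_num
  have hη6 : η ≤ 1 / 3 := le_rfl
  set z : ℂ := 2 * π * I * √κ₁ * c0 with hz
  have hz0 : 0 < ‖z‖ := by
    rw [hz, norm_pos_iff]
    have h1 : (√κ₁ : ℂ) ≠ 0 := by
      have := Real.sqrt_pos.2 hv.kpos
      exact_mod_cast this.ne'
    have hπ : (π : ℂ) ≠ 0 := by exact_mod_cast Real.pi_pos.ne'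
    simp [hv.cne, h1, hπ, I_ne_zero]
  obtain ⟨Ct, T1, hCt, hT1, ht⟩ := tail_ms hf hv hξ hξ' hη0 hη6 hε
  obtain ⟨C6, hC6, hcs⟩ := cs3 h hw hρ hξ hξ' hε
  obtain ⟨CF, hCF, hF2⟩ := AS7_F2_bd hf κ₁ L0 c0
  obtain ⟨C3, T3, hC3, hT3, h3⟩ := block_bound hf h hw hρ hv.kpos z hξ hξ' hε
  obtain ⟨C4, T4, hC4, hT4, h4⟩ := term_one h hw hρ hv.kpos z hξ hξ' hε
  obtain ⟨c5, T5, hc5, hT5, h5⟩ := resonance3 h hw hρ hξ hξ'
  obtain ⟨Cf, hCf, hfb, -⟩ := errTerm_trivial hf (ε := 1) one_pos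
  obtain ⟨Cg, hCg, hgb, -⟩ := errTerm3_trivial h (ε := 1) one_pos
  have hcc : 0 < ‖z‖ / 2 * c5 / 8 := by positivity
  obtain ⟨U1, hU1, u1⟩ := AS7_small (A := ((1 - ξ) + 1 / 2 - η / 2 + ε) / 2 + (5 / 6 + ε))
    (B := (1 - ξ) + 7 / 12) (by rw [hη, hεdef]; linarith) (C6 * √Ct) hcc
  obtain ⟨U2, hU2, u2⟩ := AS7_small (A := (1 - ξ) / 2 + (5 / 6 + ε))
    (B := (1 - ξ) + 7 / 12) (by rw [hεdef]; linarith) (C6 * CF) hcc
  obtain ⟨U3, hU3, u3⟩ := AS7_small (A := ε + (1 + (1 - ξ) / 2 + ε))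
    (B := (1 - ξ) + 7 / 12) (by rw [hεdef]; linarith) ((1 + 2 / ε) * C3) hcc
  obtain ⟨U4, hU4, u4⟩ := AS7_small (A := (1 - ξ) + 1 / 2 + ε)
    (B := (1 - ξ) + 7 / 12) (by rw [hεdef]; linarith) C4 hcc
  refine ⟨‖z‖ / 2 * c5 / 2, max 2 (max T1 (max T3 (max T4 (max T5 (max U1 (max U2 (max U3
    (max U4 ((2 : ℝ) ^ (1 / η)))))))))), by positivity, le_trans (by norm_num) (le_max_left _ _), ?_⟩
  intro T s hT hs
  simp only [max_le_iff] at hT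
  obtain ⟨hTa, hTb, hTc, hTd, hTe, hTf, hTg, hTh, hTi, hTj⟩ := hT
  have hT1' : 1 ≤ T := by linarith
  have hTp : 0 < T := by linarith
  have hs1 : |s| ≤ 1 := by rcases hs with rfl | rfl <;> simp
  obtain ⟨hX1, hX2⟩ := AS3_X hT1' hξ hξ'
  set X := T ^ (1 - ξ) with hX
  have hle : T ≤ T + X := by linarith
  set M := ⌊T ^ η⌋₊ with hM
  have hTη : 2 ≤ T ^ η := by
    have h7 := Real.rpow_le_rpow (by positivity) hTj hη0.le
    rwa [← Real.rpow_mul (by norm_num), one_div_mul_cancel hη0.ne', Real.rpow_one] at h7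
  have hM1 : (M : ℝ) ≤ T ^ η := Nat.floor_le (by positivity)
  have hM2 : T ^ η / 2 ≤ M := by
    have h7 := Nat.lt_floor_add_one (T ^ η)
    rw [← hM] at h7
    linarith
  have hM3 : 1 ≤ M := by
    have : (1 : ℝ) ≤ M := by linarith
    exact_mod_cast this
  set K := K3 ρ κ₁ (arg z) κ₂ (arg (d 0)) s T X with hK
  have hKc : Continuous K := AS1_cont hρ T X s _ _ _ _
  have hKb : ∀ x, |K x| ≤ 4 := fun x => by
    obtain ⟨k1, k2⟩ := AS1_bd hρ hs1 κ₁ (arg z) κ₂ (arg (d 0)) T X x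
    rw [abs_of_nonneg k1]
    exact k2
  have hfm : AEStronglyMeasurable (errTerm a L) (volume.restrict (Ioc T (T + X))) := by
    have h7 := ((int_errTerm hf).1 (T + X) (by linarith)).1
    exact (h7.mono_set (Ioc_subset_Ioc_left hTp.le)).aestronglyMeasurable
  have hgm : AEStronglyMeasurable (errTerm b Lg) (volume.restrict (Ioc T (T + X))) := by
    have h7 := (errTerm3_int h (T + X) (by linarith)).1
    exact (h7.mono_set (Ioc_subset_Ioc_left hTp.le)).aestronglyMeasurable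
  have hfb' : ∀ x ∈ Ioc T (T + X), |errTerm a L x| ≤ Cf * (T + X) ^ (1 + 1 : ℝ) := by
    intro x hx
    refine (hfb x (by linarith [hx.1])).trans (mul_le_mul_of_nonneg_left ?_ hCf.le)
    exact Real.rpow_le_rpow (by linarith [hx.1]) hx.2 (by norm_num)
  have hgb' : ∀ x ∈ Ioc T (T + X), |errTerm b Lg x| ≤ Cg * (T + X) ^ (1 + 1 : ℝ) := by
    intro x hx
    refine (hgb x (by linarith [hx.1])).trans (mul_le_mul_of_nonneg_left ?_ hCg.le)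
    exact Real.rpow_le_rpow (by linarith [hx.1]) hx.2 (by norm_num)
  obtain ⟨d1, d2, d3⟩ := AS7_dec hT1' hle hfm hgm hfb' hgb' hKc hKb a κ₁ L0 c0 M
  rw [← hz] at d3
  -- the tail
  have b1 : |∫ x in T..(T + X), (errTerm a L x - Etr a κ₁ L0 c0 M x) * errTerm b Lg x * K x| ≤
      C6 * √Ct * T ^ (((1 - ξ) + 1 / 2 - η / 2 + ε) / 2 + (5 / 6 + ε)) := by
    have h7 := hcs T s (arg z) (arg (d 0)) (Ct * T ^ ((1 - ξ) + 1 / 2 - η / 2 + ε))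
      (fun x => errTerm a L x - Etr a κ₁ L0 c0 M x) hT1' hs1 (by positivity) d2 d1
      (ht T M hTb hM2 hM1)
    refine h7.trans (le_of_eq ?_)
    rw [Real.sqrt_mul hCt.le, Real.rpow_add hTp (((1 - ξ) + 1 / 2 - η / 2 + ε) / 2),
      Real.sqrt_eq_rpow (T ^ ((1 - ξ) + 1 / 2 - η / 2 + ε)), ← Real.rpow_mul hTp.le]
    have e8 : ((1 - ξ) + 1 / 2 - η / 2 + ε) * (1 / 2) = ((1 - ξ) + 1 / 2 - η / 2 + ε) / 2 := by
      ring
    rw [e8]
    ring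
  -- the secondary terms
  have b2 : |∫ x in T..(T + X), AS7_F2 a κ₁ L0 c0 M x * errTerm b Lg x * K x| ≤
      C6 * CF * T ^ ((1 - ξ) / 2 + (5 / 6 + ε)) := by
    have hc : ContinuousOn (AS7_F2 a κ₁ L0 c0 M) (Icc T (T + X)) :=
      (AS7_F2_cont a κ₁ L0 c0 M).mono fun x hx => lt_of_lt_of_le hTp hx.1
    have hi : IntervalIntegrable (fun x => AS7_F2 a κ₁ L0 c0 M x ^ 2) volume T (T + X) := by
      refine ContinuousOn.intervalIntegrable ?_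
      rw [uIcc_of_le hle]
      exact hc.pow 2
    have hG : ∫ x in T..(T + X), AS7_F2 a κ₁ L0 c0 M x ^ 2 ≤ CF ^ 2 * T ^ (1 - ξ) := by
      have h8 : ∫ x in T..(T + X), AS7_F2 a κ₁ L0 c0 M x ^ 2 ≤ ∫ _ in T..(T + X), CF ^ 2 := by
        refine intervalIntegral.integral_mono_on hle hi (continuous_const.intervalIntegrable _ _) ?_
        intro x hx
        have h9 := hF2 M x (by linarith [hx.1])
        rw [← sq_abs]
        exact pow_le_pow_left₀ (abs_nonneg _) h9 2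
      rw [intervalIntegral.integral_const, smul_eq_mul] at h8
      refine h8.trans (le_of_eq ?_)
      rw [← hX]
      ring
    have h7 := hcs T s (arg z) (arg (d 0)) (CF ^ 2 * T ^ (1 - ξ))
      (AS7_F2 a κ₁ L0 c0 M) hT1' hs1 (by positivity)
      ((hc.mono Ioc_subset_Icc_self).aestronglyMeasurable measurableSet_Ioc) hi hG
    refine h7.trans (le_of_eq ?_)
    rw [Real.sqrt_mul (by positivity), Real.sqrt_sq hCF.le, Real.rpow_add hTp ((1 - ξ) / 2),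
      Real.sqrt_eq_rpow (T ^ (1 - ξ)), ← Real.rpow_mul hTp.le]
    have e8 : (1 - ξ) * (1 / 2) = (1 - ξ) / 2 := by ring
    rw [e8]
    ring
  -- the terms
  set J : ℕ → ℝ := fun m => ∫ x in T..(T + X), errTerm b Lg x * (x ^ (1 / 4 : ℝ) *
    (z * e (2 * √(κ₁ * m * x))).re * K x) with hJ
  have hsplit : ∑ m ∈ Finset.Icc 1 M, a m * (m : ℝ) ^ (-(3 / 4) : ℝ) * J m =
      J 1 + ∑ m ∈ Finset.Icc 2 M, a m * (m : ℝ) ^ (-(3 / 4) : ℝ) * J m := by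
    rw [← Finset.sum_Ioc_add_eq_sum_Icc hM3]
    have e8 : Finset.Ioc 1 M = Finset.Icc 2 M := by
      ext m
      simp only [Finset.mem_Ioc, Finset.mem_Icc]
      omega
    rw [e8, a_one hf]
    simp
    ring
  have b3 : |∑ m ∈ Finset.Icc 2 M, a m * (m : ℝ) ^ (-(3 / 4) : ℝ) * J m| ≤
      (1 + 2 / ε) * C3 * T ^ (ε + (1 + (1 - ξ) / 2 + ε)) := by
    have hJi : ∀ m : ℕ, IntervalIntegrable (fun x => errTerm b Lg x * (x ^ (1 / 4 : ℝ) *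
        (z * e (2 * √(κ₁ * m * x))).re * K x)) volume T (T + X) := by
      intro m
      have c1 : Continuous fun x : ℝ => x ^ (1 / 4 : ℝ) :=
        continuous_id.rpow_const fun x => Or.inr (by norm_num)
      have c2 : Continuous fun x : ℝ => e (2 * √(κ₁ * m * x)) := by
        unfold e
        exact Complex.continuous_exp.comp (continuous_const.mul (Complex.continuous_ofReal.comp
          (continuous_const.mul (continuous_const.mul continuous_id).sqrt)))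
      have c3 : Continuous fun x : ℝ => x ^ (1 / 4 : ℝ) * (z * e (2 * √(κ₁ * m * x))).re * K x :=
        (c1.mul (Complex.continuous_re.comp (continuous_const.mul c2))).mul hKc
      exact (AS7_bi hle hgm hgb').mul_continuousOn c3.continuousOn
    have hblock : ∀ M1 M' : ℕ, ∑ m ∈ Finset.Ioc M1 M', a m * (m : ℝ) ^ (-(3 / 4) : ℝ) * J m =
        ∫ x in T..(T + X), errTerm b Lg x * (Pb a κ₁ z M1 M' x * K x) := by
      intro M1 M'
      rw [hJ]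
      simp only [← intervalIntegral.integral_const_mul]
      rw [← intervalIntegral.integral_finsetSum fun m _ => (hJi m).const_mul _]
      refine intervalIntegral.integral_congr fun x _ => ?_
      simp only [Pb]
      rw [Finset.sum_mul, Finset.mul_sum]
      refine Finset.sum_congr rfl fun m _ => ?_
      ring
    have hind : ∀ n : ℕ, |∑ m ∈ Finset.Ioc 1 (min (2 ^ n) M), a m * (m : ℝ) ^ (-(3 / 4) : ℝ) * J m| ≤
        n * (C3 * T ^ (1 + (1 - ξ) / 2 + ε)) := by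
      intro n
      induction n with
      | zero =>
        have e8 : Finset.Ioc 1 (min (2 ^ 0) M) = ∅ := by
          rw [pow_zero, Finset.Ioc_eq_empty]
          have := min_le_left 1 M
          omega
        rw [e8]
        simp
      | succ n ih =>
        have g1 : 1 ≤ min (2 ^ n) M := le_min (Nat.one_le_two_pow) hM3
        have g2 : min (2 ^ n) M ≤ min (2 ^ (n + 1)) M :=
          min_le_min_right _ (Nat.pow_le_pow_right (by norm_num) (by omega))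
        have g3 : min (2 ^ (n + 1)) M ≤ 2 * min (2 ^ n) M := by
          rcases le_total (2 ^ n) M with g | g
          · rw [min_eq_left g, pow_succ]
            have := min_le_left (2 ^ n * 2) M
            omega
          · rw [min_eq_right g]
            have := min_le_right (2 ^ (n + 1)) M
            omega
        have g4 : ((min (2 ^ (n + 1)) M : ℕ) : ℝ) ≤ T ^ (1 / 3 : ℝ) := by
          refine le_trans ?_ hM1
          exact_mod_cast min_le_right (2 ^ (n + 1)) M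
        have g5 := h3 T s (arg z) (arg (d 0)) _ _ hTc hs1 g1 g2 g3 g4
        rw [← hX, ← hK, ← hblock] at g5
        have g6 : Finset.Ioc 1 (min (2 ^ (n + 1)) M) = Finset.Ioc 1 (min (2 ^ n) M) ∪
            Finset.Ioc (min (2 ^ n) M) (min (2 ^ (n + 1)) M) := by
          rw [Finset.Ioc_union_Ioc_eq_Ioc g1 g2]
        have g7 : Disjoint (Finset.Ioc 1 (min (2 ^ n) M))
            (Finset.Ioc (min (2 ^ n) M) (min (2 ^ (n + 1)) M)) := by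
          rw [Finset.disjoint_left]
          intro m hm1 hm2
          rw [Finset.mem_Ioc] at hm1 hm2
          omega
        rw [g6, Finset.sum_union g7]
        refine (abs_add_le _ _).trans ((add_le_add ih g5).trans (le_of_eq ?_))
        push_cast
        ring
    obtain ⟨n, hn⟩ : ∃ n : ℕ, n = Nat.log 2 M + 1 := ⟨_, rfl⟩
    have hn1 : M ≤ 2 ^ n := by
      rw [hn]
      exact (Nat.lt_pow_succ_log_self (by norm_num) M).le
    have hn2 : (n : ℝ) ≤ (1 + 2 / ε) * T ^ ε := by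
      have g1 : (2 : ℝ) ^ (Nat.log 2 M) ≤ M := by
        exact_mod_cast Nat.pow_log_le_self 2 (by omega)
      have g2 : (Nat.log 2 M : ℝ) * Real.log 2 ≤ Real.log M := by
        rw [← Real.log_pow]
        exact Real.log_le_log (by positivity) g1
      have hMp : (0 : ℝ) < M := by exact_mod_cast (by omega : 0 < M)
      have g3 : Real.log M ≤ Real.log T := by
        refine Real.log_le_log hMp (hM1.trans ?_)
        have : T ^ η ≤ T ^ (1 : ℝ) := Real.rpow_le_rpow_of_exponent_le hT1' (by rw [hη]; norm_num)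
        rwa [Real.rpow_one] at this
      have g4 : Real.log T ≤ T ^ ε / ε := Real.log_le_rpow_div hTp.le hε
      have g5 := Real.log_two_gt_d9
      have g6 : (0 : ℝ) ≤ (Nat.log 2 M : ℝ) := Nat.cast_nonneg _
      have g7 : (Nat.log 2 M : ℝ) ≤ 2 * (T ^ ε / ε) := by nlinarith
      have g8 : 1 ≤ T ^ ε := Real.one_le_rpow hT1' hε.le
      rw [hn]
      push_cast
      have g9 : (1 + 2 / ε) * T ^ ε = T ^ ε + 2 * (T ^ ε / ε) := by ring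
      rw [g9]
      linarith
    have e8 : Finset.Icc 2 M = Finset.Ioc 1 (min (2 ^ n) M) := by
      rw [min_eq_right hn1]
      ext m
      simp only [Finset.mem_Ioc, Finset.mem_Icc]
      omega
    rw [e8]
    refine (hind n).trans ?_
    rw [Real.rpow_add hTp ε]
    calc (n : ℝ) * (C3 * T ^ (1 + (1 - ξ) / 2 + ε)) ≤
        ((1 + 2 / ε) * T ^ ε) * (C3 * T ^ (1 + (1 - ξ) / 2 + ε)) :=
          mul_le_mul_of_nonneg_right hn2 (by positivity)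
      _ = _ := by ring
  have b4 := h4 T s (arg (d 0)) hTd hs1
  have b5 := h5 T s hTe hs
  have hJ1 : J 1 = ∫ x in T..(T + X), errTerm b Lg x * (x ^ (1 / 4 : ℝ) *
      (z * e (2 * √(κ₁ * x))).re * K x) := by
    rw [hJ]
    simp
  rw [← hJ1] at b4
  set V := ∫ x in T..(T + X), errTerm b Lg x * (x ^ (1 / 4 : ℝ) *
          (w1 ρ T X x * (1 + s * Real.cos (6 * π * (κ₂ * x) ^ (1 / 3 : ℝ) + arg (d 0))))) with hV
  rw [d3]
  have v1 := u1 T hTf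
  have v2 := u2 T hTg
  have v3 := u3 T hTh
  have v4 := u4 T hTi
  set P := T ^ ((1 - ξ) + 7 / 12) with hP
  have hJs : ∑ m ∈ Finset.Icc 1 M, a m * (m : ℝ) ^ (-(3 / 4) : ℝ) *
      ∫ x in T..(T + X), errTerm b Lg x * (x ^ (1 / 4 : ℝ) *
        (z * e (2 * √(κ₁ * m * x))).re * K x) =
      J 1 + ∑ m ∈ Finset.Icc 2 M, a m * (m : ℝ) ^ (-(3 / 4) : ℝ) * J m := hsplit
  rw [hJs]
  set I1 := ∫ x in T..(T + X), (errTerm a L x - Etr a κ₁ L0 c0 M x) * errTerm b Lg x * K x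
  set I2 := ∫ x in T..(T + X), AS7_F2 a κ₁ L0 c0 M x * errTerm b Lg x * K x
  set I3 := ∑ m ∈ Finset.Icc 2 M, a m * (m : ℝ) ^ (-(3 / 4) : ℝ) * J m
  have hmain : ‖z‖ / 2 * c5 * P ≤ s * (‖z‖ / 2 * V) := by
    have h7 : ‖z‖ / 2 * (c5 * P) ≤ ‖z‖ / 2 * (s * V) :=
      mul_le_mul_of_nonneg_left b5 (by positivity)
    linarith
  have key : |s * (I1 + I2 + (J 1 + I3)) - s * (‖z‖ / 2 * V)| ≤ 4 * (‖z‖ / 2 * c5 / 8 * P) := by
    have e1 : s * (I1 + I2 + (J 1 + I3)) - s * (‖z‖ / 2 * V) =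
        s * (I1 + I2 + (J 1 - ‖z‖ / 2 * V) + I3) := by ring
    rw [e1, abs_mul]
    have t1 := abs_add_le (I1 + I2 + (J 1 - ‖z‖ / 2 * V)) I3
    have t2 := abs_add_le (I1 + I2) (J 1 - ‖z‖ / 2 * V)
    have t3 := abs_add_le I1 I2
    calc |s| * |I1 + I2 + (J 1 - ‖z‖ / 2 * V) + I3| ≤
          1 * |I1 + I2 + (J 1 - ‖z‖ / 2 * V) + I3| := mul_le_mul_of_nonneg_right hs1 (abs_nonneg _)
      _ ≤ 4 * (‖z‖ / 2 * c5 / 8 * P) := by
          rw [one_mul]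
          linarith
  have k2 := (abs_le.1 key).1
  linarith
--END AS7

--BEGIN AS8
private theorem AS8_rpow {T : ℝ} (hT : 0 < T) (A B : ℝ) : T ^ (A + B) = T ^ A * T ^ B :=
  Real.rpow_add hT A B

/-- **AS8.** The theorem: all pairs of degrees 2 and 3. -/
theorem main3 (hf : RealSelberg a L 2) (h : RealSelberg b Lg 3) {δ : ℝ} (hδ : 5 / 6 < δ)
    (hδ' : δ < 1) : ∃ c T0 : ℝ, 0 < c ∧ ∀ T : ℝ, T0 ≤ T →
      (∃ x ∈ Icc T (T + T ^ δ), c * T ^ (7 / 12 : ℝ) < errTerm a L x * errTerm b Lg x) ∧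
      ∃ x ∈ Icc T (T + T ^ δ), errTerm a L x * errTerm b Lg x < -(c * T ^ (7 / 12 : ℝ)) := by
  obtain ⟨κ₁, c0, L0, hκ, hc0, hV⟩ := voronoi hf
  have hv : Vor a L κ₁ L0 c0 := ⟨hκ, hc0, hV⟩
  obtain ⟨κ₂, C0, c, d, S, w1', w2, w3, w4, w5, w6, w7, w8⟩ := weak_voronoi h
  have hw : Wk b Lg κ₂ C0 c d S := ⟨w1', w2, w3, w4, w5, w6, w7, w8⟩
  obtain ⟨ρ, hρ⟩ := exists_bump (a := 1 / 4) (b := 3 / 8) (c := 5 / 8) (d := 3 / 4) (by norm_num)
    (by norm_num) (by norm_num)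
  set ξ := 1 - δ with hξd
  have hξ : 0 < ξ := by rw [hξd]; linarith
  have hξ' : ξ < 1 / 6 := by rw [hξd]; linarith
  have hδξ : 1 - ξ = δ := by rw [hξd]; ring
  obtain ⟨c1, T1, hc1, hT1, h1⟩ := Q3_lower hf hv h hw hρ hξ hξ'
  rw [hδξ] at h1
  have main : ∀ T : ℝ, T1 ≤ T → ∀ s : ℝ, (s = 1 ∨ s = -1) →
      ∃ x ∈ Icc T (T + T ^ δ), c1 / 8 * T ^ (7 / 12 : ℝ) < s * (errTerm a L x * errTerm b Lg x) := by
    intro T hT s hs
    have hT1' : 1 ≤ T := hT1.trans hT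
    have hT0 : 0 < T := by linarith
    have hs1 : |s| ≤ 1 := by rcases hs with rfl | rfl <;> simp
    by_contra hcon
    push Not at hcon
    have b1 := h1 T s hT hs
    have hX0 : 0 < T ^ δ := by positivity
    have hle : T ≤ T + T ^ δ := by linarith
    obtain ⟨-, k2, -, k4⟩ := K3_facts hρ hT1' hX0 hs1 κ₁ (arg (2 * π * I * √κ₁ * c0)) κ₂ (arg (d 0))
    have hKc := AS1_cont hρ T (T ^ δ) s κ₁ (arg (2 * π * I * √κ₁ * c0)) κ₂ (arg (d 0))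
    set K := K3 ρ κ₁ (arg (2 * π * I * √κ₁ * c0)) κ₂ (arg (d 0)) s T (T ^ δ) with hK
    have hP : 0 < T ^ (7 / 12 : ℝ) := by positivity
    have hPP : T ^ (δ + 7 / 12) = T ^ δ * T ^ (7 / 12 : ℝ) := AS8_rpow hT0 _ _
    rw [hPP] at b1
    by_cases hint : IntervalIntegrable (fun x => errTerm a L x * errTerm b Lg x * K x) volume
        T (T + T ^ δ)
    · have hle2 : s * ∫ x in T..(T + T ^ δ), errTerm a L x * errTerm b Lg x * K x ≤
          ∫ x in T..(T + T ^ δ), c1 / 8 * T ^ (7 / 12 : ℝ) * K x := by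
        rw [← intervalIntegral.integral_const_mul]
        refine intervalIntegral.integral_mono_on hle (hint.const_mul s)
          ((hKc.intervalIntegrable _ _).const_mul _) ?_
        intro x hx
        have f1 := hcon x hx
        have f2 := mul_le_mul_of_nonneg_right f1 (k2 x).1
        linarith
      rw [intervalIntegral.integral_const_mul] at hle2
      have g1 : c1 / 8 * T ^ (7 / 12 : ℝ) * ∫ x in T..(T + T ^ δ), K x ≤
          c1 / 8 * T ^ (7 / 12 : ℝ) * (4 * T ^ δ) := mul_le_mul_of_nonneg_left k4 (by positivity)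
      have g2 : 0 < c1 * (T ^ δ * T ^ (7 / 12 : ℝ)) := by positivity
      linarith
    · rw [intervalIntegral.integral_undef hint, mul_zero] at b1
      have : 0 < c1 * (T ^ δ * T ^ (7 / 12 : ℝ)) := by positivity
      linarith
  refine ⟨c1 / 8, T1, by positivity, fun T hT => ⟨?_, ?_⟩⟩
  · obtain ⟨x, hx, hx2⟩ := main T hT 1 (Or.inl rfl)
    exact ⟨x, hx, by linarith⟩
  · obtain ⟨x, hx, hx2⟩ := main T hT (-1) (Or.inr rfl)
    exact ⟨x, hx, by linarith⟩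
--END AS8

end Pool.Agent.PEt5
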