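import Pool.Agent.PEt5.OS

/-! Mean squares. -/

set_option autoImplicit false

open Complex MeasureTheory Set Filter Topology
open scoped Real ComplexConjugate ContDiff

namespace Pool.Agent.PEt5

open Pool.Agent.PEt Pool.Agent.PEt3

--BEGIN MS1
private theorem MS1_norm_e (x : ℝ) : ‖e x‖ = 1 := by
  unfold e
  rw [show (2 * π * I * x : ℂ) = ((2 * π * x : ℝ) : ℂ) * I by push_cast; ring]
  exact Complex.norm_exp_ofReal_mul_I _

private theorem MS1_cont_e : Continuous e := by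
  unfold e
  fun_prop

private theorem MS1_e_sub (x y : ℝ) : e x * conj (e y) = e (x - y) := by
  unfold e
  rw [← Complex.exp_conj, ← Complex.exp_add]
  congr 1
  simp only [map_mul, Complex.conj_ofReal, Complex.conj_I, Complex.conj_ofNat]
  push_cast
  ring

private theorem MS1_inv (B : ℕ) : ∑ j ∈ Finset.Icc 1 B, 1 / (j : ℝ) ≤ 1 + Real.log B := by
  have h1 := harmonic_le_one_add_log B
  rw [harmonic_eq_sum_Icc] at h1
  push_cast at h1
  simpa only [one_div] using h1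

private theorem MS1_harm (B b : ℕ) (hb : b ∈ Finset.Ico B (2 * B)) :
    ∑ b' ∈ (Finset.Ico B (2 * B)).erase b, 1 / |(b : ℝ) - b'| ≤ 2 * (1 + Real.log B) := by
  rw [Finset.mem_Ico] at hb
  rw [← Finset.sum_filter_add_sum_filter_not _ (fun b' : ℕ => b' < b)]
  have h1 : ∑ b' ∈ ((Finset.Ico B (2 * B)).erase b).filter (fun b' : ℕ => b' < b),
      1 / |(b : ℝ) - b'| ≤ 1 + Real.log B := by
    refine le_trans ?_ (MS1_inv B)
    have h2 : ∑ b' ∈ ((Finset.Ico B (2 * B)).erase b).filter (fun b' : ℕ => b' < b),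
        1 / |(b : ℝ) - b'| = ∑ b' ∈ ((Finset.Ico B (2 * B)).erase b).filter
          (fun b' : ℕ => b' < b), 1 / ((b - b' : ℕ) : ℝ) := by
      refine Finset.sum_congr rfl fun b' hb' => ?_
      rw [Finset.mem_filter] at hb'
      rw [Nat.cast_sub hb'.2.le, abs_of_nonneg]
      exact sub_nonneg.2 (by exact_mod_cast hb'.2.le)
    rw [h2, ← Finset.sum_image (f := fun j : ℕ => 1 / (j : ℝ)) (g := fun b' => b - b')]
    · apply Finset.sum_le_sum_of_subset_of_nonneg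
      · intro j hj
        rw [Finset.mem_image] at hj
        obtain ⟨b', hb', rfl⟩ := hj
        rw [Finset.mem_filter, Finset.mem_erase, Finset.mem_Ico] at hb'
        rw [Finset.mem_Icc]
        omega
      · intro j _ _
        positivity
    · intro x hx y hy hxy
      have hx' := (Finset.mem_filter.1 hx).2
      have hy' := (Finset.mem_filter.1 hy).2
      have hxy' : b - x = b - y := hxy
      omega
  have h1' : ∑ b' ∈ ((Finset.Ico B (2 * B)).erase b).filter (fun b' : ℕ => ¬ b' < b),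
      1 / |(b : ℝ) - b'| ≤ 1 + Real.log B := by
    refine le_trans ?_ (MS1_inv B)
    have h2 : ∑ b' ∈ ((Finset.Ico B (2 * B)).erase b).filter (fun b' : ℕ => ¬ b' < b),
        1 / |(b : ℝ) - b'| = ∑ b' ∈ ((Finset.Ico B (2 * B)).erase b).filter
          (fun b' : ℕ => ¬ b' < b), 1 / ((b' - b : ℕ) : ℝ) := by
      refine Finset.sum_congr rfl fun b' hb' => ?_
      rw [Finset.mem_filter, not_lt] at hb'
      rw [Nat.cast_sub hb'.2, abs_sub_comm, abs_of_nonneg]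
      exact sub_nonneg.2 (by exact_mod_cast hb'.2)
    rw [h2, ← Finset.sum_image (f := fun j : ℕ => 1 / (j : ℝ)) (g := fun b' => b' - b)]
    · apply Finset.sum_le_sum_of_subset_of_nonneg
      · intro j hj
        rw [Finset.mem_image] at hj
        obtain ⟨b', hb', rfl⟩ := hj
        rw [Finset.mem_filter, Finset.mem_erase, Finset.mem_Ico] at hb'
        rw [Finset.mem_Icc]
        omega
      · intro j _ _
        positivity
    · intro x hx y hy hxy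
      have hx' := (Finset.mem_filter.1 hx).2
      have hy' := (Finset.mem_filter.1 hy).2
      have hxy' : x - b = y - b := hxy
      omega
  linarith

/-- Schur's test. -/
private theorem MS1_schur (s : Finset ℕ) (c : ℕ → ℝ) (K : ℕ → ℕ → ℝ) (R : ℝ)
    (hK0 : ∀ m n, 0 ≤ K m n) (hKs : ∀ m n, K m n = K n m)
    (hR : ∀ m ∈ s, ∑ n ∈ s, K m n ≤ R) :
    ∑ m ∈ s, ∑ n ∈ s, |c m| * |c n| * K m n ≤ (∑ m ∈ s, c m ^ 2) * R := by
  have h1 : ∀ m n, |c m| * |c n| * K m n ≤ (c m ^ 2 * K m n + c n ^ 2 * K m n) / 2 := by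
    intro m n
    have h2 : |c m| * |c n| ≤ (c m ^ 2 + c n ^ 2) / 2 := by
      have := sq_nonneg (|c m| - |c n|)
      rw [sub_sq, sq_abs, sq_abs] at this
      linarith
    have h3 := mul_le_mul_of_nonneg_right h2 (hK0 m n)
    linarith
  have h4 : ∑ m ∈ s, ∑ n ∈ s, c m ^ 2 * K m n ≤ (∑ m ∈ s, c m ^ 2) * R := by
    rw [Finset.sum_mul]
    refine Finset.sum_le_sum fun m hm => ?_
    rw [← Finset.mul_sum]
    exact mul_le_mul_of_nonneg_left (hR m hm) (sq_nonneg _)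
  have h5 : ∑ m ∈ s, ∑ n ∈ s, c n ^ 2 * K m n = ∑ m ∈ s, ∑ n ∈ s, c m ^ 2 * K m n := by
    rw [Finset.sum_comm]
    refine Finset.sum_congr rfl fun m _ => Finset.sum_congr rfl fun n _ => ?_
    rw [hKs]
  calc ∑ m ∈ s, ∑ n ∈ s, |c m| * |c n| * K m n
      ≤ ∑ m ∈ s, ∑ n ∈ s, (c m ^ 2 * K m n + c n ^ 2 * K m n) / 2 :=
        Finset.sum_le_sum fun m _ => Finset.sum_le_sum fun n _ => h1 m n
    _ = ((∑ m ∈ s, ∑ n ∈ s, c m ^ 2 * K m n) + ∑ m ∈ s, ∑ n ∈ s, c n ^ 2 * K m n) / 2 := by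
        simp only [← Finset.sum_div, Finset.sum_add_distrib]
    _ ≤ (∑ m ∈ s, c m ^ 2) * R := by
        rw [h5]
        linarith

/-- The off diagonal integrals. -/
private theorem MS1_off {α β : ℝ} (hα : 0 < α) (hα' : α < 1) (hβ : 0 < β) {T p q : ℝ} {N m n : ℕ}
    (hT : 1 ≤ T) (hp : T ≤ p) (hpq : p ≤ q) (hq : q ≤ 8 * T) (hm : m ∈ Finset.Ico N (2 * N))
    (hn : n ∈ Finset.Ico N (2 * N)) (hmn : n < m) :
    ‖∫ x in p..q, e (β * (m * x) ^ α - β * (n * x) ^ α)‖ ≤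
      9 * 16 / (α ^ 2 * β) * T ^ (1 - α) * (N : ℝ) ^ (1 - α) / |(m : ℝ) - n| := by
  rw [Finset.mem_Ico] at hm hn
  have hN : 0 < N := by omega
  have hN0 : (0 : ℝ) < N := by exact_mod_cast hN
  have hT0 : 0 < T := by linarith
  have hn0 : (0 : ℝ) < n := by
    have : 0 < n := by omega
    exact_mod_cast this
  have hm0 : (0 : ℝ) < m := by
    have : 0 < m := by omega
    exact_mod_cast this
  have hmn' : (n : ℝ) < m := by exact_mod_cast hmn
  have hmN : (m : ℝ) ≤ 2 * N := by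
    have : m ≤ 2 * N := by omega
    exact_mod_cast this
  have hd : 0 < (m : ℝ) - n := sub_pos.2 hmn'
  set D : ℝ := (m : ℝ) ^ α - (n : ℝ) ^ α with hD
  -- lower bound for D
  have hDl : α * (2 * N : ℝ) ^ (α - 1) * ((m : ℝ) - n) ≤ D := by
    obtain ⟨ξ, hξ, hξe⟩ := exists_hasDerivAt_eq_slope (fun x : ℝ => x ^ α)
      (fun x => α * x ^ (α - 1)) hmn' (fun x hx => (Real.continuousAt_rpow_const x α
        (Or.inl (by linarith [hx.1]))).continuousWithinAt)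
      (fun x hx => Real.hasDerivAt_rpow_const (Or.inl (by linarith [hx.1])))
    have h1 : D = α * ξ ^ (α - 1) * ((m : ℝ) - n) := by
      rw [hξe, hD]
      field_simp
    rw [h1]
    have hξ0 : 0 < ξ := hn0.trans hξ.1
    have h2 : (2 * N : ℝ) ^ (α - 1) ≤ ξ ^ (α - 1) :=
      Real.rpow_le_rpow_of_nonpos hξ0 (by linarith [hξ.2]) (by linarith)
    gcongr
  have hNr : 0 < (2 * N : ℝ) ^ (α - 1) := by positivity
  have hD0 : 0 < D := lt_of_lt_of_le (by positivity) hDl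
  have hx0 : ∀ x ∈ Icc p q, 0 < x := fun x hx => by linarith [hx.1]
  -- the phase
  have hph : ∀ x ∈ Icc p q, β * (m * x) ^ α - β * (n * x) ^ α = β * D * x ^ α := by
    intro x hx
    have := hx0 x hx
    rw [Real.mul_rpow hm0.le this.le, Real.mul_rpow hn0.le this.le, hD]
    ring
  have hint : ∫ x in p..q, e (β * (m * x) ^ α - β * (n * x) ^ α) =
      ∫ x in p..q, (1 : ℂ) * e (β * D * x ^ α) := by
    refine intervalIntegral.integral_congr fun x hx => ?_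
    rw [uIcc_of_le hpq] at hx
    rw [hph x hx, one_mul]
  rw [hint]
  have hqα : (8 * T) ^ (α - 1) ≤ (8 * T : ℝ) ^ (α - 1) := le_rfl
  set μ : ℝ := β * D * α * (8 * T) ^ (α - 1) with hμ
  have h8 : 0 < (8 * T : ℝ) ^ (α - 1) := by positivity
  have hμ0 : 0 < μ := by positivity
  have hfd := first_deriv (p := p) (q := q) hpq (g := fun _ => (1 : ℂ)) (g' := fun _ => 0)
    (h := fun x => β * D * x ^ α) (h' := fun x => β * D * (α * x ^ (α - 1)))
    (h'' := fun x => β * D * (α * ((α - 1) * x ^ (α - 1 - 1)))) (S := 1) (V := 0) (μ := μ)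
    (H := 1 / T) (fun u _ => hasDerivAt_const _ _) continuousOn_const
    (fun u hu => (Real.hasDerivAt_rpow_const (Or.inl (hx0 u hu).ne')).const_mul _)
    (fun u hu => ((Real.hasDerivAt_rpow_const (Or.inl (hx0 u hu).ne')).const_mul α).const_mul _)
    (fun u hu => by
      have h1 := (Real.continuousAt_rpow_const u (α - 1 - 1) (Or.inl (hx0 u hu).ne'))
      exact (((h1.const_mul (α - 1)).const_mul α).const_mul (β * D)).continuousWithinAt)
    hμ0 (fun u hu => by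
      have hu0 := hx0 u hu
      have h1 : (8 * T : ℝ) ^ (α - 1) ≤ u ^ (α - 1) :=
        Real.rpow_le_rpow_of_nonpos hu0 (by linarith [hu.2]) (by linarith)
      have h2 : 0 < u ^ (α - 1) := Real.rpow_pos_of_pos hu0 _
      rw [abs_of_pos (by positivity), hμ]
      have : β * D * α * (8 * T) ^ (α - 1) ≤ β * D * α * u ^ (α - 1) :=
        mul_le_mul_of_nonneg_left h1 (by positivity)
      linarith)
    (fun u hu => by
      have hu0 := hx0 u hu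
      have h2 : 0 < u ^ (α - 1) := Real.rpow_pos_of_pos hu0 _
      have h3 : u ^ (α - 1 - 1) = u ^ (α - 1) / u := Real.rpow_sub_one hu0.ne' _
      rw [h3, abs_of_pos (show 0 < β * D * (α * u ^ (α - 1)) by positivity)]
      have h4 : β * D * (α * ((α - 1) * (u ^ (α - 1) / u))) =
          -((1 - α) / u * (β * D * (α * u ^ (α - 1)))) := by ring
      have h1α : 0 < 1 - α := by linarith
      rw [h4, abs_neg, abs_of_pos (by positivity)]
      refine mul_le_mul_of_nonneg_right ?_ (by positivity)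
      rw [div_le_div_iff₀ hu0 hT0]
      nlinarith [hu.1])
    (fun u _ => by simp) (fun u _ => by simp)
  refine hfd.trans ?_
  have h9 : (2 * 1 + (q - p) * (0 + 1 * (1 / T))) ≤ 9 := by
    have : (q - p) * (1 / T) ≤ 7 := by
      rw [mul_one_div, div_le_iff₀ hT0]
      linarith
    linarith
  have h10 : (2 * 1 + (q - p) * (0 + 1 * (1 / T))) / μ ≤ 9 / μ :=
    div_le_div_of_nonneg_right h9 hμ0.le
  refine h10.trans ?_
  rw [abs_of_pos hd]
  have h11 : β * (α * (2 * N : ℝ) ^ (α - 1) * ((m : ℝ) - n)) * α * (8 * T) ^ (α - 1) ≤ μ := by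
    rw [hμ]
    gcongr
  have h12 : 9 / μ ≤ 9 / (β * (α * (2 * N : ℝ) ^ (α - 1) * ((m : ℝ) - n)) * α *
      (8 * T) ^ (α - 1)) := div_le_div_of_nonneg_left (by norm_num) (by positivity) h11
  refine h12.trans ?_
  have h13 : (2 * N : ℝ) ^ (α - 1) = ((2 : ℝ) ^ (1 - α))⁻¹ * ((N : ℝ) ^ (1 - α))⁻¹ := by
    rw [Real.mul_rpow (by norm_num) hN0.le, ← Real.rpow_neg (by norm_num), ← Real.rpow_neg hN0.le,
      neg_sub]
  have h14 : (8 * T : ℝ) ^ (α - 1) = ((8 : ℝ) ^ (1 - α))⁻¹ * (T ^ (1 - α))⁻¹ := by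
    rw [Real.mul_rpow (by norm_num) hT0.le, ← Real.rpow_neg (by norm_num), ← Real.rpow_neg hT0.le,
      neg_sub]
  rw [h13, h14]
  have h15 : (2 : ℝ) ^ (1 - α) ≤ 2 := by
    have := Real.rpow_le_rpow_of_exponent_le (x := 2) (by norm_num) (show 1 - α ≤ 1 by linarith)
    rwa [Real.rpow_one] at this
  have h16 : (8 : ℝ) ^ (1 - α) ≤ 8 := by
    have := Real.rpow_le_rpow_of_exponent_le (x := 8) (by norm_num) (show 1 - α ≤ 1 by linarith)
    rwa [Real.rpow_one] at this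
  have h17 : 0 < (2 : ℝ) ^ (1 - α) := by positivity
  have h18 : 0 < (8 : ℝ) ^ (1 - α) := by positivity
  have h19 : 0 < T ^ (1 - α) := by positivity
  have h20 : 0 < (N : ℝ) ^ (1 - α) := by positivity
  generalize (2 : ℝ) ^ (1 - α) = a2 at *
  generalize (8 : ℝ) ^ (1 - α) = a8 at *
  generalize T ^ (1 - α) = t at *
  generalize (N : ℝ) ^ (1 - α) = nn at *
  have h21 : 9 / (β * (α * (a2⁻¹ * nn⁻¹) * ((m : ℝ) - n)) * α * (a8⁻¹ * t⁻¹)) =
      9 * (a2 * a8) / (α ^ 2 * β) * t * nn / ((m : ℝ) - n) := by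
    field_simp
  rw [h21]
  have h22 : a2 * a8 ≤ 16 := by nlinarith
  gcongr

/-- **MS1.** The mean square over a dyadic block: for `m ≠ m'` the phase
`β (m^α - m'^α) x^α` has a monotone derivative `≫ |m-m'| (NT)^{α-1}` (first derivative test), and
`∑_{m ≠ m'} |c_m c_m'|/|m-m'| ≪ ∑ c_m² (1 + log N)`. -/
theorem dyadic_ms {α β : ℝ} (hα : 0 < α) (hα' : α < 1) (hβ : 0 < β) : ∃ C : ℝ, 0 < C ∧
    ∀ (T p q : ℝ) (N : ℕ) (c : ℕ → ℝ), 1 ≤ T → T ≤ p → p ≤ q → q ≤ 8 * T → 1 ≤ N →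
      ∫ x in p..q, ‖∑ m ∈ Finset.Ico N (2 * N), (c m : ℂ) * e (β * (m * x) ^ α)‖ ^ 2 ≤
        C * (∑ m ∈ Finset.Ico N (2 * N), c m ^ 2) *
          ((q - p) + T ^ (1 - α) * (N : ℝ) ^ (1 - α) * (1 + Real.log N)) := by
  refine ⟨max 1 (2 * (9 * 16 / (α ^ 2 * β))), lt_of_lt_of_le one_pos (le_max_left _ _), ?_⟩
  intro T p q N c hT hp hpq hq hN
  set C1 : ℝ := 9 * 16 / (α ^ 2 * β) with hC1
  have hC10 : 0 < C1 := by positivity
  have hT0 : 0 < T := by linarith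
  have hN0 : (0 : ℝ) < N := by exact_mod_cast hN
  set s := Finset.Ico N (2 * N) with hs
  set B : ℝ := C1 * T ^ (1 - α) * (N : ℝ) ^ (1 - α) with hB
  have hB0 : 0 ≤ B := by positivity
  let f : ℕ → ℝ → ℝ := fun m x => β * (m * x) ^ α
  let K : ℕ → ℕ → ℝ := fun m n => if m = n then (q - p) else B / |(m : ℝ) - n|
  have hfc : ∀ m, Continuous (f m) := fun m => by
    refine continuous_const.mul ?_
    exact (continuous_const.mul continuous_id).rpow_const fun x => Or.inr hα.le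
  have hJ : ∀ m ∈ s, ∀ n ∈ s, ‖∫ x in p..q, e (f m x - f n x)‖ ≤ K m n := by
    intro m hm n hn
    rcases lt_trichotomy n m with h | h | h
    · have h1 := MS1_off hα hα' hβ hT hp hpq hq hm hn h
      simp only [K, if_neg h.ne']
      exact h1
    · subst h
      simp only [K, if_true, sub_self]
      have h1 : e 0 = 1 := by
        unfold e
        simp
      rw [h1, intervalIntegral.integral_const, norm_smul, Real.norm_eq_abs,
        abs_of_nonneg (sub_nonneg.2 hpq), norm_one, mul_one]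
    · have h1 := MS1_off hα hα' hβ hT hp hpq hq hn hm h
      simp only [K, if_neg h.ne]
      rw [abs_sub_comm] at h1
      have h2 : ‖∫ x in p..q, e (f m x - f n x)‖ = ‖∫ x in p..q, e (f n x - f m x)‖ := by
        have h3 : ∀ x, e (f m x - f n x) = conj (e (f n x - f m x)) := by
          intro x
          rw [← MS1_e_sub, ← MS1_e_sub, map_mul, Complex.conj_conj, mul_comm]
        simp only [h3]
        rw [intervalIntegral.integral_of_le hpq, intervalIntegral.integral_of_le hpq,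
          integral_conj, RCLike.norm_conj]
      rw [h2]
      exact h1
  have hKs : ∀ m n, K m n = K n m := by
    intro m n
    simp only [K]
    by_cases h : m = n
    · subst h; rfl
    · rw [if_neg h, if_neg (Ne.symm h), abs_sub_comm]
  have hK0 : ∀ m n, 0 ≤ K m n := by
    intro m n
    simp only [K]
    split_ifs
    · exact sub_nonneg.2 hpq
    · positivity
  have hR : ∀ m ∈ s, ∑ n ∈ s, K m n ≤ (q - p) + B * (2 * (1 + Real.log N)) := by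
    intro m hm
    rw [← Finset.add_sum_erase s _ hm]
    simp only [K, if_true]
    have h1 : ∑ n ∈ s.erase m, (if m = n then (q - p) else B / |(m : ℝ) - n|) =
        B * ∑ n ∈ s.erase m, 1 / |(m : ℝ) - n| := by
      rw [Finset.mul_sum]
      refine Finset.sum_congr rfl fun n hn => ?_
      rw [if_neg (Finset.ne_of_mem_erase hn).symm, mul_one_div]
    rw [h1]
    have h2 := mul_le_mul_of_nonneg_left (MS1_harm N m hm) hB0
    linarith
  have hsch := MS1_schur s c K _ hK0 hKs hR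
  -- expand the square
  have hexp : ∀ x, ((‖∑ m ∈ s, (c m : ℂ) * e (f m x)‖ ^ 2 : ℝ) : ℂ) =
      ∑ m ∈ s, ∑ n ∈ s, (c m : ℂ) * (c n : ℂ) * e (f m x - f n x) := by
    intro x
    have h1 : ((‖∑ m ∈ s, (c m : ℂ) * e (f m x)‖ ^ 2 : ℝ) : ℂ) =
        (∑ m ∈ s, (c m : ℂ) * e (f m x)) * conj (∑ m ∈ s, (c m : ℂ) * e (f m x)) := by
      rw [Complex.mul_conj, Complex.normSq_eq_norm_sq]
    rw [h1, map_sum, Finset.sum_mul_sum]
    refine Finset.sum_congr rfl fun m _ => Finset.sum_congr rfl fun n _ => ?_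
    rw [← MS1_e_sub, map_mul, Complex.conj_ofReal]
    ring
  have hcc : ∀ m n, Continuous (fun x => (c m : ℂ) * (c n : ℂ) * e (f m x - f n x)) :=
    fun m n => continuous_const.mul (MS1_cont_e.comp ((hfc m).sub (hfc n)))
  have hci : ∀ m n, IntervalIntegrable (fun x => (c m : ℂ) * (c n : ℂ) * e (f m x - f n x))
      volume p q := fun m n => (hcc m n).intervalIntegrable _ _
  have h1 : ((∫ x in p..q, ‖∑ m ∈ s, (c m : ℂ) * e (f m x)‖ ^ 2 : ℝ) : ℂ) =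
      ∑ m ∈ s, ∑ n ∈ s, (c m : ℂ) * (c n : ℂ) * ∫ x in p..q, e (f m x - f n x) := by
    rw [← intervalIntegral.integral_ofReal]
    simp only [hexp]
    rw [intervalIntegral.integral_finset_sum fun m _ =>
      (continuous_finset_sum _ fun n _ => hcc m n).intervalIntegrable _ _]
    refine Finset.sum_congr rfl fun m _ => ?_
    rw [intervalIntegral.integral_finset_sum fun n _ => hci m n]
    refine Finset.sum_congr rfl fun n _ => ?_
    rw [intervalIntegral.integral_const_mul]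
  have h2 : ∫ x in p..q, ‖∑ m ∈ s, (c m : ℂ) * e (f m x)‖ ^ 2 ≤
      ∑ m ∈ s, ∑ n ∈ s, |c m| * |c n| * K m n := by
    have h3 : ‖((∫ x in p..q, ‖∑ m ∈ s, (c m : ℂ) * e (f m x)‖ ^ 2 : ℝ) : ℂ)‖ ≤
        ∑ m ∈ s, ∑ n ∈ s, |c m| * |c n| * K m n := by
      rw [h1]
      refine (norm_sum_le _ _).trans (Finset.sum_le_sum fun m hm => ?_)
      refine (norm_sum_le _ _).trans (Finset.sum_le_sum fun n hn => ?_)
      rw [norm_mul, norm_mul, Complex.norm_real, Complex.norm_real, Real.norm_eq_abs,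
        Real.norm_eq_abs]
      exact mul_le_mul_of_nonneg_left (hJ m hm n hn) (by positivity)
    rw [Complex.norm_real, Real.norm_eq_abs] at h3
    exact (le_abs_self _).trans h3
  refine (h2.trans hsch).trans ?_
  have hlog : 0 ≤ Real.log N := Real.log_natCast_nonneg N
  have hsum0 : 0 ≤ ∑ m ∈ s, c m ^ 2 := Finset.sum_nonneg fun m _ => sq_nonneg _
  have h4 : (q - p) + B * (2 * (1 + Real.log N)) ≤ max 1 (2 * C1) *
      ((q - p) + T ^ (1 - α) * (N : ℝ) ^ (1 - α) * (1 + Real.log N)) := by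
    rw [mul_add, hB]
    have h5 : (q - p) ≤ max 1 (2 * C1) * (q - p) :=
      le_mul_of_one_le_left (sub_nonneg.2 hpq) (le_max_left _ _)
    have h6 : 0 ≤ T ^ (1 - α) * (N : ℝ) ^ (1 - α) * (1 + Real.log N) := by positivity
    have h7 := mul_le_mul_of_nonneg_right (le_max_right 1 (2 * C1)) h6
    linarith
  calc (∑ m ∈ s, c m ^ 2) * ((q - p) + B * (2 * (1 + Real.log N)))
      ≤ (∑ m ∈ s, c m ^ 2) * (max 1 (2 * C1) *
        ((q - p) + T ^ (1 - α) * (N : ℝ) ^ (1 - α) * (1 + Real.log N))) :=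
        mul_le_mul_of_nonneg_left h4 hsum0
    _ = _ := by ring
--END MS1

--BEGIN MS2
private theorem MS2_blocks (M : ℕ) (f : ℕ → ℂ) (J : ℕ) :
    ∑ m ∈ Finset.Ico M (M * 2 ^ J), f m =
      ∑ j ∈ Finset.range J, ∑ m ∈ Finset.Ico (M * 2 ^ j) (2 * (M * 2 ^ j)), f m := by
  induction J with
  | zero => simp
  | succ J ih =>
    rw [Finset.sum_range_succ, ← ih]
    have h1 : M * 2 ^ (J + 1) = 2 * (M * 2 ^ J) := by ring
    rw [h1, Finset.sum_Ico_consecutive]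
    · exact Nat.le_mul_of_pos_right _ (by positivity)
    · omega

private theorem MS2_rpow_between {x M N k : ℝ} (hM : 0 < M) (h1 : M ≤ x) (h2 : x ≤ N) :
    x ^ k ≤ M ^ k + N ^ k := by
  have hN : 0 < N := by linarith
  have hx : 0 < x := by linarith
  rcases le_total k 0 with hk | hk
  · have h3 := Real.rpow_le_rpow_of_nonpos hM h1 hk
    have h4 : 0 ≤ N ^ k := by positivity
    linarith
  · have h3 := Real.rpow_le_rpow hx.le h2 hk
    have h4 : 0 ≤ M ^ k := by positivity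
    linarith

private theorem MS2_log {T ε : ℝ} (hT : 1 ≤ T) (hε : 0 < ε) :
    (1 + 8 * Real.log T) ^ 3 ≤ (1 + 24 / ε) ^ 3 * T ^ ε := by
  have hT0 : 0 < T := by linarith
  have h1 : Real.log T ≤ T ^ (ε / 3) / (ε / 3) := Real.log_le_rpow_div hT0.le (by positivity)
  have h2 : (1 : ℝ) ≤ T ^ (ε / 3) := Real.one_le_rpow hT (by positivity)
  have h3 : 0 ≤ Real.log T := Real.log_nonneg hT
  have h4 : 1 + 8 * Real.log T ≤ (1 + 24 / ε) * T ^ (ε / 3) := by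
    have h5 : T ^ (ε / 3) / (ε / 3) = 3 / ε * T ^ (ε / 3) := by
      field_simp
    rw [h5] at h1
    have h6 : (1 + 24 / ε) * T ^ (ε / 3) = T ^ (ε / 3) + 8 * (3 / ε * T ^ (ε / 3)) := by ring
    rw [h6]
    linarith
  have h7 : T ^ ε = (T ^ (ε / 3)) ^ 3 := by
    rw [← Real.rpow_natCast, ← Real.rpow_mul hT0.le]
    congr 1
    push_cast
    ring
  rw [h7, ← mul_pow]
  exact pow_le_pow_left₀ (by positivity) h4 3

/-- **MS2.** From dyadic blocks to a range `(M, N]`, `M ≥ 1`: coefficients `|c_m| ≤ W m^{-γ}`. -/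
theorem range_ms {α β γ ε : ℝ} (hα : 0 < α) (hα' : α < 1) (hβ : 0 < β) (hε : 0 < ε)
    (hγ : 1 / 2 < γ) : ∃ C : ℝ, 0 < C ∧
    ∀ (T p q W : ℝ) (M N : ℕ) (c : ℕ → ℝ), 1 ≤ T → T ≤ p → p ≤ q → q ≤ 8 * T → 1 ≤ M → M ≤ N →
      (N : ℝ) ≤ T ^ 4 → 0 ≤ W → (∀ m : ℕ, 1 ≤ m → |c m| ≤ W * (m : ℝ) ^ (-γ)) →
      ∫ x in p..q, ‖∑ m ∈ Finset.Ioc M N, (c m : ℂ) * e (β * (m * x) ^ α)‖ ^ 2 ≤
        C * W ^ 2 * T ^ ε * ((q - p) * (M : ℝ) ^ (1 - 2 * γ) +
          T ^ (1 - α) * ((M : ℝ) ^ (2 - α - 2 * γ) + (N : ℝ) ^ (2 - α - 2 * γ))) := by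
  obtain ⟨C1, hC1, hms⟩ := dyadic_ms hα hα' hβ
  refine ⟨C1 * (1 + 24 / ε) ^ 3, by positivity, ?_⟩
  intro T p q W M N c hT hp hpq hq hM hMN hN4 hW hc
  have hT0 : 0 < T := by linarith
  have hM0 : (0 : ℝ) < M := by exact_mod_cast hM
  have hN1 : 1 ≤ N := hM.trans hMN
  have hN0 : (0 : ℝ) < N := by exact_mod_cast hN1
  have hlT : 0 ≤ Real.log T := Real.log_nonneg hT
  have hlN : Real.log N ≤ 4 * Real.log T := by
    have h1 := Real.log_le_log hN0 hN4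
    rw [Real.log_pow] at h1
    exact_mod_cast h1
  set J := Nat.log 2 N + 1 with hJ
  have hJl : (J : ℝ) ≤ 1 + 8 * Real.log T := by
    have h1 : 2 ^ Nat.log 2 N ≤ N := Nat.pow_log_le_self 2 (by omega)
    have h2 : ((2 : ℝ) ^ Nat.log 2 N) ≤ N := by exact_mod_cast h1
    have h3 := Real.log_le_log (by positivity) h2
    rw [Real.log_pow] at h3
    have h4 : (1 / 2 : ℝ) ≤ Real.log 2 := by
      have := Real.log_two_gt_d9
      linarith
    have h5 : (Nat.log 2 N : ℝ) * (1 / 2) ≤ (Nat.log 2 N : ℝ) * Real.log 2 :=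
      mul_le_mul_of_nonneg_left h4 (Nat.cast_nonneg _)
    rw [hJ]
    push_cast
    linarith
  let c' : ℕ → ℝ := fun m => if m ∈ Finset.Ioc M N then c m else 0
  let S : ℕ → ℝ → ℂ := fun j x => ∑ m ∈ Finset.Ico (M * 2 ^ j) (2 * (M * 2 ^ j)),
    (c' m : ℂ) * e (β * (m * x) ^ α)
  have hsum : ∀ x, ∑ m ∈ Finset.Ioc M N, (c m : ℂ) * e (β * (m * x) ^ α) =
      ∑ j ∈ Finset.range J, S j x := by
    intro x
    simp only [S]
    rw [← MS2_blocks M (fun m => (c' m : ℂ) * e (β * (m * x) ^ α)) J]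
    have hsub : Finset.Ioc M N ⊆ Finset.Ico M (M * 2 ^ J) := by
      intro m hm
      rw [Finset.mem_Ioc] at hm
      rw [Finset.mem_Ico]
      have h1 : N < 2 ^ J := Nat.lt_pow_succ_log_self (by norm_num) N
      have h2 : 2 ^ J ≤ M * 2 ^ J := Nat.le_mul_of_pos_left _ (by omega)
      omega
    rw [← Finset.sum_subset hsub]
    · refine Finset.sum_congr rfl fun m hm => ?_
      simp only [c', if_pos hm]
    · intro m _ hm
      simp only [c', if_neg hm, Complex.ofReal_zero, zero_mul]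
  have hSc : ∀ j, Continuous (S j) := fun j => by
    refine continuous_finset_sum _ fun m _ => continuous_const.mul (MS1_cont_e.comp ?_)
    exact continuous_const.mul ((continuous_const.mul continuous_id).rpow_const fun x =>
      Or.inr hα.le)
  set R : ℝ := C1 * W ^ 2 * (1 + 8 * Real.log T) * ((q - p) * (M : ℝ) ^ (1 - 2 * γ) +
          T ^ (1 - α) * ((M : ℝ) ^ (2 - α - 2 * γ) + (N : ℝ) ^ (2 - α - 2 * γ))) with hR
  have hqp : 0 ≤ q - p := sub_nonneg.2 hpq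
  have hR0 : 0 ≤ R := by positivity
  have hblock : ∀ j, ∫ x in p..q, ‖S j x‖ ^ 2 ≤ R := by
    intro j
    have hNj : 1 ≤ M * 2 ^ j := Nat.one_le_iff_ne_zero.2 (by positivity)
    have h1 := hms T p q (M * 2 ^ j) c' hT hp hpq hq hNj
    refine h1.trans ?_
    by_cases hjN : M * 2 ^ j ≤ N
    · set K : ℝ := ((M * 2 ^ j : ℕ) : ℝ) with hK
      have hK0 : 0 < K := by
        rw [hK]
        exact_mod_cast hNj
      have hMK : (M : ℝ) ≤ K := by
        rw [hK]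
        exact_mod_cast Nat.le_mul_of_pos_right M (show 0 < 2 ^ j by positivity)
      have hKN : K ≤ N := by
        rw [hK]
        exact_mod_cast hjN
      have hcs : ∑ m ∈ Finset.Ico (M * 2 ^ j) (2 * (M * 2 ^ j)), c' m ^ 2 ≤
          W ^ 2 * K ^ (1 - 2 * γ) := by
        have h2 : ∀ m ∈ Finset.Ico (M * 2 ^ j) (2 * (M * 2 ^ j)), c' m ^ 2 ≤
            (W * K ^ (-γ)) ^ 2 := by
          intro m hm
          rw [Finset.mem_Ico] at hm
          have hKm : K ≤ m := by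
            rw [hK]
            exact_mod_cast hm.1
          have h3 : (m : ℝ) ^ (-γ) ≤ K ^ (-γ) :=
            Real.rpow_le_rpow_of_nonpos hK0 hKm (by linarith)
          rw [← sq_abs (c' m)]
          refine pow_le_pow_left₀ (abs_nonneg _) ?_ 2
          simp only [c']
          split_ifs with hmem
          · exact (hc m (by omega)).trans (mul_le_mul_of_nonneg_left h3 hW)
          · rw [abs_zero]
            positivity
        have h3 := Finset.sum_le_card_nsmul (Finset.Ico (M * 2 ^ j) (2 * (M * 2 ^ j)))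
          (fun m => c' m ^ 2) ((W * K ^ (-γ)) ^ 2) h2
        refine h3.trans ?_
        rw [Nat.card_Ico, nsmul_eq_mul]
        have h4 : 2 * (M * 2 ^ j) - M * 2 ^ j = M * 2 ^ j := by omega
        rw [h4, ← hK]
        have h5 : K * (W * K ^ (-γ)) ^ 2 = W ^ 2 * K ^ (1 - 2 * γ) := by
          have h6 : K ^ (1 - 2 * γ) = K * (K ^ (-γ)) ^ 2 := by
            rw [← Real.rpow_natCast, ← Real.rpow_mul hK0.le]
            conv_rhs => rw [← Real.rpow_one K]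
            rw [Real.rpow_one K, ← Real.rpow_one_add' hK0.le (by
              push_cast
              intro h
              linarith)]
            congr 1
            push_cast
            ring
          rw [h6]
          ring
        exact h5.le
      have hlK : Real.log K ≤ 4 * Real.log T := (Real.log_le_log hK0 hKN).trans hlN
      have hlK0 : 0 ≤ Real.log K := by
        rw [hK]
        exact Real.log_natCast_nonneg _
      have hb0 : 0 ≤ (q - p) + T ^ (1 - α) * K ^ (1 - α) * (1 + Real.log K) := by positivity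
      have h6 : C1 * (∑ m ∈ Finset.Ico (M * 2 ^ j) (2 * (M * 2 ^ j)), c' m ^ 2) *
          ((q - p) + T ^ (1 - α) * K ^ (1 - α) * (1 + Real.log K)) ≤
          C1 * (W ^ 2 * K ^ (1 - 2 * γ)) *
          ((q - p) + T ^ (1 - α) * K ^ (1 - α) * (1 + Real.log K)) := by
        gcongr
      refine h6.trans ?_
      have h7 : K ^ (1 - 2 * γ) * K ^ (1 - α) = K ^ (2 - α - 2 * γ) := by
        rw [← Real.rpow_add hK0]
        congr 1
        ring
      have h8 : C1 * (W ^ 2 * K ^ (1 - 2 * γ)) *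
          ((q - p) + T ^ (1 - α) * K ^ (1 - α) * (1 + Real.log K)) =
          C1 * W ^ 2 * ((q - p) * K ^ (1 - 2 * γ) +
            T ^ (1 - α) * K ^ (2 - α - 2 * γ) * (1 + Real.log K)) := by
        rw [← h7]
        ring
      rw [h8, hR]
      have h9 : K ^ (1 - 2 * γ) ≤ (M : ℝ) ^ (1 - 2 * γ) :=
        Real.rpow_le_rpow_of_nonpos hM0 hMK (by linarith)
      have h10 : K ^ (2 - α - 2 * γ) ≤ (M : ℝ) ^ (2 - α - 2 * γ) + (N : ℝ) ^ (2 - α - 2 * γ) :=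
        MS2_rpow_between hM0 hMK hKN
      have h11 : 1 + Real.log K ≤ 1 + 8 * Real.log T := by linarith
      have h12 : (q - p) * K ^ (1 - 2 * γ) + T ^ (1 - α) * K ^ (2 - α - 2 * γ) *
          (1 + Real.log K) ≤ (1 + 8 * Real.log T) * ((q - p) * (M : ℝ) ^ (1 - 2 * γ) +
          T ^ (1 - α) * ((M : ℝ) ^ (2 - α - 2 * γ) + (N : ℝ) ^ (2 - α - 2 * γ))) := by
        rw [mul_add (1 + 8 * Real.log T)]
        refine add_le_add ?_ ?_
        · have h13 : (q - p) * K ^ (1 - 2 * γ) ≤ (q - p) * (M : ℝ) ^ (1 - 2 * γ) :=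
            mul_le_mul_of_nonneg_left h9 hqp
          have h14 : 0 ≤ (q - p) * (M : ℝ) ^ (1 - 2 * γ) := by positivity
          have h15 := mul_nonneg hlT h14
          linarith
        · have h16 : T ^ (1 - α) * K ^ (2 - α - 2 * γ) * (1 + Real.log K) ≤
              T ^ (1 - α) * ((M : ℝ) ^ (2 - α - 2 * γ) + (N : ℝ) ^ (2 - α - 2 * γ)) *
                (1 + 8 * Real.log T) := by
            gcongr
          linarith
      calc C1 * W ^ 2 * ((q - p) * K ^ (1 - 2 * γ) +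
            T ^ (1 - α) * K ^ (2 - α - 2 * γ) * (1 + Real.log K)) ≤ C1 * W ^ 2 *
            ((1 + 8 * Real.log T) * ((q - p) * (M : ℝ) ^ (1 - 2 * γ) +
          T ^ (1 - α) * ((M : ℝ) ^ (2 - α - 2 * γ) + (N : ℝ) ^ (2 - α - 2 * γ)))) :=
            mul_le_mul_of_nonneg_left h12 (by positivity)
        _ = _ := by ring
    · have h2 : ∑ m ∈ Finset.Ico (M * 2 ^ j) (2 * (M * 2 ^ j)), c' m ^ 2 = 0 := by
        refine Finset.sum_eq_zero fun m hm => ?_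
        rw [Finset.mem_Ico] at hm
        have h3 : m ∉ Finset.Ioc M N := by
          rw [Finset.mem_Ioc]
          omega
        simp only [c', if_neg h3]
        norm_num
      rw [h2, mul_zero, zero_mul]
      exact hR0
  have hmain : ∫ x in p..q, ‖∑ m ∈ Finset.Ioc M N, (c m : ℂ) * e (β * (m * x) ^ α)‖ ^ 2 ≤
      J * (J * R) := by
    have h1 : ∀ x ∈ Icc p q, ‖∑ m ∈ Finset.Ioc M N, (c m : ℂ) * e (β * (m * x) ^ α)‖ ^ 2 ≤
        (J : ℝ) * ∑ j ∈ Finset.range J, ‖S j x‖ ^ 2 := by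
      intro x _
      rw [hsum x]
      have h2 : ‖∑ j ∈ Finset.range J, S j x‖ ^ 2 ≤ (∑ j ∈ Finset.range J, ‖S j x‖) ^ 2 :=
        pow_le_pow_left₀ (norm_nonneg _) (norm_sum_le _ _) 2
      have h3 := sq_sum_le_card_mul_sum_sq (s := Finset.range J) (f := fun j => ‖S j x‖)
      rw [Finset.card_range] at h3
      exact h2.trans h3
    have hc1 : Continuous fun x => ‖∑ m ∈ Finset.Ioc M N, (c m : ℂ) *
        e (β * (m * x) ^ α)‖ ^ 2 := by
      have : (fun x => ‖∑ m ∈ Finset.Ioc M N, (c m : ℂ) * e (β * (m * x) ^ α)‖ ^ 2) =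
          fun x => ‖∑ j ∈ Finset.range J, S j x‖ ^ 2 := by
        funext x
        rw [hsum x]
      rw [this]
      exact (continuous_finset_sum _ fun j _ => hSc j).norm.pow 2
    have hc2 : Continuous fun x => (J : ℝ) * ∑ j ∈ Finset.range J, ‖S j x‖ ^ 2 :=
      continuous_const.mul (continuous_finset_sum _ fun j _ => (hSc j).norm.pow 2)
    refine (intervalIntegral.integral_mono_on hpq (hc1.intervalIntegrable _ _)
      (hc2.intervalIntegrable _ _) h1).trans ?_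
    rw [intervalIntegral.integral_const_mul, intervalIntegral.integral_finset_sum
      (f := fun j x => ‖S j x‖ ^ 2) fun j _ => ((hSc j).norm.pow 2).intervalIntegrable _ _]
    refine mul_le_mul_of_nonneg_left ?_ (Nat.cast_nonneg _)
    have h4 := Finset.sum_le_card_nsmul (Finset.range J) (fun j => ∫ x in p..q, ‖S j x‖ ^ 2) R
      fun j _ => hblock j
    rwa [Finset.card_range, nsmul_eq_mul] at h4
  refine hmain.trans ?_
  have hJ0 : (0 : ℝ) ≤ J := Nat.cast_nonneg _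
  have h1 : (J : ℝ) * (J * R) ≤ (1 + 8 * Real.log T) * ((1 + 8 * Real.log T) * R) := by
    gcongr
  refine h1.trans ?_
  have h2 := MS2_log hT hε
  set Z := (q - p) * (M : ℝ) ^ (1 - 2 * γ) +
          T ^ (1 - α) * ((M : ℝ) ^ (2 - α - 2 * γ) + (N : ℝ) ^ (2 - α - 2 * γ)) with hZ
  have hZ0 : 0 ≤ Z := by positivity
  calc (1 + 8 * Real.log T) * ((1 + 8 * Real.log T) * R) =
        C1 * W ^ 2 * Z * (1 + 8 * Real.log T) ^ 3 := by
        rw [hR]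
        ring
    _ ≤ C1 * W ^ 2 * Z * ((1 + 24 / ε) ^ 3 * T ^ ε) :=
        mul_le_mul_of_nonneg_left h2 (by positivity)
    _ = _ := by ring
--END MS2

variable {b : ℕ → ℝ} {L : ℂ → ℂ}
variable {κ C0 : ℝ} {c : Fin 3 → ℂ} {d : Fin 4 → ℂ} {S : ℝ → ℝ}

--BEGIN MS3
private theorem MS3_mono {f g : ℝ → ℝ} {p q : ℝ} (hpq : p ≤ q) (hf : ∀ x, 0 ≤ f x)
    (hg : ContinuousOn g (Icc p q)) (hfg : ∀ x ∈ Icc p q, f x ≤ g x) :
    ∫ x in p..q, f x ≤ ∫ x in p..q, g x := by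
  rw [intervalIntegral.integral_of_le hpq, intervalIntegral.integral_of_le hpq]
  refine integral_mono_of_nonneg (Filter.Eventually.of_forall hf) ?_ ?_
  · exact (intervalIntegrable_iff_integrableOn_Ioc_of_le hpq).1 (hg.intervalIntegrable_of_Icc hpq)
  · filter_upwards [ae_restrict_mem measurableSet_Ioc] with x hx
    exact hfg x (Ioc_subset_Icc_self hx)

private theorem MS3_e {κ x : ℝ} (hκ : 0 < κ) (hx : 0 ≤ x) (m : ℕ) :
    e (3 * (κ * m * x) ^ (1 / 3 : ℝ)) = e (3 * κ ^ (1 / 3 : ℝ) * (m * x) ^ (1 / 3 : ℝ)) := by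
  have hm : (0 : ℝ) ≤ m * x := mul_nonneg (Nat.cast_nonneg m) hx
  rw [mul_assoc κ, Real.mul_rpow hκ.le hm, mul_assoc 3]

private noncomputable def MS3_S (b : ℕ → ℝ) (κ u : ℝ) (s : Finset ℕ) (x : ℝ) : ℂ :=
  ∑ m ∈ s, ((b m * (m : ℝ) ^ u : ℝ) : ℂ) * e (3 * κ ^ (1 / 3 : ℝ) * (m * x) ^ (1 / 3 : ℝ))

private theorem MS3_S_cont (b : ℕ → ℝ) (κ u : ℝ) (s : Finset ℕ) : Continuous (MS3_S b κ u s) := by
  unfold MS3_S
  refine continuous_finset_sum _ fun m _ => continuous_const.mul (MS1_cont_e.comp ?_)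
  exact continuous_const.mul ((continuous_const.mul continuous_id).rpow_const fun x =>
    Or.inr (by norm_num))

private theorem MS3_re {κ x : ℝ} (hκ : 0 < κ) (hx : 0 ≤ x) (s : Finset ℕ) (b : ℕ → ℝ) (u v : ℝ)
    (z : ℂ) :
    |∑ m ∈ s, b m * ((m : ℝ) ^ u * x ^ v * (z * e (3 * (κ * m * x) ^ (1 / 3 : ℝ))).re)| ≤
      x ^ v * ‖z‖ * ‖MS3_S b κ u s x‖ := by
  have h1 : ∑ m ∈ s, b m * ((m : ℝ) ^ u * x ^ v * (z * e (3 * (κ * m * x) ^ (1 / 3 : ℝ))).re) =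
      x ^ v * (z * MS3_S b κ u s x).re := by
    unfold MS3_S
    rw [Finset.mul_sum, Complex.re_sum, Finset.mul_sum]
    refine Finset.sum_congr rfl fun m _ => ?_
    rw [mul_left_comm z, Complex.re_ofReal_mul, MS3_e hκ hx]
    ring
  rw [h1, abs_mul, abs_of_nonneg (Real.rpow_nonneg hx v), mul_assoc]
  refine mul_le_mul_of_nonneg_left ?_ (Real.rpow_nonneg hx v)
  refine (Complex.abs_re_le_norm _).trans ?_
  rw [norm_mul]

private theorem MS3_coef {b : ℕ → ℝ} {L : ℂ → ℂ} {deg : ℝ} (h : RealSelberg b L deg) {η : ℝ}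
    (hη : 0 < η) : ∃ W : ℝ, 0 < W ∧ ∀ u u0 : ℝ, u ≤ u0 → ∀ m : ℕ, 1 ≤ m →
      |b m * (m : ℝ) ^ u| ≤ W * (m : ℝ) ^ (-(-u0 - η)) := by
  obtain ⟨C, hC⟩ := h.ramanujan η hη
  refine ⟨|C| + 1, by positivity, fun u u0 hu m hm => ?_⟩
  have hm1 : (1 : ℝ) ≤ m := by exact_mod_cast hm
  have hm0 : (0 : ℝ) < m := by linarith
  rw [abs_mul, abs_of_pos (Real.rpow_pos_of_pos hm0 u)]
  have h1 : |b m| ≤ (|C| + 1) * (m : ℝ) ^ η := by
    refine (hC m hm).trans (mul_le_mul_of_nonneg_right ?_ (by positivity))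
    linarith [le_abs_self C]
  have h2 : (m : ℝ) ^ u ≤ (m : ℝ) ^ u0 := Real.rpow_le_rpow_of_exponent_le hm1 hu
  have h3 : (m : ℝ) ^ (-(-u0 - η)) = (m : ℝ) ^ η * (m : ℝ) ^ u0 := by
    rw [← Real.rpow_add hm0]
    congr 1
    ring
  rw [h3, ← mul_assoc]
  exact mul_le_mul h1 h2 (by positivity) (by positivity)

private theorem MS3_one {b : ℕ → ℝ} {L : ℂ → ℂ} (h : RealSelberg b L 3) {κ : ℝ} (hκ : 0 < κ)
    {ε : ℝ} (hε : 0 < ε) (u : ℝ) (hu : u ≤ -(2 / 3)) :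
    ∃ C : ℝ, 0 < C ∧ ∀ (T p q : ℝ) (N : ℕ), 1 ≤ T → T ≤ p → p ≤ q → q ≤ 8 * T → (N : ℝ) ≤ T →
      ∫ x in p..q, ‖MS3_S b κ u (Finset.Icc 1 N) x‖ ^ 2 ≤ C * T ^ (1 + ε) := by
  set η : ℝ := min (ε / 8) (1 / 12) with hη
  have hη0 : 0 < η := lt_min (by positivity) (by norm_num)
  have hη1 : η ≤ ε / 8 := min_le_left _ _
  have hη2 : η ≤ 1 / 12 := min_le_right _ _
  obtain ⟨W, hW, hcoef⟩ := MS3_coef h hη0
  have hβ : 0 < 3 * κ ^ (1 / 3 : ℝ) := by positivity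
  obtain ⟨C, hC, hms⟩ := range_ms (α := 1 / 3) (β := 3 * κ ^ (1 / 3 : ℝ))
    (γ := -(-(2 / 3)) - η) (ε := ε / 4) (by norm_num) (by norm_num) hβ (by positivity)
    (by linarith)
  refine ⟨2 * (7 * (b 1) ^ 2) + 2 * (9 * C * W ^ 2), by positivity, ?_⟩
  intro T p q N hT hp hpq hq hN
  have hT0 : 0 < T := by linarith
  have hTε : 0 < T ^ (1 + ε) := by positivity
  have hT1 : T ≤ T ^ (1 + ε) := by
    have := Real.rpow_le_rpow_of_exponent_le hT (show (1 : ℝ) ≤ 1 + ε by linarith)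
    rwa [Real.rpow_one] at this
  rcases Nat.eq_zero_or_pos N with h0 | h0
  · subst h0
    have h1 : ∀ x, ‖MS3_S b κ u (Finset.Icc 1 0) x‖ ^ 2 = 0 := by
      intro x
      unfold MS3_S
      rw [Finset.Icc_eq_empty (by norm_num), Finset.sum_empty, norm_zero]
      norm_num
    simp only [h1]
    rw [intervalIntegral.integral_zero]
    positivity
  have hsplit : ∀ x, MS3_S b κ u (Finset.Icc 1 N) x =
      ((b 1 : ℝ) : ℂ) * e (3 * κ ^ (1 / 3 : ℝ) * ((1 : ℕ) * x) ^ (1 / 3 : ℝ)) +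
        MS3_S b κ u (Finset.Ioc 1 N) x := by
    intro x
    unfold MS3_S
    rw [← Finset.Ioc_insert_left h0, Finset.sum_insert (by simp)]
    rw [Nat.cast_one, Real.one_rpow, mul_one]
  have hle : ∀ x ∈ Icc p q, ‖MS3_S b κ u (Finset.Icc 1 N) x‖ ^ 2 ≤
      2 * (b 1) ^ 2 + 2 * ‖MS3_S b κ u (Finset.Ioc 1 N) x‖ ^ 2 := by
    intro x _
    rw [hsplit x]
    have h2 := norm_add_le (((b 1 : ℝ) : ℂ) * e (3 * κ ^ (1 / 3 : ℝ) * ((1 : ℕ) * x) ^
      (1 / 3 : ℝ))) (MS3_S b κ u (Finset.Ioc 1 N) x)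
    rw [norm_mul, MS1_norm_e, mul_one, Complex.norm_real, Real.norm_eq_abs] at h2
    have h3 := pow_le_pow_left₀ (norm_nonneg _) h2 2
    have h4 : (|b 1| + ‖MS3_S b κ u (Finset.Ioc 1 N) x‖) ^ 2 ≤
        2 * (b 1) ^ 2 + 2 * ‖MS3_S b κ u (Finset.Ioc 1 N) x‖ ^ 2 := by
      rw [← sq_abs (b 1)]
      nlinarith [sq_nonneg (|b 1| - ‖MS3_S b κ u (Finset.Ioc 1 N) x‖)]
    exact h3.trans h4
  have hcS : Continuous fun x => ‖MS3_S b κ u (Finset.Ioc 1 N) x‖ ^ 2 :=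
    (MS3_S_cont b κ u (Finset.Ioc 1 N)).norm.pow 2
  have hcS2 : Continuous fun x => 2 * ‖MS3_S b κ u (Finset.Ioc 1 N) x‖ ^ 2 :=
    continuous_const.mul hcS
  have hI := MS3_mono hpq (fun x => sq_nonneg ‖MS3_S b κ u (Finset.Icc 1 N) x‖)
    (g := fun x => 2 * (b 1) ^ 2 + 2 * ‖MS3_S b κ u (Finset.Ioc 1 N) x‖ ^ 2)
    (continuous_const.add hcS2).continuousOn hle
  refine hI.trans ?_
  rw [intervalIntegral.integral_add (by simp) (hcS2.intervalIntegrable _ _),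
    intervalIntegral.integral_const, intervalIntegral.integral_const_mul, smul_eq_mul]
  have hN4 : (N : ℝ) ≤ T ^ 4 := by
    have : T ≤ T ^ 4 := le_self_pow₀ hT (by norm_num)
    linarith
  have h5 := hms T p q W 1 N (fun m => b m * (m : ℝ) ^ u) hT hp hpq hq le_rfl h0 hN4 hW.le
    (fun m hm => hcoef u (-(2 / 3)) hu m hm)
  have h6 : ∫ x in p..q, ‖MS3_S b κ u (Finset.Ioc 1 N) x‖ ^ 2 ≤ 9 * C * W ^ 2 * T ^ (1 + ε) := by
    refine h5.trans ?_
    have hN1 : (1 : ℝ) ≤ N := by exact_mod_cast h0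
    have e1 : (2 - 1 / 3 - 2 * (-(-(2 / 3)) - η) : ℝ) = 1 / 3 + 2 * η := by ring
    have e2 : (1 - 1 / 3 : ℝ) = 2 / 3 := by norm_num
    rw [e1, e2, Nat.cast_one, Real.one_rpow, Real.one_rpow, mul_one]
    have h7 : (N : ℝ) ^ (1 / 3 + 2 * η) ≤ T ^ (1 / 3 + 2 * η) :=
      Real.rpow_le_rpow (by linarith) hN (by positivity)
    have h8 : T ^ (2 / 3 : ℝ) * T ^ (1 / 3 + 2 * η) = T ^ (1 + 2 * η) := by
      rw [← Real.rpow_add hT0]
      congr 1
      ring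
    have h9 : T ^ (2 / 3 : ℝ) ≤ T ^ (1 + 2 * η) :=
      Real.rpow_le_rpow_of_exponent_le hT (by linarith)
    have h10 : T ≤ T ^ (1 + 2 * η) := by
      have := Real.rpow_le_rpow_of_exponent_le hT (show (1 : ℝ) ≤ 1 + 2 * η by linarith)
      rwa [Real.rpow_one] at this
    have h11 : (q - p) + T ^ (2 / 3 : ℝ) * (1 + (N : ℝ) ^ (1 / 3 + 2 * η)) ≤
        9 * T ^ (1 + 2 * η) := by
      have h12 : T ^ (2 / 3 : ℝ) * (N : ℝ) ^ (1 / 3 + 2 * η) ≤ T ^ (1 + 2 * η) := by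
        rw [← h8]
        exact mul_le_mul_of_nonneg_left h7 (by positivity)
      have h13 : q - p ≤ 7 * T := by linarith
      rw [mul_add, mul_one]
      linarith
    have h14 : T ^ (ε / 4) * T ^ (1 + 2 * η) ≤ T ^ (1 + ε) := by
      rw [← Real.rpow_add hT0]
      exact Real.rpow_le_rpow_of_exponent_le hT (by linarith)
    calc C * W ^ 2 * T ^ (ε / 4) * ((q - p) + T ^ (2 / 3 : ℝ) * (1 + (N : ℝ) ^
          (1 / 3 + 2 * η))) ≤ C * W ^ 2 * T ^ (ε / 4) * (9 * T ^ (1 + 2 * η)) :=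
          mul_le_mul_of_nonneg_left h11 (by positivity)
      _ = 9 * C * W ^ 2 * (T ^ (ε / 4) * T ^ (1 + 2 * η)) := by ring
      _ ≤ 9 * C * W ^ 2 * T ^ (1 + ε) := mul_le_mul_of_nonneg_left h14 (by positivity)
  have h15 : (q - p) * (2 * (b 1) ^ 2) ≤ 2 * (7 * (b 1) ^ 2) * T ^ (1 + ε) := by
    have h16 : q - p ≤ 7 * T ^ (1 + ε) := by linarith
    have := mul_le_mul_of_nonneg_right h16 (show 0 ≤ 2 * (b 1) ^ 2 by positivity)
    linarith
  linarith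

/-- **MS3.** The mean square of `∑_{m ≤ N} b(m) k_m(x)`, `N ≤ T` (MS2 with `α = 1/3`, `γ` slightly
less than `2/3`, `1`, ...; the term `m = 1` separately). -/
theorem km_ms (h : RealSelberg b L 3) (hκ : 0 < κ) (d : Fin 4 → ℂ) {ε : ℝ} (hε : 0 < ε) :
    ∃ C : ℝ, 0 < C ∧ ∀ (T p q : ℝ) (N : ℕ), 1 ≤ T → T ≤ p → p ≤ q → q ≤ 8 * T → (N : ℝ) ≤ T →
      ∫ x in p..q, (∑ m ∈ Finset.Icc 1 N, b m * km κ d m x) ^ 2 ≤ C * T ^ (5 / 3 + ε) := by
  have hone : ∀ i : Fin 4, ∃ C : ℝ, 0 < C ∧ ∀ (T p q : ℝ) (N : ℕ), 1 ≤ T → T ≤ p → p ≤ q →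
      q ≤ 8 * T → (N : ℝ) ≤ T →
      ∫ x in p..q, ‖MS3_S b κ (-((2 + ((i : ℕ) : ℝ)) / 3)) (Finset.Icc 1 N) x‖ ^ 2 ≤
        C * T ^ (1 + ε) := fun i => by
    refine MS3_one h hκ hε _ ?_
    have : (0 : ℝ) ≤ ((i : ℕ) : ℝ) := Nat.cast_nonneg _
    linarith
  choose C hC hCi using hone
  obtain ⟨D, hD⟩ : ∃ D : ℝ, D = ∑ i, ‖d i‖ := ⟨_, rfl⟩
  have hD0 : 0 ≤ D := by
    rw [hD]
    exact Finset.sum_nonneg fun i _ => norm_nonneg _
  have hdi : ∀ i, ‖d i‖ ≤ D := fun i => by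
    rw [hD]
    exact Finset.single_le_sum (fun i _ => norm_nonneg (d i)) (Finset.mem_univ i)
  refine ⟨16 * D ^ 2 * (∑ i, C i) + 1, ?_, ?_⟩
  · have : 0 ≤ ∑ i, C i := Finset.sum_nonneg fun i _ => (hC i).le
    positivity
  intro T p q N hT hp hpq hq hN
  have hT0 : 0 < T := by linarith
  set F : Fin 4 → ℝ → ℂ := fun i => MS3_S b κ (-((2 + ((i : ℕ) : ℝ)) / 3)) (Finset.Icc 1 N)
    with hF
  have hFc : ∀ i, Continuous fun x => ‖F i x‖ ^ 2 := fun i => (MS3_S_cont _ _ _ _).norm.pow 2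
  have hpt : ∀ x ∈ Icc p q, (∑ m ∈ Finset.Icc 1 N, b m * km κ d m x) ^ 2 ≤
      16 * D ^ 2 * T ^ (2 / 3 : ℝ) * ∑ i, ‖F i x‖ ^ 2 := by
    intro x hx
    have hx1 : 1 ≤ x := by linarith [hx.1]
    have hx0 : 0 ≤ x := by linarith
    have h1 : ∑ m ∈ Finset.Icc 1 N, b m * km κ d m x = ∑ i : Fin 4, ∑ m ∈ Finset.Icc 1 N,
        b m * ((m : ℝ) ^ (-((2 + ((i : ℕ) : ℝ)) / 3)) * x ^ ((1 - ((i : ℕ) : ℝ)) / 3) *
          (d i * e (3 * (κ * m * x) ^ (1 / 3 : ℝ))).re) := by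
      unfold km
      rw [Finset.sum_comm]
      refine Finset.sum_congr rfl fun m _ => ?_
      rw [Finset.mul_sum]
    have hx3 : ∀ i : Fin 4, x ^ ((1 - ((i : ℕ) : ℝ)) / 3) ≤ 2 * T ^ (1 / 3 : ℝ) := by
      intro i
      have h2 : x ^ ((1 - ((i : ℕ) : ℝ)) / 3) ≤ x ^ (1 / 3 : ℝ) := by
        refine Real.rpow_le_rpow_of_exponent_le hx1 ?_
        have : (0 : ℝ) ≤ ((i : ℕ) : ℝ) := Nat.cast_nonneg _
        linarith
      have h3 : x ^ (1 / 3 : ℝ) ≤ (8 * T) ^ (1 / 3 : ℝ) :=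
        Real.rpow_le_rpow hx0 (by linarith [hx.2]) (by norm_num)
      have h4 : (8 * T) ^ (1 / 3 : ℝ) = 2 * T ^ (1 / 3 : ℝ) := by
        rw [Real.mul_rpow (by norm_num) hT0.le]
        congr 1
        rw [show (8 : ℝ) = 2 ^ (3 : ℝ) by norm_num, ← Real.rpow_mul (by norm_num)]
        norm_num
      linarith
    have h5 : |∑ m ∈ Finset.Icc 1 N, b m * km κ d m x| ≤
        ∑ i : Fin 4, 2 * T ^ (1 / 3 : ℝ) * D * ‖F i x‖ := by
      rw [h1]
      refine (Finset.abs_sum_le_sum_abs _ _).trans (Finset.sum_le_sum fun i _ => ?_)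
      refine (MS3_re hκ hx0 _ b _ _ _).trans ?_
      have := hx3 i
      have := hdi i
      gcongr
    have h6 := pow_le_pow_left₀ (abs_nonneg _) h5 2
    rw [sq_abs] at h6
    refine h6.trans ?_
    have h7 := sq_sum_le_card_mul_sum_sq (s := (Finset.univ : Finset (Fin 4)))
      (f := fun i => 2 * T ^ (1 / 3 : ℝ) * D * ‖F i x‖)
    refine h7.trans (le_of_eq ?_)
    rw [Finset.card_univ, Fintype.card_fin, Finset.mul_sum, Finset.mul_sum]
    refine Finset.sum_congr rfl fun i _ => ?_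
    have h8 : (T ^ (1 / 3 : ℝ)) ^ 2 = T ^ (2 / 3 : ℝ) := by
      rw [← Real.rpow_natCast, ← Real.rpow_mul hT0.le]
      norm_num
    rw [← h8]
    push_cast
    ring
  have hI := MS3_mono hpq (fun x => sq_nonneg (∑ m ∈ Finset.Icc 1 N, b m * km κ d m x))
    (g := fun x => 16 * D ^ 2 * T ^ (2 / 3 : ℝ) * ∑ i, ‖F i x‖ ^ 2)
    (continuous_const.mul (continuous_finset_sum _ fun i _ => hFc i)).continuousOn hpt
  refine hI.trans ?_
  rw [intervalIntegral.integral_const_mul, intervalIntegral.integral_finset_sum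
    (f := fun i x => ‖F i x‖ ^ 2) fun i _ => (hFc i).intervalIntegrable _ _]
  have h9 : ∑ i, ∫ x in p..q, ‖F i x‖ ^ 2 ≤ (∑ i, C i) * T ^ (1 + ε) := by
    rw [Finset.sum_mul]
    exact Finset.sum_le_sum fun i _ => hCi i T p q N hT hp hpq hq hN
  have h10 : T ^ (2 / 3 : ℝ) * T ^ (1 + ε) = T ^ (5 / 3 + ε) := by
    rw [← Real.rpow_add hT0]
    congr 1
    ring
  calc 16 * D ^ 2 * T ^ (2 / 3 : ℝ) * ∑ i, ∫ x in p..q, ‖F i x‖ ^ 2 ≤
        16 * D ^ 2 * T ^ (2 / 3 : ℝ) * ((∑ i, C i) * T ^ (1 + ε)) :=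
        mul_le_mul_of_nonneg_left h9 (by positivity)
    _ = 16 * D ^ 2 * (∑ i, C i) * (T ^ (2 / 3 : ℝ) * T ^ (1 + ε)) := by ring
    _ = 16 * D ^ 2 * (∑ i, C i) * T ^ (5 / 3 + ε) := by rw [h10]
    _ ≤ (16 * D ^ 2 * (∑ i, C i) + 1) * T ^ (5 / 3 + ε) := by
        have : 0 < T ^ (5 / 3 + ε) := by positivity
        linarith
--END MS3

--BEGIN MS4
private theorem MS4_half {T k : ℝ} (hT : 0 < T) (hk : -2 ≤ k) : (T / 2) ^ k ≤ 4 * T ^ k := by
  rw [Real.div_rpow hT.le (by norm_num), div_eq_mul_inv, ← Real.rpow_neg (by norm_num), mul_comm]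
  refine mul_le_mul_of_nonneg_right ?_ (by positivity)
  have h1 := Real.rpow_le_rpow_of_exponent_le (x := 2) (by norm_num) (show -k ≤ 2 by linarith)
  norm_num at h1
  exact h1

private theorem MS4_two {b : ℕ → ℝ} {L : ℂ → ℂ} (h : RealSelberg b L 3) {κ : ℝ} (hκ : 0 < κ)
    {ε : ℝ} (hε : 0 < ε) (u : ℝ) (hu : u ≤ -(4 / 3)) :
    ∃ C : ℝ, 0 < C ∧ ∀ (T p q : ℝ) (N N1 : ℕ), 1 ≤ T → T ≤ p → p ≤ q → q ≤ 8 * T →
      T / 2 ≤ N → N ≤ N1 → (N1 : ℝ) ≤ T ^ 4 →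
      ∫ x in p..q, ‖MS3_S b κ u (Finset.Ioc N N1) x‖ ^ 2 ≤ C * T ^ (-(1 / 3) + ε) := by
  set η : ℝ := min (ε / 8) (1 / 24) with hη
  have hη0 : 0 < η := lt_min (by positivity) (by norm_num)
  have hη1 : η ≤ ε / 8 := min_le_left _ _
  have hη2 : η ≤ 1 / 24 := min_le_right _ _
  obtain ⟨W, hW, hcoef⟩ := MS3_coef h hη0
  have hβ : 0 < 3 * κ ^ (1 / 3 : ℝ) := by positivity
  obtain ⟨C, hC, hms⟩ := range_ms (α := 1 / 3) (β := 3 * κ ^ (1 / 3 : ℝ))
    (γ := -(-(4 / 3)) - η) (ε := ε / 4) (by norm_num) (by norm_num) hβ (by positivity)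
    (by linarith)
  refine ⟨C * W ^ 2 * 36, by positivity, ?_⟩
  intro T p q N N1 hT hp hpq hq hNT hNN hN1
  have hT0 : 0 < T := by linarith
  have hT2 : 0 < T / 2 := by positivity
  have hN0 : (0 : ℝ) < N := by linarith
  have hN1' : 1 ≤ N := by
    have : 0 < N := by exact_mod_cast hN0
    omega
  have hN10 : (0 : ℝ) < N1 := by
    have : (N : ℝ) ≤ N1 := by exact_mod_cast hNN
    linarith
  have h5 := hms T p q W N N1 (fun m => b m * (m : ℝ) ^ u) hT hp hpq hq hN1' hNN hN1 hW.le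
    (fun m hm => hcoef u (-(4 / 3)) hu m hm)
  refine h5.trans ?_
  have e1 : (2 - 1 / 3 - 2 * (-(-(4 / 3)) - η) : ℝ) = -1 + 2 * η := by ring
  have e2 : (1 - 1 / 3 : ℝ) = 2 / 3 := by norm_num
  have e3 : (1 - 2 * (-(-(4 / 3)) - η) : ℝ) = -(5 / 3) + 2 * η := by ring
  rw [e1, e2, e3]
  have k1 : (N : ℝ) ^ (-(5 / 3) + 2 * η) ≤ 4 * T ^ (-(5 / 3) + 2 * η) :=
    (Real.rpow_le_rpow_of_nonpos hT2 hNT (by linarith)).trans (MS4_half hT0 (by linarith))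
  have k2 : (N : ℝ) ^ (-1 + 2 * η) ≤ 4 * T ^ (-1 + 2 * η) :=
    (Real.rpow_le_rpow_of_nonpos hT2 hNT (by linarith)).trans (MS4_half hT0 (by linarith))
  have k3 : (N1 : ℝ) ^ (-1 + 2 * η) ≤ 4 * T ^ (-1 + 2 * η) :=
    (Real.rpow_le_rpow_of_nonpos hN0 (by exact_mod_cast hNN) (by linarith)).trans k2
  have k4 : T * T ^ (-(5 / 3) + 2 * η) ≤ T ^ (-(1 / 3) + 2 * η) := by
    have : T * T ^ (-(5 / 3) + 2 * η) = T ^ (-(2 / 3) + 2 * η) := by
      conv_lhs => rw [← Real.rpow_one T, ← Real.rpow_mul hT0.le, one_mul, ← Real.rpow_add hT0]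
      congr 1
      ring
    rw [this]
    exact Real.rpow_le_rpow_of_exponent_le hT (by linarith)
  have k5 : T ^ (2 / 3 : ℝ) * T ^ (-1 + 2 * η) = T ^ (-(1 / 3) + 2 * η) := by
    rw [← Real.rpow_add hT0]
    congr 1
    ring
  have hqp : q - p ≤ 7 * T := by linarith
  have hqp0 : 0 ≤ q - p := by linarith
  have h11 : (q - p) * (N : ℝ) ^ (-(5 / 3) + 2 * η) + T ^ (2 / 3 : ℝ) *
      ((N : ℝ) ^ (-1 + 2 * η) + (N1 : ℝ) ^ (-1 + 2 * η)) ≤ 36 * T ^ (-(1 / 3) + 2 * η) := by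
    have h12 : (q - p) * (N : ℝ) ^ (-(5 / 3) + 2 * η) ≤
        (7 * T) * (4 * T ^ (-(5 / 3) + 2 * η)) :=
      mul_le_mul hqp k1 (by positivity) (by positivity)
    have h13 : T ^ (2 / 3 : ℝ) * ((N : ℝ) ^ (-1 + 2 * η) + (N1 : ℝ) ^ (-1 + 2 * η)) ≤
        T ^ (2 / 3 : ℝ) * (4 * T ^ (-1 + 2 * η) + 4 * T ^ (-1 + 2 * η)) :=
      mul_le_mul_of_nonneg_left (add_le_add k2 k3) (by positivity)
    have h14 : T ^ (2 / 3 : ℝ) * (4 * T ^ (-1 + 2 * η) + 4 * T ^ (-1 + 2 * η)) =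
        8 * T ^ (-(1 / 3) + 2 * η) := by
      rw [← k5]
      ring
    linarith
  have h14 : T ^ (ε / 4) * T ^ (-(1 / 3) + 2 * η) ≤ T ^ (-(1 / 3) + ε) := by
    rw [← Real.rpow_add hT0]
    exact Real.rpow_le_rpow_of_exponent_le hT (by linarith)
  calc C * W ^ 2 * T ^ (ε / 4) * ((q - p) * (N : ℝ) ^ (-(5 / 3) + 2 * η) + T ^ (2 / 3 : ℝ) *
      ((N : ℝ) ^ (-1 + 2 * η) + (N1 : ℝ) ^ (-1 + 2 * η))) ≤
      C * W ^ 2 * T ^ (ε / 4) * (36 * T ^ (-(1 / 3) + 2 * η)) :=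
        mul_le_mul_of_nonneg_left h11 (by positivity)
    _ = C * W ^ 2 * 36 * (T ^ (ε / 4) * T ^ (-(1 / 3) + 2 * η)) := by ring
    _ ≤ C * W ^ 2 * 36 * T ^ (-(1 / 3) + ε) := mul_le_mul_of_nonneg_left h14 (by positivity)

private theorem MS4_pow {T x : ℝ} (hT : 1 ≤ T) (hx : T ≤ x) (hx8 : x ≤ 8 * T) (j : ℕ) :
    x ^ ((5 - (j : ℝ)) / 3) ≤ 32 * T ^ (5 / 3 : ℝ) := by
  have hT0 : 0 < T := by linarith
  have h2 : x ^ ((5 - (j : ℝ)) / 3) ≤ x ^ (5 / 3 : ℝ) := by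
    refine Real.rpow_le_rpow_of_exponent_le (by linarith) ?_
    have : (0 : ℝ) ≤ (j : ℝ) := Nat.cast_nonneg _
    linarith
  have h3 : x ^ (5 / 3 : ℝ) ≤ (8 * T) ^ (5 / 3 : ℝ) :=
    Real.rpow_le_rpow (by linarith) hx8 (by norm_num)
  have h4 : (8 * T) ^ (5 / 3 : ℝ) = 32 * T ^ (5 / 3 : ℝ) := by
    rw [Real.mul_rpow (by norm_num) hT0.le]
    congr 1
    rw [show (8 : ℝ) = 2 ^ (3 : ℝ) by norm_num, ← Real.rpow_mul (by norm_num)]
    norm_num
  linarith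

private theorem MS4_term {b : ℕ → ℝ} {L : ℂ → ℂ} (h : RealSelberg b L 3) (κ : ℝ)
    (c : Fin 3 → ℂ) : ∃ K : ℝ, 0 < K ∧ ∀ (T x : ℝ) (m : ℕ), 1 ≤ T → T ≤ x → x ≤ 8 * T → 1 ≤ m →
      |b m * qm κ c m x| ≤ K * T ^ (5 / 3 : ℝ) * (m : ℝ) ^ (-(31 / 24) : ℝ) := by
  obtain ⟨W, hW, hcoef⟩ := MS3_coef h (η := 1 / 24) (by norm_num)
  obtain ⟨D, hD⟩ : ∃ D : ℝ, D = ∑ i, ‖c i‖ := ⟨_, rfl⟩
  have hD0 : 0 ≤ D := by
    rw [hD]
    exact Finset.sum_nonneg fun i _ => norm_nonneg _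
  refine ⟨32 * W * D + 1, by positivity, ?_⟩
  intro T x m hT hx hx8 hm
  have hT0 : 0 < T := by linarith
  have hx0 : 0 < x := by linarith
  unfold qm
  rw [Finset.mul_sum]
  have h1 : ∀ j : Fin 3, |b m * ((m : ℝ) ^ (-((4 + ((j : ℕ) : ℝ)) / 3)) *
      x ^ ((5 - ((j : ℕ) : ℝ)) / 3) * (c j * e (3 * (κ * m * x) ^ (1 / 3 : ℝ))).re)| ≤
      (W * (m : ℝ) ^ (-(31 / 24) : ℝ)) * (32 * T ^ (5 / 3 : ℝ)) * ‖c j‖ := by
    intro j
    rw [← mul_assoc, ← mul_assoc, abs_mul, abs_mul]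
    have hj : (0 : ℝ) ≤ ((j : ℕ) : ℝ) := Nat.cast_nonneg _
    have h2 := hcoef (-((4 + ((j : ℕ) : ℝ)) / 3)) (-(4 / 3)) (by linarith) m hm
    have e1 : (-(-(-(4 / 3)) - 1 / 24) : ℝ) = -(31 / 24) := by norm_num
    rw [e1] at h2
    have h3 := MS4_pow hT hx hx8 (j : ℕ)
    have h4 : |(c j * e (3 * (κ * m * x) ^ (1 / 3 : ℝ))).re| ≤ ‖c j‖ := by
      refine (Complex.abs_re_le_norm _).trans ?_
      rw [norm_mul, MS1_norm_e, mul_one]
    rw [abs_of_pos (Real.rpow_pos_of_pos hx0 _)]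
    exact mul_le_mul (mul_le_mul h2 h3 (by positivity) (by positivity)) h4 (abs_nonneg _)
      (by positivity)
  refine (Finset.abs_sum_le_sum_abs _ _).trans ((Finset.sum_le_sum fun j _ => h1 j).trans ?_)
  rw [← Finset.mul_sum, ← hD]
  have h5 : 0 ≤ T ^ (5 / 3 : ℝ) * (m : ℝ) ^ (-(31 / 24) : ℝ) := by positivity
  linarith

/-- **MS4.** The mean square of `∑_{m > N} b(m) q_m(x)`, `T/2 ≤ N ≤ T`: MS2 up to `T³`, trivially
beyond. -/
theorem qm_ms (h : RealSelberg b L 3) (hκ : 0 < κ) (c : Fin 3 → ℂ) {ε : ℝ} (hε : 0 < ε) :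
    ∃ C : ℝ, 0 < C ∧ ∀ (T p q : ℝ) (N : ℕ), 1 ≤ T → T ≤ p → p ≤ q → q ≤ 8 * T → T / 2 ≤ N →
      (N : ℝ) ≤ T →
      ∫ x in p..q, (∑' m : ℕ, b (m + N + 1) * qm κ c (m + N + 1) x) ^ 2 ≤ C * T ^ (3 + ε) := by
  have hone : ∀ i : Fin 3, ∃ C : ℝ, 0 < C ∧ ∀ (T p q : ℝ) (N N1 : ℕ), 1 ≤ T → T ≤ p → p ≤ q →
      q ≤ 8 * T → T / 2 ≤ N → N ≤ N1 → (N1 : ℝ) ≤ T ^ 4 →
      ∫ x in p..q, ‖MS3_S b κ (-((4 + ((i : ℕ) : ℝ)) / 3)) (Finset.Ioc N N1) x‖ ^ 2 ≤
        C * T ^ (-(1 / 3) + ε) := fun i => by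
    refine MS4_two h hκ hε _ ?_
    have : (0 : ℝ) ≤ ((i : ℕ) : ℝ) := Nat.cast_nonneg _
    linarith
  choose C hC hCi using hone
  obtain ⟨K, hK, hterm⟩ := MS4_term h κ c
  obtain ⟨D, hD⟩ : ∃ D : ℝ, D = ∑ i, ‖c i‖ := ⟨_, rfl⟩
  have hD0 : 0 ≤ D := by
    rw [hD]
    exact Finset.sum_nonneg fun i _ => norm_nonneg _
  have hdi : ∀ i, ‖c i‖ ≤ D := fun i => by
    rw [hD]
    exact Finset.single_le_sum (fun i _ => norm_nonneg (c i)) (Finset.mem_univ i)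
  obtain ⟨CC, hCC⟩ : ∃ CC : ℝ, CC = ∑ i, C i := ⟨_, rfl⟩
  have hCC0 : 0 ≤ CC := by
    rw [hCC]
    exact Finset.sum_nonneg fun i _ => (hC i).le
  have hZs : Summable fun m : ℕ => ((m + 1 : ℕ) : ℝ) ^ (-(25 / 24) : ℝ) :=
    (summable_nat_add_iff 1).2 (Real.summable_nat_rpow.2 (by norm_num))
  obtain ⟨Z, hZ⟩ : ∃ Z : ℝ, Z = ∑' m : ℕ, ((m + 1 : ℕ) : ℝ) ^ (-(25 / 24) : ℝ) := ⟨_, rfl⟩
  have hZ0 : 0 ≤ Z := by
    rw [hZ]
    exact tsum_nonneg fun m => by positivity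
  refine ⟨2 * (3072 * D ^ 2 * CC) + 14 * (K * Z) ^ 2 + 1, by positivity, ?_⟩
  intro T p q N hT hp hpq hq hNT hN
  have hT0 : 0 < T := by linarith
  set N1 : ℕ := ⌊T ^ 3⌋₊ with hN1
  have hT3 : (N : ℝ) ≤ T ^ 3 := hN.trans (le_self_pow₀ hT (by norm_num))
  have hNN : N ≤ N1 := Nat.le_floor hT3
  have hN13 : (N1 : ℝ) ≤ T ^ 3 := Nat.floor_le (by positivity)
  have hN14 : (N1 : ℝ) ≤ T ^ 4 := hN13.trans (pow_le_pow_right₀ hT (by norm_num))
  have hN1l : T ^ 3 < (N1 : ℝ) + 1 := Nat.lt_floor_add_one _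
  set F : Fin 3 → ℝ → ℂ := fun i => MS3_S b κ (-((4 + ((i : ℕ) : ℝ)) / 3)) (Finset.Ioc N N1)
    with hF
  have hFc : ∀ i, Continuous fun x => ‖F i x‖ ^ 2 := fun i => (MS3_S_cont _ _ _ _).norm.pow 2
  have hsm : ∀ (x : ℝ), T ≤ x → x ≤ 8 * T → ∀ k : ℕ,
      Summable fun m : ℕ => b (m + k + 1) * qm κ c (m + k + 1) x := by
    intro x hx hx8 k
    refine Summable.of_norm_bounded (g := fun m : ℕ => K * T ^ (5 / 3 : ℝ) *
      ((m + 1 : ℕ) : ℝ) ^ (-(25 / 24) : ℝ)) (hZs.mul_left _) fun m => ?_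
    rw [Real.norm_eq_abs]
    refine (hterm T x (m + k + 1) hT hx hx8 (by omega)).trans ?_
    refine mul_le_mul_of_nonneg_left ?_ (by positivity)
    have h1 : ((m + 1 : ℕ) : ℝ) ≤ ((m + k + 1 : ℕ) : ℝ) := by
      exact_mod_cast (by omega : m + 1 ≤ m + k + 1)
    have h2 : (0 : ℝ) < ((m + 1 : ℕ) : ℝ) := by positivity
    have h3 : (1 : ℝ) ≤ ((m + k + 1 : ℕ) : ℝ) := by
      exact_mod_cast (by omega : 1 ≤ m + k + 1)
    exact (Real.rpow_le_rpow_of_exponent_le h3 (by norm_num)).trans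
      (Real.rpow_le_rpow_of_nonpos h2 h1 (by norm_num))
  have htail : ∀ (x : ℝ), T ≤ x → x ≤ 8 * T →
      |∑' m : ℕ, b (m + N1 + 1) * qm κ c (m + N1 + 1) x| ≤
        K * Z * T ^ (11 / 12 : ℝ) := by
    intro x hx hx8
    have hgs : Summable fun m : ℕ => K * T ^ (11 / 12 : ℝ) *
      ((m + 1 : ℕ) : ℝ) ^ (-(25 / 24) : ℝ) := hZs.mul_left _
    have h1 : ∀ m : ℕ, ‖b (m + N1 + 1) * qm κ c (m + N1 + 1) x‖ ≤ K * T ^ (11 / 12 : ℝ) *
        ((m + 1 : ℕ) : ℝ) ^ (-(25 / 24) : ℝ) := by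
      intro m
      rw [Real.norm_eq_abs]
      refine (hterm T x (m + N1 + 1) hT hx hx8 (by omega)).trans ?_
      have h2 : (0 : ℝ) < ((m + 1 : ℕ) : ℝ) := by positivity
      have h3 : ((m + 1 : ℕ) : ℝ) ≤ ((m + N1 + 1 : ℕ) : ℝ) := by
        exact_mod_cast (by omega : m + 1 ≤ m + N1 + 1)
      have h4 : (0 : ℝ) < ((m + N1 + 1 : ℕ) : ℝ) := by positivity
      have h5 : T ^ 3 ≤ ((m + N1 + 1 : ℕ) : ℝ) := by
        push_cast
        have : (0 : ℝ) ≤ (m : ℝ) := Nat.cast_nonneg _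
        linarith
      have h6 : ((m + N1 + 1 : ℕ) : ℝ) ^ (-(31 / 24) : ℝ) =
          ((m + N1 + 1 : ℕ) : ℝ) ^ (-(25 / 24) : ℝ) * ((m + N1 + 1 : ℕ) : ℝ) ^ (-(1 / 4) : ℝ) := by
        rw [← Real.rpow_add h4]
        norm_num
      have h7 : ((m + N1 + 1 : ℕ) : ℝ) ^ (-(1 / 4) : ℝ) ≤ T ^ (-(3 / 4) : ℝ) := by
        have h8 := Real.rpow_le_rpow_of_nonpos (by positivity) h5
          (show (-(1 / 4) : ℝ) ≤ 0 by norm_num)
        have h9 : (T ^ 3) ^ (-(1 / 4) : ℝ) = T ^ (-(3 / 4) : ℝ) := by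
          rw [← Real.rpow_natCast, ← Real.rpow_mul hT0.le]
          norm_num
        rwa [h9] at h8
      have h8 : ((m + N1 + 1 : ℕ) : ℝ) ^ (-(25 / 24) : ℝ) ≤
          ((m + 1 : ℕ) : ℝ) ^ (-(25 / 24) : ℝ) :=
        Real.rpow_le_rpow_of_nonpos h2 h3 (by norm_num)
      rw [h6]
      have h10 : T ^ (5 / 3 : ℝ) * T ^ (-(3 / 4) : ℝ) = T ^ (11 / 12 : ℝ) := by
        rw [← Real.rpow_add hT0]
        norm_num
      calc K * T ^ (5 / 3 : ℝ) * (((m + N1 + 1 : ℕ) : ℝ) ^ (-(25 / 24) : ℝ) *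
            ((m + N1 + 1 : ℕ) : ℝ) ^ (-(1 / 4) : ℝ)) ≤
            K * T ^ (5 / 3 : ℝ) * (((m + 1 : ℕ) : ℝ) ^ (-(25 / 24) : ℝ) *
            T ^ (-(3 / 4) : ℝ)) := by
            refine mul_le_mul_of_nonneg_left ?_ (by positivity)
            exact mul_le_mul h8 h7 (by positivity) (by positivity)
        _ = K * (T ^ (5 / 3 : ℝ) * T ^ (-(3 / 4) : ℝ)) *
            ((m + 1 : ℕ) : ℝ) ^ (-(25 / 24) : ℝ) := by ring
        _ = _ := by rw [h10]
    have h2 := tsum_of_norm_bounded hgs.hasSum h1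
    rw [Real.norm_eq_abs, tsum_mul_left, ← hZ] at h2
    calc |∑' m : ℕ, b (m + N1 + 1) * qm κ c (m + N1 + 1) x| ≤ K * T ^ (11 / 12 : ℝ) * Z := h2
      _ = _ := by ring
  have hsplit : ∀ (x : ℝ), T ≤ x → x ≤ 8 * T →
      ∑' m : ℕ, b (m + N + 1) * qm κ c (m + N + 1) x =
        (∑ m ∈ Finset.Ioc N N1, b m * qm κ c m x) +
          ∑' m : ℕ, b (m + N1 + 1) * qm κ c (m + N1 + 1) x := by
    intro x hx hx8
    have h1 := (hsm x hx hx8 N).sum_add_tsum_nat_add (N1 - N)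
    rw [← h1]
    congr 1
    · have hIoc : Finset.Ioc N N1 = Finset.Ico (N + 1) (N1 + 1) := by
        ext m
        rw [Finset.mem_Ioc, Finset.mem_Ico]
        omega
      rw [hIoc, Finset.sum_Ico_eq_sum_range]
      have e1 : N1 + 1 - (N + 1) = N1 - N := by omega
      rw [e1]
      refine Finset.sum_congr rfl fun i _ => ?_
      rw [show i + N + 1 = N + 1 + i by ring]
    · refine tsum_congr fun m => ?_
      rw [show m + (N1 - N) + N + 1 = m + N1 + 1 by omega]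
  have hpt : ∀ x ∈ Icc p q, (∑' m : ℕ, b (m + N + 1) * qm κ c (m + N + 1) x) ^ 2 ≤
      2 * (3072 * D ^ 2 * T ^ (10 / 3 : ℝ)) * (∑ i, ‖F i x‖ ^ 2) +
        2 * (K * Z * T ^ (11 / 12 : ℝ)) ^ 2 := by
    intro x hx
    have hx1 : T ≤ x := by linarith [hx.1]
    have hx8 : x ≤ 8 * T := by linarith [hx.2]
    have hx0 : 0 ≤ x := by linarith
    have h1 : ∑ m ∈ Finset.Ioc N N1, b m * qm κ c m x = ∑ i : Fin 3, ∑ m ∈ Finset.Ioc N N1,
        b m * ((m : ℝ) ^ (-((4 + ((i : ℕ) : ℝ)) / 3)) * x ^ ((5 - ((i : ℕ) : ℝ)) / 3) *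
          (c i * e (3 * (κ * m * x) ^ (1 / 3 : ℝ))).re) := by
      unfold qm
      rw [Finset.sum_comm]
      refine Finset.sum_congr rfl fun m _ => ?_
      rw [Finset.mul_sum]
    have h5 : |∑ m ∈ Finset.Ioc N N1, b m * qm κ c m x| ≤
        ∑ i : Fin 3, 32 * T ^ (5 / 3 : ℝ) * D * ‖F i x‖ := by
      rw [h1]
      refine (Finset.abs_sum_le_sum_abs _ _).trans (Finset.sum_le_sum fun i _ => ?_)
      refine (MS3_re hκ hx0 _ b _ _ _).trans ?_
      have := MS4_pow hT hx1 hx8 (i : ℕ)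
      have := hdi i
      gcongr
    have h6 := pow_le_pow_left₀ (abs_nonneg _) h5 2
    rw [sq_abs] at h6
    have h7 := sq_sum_le_card_mul_sum_sq (s := (Finset.univ : Finset (Fin 3)))
      (f := fun i => 32 * T ^ (5 / 3 : ℝ) * D * ‖F i x‖)
    have h8 : ((Finset.univ : Finset (Fin 3)).card : ℝ) *
        ∑ i : Fin 3, (32 * T ^ (5 / 3 : ℝ) * D * ‖F i x‖) ^ 2 =
        3072 * D ^ 2 * T ^ (10 / 3 : ℝ) * ∑ i, ‖F i x‖ ^ 2 := by
      rw [Finset.card_univ, Fintype.card_fin, Finset.mul_sum, Finset.mul_sum]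
      refine Finset.sum_congr rfl fun i _ => ?_
      have h8 : (T ^ (5 / 3 : ℝ)) ^ 2 = T ^ (10 / 3 : ℝ) := by
        rw [← Real.rpow_natCast, ← Real.rpow_mul hT0.le]
        norm_num
      rw [← h8]
      push_cast
      ring
    have h9 := htail x hx1 hx8
    rw [hsplit x hx1 hx8]
    generalize (∑ m ∈ Finset.Ioc N N1, b m * qm κ c m x) = A at *
    generalize (∑' m : ℕ, b (m + N1 + 1) * qm κ c (m + N1 + 1) x) = B at *
    have h10 : (A + B) ^ 2 ≤ 2 * A ^ 2 + 2 * B ^ 2 := by nlinarith [sq_nonneg (A - B)]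
    have h11 : A ^ 2 ≤ 3072 * D ^ 2 * T ^ (10 / 3 : ℝ) * ∑ i, ‖F i x‖ ^ 2 := by
      rw [← h8]
      exact h6.trans h7
    have h12 : B ^ 2 ≤ (K * Z * T ^ (11 / 12 : ℝ)) ^ 2 := by
      rw [← sq_abs B]
      exact pow_le_pow_left₀ (abs_nonneg _) h9 2
    linarith
  have hcF : Continuous fun x => 2 * (3072 * D ^ 2 * T ^ (10 / 3 : ℝ)) * ∑ i, ‖F i x‖ ^ 2 :=
    continuous_const.mul (continuous_finset_sum _ fun i _ => hFc i)
  have hI := MS3_mono hpq (fun x => sq_nonneg (∑' m : ℕ, b (m + N + 1) * qm κ c (m + N + 1) x))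
    (g := fun x => 2 * (3072 * D ^ 2 * T ^ (10 / 3 : ℝ)) * (∑ i, ‖F i x‖ ^ 2) +
        2 * (K * Z * T ^ (11 / 12 : ℝ)) ^ 2)
    (hcF.add continuous_const).continuousOn hpt
  refine hI.trans ?_
  rw [intervalIntegral.integral_add (hcF.intervalIntegrable _ _) (by simp),
    intervalIntegral.integral_const, intervalIntegral.integral_const_mul,
    intervalIntegral.integral_finset_sum
    (f := fun i x => ‖F i x‖ ^ 2) fun i _ => (hFc i).intervalIntegrable _ _]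
  have h9 : ∑ i, ∫ x in p..q, ‖F i x‖ ^ 2 ≤ CC * T ^ (-(1 / 3) + ε) := by
    rw [hCC, Finset.sum_mul]
    exact Finset.sum_le_sum fun i _ => hCi i T p q N N1 hT hp hpq hq hNT hNN hN14
  have h10 : T ^ (10 / 3 : ℝ) * T ^ (-(1 / 3) + ε) = T ^ (3 + ε) := by
    rw [← Real.rpow_add hT0]
    congr 1
    ring
  have h11 : 2 * (3072 * D ^ 2 * T ^ (10 / 3 : ℝ)) * ∑ i, ∫ x in p..q, ‖F i x‖ ^ 2 ≤
      2 * (3072 * D ^ 2 * CC) * T ^ (3 + ε) := by
    calc 2 * (3072 * D ^ 2 * T ^ (10 / 3 : ℝ)) * ∑ i, ∫ x in p..q, ‖F i x‖ ^ 2 ≤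
          2 * (3072 * D ^ 2 * T ^ (10 / 3 : ℝ)) * (CC * T ^ (-(1 / 3) + ε)) :=
          mul_le_mul_of_nonneg_left h9 (by positivity)
      _ = 2 * (3072 * D ^ 2 * CC) * (T ^ (10 / 3 : ℝ) * T ^ (-(1 / 3) + ε)) := by ring
      _ = _ := by rw [h10]
  have h12 : (q - p) • (2 * (K * Z * T ^ (11 / 12 : ℝ)) ^ 2) ≤
      14 * (K * Z) ^ 2 * T ^ (3 + ε) := by
    rw [smul_eq_mul]
    have h13 : T * (T ^ (11 / 12 : ℝ)) ^ 2 ≤ T ^ (3 + ε) := by
      have h14 : (T ^ (11 / 12 : ℝ)) ^ 2 = T ^ (11 / 6 : ℝ) := by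
        rw [← Real.rpow_natCast, ← Real.rpow_mul hT0.le]
        norm_num
      have h15 : T * T ^ (11 / 6 : ℝ) = T ^ (17 / 6 : ℝ) := by
        conv_lhs => rw [← Real.rpow_one T, ← Real.rpow_mul hT0.le, one_mul, ← Real.rpow_add hT0]
        norm_num
      rw [h14, h15]
      exact Real.rpow_le_rpow_of_exponent_le hT (by linarith)
    have h16 : q - p ≤ 7 * T := by linarith
    calc (q - p) * (2 * (K * Z * T ^ (11 / 12 : ℝ)) ^ 2) ≤
          (7 * T) * (2 * (K * Z * T ^ (11 / 12 : ℝ)) ^ 2) :=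
          mul_le_mul_of_nonneg_right h16 (by positivity)
      _ = 14 * (K * Z) ^ 2 * (T * (T ^ (11 / 12 : ℝ)) ^ 2) := by ring
      _ ≤ _ := mul_le_mul_of_nonneg_left h13 (by positivity)
  have h17 : 0 < T ^ (3 + ε) := by positivity
  linarith
--END MS4

--BEGIN MS5
private theorem MS5_tri {E : ℝ → ℝ} {y : ℝ} (hy : 0 ≤ y)
    (hE : IntervalIntegrable E volume 0 y) :
    ∫ t in (0 : ℝ)..y, (y - t) * E t = ∫ u in (0 : ℝ)..y, ∫ t in (0 : ℝ)..u, E t := by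
  have hEi : IntegrableOn E (Ioc 0 y) := (intervalIntegrable_iff_integrableOn_Ioc_of_le hy).1 hE
  let F : ℝ → ℝ → ℝ := fun u t => (Iic u).indicator E t
  have hF : IntegrableOn (Function.uncurry F) (uIoc 0 y ×ˢ uIoc 0 y) := by
    rw [uIoc_of_le hy]
    have h1 : Integrable (fun z : ℝ × ℝ => E z.2)
        ((volume.restrict (Ioc 0 y)).prod (volume.restrict (Ioc 0 y))) :=
      hEi.comp_snd _
    have h2 : MeasurableSet {z : ℝ × ℝ | z.2 ≤ z.1} :=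
      measurableSet_le measurable_snd measurable_fst
    have h3 := h1.indicator h2
    rw [Measure.prod_restrict] at h3
    refine h3.congr (Filter.Eventually.of_forall fun z => ?_)
    simp only [F, Function.uncurry, indicator, mem_Iic, mem_setOf_eq]
  have hsw := intervalIntegral_intervalIntegral_swap (F := F) hF
  have e1 : ∫ u in (0 : ℝ)..y, ∫ t in (0 : ℝ)..y, F u t =
      ∫ u in (0 : ℝ)..y, ∫ t in (0 : ℝ)..u, E t := by
    refine intervalIntegral.integral_congr fun u hu => ?_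
    rw [uIcc_of_le hy] at hu
    rw [intervalIntegral.integral_of_le hy, intervalIntegral.integral_of_le hu.1,
      setIntegral_indicator measurableSet_Iic]
    congr 2
    rw [Ioc_inter_Iic, min_eq_right hu.2]
  have e2 : ∫ t in (0 : ℝ)..y, ∫ u in (0 : ℝ)..y, F u t = ∫ t in (0 : ℝ)..y, (y - t) * E t := by
    refine intervalIntegral.integral_congr fun t ht => ?_
    rw [uIcc_of_le hy] at ht
    have h4 : ∀ u, F u t = (Ici t).indicator (fun _ => E t) u := by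
      intro u
      simp only [F, indicator, mem_Iic, mem_Ici]
    have h4' : (fun u => F u t) = (Ici t).indicator (fun _ => E t) := funext h4
    rw [h4', intervalIntegral.integral_of_le hy, setIntegral_indicator measurableSet_Ici,
      setIntegral_const, smul_eq_mul]
    congr 1
    have h5 : (volume : Measure ℝ).real (Ioc 0 y ∩ Ici t) = y - t := by
      have h6 : (Ioc 0 y ∩ Ici t : Set ℝ) =ᵐ[volume] Icc t y := by
        have h7 : (Ioc 0 y : Set ℝ) =ᵐ[volume] Icc 0 y := Ioc_ae_eq_Icc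
        have h8 := h7.inter (ae_eq_refl (Ici t))
        have h9 : (Icc 0 y ∩ Ici t : Set ℝ) = Icc t y := by
          ext z
          constructor
          · rintro ⟨⟨_, h⟩, h'⟩
            exact ⟨h', h⟩
          · rintro ⟨h, h'⟩
            exact ⟨⟨ht.1.trans h, h'⟩, h⟩
        rw [h9] at h8
        exact h8
      rw [measureReal_def, measure_congr h6, Real.volume_Icc,
        ENNReal.toReal_ofReal (by linarith [ht.2])]
    exact h5
  rw [← e1, hsw, e2]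

/-- **MS5.** Second differences as integrals. -/
theorem second_diff {f f' f'' : ℝ → ℝ} {x h : ℝ} (hh : 0 ≤ h)
    (h1 : ∀ u ∈ Icc x (x + 2 * h), HasDerivAt f (f' u) u)
    (h2 : ∀ u ∈ Icc x (x + 2 * h), HasDerivAt f' (f'' u) u)
    (h3 : ContinuousOn f'' (Icc x (x + 2 * h))) :
    f (x + 2 * h) - 2 * f (x + h) + f x = ∫ u in (0 : ℝ)..h, ∫ v in (0 : ℝ)..h, f'' (x + u + v) := by
  have hin : ∀ u ∈ uIcc (0 : ℝ) h, ∫ v in (0 : ℝ)..h, f'' (x + u + v) =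
      f' (x + u + h) - f' (x + u) := by
    intro u hu
    rw [uIcc_of_le hh] at hu
    rw [intervalIntegral.integral_comp_add_left f'' (x + u), add_zero]
    have hle : x + u ≤ x + u + h := by linarith
    have hsub : Icc (x + u) (x + u + h) ⊆ Icc x (x + 2 * h) :=
      Icc_subset_Icc (by linarith [hu.1]) (by linarith [hu.2])
    refine intervalIntegral.integral_eq_sub_of_hasDerivAt ?_ ?_
    · intro y hy
      rw [uIcc_of_le hle] at hy
      exact h2 y (hsub hy)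
    · exact (h3.mono hsub).intervalIntegrable_of_Icc hle
  have hf'c : ContinuousOn f' (Icc x (x + 2 * h)) := fun u hu =>
    (h2 u hu).continuousAt.continuousWithinAt
  have hs1 : Icc (x + h) (x + 2 * h) ⊆ Icc x (x + 2 * h) := Icc_subset_Icc (by linarith) le_rfl
  have hs2 : Icc x (x + h) ⊆ Icc x (x + 2 * h) := Icc_subset_Icc le_rfl (by linarith)
  have i1 : IntervalIntegrable f' volume (x + h) (x + 2 * h) :=
    (hf'c.mono hs1).intervalIntegrable_of_Icc (by linarith)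
  have i2 : IntervalIntegrable f' volume x (x + h) :=
    (hf'c.mono hs2).intervalIntegrable_of_Icc (by linarith)
  have j1 : ∫ y in (x + h)..(x + 2 * h), f' y = f (x + 2 * h) - f (x + h) := by
    refine intervalIntegral.integral_eq_sub_of_hasDerivAt ?_ i1
    intro y hy
    rw [uIcc_of_le (by linarith)] at hy
    exact h1 y (hs1 hy)
  have j2 : ∫ y in x..(x + h), f' y = f (x + h) - f x := by
    refine intervalIntegral.integral_eq_sub_of_hasDerivAt ?_ i2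
    intro y hy
    rw [uIcc_of_le (by linarith)] at hy
    exact h1 y (hs2 hy)
  rw [intervalIntegral.integral_congr hin]
  have k1 : ∫ u in (0 : ℝ)..h, f' (x + u + h) = ∫ y in (x + h)..(x + 2 * h), f' y := by
    have e1 : ∀ u, f' (x + u + h) = f' (u + (x + h)) := fun u => by
      congr 1
      ring
    simp only [e1]
    rw [intervalIntegral.integral_comp_add_right f' (x + h)]
    congr 1 <;> ring
  have k2 : ∫ u in (0 : ℝ)..h, f' (x + u) = ∫ y in x..(x + h), f' y := by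
    rw [intervalIntegral.integral_comp_add_left f' x, add_zero]
  have l1 : IntervalIntegrable (fun u => f' (x + u + h)) volume 0 h := by
    have h4 := i1.comp_add_right (x + h)
    rw [sub_self] at h4
    have e2 : x + 2 * h - (x + h) = h := by ring
    rw [e2] at h4
    have e1 : ∀ u, f' (x + u + h) = f' (u + (x + h)) := fun u => by
      congr 1
      ring
    simp only [e1]
    exact h4
  have l2 : IntervalIntegrable (fun u => f' (x + u)) volume 0 h := by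
    have h4 := i2.comp_add_left x
    rw [sub_self] at h4
    have e2 : x + h - x = h := by ring
    rwa [e2] at h4
  rw [intervalIntegral.integral_sub l1 l2, k1, k2, j1, j2]
  ring

/-- For `D`, whose second derivative is `E`. -/
theorem D2_second_diff (h : RealSelberg b L 3) {x k : ℝ} (hx : 0 < x) (hk : 0 ≤ k) :
    D2 b L (x + 2 * k) - 2 * D2 b L (x + k) + D2 b L x =
      ∫ u in (0 : ℝ)..k, ∫ v in (0 : ℝ)..k, errTerm b L (x + u + v) := by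
  set E := errTerm b L with hEdef
  have hint : ∀ y : ℝ, 0 ≤ y → IntervalIntegrable E volume 0 y := fun y hy =>
    errTerm3_int h y hy
  have hint2 : ∀ y z : ℝ, 0 ≤ y → 0 ≤ z → IntervalIntegrable E volume y z := fun y z hy hz =>
    (hint y hy).symm.trans (hint z hz)
  let P : ℝ → ℝ := fun u => ∫ t in (0 : ℝ)..u, E t
  have hD : ∀ y : ℝ, 0 ≤ y → D2 b L y = ∫ u in (0 : ℝ)..y, P u := by
    intro y hy
    exact MS5_tri hy (hint y hy)
  have hPc : ContinuousOn P (Icc 0 (x + 2 * k)) := by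
    have h1 := intervalIntegral.continuousOn_primitive_interval
      (f := E) (μ := volume) (a := 0) (b := x + 2 * k)
      (by
        rw [uIcc_of_le (by linarith)]
        exact (intervalIntegrable_iff_integrableOn_Icc_of_le (by linarith)).1
          (hint (x + 2 * k) (by linarith)))
    rw [uIcc_of_le (by linarith)] at h1
    exact h1
  have hPi : ∀ y z : ℝ, 0 ≤ y → y ≤ z → z ≤ x + 2 * k → IntervalIntegrable P volume y z := by
    intro y z hy hyz hz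
    exact (hPc.mono (Icc_subset_Icc hy hz)).intervalIntegrable_of_Icc hyz
  have hin : ∀ u ∈ uIcc (0 : ℝ) k, ∫ v in (0 : ℝ)..k, E (x + u + v) =
      P (x + u + k) - P (x + u) := by
    intro u hu
    rw [uIcc_of_le hk] at hu
    rw [intervalIntegral.integral_comp_add_left E (x + u), add_zero]
    have h1 := intervalIntegral.integral_interval_sub_left
      (hint (x + u + k) (by linarith [hu.1])) (hint (x + u) (by linarith [hu.1]))
    rw [← h1]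
  rw [intervalIntegral.integral_congr hin]
  have k1 : ∫ u in (0 : ℝ)..k, P (x + u + k) = ∫ y in (x + k)..(x + 2 * k), P y := by
    have e1 : ∀ u, P (x + u + k) = P (u + (x + k)) := fun u => by
      congr 1
      ring
    simp only [e1]
    rw [intervalIntegral.integral_comp_add_right P (x + k)]
    congr 1 <;> ring
  have k2 : ∫ u in (0 : ℝ)..k, P (x + u) = ∫ y in x..(x + k), P y := by
    rw [intervalIntegral.integral_comp_add_left P x, add_zero]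
  have i1 := hPi (x + k) (x + 2 * k) (by linarith) (by linarith) le_rfl
  have i2 := hPi x (x + k) (by linarith) (by linarith) (by linarith)
  have i0 := hPi 0 x le_rfl (by linarith) (by linarith)
  have l1 : IntervalIntegrable (fun u => P (x + u + k)) volume 0 k := by
    have h4 := i1.comp_add_right (x + k)
    rw [sub_self] at h4
    have e2 : x + 2 * k - (x + k) = k := by ring
    rw [e2] at h4
    have e1 : ∀ u, P (x + u + k) = P (u + (x + k)) := fun u => by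
      congr 1
      ring
    simp only [e1]
    exact h4
  have l2 : IntervalIntegrable (fun u => P (x + u)) volume 0 k := by
    have h4 := i2.comp_add_left x
    rw [sub_self] at h4
    have e2 : x + k - x = k := by ring
    rwa [e2] at h4
  rw [intervalIntegral.integral_sub l1 l2, k1, k2, hD _ (by linarith), hD _ (by linarith),
    hD _ (by linarith)]
  have m1 := intervalIntegral.integral_add_adjacent_intervals i0 i2
  have m2 := intervalIntegral.integral_add_adjacent_intervals (i0.trans i2) i1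
  rw [← m2, ← m1]
  ring
--END MS5

--BEGIN MS6
private theorem MS6_cont {F : ℝ → ℝ} (hF : Continuous F) (k : ℝ) :
    Continuous (fun x => ∫ v in (0 : ℝ)..k, F (x + v)) :=
  intervalIntegral.continuous_parametric_intervalIntegral_of_continuous' (by fun_prop) _ _

private theorem MS6_cs {F : ℝ → ℝ} (hF : Continuous F) (a : ℝ) {k : ℝ} (hk : 0 < k) :
    (∫ v in a..(a + k), F v) ^ 2 ≤ k * ∫ v in a..(a + k), F v ^ 2 := by
  obtain ⟨m, hm⟩ : ∃ m, m = (∫ v in a..(a + k), F v) / k := ⟨_, rfl⟩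
  have h1 : 0 ≤ ∫ v in a..(a + k), (F v - m) ^ 2 :=
    intervalIntegral.integral_nonneg (by linarith) (fun _ _ => sq_nonneg _)
  have i1 : IntervalIntegrable (fun v => F v ^ 2) volume a (a + k) :=
    (hF.pow 2).intervalIntegrable _ _
  have i2 : IntervalIntegrable (fun v => 2 * m * F v) volume a (a + k) :=
    (continuous_const.mul hF).intervalIntegrable _ _
  have h2 : ∫ v in a..(a + k), (F v - m) ^ 2 = (∫ v in a..(a + k), F v ^ 2) -
      2 * m * (∫ v in a..(a + k), F v) + k * m ^ 2 := by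
    have h3 : ∀ v, (F v - m) ^ 2 = F v ^ 2 - 2 * m * F v + m ^ 2 := fun v => by ring
    simp only [h3]
    rw [intervalIntegral.integral_add (i1.sub i2) intervalIntegrable_const,
      intervalIntegral.integral_sub i1 i2, intervalIntegral.integral_const_mul,
      intervalIntegral.integral_const, smul_eq_mul]
    ring
  rw [h2] at h1
  have h4 : (∫ v in a..(a + k), F v) = m * k := by
    rw [hm]; field_simp
  rw [h4] at h1 ⊢
  nlinarith [mul_nonneg hk.le h1]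

/-- the mean square of an average of shifts -/
private theorem MS6_avg {F : ℝ → ℝ} (hF : Continuous F) {p q k : ℝ} (hpq : p ≤ q) (hk : 0 < k) :
    ∫ x in p..q, (∫ v in (0 : ℝ)..k, F (x + v)) ^ 2 ≤ k ^ 2 * ∫ x in p..(q + k), F x ^ 2 := by
  obtain ⟨G, hG⟩ : ∃ G : ℝ → ℝ, G = fun t => ∫ y in p..t, F y ^ 2 := ⟨_, rfl⟩
  have hFi : ∀ u v, IntervalIntegrable (fun y => F y ^ 2) volume u v := fun u v =>
    (hF.pow 2).intervalIntegrable _ _
  have hGc : Continuous G := by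
    rw [hG]
    exact intervalIntegral.continuous_primitive hFi p
  have hGi : ∀ u v, IntervalIntegrable G volume u v := fun u v => hGc.intervalIntegrable _ _
  have hG0 : ∀ t, p ≤ t → 0 ≤ G t := by
    intro t ht
    rw [hG]
    exact intervalIntegral.integral_nonneg ht (fun _ _ => sq_nonneg _)
  have hGs : ∀ u v, G v - G u = ∫ y in u..v, F y ^ 2 := by
    intro u v
    rw [hG]
    exact intervalIntegral.integral_interval_sub_left (hFi _ _) (hFi _ _)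
  have hGm : ∀ u v, u ≤ v → G u ≤ G v := by
    intro u v huv
    have h1 := hGs u v
    have h2 : 0 ≤ ∫ y in u..v, F y ^ 2 :=
      intervalIntegral.integral_nonneg huv (fun _ _ => sq_nonneg _)
    linarith
  have hshift : ∀ x, ∫ v in (0 : ℝ)..k, F (x + v) = ∫ v in x..(x + k), F v := by
    intro x
    rw [intervalIntegral.integral_comp_add_left (fun v => F v), add_zero]
  have h1 : ∫ x in p..q, (∫ v in (0 : ℝ)..k, F (x + v)) ^ 2 ≤
      ∫ x in p..q, k * (G (x + k) - G x) := by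
    refine intervalIntegral.integral_mono_on hpq
      (((MS6_cont hF k).pow 2).intervalIntegrable _ _)
      (Continuous.intervalIntegrable (by fun_prop) _ _) (fun x _ => ?_)
    rw [hshift, hGs]
    exact MS6_cs hF x hk
  refine h1.trans ?_
  rw [intervalIntegral.integral_const_mul, intervalIntegral.integral_sub
    (Continuous.intervalIntegrable (by fun_prop) _ _) (hGi _ _),
    intervalIntegral.integral_comp_add_right (fun x => G x)]
  have h2 : (∫ x in (p + k)..(q + k), G x) - ∫ x in p..q, G x =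
      (∫ x in q..(q + k), G x) - ∫ x in p..(p + k), G x := by
    have e1 := intervalIntegral.integral_add_adjacent_intervals (hGi (p + k) q) (hGi q (q + k))
    have e2 := intervalIntegral.integral_add_adjacent_intervals (hGi p (p + k)) (hGi (p + k) q)
    rw [← e1, ← e2]
    ring
  rw [h2]
  have h3 : 0 ≤ ∫ x in p..(p + k), G x :=
    intervalIntegral.integral_nonneg (by linarith) (fun x hx => hG0 x hx.1)
  have h4 : ∫ x in q..(q + k), G x ≤ k * G (q + k) := by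
    have h5 : ∫ x in q..(q + k), G x ≤ ∫ x in q..(q + k), G (q + k) :=
      intervalIntegral.integral_mono_on (by linarith) (hGi _ _) intervalIntegrable_const
        (fun x hx => hGm _ _ hx.2)
    rw [intervalIntegral.integral_const, smul_eq_mul] at h5
    have h6 : (q + k - q) * G (q + k) = k * G (q + k) := by ring
    rwa [h6] at h5
  have h7 : G (q + k) = ∫ x in p..(q + k), F x ^ 2 := by rw [hG]
  rw [h7] at h4
  calc k * ((∫ x in q..(q + k), G x) - ∫ x in p..(p + k), G x)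
      ≤ k * (k * ∫ x in p..(q + k), F x ^ 2) :=
        mul_le_mul_of_nonneg_left (by linarith) hk.le
    _ = _ := by ring

private theorem MS6_avg2 {F : ℝ → ℝ} (hF : Continuous F) {p q k : ℝ} (hpq : p ≤ q) (hk : 0 < k) :
    ∫ x in p..q, (∫ u in (0 : ℝ)..k, ∫ v in (0 : ℝ)..k, F (x + u + v)) ^ 2 ≤
      k ^ 4 * ∫ x in p..(q + 2 * k), F x ^ 2 := by
  have h1 := MS6_avg (MS6_cont hF k) hpq hk
  have h2 := MS6_avg hF (by linarith : p ≤ q + k) hk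
  have h3 : q + k + k = q + 2 * k := by ring
  rw [h3] at h2
  refine h1.trans ?_
  calc k ^ 2 * ∫ x in p..(q + k), (∫ v in (0 : ℝ)..k, F (x + v)) ^ 2
      ≤ k ^ 2 * (k ^ 2 * ∫ x in p..(q + 2 * k), F x ^ 2) :=
        mul_le_mul_of_nonneg_left h2 (by positivity)
    _ = _ := by ring

private theorem MS6_e (x : ℝ) : ‖e x‖ = 1 := by
  unfold e
  rw [norm_exp]
  have : (2 * π * I * ((x : ℝ) : ℂ)) = ((2 * π * x : ℝ) : ℂ) * I := by push_cast; ring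
  rw [this, re_ofReal_mul, I_re, mul_zero, Real.exp_zero]

private theorem MS6_ec : Continuous e := by
  unfold e
  fun_prop

private theorem MS6_km_cont (κ : ℝ) (d : Fin 4 → ℂ) (m : ℕ) {x : ℝ} (hx : 0 < x) :
    ContinuousAt (km κ d m) x := by
  unfold km
  refine tendsto_finsetSum _ fun i _ => ?_
  refine ContinuousAt.mul (continuousAt_const.mul
    (Real.continuousAt_rpow_const _ _ (Or.inl hx.ne'))) ?_
  refine Complex.continuous_re.continuousAt.comp (continuousAt_const.mul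
    (MS6_ec.continuousAt.comp (continuousAt_const.mul ?_)))
  exact (continuousAt_const.mul continuousAt_id).rpow_const (Or.inr (by norm_num))

private theorem MS6_coef {b : ℕ → ℝ}
    (hb : ∀ ε : ℝ, 0 < ε → ∃ C : ℝ, ∀ n : ℕ, 1 ≤ n → |b n| ≤ C * (n : ℝ) ^ ε) {ε : ℝ}
    (hε : 0 < ε) : ∃ C : ℝ, 0 < C ∧ ∀ n : ℕ, 1 ≤ n → |b n| ≤ C * (n : ℝ) ^ ε := by
  obtain ⟨C, hC⟩ := hb ε hε
  refine ⟨|C| + 1, by positivity, fun n hn => (hC n hn).trans ?_⟩
  exact mul_le_mul_of_nonneg_right (by linarith [le_abs_self C]) (by positivity)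

private theorem MS6_qm_bound (κ : ℝ) (c : Fin 3 → ℂ) {m : ℕ} (hm : 1 ≤ m) {x : ℝ} (hx : 1 ≤ x) :
    |qm κ c m x| ≤ (∑ j, ‖c j‖) * ((m : ℝ) ^ (-(4 / 3) : ℝ) * x ^ (5 / 3 : ℝ)) := by
  unfold qm
  have hm' : (1 : ℝ) ≤ m := by exact_mod_cast hm
  refine (Finset.abs_sum_le_sum_abs _ _).trans ?_
  rw [Finset.sum_mul]
  refine Finset.sum_le_sum fun j _ => ?_
  rw [abs_mul, abs_mul, abs_of_nonneg (Real.rpow_nonneg (by linarith) _),
    abs_of_nonneg (Real.rpow_nonneg (by linarith) _)]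
  have h1 : (m : ℝ) ^ (-((4 + (j : ℝ)) / 3)) ≤ (m : ℝ) ^ (-(4 / 3) : ℝ) :=
    Real.rpow_le_rpow_of_exponent_le hm' (by
      have : (0 : ℝ) ≤ (j : ℝ) := by positivity
      linarith)
  have h2 : x ^ ((5 - (j : ℝ)) / 3) ≤ x ^ (5 / 3 : ℝ) :=
    Real.rpow_le_rpow_of_exponent_le hx (by
      have : (0 : ℝ) ≤ (j : ℝ) := by positivity
      linarith)
  have h3 : |(c j * e (3 * (κ * m * x) ^ (1 / 3 : ℝ))).re| ≤ ‖c j‖ := by
    refine (abs_re_le_norm _).trans ?_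
    rw [norm_mul, MS6_e, mul_one]
  calc (m : ℝ) ^ (-((4 + (j : ℝ)) / 3)) * x ^ ((5 - (j : ℝ)) / 3) *
        |(c j * e (3 * (κ * m * x) ^ (1 / 3 : ℝ))).re|
      ≤ (m : ℝ) ^ (-(4 / 3) : ℝ) * x ^ (5 / 3 : ℝ) * ‖c j‖ := by gcongr
    _ = _ := by ring

private theorem MS6_term (h : RealSelberg b L 3) (κ : ℝ) (c : Fin 3 → ℂ) : ∃ C : ℝ, 0 < C ∧
    ∀ (m : ℕ) (x : ℝ), 1 ≤ x → |b m * qm κ c m x| ≤ C * (m : ℝ) ^ (-(7 / 6) : ℝ) * x ^ (5 / 3 : ℝ) := by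
  obtain ⟨C, hC, h1⟩ := MS6_coef h.ramanujan (ε := 1 / 6) (by norm_num)
  refine ⟨C * (∑ j, ‖c j‖ + 1), by positivity, fun m x hx => ?_⟩
  have hx0 : 0 < x := by linarith
  rcases Nat.eq_zero_or_pos m with hm | hm
  · subst hm
    have h2 : qm κ c 0 x = 0 := by
      unfold qm
      refine Finset.sum_eq_zero fun j _ => ?_
      rw [Nat.cast_zero, Real.zero_rpow (by
        have : (0 : ℝ) ≤ (j : ℝ) := by positivity
        have h3 : -((4 + (j : ℝ)) / 3) < 0 := by linarith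
        exact h3.ne), zero_mul, zero_mul]
    rw [h2, mul_zero, abs_zero]
    positivity
  · have hm0 : (0 : ℝ) < m := by exact_mod_cast hm
    rw [abs_mul]
    have h2 := MS6_qm_bound κ c hm hx
    have h3 : (m : ℝ) ^ (-(7 / 6) : ℝ) = (m : ℝ) ^ (1 / 6 : ℝ) * (m : ℝ) ^ (-(4 / 3) : ℝ) := by
      rw [← Real.rpow_add hm0]; norm_num
    have h4 : 0 ≤ ∑ j, ‖c j‖ := Finset.sum_nonneg fun j _ => norm_nonneg _
    calc |b m| * |qm κ c m x| ≤ (C * (m : ℝ) ^ (1 / 6 : ℝ)) *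
          ((∑ j, ‖c j‖) * ((m : ℝ) ^ (-(4 / 3) : ℝ) * x ^ (5 / 3 : ℝ))) :=
          mul_le_mul (h1 m hm) h2 (abs_nonneg _) (by positivity)
      _ ≤ (C * (m : ℝ) ^ (1 / 6 : ℝ)) *
          ((∑ j, ‖c j‖ + 1) * ((m : ℝ) ^ (-(4 / 3) : ℝ) * x ^ (5 / 3 : ℝ))) := by
          gcongr
          linarith
      _ = _ := by rw [h3]; ring

private theorem MS6_summable (h : RealSelberg b L 3) (κ : ℝ) (c : Fin 3 → ℂ) {x : ℝ}
    (hx : 1 ≤ x) : Summable (fun m : ℕ => b m * qm κ c m x) := by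
  obtain ⟨C, hC, h1⟩ := MS6_term h κ c
  refine Summable.of_norm_bounded (g := fun m : ℕ => C * x ^ (5 / 3 : ℝ) *
    (m : ℝ) ^ (-(7 / 6) : ℝ)) ((Real.summable_nat_rpow.2 (by norm_num)).mul_left _) (fun m => ?_)
  rw [Real.norm_eq_abs]
  refine (h1 m x hx).trans (le_of_eq (by ring))

private theorem MS6_tail_cont (h : RealSelberg b L 3) (κ : ℝ) (c : Fin 3 → ℂ) (N : ℕ)
    (hq : ∀ m x, 0 < x → ContinuousAt (qm κ c m) x) (B : ℝ) :
    ContinuousOn (fun x => ∑' m : ℕ, b (m + N + 1) * qm κ c (m + N + 1) x) (Icc 1 B) := by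
  obtain ⟨C, hC, h1⟩ := MS6_term h κ c
  refine continuousOn_tsum (u := fun m : ℕ => C * B ^ (5 / 3 : ℝ) *
    ((m + N + 1 : ℕ) : ℝ) ^ (-(7 / 6) : ℝ)) (fun m x hx => ?_) ?_ (fun m x hx => ?_)
  · exact (continuousAt_const.mul (hq _ x (by linarith [hx.1]))).continuousWithinAt
  · have := (summable_nat_add_iff (N + 1)).2 (Real.summable_nat_rpow (p := (-(7 / 6) : ℝ)).2
      (by norm_num))
    exact this.mul_left _
  · rw [Real.norm_eq_abs]
    refine (h1 _ x hx.1).trans ?_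
    have h2 : x ^ (5 / 3 : ℝ) ≤ B ^ (5 / 3 : ℝ) :=
      Real.rpow_le_rpow (by linarith [hx.1]) hx.2 (by norm_num)
    calc C * ((m + N + 1 : ℕ) : ℝ) ^ (-(7 / 6) : ℝ) * x ^ (5 / 3 : ℝ)
        ≤ C * ((m + N + 1 : ℕ) : ℝ) ^ (-(7 / 6) : ℝ) * B ^ (5 / 3 : ℝ) := by gcongr
      _ = _ := by ring

/-- the sum over `m ≤ N` as an integral, and the rest -/
private theorem MS6_split (h : RealSelberg b L 3) (hw : Wk b L κ C0 c d S) (N : ℕ) {x k : ℝ}
    (hx : 1 ≤ x) (hk : 0 < k) :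
    ∑' m : ℕ, b m * (qm κ c m (x + 2 * k) - 2 * qm κ c m (x + k) + qm κ c m x) =
      (∫ u in (0 : ℝ)..k, ∫ v in (0 : ℝ)..k, ∑ m ∈ Finset.Icc 1 N, b m * km κ d m
        (max (x + u + v) 1)) +
      ((∑' m : ℕ, b (m + N + 1) * qm κ c (m + N + 1) (x + 2 * k)) -
        2 * (∑' m : ℕ, b (m + N + 1) * qm κ c (m + N + 1) (x + k)) +
        ∑' m : ℕ, b (m + N + 1) * qm κ c (m + N + 1) x) := by
  have s1 := MS6_summable h κ c hx
  have s2 := MS6_summable h κ c (x := x + k) (by linarith)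
  have s3 := MS6_summable h κ c (x := x + 2 * k) (by linarith)
  have e1 : ∀ m : ℕ, b m * (qm κ c m (x + 2 * k) - 2 * qm κ c m (x + k) + qm κ c m x) =
      b m * qm κ c m (x + 2 * k) - 2 * (b m * qm κ c m (x + k)) + b m * qm κ c m x := fun m => by
    ring
  simp only [e1]
  rw [((s3.sub (s2.mul_left 2)).add s1).sum_add_tsum_nat_add (N + 1) |>.symm]
  have s1' := (summable_nat_add_iff (N + 1)).2 s1
  have s2' := (summable_nat_add_iff (N + 1)).2 s2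
  have s3' := (summable_nat_add_iff (N + 1)).2 s3
  have e2 : ∑' m : ℕ, (b (m + (N + 1)) * qm κ c (m + (N + 1)) (x + 2 * k) -
      2 * (b (m + (N + 1)) * qm κ c (m + (N + 1)) (x + k)) +
      b (m + (N + 1)) * qm κ c (m + (N + 1)) x) =
      (∑' m : ℕ, b (m + N + 1) * qm κ c (m + N + 1) (x + 2 * k)) -
        2 * (∑' m : ℕ, b (m + N + 1) * qm κ c (m + N + 1) (x + k)) +
        ∑' m : ℕ, b (m + N + 1) * qm κ c (m + N + 1) x := by
    rw [(s3'.sub (s2'.mul_left 2)).tsum_add s1', s3'.tsum_sub (s2'.mul_left 2), tsum_mul_left]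
    rfl
  rw [e2]
  refine congrArg₂ (· + ·) ?_ rfl
  have hq0 : ∀ y, qm κ c 0 y = 0 := by
    intro y
    unfold qm
    refine Finset.sum_eq_zero fun j _ => ?_
    rw [Nat.cast_zero, Real.zero_rpow (by
      have : (0 : ℝ) ≤ (j : ℝ) := by positivity
      have h3 : -((4 + (j : ℝ)) / 3) < 0 := by linarith
      exact h3.ne), zero_mul, zero_mul]
  have e3 : ∑ m ∈ Finset.range (N + 1), (b m * qm κ c m (x + 2 * k) -
      2 * (b m * qm κ c m (x + k)) + b m * qm κ c m x) =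
      (∑ m ∈ Finset.Icc 1 N, b m * qm κ c m (x + 2 * k)) -
      2 * (∑ m ∈ Finset.Icc 1 N, b m * qm κ c m (x + k)) +
      ∑ m ∈ Finset.Icc 1 N, b m * qm κ c m x := by
    rw [Finset.mul_sum, ← Finset.sum_sub_distrib, ← Finset.sum_add_distrib]
    symm
    refine Finset.sum_subset (fun m hm => ?_) (fun m hm hm' => ?_)
    · rw [Finset.mem_Icc] at hm
      rw [Finset.mem_range]
      omega
    · have h0 : m = 0 := by
        rw [Finset.mem_range] at hm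
        rw [Finset.mem_Icc] at hm'
        omega
      subst h0
      rw [hq0, hq0, hq0]
      ring
  rw [e3]
  choose q' hq' using hw.der
  have hsd := second_diff (f := fun y => ∑ m ∈ Finset.Icc 1 N, b m * qm κ c m y)
    (f' := fun y => ∑ m ∈ Finset.Icc 1 N, b m * q' m y)
    (f'' := fun y => ∑ m ∈ Finset.Icc 1 N, b m * km κ d m y) (x := x) (h := k) hk.le
    (fun u hu => HasDerivAt.fun_sum fun m _ => (hq' m u (by linarith [hu.1])).1.const_mul _)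
    (fun u hu => HasDerivAt.fun_sum fun m _ => (hq' m u (by linarith [hu.1])).2.const_mul _)
    (continuousOn_finsetSum _ fun m _ => continuousOn_const.mul (fun u hu => by
      exact (MS6_km_cont κ d m (by linarith [hu.1])).continuousWithinAt))
  refine hsd.trans ?_
  refine intervalIntegral.integral_congr fun u hu => ?_
  refine intervalIntegral.integral_congr fun v hv => ?_
  rw [uIcc_of_le hk.le] at hu hv
  have h5 : max (x + u + v) 1 = x + u + v := max_eq_left (by linarith [hu.1, hv.1])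
  simp only [h5]

private theorem MS6_mono {f g : ℝ → ℝ} {p q : ℝ} (hpq : p ≤ q) (hf : ∀ x ∈ Icc p q, 0 ≤ f x)
    (hg : IntervalIntegrable g volume p q) (h : ∀ x ∈ Icc p q, f x ≤ g x) :
    ∫ x in p..q, f x ≤ ∫ x in p..q, g x := by
  rw [intervalIntegral.integral_of_le hpq, intervalIntegral.integral_of_le hpq]
  refine integral_mono_of_nonneg ?_ ((intervalIntegrable_iff_integrableOn_Ioc_of_le hpq).1 hg) ?_
  · filter_upwards [self_mem_ae_restrict measurableSet_Ioc] with x hx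
    exact hf x (Ioc_subset_Icc_self hx)
  · filter_upwards [self_mem_ae_restrict measurableSet_Ioc] with x hx
    exact h x (Ioc_subset_Icc_self hx)

private theorem MS6_approx {E : ℝ → ℝ} (hE : ∀ y, 0 ≤ y → IntervalIntegrable E volume 0 y)
    {x k B : ℝ} (hx : 0 ≤ x) (hk : 0 < k)
    (hB : ∀ z, x ≤ z → z ≤ x + 2 * k → |E z - E x| ≤ B) :
    |(∫ u in (0 : ℝ)..k, ∫ v in (0 : ℝ)..k, E (x + u + v)) - k ^ 2 * E x| ≤ k ^ 2 * B := by
  have hEi : ∀ a b, 0 ≤ a → 0 ≤ b → IntervalIntegrable E volume a b := fun a b ha hb =>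
    (hE a ha).symm.trans (hE b hb)
  have hH : ContinuousOn (fun t => ∫ y in (0 : ℝ)..t, E y) (Icc 0 (x + 2 * k)) := by
    have := intervalIntegral.continuousOn_primitive_interval' (hE (x + 2 * k) (by linarith))
      left_mem_uIcc
    rwa [uIcc_of_le (by linarith : 0 ≤ x + 2 * k)] at this
  have hI : EqOn (fun u => ∫ v in (0 : ℝ)..k, E (x + u + v))
      (fun u => (∫ y in (0 : ℝ)..(x + u + k), E y) - ∫ y in (0 : ℝ)..(x + u), E y) (Icc 0 k) := by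
    intro u hu
    simp only
    rw [intervalIntegral.integral_comp_add_left (fun v => E v), add_zero,
      intervalIntegral.integral_interval_sub_left (hE _ (by linarith [hu.1]))
        (hE _ (by linarith [hu.1]))]
  have hIc : ContinuousOn (fun u => ∫ v in (0 : ℝ)..k, E (x + u + v)) (Icc 0 k) := by
    refine ContinuousOn.congr ?_ hI
    refine ContinuousOn.sub ?_ ?_
    · exact hH.comp (f := fun u => x + u + k) (by fun_prop)
        (fun u hu => ⟨by linarith [hu.1], by linarith [hu.2]⟩)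
    · exact hH.comp (f := fun u => x + u) (by fun_prop)
        (fun u hu => ⟨by linarith [hu.1], by linarith [hu.2]⟩)
  have hIi : IntervalIntegrable (fun u => ∫ v in (0 : ℝ)..k, E (x + u + v)) volume 0 k :=
    ContinuousOn.intervalIntegrable (by rwa [uIcc_of_le hk.le])
  have h1 : (∫ u in (0 : ℝ)..k, ∫ v in (0 : ℝ)..k, E (x + u + v)) - k ^ 2 * E x =
      ∫ u in (0 : ℝ)..k, ((∫ v in (0 : ℝ)..k, E (x + u + v)) - k * E x) := by
    rw [intervalIntegral.integral_sub hIi intervalIntegrable_const,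
      intervalIntegral.integral_const, smul_eq_mul]
    ring
  rw [h1, ← Real.norm_eq_abs]
  have h2 : ∀ u ∈ Set.uIoc (0 : ℝ) k, ‖(∫ v in (0 : ℝ)..k, E (x + u + v)) - k * E x‖ ≤ B * k := by
    intro u hu
    rw [uIoc_of_le hk.le] at hu
    have h3 : IntervalIntegrable (fun v => E (x + u + v)) volume 0 k := by
      have h4 := (hEi (x + u) (x + u + k) (by linarith [hu.1]) (by linarith [hu.1])).comp_add_left
        (x + u)
      rwa [sub_self, add_sub_cancel_left] at h4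
    have h5 : (∫ v in (0 : ℝ)..k, E (x + u + v)) - k * E x =
        ∫ v in (0 : ℝ)..k, (E (x + u + v) - E x) := by
      rw [intervalIntegral.integral_sub h3 intervalIntegrable_const,
        intervalIntegral.integral_const, smul_eq_mul, sub_zero]
    rw [h5]
    have h6 := intervalIntegral.norm_integral_le_of_norm_le_const (a := 0) (b := k)
      (f := fun v => E (x + u + v) - E x) (C := B) (fun v hv => by
        rw [uIoc_of_le hk.le] at hv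
        rw [Real.norm_eq_abs]
        exact hB _ (by linarith [hu.1, hv.1]) (by linarith [hu.2, hv.2]))
    rwa [sub_zero, abs_of_pos hk] at h6
  have h3 := intervalIntegral.norm_integral_le_of_norm_le_const h2
  rw [sub_zero, abs_of_pos hk] at h3
  refine h3.trans (le_of_eq (by ring))

private theorem MS6_five (a b c d r : ℝ) :
    (a + b - 2 * c + d + r) ^ 2 ≤ 5 * (a ^ 2 + b ^ 2 + 4 * c ^ 2 + d ^ 2 + r ^ 2) := by
  nlinarith [sq_nonneg (a - b), sq_nonneg (a + 2 * c), sq_nonneg (a - d), sq_nonneg (a - r),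
    sq_nonneg (b + 2 * c), sq_nonneg (b - d), sq_nonneg (b - r), sq_nonneg (2 * c + d),
    sq_nonneg (2 * c + r), sq_nonneg (d - r)]

private theorem MS6_point (h : RealSelberg b L 3) (hw : Wk b L κ C0 c d S) {ε : ℝ} (hε : 0 < ε) :
    ∃ C : ℝ, 0 < C ∧ ∀ (T x : ℝ) (N : ℕ), 1 ≤ T → T ≤ x → x ≤ 2 * T →
      errTerm b L x ^ 2 ≤ 80 * T ^ (-(4 / 3) : ℝ) *
        ((∫ u in (0 : ℝ)..(T ^ (1 / 3 : ℝ) / 2), ∫ v in (0 : ℝ)..(T ^ (1 / 3 : ℝ) / 2),
          ∑ m ∈ Finset.Icc 1 N, b m * km κ d m (max (x + u + v) 1)) ^ 2 +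
        (∑' m : ℕ, b (m + N + 1) * qm κ c (m + N + 1) (x + 2 * (T ^ (1 / 3 : ℝ) / 2))) ^ 2 +
        4 * (∑' m : ℕ, b (m + N + 1) * qm κ c (m + N + 1) (x + T ^ (1 / 3 : ℝ) / 2)) ^ 2 +
        (∑' m : ℕ, b (m + N + 1) * qm κ c (m + N + 1) x) ^ 2) + C * T ^ (2 / 3 + ε) := by
  obtain ⟨C1, hC1, h1⟩ := errTerm3_diff h (ε := ε / 2) (by linarith)
  obtain ⟨C2, hC2, h2⟩ := hw.diff (ε / 2) (by linarith)
  obtain ⟨C6, hC6⟩ : ∃ C6 : ℝ, C6 = C1 * 2 ^ (ε / 2) + C2 + C2 * 2 ^ (1 + ε / 2) := ⟨_, rfl⟩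
  have hC60 : 0 < C6 := by rw [hC6]; positivity
  refine ⟨80 * C6 ^ 2, by positivity, fun T x N hT hTx hxT => ?_⟩
  have hT0 : 0 < T := by linarith
  have hx0 : 0 < x := by linarith
  have hx1 : 1 ≤ x := by linarith
  obtain ⟨k, hk⟩ : ∃ k : ℝ, k = T ^ (1 / 3 : ℝ) / 2 := ⟨_, rfl⟩
  rw [← hk]
  have hk0 : 0 < k := by rw [hk]; positivity
  have hkT : 2 * k ≤ T := by
    rw [hk]
    have : T ^ (1 / 3 : ℝ) ≤ T ^ (1 : ℝ) := Real.rpow_le_rpow_of_exponent_le hT (by norm_num)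
    rw [Real.rpow_one] at this
    linarith
  have e1 := MS6_approx (E := errTerm b L) (fun y hy => errTerm3_int h y hy) hx0.le hk0
    (B := C1 * (2 * k + 1) * x ^ (ε / 2)) (fun z hz1 hz2 => by
      refine (h1 x z hx1 hz1 (by linarith)).trans ?_
      have : z - x + 1 ≤ 2 * k + 1 := by linarith
      gcongr)
  rw [← D2_second_diff h hx0 hk0.le] at e1
  have e2 := h2 x k hx1 hk0 (by linarith)
  rw [MS6_split h hw N hx1 hk0] at e2
  set J := ∫ u in (0 : ℝ)..k, ∫ v in (0 : ℝ)..k, ∑ m ∈ Finset.Icc 1 N, b m * km κ d m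
    (max (x + u + v) 1) with hJ
  set t2 := ∑' m : ℕ, b (m + N + 1) * qm κ c (m + N + 1) (x + 2 * k) with ht2
  set t1 := ∑' m : ℕ, b (m + N + 1) * qm κ c (m + N + 1) (x + k) with ht1
  set t0 := ∑' m : ℕ, b (m + N + 1) * qm κ c (m + N + 1) x with ht0
  obtain ⟨r, hr⟩ : ∃ r, r = k ^ 2 * errTerm b L x - (J + t2 - 2 * t1 + t0) := ⟨_, rfl⟩
  have hkk : k ^ 2 = T ^ (2 / 3 : ℝ) / 4 := by
    rw [hk, div_pow, ← Real.rpow_natCast, ← Real.rpow_mul hT0.le]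
    norm_num
  have hr1 : |r| ≤ C6 * T ^ (1 + ε / 2) := by
    have e3 : |r| ≤ k ^ 2 * (C1 * (2 * k + 1) * x ^ (ε / 2)) + (C2 * k ^ 2 +
        C2 * x ^ (1 + ε / 2)) := by
      rw [hr]
      have e4 : k ^ 2 * errTerm b L x - (J + t2 - 2 * t1 + t0) =
        -((D2 b L (x + 2 * k) - 2 * D2 b L (x + k) + D2 b L x) - k ^ 2 * errTerm b L x) +
        ((D2 b L (x + 2 * k) - 2 * D2 b L (x + k) + D2 b L x) - (J + (t2 - 2 * t1 + t0))) := by
        ring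
      rw [e4]
      refine (abs_add_le _ _).trans ?_
      rw [abs_neg]
      exact add_le_add e1 e2
    refine e3.trans ?_
    have e5 : 2 * k + 1 ≤ 2 * T ^ (1 / 3 : ℝ) := by
      rw [hk]
      have : 1 ≤ T ^ (1 / 3 : ℝ) := Real.one_le_rpow hT (by norm_num)
      linarith
    have e6 : x ^ (ε / 2) ≤ 2 ^ (ε / 2) * T ^ (ε / 2) := by
      rw [← Real.mul_rpow (by norm_num) hT0.le]
      exact Real.rpow_le_rpow hx0.le hxT (by linarith)
    have e7 : x ^ (1 + ε / 2) ≤ 2 ^ (1 + ε / 2) * T ^ (1 + ε / 2) := by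
      rw [← Real.mul_rpow (by norm_num) hT0.le]
      exact Real.rpow_le_rpow hx0.le hxT (by linarith)
    have e8 : T ^ (2 / 3 : ℝ) * (T ^ (1 / 3 : ℝ) * T ^ (ε / 2)) = T ^ (1 + ε / 2) := by
      rw [← Real.rpow_add hT0, ← Real.rpow_add hT0]
      congr 1
      ring
    have e9 : T ^ (2 / 3 : ℝ) ≤ T ^ (1 + ε / 2) :=
      Real.rpow_le_rpow_of_exponent_le hT (by linarith)
    have f1 : k ^ 2 * (C1 * (2 * k + 1) * x ^ (ε / 2)) ≤ C1 * 2 ^ (ε / 2) * T ^ (1 + ε / 2) := by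
      calc k ^ 2 * (C1 * (2 * k + 1) * x ^ (ε / 2))
          ≤ k ^ 2 * (C1 * (2 * T ^ (1 / 3 : ℝ)) * (2 ^ (ε / 2) * T ^ (ε / 2))) := by gcongr
        _ = 1 / 2 * (C1 * 2 ^ (ε / 2) * (T ^ (2 / 3 : ℝ) * (T ^ (1 / 3 : ℝ) * T ^ (ε / 2)))) := by
          rw [hkk]; ring
        _ ≤ 1 * (C1 * 2 ^ (ε / 2) * T ^ (1 + ε / 2)) := by
          rw [e8]
          gcongr
          norm_num
        _ = _ := one_mul _
    have f2 : C2 * k ^ 2 ≤ C2 * T ^ (1 + ε / 2) := by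
      rw [hkk]
      have : 0 ≤ T ^ (2 / 3 : ℝ) := by positivity
      gcongr
      linarith
    have f3 : C2 * x ^ (1 + ε / 2) ≤ C2 * 2 ^ (1 + ε / 2) * T ^ (1 + ε / 2) := by
      rw [mul_assoc]
      gcongr
    rw [hC6]
    linarith
  have hr2 : r ^ 2 ≤ C6 ^ 2 * T ^ (2 + ε) := by
    have e3 : T ^ (2 + ε) = (T ^ (1 + ε / 2)) ^ 2 := by
      rw [← Real.rpow_natCast, ← Real.rpow_mul hT0.le]
      congr 1
      push_cast
      ring
    rw [e3, ← mul_pow, ← sq_abs r]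
    exact pow_le_pow_left₀ (abs_nonneg _) hr1 2
  have h5 := MS6_five J t2 t1 t0 r
  have e10 : J + t2 - 2 * t1 + t0 + r = k ^ 2 * errTerm b L x := by rw [hr]; ring
  rw [e10] at h5
  have e11 : (k ^ 2 * errTerm b L x) ^ 2 = T ^ (4 / 3 : ℝ) / 16 * errTerm b L x ^ 2 := by
    rw [hkk, mul_pow, div_pow, ← Real.rpow_natCast, ← Real.rpow_mul hT0.le]
    norm_num
  rw [e11] at h5
  have e12 : T ^ (-(4 / 3) : ℝ) * T ^ (4 / 3 : ℝ) = 1 := by
    rw [← Real.rpow_add hT0, neg_add_cancel, Real.rpow_zero]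
  have e13 : T ^ (-(4 / 3) : ℝ) * T ^ (2 + ε) = T ^ (2 / 3 + ε) := by
    rw [← Real.rpow_add hT0]
    congr 1
    ring
  have hTm : 0 < T ^ (-(4 / 3) : ℝ) := by positivity
  calc errTerm b L x ^ 2 = 16 * (T ^ (-(4 / 3) : ℝ) *
        (T ^ (4 / 3 : ℝ) / 16 * errTerm b L x ^ 2)) := by
        have : 16 * (T ^ (-(4 / 3) : ℝ) * (T ^ (4 / 3 : ℝ) / 16 * errTerm b L x ^ 2)) =
          T ^ (-(4 / 3) : ℝ) * T ^ (4 / 3 : ℝ) * errTerm b L x ^ 2 := by ring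
        rw [this, e12, one_mul]
    _ ≤ 16 * (T ^ (-(4 / 3) : ℝ) * (5 * (J ^ 2 + t2 ^ 2 + 4 * t1 ^ 2 + t0 ^ 2 +
        C6 ^ 2 * T ^ (2 + ε)))) := by
        have : 5 * (J ^ 2 + t2 ^ 2 + 4 * t1 ^ 2 + t0 ^ 2 + r ^ 2) ≤
          5 * (J ^ 2 + t2 ^ 2 + 4 * t1 ^ 2 + t0 ^ 2 + C6 ^ 2 * T ^ (2 + ε)) := by linarith
        have h6 := h5.trans this
        gcongr
    _ = 80 * T ^ (-(4 / 3) : ℝ) * (J ^ 2 + t2 ^ 2 + 4 * t1 ^ 2 + t0 ^ 2) +
        80 * C6 ^ 2 * (T ^ (-(4 / 3) : ℝ) * T ^ (2 + ε)) := by ring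
    _ = _ := by rw [e13]

/-- **MS6.** The mean square of `E_g`, `g` of degree 3. With `k = T^{1/3}`:
`E_g(x) = k^{-2} Δ²D(x) + O(T^{1/3+ε})` (VX8 `errTerm3_diff`, MS5), `Wk.diff`, and MS3 (for
`m ≤ N = ⌊T⌋`, MS5 for `q_m`), MS4 (for `m > N`, the three shifts). -/
theorem Eg_ms (h : RealSelberg b L 3) (hw : Wk b L κ C0 c d S) {ε : ℝ} (hε : 0 < ε) :
    ∃ C : ℝ, 0 < C ∧ ∀ T : ℝ, 1 ≤ T →
      ∫ x in T..(2 * T), errTerm b L x ^ 2 ≤ C * T ^ (5 / 3 + ε) := by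
  obtain ⟨C5, hC5, h5⟩ := MS6_point h hw hε
  obtain ⟨C3, hC3, h3⟩ := km_ms h hw.kpos d hε
  obtain ⟨C4, hC4, h4⟩ := qm_ms h hw.kpos c hε
  refine ⟨5 * C3 + 480 * C4 + C5, by positivity, fun T hT => ?_⟩
  have hT0 : 0 < T := by linarith
  obtain ⟨k, hk⟩ : ∃ k : ℝ, k = T ^ (1 / 3 : ℝ) / 2 := ⟨_, rfl⟩
  have hk0 : 0 < k := by rw [hk]; positivity
  have hkT : 2 * k ≤ T := by
    rw [hk]
    have : T ^ (1 / 3 : ℝ) ≤ T ^ (1 : ℝ) := Real.rpow_le_rpow_of_exponent_le hT (by norm_num)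
    rw [Real.rpow_one] at this
    linarith
  obtain ⟨N, hN⟩ : ∃ N : ℕ, N = ⌊T⌋₊ := ⟨_, rfl⟩
  have hN1 : (N : ℝ) ≤ T := by rw [hN]; exact Nat.floor_le hT0.le
  have hN2 : T / 2 ≤ N := by
    have h1 := Nat.lt_floor_add_one T
    have h2 : (1 : ℝ) ≤ N := by
      rw [hN]
      exact_mod_cast Nat.one_le_iff_ne_zero.2 (Nat.floor_pos.2 hT).ne'
    rw [← hN] at h1
    linarith
  obtain ⟨F, hF⟩ : ∃ F : ℝ → ℝ, F = fun y => ∑ m ∈ Finset.Icc 1 N, b m * km κ d m (max y 1) :=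
    ⟨_, rfl⟩
  obtain ⟨t, ht⟩ : ∃ t : ℝ → ℝ, t = fun x => ∑' m : ℕ, b (m + N + 1) * qm κ c (m + N + 1) x :=
    ⟨_, rfl⟩
  have hFc : Continuous F := by
    rw [hF]
    refine continuous_finsetSum _ fun m _ => continuous_const.mul ?_
    refine continuous_iff_continuousAt.2 fun y => ?_
    have h1 : ContinuousAt (km κ d m) (max y 1) :=
      MS6_km_cont κ d m (lt_of_lt_of_le one_pos (le_max_right _ _))
    exact ContinuousAt.comp (f := fun y : ℝ => max y 1) h1 (by fun_prop)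
  have htc : ContinuousOn t (Icc 1 (4 * T)) := by
    rw [ht]
    refine MS6_tail_cont h κ c N (fun m x hx => ?_) (4 * T)
    obtain ⟨q', hq'⟩ := hw.der m
    exact (hq' x hx).1.continuousAt
  have hpt : ∀ x ∈ Icc T (2 * T), errTerm b L x ^ 2 ≤
      80 * T ^ (-(4 / 3) : ℝ) * ((∫ u in (0 : ℝ)..k, ∫ v in (0 : ℝ)..k, F (x + u + v)) ^ 2 +
        t (x + 2 * k) ^ 2 + 4 * t (x + k) ^ 2 + t x ^ 2) + C5 * T ^ (2 / 3 + ε) := by
    intro x hx
    rw [hF, ht, hk]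
    exact h5 T x N hT hx.1 hx.2
  have c1 : ContinuousOn (fun x => (∫ u in (0 : ℝ)..k, ∫ v in (0 : ℝ)..k, F (x + u + v)) ^ 2)
      (Icc T (2 * T)) := ((MS6_cont (MS6_cont hFc k) k).pow 2).continuousOn
  have c2 : ContinuousOn (fun x => t (x + 2 * k) ^ 2) (Icc T (2 * T)) :=
    (htc.comp (f := fun x => x + 2 * k) (by fun_prop)
      (fun x hx => ⟨by linarith [hx.1], by linarith [hx.2]⟩)).pow 2
  have c3 : ContinuousOn (fun x => t (x + k) ^ 2) (Icc T (2 * T)) :=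
    (htc.comp (f := fun x => x + k) (by fun_prop)
      (fun x hx => ⟨by linarith [hx.1], by linarith [hx.2]⟩)).pow 2
  have c4 : ContinuousOn (fun x => t x ^ 2) (Icc T (2 * T)) :=
    (htc.mono (Icc_subset_Icc hT (by linarith))).pow 2
  have hTT : T ≤ 2 * T := by linarith
  have hU : uIcc T (2 * T) = Icc T (2 * T) := uIcc_of_le hTT
  have i1 : IntervalIntegrable (fun x => (∫ u in (0 : ℝ)..k, ∫ v in (0 : ℝ)..k,
      F (x + u + v)) ^ 2) volume T (2 * T) := ContinuousOn.intervalIntegrable (hU ▸ c1)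
  have i2 : IntervalIntegrable (fun x => t (x + 2 * k) ^ 2) volume T (2 * T) :=
    ContinuousOn.intervalIntegrable (hU ▸ c2)
  have i3 : IntervalIntegrable (fun x => 4 * t (x + k) ^ 2) volume T (2 * T) :=
    (ContinuousOn.intervalIntegrable (hU ▸ c3)).const_mul 4
  have i4 : IntervalIntegrable (fun x => t x ^ 2) volume T (2 * T) :=
    ContinuousOn.intervalIntegrable (hU ▸ c4)
  have i5 := (((i1.add i2).add i3).add i4).const_mul (80 * T ^ (-(4 / 3) : ℝ))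
  have key : ∫ x in T..(2 * T), errTerm b L x ^ 2 ≤
      80 * T ^ (-(4 / 3) : ℝ) * ((∫ x in T..(2 * T), (∫ u in (0 : ℝ)..k, ∫ v in (0 : ℝ)..k,
        F (x + u + v)) ^ 2) + (∫ x in T..(2 * T), t (x + 2 * k) ^ 2) +
        4 * (∫ x in T..(2 * T), t (x + k) ^ 2) + ∫ x in T..(2 * T), t x ^ 2) +
        T * (C5 * T ^ (2 / 3 + ε)) := by
    refine (MS6_mono hTT (fun _ _ => sq_nonneg _) (i5.add intervalIntegrable_const) hpt).trans
      (le_of_eq ?_)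
    rw [intervalIntegral.integral_add i5 intervalIntegrable_const,
      intervalIntegral.integral_const_mul, intervalIntegral.integral_add ((i1.add i2).add i3) i4,
      intervalIntegral.integral_add (i1.add i2) i3, intervalIntegral.integral_add i1 i2,
      intervalIntegral.integral_const_mul, intervalIntegral.integral_const, smul_eq_mul]
    ring
  have b1 : ∫ x in T..(2 * T), (∫ u in (0 : ℝ)..k, ∫ v in (0 : ℝ)..k, F (x + u + v)) ^ 2 ≤
      k ^ 4 * (C3 * T ^ (5 / 3 + ε)) := by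
    refine (MS6_avg2 hFc hTT hk0).trans (mul_le_mul_of_nonneg_left ?_ (by positivity))
    have e1 : ∫ x in T..(2 * T + 2 * k), F x ^ 2 =
        ∫ x in T..(2 * T + 2 * k), (∑ m ∈ Finset.Icc 1 N, b m * km κ d m x) ^ 2 := by
      refine intervalIntegral.integral_congr fun x hx => ?_
      rw [uIcc_of_le (by linarith)] at hx
      have e2 : max x 1 = x := max_eq_left (by linarith [hx.1])
      simp only [hF, e2]
    rw [e1]
    exact h3 T T (2 * T + 2 * k) N hT le_rfl (by linarith) (by linarith) hN1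
  have b2 : ∫ x in T..(2 * T), t (x + 2 * k) ^ 2 ≤ C4 * T ^ (3 + ε) := by
    rw [intervalIntegral.integral_comp_add_right (fun x => t x ^ 2) (2 * k), ht]
    exact h4 T (T + 2 * k) (2 * T + 2 * k) N hT (by linarith) (by linarith) (by linarith) hN2 hN1
  have b3 : ∫ x in T..(2 * T), t (x + k) ^ 2 ≤ C4 * T ^ (3 + ε) := by
    rw [intervalIntegral.integral_comp_add_right (fun x => t x ^ 2) k, ht]
    exact h4 T (T + k) (2 * T + k) N hT (by linarith) (by linarith) (by linarith) hN2 hN1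
  have b4 : ∫ x in T..(2 * T), t x ^ 2 ≤ C4 * T ^ (3 + ε) := by
    rw [ht]
    exact h4 T T (2 * T) N hT le_rfl (by linarith) (by linarith) hN2 hN1
  have hk4 : k ^ 4 = T ^ (4 / 3 : ℝ) / 16 := by
    rw [hk, div_pow, ← Real.rpow_natCast, ← Real.rpow_mul hT0.le]
    norm_num
  have e1 : T ^ (-(4 / 3) : ℝ) * T ^ (4 / 3 : ℝ) = 1 := by
    rw [← Real.rpow_add hT0, neg_add_cancel, Real.rpow_zero]
  have e2 : T ^ (-(4 / 3) : ℝ) * T ^ (3 + ε) = T ^ (5 / 3 + ε) := by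
    rw [← Real.rpow_add hT0]
    congr 1
    ring
  have e3 : T * T ^ (2 / 3 + ε) = T ^ (5 / 3 + ε) := by
    nth_rewrite 1 [← Real.rpow_one T]
    rw [← Real.rpow_add hT0]
    congr 1
    ring
  refine key.trans ?_
  have hTm : 0 ≤ 80 * T ^ (-(4 / 3) : ℝ) := by positivity
  calc _ ≤ 80 * T ^ (-(4 / 3) : ℝ) * (k ^ 4 * (C3 * T ^ (5 / 3 + ε)) + C4 * T ^ (3 + ε) +
        4 * (C4 * T ^ (3 + ε)) + C4 * T ^ (3 + ε)) + T * (C5 * T ^ (2 / 3 + ε)) := by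
        gcongr
    _ = 5 * C3 * (T ^ (-(4 / 3) : ℝ) * T ^ (4 / 3 : ℝ)) * T ^ (5 / 3 + ε) +
        480 * C4 * (T ^ (-(4 / 3) : ℝ) * T ^ (3 + ε)) + C5 * (T * T ^ (2 / 3 + ε)) := by
        rw [hk4]; ring
    _ = (5 * C3 + 480 * C4 + C5) * T ^ (5 / 3 + ε) := by
        rw [e1, e2, e3]; ring
--END MS6

variable {a : ℕ → ℝ} {L0 : ℝ} {c0 : ℂ}

--BEGIN MS7
private theorem MS7_diff (h : RealSelberg a L 2) {s : ℂ} (hs : s ≠ 1) : DifferentiableAt ℂ L s := by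
  obtain ⟨m, G, A, hG, hGL, -⟩ := h.continuation
  have h1 : DifferentiableAt ℂ (fun z => G z / (z - 1) ^ m) s := by
    refine (hG s).div (by fun_prop) (pow_ne_zero _ (sub_ne_zero.2 hs))
  refine h1.congr_of_eventuallyEq ?_
  filter_upwards [isOpen_ne.mem_nhds hs] with z hz
  have hz' : (z - 1) ^ m ≠ 0 := pow_ne_zero _ (sub_ne_zero.2 hz)
  rw [hGL z hz]; field_simp

private theorem MS7_sphere {r : ℝ} (_hr : 0 < r) (hr' : r ≤ 1 / 2) {s : ℂ}
    (hs : s ∈ Metric.sphere (1 : ℂ) r) :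
    1 - r ≤ s.re ∧ s.re ≤ 1 + r ∧ 1 / 2 ≤ s.re ∧ 1 / 2 ≤ ‖s‖ ∧ ‖s‖ ≤ 3 / 2 := by
  have h1 : ‖s - 1‖ = r := by simpa [dist_eq_norm] using hs
  have h2 : |(s - 1).re| ≤ r := h1 ▸ Complex.abs_re_le_norm (s - 1)
  simp only [Complex.sub_re, Complex.one_re] at h2
  rw [abs_le] at h2
  have h3 : s.re ≤ ‖s‖ := Complex.re_le_norm s
  have h4 : ‖s‖ ≤ ‖s - 1‖ + ‖(1 : ℂ)‖ := by
    have := norm_add_le (s - 1) 1
    simpa using this
  rw [h1, norm_one] at h4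
  refine ⟨by linarith, by linarith, by linarith, by linarith, by linarith⟩

private theorem MS7_cont {k : ℂ → ℂ} {r : ℝ} (hr : 0 < r)
    (hk : ContinuousOn k (Metric.sphere (1 : ℂ) r)) (c : ℂ) :
    ContinuousOn (fun p : ℝ × ℝ => deriv (circleMap 1 r) p.2 •
      (k (circleMap 1 r p.2) * (p.1 : ℂ) ^ (circleMap 1 r p.2 + c))) (Ioi 0 ×ˢ univ) := by
  have h0 : ContinuousOn (fun p : ℝ × ℝ => k (circleMap 1 r p.2)) (Ioi 0 ×ˢ univ) := by
    refine hk.comp (Continuous.continuousOn ?_) ?_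
    · exact (continuous_circleMap 1 r).comp continuous_snd
    · intro p _
      exact circleMap_mem_sphere 1 hr.le p.2
  have h1 : ContinuousOn (fun p : ℝ × ℝ => (p.1 : ℂ) ^ (circleMap 1 r p.2 + c))
      (Ioi 0 ×ˢ univ) := by
    refine ContinuousOn.cpow ?_ ?_ ?_
    · exact (Complex.continuous_ofReal.comp continuous_fst).continuousOn
    · exact (((continuous_circleMap 1 r).comp continuous_snd).add continuous_const).continuousOn
    · rintro ⟨x, y⟩ hp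
      have : 0 < x := hp.1
      exact Or.inl (by simpa using this)
  have h2 : ContinuousOn (fun p : ℝ × ℝ => deriv (circleMap 1 r) p.2) (Ioi 0 ×ˢ univ) := by
    simp only [deriv_circleMap]
    exact (((continuous_circleMap 0 r).comp continuous_snd).mul continuous_const).continuousOn
  exact h2.smul (h0.mul h1)

/-- derivative under the integral sign -/
private theorem MS7_deriv {k : ℂ → ℂ} {r : ℝ} (hr : 0 < r)
    (hk : ContinuousOn k (Metric.sphere (1 : ℂ) r)) (c : ℂ) {x : ℝ} (hx : 0 < x) :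
    HasDerivAt (fun z : ℝ => ∮ s in C(1, r), k s * (z : ℂ) ^ (s + c))
      (∮ s in C(1, r), k s * (s + c) * (x : ℂ) ^ (s + (c - 1))) x := by
  have hk' : ContinuousOn (fun s => k s * (s + c)) (Metric.sphere (1 : ℂ) r) :=
    hk.mul (by fun_prop)
  have c1 := MS7_cont hr hk c
  have c2 := MS7_cont hr hk' (c - 1)
  have hsub : Icc (x / 2) (2 * x) ×ˢ Icc 0 (2 * π) ⊆ (Ioi 0 ×ˢ univ : Set (ℝ × ℝ)) := by
    rintro ⟨p, q⟩ hp
    exact ⟨lt_of_lt_of_le (by positivity : 0 < x / 2) hp.1.1, mem_univ _⟩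
  obtain ⟨B, hB⟩ := (isCompact_Icc.prod isCompact_Icc).exists_bound_of_continuousOn
    (c2.mono hsub)
  have key := intervalIntegral.hasDerivAt_integral_of_dominated_loc_of_deriv_le
    (μ := volume) (a := 0) (b := 2 * π) (x₀ := x) (s := Ioo (x / 2) (2 * x))
    (F := fun (z : ℝ) (θ : ℝ) => deriv (circleMap 1 r) θ •
      (k (circleMap 1 r θ) * (z : ℂ) ^ (circleMap 1 r θ + c)))
    (F' := fun (z : ℝ) (θ : ℝ) => deriv (circleMap 1 r) θ •
      (k (circleMap 1 r θ) * (circleMap 1 r θ + c) * (z : ℂ) ^ (circleMap 1 r θ + (c - 1))))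
    (bound := fun _ => B)
    (Ioo_mem_nhds (by linarith) (by linarith)) ?_ ?_ ?_ ?_ ?_ ?_
  · exact key.2
  · filter_upwards [lt_mem_nhds hx] with z hz
    have : Continuous (fun θ : ℝ => deriv (circleMap 1 r) θ •
      (k (circleMap 1 r θ) * (z : ℂ) ^ (circleMap 1 r θ + c))) := by
      have := c1.comp_continuous (f := fun θ : ℝ => (z, θ)) (by fun_prop)
        (fun θ => ⟨hz, mem_univ _⟩)
      exact this
    exact this.aestronglyMeasurable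
  · have : Continuous (fun θ : ℝ => deriv (circleMap 1 r) θ •
      (k (circleMap 1 r θ) * (x : ℂ) ^ (circleMap 1 r θ + c))) := by
      have := c1.comp_continuous (f := fun θ : ℝ => (x, θ)) (by fun_prop)
        (fun θ => ⟨hx, mem_univ _⟩)
      exact this
    exact this.intervalIntegrable _ _
  · have : Continuous (fun θ : ℝ => deriv (circleMap 1 r) θ •
      (k (circleMap 1 r θ) * (circleMap 1 r θ + c) *
        (x : ℂ) ^ (circleMap 1 r θ + (c - 1)))) := by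
      have := c2.comp_continuous (f := fun θ : ℝ => (x, θ)) (by fun_prop)
        (fun θ => ⟨hx, mem_univ _⟩)
      exact this
    exact this.aestronglyMeasurable
  · refine Filter.Eventually.of_forall fun θ hθ z hz => ?_
    have hθ' : θ ∈ Icc 0 (2 * π) := by
      rw [uIoc_of_le (by positivity)] at hθ
      exact ⟨hθ.1.le, hθ.2⟩
    exact hB (z, θ) ⟨⟨hz.1.le, hz.2.le⟩, hθ'⟩
  · exact intervalIntegrable_const
  · refine Filter.Eventually.of_forall fun θ hθ z hz => ?_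
    have hz0 : 0 < z := lt_trans (by positivity : 0 < x / 2) hz.1
    have h1 : HasDerivAt (fun y : ℂ => y ^ (circleMap 1 r θ + c))
        ((circleMap 1 r θ + c) * (z : ℂ) ^ (circleMap 1 r θ + c - 1) * 1) (z : ℂ) :=
      (hasDerivAt_id (z : ℂ)).cpow_const (Or.inl (by simpa using hz0))
    have h2 := (h1.comp_ofReal).const_mul (k (circleMap 1 r θ))
    have h3 := h2.const_smul (deriv (circleMap 1 r) θ)
    refine h3.congr_deriv ?_
    rw [mul_one, add_sub_assoc, mul_assoc]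

/-- the main term and its derivative -/
private theorem MS7_main (h : RealSelberg a L 2) {ε : ℝ} (hε : 0 < ε) : ∃ K : ℝ, 0 < K ∧
    ∃ P' : ℝ → ℝ, ∀ x : ℝ, 1 ≤ x →
      HasDerivAt (fun z : ℝ => ((2 * π * I : ℂ)⁻¹ * ∮ s in C(1, 1 / 2),
        L s * (z : ℂ) ^ s / s).re) (P' x) x ∧ |P' x| ≤ K * x ^ ε := by
  obtain ⟨r, hr, hr', hrε⟩ : ∃ r : ℝ, 0 < r ∧ r ≤ 1 / 2 ∧ r ≤ ε :=
    ⟨min ε (1 / 2), lt_min hε (by norm_num), min_le_right _ _, min_le_left _ _⟩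
  have kr : ContinuousOn (fun s => L s / s) (Metric.sphere (1 : ℂ) r) := by
    refine ContinuousOn.div (fun s hs => ?_) continuousOn_id (fun s hs => ?_)
    · refine (MS7_diff h ?_).continuousAt.continuousWithinAt
      rintro rfl
      rw [Metric.mem_sphere, dist_self] at hs
      linarith
    · have := (MS7_sphere hr hr' hs).2.2.1
      rintro rfl
      norm_num at this
  have kL : ContinuousOn L (Metric.sphere (1 : ℂ) r) := fun s hs => by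
    refine (MS7_diff h ?_).continuousAt.continuousWithinAt
    rintro rfl
    rw [Metric.mem_sphere, dist_self] at hs
    linarith
  obtain ⟨B, hB⟩ := (isCompact_sphere (1 : ℂ) r).exists_bound_of_continuousOn kL
  have shrink : ∀ x : ℝ, 0 < x → (∮ s in C(1, 1 / 2), L s * (x : ℂ) ^ s / s) =
      ∮ s in C(1, r), L s / s * (x : ℂ) ^ (s + 0) := by
    intro x hx
    have e1 : (∮ s in C(1, r), L s / s * (x : ℂ) ^ (s + 0)) =
        ∮ s in C(1, r), L s * (x : ℂ) ^ s / s := by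
      refine circleIntegral.integral_congr hr.le (fun s _ => ?_)
      simp only [add_zero]
      ring
    rw [e1]
    have hd : ∀ z ∈ Metric.closedBall (1 : ℂ) (1 / 2) \ Metric.ball (1 : ℂ) r,
        DifferentiableAt ℂ (fun s => L s * (x : ℂ) ^ s / s) z := by
      intro z hz
      have hz1 : z ≠ 1 := by
        rintro rfl
        exact hz.2 (Metric.mem_ball_self hr)
      have hz0 : z ≠ 0 := by
        rintro rfl
        have := hz.1
        rw [Metric.mem_closedBall, dist_eq_norm, zero_sub, norm_neg, norm_one] at this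
        norm_num at this
      have hx0 : (x : ℂ) ≠ 0 := by exact_mod_cast hx.ne'
      refine ((MS7_diff h hz1).mul ?_).div differentiableAt_id hz0
      exact (differentiableAt_id).const_cpow (Or.inl hx0)
    refine Complex.circleIntegral_eq_of_differentiable_on_annulus_off_countable hr hr'
      countable_empty (fun z hz => (hd z hz).continuousAt.continuousWithinAt) ?_
    intro z hz
    refine hd z ⟨Metric.ball_subset_closedBall hz.1.1, fun h => hz.1.2 ?_⟩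
    exact Metric.ball_subset_closedBall h
  refine ⟨r * max B 1, by positivity, fun x => ((2 * π * I : ℂ)⁻¹ * ∮ s in C(1, r),
    L s / s * (s + 0) * (x : ℂ) ^ (s + (0 - 1))).re, fun x hx => ⟨?_, ?_⟩⟩
  · have hx0 : 0 < x := by linarith
    have h1 := (MS7_deriv hr kr 0 hx0).const_mul (2 * π * I : ℂ)⁻¹
    have h2 : HasDerivAt (fun z : ℝ => ((2 * π * I : ℂ)⁻¹ * ∮ s in C(1, r),
        L s / s * (z : ℂ) ^ (s + 0)).re) ((2 * π * I : ℂ)⁻¹ * ∮ s in C(1, r),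
        L s / s * (s + 0) * (x : ℂ) ^ (s + (0 - 1))).re x :=
      Complex.reCLM.hasFDerivAt.comp_hasDerivAt x h1
    refine h2.congr_of_eventuallyEq ?_
    filter_upwards [lt_mem_nhds hx0] with z hz
    rw [shrink z hz]
  · have hx0 : 0 < x := by linarith
    refine (abs_re_le_norm _).trans ?_
    have h1 : ∀ s ∈ Metric.sphere (1 : ℂ) r, ‖L s / s * (s + 0) * (x : ℂ) ^ (s + (0 - 1))‖ ≤
        max B 1 * x ^ ε := by
      intro s hs
      have h2 := MS7_sphere hr hr' hs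
      have hs0 : s ≠ 0 := by
        rintro rfl
        have := h2.2.2.1
        norm_num at this
      have h3 : L s / s * (s + 0) = L s := by rw [add_zero]; field_simp
      rw [h3, norm_mul, Complex.norm_cpow_eq_rpow_re_of_pos hx0]
      have h4 : (s + (0 - 1)).re = s.re - 1 := by simp [sub_eq_add_neg]
      rw [h4]
      exact mul_le_mul ((hB s hs).trans (le_max_left _ _))
        (Real.rpow_le_rpow_of_exponent_le hx (by linarith)) (Real.rpow_nonneg hx0.le _)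
        (by positivity)
    have h2 := circleIntegral.norm_two_pi_i_inv_smul_integral_le_of_norm_le_const hr.le h1
    rw [smul_eq_mul] at h2
    refine h2.trans (le_of_eq (by ring))

/-- **MS7.** Short differences and integrability for degree 2. -/
theorem errTerm2_diff (h : RealSelberg a L 2) {ε : ℝ} (hε : 0 < ε) : ∃ C : ℝ, 0 < C ∧
    ∀ x z : ℝ, 1 ≤ x → x ≤ z → z ≤ 2 * x →
      |errTerm a L z - errTerm a L x| ≤ C * (z - x + 1) * x ^ ε := by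
  obtain ⟨Ca, hCa, ha⟩ := MS6_coef h.ramanujan hε
  obtain ⟨K, hK, P', hP⟩ := MS7_main h hε
  refine ⟨(Ca + K) * 2 ^ ε, by positivity, fun x z hx hxz hz => ?_⟩
  have hx0 : 0 < x := by linarith
  have hz0 : 0 < z := by linarith
  set P := fun z : ℝ => ((2 * π * I : ℂ)⁻¹ * ∮ s in C(1, 1 / 2), L s * (z : ℂ) ^ s / s).re with hPd
  have e1 : errTerm a L z - errTerm a L x = ∑ n ∈ Finset.Ioc ⌊x⌋₊ ⌊z⌋₊, a n - (P z - P x) := by
    have e2 : ∑ n ∈ Finset.Icc 1 ⌊z⌋₊, a n = ∑ n ∈ Finset.Icc 1 ⌊x⌋₊, a n +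
        ∑ n ∈ Finset.Ioc ⌊x⌋₊ ⌊z⌋₊, a n := by
      have h3 : Finset.Icc 1 ⌊z⌋₊ = Finset.Icc 1 ⌊x⌋₊ ∪ Finset.Ioc ⌊x⌋₊ ⌊z⌋₊ := by
        have h4 : ⌊x⌋₊ ≤ ⌊z⌋₊ := Nat.floor_mono hxz
        ext n
        simp only [Finset.mem_union, Finset.mem_Icc, Finset.mem_Ioc]
        omega
      rw [h3, Finset.sum_union]
      rw [Finset.disjoint_left]
      intro n hn hn2
      rw [Finset.mem_Icc] at hn
      rw [Finset.mem_Ioc] at hn2
      omega
    have e3 : ∀ x, errTerm a L x = ∑ n ∈ Finset.Icc 1 ⌊x⌋₊, a n - P x := fun x => rfl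
    rw [e3, e3, e2]
    ring
  rw [e1]
  refine (abs_sub _ _).trans ?_
  have h3 : |∑ n ∈ Finset.Ioc ⌊x⌋₊ ⌊z⌋₊, a n| ≤ (z - x + 1) * (Ca * z ^ ε) := by
    have h4 : ∀ n ∈ Finset.Ioc ⌊x⌋₊ ⌊z⌋₊, |a n| ≤ Ca * z ^ ε := by
      intro n hn
      rw [Finset.mem_Ioc] at hn
      refine (ha n (by omega)).trans (mul_le_mul_of_nonneg_left ?_ hCa.le)
      exact Real.rpow_le_rpow (by positivity) ((Nat.le_floor_iff hz0.le).mp hn.2) hε.le
    have h5 := (Finset.abs_sum_le_sum_abs _ _).trans (Finset.sum_le_card_nsmul _ _ _ h4)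
    rw [nsmul_eq_mul, Nat.card_Ioc] at h5
    refine h5.trans (mul_le_mul_of_nonneg_right ?_ (by positivity))
    rw [Nat.cast_sub (Nat.floor_mono hxz)]
    have h6 := Nat.floor_le hz0.le
    have h7 := Nat.lt_floor_add_one x
    linarith
  have h4 : |P z - P x| ≤ K * z ^ ε * (z - x) := by
    have h5 := (convex_Icc x z).norm_image_sub_le_of_norm_hasDerivWithin_le
      (f := P) (f' := P') (C := K * z ^ ε) (x := x) (y := z)
      (fun t ht => (hP t (by linarith [ht.1])).1.hasDerivWithinAt)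
      (fun t ht => by
        rw [Real.norm_eq_abs]
        refine ((hP t (by linarith [ht.1])).2).trans (mul_le_mul_of_nonneg_left ?_ hK.le)
        exact Real.rpow_le_rpow (by linarith [ht.1]) ht.2 hε.le)
      (left_mem_Icc.mpr hxz) (right_mem_Icc.mpr hxz)
    rw [Real.norm_eq_abs, Real.norm_eq_abs, abs_of_nonneg (by linarith : 0 ≤ z - x)] at h5
    exact h5
  have h5 : 0 ≤ K * z ^ ε := by positivity
  have h6 : z ^ ε ≤ 2 ^ ε * x ^ ε := by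
    rw [← Real.mul_rpow (by norm_num) hx0.le]
    exact Real.rpow_le_rpow hz0.le hz hε.le
  have h7 : 0 ≤ (Ca + K) * (z - x + 1) := mul_nonneg (by positivity) (by linarith)
  calc |∑ n ∈ Finset.Ioc ⌊x⌋₊ ⌊z⌋₊, a n| + |P z - P x|
      ≤ (z - x + 1) * (Ca * z ^ ε) + K * z ^ ε * (z - x) := add_le_add h3 h4
    _ ≤ (z - x + 1) * (Ca * z ^ ε) + K * z ^ ε * (z - x + 1) := by nlinarith
    _ = (Ca + K) * (z - x + 1) * z ^ ε := by ring
    _ ≤ (Ca + K) * (z - x + 1) * (2 ^ ε * x ^ ε) := mul_le_mul_of_nonneg_left h6 h7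
    _ = _ := by ring

private theorem MS7_e_deriv {f : ℝ → ℝ} {f' x : ℝ} (h : HasDerivAt f f' x) :
    HasDerivAt (fun y => e (f y)) (2 * π * I * (f' : ℂ) * e (f x)) x := by
  unfold e
  have h1 : HasDerivAt (fun y => ((f y : ℝ) : ℂ)) (f' : ℂ) x := h.ofReal_comp
  have h2 := (h1.const_mul (2 * π * I)).cexp
  refine h2.congr_deriv ?_
  ring

/-- The derivative of `P_m`. -/
theorem Pm_deriv (hκ : 0 < κ) (c0 : ℂ) (m : ℕ) {x : ℝ} (hx : 0 < x) :
    HasDerivAt (Pm κ c0 m) (Pmd κ c0 m x) x ∧ ContinuousAt (Pmd κ c0 m) x := by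
  have hsx : 0 < √x := Real.sqrt_pos.2 hx
  constructor
  · have h1 : HasDerivAt (fun x => 2 * √(κ * m * x)) (√κ * √m / √x) x := by
      have h2 : (fun x => 2 * √(κ * m * x)) = fun x => 2 * (√κ * √m * √x) := by
        funext y
        rw [Real.sqrt_mul (by positivity), Real.sqrt_mul hκ.le]
      rw [h2]
      refine (((Real.hasDerivAt_sqrt hx.ne').const_mul (√κ * √m)).const_mul 2).congr_deriv ?_
      field_simp
    have h5 : HasDerivAt (fun x => (c0 * e (2 * √(κ * m * x))).re)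
        (c0 * (2 * π * I * ((√κ * √m / √x : ℝ) : ℂ) * e (2 * √(κ * m * x)))).re x :=
      Complex.reCLM.hasFDerivAt.comp_hasDerivAt x ((MS7_e_deriv h1).const_mul c0)
    have h6 : HasDerivAt (fun x : ℝ => x ^ (3 / 4 : ℝ)) (3 / 4 * x ^ (3 / 4 - 1 : ℝ)) x :=
      Real.hasDerivAt_rpow_const (Or.inl hx.ne')
    have h7 := h6.mul h5
    have h8 : Pm κ c0 m = fun x => x ^ (3 / 4 : ℝ) * (c0 * e (2 * √(κ * m * x))).re := by
      funext y
      unfold Pm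
      rfl
    rw [h8]
    refine h7.congr_deriv ?_
    unfold Pmd
    have h9 : (c0 * (2 * π * I * ((√κ * √m / √x : ℝ) : ℂ) * e (2 * √(κ * m * x)))).re =
        √m / √x * (2 * π * I * √κ * c0 * e (2 * √(κ * m * x))).re := by
      rw [← Complex.re_ofReal_mul]
      congr 1
      push_cast
      ring
    have h10 : x ^ (3 / 4 : ℝ) * (√m / √x) = √m * x ^ (1 / 4 : ℝ) := by
      have h12 : x ^ (3 / 4 : ℝ) * (1 / √x) = x ^ (1 / 4 : ℝ) := by
        rw [Real.sqrt_eq_rpow, one_div, ← Real.rpow_neg hx.le, ← Real.rpow_add hx]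
        norm_num
      rw [← h12]
      ring
    have h11 : (3 / 4 - 1 : ℝ) = -(1 / 4) := by norm_num
    rw [h9, h11, ← mul_assoc, h10]
    ring
  · unfold Pmd
    have hes : ContinuousAt (fun x : ℝ => e (2 * √(κ * m * x))) x := by
      refine MS6_ec.continuousAt.comp (f := fun x : ℝ => 2 * √(κ * m * x)) ?_
      fun_prop
    refine ContinuousAt.add (ContinuousAt.mul continuousAt_const (ContinuousAt.mul
      (Real.continuousAt_rpow_const _ _ (Or.inl hx.ne')) ?_)) (ContinuousAt.mul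
      (continuousAt_const.mul (Real.continuousAt_rpow_const _ _ (Or.inl hx.ne'))) ?_)
    · exact Complex.continuous_re.continuousAt.comp (continuousAt_const.mul hes)
    · exact Complex.continuous_re.continuousAt.comp (continuousAt_const.mul hes)
--END MS7

--BEGIN MS8
private theorem MS8_cont (c : ℕ → ℝ) (β : ℝ) (M N : ℕ) : Continuous (fun x : ℝ =>
    ∑ m ∈ Finset.Ioc M N, (c m : ℂ) * e (β * (m * x) ^ (1 / 2 : ℝ))) := by
  refine continuous_finsetSum _ fun m _ => continuous_const.mul ?_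
  refine MS6_ec.comp (continuous_const.mul ?_)
  exact (continuous_const.mul continuous_id).rpow_const (fun _ => Or.inr (by norm_num))

private theorem MS8_arg {κ : ℝ} (hκ : 0 < κ) (m : ℕ) {x : ℝ} (_hx : 0 < x) :
    2 * √(κ * m * x) = 2 * √κ * (m * x) ^ (1 / 2 : ℝ) := by
  rw [mul_assoc κ, Real.sqrt_mul hκ.le, ← Real.sqrt_eq_rpow]
  ring

private theorem MS8_re (z : ℂ) (c : ℕ → ℝ) (w : ℕ → ℂ) (F : Finset ℕ) :
    (z * ∑ m ∈ F, (c m : ℂ) * w m).re = ∑ m ∈ F, c m * (z * w m).re := by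
  rw [Finset.mul_sum, Complex.re_sum]
  refine Finset.sum_congr rfl fun m _ => ?_
  rw [← Complex.re_ofReal_mul]
  congr 1
  ring

private theorem MS8_sum (hκ : 0 < κ) (c0 : ℂ) (a : ℕ → ℝ) (F : Finset ℕ)
    (hF : ∀ m ∈ F, 1 ≤ m) {x : ℝ} (hx : 0 < x) :
    ∑ m ∈ F, a m * (m : ℝ) ^ (-(5 / 4) : ℝ) * Pmd κ c0 m x =
      x ^ (1 / 4 : ℝ) * (2 * π * I * √κ * c0 * ∑ m ∈ F,
        ((a m * (m : ℝ) ^ (-(3 / 4) : ℝ) : ℝ) : ℂ) * e (2 * √κ * (m * x) ^ (1 / 2 : ℝ))).re +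
      3 / 4 * x ^ (-(1 / 4) : ℝ) * (c0 * ∑ m ∈ F,
        ((a m * (m : ℝ) ^ (-(5 / 4) : ℝ) : ℝ) : ℂ) * e (2 * √κ * (m * x) ^ (1 / 2 : ℝ))).re := by
  rw [MS8_re, MS8_re, Finset.mul_sum, Finset.mul_sum, ← Finset.sum_add_distrib]
  refine Finset.sum_congr rfl fun m hm => ?_
  unfold Pmd
  rw [MS8_arg hκ m hx]
  have hm0 : (0 : ℝ) < m := by exact_mod_cast hF m hm
  have h1 : (m : ℝ) ^ (-(3 / 4) : ℝ) = (m : ℝ) ^ (-(5 / 4) : ℝ) * √m := by
    rw [Real.sqrt_eq_rpow, ← Real.rpow_add hm0]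
    norm_num
  rw [h1]
  ring

private theorem MS8_sq {A B z w u v : ℝ} (h : |z| ≤ A * u) (h' : |w| ≤ B * v) :
    (z + w) ^ 2 ≤ 2 * (A ^ 2 * u ^ 2 + B ^ 2 * v ^ 2) := by
  have h1 : z ^ 2 ≤ (A * u) ^ 2 := by
    rw [← sq_abs z]
    exact pow_le_pow_left₀ (abs_nonneg _) h 2
  have h2 : w ^ 2 ≤ (B * v) ^ 2 := by
    rw [← sq_abs w]
    exact pow_le_pow_left₀ (abs_nonneg _) h' 2
  nlinarith [sq_nonneg (z - w)]

/-- **MS8.** The mean square of `∑_{M < m ≤ N} a(m) m^{-5/4} P_m'(x)`, `N ≤ T` (MS2, `α = 1/2`,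
`γ = 3/4 - ε'`). -/
theorem Pmd_ms (h : RealSelberg a L 2) (hκ : 0 < κ) (c0 : ℂ) {ε : ℝ} (hε : 0 < ε) :
    ∃ C : ℝ, 0 < C ∧ ∀ (T p q : ℝ) (M N : ℕ), 1 ≤ T → T ≤ p → p ≤ q → q ≤ 8 * T → 1 ≤ M → M ≤ N →
      (N : ℝ) ≤ T →
      ∫ x in p..q, (∑ m ∈ Finset.Ioc M N, a m * (m : ℝ) ^ (-(5 / 4) : ℝ) * Pmd κ c0 m x) ^ 2 ≤
        C * T ^ (1 / 2 + ε) * ((q - p) * (M : ℝ) ^ (-(1 / 2) : ℝ) + T ^ (1 / 2 : ℝ)) := by
  obtain ⟨η, hη, hη1, hη2⟩ : ∃ η : ℝ, 0 < η ∧ η ≤ ε / 4 ∧ η ≤ 1 / 8 :=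
    ⟨min (ε / 4) (1 / 8), lt_min (by linarith) (by norm_num), min_le_left _ _, min_le_right _ _⟩
  obtain ⟨Ca, hCa, ha⟩ := MS6_coef h.ramanujan hη
  have hsκ : 0 < √κ := Real.sqrt_pos.2 hκ
  obtain ⟨C2, hC2, h2⟩ := range_ms (α := 1 / 2) (β := 2 * √κ) (γ := 3 / 4 - η) (ε := ε / 2)
    (by norm_num) (by norm_num) (by positivity) (by linarith) (by linarith)
  obtain ⟨K, hK⟩ : ∃ K : ℝ, K = 6 * ‖2 * π * I * √κ * c0‖ ^ 2 + 2 * ‖c0‖ ^ 2 + 1 := ⟨_, rfl⟩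
  have hK0 : 0 < K := by rw [hK]; positivity
  refine ⟨4 * K * C2 * Ca ^ 2, by positivity, fun T p q M N hT hp hpq hq hM hMN hN => ?_⟩
  have hT0 : 0 < T := by linarith
  have hM0 : (0 : ℝ) < M := by exact_mod_cast hM
  have hM1 : (1 : ℝ) ≤ M := by exact_mod_cast hM
  have hMNR : (M : ℝ) ≤ N := by exact_mod_cast hMN
  have hN4 : (N : ℝ) ≤ T ^ 4 := hN.trans (by
    calc T = T ^ 1 := (pow_one T).symm
      _ ≤ T ^ 4 := pow_le_pow_right₀ hT (by norm_num))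
  obtain ⟨S1, hS1⟩ : ∃ S : ℝ → ℂ, S = fun x => ∑ m ∈ Finset.Ioc M N,
    ((a m * (m : ℝ) ^ (-(3 / 4) : ℝ) : ℝ) : ℂ) * e (2 * √κ * (m * x) ^ (1 / 2 : ℝ)) := ⟨_, rfl⟩
  obtain ⟨S2, hS2⟩ : ∃ S : ℝ → ℂ, S = fun x => ∑ m ∈ Finset.Ioc M N,
    ((a m * (m : ℝ) ^ (-(5 / 4) : ℝ) : ℝ) : ℂ) * e (2 * √κ * (m * x) ^ (1 / 2 : ℝ)) := ⟨_, rfl⟩
  have hc1 : Continuous S1 := by rw [hS1]; exact MS8_cont _ _ _ _
  have hc2 : Continuous S2 := by rw [hS2]; exact MS8_cont _ _ _ _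
  obtain ⟨B, hB⟩ : ∃ B : ℝ, B = C2 * Ca ^ 2 * T ^ (ε / 2) * ((q - p) * (M : ℝ) ^
    (1 - 2 * (3 / 4 - η)) + T ^ (1 - 1 / 2 : ℝ) * ((M : ℝ) ^ (2 - 1 / 2 - 2 * (3 / 4 - η)) +
    (N : ℝ) ^ (2 - 1 / 2 - 2 * (3 / 4 - η)))) := ⟨_, rfl⟩
  have hB1 : ∫ x in p..q, ‖S1 x‖ ^ 2 ≤ B := by
    rw [hS1, hB]
    refine h2 T p q Ca M N (fun m => a m * (m : ℝ) ^ (-(3 / 4) : ℝ)) hT hp hpq hq hM hMN hN4
      hCa.le (fun m hm => ?_)
    have hm0 : (0 : ℝ) < m := by exact_mod_cast hm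
    rw [abs_mul, abs_of_nonneg (Real.rpow_nonneg hm0.le (-(3 / 4) : ℝ))]
    calc |a m| * (m : ℝ) ^ (-(3 / 4) : ℝ) ≤ Ca * (m : ℝ) ^ η * (m : ℝ) ^ (-(3 / 4) : ℝ) :=
          mul_le_mul_of_nonneg_right (ha m hm) (by positivity)
      _ = Ca * (m : ℝ) ^ (-(3 / 4 - η)) := by
          rw [mul_assoc, ← Real.rpow_add hm0]
          congr 2
          ring
  have hB2 : ∫ x in p..q, ‖S2 x‖ ^ 2 ≤ B := by
    rw [hS2, hB]
    refine h2 T p q Ca M N (fun m => a m * (m : ℝ) ^ (-(5 / 4) : ℝ)) hT hp hpq hq hM hMN hN4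
      hCa.le (fun m hm => ?_)
    have hm0 : (0 : ℝ) < m := by exact_mod_cast hm
    rw [abs_mul, abs_of_nonneg (Real.rpow_nonneg hm0.le (-(5 / 4) : ℝ))]
    calc |a m| * (m : ℝ) ^ (-(5 / 4) : ℝ) ≤ Ca * (m : ℝ) ^ η * (m : ℝ) ^ (-(5 / 4) : ℝ) :=
          mul_le_mul_of_nonneg_right (ha m hm) (by positivity)
      _ = Ca * (m : ℝ) ^ (η - 5 / 4) := by
          rw [mul_assoc, ← Real.rpow_add hm0, ← sub_eq_add_neg]
      _ ≤ Ca * (m : ℝ) ^ (-(3 / 4 - η)) := by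
          refine mul_le_mul_of_nonneg_left (Real.rpow_le_rpow_of_exponent_le
            (by exact_mod_cast hm) (by linarith)) hCa.le
  have hi1 : IntervalIntegrable (fun x => ‖S1 x‖ ^ 2) volume p q :=
    Continuous.intervalIntegrable (by fun_prop) _ _
  have hi2 : IntervalIntegrable (fun x => ‖S2 x‖ ^ 2) volume p q :=
    Continuous.intervalIntegrable (by fun_prop) _ _
  have hpt : ∀ x ∈ Icc p q, (∑ m ∈ Finset.Ioc M N, a m * (m : ℝ) ^ (-(5 / 4) : ℝ) *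
      Pmd κ c0 m x) ^ 2 ≤ K * T ^ (1 / 2 : ℝ) * (‖S1 x‖ ^ 2 + ‖S2 x‖ ^ 2) := by
    intro x hx
    have hx0 : 0 < x := by linarith [hx.1]
    have hx1 : 1 ≤ x := by linarith [hx.1]
    rw [MS8_sum hκ c0 a (Finset.Ioc M N) (fun m hm => by
      rw [Finset.mem_Ioc] at hm
      omega) hx0]
    have e1 : S1 x = ∑ m ∈ Finset.Ioc M N,
      ((a m * (m : ℝ) ^ (-(3 / 4) : ℝ) : ℝ) : ℂ) * e (2 * √κ * (m * x) ^ (1 / 2 : ℝ)) := by rw [hS1]
    have e2 : S2 x = ∑ m ∈ Finset.Ioc M N,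
      ((a m * (m : ℝ) ^ (-(5 / 4) : ℝ) : ℝ) : ℂ) * e (2 * √κ * (m * x) ^ (1 / 2 : ℝ)) := by rw [hS2]
    rw [← e1, ← e2]
    have f1 : |x ^ (1 / 4 : ℝ) * (2 * π * I * √κ * c0 * S1 x).re| ≤
        x ^ (1 / 4 : ℝ) * ‖2 * π * I * √κ * c0‖ * ‖S1 x‖ := by
      rw [abs_mul, abs_of_nonneg (Real.rpow_nonneg hx0.le _), mul_assoc (x ^ (1 / 4 : ℝ))
        ‖2 * π * I * √κ * c0‖]
      refine mul_le_mul_of_nonneg_left ((abs_re_le_norm _).trans ?_) (Real.rpow_nonneg hx0.le _)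
      rw [norm_mul]
    have f2 : |3 / 4 * x ^ (-(1 / 4) : ℝ) * (c0 * S2 x).re| ≤ 1 * ‖c0‖ * ‖S2 x‖ := by
      rw [abs_mul, abs_of_nonneg (by positivity)]
      have g1 : 3 / 4 * x ^ (-(1 / 4) : ℝ) ≤ 1 := by
        have := Real.rpow_le_one_of_one_le_of_nonpos hx1 (by norm_num : (-(1 / 4) : ℝ) ≤ 0)
        linarith
      rw [mul_assoc 1]
      refine mul_le_mul g1 ((abs_re_le_norm _).trans ?_) (abs_nonneg _) zero_le_one
      rw [norm_mul]
    refine (MS8_sq f1 f2).trans ?_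
    have g2 : (x ^ (1 / 4 : ℝ)) ^ 2 ≤ 3 * T ^ (1 / 2 : ℝ) := by
      have g3 : (x ^ (1 / 4 : ℝ)) ^ 2 = x ^ (1 / 2 : ℝ) := by
        rw [← Real.rpow_natCast, ← Real.rpow_mul hx0.le]
        norm_num
      have g4 : (9 : ℝ) ^ (1 / 2 : ℝ) = 3 := by
        rw [← Real.sqrt_eq_rpow, show (9 : ℝ) = 3 ^ 2 by norm_num]
        exact Real.sqrt_sq (by norm_num)
      rw [g3, ← g4, ← Real.mul_rpow (by norm_num) hT0.le]
      exact Real.rpow_le_rpow hx0.le (by linarith [hx.2]) (by norm_num)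
    have g5 : 1 ≤ T ^ (1 / 2 : ℝ) := Real.one_le_rpow hT (by norm_num)
    have g6 : 0 ≤ ‖2 * π * I * √κ * c0‖ ^ 2 * ‖S1 x‖ ^ 2 := by positivity
    have g7 : 0 ≤ ‖c0‖ ^ 2 * ‖S2 x‖ ^ 2 := by positivity
    calc 2 * ((x ^ (1 / 4 : ℝ) * ‖2 * π * I * √κ * c0‖) ^ 2 * ‖S1 x‖ ^ 2 +
          (1 * ‖c0‖) ^ 2 * ‖S2 x‖ ^ 2)
        = 2 * ((x ^ (1 / 4 : ℝ)) ^ 2 * (‖2 * π * I * √κ * c0‖ ^ 2 * ‖S1 x‖ ^ 2)) +
          2 * (1 * (‖c0‖ ^ 2 * ‖S2 x‖ ^ 2)) := by ring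
      _ ≤ 2 * (3 * T ^ (1 / 2 : ℝ) * (‖2 * π * I * √κ * c0‖ ^ 2 * ‖S1 x‖ ^ 2)) +
          2 * (T ^ (1 / 2 : ℝ) * (‖c0‖ ^ 2 * ‖S2 x‖ ^ 2)) := by gcongr
      _ ≤ K * T ^ (1 / 2 : ℝ) * (‖S1 x‖ ^ 2 + ‖S2 x‖ ^ 2) := by
          rw [hK]
          have g8 : 0 ≤ T ^ (1 / 2 : ℝ) := by positivity
          have g9 : 0 ≤ T ^ (1 / 2 : ℝ) * ((6 * ‖2 * π * I * √κ * c0‖ ^ 2 + 1) * ‖S2 x‖ ^ 2 +
            (2 * ‖c0‖ ^ 2 + 1) * ‖S1 x‖ ^ 2) := by positivity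
          nlinarith
  refine (MS6_mono hpq (fun _ _ => sq_nonneg _) ((hi1.add hi2).const_mul _) hpt).trans ?_
  rw [intervalIntegral.integral_const_mul, intervalIntegral.integral_add hi1 hi2]
  have hTp : 0 ≤ K * T ^ (1 / 2 : ℝ) := by positivity
  refine (mul_le_mul_of_nonneg_left (add_le_add hB1 hB2) hTp).trans ?_
  have m1 : (M : ℝ) ^ (1 - 2 * (3 / 4 - η)) ≤ T ^ (ε / 2) * (M : ℝ) ^ (-(1 / 2) : ℝ) := by
    have m2 : (M : ℝ) ^ (1 - 2 * (3 / 4 - η)) = (M : ℝ) ^ (2 * η) * (M : ℝ) ^ (-(1 / 2) : ℝ) := by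
      rw [← Real.rpow_add hM0]
      congr 1
      ring
    rw [m2]
    refine mul_le_mul_of_nonneg_right ?_ (by positivity)
    calc (M : ℝ) ^ (2 * η) ≤ T ^ (2 * η) :=
          Real.rpow_le_rpow hM0.le (hMNR.trans hN) (by linarith)
      _ ≤ T ^ (ε / 2) := Real.rpow_le_rpow_of_exponent_le hT (by linarith)
  have m3 : ∀ Z : ℝ, 1 ≤ Z → Z ≤ T → Z ^ (2 - 1 / 2 - 2 * (3 / 4 - η)) ≤ T ^ (ε / 2) := by
    intro Z hZ1 hZ
    have m4 : 2 - 1 / 2 - 2 * (3 / 4 - η) = 2 * η := by ring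
    rw [m4]
    calc Z ^ (2 * η) ≤ T ^ (2 * η) := Real.rpow_le_rpow (by linarith) hZ (by linarith)
      _ ≤ T ^ (ε / 2) := Real.rpow_le_rpow_of_exponent_le hT (by linarith)
  have m5 := m3 M hM1 (hMNR.trans hN)
  have m6 := m3 N (hM1.trans hMNR) hN
  have m7 : (1 - 1 / 2 : ℝ) = 1 / 2 := by norm_num
  rw [hB, m7]
  have hqp : 0 ≤ q - p := by linarith
  have m8 : T ^ (1 / 2 + ε) = T ^ (1 / 2 : ℝ) * (T ^ (ε / 2) * T ^ (ε / 2)) := by
    rw [← Real.rpow_add hT0, ← Real.rpow_add hT0]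
    congr 1
    ring
  have m9 : (q - p) * (M : ℝ) ^ (1 - 2 * (3 / 4 - η)) + T ^ (1 / 2 : ℝ) *
      ((M : ℝ) ^ (2 - 1 / 2 - 2 * (3 / 4 - η)) + (N : ℝ) ^ (2 - 1 / 2 - 2 * (3 / 4 - η))) ≤
      2 * (T ^ (ε / 2) * ((q - p) * (M : ℝ) ^ (-(1 / 2) : ℝ) + T ^ (1 / 2 : ℝ))) := by
    calc _ ≤ (q - p) * (T ^ (ε / 2) * (M : ℝ) ^ (-(1 / 2) : ℝ)) + T ^ (1 / 2 : ℝ) *
          (T ^ (ε / 2) + T ^ (ε / 2)) := by gcongr
      _ ≤ _ := by
          have : 0 ≤ (q - p) * (T ^ (ε / 2) * (M : ℝ) ^ (-(1 / 2) : ℝ)) := by positivity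
          nlinarith
  calc K * T ^ (1 / 2 : ℝ) * (C2 * Ca ^ 2 * T ^ (ε / 2) * ((q - p) * (M : ℝ) ^
        (1 - 2 * (3 / 4 - η)) + T ^ (1 / 2 : ℝ) * ((M : ℝ) ^ (2 - 1 / 2 - 2 * (3 / 4 - η)) +
        (N : ℝ) ^ (2 - 1 / 2 - 2 * (3 / 4 - η)))) + C2 * Ca ^ 2 * T ^ (ε / 2) *
        ((q - p) * (M : ℝ) ^ (1 - 2 * (3 / 4 - η)) + T ^ (1 / 2 : ℝ) * ((M : ℝ) ^
        (2 - 1 / 2 - 2 * (3 / 4 - η)) + (N : ℝ) ^ (2 - 1 / 2 - 2 * (3 / 4 - η)))))
      = 2 * (K * T ^ (1 / 2 : ℝ) * (C2 * Ca ^ 2 * T ^ (ε / 2))) * ((q - p) * (M : ℝ) ^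
        (1 - 2 * (3 / 4 - η)) + T ^ (1 / 2 : ℝ) * ((M : ℝ) ^ (2 - 1 / 2 - 2 * (3 / 4 - η)) +
        (N : ℝ) ^ (2 - 1 / 2 - 2 * (3 / 4 - η)))) := by ring
    _ ≤ 2 * (K * T ^ (1 / 2 : ℝ) * (C2 * Ca ^ 2 * T ^ (ε / 2))) *
        (2 * (T ^ (ε / 2) * ((q - p) * (M : ℝ) ^ (-(1 / 2) : ℝ) + T ^ (1 / 2 : ℝ)))) :=
        mul_le_mul_of_nonneg_left m9 (by positivity)
    _ = _ := by rw [m8]; ring
--END MS8

--BEGIN MS9
private theorem MS9_Pm_le (κ : ℝ) (c0 : ℂ) (m : ℕ) {x : ℝ} (hx : 0 ≤ x) :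
    |Pm κ c0 m x| ≤ ‖c0‖ * x ^ (3 / 4 : ℝ) := by
  unfold Pm
  rw [abs_mul, abs_of_nonneg (Real.rpow_nonneg hx _), mul_comm]
  refine mul_le_mul_of_nonneg_right ((abs_re_le_norm _).trans ?_) (Real.rpow_nonneg hx _)
  rw [norm_mul, MS6_e, mul_one]

/-- the coefficients of the series beyond `n0` -/
private theorem MS9_tail {a : ℕ → ℝ} {Ca η : ℝ} (hη : 0 < η) (hη' : η ≤ 1 / 64) (hCa : 0 < Ca)
    (ha : ∀ n : ℕ, 1 ≤ n → |a n| ≤ Ca * (n : ℝ) ^ η) : ∃ Z : ℝ, 0 < Z ∧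
    ∀ n0 : ℕ, Summable (fun m : ℕ => |a (m + n0 + 1)| * ((m + n0 + 1 : ℕ) : ℝ) ^ (-(5 / 4) : ℝ)) ∧
      ∑' m : ℕ, |a (m + n0 + 1)| * ((m + n0 + 1 : ℕ) : ℝ) ^ (-(5 / 4) : ℝ) ≤
        Z * ((n0 + 1 : ℕ) : ℝ) ^ (-(1 / 4) + 2 * η) := by
  have hs : Summable (fun m : ℕ => (m : ℝ) ^ (-1 - η)) := Real.summable_nat_rpow.2 (by linarith)
  obtain ⟨Z, hZ⟩ : ∃ Z : ℝ, Z = ∑' m : ℕ, (m : ℝ) ^ (-1 - η) := ⟨_, rfl⟩
  have hZ0 : 0 ≤ Z := by rw [hZ]; exact tsum_nonneg fun m => by positivity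
  refine ⟨Ca * (Z + 1), by positivity, fun n0 => ?_⟩
  have hs' : Summable (fun m : ℕ => ((m + (n0 + 1) : ℕ) : ℝ) ^ (-1 - η)) :=
    (summable_nat_add_iff (n0 + 1)).2 hs
  have hle : ∑' m : ℕ, ((m + (n0 + 1) : ℕ) : ℝ) ^ (-1 - η) ≤ Z := by
    have h1 := hs.sum_add_tsum_nat_add (n0 + 1)
    have h2 : 0 ≤ ∑ i ∈ Finset.range (n0 + 1), (i : ℝ) ^ (-1 - η) :=
      Finset.sum_nonneg fun m _ => by positivity
    rw [hZ]
    linarith
  have hb : ∀ m : ℕ, |a (m + n0 + 1)| * ((m + n0 + 1 : ℕ) : ℝ) ^ (-(5 / 4) : ℝ) ≤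
      Ca * ((n0 + 1 : ℕ) : ℝ) ^ (-(1 / 4) + 2 * η) * ((m + (n0 + 1) : ℕ) : ℝ) ^ (-1 - η) := by
    intro m
    have e1 : m + (n0 + 1) = m + n0 + 1 := by ring
    rw [e1]
    have hm0 : (0 : ℝ) < ((m + n0 + 1 : ℕ) : ℝ) := by positivity
    have hn0 : (0 : ℝ) < ((n0 + 1 : ℕ) : ℝ) := by positivity
    calc |a (m + n0 + 1)| * ((m + n0 + 1 : ℕ) : ℝ) ^ (-(5 / 4) : ℝ)
        ≤ Ca * ((m + n0 + 1 : ℕ) : ℝ) ^ η * ((m + n0 + 1 : ℕ) : ℝ) ^ (-(5 / 4) : ℝ) :=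
          mul_le_mul_of_nonneg_right (ha _ (by omega)) (by positivity)
      _ = Ca * (((m + n0 + 1 : ℕ) : ℝ) ^ (-(1 / 4) + 2 * η) *
          ((m + n0 + 1 : ℕ) : ℝ) ^ (-1 - η)) := by
          rw [mul_assoc, ← Real.rpow_add hm0, ← Real.rpow_add hm0]
          congr 2
          ring
      _ ≤ Ca * (((n0 + 1 : ℕ) : ℝ) ^ (-(1 / 4) + 2 * η) *
          ((m + n0 + 1 : ℕ) : ℝ) ^ (-1 - η)) := by
          refine mul_le_mul_of_nonneg_left (mul_le_mul_of_nonneg_right ?_ (by positivity)) hCa.le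
          refine Real.rpow_le_rpow_of_nonpos hn0 ?_ (by linarith)
          exact_mod_cast (by omega : n0 + 1 ≤ m + n0 + 1)
      _ = _ := by ring
  have hsum := Summable.of_nonneg_of_le (fun m => by positivity) hb (hs'.mul_left _)
  refine ⟨hsum, ?_⟩
  refine (hsum.tsum_le_tsum hb (hs'.mul_left _)).trans ?_
  rw [tsum_mul_left]
  calc Ca * ((n0 + 1 : ℕ) : ℝ) ^ (-(1 / 4) + 2 * η) *
        ∑' m : ℕ, ((m + (n0 + 1) : ℕ) : ℝ) ^ (-1 - η)
      ≤ Ca * ((n0 + 1 : ℕ) : ℝ) ^ (-(1 / 4) + 2 * η) * (Z + 1) := by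
        refine mul_le_mul_of_nonneg_left (by linarith) (by positivity)
    _ = _ := by ring

/-- the part `m > n0` of the series -/
private theorem MS9_bound {a : ℕ → ℝ} (κ : ℝ) (c0 : ℂ) {n0 : ℕ}
    (hs : Summable (fun m : ℕ => |a (m + n0 + 1)| * ((m + n0 + 1 : ℕ) : ℝ) ^ (-(5 / 4) : ℝ)))
    {x : ℝ} (hx : 0 ≤ x) :
    Summable (fun m : ℕ => a (m + n0 + 1) * ((m + n0 + 1 : ℕ) : ℝ) ^ (-(5 / 4) : ℝ) *
      Pm κ c0 (m + n0 + 1) x) ∧
    |∑' m : ℕ, a (m + n0 + 1) * ((m + n0 + 1 : ℕ) : ℝ) ^ (-(5 / 4) : ℝ) *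
      Pm κ c0 (m + n0 + 1) x| ≤ (‖c0‖ * x ^ (3 / 4 : ℝ)) *
      ∑' m : ℕ, |a (m + n0 + 1)| * ((m + n0 + 1 : ℕ) : ℝ) ^ (-(5 / 4) : ℝ) := by
  have hb : ∀ m : ℕ, ‖a (m + n0 + 1) * ((m + n0 + 1 : ℕ) : ℝ) ^ (-(5 / 4) : ℝ) *
      Pm κ c0 (m + n0 + 1) x‖ ≤ (‖c0‖ * x ^ (3 / 4 : ℝ)) *
      (|a (m + n0 + 1)| * ((m + n0 + 1 : ℕ) : ℝ) ^ (-(5 / 4) : ℝ)) := by
    intro m
    rw [Real.norm_eq_abs, abs_mul, abs_mul,
      abs_of_nonneg (Real.rpow_nonneg (Nat.cast_nonneg (m + n0 + 1)) (-(5 / 4) : ℝ)), mul_comm]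
    exact mul_le_mul_of_nonneg_right (MS9_Pm_le κ c0 _ hx) (by positivity)
  refine ⟨Summable.of_norm_bounded (hs.mul_left _) hb, ?_⟩
  have := tsum_of_norm_bounded (hs.mul_left (‖c0‖ * x ^ (3 / 4 : ℝ))).hasSum hb
  rwa [tsum_mul_left, Real.norm_eq_abs] at this

private theorem MS9_fin (hκ : 0 < κ) (c0 : ℂ) (a : ℕ → ℝ) {N N' : ℕ} (_hN : N ≤ N') {x : ℝ}
    (hx : 0 < x) :
    ∑ m ∈ Finset.range (N' - N), a (m + N + 1) * ((m + N + 1 : ℕ) : ℝ) ^ (-(5 / 4) : ℝ) *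
      Pm κ c0 (m + N + 1) x = x ^ (3 / 4 : ℝ) * (c0 * ∑ m ∈ Finset.Ioc N N',
        ((a m * (m : ℝ) ^ (-(5 / 4) : ℝ) : ℝ) : ℂ) *
          e (2 * √κ * (m * x) ^ (1 / 2 : ℝ))).re := by
  rw [MS8_re, Finset.mul_sum]
  have h1 : Finset.Ioc N N' = Finset.Ico (N + 1) (N' + 1) := by
    ext m
    simp only [Finset.mem_Ioc, Finset.mem_Ico]
    omega
  rw [h1, Finset.sum_Ico_eq_sum_range]
  refine Finset.sum_congr (by rw [Nat.add_sub_add_right]) fun m _ => ?_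
  have h2 : N + 1 + m = m + N + 1 := by ring
  rw [h2]
  unfold Pm
  rw [MS8_arg hκ _ hx]
  ring

/-- **MS9.** The mean square of `∑_{m > N} a(m) m^{-5/4} P_m(x)`, `N ≥ T^{3/4}/2`. -/
theorem Pm_tail_ms (h : RealSelberg a L 2) (hκ : 0 < κ) (c0 : ℂ) {ε : ℝ} (hε : 0 < ε) :
    ∃ C : ℝ, 0 < C ∧ ∀ (T p q : ℝ) (N : ℕ), 1 ≤ T → T ≤ p → p ≤ q → q ≤ 8 * T →
      T ^ (3 / 4 : ℝ) / 2 ≤ N → (N : ℝ) ≤ T →
      ∫ x in p..q, (∑' m : ℕ, a (m + N + 1) * ((m + N + 1 : ℕ) : ℝ) ^ (-(5 / 4) : ℝ) *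
        Pm κ c0 (m + N + 1) x) ^ 2 ≤
        C * T ^ (3 / 2 + ε) * ((q - p) * T ^ (-(9 / 8) : ℝ) + T ^ (-(1 / 4) : ℝ)) := by
  obtain ⟨η, hη, hη1, hη2⟩ : ∃ η : ℝ, 0 < η ∧ η ≤ ε / 4 ∧ η ≤ 1 / 64 :=
    ⟨min (ε / 4) (1 / 64), lt_min (by linarith) (by norm_num), min_le_left _ _, min_le_right _ _⟩
  obtain ⟨Ca, hCa, ha⟩ := MS6_coef h.ramanujan hη
  obtain ⟨Z, hZ, htail⟩ := MS9_tail hη hη2 hCa ha
  have hsκ : 0 < √κ := Real.sqrt_pos.2 hκ
  obtain ⟨C2, hC2, h2⟩ := range_ms (α := 1 / 2) (β := 2 * √κ) (γ := 5 / 4 - η) (ε := ε / 2)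
    (by norm_num) (by norm_num) (by positivity) (by linarith) (by linarith)
  refine ⟨46 * (‖c0‖ ^ 2 + 1) * (4 * C2 * Ca ^ 2 + Z ^ 2), by positivity,
    fun T p q N hT hp hpq hq hN1 hN2 => ?_⟩
  have hT0 : 0 < T := by linarith
  have hTN : 0 < T ^ (3 / 4 : ℝ) / 2 := by positivity
  have hN0 : (0 : ℝ) < N := lt_of_lt_of_le hTN hN1
  have hN0' : 1 ≤ N := by exact_mod_cast hN0
  have hN1' : (1 : ℝ) ≤ N := by exact_mod_cast hN0'
  have hTT : T ≤ T ^ 4 := by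
    calc T = T ^ 1 := (pow_one T).symm
      _ ≤ T ^ 4 := pow_le_pow_right₀ hT (by norm_num)
  obtain ⟨N', hN'⟩ : ∃ N' : ℕ, N' = ⌊T ^ 4⌋₊ := ⟨_, rfl⟩
  have hN'1 : (N' : ℝ) ≤ T ^ 4 := by rw [hN']; exact Nat.floor_le (by positivity)
  have hN'2 : T ^ 4 < ((N' + 1 : ℕ) : ℝ) := by
    rw [hN']
    push_cast
    exact Nat.lt_floor_add_one _
  have hNN : N ≤ N' := by
    rw [hN']
    exact Nat.le_floor (hN2.trans hTT)
  obtain ⟨S1, hS1⟩ : ∃ S : ℝ → ℂ, S = fun x => ∑ m ∈ Finset.Ioc N N',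
    ((a m * (m : ℝ) ^ (-(5 / 4) : ℝ) : ℝ) : ℂ) * e (2 * √κ * (m * x) ^ (1 / 2 : ℝ)) := ⟨_, rfl⟩
  have hc1 : Continuous S1 := by rw [hS1]; exact MS8_cont _ _ _ _
  have hB1 : ∫ x in p..q, ‖S1 x‖ ^ 2 ≤ C2 * Ca ^ 2 * T ^ (ε / 2) * ((q - p) * (N : ℝ) ^
      (1 - 2 * (5 / 4 - η)) + T ^ (1 - 1 / 2 : ℝ) * ((N : ℝ) ^ (2 - 1 / 2 - 2 * (5 / 4 - η)) +
      (N' : ℝ) ^ (2 - 1 / 2 - 2 * (5 / 4 - η)))) := by
    rw [hS1]
    refine h2 T p q Ca N N' (fun m => a m * (m : ℝ) ^ (-(5 / 4) : ℝ)) hT hp hpq hq hN0' hNN hN'1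
      hCa.le (fun m hm => ?_)
    have hm0 : (0 : ℝ) < m := by exact_mod_cast hm
    rw [abs_mul, abs_of_nonneg (Real.rpow_nonneg hm0.le (-(5 / 4) : ℝ))]
    calc |a m| * (m : ℝ) ^ (-(5 / 4) : ℝ) ≤ Ca * (m : ℝ) ^ η * (m : ℝ) ^ (-(5 / 4) : ℝ) :=
          mul_le_mul_of_nonneg_right (ha m hm) (by positivity)
      _ = Ca * (m : ℝ) ^ (-(5 / 4 - η)) := by
          rw [mul_assoc, ← Real.rpow_add hm0]
          congr 2
          ring
  have hi1 : IntervalIntegrable (fun x => ‖S1 x‖ ^ 2) volume p q :=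
    Continuous.intervalIntegrable (by fun_prop) _ _
  obtain ⟨ht1, ht2⟩ := htail N'
  obtain ⟨ht3, -⟩ := htail N
  have ht4 : ∑' m : ℕ, |a (m + N' + 1)| * ((m + N' + 1 : ℕ) : ℝ) ^ (-(5 / 4) : ℝ) ≤
      Z * T ^ (-(7 / 8) : ℝ) := by
    refine ht2.trans (mul_le_mul_of_nonneg_left ?_ hZ.le)
    calc ((N' + 1 : ℕ) : ℝ) ^ (-(1 / 4) + 2 * η) ≤ (T ^ 4) ^ (-(1 / 4) + 2 * η) :=
          Real.rpow_le_rpow_of_nonpos (by positivity) hN'2.le (by linarith)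
      _ = T ^ (4 * (-(1 / 4) + 2 * η)) := by
          rw [← Real.rpow_natCast, ← Real.rpow_mul hT0.le]
          norm_num
      _ ≤ T ^ (-(7 / 8) : ℝ) := Real.rpow_le_rpow_of_exponent_le hT (by linarith)
  have ht5 : 0 ≤ ∑' m : ℕ, |a (m + N' + 1)| * ((m + N' + 1 : ℕ) : ℝ) ^ (-(5 / 4) : ℝ) :=
    tsum_nonneg fun m => by positivity
  have hpt : ∀ x ∈ Icc p q, (∑' m : ℕ, a (m + N + 1) * ((m + N + 1 : ℕ) : ℝ) ^ (-(5 / 4) : ℝ) *
      Pm κ c0 (m + N + 1) x) ^ 2 ≤ 46 * ‖c0‖ ^ 2 * T ^ (3 / 2 : ℝ) *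
        (‖S1 x‖ ^ 2 + Z ^ 2 * T ^ (-(9 / 8) : ℝ)) := by
    intro x hx
    have hx0 : 0 < x := by linarith [hx.1]
    obtain ⟨hs0, -⟩ := MS9_bound κ c0 ht3 hx0.le
    obtain ⟨-, hs2⟩ := MS9_bound κ c0 ht1 hx0.le
    have e1 := hs0.sum_add_tsum_nat_add (N' - N)
    rw [MS9_fin hκ c0 a hNN hx0] at e1
    have e2 : ∑' m : ℕ, a (m + (N' - N) + N + 1) * ((m + (N' - N) + N + 1 : ℕ) : ℝ) ^
        (-(5 / 4) : ℝ) * Pm κ c0 (m + (N' - N) + N + 1) x =
        ∑' m : ℕ, a (m + N' + 1) * ((m + N' + 1 : ℕ) : ℝ) ^ (-(5 / 4) : ℝ) *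
          Pm κ c0 (m + N' + 1) x := by
      refine tsum_congr fun m => ?_
      have : m + (N' - N) + N + 1 = m + N' + 1 := by omega
      rw [this]
    rw [e2] at e1
    rw [← e1]
    have e3 : S1 x = ∑ m ∈ Finset.Ioc N N',
      ((a m * (m : ℝ) ^ (-(5 / 4) : ℝ) : ℝ) : ℂ) * e (2 * √κ * (m * x) ^ (1 / 2 : ℝ)) := by rw [hS1]
    rw [← e3]
    have f1 : |x ^ (3 / 4 : ℝ) * (c0 * S1 x).re| ≤ (‖c0‖ * x ^ (3 / 4 : ℝ)) * ‖S1 x‖ := by
      rw [abs_mul, abs_of_nonneg (Real.rpow_nonneg hx0.le _)]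
      calc x ^ (3 / 4 : ℝ) * |(c0 * S1 x).re| ≤ x ^ (3 / 4 : ℝ) * ‖c0 * S1 x‖ :=
            mul_le_mul_of_nonneg_left (abs_re_le_norm _) (Real.rpow_nonneg hx0.le _)
        _ = _ := by rw [norm_mul]; ring
    have f2 := hs2.trans (mul_le_mul_of_nonneg_left ht4
      (by positivity : 0 ≤ ‖c0‖ * x ^ (3 / 4 : ℝ)))
    refine (MS8_sq f1 f2).trans ?_
    have g2 : (x ^ (3 / 4 : ℝ)) ^ 2 ≤ 23 * T ^ (3 / 2 : ℝ) := by
      have g3 : (x ^ (3 / 4 : ℝ)) ^ 2 = x ^ (3 / 2 : ℝ) := by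
        rw [← Real.rpow_natCast, ← Real.rpow_mul hx0.le]
        norm_num
      have g4 : (8 : ℝ) ^ (3 / 2 : ℝ) ≤ 23 := by
        have g5 : (8 : ℝ) ^ (3 / 2 : ℝ) = (512 : ℝ) ^ (1 / 2 : ℝ) := by
          rw [show (512 : ℝ) = 8 ^ (3 : ℝ) by norm_num, ← Real.rpow_mul (by norm_num)]
          norm_num
        rw [g5, ← Real.sqrt_eq_rpow]
        exact Real.sqrt_le_iff.2 ⟨by norm_num, by norm_num⟩
      rw [g3]
      calc x ^ (3 / 2 : ℝ) ≤ (8 * T) ^ (3 / 2 : ℝ) :=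
            Real.rpow_le_rpow hx0.le (by linarith [hx.2]) (by norm_num)
        _ = 8 ^ (3 / 2 : ℝ) * T ^ (3 / 2 : ℝ) := Real.mul_rpow (by norm_num) hT0.le
        _ ≤ _ := mul_le_mul_of_nonneg_right g4 (by positivity)
    have g6 : (Z * T ^ (-(7 / 8) : ℝ)) ^ 2 ≤ Z ^ 2 * T ^ (-(9 / 8) : ℝ) := by
      rw [mul_pow, ← Real.rpow_natCast (T ^ (-(7 / 8) : ℝ)), ← Real.rpow_mul hT0.le]
      refine mul_le_mul_of_nonneg_left (Real.rpow_le_rpow_of_exponent_le hT ?_) (by positivity)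
      norm_num
    calc 2 * ((‖c0‖ * x ^ (3 / 4 : ℝ)) ^ 2 * ‖S1 x‖ ^ 2 + (‖c0‖ * x ^ (3 / 4 : ℝ)) ^ 2 *
          (Z * T ^ (-(7 / 8) : ℝ)) ^ 2) = 2 * ‖c0‖ ^ 2 * (x ^ (3 / 4 : ℝ)) ^ 2 *
          (‖S1 x‖ ^ 2 + (Z * T ^ (-(7 / 8) : ℝ)) ^ 2) := by ring
      _ ≤ 2 * ‖c0‖ ^ 2 * (23 * T ^ (3 / 2 : ℝ)) *
          (‖S1 x‖ ^ 2 + Z ^ 2 * T ^ (-(9 / 8) : ℝ)) := by gcongr
      _ = _ := by ring
  refine (MS6_mono hpq (fun _ _ => sq_nonneg _)
    ((hi1.add intervalIntegrable_const).const_mul _) hpt).trans ?_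
  rw [intervalIntegral.integral_const_mul,
    intervalIntegral.integral_add hi1 intervalIntegrable_const,
    intervalIntegral.integral_const, smul_eq_mul]
  have hqp : 0 ≤ q - p := by linarith
  have n1 : (N : ℝ) ^ (1 - 2 * (5 / 4 - η)) ≤ 4 * T ^ (-(9 / 8) + ε / 2) := by
    calc (N : ℝ) ^ (1 - 2 * (5 / 4 - η)) ≤ (T ^ (3 / 4 : ℝ) / 2) ^ (1 - 2 * (5 / 4 - η)) :=
          Real.rpow_le_rpow_of_nonpos hTN hN1 (by linarith)
      _ = T ^ (3 / 4 * (1 - 2 * (5 / 4 - η))) * (1 / 2) ^ (1 - 2 * (5 / 4 - η)) := by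
          rw [div_eq_mul_one_div, Real.mul_rpow (by positivity) (by norm_num),
            ← Real.rpow_mul hT0.le]
      _ ≤ T ^ (-(9 / 8) + ε / 2) * (1 / 2) ^ (-2 : ℝ) := by
          refine mul_le_mul (Real.rpow_le_rpow_of_exponent_le hT (by linarith)) ?_
            (by positivity) (by positivity)
          exact Real.rpow_le_rpow_of_exponent_ge (by norm_num) (by norm_num) (by linarith)
      _ = _ := by
          have : (1 / 2 : ℝ) ^ (-2 : ℝ) = 4 := by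
            rw [Real.rpow_neg (by norm_num), Real.rpow_two]; norm_num
          rw [this, mul_comm]
  have n2 : (N : ℝ) ^ (2 - 1 / 2 - 2 * (5 / 4 - η)) ≤ 2 * T ^ (-(3 / 4) + ε / 2) := by
    calc (N : ℝ) ^ (2 - 1 / 2 - 2 * (5 / 4 - η)) ≤
          (T ^ (3 / 4 : ℝ) / 2) ^ (2 - 1 / 2 - 2 * (5 / 4 - η)) :=
          Real.rpow_le_rpow_of_nonpos hTN hN1 (by linarith)
      _ = T ^ (3 / 4 * (2 - 1 / 2 - 2 * (5 / 4 - η))) *
          (1 / 2) ^ (2 - 1 / 2 - 2 * (5 / 4 - η)) := by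
          rw [div_eq_mul_one_div, Real.mul_rpow (by positivity) (by norm_num),
            ← Real.rpow_mul hT0.le]
      _ ≤ T ^ (-(3 / 4) + ε / 2) * (1 / 2) ^ (-1 : ℝ) := by
          refine mul_le_mul (Real.rpow_le_rpow_of_exponent_le hT (by linarith)) ?_
            (by positivity) (by positivity)
          exact Real.rpow_le_rpow_of_exponent_ge (by norm_num) (by norm_num) (by linarith)
      _ = _ := by
          have : (1 / 2 : ℝ) ^ (-1 : ℝ) = 2 := by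
            rw [Real.rpow_neg_one]; norm_num
          rw [this, mul_comm]
  have n3 : (N' : ℝ) ^ (2 - 1 / 2 - 2 * (5 / 4 - η)) ≤ 2 * T ^ (-(3 / 4) + ε / 2) := by
    refine le_trans (Real.rpow_le_rpow_of_nonpos hN0 (by exact_mod_cast hNN) (by linarith)) n2
  have m7 : (1 - 1 / 2 : ℝ) = 1 / 2 := by norm_num
  rw [m7] at hB1
  have n4 : T ^ (ε / 2) * T ^ (-(9 / 8) + ε / 2) = T ^ ε * T ^ (-(9 / 8) : ℝ) := by
    rw [← Real.rpow_add hT0, ← Real.rpow_add hT0]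
    congr 1
    ring
  have n5 : T ^ (ε / 2) * (T ^ (1 / 2 : ℝ) * T ^ (-(3 / 4) + ε / 2)) =
      T ^ ε * T ^ (-(1 / 4) : ℝ) := by
    rw [← Real.rpow_add hT0, ← Real.rpow_add hT0, ← Real.rpow_add hT0]
    congr 1
    ring
  have n6 : ∫ x in p..q, ‖S1 x‖ ^ 2 ≤ 4 * C2 * Ca ^ 2 * T ^ ε *
      ((q - p) * T ^ (-(9 / 8) : ℝ) + T ^ (-(1 / 4) : ℝ)) := by
    refine hB1.trans ?_
    calc C2 * Ca ^ 2 * T ^ (ε / 2) * ((q - p) * (N : ℝ) ^ (1 - 2 * (5 / 4 - η)) +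
          T ^ (1 / 2 : ℝ) * ((N : ℝ) ^ (2 - 1 / 2 - 2 * (5 / 4 - η)) +
          (N' : ℝ) ^ (2 - 1 / 2 - 2 * (5 / 4 - η))))
        ≤ C2 * Ca ^ 2 * T ^ (ε / 2) * ((q - p) * (4 * T ^ (-(9 / 8) + ε / 2)) +
          T ^ (1 / 2 : ℝ) * (2 * T ^ (-(3 / 4) + ε / 2) + 2 * T ^ (-(3 / 4) + ε / 2))) := by
          gcongr
      _ = 4 * C2 * Ca ^ 2 * ((q - p) * (T ^ (ε / 2) * T ^ (-(9 / 8) + ε / 2)) +
          T ^ (ε / 2) * (T ^ (1 / 2 : ℝ) * T ^ (-(3 / 4) + ε / 2))) := by ring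
      _ = _ := by rw [n4, n5]; ring
  have n7 : 1 ≤ T ^ ε := Real.one_le_rpow hT hε.le
  have n8 : T ^ (3 / 2 + ε) = T ^ (3 / 2 : ℝ) * T ^ ε := Real.rpow_add hT0 _ _
  have n9 : (q - p) * (Z ^ 2 * T ^ (-(9 / 8) : ℝ)) ≤ Z ^ 2 * T ^ ε *
      ((q - p) * T ^ (-(9 / 8) : ℝ) + T ^ (-(1 / 4) : ℝ)) := by
    have g1 : 0 ≤ Z ^ 2 * ((q - p) * T ^ (-(9 / 8) : ℝ)) := by positivity
    have g2 : 0 ≤ Z ^ 2 * T ^ ε * T ^ (-(1 / 4) : ℝ) := by positivity
    nlinarith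
  have n10 : 0 ≤ T ^ ε * ((q - p) * T ^ (-(9 / 8) : ℝ) + T ^ (-(1 / 4) : ℝ)) := by positivity
  calc 46 * ‖c0‖ ^ 2 * T ^ (3 / 2 : ℝ) * ((∫ x in p..q, ‖S1 x‖ ^ 2) +
        (q - p) * (Z ^ 2 * T ^ (-(9 / 8) : ℝ)))
      ≤ 46 * (‖c0‖ ^ 2 + 1) * T ^ (3 / 2 : ℝ) * (4 * C2 * Ca ^ 2 * T ^ ε *
        ((q - p) * T ^ (-(9 / 8) : ℝ) + T ^ (-(1 / 4) : ℝ)) + Z ^ 2 * T ^ ε *
        ((q - p) * T ^ (-(9 / 8) : ℝ) + T ^ (-(1 / 4) : ℝ))) := by
        have g3 : 0 ≤ 4 * C2 * Ca ^ 2 * T ^ ε *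
          ((q - p) * T ^ (-(9 / 8) : ℝ) + T ^ (-(1 / 4) : ℝ)) + Z ^ 2 * T ^ ε *
          ((q - p) * T ^ (-(9 / 8) : ℝ) + T ^ (-(1 / 4) : ℝ)) := by positivity
        have g4 := mul_le_mul_of_nonneg_left (add_le_add n6 n9)
          (by positivity : 0 ≤ 46 * ‖c0‖ ^ 2 * T ^ (3 / 2 : ℝ))
        refine g4.trans (mul_le_mul_of_nonneg_right ?_ g3)
        gcongr
        linarith
    _ = _ := by rw [n8]; ring
--END MS9

--BEGIN MS10
private theorem MS10_rpow {p T x y : ℝ} (hp : p ≤ 1) (hT : 0 < T) (hx : T ≤ x) (hy : T ≤ y) :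
    |x ^ p - y ^ p| ≤ |p| * T ^ (p - 1) * |x - y| := by
  have h1 := (convex_Ici T).norm_image_sub_le_of_norm_hasDerivWithin_le
    (f := fun t : ℝ => t ^ p) (f' := fun t => p * t ^ (p - 1)) (C := |p| * T ^ (p - 1))
    (x := y) (y := x)
    (fun t ht => (Real.hasDerivAt_rpow_const (Or.inl (lt_of_lt_of_le hT ht).ne')).hasDerivWithinAt)
    (fun t ht => by
      rw [Real.norm_eq_abs, abs_mul,
        abs_of_nonneg (Real.rpow_nonneg (lt_of_lt_of_le hT ht).le (p - 1))]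
      exact mul_le_mul_of_nonneg_left (Real.rpow_le_rpow_of_nonpos hT ht (by linarith))
        (abs_nonneg _)) hy hx
  exact h1

private theorem MS10_e (s t : ℝ) : ‖e s - e t‖ ≤ 2 * π * |s - t| := by
  have h1 := (convex_univ : Convex ℝ (univ : Set ℝ)).norm_image_sub_le_of_norm_hasDerivWithin_le
    (f := e) (f' := fun t => 2 * π * I * ((1 : ℝ) : ℂ) * e t) (C := 2 * π) (x := t) (y := s)
    (fun t _ => (MS7_e_deriv (hasDerivAt_id t)).hasDerivWithinAt)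
    (fun t _ => by
      rw [norm_mul, MS6_e, mul_one, ofReal_one, mul_one, norm_mul, norm_I, mul_one]
      have : (2 * π : ℂ) = ((2 * π : ℝ) : ℂ) := by push_cast; ring
      rw [this, norm_real, Real.norm_eq_abs, abs_of_pos Real.two_pi_pos]) (mem_univ _) (mem_univ _)
  exact h1

private theorem MS10_prod {A A' B B' : ℝ} : |A * B - A' * B'| ≤ |A - A'| * |B| + |A'| * |B - B'| := by
  have h1 : A * B - A' * B' = (A - A') * B + A' * (B - B') := by ring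
  rw [h1]
  refine (abs_add_le _ _).trans ?_
  rw [abs_mul, abs_mul]

private theorem MS10_re {z : ℂ} {s t : ℝ} :
    |(z * e s).re| ≤ ‖z‖ ∧ |(z * e s).re - (z * e t).re| ≤ ‖z‖ * (2 * π * |s - t|) := by
  constructor
  · refine (abs_re_le_norm _).trans ?_
    rw [norm_mul, MS6_e, mul_one]
  · rw [← Complex.sub_re, ← mul_sub]
    refine (abs_re_le_norm _).trans ?_
    rw [norm_mul]
    exact mul_le_mul_of_nonneg_left (MS10_e s t) (norm_nonneg _)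

private theorem MS10_lip (hκ : 0 < κ) (c0 : ℂ) : ∃ C : ℝ, 0 < C ∧ ∀ (m : ℕ) (T x y : ℝ), 1 ≤ m →
    1 ≤ T → T ≤ x → T ≤ y → y ≤ 4 * T →
    |Pmd κ c0 m x - Pmd κ c0 m y| ≤ C * m * T ^ (-(1 / 4) : ℝ) * |x - y| := by
  obtain ⟨z, hz⟩ : ∃ z : ℂ, z = 2 * π * I * √κ * c0 := ⟨_, rfl⟩
  have hsκ : 0 < √κ := Real.sqrt_pos.2 hκ
  refine ⟨‖z‖ * (1 + 4 * π * √κ) + ‖c0‖ * (1 + 2 * π * √κ) + 1, by positivity,
    fun m T x y hm hT hx hy hy4 => ?_⟩
  have hT0 : 0 < T := by linarith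
  have hx0 : 0 < x := by linarith
  have hy0 : 0 < y := by linarith
  have hm1 : (1 : ℝ) ≤ m := by exact_mod_cast hm
  have hm0 : (0 : ℝ) < m := by linarith
  have hsm : √m * √m = m := Real.mul_self_sqrt hm0.le
  have hsm1 : 1 ≤ √(m : ℝ) := by
    rw [← Real.sqrt_one]
    exact Real.sqrt_le_sqrt hm1
  have hsm2 : √(m : ℝ) ≤ m := by nlinarith
  obtain ⟨θ, hθ⟩ : ∃ θ : ℝ → ℝ, θ = fun t => 2 * √(κ * m * t) := ⟨_, rfl⟩
  have hθl : |θ x - θ y| ≤ √κ * √m * T ^ (-(1 / 2) : ℝ) * |x - y| := by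
    have h1 : ∀ t : ℝ, θ t = 2 * √κ * √m * t ^ (1 / 2 : ℝ) := by
      intro t
      rw [hθ]
      simp only
      rw [Real.sqrt_mul (by positivity), Real.sqrt_mul hκ.le, ← Real.sqrt_eq_rpow]
      ring
    rw [h1, h1, ← mul_sub, abs_mul, abs_of_nonneg (by positivity)]
    have h2 := MS10_rpow (p := 1 / 2) (by norm_num) hT0 hx hy
    rw [abs_of_pos (by norm_num : (0 : ℝ) < 1 / 2)] at h2
    have h3 : (1 / 2 - 1 : ℝ) = -(1 / 2) := by norm_num
    rw [h3] at h2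
    calc 2 * √κ * √m * |x ^ (1 / 2 : ℝ) - y ^ (1 / 2 : ℝ)|
        ≤ 2 * √κ * √m * (1 / 2 * T ^ (-(1 / 2) : ℝ) * |x - y|) :=
          mul_le_mul_of_nonneg_left h2 (by positivity)
      _ = _ := by ring
  have hP : ∀ t, Pmd κ c0 m t = √m * (t ^ (1 / 4 : ℝ) * (z * e (θ t)).re) +
      3 / 4 * (t ^ (-(1 / 4) : ℝ) * (c0 * e (θ t)).re) := by
    intro t
    rw [hz, hθ]
    unfold Pmd
    ring
  have hA : |x ^ (1 / 4 : ℝ) - y ^ (1 / 4 : ℝ)| ≤ T ^ (-(1 / 4) : ℝ) * |x - y| := by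
    have h2 := MS10_rpow (p := 1 / 4) (by norm_num) hT0 hx hy
    refine h2.trans (mul_le_mul_of_nonneg_right ?_ (abs_nonneg _))
    rw [abs_of_pos (by norm_num : (0 : ℝ) < 1 / 4)]
    have h3 : T ^ (1 / 4 - 1 : ℝ) ≤ T ^ (-(1 / 4) : ℝ) :=
      Real.rpow_le_rpow_of_exponent_le hT (by norm_num)
    have h4 : 0 ≤ T ^ (1 / 4 - 1 : ℝ) := by positivity
    linarith
  have hB : |x ^ (-(1 / 4) : ℝ) - y ^ (-(1 / 4) : ℝ)| ≤ T ^ (-(1 / 4) : ℝ) * |x - y| := by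
    have h2 := MS10_rpow (p := -(1 / 4)) (by norm_num) hT0 hx hy
    refine h2.trans (mul_le_mul_of_nonneg_right ?_ (abs_nonneg _))
    rw [abs_neg, abs_of_pos (by norm_num : (0 : ℝ) < 1 / 4)]
    have h3 : T ^ (-(1 / 4) - 1 : ℝ) ≤ T ^ (-(1 / 4) : ℝ) :=
      Real.rpow_le_rpow_of_exponent_le hT (by norm_num)
    have h4 : 0 ≤ T ^ (-(1 / 4) - 1 : ℝ) := by positivity
    linarith
  have hy1 : |y ^ (1 / 4 : ℝ)| ≤ 2 * T ^ (1 / 4 : ℝ) := by
    rw [abs_of_nonneg (Real.rpow_nonneg hy0.le _)]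
    calc y ^ (1 / 4 : ℝ) ≤ (16 * T) ^ (1 / 4 : ℝ) :=
          Real.rpow_le_rpow hy0.le (by linarith) (by norm_num)
      _ = 2 * T ^ (1 / 4 : ℝ) := by
          rw [Real.mul_rpow (by norm_num) hT0.le, show (16 : ℝ) = 2 ^ (4 : ℝ) by norm_num,
            ← Real.rpow_mul (by norm_num)]
          norm_num
  have hy2 : |y ^ (-(1 / 4) : ℝ)| ≤ 1 := by
    rw [abs_of_nonneg (Real.rpow_nonneg hy0.le _)]
    exact Real.rpow_le_one_of_one_le_of_nonpos (by linarith) (by norm_num)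
  have hTT : T ^ (1 / 4 : ℝ) * T ^ (-(1 / 2) : ℝ) = T ^ (-(1 / 4) : ℝ) := by
    rw [← Real.rpow_add hT0]
    norm_num
  have hT12 : T ^ (-(1 / 2) : ℝ) ≤ T ^ (-(1 / 4) : ℝ) :=
    Real.rpow_le_rpow_of_exponent_le hT (by norm_num)
  have t1 : |x ^ (1 / 4 : ℝ) * (z * e (θ x)).re - y ^ (1 / 4 : ℝ) * (z * e (θ y)).re| ≤
      ‖z‖ * (1 + 4 * π * √κ * √m) * (T ^ (-(1 / 4) : ℝ) * |x - y|) := by
    refine MS10_prod.trans ?_
    calc |x ^ (1 / 4 : ℝ) - y ^ (1 / 4 : ℝ)| * |(z * e (θ x)).re| +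
          |y ^ (1 / 4 : ℝ)| * |(z * e (θ x)).re - (z * e (θ y)).re|
        ≤ (T ^ (-(1 / 4) : ℝ) * |x - y|) * ‖z‖ + (2 * T ^ (1 / 4 : ℝ)) *
          (‖z‖ * (2 * π * (√κ * √m * T ^ (-(1 / 2) : ℝ) * |x - y|))) := by
          refine add_le_add (mul_le_mul hA (MS10_re (t := 0)).1 (abs_nonneg _) (by positivity))
            (mul_le_mul hy1 (MS10_re.2.trans ?_) (abs_nonneg _) (by positivity))
          gcongr
      _ = (T ^ (-(1 / 4) : ℝ) * |x - y|) * ‖z‖ + ‖z‖ * (4 * π * √κ * √m) *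
          ((T ^ (1 / 4 : ℝ) * T ^ (-(1 / 2) : ℝ)) * |x - y|) := by ring
      _ = _ := by rw [hTT]; ring
  have t2 : |x ^ (-(1 / 4) : ℝ) * (c0 * e (θ x)).re - y ^ (-(1 / 4) : ℝ) * (c0 * e (θ y)).re| ≤
      ‖c0‖ * (1 + 2 * π * √κ * √m) * (T ^ (-(1 / 4) : ℝ) * |x - y|) := by
    refine MS10_prod.trans ?_
    calc |x ^ (-(1 / 4) : ℝ) - y ^ (-(1 / 4) : ℝ)| * |(c0 * e (θ x)).re| +
          |y ^ (-(1 / 4) : ℝ)| * |(c0 * e (θ x)).re - (c0 * e (θ y)).re|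
        ≤ (T ^ (-(1 / 4) : ℝ) * |x - y|) * ‖c0‖ + 1 *
          (‖c0‖ * (2 * π * (√κ * √m * T ^ (-(1 / 4) : ℝ) * |x - y|))) := by
          refine add_le_add (mul_le_mul hB (MS10_re (t := 0)).1 (abs_nonneg _) (by positivity))
            (mul_le_mul hy2 (MS10_re.2.trans ?_) (abs_nonneg _) (by positivity))
          refine mul_le_mul_of_nonneg_left (mul_le_mul_of_nonneg_left (hθl.trans ?_)
            (by positivity)) (norm_nonneg _)
          gcongr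
      _ = _ := by ring
  rw [hP, hP]
  have e1 : √m * (x ^ (1 / 4 : ℝ) * (z * e (θ x)).re) + 3 / 4 * (x ^ (-(1 / 4) : ℝ) *
      (c0 * e (θ x)).re) - (√m * (y ^ (1 / 4 : ℝ) * (z * e (θ y)).re) + 3 / 4 *
      (y ^ (-(1 / 4) : ℝ) * (c0 * e (θ y)).re)) =
      √m * (x ^ (1 / 4 : ℝ) * (z * e (θ x)).re - y ^ (1 / 4 : ℝ) * (z * e (θ y)).re) +
      3 / 4 * (x ^ (-(1 / 4) : ℝ) * (c0 * e (θ x)).re - y ^ (-(1 / 4) : ℝ) *
      (c0 * e (θ y)).re) := by ring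
  rw [e1]
  refine (abs_add_le _ _).trans ?_
  rw [abs_mul, abs_mul, abs_of_nonneg (Real.sqrt_nonneg _),
    abs_of_pos (by norm_num : (0 : ℝ) < 3 / 4)]
  have hW : 0 ≤ T ^ (-(1 / 4) : ℝ) * |x - y| := by positivity
  have u1 : √m * (‖z‖ * (1 + 4 * π * √κ * √m)) ≤ ‖z‖ * (1 + 4 * π * √κ) * m := by
    have : √m * (‖z‖ * (1 + 4 * π * √κ * √m)) = ‖z‖ * √m + ‖z‖ * (4 * π * √κ) * (√m * √m) := by
      ring
    rw [this, hsm]
    have : ‖z‖ * √m ≤ ‖z‖ * m := mul_le_mul_of_nonneg_left hsm2 (norm_nonneg _)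
    linarith
  have u2 : 3 / 4 * (‖c0‖ * (1 + 2 * π * √κ * √m)) ≤ ‖c0‖ * (1 + 2 * π * √κ) * m := by
    have v1 : ‖c0‖ * (1 + 2 * π * √κ * √m) ≤ ‖c0‖ * (1 * m + 2 * π * √κ * m) := by
      gcongr
      linarith
    have v2 : 0 ≤ ‖c0‖ * (1 + 2 * π * √κ * √m) := by positivity
    linarith
  calc √m * |x ^ (1 / 4 : ℝ) * (z * e (θ x)).re - y ^ (1 / 4 : ℝ) * (z * e (θ y)).re| + 3 / 4 *
        |x ^ (-(1 / 4) : ℝ) * (c0 * e (θ x)).re - y ^ (-(1 / 4) : ℝ) * (c0 * e (θ y)).re|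
      ≤ √m * (‖z‖ * (1 + 4 * π * √κ * √m) * (T ^ (-(1 / 4) : ℝ) * |x - y|)) + 3 / 4 *
        (‖c0‖ * (1 + 2 * π * √κ * √m) * (T ^ (-(1 / 4) : ℝ) * |x - y|)) := by gcongr
    _ = (√m * (‖z‖ * (1 + 4 * π * √κ * √m)) + 3 / 4 * (‖c0‖ * (1 + 2 * π * √κ * √m))) *
        (T ^ (-(1 / 4) : ℝ) * |x - y|) := by ring
    _ ≤ ((‖z‖ * (1 + 4 * π * √κ) + ‖c0‖ * (1 + 2 * π * √κ) + 1) * m) *
        (T ^ (-(1 / 4) : ℝ) * |x - y|) := by
        refine mul_le_mul_of_nonneg_right ?_ hW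
        linarith
    _ = _ := by ring

private theorem MS10_tail_cont (h : RealSelberg a L 2) (hκ : 0 < κ) (c0 : ℂ) (N : ℕ) (B : ℝ) :
    ContinuousOn (fun x => ∑' m : ℕ, a (m + N + 1) * ((m + N + 1 : ℕ) : ℝ) ^ (-(5 / 4) : ℝ) *
      Pm κ c0 (m + N + 1) x) (Icc 1 B) := by
  obtain ⟨Ca, hCa, ha⟩ := MS6_coef h.ramanujan (ε := 1 / 64) (by norm_num)
  obtain ⟨Z, hZ, htail⟩ := MS9_tail (by norm_num) le_rfl hCa ha
  refine continuousOn_tsum (u := fun m : ℕ => (‖c0‖ * B ^ (3 / 4 : ℝ)) *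
    (|a (m + N + 1)| * ((m + N + 1 : ℕ) : ℝ) ^ (-(5 / 4) : ℝ))) (fun m x hx => ?_)
    ((htail N).1.mul_left _) (fun m x hx => ?_)
  · exact (continuousAt_const.mul (Pm_deriv hκ c0 _
      (by linarith [hx.1] : 0 < x)).1.continuousAt).continuousWithinAt
  · rw [Real.norm_eq_abs, abs_mul, abs_mul,
      abs_of_nonneg (Real.rpow_nonneg (Nat.cast_nonneg (m + N + 1)) (-(5 / 4) : ℝ)), mul_comm]
    refine mul_le_mul_of_nonneg_right ((MS9_Pm_le κ c0 _ (by linarith [hx.1])).trans ?_)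
      (by positivity)
    refine mul_le_mul_of_nonneg_left (Real.rpow_le_rpow (by linarith [hx.1]) hx.2 (by norm_num))
      (norm_nonneg _)

private theorem MS10_four (a b c r : ℝ) :
    (a + b - c + r) ^ 2 ≤ 4 * (a ^ 2 + b ^ 2 + c ^ 2 + r ^ 2) := by
  nlinarith [sq_nonneg (a - b), sq_nonneg (a + c), sq_nonneg (a - r), sq_nonneg (b + c),
    sq_nonneg (b - r), sq_nonneg (c + r)]

/-- the series, split at `M` and `N` -/
private theorem MS10_split (h : RealSelberg a L 2) (κ : ℝ) (c0 : ℂ) {M N : ℕ} (hMN : M ≤ N)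
    {x : ℝ} (hx : 0 < x) :
    ∑' m : ℕ, a m * (m : ℝ) ^ (-(5 / 4) : ℝ) * Pm κ c0 m x =
      ∑ m ∈ Finset.Icc 1 M, a m * (m : ℝ) ^ (-(5 / 4) : ℝ) * Pm κ c0 m x +
      ∑ m ∈ Finset.Ioc M N, a m * (m : ℝ) ^ (-(5 / 4) : ℝ) * Pm κ c0 m x +
      ∑' m : ℕ, a (m + N + 1) * ((m + N + 1 : ℕ) : ℝ) ^ (-(5 / 4) : ℝ) *
        Pm κ c0 (m + N + 1) x := by
  obtain ⟨Ca, hCa, ha⟩ := MS6_coef h.ramanujan (ε := 1 / 64) (by norm_num)
  obtain ⟨Z, hZ, htail⟩ := MS9_tail (by norm_num) le_rfl hCa ha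
  have hs1 := (MS9_bound κ c0 (htail N).1 hx.le).1
  have hs : Summable (fun m : ℕ => a m * (m : ℝ) ^ (-(5 / 4) : ℝ) * Pm κ c0 m x) :=
    (summable_nat_add_iff (N + 1)).1 hs1
  rw [← hs.sum_add_tsum_nat_add (N + 1)]
  have e1 : ∑' m : ℕ, a (m + (N + 1)) * ((m + (N + 1) : ℕ) : ℝ) ^ (-(5 / 4) : ℝ) *
      Pm κ c0 (m + (N + 1)) x = ∑' m : ℕ, a (m + N + 1) * ((m + N + 1 : ℕ) : ℝ) ^
      (-(5 / 4) : ℝ) * Pm κ c0 (m + N + 1) x := rfl
  rw [e1]
  refine congrArg₂ (· + ·) ?_ rfl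
  have e2 : Finset.range (N + 1) = insert 0 (Finset.Icc 1 M ∪ Finset.Ioc M N) := by
    ext n
    simp only [Finset.mem_range, Finset.mem_insert, Finset.mem_union, Finset.mem_Icc,
      Finset.mem_Ioc]
    omega
  rw [e2, Finset.sum_insert (by simp), Finset.sum_union (by
    rw [Finset.disjoint_left]
    intro n hn hn2
    rw [Finset.mem_Icc] at hn
    rw [Finset.mem_Ioc] at hn2
    omega), Nat.cast_zero, Real.zero_rpow (by norm_num), mul_zero, zero_mul, zero_add]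

private theorem MS10_pow_sum (M : ℕ) :
    ∑ m ∈ Finset.Icc 1 M, (m : ℝ) ^ (-(1 / 8) : ℝ) ≤ 2 * (M : ℝ) ^ (7 / 8 : ℝ) := by
  induction M with
  | zero => simp
  | succ M ih =>
    rw [Finset.sum_Icc_succ_top (by omega)]
    have hn : (0 : ℝ) < ((M + 1 : ℕ) : ℝ) := by positivity
    have h1 : (M : ℝ) ^ (7 / 8 : ℝ) ≤ ((M + 1 : ℕ) : ℝ) ^ (7 / 8 : ℝ) *
        (1 + 7 / 8 * (-(1 / ((M + 1 : ℕ) : ℝ)))) := by
      have h2 : (M : ℝ) = ((M + 1 : ℕ) : ℝ) * (1 + -(1 / ((M + 1 : ℕ) : ℝ))) := by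
        field_simp
        push_cast
        ring
      have h4 : (1 : ℝ) / ((M + 1 : ℕ) : ℝ) ≤ 1 := by
        rw [div_le_one hn]
        push_cast
        linarith [(Nat.cast_nonneg M : (0 : ℝ) ≤ M)]
      have h3 := rpow_one_add_le_one_add_mul_self (s := -(1 / ((M + 1 : ℕ) : ℝ))) (by linarith)
        (p := 7 / 8) (by norm_num) (by norm_num)
      calc (M : ℝ) ^ (7 / 8 : ℝ) =
          (((M + 1 : ℕ) : ℝ) * (1 + -(1 / ((M + 1 : ℕ) : ℝ)))) ^ (7 / 8 : ℝ) := by rw [← h2]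
        _ = ((M + 1 : ℕ) : ℝ) ^ (7 / 8 : ℝ) * (1 + -(1 / ((M + 1 : ℕ) : ℝ))) ^ (7 / 8 : ℝ) :=
            Real.mul_rpow hn.le (by linarith)
        _ ≤ _ := mul_le_mul_of_nonneg_left h3 (by positivity)
    have h5 : ((M + 1 : ℕ) : ℝ) ^ (-(1 / 8) : ℝ) =
        ((M + 1 : ℕ) : ℝ) ^ (7 / 8 : ℝ) * (1 / ((M + 1 : ℕ) : ℝ)) := by
      have h8 : (1 : ℝ) / ((M + 1 : ℕ) : ℝ) = ((M + 1 : ℕ) : ℝ) ^ (-1 : ℝ) := by
        rw [Real.rpow_neg_one, one_div]
      rw [h8, ← Real.rpow_add hn]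
      norm_num
    have h6 : 0 ≤ ((M + 1 : ℕ) : ℝ) ^ (7 / 8 : ℝ) * (1 / ((M + 1 : ℕ) : ℝ)) := by positivity
    rw [h5]
    nlinarith

private theorem MS10_point (h : RealSelberg a L 2) (hv : Vor a L κ L0 c0) :
    ∃ C : ℝ, 0 < C ∧ ∀ (T x : ℝ) (M N : ℕ), 1 ≤ T → T ≤ x → x ≤ 2 * T → M ≤ N →
      (M : ℝ) ≤ T ^ (1 / 3 : ℝ) →
      (errTerm a L x - Etr a κ L0 c0 M x) ^ 2 ≤ 4 * T ^ (-(1 / 4) : ℝ) *
        ((∫ v in (0 : ℝ)..(T ^ (1 / 8 : ℝ)), ∑ m ∈ Finset.Ioc M N,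
          a m * (m : ℝ) ^ (-(5 / 4) : ℝ) * Pmd κ c0 m (max (x + v) 1)) ^ 2 +
        (∑' m : ℕ, a (m + N + 1) * ((m + N + 1 : ℕ) : ℝ) ^ (-(5 / 4) : ℝ) *
          Pm κ c0 (m + N + 1) (x + T ^ (1 / 8 : ℝ))) ^ 2 +
        (∑' m : ℕ, a (m + N + 1) * ((m + N + 1 : ℕ) : ℝ) ^ (-(5 / 4) : ℝ) *
          Pm κ c0 (m + N + 1) x) ^ 2) + C * T ^ (1 / 3 : ℝ) := by
  have hκ := hv.kpos
  obtain ⟨C1, hC1, h1⟩ := errTerm2_diff h (ε := 1 / 24) (by norm_num)
  obtain ⟨C2, hC2, h2⟩ := hv.main (1 / 24) (by norm_num)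
  obtain ⟨C3, hC3, h3⟩ := MS10_lip hκ c0
  obtain ⟨Ca, hCa, ha⟩ := MS6_coef h.ramanujan (ε := 1 / 8) (by norm_num)
  obtain ⟨C6, hC6⟩ : ∃ C6 : ℝ, C6 = 2 * Ca * C3 + 4 * C1 + 6 * C2 := ⟨_, rfl⟩
  have hC60 : 0 < C6 := by rw [hC6]; positivity
  refine ⟨4 * C6 ^ 2, by positivity, fun T x M N hT hTx hxT hMN hM => ?_⟩
  have hT0 : 0 < T := by linarith
  have hx0 : 0 < x := by linarith
  have hx1 : 1 ≤ x := by linarith
  obtain ⟨k, hk⟩ : ∃ k : ℝ, k = T ^ (1 / 8 : ℝ) := ⟨_, rfl⟩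
  rw [← hk]
  have hk0 : 0 < k := by rw [hk]; positivity
  have hk1 : 1 ≤ k := by rw [hk]; exact Real.one_le_rpow hT (by norm_num)
  have hkT : k ≤ T := by
    rw [hk]
    have : T ^ (1 / 8 : ℝ) ≤ T ^ (1 : ℝ) := Real.rpow_le_rpow_of_exponent_le hT (by norm_num)
    rwa [Real.rpow_one] at this
  -- the three remainders
  obtain ⟨A, hA⟩ : ∃ A : ℕ → ℝ, A = fun m => a m * (m : ℝ) ^ (-(5 / 4) : ℝ) := ⟨_, rfl⟩
  obtain ⟨r1, hr1⟩ : ∃ r, r = ∑ m ∈ Finset.Icc 1 M, A m *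
    ((Pm κ c0 m (x + k) - Pm κ c0 m x) / k - Pmd κ c0 m x) := ⟨_, rfl⟩
  have hr1b : |r1| ≤ 2 * Ca * C3 * T ^ (1 / 6 : ℝ) := by
    rw [hr1]
    refine (Finset.abs_sum_le_sum_abs _ _).trans ?_
    have g1 : ∀ m ∈ Finset.Icc 1 M, |A m * ((Pm κ c0 m (x + k) - Pm κ c0 m x) / k -
        Pmd κ c0 m x)| ≤ Ca * C3 * T ^ (-(1 / 8) : ℝ) * (m : ℝ) ^ (-(1 / 8) : ℝ) := by
      intro m hm
      rw [Finset.mem_Icc] at hm
      have hm1 : (1 : ℝ) ≤ m := by exact_mod_cast hm.1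
      have hm0 : (0 : ℝ) < m := by linarith
      obtain ⟨y, hy, hy2⟩ := exists_hasDerivAt_eq_slope (Pm κ c0 m) (Pmd κ c0 m)
        (by linarith : x < x + k) (fun t ht => (Pm_deriv hκ c0 m
          (by linarith [ht.1] : 0 < t)).1.continuousAt.continuousWithinAt)
        (fun t ht => (Pm_deriv hκ c0 m (by linarith [ht.1] : 0 < t)).1)
      rw [add_sub_cancel_left] at hy2
      rw [← hy2, abs_mul]
      have g2 := h3 m T y x hm.1 hT (by linarith [hy.1]) hTx (by linarith)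
      have g3 : |y - x| ≤ k := by
        rw [abs_of_nonneg (by linarith [hy.1])]
        linarith [hy.2]
      have g4 : |A m| * m ≤ Ca * (m : ℝ) ^ (-(1 / 8) : ℝ) := by
        rw [hA]
        simp only
        rw [abs_mul, abs_of_nonneg (Real.rpow_nonneg hm0.le (-(5 / 4) : ℝ))]
        calc |a m| * (m : ℝ) ^ (-(5 / 4) : ℝ) * m
            ≤ Ca * (m : ℝ) ^ (1 / 8 : ℝ) * (m : ℝ) ^ (-(5 / 4) : ℝ) * (m : ℝ) ^ (1 : ℝ) := by
              rw [Real.rpow_one]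
              gcongr
              exact ha m hm.1
          _ = Ca * (m : ℝ) ^ (-(1 / 8) : ℝ) := by
              rw [mul_assoc, mul_assoc, ← Real.rpow_add hm0, ← Real.rpow_add hm0]
              norm_num
      have g5 : T ^ (-(1 / 4) : ℝ) * k = T ^ (-(1 / 8) : ℝ) := by
        rw [hk, ← Real.rpow_add hT0]
        norm_num
      calc |A m| * |Pmd κ c0 m y - Pmd κ c0 m x|
          ≤ |A m| * (C3 * m * T ^ (-(1 / 4) : ℝ) * k) := by
            refine mul_le_mul_of_nonneg_left (g2.trans ?_) (abs_nonneg _)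
            gcongr
        _ = (|A m| * m) * C3 * (T ^ (-(1 / 4) : ℝ) * k) := by ring
        _ ≤ (Ca * (m : ℝ) ^ (-(1 / 8) : ℝ)) * C3 * T ^ (-(1 / 8) : ℝ) := by
            rw [g5]
            gcongr
        _ = _ := by ring
    refine (Finset.sum_le_sum g1).trans ?_
    rw [← Finset.mul_sum]
    have g7 : (M : ℝ) ^ (7 / 8 : ℝ) ≤ T ^ (7 / 24 : ℝ) := by
      calc (M : ℝ) ^ (7 / 8 : ℝ) ≤ (T ^ (1 / 3 : ℝ)) ^ (7 / 8 : ℝ) :=
            Real.rpow_le_rpow (Nat.cast_nonneg M) hM (by norm_num)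
        _ = T ^ (7 / 24 : ℝ) := by rw [← Real.rpow_mul hT0.le]; norm_num
    have g8 : T ^ (-(1 / 8) : ℝ) * T ^ (7 / 24 : ℝ) = T ^ (1 / 6 : ℝ) := by
      rw [← Real.rpow_add hT0]
      norm_num
    calc Ca * C3 * T ^ (-(1 / 8) : ℝ) * ∑ m ∈ Finset.Icc 1 M, (m : ℝ) ^ (-(1 / 8) : ℝ) ≤
          Ca * C3 * T ^ (-(1 / 8) : ℝ) * (2 * T ^ (7 / 24 : ℝ)) := by
          refine mul_le_mul_of_nonneg_left ((MS10_pow_sum M).trans ?_) (by positivity)
          linarith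
      _ = 2 * Ca * C3 * (T ^ (-(1 / 8) : ℝ) * T ^ (7 / 24 : ℝ)) := by ring
      _ = _ := by rw [g8]
  have hE := (int_errTerm h).1
  have hDi : (∫ t in (0 : ℝ)..(x + k), errTerm a L t) - ∫ t in (0 : ℝ)..x, errTerm a L t =
      ∫ t in x..(x + k), errTerm a L t :=
    intervalIntegral.integral_interval_sub_left (hE _ (by linarith)) (hE _ hx0.le)
  obtain ⟨r2, hr2⟩ : ∃ r, r = errTerm a L x - (∫ t in x..(x + k), errTerm a L t) / k := ⟨_, rfl⟩
  have hr2b : |r2| ≤ 4 * C1 * T ^ (1 / 6 : ℝ) := by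
    have g1 : ‖∫ t in x..(x + k), (errTerm a L t - errTerm a L x)‖ ≤
        C1 * (k + 1) * x ^ (1 / 24 : ℝ) * |x + k - x| := by
      refine intervalIntegral.norm_integral_le_of_norm_le_const fun t ht => ?_
      rw [uIoc_of_le (by linarith)] at ht
      rw [Real.norm_eq_abs]
      refine (h1 x t hx1 ht.1.le (by linarith [ht.2])).trans ?_
      have : t - x + 1 ≤ k + 1 := by linarith [ht.2]
      gcongr
    rw [intervalIntegral.integral_sub ((hE _ hx0.le).symm.trans (hE _ (by linarith)))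
      intervalIntegrable_const, intervalIntegral.integral_const, smul_eq_mul,
      add_sub_cancel_left, abs_of_pos hk0, Real.norm_eq_abs] at g1
    have g2 : r2 = -((∫ t in x..(x + k), errTerm a L t) - k * errTerm a L x) / k := by
      rw [hr2]
      field_simp
      ring
    rw [g2, abs_div, abs_neg, abs_of_pos hk0, div_le_iff₀ hk0]
    refine g1.trans (mul_le_mul_of_nonneg_right ?_ hk0.le)
    have g3 : x ^ (1 / 24 : ℝ) ≤ 2 * T ^ (1 / 24 : ℝ) := by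
      calc x ^ (1 / 24 : ℝ) ≤ (2 * T) ^ (1 / 24 : ℝ) := Real.rpow_le_rpow hx0.le hxT (by norm_num)
        _ = 2 ^ (1 / 24 : ℝ) * T ^ (1 / 24 : ℝ) := Real.mul_rpow (by norm_num) hT0.le
        _ ≤ 2 ^ (1 : ℝ) * T ^ (1 / 24 : ℝ) := by
          refine mul_le_mul_of_nonneg_right ?_ (by positivity)
          exact Real.rpow_le_rpow_of_exponent_le (by norm_num) (by norm_num)
        _ = _ := by rw [Real.rpow_one]
    have g4 : k * T ^ (1 / 24 : ℝ) = T ^ (1 / 6 : ℝ) := by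
      rw [hk, ← Real.rpow_add hT0]
      norm_num
    calc C1 * (k + 1) * x ^ (1 / 24 : ℝ) ≤ C1 * (k + k) * (2 * T ^ (1 / 24 : ℝ)) := by gcongr
      _ = 4 * C1 * (k * T ^ (1 / 24 : ℝ)) := by ring
      _ = _ := by rw [g4]
  obtain ⟨G, hG⟩ : ∃ G : ℝ → ℝ, G = fun y => (∫ t in (0 : ℝ)..y, errTerm a L t) - L0 * y -
    ∑' m : ℕ, a m * (m : ℝ) ^ (-(5 / 4) : ℝ) * Pm κ c0 m y := ⟨_, rfl⟩
  obtain ⟨r3, hr3⟩ : ∃ r, r = (G (x + k) - G x) / k := ⟨_, rfl⟩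
  have hr3b : |r3| ≤ 6 * C2 * T ^ (1 / 6 : ℝ) := by
    have g1 : ∀ y, x ≤ y → y ≤ 3 * T → |G y| ≤ 3 * C2 * T ^ (1 / 4 + 1 / 24 : ℝ) := by
      intro y hy1 hy2
      rw [hG]
      refine (h2 y (by linarith)).trans ?_
      calc C2 * y ^ (1 / 4 + 1 / 24 : ℝ) ≤ C2 * (3 * T) ^ (1 / 4 + 1 / 24 : ℝ) :=
            mul_le_mul_of_nonneg_left (Real.rpow_le_rpow (by linarith) hy2 (by norm_num)) hC2.le
        _ = C2 * (3 ^ (1 / 4 + 1 / 24 : ℝ) * T ^ (1 / 4 + 1 / 24 : ℝ)) := by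
            rw [Real.mul_rpow (by norm_num) hT0.le]
        _ ≤ C2 * (3 ^ (1 : ℝ) * T ^ (1 / 4 + 1 / 24 : ℝ)) := by
            refine mul_le_mul_of_nonneg_left (mul_le_mul_of_nonneg_right ?_ (by positivity))
              hC2.le
            exact Real.rpow_le_rpow_of_exponent_le (by norm_num) (by norm_num)
        _ = _ := by rw [Real.rpow_one]; ring
    have g2 := g1 (x + k) (by linarith) (by linarith)
    have g3 := g1 x le_rfl (by linarith)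
    rw [hr3, abs_div, abs_of_pos hk0, div_le_iff₀ hk0]
    refine (abs_sub _ _).trans ((add_le_add g2 g3).trans (le_of_eq ?_))
    have g4 : T ^ (1 / 4 + 1 / 24 : ℝ) = T ^ (1 / 6 : ℝ) * k := by
      rw [hk, ← Real.rpow_add hT0]
      norm_num
    rw [g4]
    ring
  -- the middle part
  obtain ⟨J, hJ⟩ : ∃ J, J = ∫ v in (0 : ℝ)..k, ∑ m ∈ Finset.Ioc M N,
    a m * (m : ℝ) ^ (-(5 / 4) : ℝ) * Pmd κ c0 m (max (x + v) 1) := ⟨_, rfl⟩
  have hJ2 : J = ∑ m ∈ Finset.Ioc M N, A m * Pm κ c0 m (x + k) -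
      ∑ m ∈ Finset.Ioc M N, A m * Pm κ c0 m x := by
    have g1 : J = ∫ v in (0 : ℝ)..k, (fun y => ∑ m ∈ Finset.Ioc M N, A m * Pmd κ c0 m y)
        (x + v) := by
      rw [hJ]
      refine intervalIntegral.integral_congr fun v hv => ?_
      rw [uIcc_of_le hk0.le] at hv
      have g2 : max (x + v) 1 = x + v := max_eq_left (by linarith [hv.1])
      simp only [g2, hA]
    rw [g1, intervalIntegral.integral_comp_add_left
      (fun y => ∑ m ∈ Finset.Ioc M N, A m * Pmd κ c0 m y), add_zero]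
    refine intervalIntegral.integral_eq_sub_of_hasDerivAt
      (f := fun y => ∑ m ∈ Finset.Ioc M N, A m * Pm κ c0 m y) (fun y hy => ?_) ?_
    · rw [uIcc_of_le (by linarith)] at hy
      exact HasDerivAt.fun_sum fun m _ => ((Pm_deriv hκ c0 m
        (by linarith [hy.1] : 0 < y)).1).const_mul _
    · refine ContinuousOn.intervalIntegrable ?_
      rw [uIcc_of_le (by linarith)]
      refine continuousOn_finsetSum _ fun m _ => continuousOn_const.mul fun y hy => ?_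
      exact (Pm_deriv hκ c0 m (by linarith [hy.1] : 0 < y)).2.continuousWithinAt
  rw [← hJ]
  obtain ⟨t1, ht1⟩ : ∃ t, t = ∑' m : ℕ, a (m + N + 1) * ((m + N + 1 : ℕ) : ℝ) ^
    (-(5 / 4) : ℝ) * Pm κ c0 (m + N + 1) (x + k) := ⟨_, rfl⟩
  obtain ⟨t0, ht0⟩ : ∃ t, t = ∑' m : ℕ, a (m + N + 1) * ((m + N + 1 : ℕ) : ℝ) ^
    (-(5 / 4) : ℝ) * Pm κ c0 (m + N + 1) x := ⟨_, rfl⟩
  rw [← ht1, ← ht0]
  have s1 := MS10_split h κ c0 hMN (x := x + k) (by linarith)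
  have s0 := MS10_split h κ c0 hMN (x := x) hx0
  rw [← ht1] at s1
  rw [← ht0] at s0
  have hmain : errTerm a L x - Etr a κ L0 c0 M x = (J / k + t1 / k - t0 / k) + (r1 + r2 + r3) := by
    have g1 : r3 = ((∫ t in x..(x + k), errTerm a L t) - L0 * k -
        ((∑' m : ℕ, a m * (m : ℝ) ^ (-(5 / 4) : ℝ) * Pm κ c0 m (x + k)) -
        ∑' m : ℕ, a m * (m : ℝ) ^ (-(5 / 4) : ℝ) * Pm κ c0 m x)) / k := by
      rw [hr3, hG, ← hDi]
      congr 1
      ring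
    rw [s1, s0] at g1
    have g2 : r1 = ((∑ m ∈ Finset.Icc 1 M, a m * (m : ℝ) ^ (-(5 / 4) : ℝ) * Pm κ c0 m (x + k)) -
        ∑ m ∈ Finset.Icc 1 M, a m * (m : ℝ) ^ (-(5 / 4) : ℝ) * Pm κ c0 m x) / k -
        ∑ m ∈ Finset.Icc 1 M, a m * (m : ℝ) ^ (-(5 / 4) : ℝ) * Pmd κ c0 m x := by
      rw [hr1, ← Finset.sum_sub_distrib, Finset.sum_div, ← Finset.sum_sub_distrib]
      refine Finset.sum_congr rfl fun m _ => ?_
      rw [hA]
      simp only
      ring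
    rw [g1, g2, hr2, hJ2, hA]
    unfold Etr
    simp only
    field_simp
    ring
  rw [hmain]
  have hr : |r1 + r2 + r3| ≤ C6 * T ^ (1 / 6 : ℝ) := by
    have g1 := abs_add_three r1 r2 r3
    rw [hC6]
    linarith
  have hrr : (r1 + r2 + r3) ^ 2 ≤ C6 ^ 2 * T ^ (1 / 3 : ℝ) := by
    have e3 : T ^ (1 / 3 : ℝ) = (T ^ (1 / 6 : ℝ)) ^ 2 := by
      rw [← Real.rpow_natCast, ← Real.rpow_mul hT0.le]
      norm_num
    rw [e3, ← mul_pow, ← sq_abs (r1 + r2 + r3)]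
    exact pow_le_pow_left₀ (abs_nonneg _) hr 2
  have h5 := MS10_four (J / k) (t1 / k) (t0 / k) (r1 + r2 + r3)
  have hkk : (k ^ 2)⁻¹ = T ^ (-(1 / 4) : ℝ) := by
    rw [hk, ← Real.rpow_natCast, ← Real.rpow_mul hT0.le, ← Real.rpow_neg hT0.le]
    norm_num
  refine h5.trans ?_
  have e1 : (J / k) ^ 2 + (t1 / k) ^ 2 + (t0 / k) ^ 2 =
      T ^ (-(1 / 4) : ℝ) * (J ^ 2 + t1 ^ 2 + t0 ^ 2) := by
    rw [← hkk]
    field_simp
  rw [e1]
  linarith

/-- **MS10.** The tail of `E_f`: with `k = T^{1/8}`, `E_f(x) = (D_f(x+k) - D_f(x))/k + O(T^{1/8+ε})`,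
`D_f = ∫_0 E_f`, insert the series `Vor.main` (`δ = ε`), and compare with the derivatives: `m ≤ M`
trivially (`|P_m''| ≪ m T^{-1/4}`), `M < m ≤ N = ⌊T^{3/4}⌋` by MS8 (average of shifts), `m > N` by
MS9. -/
theorem tail_ms (h : RealSelberg a L 2) (hv : Vor a L κ L0 c0) {ξ η ε : ℝ} (hξ : 0 < ξ)
    (hξ' : ξ < 1 / 6) (hη : 0 < η) (hη' : η ≤ 1 / 3) (hε : 0 < ε) :
    ∃ C T0 : ℝ, 0 < C ∧ 1 ≤ T0 ∧ ∀ (T : ℝ) (M : ℕ), T0 ≤ T → T ^ η / 2 ≤ M → (M : ℝ) ≤ T ^ η →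
      ∫ x in T..(T + T ^ (1 - ξ)), (errTerm a L x - Etr a κ L0 c0 M x) ^ 2 ≤
        C * T ^ ((1 - ξ) + 1 / 2 - η / 2 + ε) := by
  have hκ := hv.kpos
  obtain ⟨C5, hC5, h5⟩ := MS10_point h hv
  obtain ⟨C8, hC8, h8⟩ := Pmd_ms h hκ c0 hε
  obtain ⟨C9, hC9, h9⟩ := Pm_tail_ms h hκ c0 hε
  refine ⟨20 * C8 + 16 * C9 + C5, 1, by positivity, le_rfl, fun T M hT hM1 hM2 => ?_⟩
  have hT0 : 0 < T := by linarith
  obtain ⟨X, hX⟩ : ∃ X : ℝ, X = T ^ (1 - ξ) := ⟨_, rfl⟩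
  have hX0 : 0 < X := by rw [hX]; positivity
  have hXT : X ≤ T := by
    rw [hX]
    have : T ^ (1 - ξ) ≤ T ^ (1 : ℝ) := Real.rpow_le_rpow_of_exponent_le hT (by linarith)
    rwa [Real.rpow_one] at this
  obtain ⟨k, hk⟩ : ∃ k : ℝ, k = T ^ (1 / 8 : ℝ) := ⟨_, rfl⟩
  have hk0 : 0 < k := by rw [hk]; positivity
  have hkX : k ≤ X := by
    rw [hk, hX]
    exact Real.rpow_le_rpow_of_exponent_le hT (by linarith)
  have hMp : (0 : ℝ) < M := lt_of_lt_of_le (by positivity) hM1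
  have hM0 : 1 ≤ M := by exact_mod_cast hMp
  have hM6 : (M : ℝ) ≤ T ^ (1 / 3 : ℝ) := hM2.trans (Real.rpow_le_rpow_of_exponent_le hT hη')
  obtain ⟨N, hN⟩ : ∃ N : ℕ, N = ⌊T ^ (3 / 4 : ℝ)⌋₊ := ⟨_, rfl⟩
  have hN1 : (N : ℝ) ≤ T ^ (3 / 4 : ℝ) := by rw [hN]; exact Nat.floor_le (by positivity)
  have hN2 : (N : ℝ) ≤ T := by
    refine hN1.trans ?_
    have : T ^ (3 / 4 : ℝ) ≤ T ^ (1 : ℝ) := Real.rpow_le_rpow_of_exponent_le hT (by norm_num)
    rwa [Real.rpow_one] at this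
  have hMN : M ≤ N := by
    rw [hN]
    exact Nat.le_floor (hM6.trans (Real.rpow_le_rpow_of_exponent_le hT (by norm_num)))
  have hN3 : T ^ (3 / 4 : ℝ) / 2 ≤ N := by
    have g1 := Nat.lt_floor_add_one (T ^ (3 / 4 : ℝ))
    rw [← hN] at g1
    have g2 : (1 : ℝ) ≤ N := by exact_mod_cast hM0.trans hMN
    linarith
  obtain ⟨F, hF⟩ : ∃ F : ℝ → ℝ, F = fun y => ∑ m ∈ Finset.Ioc M N,
    a m * (m : ℝ) ^ (-(5 / 4) : ℝ) * Pmd κ c0 m (max y 1) := ⟨_, rfl⟩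
  obtain ⟨t, ht⟩ : ∃ t : ℝ → ℝ, t = fun x => ∑' m : ℕ, a (m + N + 1) *
    ((m + N + 1 : ℕ) : ℝ) ^ (-(5 / 4) : ℝ) * Pm κ c0 (m + N + 1) x := ⟨_, rfl⟩
  have hFc : Continuous F := by
    rw [hF]
    refine continuous_finsetSum _ fun m _ => continuous_const.mul ?_
    refine continuous_iff_continuousAt.2 fun y => ?_
    have g1 : ContinuousAt (Pmd κ c0 m) (max y 1) :=
      (Pm_deriv hκ c0 m (lt_of_lt_of_le one_pos (le_max_right y 1))).2
    exact ContinuousAt.comp (f := fun y : ℝ => max y 1) g1 (by fun_prop)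
  have htc : ContinuousOn t (Icc 1 (4 * T)) := by
    rw [ht]
    exact MS10_tail_cont h hκ c0 N (4 * T)
  have hpt : ∀ x ∈ Icc T (T + X), (errTerm a L x - Etr a κ L0 c0 M x) ^ 2 ≤
      4 * T ^ (-(1 / 4) : ℝ) * ((∫ v in (0 : ℝ)..k, F (x + v)) ^ 2 + t (x + k) ^ 2 + t x ^ 2) +
        C5 * T ^ (1 / 3 : ℝ) := by
    intro x hx
    rw [hF, ht, hk]
    exact h5 T x M N hT hx.1 (by linarith [hx.2]) hMN hM6
  have hTX : T ≤ T + X := by linarith
  have hU : uIcc T (T + X) = Icc T (T + X) := uIcc_of_le hTX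
  have c1 : ContinuousOn (fun x => (∫ v in (0 : ℝ)..k, F (x + v)) ^ 2) (Icc T (T + X)) :=
    ((MS6_cont hFc k).pow 2).continuousOn
  have c3 : ContinuousOn (fun x => t (x + k) ^ 2) (Icc T (T + X)) :=
    (htc.comp (f := fun x => x + k) (by fun_prop)
      (fun x hx => ⟨by linarith [hx.1], by linarith [hx.2]⟩)).pow 2
  have c4 : ContinuousOn (fun x => t x ^ 2) (Icc T (T + X)) :=
    (htc.mono (Icc_subset_Icc hT (by linarith))).pow 2
  have i1 : IntervalIntegrable (fun x => (∫ v in (0 : ℝ)..k, F (x + v)) ^ 2) volume T (T + X) :=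
    ContinuousOn.intervalIntegrable (hU ▸ c1)
  have i3 : IntervalIntegrable (fun x => t (x + k) ^ 2) volume T (T + X) :=
    ContinuousOn.intervalIntegrable (hU ▸ c3)
  have i4 : IntervalIntegrable (fun x => t x ^ 2) volume T (T + X) :=
    ContinuousOn.intervalIntegrable (hU ▸ c4)
  have i5 := ((i1.add i3).add i4).const_mul (4 * T ^ (-(1 / 4) : ℝ))
  have key : ∫ x in T..(T + X), (errTerm a L x - Etr a κ L0 c0 M x) ^ 2 ≤
      4 * T ^ (-(1 / 4) : ℝ) * ((∫ x in T..(T + X), (∫ v in (0 : ℝ)..k, F (x + v)) ^ 2) +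
        (∫ x in T..(T + X), t (x + k) ^ 2) + ∫ x in T..(T + X), t x ^ 2) +
        X * (C5 * T ^ (1 / 3 : ℝ)) := by
    refine (MS6_mono hTX (fun _ _ => sq_nonneg _) (i5.add intervalIntegrable_const) hpt).trans
      (le_of_eq ?_)
    rw [intervalIntegral.integral_add i5 intervalIntegrable_const,
      intervalIntegral.integral_const_mul, intervalIntegral.integral_add (i1.add i3) i4,
      intervalIntegral.integral_add i1 i3, intervalIntegral.integral_const, smul_eq_mul]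
    ring
  have b1 : ∫ x in T..(T + X), (∫ v in (0 : ℝ)..k, F (x + v)) ^ 2 ≤
      k ^ 2 * (C8 * T ^ (1 / 2 + ε) * ((X + k) * (M : ℝ) ^ (-(1 / 2) : ℝ) + T ^ (1 / 2 : ℝ))) := by
    refine (MS6_avg hFc hTX hk0).trans (mul_le_mul_of_nonneg_left ?_ (by positivity))
    have e1 : ∫ x in T..(T + X + k), F x ^ 2 = ∫ x in T..(T + X + k),
        (∑ m ∈ Finset.Ioc M N, a m * (m : ℝ) ^ (-(5 / 4) : ℝ) * Pmd κ c0 m x) ^ 2 := by
      refine intervalIntegral.integral_congr fun x hx => ?_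
      rw [uIcc_of_le (by linarith)] at hx
      have e2 : max x 1 = x := max_eq_left (by linarith [hx.1])
      simp only [hF, e2]
    rw [e1]
    have e3 := h8 T T (T + X + k) M N hT le_rfl (by linarith) (by linarith) hM0 hMN hN2
    have e4 : T + X + k - T = X + k := by ring
    rwa [e4] at e3
  have b3 : ∫ x in T..(T + X), t (x + k) ^ 2 ≤
      C9 * T ^ (3 / 2 + ε) * (X * T ^ (-(9 / 8) : ℝ) + T ^ (-(1 / 4) : ℝ)) := by
    rw [intervalIntegral.integral_comp_add_right (fun x => t x ^ 2) k, ht]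
    have e3 := h9 T (T + k) (T + X + k) N hT (by linarith) (by linarith) (by linarith) hN3 hN2
    have e4 : T + X + k - (T + k) = X := by ring
    rwa [e4] at e3
  have b4 : ∫ x in T..(T + X), t x ^ 2 ≤
      C9 * T ^ (3 / 2 + ε) * (X * T ^ (-(9 / 8) : ℝ) + T ^ (-(1 / 4) : ℝ)) := by
    rw [ht]
    have e3 := h9 T T (T + X) N hT le_rfl (by linarith) (by linarith) hN3 hN2
    have e4 : T + X - T = X := by ring
    rwa [e4] at e3
  obtain ⟨W, hW⟩ : ∃ W : ℝ, W = T ^ ((1 - ξ) + 1 / 2 - η / 2 + ε) := ⟨_, rfl⟩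
  rw [← hX, ← hW]
  have hW0 : 0 < W := by rw [hW]; positivity
  have hM3 : (M : ℝ) ^ (-(1 / 2) : ℝ) ≤ 2 * T ^ (-(η / 2)) := by
    calc (M : ℝ) ^ (-(1 / 2) : ℝ) ≤ (T ^ η / 2) ^ (-(1 / 2) : ℝ) :=
          Real.rpow_le_rpow_of_nonpos (by positivity) hM1 (by norm_num)
      _ = T ^ (-(η / 2)) * (1 / 2) ^ (-(1 / 2) : ℝ) := by
          rw [div_eq_mul_one_div, Real.mul_rpow (by positivity) (by norm_num),
            ← Real.rpow_mul hT0.le]
          congr 2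
          ring
      _ ≤ T ^ (-(η / 2)) * (1 / 2) ^ (-1 : ℝ) := by
          refine mul_le_mul_of_nonneg_left ?_ (by positivity)
          exact Real.rpow_le_rpow_of_exponent_ge (by norm_num) (by norm_num) (by norm_num)
      _ = _ := by
          have : (1 / 2 : ℝ) ^ (-1 : ℝ) = 2 := by
            rw [Real.rpow_neg_one]; norm_num
          rw [this, mul_comm]
  have w1 : T ^ (1 / 2 + ε) * (X * T ^ (-(η / 2))) = W := by
    rw [hX, hW, ← Real.rpow_add hT0, ← Real.rpow_add hT0]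
    congr 1
    ring
  have w2 : T ^ (1 / 2 + ε) * T ^ (1 / 2 : ℝ) ≤ W := by
    rw [hW, ← Real.rpow_add hT0]
    exact Real.rpow_le_rpow_of_exponent_le hT (by linarith)
  have w3 : T ^ (-(1 / 4) : ℝ) * (T ^ (3 / 2 + ε) * (X * T ^ (-(9 / 8) : ℝ))) ≤ W := by
    rw [hX, hW, ← Real.rpow_add hT0, ← Real.rpow_add hT0, ← Real.rpow_add hT0]
    exact Real.rpow_le_rpow_of_exponent_le hT (by linarith)
  have w4 : T ^ (-(1 / 4) : ℝ) * (T ^ (3 / 2 + ε) * T ^ (-(1 / 4) : ℝ)) ≤ W := by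
    rw [hW, ← Real.rpow_add hT0, ← Real.rpow_add hT0]
    exact Real.rpow_le_rpow_of_exponent_le hT (by linarith)
  have w5 : X * T ^ (1 / 3 : ℝ) ≤ W := by
    rw [hX, hW, ← Real.rpow_add hT0]
    exact Real.rpow_le_rpow_of_exponent_le hT (by linarith)
  have w6 : T ^ (-(1 / 4) : ℝ) * k ^ 2 = 1 := by
    rw [hk, ← Real.rpow_natCast, ← Real.rpow_mul hT0.le, ← Real.rpow_add hT0]
    norm_num
  have w7 : T ^ (-(1 / 4) : ℝ) * (k ^ 2 * (C8 * T ^ (1 / 2 + ε) *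
      ((X + k) * (M : ℝ) ^ (-(1 / 2) : ℝ) + T ^ (1 / 2 : ℝ)))) ≤ 5 * C8 * W := by
    calc T ^ (-(1 / 4) : ℝ) * (k ^ 2 * (C8 * T ^ (1 / 2 + ε) *
          ((X + k) * (M : ℝ) ^ (-(1 / 2) : ℝ) + T ^ (1 / 2 : ℝ))))
        = (T ^ (-(1 / 4) : ℝ) * k ^ 2) * (C8 * T ^ (1 / 2 + ε) *
          ((X + k) * (M : ℝ) ^ (-(1 / 2) : ℝ) + T ^ (1 / 2 : ℝ))) := by ring
      _ ≤ 1 * (C8 * T ^ (1 / 2 + ε) * ((X + X) * (2 * T ^ (-(η / 2))) + T ^ (1 / 2 : ℝ))) := by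
          rw [w6]
          gcongr
      _ = C8 * (4 * (T ^ (1 / 2 + ε) * (X * T ^ (-(η / 2)))) +
          T ^ (1 / 2 + ε) * T ^ (1 / 2 : ℝ)) := by ring
      _ ≤ C8 * (4 * W + W) := by
          rw [w1]
          gcongr
      _ = _ := by ring
  have w8 : T ^ (-(1 / 4) : ℝ) * (C9 * T ^ (3 / 2 + ε) * (X * T ^ (-(9 / 8) : ℝ) +
      T ^ (-(1 / 4) : ℝ))) ≤ 2 * C9 * W := by
    calc T ^ (-(1 / 4) : ℝ) * (C9 * T ^ (3 / 2 + ε) * (X * T ^ (-(9 / 8) : ℝ) +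
          T ^ (-(1 / 4) : ℝ))) =
          C9 * (T ^ (-(1 / 4) : ℝ) * (T ^ (3 / 2 + ε) * (X * T ^ (-(9 / 8) : ℝ))) +
          T ^ (-(1 / 4) : ℝ) * (T ^ (3 / 2 + ε) * T ^ (-(1 / 4) : ℝ))) := by ring
      _ ≤ C9 * (W + W) := by gcongr
      _ = _ := by ring
  refine key.trans ?_
  have hTm : 0 ≤ T ^ (-(1 / 4) : ℝ) := by positivity
  have v1 := (mul_le_mul_of_nonneg_left b1 hTm).trans w7
  have v3 := (mul_le_mul_of_nonneg_left b3 hTm).trans w8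
  have v4 := (mul_le_mul_of_nonneg_left b4 hTm).trans w8
  have v5 : X * (C5 * T ^ (1 / 3 : ℝ)) ≤ C5 * W := by
    calc X * (C5 * T ^ (1 / 3 : ℝ)) = C5 * (X * T ^ (1 / 3 : ℝ)) := by ring
      _ ≤ _ := mul_le_mul_of_nonneg_left w5 hC5.le
  calc 4 * T ^ (-(1 / 4) : ℝ) * ((∫ x in T..(T + X), (∫ v in (0 : ℝ)..k, F (x + v)) ^ 2) +
        (∫ x in T..(T + X), t (x + k) ^ 2) + ∫ x in T..(T + X), t x ^ 2) +
        X * (C5 * T ^ (1 / 3 : ℝ))
      = 4 * (T ^ (-(1 / 4) : ℝ) * (∫ x in T..(T + X), (∫ v in (0 : ℝ)..k, F (x + v)) ^ 2) +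
        T ^ (-(1 / 4) : ℝ) * (∫ x in T..(T + X), t (x + k) ^ 2) +
        T ^ (-(1 / 4) : ℝ) * ∫ x in T..(T + X), t x ^ 2) + X * (C5 * T ^ (1 / 3 : ℝ)) := by ring
    _ ≤ 4 * (5 * C8 * W + 2 * C9 * W + 2 * C9 * W) + C5 * W := by linarith
    _ = (20 * C8 + 16 * C9 + C5) * W := by ring
--END MS10

end Pool.Agent.PEt5
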