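import Pool.Agent.PEt3.VX
import Pool.Agent.MP_413ec1_an.VdC

/-! Oscillatory integrals: the phases `2λ√x + μ x^{1/3}`. -/

set_option autoImplicit false

open Complex MeasureTheory Set Filter Topology
open scoped Real ComplexConjugate ContDiff

namespace Pool.Agent.PEt5

open Pool.Agent.PEt Pool.Agent.PEt3

--BEGIN OS1
private theorem OS1_e_norm (a : ℝ) : ‖e a‖ = 1 := by
  unfold e
  have h : (2 * π * I * a : ℂ) = ((2 * π * a : ℝ) : ℂ) * I := by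
    push_cast
    ring
  rw [h, norm_exp_ofReal_mul_I]

private theorem OS1_e_deriv {f : ℝ → ℝ} {f' x : ℝ} (h : HasDerivAt f f' x) :
    HasDerivAt (fun x => e (f x)) (I * ((2 * π * f' : ℝ) : ℂ) * e (f x)) x := by
  unfold e
  have h1 : HasDerivAt (fun x => (f x : ℂ)) (f' : ℂ) x := h.ofReal_comp
  have h2 := (h1.const_mul (2 * π * I : ℂ)).cexp
  refine h2.congr_deriv ?_
  push_cast
  ring

/-- **OS1.** Second derivative test for integrals (compare `vdC2` of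
`Pool/Agent/MP_413ec1_an/VdC.lean`). -/
theorem vdc_two {p q Λ : ℝ} {F F' F'' : ℝ → ℝ} (hpq : p ≤ q) (hΛ : 0 < Λ)
    (h1 : ∀ u ∈ Icc p q, HasDerivAt F (F' u) u) (h2 : ∀ u ∈ Icc p q, HasDerivAt F' (F'' u) u)
    (h3 : (∀ u ∈ Icc p q, Λ ≤ F'' u) ∨ (∀ u ∈ Icc p q, F'' u ≤ -Λ))
    (h4 : ContinuousOn F'' (Icc p q)) :
    ‖∫ u in p..q, e (F u)‖ ≤ 8 / √Λ := by
  have hs : 0 < √Λ := Real.sqrt_pos.2 hΛ
  have hss : √Λ * √Λ = Λ := Real.mul_self_sqrt hΛ.le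
  have hpi : 1 ≤ 2 * π := by
    have := Real.pi_gt_three
    linarith
  have key : ∀ σ : ℝ, (σ = 1 ∨ σ = -1) → (∀ u ∈ Icc p q, Λ ≤ σ * (2 * π * F'' u)) →
      ‖∫ u in p..q, e (F u)‖ ≤ 8 / √Λ := by
    intro σ hσ hu
    have h := Pool.Agent.Cogen.vdC2 (G := fun u => e (F u)) (p := fun u => 2 * π * F' u)
      (p' := fun u => 2 * π * F'' u) (a := p) (b := q) (μ := Λ) (σ := σ) (δ := 2 / √Λ) hpq
      (fun u hu => OS1_e_deriv (h1 u hu)) (fun u hu => (h2 u hu).const_mul (2 * π))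
      (continuousOn_const.mul h4) (fun u _ => (OS1_e_norm _).le) hΛ (by positivity) hσ hu
    refine h.trans (le_of_eq ?_)
    have h5 : Λ * (2 / √Λ) = 2 * √Λ := by
      rw [mul_div_assoc', div_eq_iff hs.ne']
      rw [mul_assoc, hss]
      ring
    rw [h5]
    field_simp
    norm_num
  rcases h3 with h3 | h3
  · refine key 1 (Or.inl rfl) fun u hu => ?_
    have h5 := h3 u hu
    nlinarith [h5, hΛ, hpi]
  · refine key (-1) (Or.inr rfl) fun u hu => ?_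
    have h5 := h3 u hu
    nlinarith [h5, hΛ, hpi]
--END OS1

--BEGIN OS2
private theorem OS2_cont {p q : ℝ} {F F' : ℝ → ℝ} (h1 : ∀ u ∈ Icc p q, HasDerivAt F (F' u) u) :
    ContinuousOn (fun u => e (F u)) (Icc p q) := fun u hu =>
  (OS1_e_deriv (h1 u hu)).continuousAt.continuousWithinAt

/-- **OS2.** With an amplitude (partial integration against `∫_p^u e(F)`). -/
theorem vdc_two_amp {p q Λ S V : ℝ} {F F' F'' : ℝ → ℝ} {g g' : ℝ → ℂ} (hpq : p ≤ q) (hΛ : 0 < Λ)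
    (h1 : ∀ u ∈ Icc p q, HasDerivAt F (F' u) u) (h2 : ∀ u ∈ Icc p q, HasDerivAt F' (F'' u) u)
    (h3 : (∀ u ∈ Icc p q, Λ ≤ F'' u) ∨ (∀ u ∈ Icc p q, F'' u ≤ -Λ))
    (h4 : ContinuousOn F'' (Icc p q)) (hg : ∀ u ∈ Icc p q, HasDerivAt g (g' u) u)
    (hg' : ContinuousOn g' (Icc p q)) (hS : ∀ u ∈ Icc p q, ‖g u‖ ≤ S)
    (hV : ∫ u in p..q, ‖g' u‖ ≤ V) :
    ‖∫ u in p..q, g u * e (F u)‖ ≤ (S + V) * (8 / √Λ) := by
  have hs : 0 < √Λ := Real.sqrt_pos.2 hΛ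
  have hB0 : 0 ≤ 8 / √Λ := by positivity
  obtain ⟨B, hB⟩ : ∃ B, B = 8 / √Λ := ⟨_, rfl⟩
  rw [← hB] at hB0 ⊢
  have hec : ContinuousOn (fun u => e (F u)) (Icc p q) := OS2_cont h1
  have hei : ∀ u ∈ Icc p q, IntervalIntegrable (fun u => e (F u)) volume p u := by
    intro u hu
    apply ContinuousOn.intervalIntegrable
    rw [uIcc_of_le hu.1]
    exact hec.mono (Icc_subset_Icc_right hu.2)
  obtain ⟨J, hJ⟩ : ∃ J : ℝ → ℂ, J = fun u => ∫ v in p..u, e (F v) := ⟨_, rfl⟩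
  have hJb : ∀ u ∈ Icc p q, ‖J u‖ ≤ B := by
    intro u hu
    have hsub : Icc p u ⊆ Icc p q := Icc_subset_Icc_right hu.2
    rw [hJ, hB]
    exact vdc_two hu.1 hΛ (fun v hv => h1 v (hsub hv)) (fun v hv => h2 v (hsub hv))
      (h3.imp (fun h v hv => h v (hsub hv)) (fun h v hv => h v (hsub hv))) (h4.mono hsub)
  have hJc : ContinuousOn J (Icc p q) := by
    rw [hJ]
    have h := intervalIntegral.continuousOn_primitive_interval' (μ := volume) (a := p) (b₁ := p)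
      (b₂ := q) (f := fun u => e (F u)) (hei q ⟨hpq, le_rfl⟩) (by rw [uIcc_of_le hpq]; exact ⟨le_rfl, hpq⟩)
    rwa [uIcc_of_le hpq] at h
  have hJd : ∀ u ∈ Ioo p q, HasDerivAt J (e (F u)) u := by
    intro u hu
    rw [hJ]
    have hc : ContinuousAt (fun u => e (F u)) u :=
      (OS1_e_deriv (h1 u ⟨hu.1.le, hu.2.le⟩)).continuousAt
    refine intervalIntegral.integral_hasDerivAt_right (hei u ⟨hu.1.le, hu.2.le⟩) ?_ hc
    exact (hec.mono Ioo_subset_Icc_self).stronglyMeasurableAtFilter isOpen_Ioo u hu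
  have hgc : ContinuousOn g (Icc p q) := fun u hu => (hg u hu).continuousAt.continuousWithinAt
  have hparts := intervalIntegral.integral_mul_deriv_eq_deriv_mul_of_hasDerivAt (a := p) (b := q)
    (u := g) (v := J) (u' := g') (v' := fun u => e (F u))
    (by rw [uIcc_of_le hpq]; exact hgc) (by rw [uIcc_of_le hpq]; exact hJc)
    (by rw [min_eq_left hpq, max_eq_right hpq]; exact fun u hu => hg u ⟨hu.1.le, hu.2.le⟩)
    (by rw [min_eq_left hpq, max_eq_right hpq]; exact hJd)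
    (ContinuousOn.intervalIntegrable (by rw [uIcc_of_le hpq]; exact hg'))
    (ContinuousOn.intervalIntegrable (by rw [uIcc_of_le hpq]; exact hec))
  have hJp : J p = 0 := by
    rw [hJ]
    exact intervalIntegral.integral_same
  rw [hparts, hJp, mul_zero, sub_zero]
  have h5 : ‖g q * J q‖ ≤ S * B := by
    rw [norm_mul]
    have hq : q ∈ Icc p q := ⟨hpq, le_rfl⟩
    exact mul_le_mul (hS q hq) (hJb q hq) (norm_nonneg _) ((norm_nonneg _).trans (hS q hq))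
  have h6 : ‖∫ u in p..q, g' u * J u‖ ≤ V * B := by
    have h7 : ‖∫ u in p..q, g' u * J u‖ ≤ ∫ u in p..q, ‖g' u‖ * B := by
      refine intervalIntegral.norm_integral_le_of_norm_le hpq ?_ ?_
      · refine Filter.Eventually.of_forall fun u hu => ?_
        rw [norm_mul]
        exact mul_le_mul_of_nonneg_left (hJb u ⟨hu.1.le, hu.2⟩) (norm_nonneg _)
      · apply ContinuousOn.intervalIntegrable
        rw [uIcc_of_le hpq]
        exact hg'.norm.mul continuousOn_const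
    rw [intervalIntegral.integral_mul_const] at h7
    exact h7.trans (mul_le_mul_of_nonneg_right hV hB0)
  calc ‖g q * J q - ∫ u in p..q, g' u * J u‖ ≤ ‖g q * J q‖ + ‖∫ u in p..q, g' u * J u‖ :=
        norm_sub_le _ _
    _ ≤ S * B + V * B := add_le_add h5 h6
    _ = (S + V) * B := by ring
--END OS2

--BEGIN OS3
private theorem OS3_one {p q : ℝ} (hpq : p ≤ q) {F F' F'' : ℝ → ℝ}
    (h1 : ∀ u ∈ Icc p q, HasDerivAt F (F' u) u) (h2 : ∀ u ∈ Icc p q, HasDerivAt F' (F'' u) u)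
    (h2c : ContinuousOn F'' (Icc p q)) (h0 : ∀ u ∈ Icc p q, F' u ≠ 0) {h h' : ℝ → ℂ}
    (hh : ∀ u ∈ Icc p q, HasDerivAt h (h' u) u) (hh' : ContinuousOn h' (Icc p q))
    (hp : h p = 0) (hq : h q = 0) :
    ‖∫ u in p..q, h u * e (F u)‖ ≤
      ‖∫ u in p..q, (((-F'' u / F' u ^ 2 : ℝ) : ℂ) * h u + (((F' u)⁻¹ : ℝ) : ℂ) * h' u) *
        e (F u)‖ := by
  have hFc : ContinuousOn F' (Icc p q) := fun u hu => (h2 u hu).continuousAt.continuousWithinAt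
  have hhc : ContinuousOn h (Icc p q) := fun u hu => (hh u hu).continuousAt.continuousWithinAt
  have hec : ContinuousOn (fun u => e (F u)) (Icc p q) := fun u hu =>
    (OS1_e_deriv (h1 u hu)).continuousAt.continuousWithinAt
  have hinv : ContinuousOn (fun u => (F' u)⁻¹) (Icc p q) := hFc.inv₀ h0
  have hw1 : ContinuousOn (fun u => -F'' u / F' u ^ 2) (Icc p q) :=
    h2c.neg.div (hFc.pow 2) fun u hu => pow_ne_zero 2 (h0 u hu)
  have hd : ∀ u ∈ Icc p q, HasDerivAt (fun u => (((F' u)⁻¹ : ℝ) : ℂ) * h u)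
      (((-F'' u / F' u ^ 2 : ℝ) : ℂ) * h u + (((F' u)⁻¹ : ℝ) : ℂ) * h' u) u := by
    intro u hu
    have h3 : HasDerivAt (fun u => (F' u)⁻¹) (-F'' u / F' u ^ 2) u := (h2 u hu).fun_inv (h0 u hu)
    exact h3.ofReal_comp.mul (hh u hu)
  have hH'c : ContinuousOn (fun u => ((-F'' u / F' u ^ 2 : ℝ) : ℂ) * h u +
      (((F' u)⁻¹ : ℝ) : ℂ) * h' u) (Icc p q) :=
    ((continuous_ofReal.comp_continuousOn hw1).mul hhc).add
      ((continuous_ofReal.comp_continuousOn hinv).mul hh')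
  have hvc : ContinuousOn (fun u => I * ((2 * π * F' u : ℝ) : ℂ) * e (F u)) (Icc p q) :=
    (continuousOn_const.mul (continuous_ofReal.comp_continuousOn
      (continuousOn_const.mul hFc))).mul hec
  have hparts := intervalIntegral.integral_mul_deriv_eq_deriv_mul (a := p) (b := q)
    (u := fun u => (((F' u)⁻¹ : ℝ) : ℂ) * h u) (v := fun u => e (F u))
    (u' := fun u => ((-F'' u / F' u ^ 2 : ℝ) : ℂ) * h u + (((F' u)⁻¹ : ℝ) : ℂ) * h' u)
    (v' := fun u => I * ((2 * π * F' u : ℝ) : ℂ) * e (F u))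
    (by rw [uIcc_of_le hpq]; exact hd)
    (by rw [uIcc_of_le hpq]; exact fun u hu => OS1_e_deriv (h1 u hu))
    (ContinuousOn.intervalIntegrable (by rw [uIcc_of_le hpq]; exact hH'c))
    (ContinuousOn.intervalIntegrable (by rw [uIcc_of_le hpq]; exact hvc))
  rw [hp, hq, mul_zero, mul_zero, zero_mul, zero_mul, sub_zero, zero_sub] at hparts
  have hlhs : ∫ u in p..q, (((F' u)⁻¹ : ℝ) : ℂ) * h u * (I * ((2 * π * F' u : ℝ) : ℂ) * e (F u)) =
      (2 * π * I) * ∫ u in p..q, h u * e (F u) := by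
    rw [← intervalIntegral.integral_const_mul]
    apply intervalIntegral.integral_congr
    intro u hu
    rw [uIcc_of_le hpq] at hu
    have h3 : ((F' u : ℝ) : ℂ) ≠ 0 := ofReal_ne_zero.2 (h0 u hu)
    simp only
    push_cast
    field_simp
  rw [hlhs] at hparts
  have h4 := congrArg norm hparts
  rw [norm_neg, norm_mul] at h4
  have h5 : 1 ≤ ‖(2 * π * I : ℂ)‖ := by
    rw [norm_mul, norm_I, mul_one, norm_mul, Complex.norm_real, Complex.norm_ofNat,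
      Real.norm_of_nonneg Real.pi_pos.le]
    linarith [Real.pi_gt_three]
  rw [← h4]
  exact le_mul_of_one_le_left (norm_nonneg _) h5

/-- **OS3.** Two integrations by parts: on `[p,q]`, of length `U` at most, `|g^{(j)}| ≤ S U^{-j}`,
`g = g' = 0` at the end points, `|F'| ≥ Δ`, `|F''| ≤ CΔ/U`, `|F'''| ≤ CΔ/U²`. -/
theorem far_parts (C : ℝ) (hC : 0 < C) : ∃ C' : ℝ, 0 < C' ∧ ∀ (p q S U Δ : ℝ)
    (F F' F'' F''' : ℝ → ℝ) (g g' g'' : ℝ → ℂ), p ≤ q → 0 < U → q - p ≤ C * U → 0 < Δ →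
    (∀ u ∈ Icc p q, HasDerivAt F (F' u) u) → (∀ u ∈ Icc p q, HasDerivAt F' (F'' u) u) →
    (∀ u ∈ Icc p q, HasDerivAt F'' (F''' u) u) → ContinuousOn F''' (Icc p q) →
    (∀ u ∈ Icc p q, HasDerivAt g (g' u) u) → (∀ u ∈ Icc p q, HasDerivAt g' (g'' u) u) →
    ContinuousOn g'' (Icc p q) → g p = 0 → g q = 0 → g' p = 0 → g' q = 0 →
    (∀ u ∈ Icc p q, Δ ≤ |F' u| ∧ |F'' u| ≤ C * Δ / U ∧ |F''' u| ≤ C * Δ / U ^ 2) →
    (∀ u ∈ Icc p q, ‖g u‖ ≤ S ∧ ‖g' u‖ ≤ S / U ∧ ‖g'' u‖ ≤ S / U ^ 2) →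
    ‖∫ u in p..q, g u * e (F u)‖ ≤ C' * S / (U * Δ ^ 2) := by
  refine ⟨C * (3 * C ^ 2 + 4 * C + 1), by positivity, ?_⟩
  intro p q S U Δ F F' F'' F''' g g' g'' hpq hU hlen hΔ h1 h2 h3 h3c hg hg' hg''c gp gq g'p g'q
    hF hG
  have hS : 0 ≤ S := (norm_nonneg _).trans (hG p ⟨le_rfl, hpq⟩).1
  have h0 : ∀ u ∈ Icc p q, F' u ≠ 0 := by
    intro u hu h
    have := (hF u hu).1
    rw [h, abs_zero] at this
    linarith
  have hF'c : ContinuousOn F' (Icc p q) := fun u hu => (h2 u hu).continuousAt.continuousWithinAt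
  have hF''c : ContinuousOn F'' (Icc p q) := fun u hu => (h3 u hu).continuousAt.continuousWithinAt
  have hgc : ContinuousOn g (Icc p q) := fun u hu => (hg u hu).continuousAt.continuousWithinAt
  have hg'c : ContinuousOn g' (Icc p q) := fun u hu => (hg' u hu).continuousAt.continuousWithinAt
  have hinv : ContinuousOn (fun u => (F' u)⁻¹) (Icc p q) := hF'c.inv₀ h0
  have hw1 : ContinuousOn (fun u => -F'' u / F' u ^ 2) (Icc p q) :=
    hF''c.neg.div (hF'c.pow 2) fun u hu => pow_ne_zero 2 (h0 u hu)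
  have hw2 : ContinuousOn (fun u => -F''' u / F' u ^ 2 + 2 * F'' u ^ 2 / F' u ^ 3) (Icc p q) :=
    (h3c.neg.div (hF'c.pow 2) fun u hu => pow_ne_zero 2 (h0 u hu)).add
      ((continuousOn_const.mul (hF''c.pow 2)).div (hF'c.pow 3) fun u hu =>
        pow_ne_zero 3 (h0 u hu))
  have hd1 : ∀ u ∈ Icc p q, HasDerivAt (fun u => -F'' u / F' u ^ 2)
      (-F''' u / F' u ^ 2 + 2 * F'' u ^ 2 / F' u ^ 3) u := by
    intro u hu
    have h4 := (h3 u hu).fun_neg.fun_div ((h2 u hu).fun_pow 2) (pow_ne_zero 2 (h0 u hu))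
    refine h4.congr_deriv ?_
    have h5 := h0 u hu
    field_simp
    ring
  have hd0 : ∀ u ∈ Icc p q, HasDerivAt (fun u => (F' u)⁻¹) (-F'' u / F' u ^ 2) u :=
    fun u hu => (h2 u hu).fun_inv (h0 u hu)
  have s1 := OS3_one hpq h1 h2 hF''c h0 hg hg'c gp gq
  obtain ⟨k, hk⟩ : ∃ k : ℝ → ℂ, k = fun u => ((-F'' u / F' u ^ 2 : ℝ) : ℂ) * g u +
    (((F' u)⁻¹ : ℝ) : ℂ) * g' u := ⟨_, rfl⟩
  obtain ⟨k', hk'⟩ : ∃ k' : ℝ → ℂ, k' = fun u =>
    (((-F''' u / F' u ^ 2 + 2 * F'' u ^ 2 / F' u ^ 3 : ℝ) : ℂ) * g u +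
      ((-F'' u / F' u ^ 2 : ℝ) : ℂ) * g' u) + (((-F'' u / F' u ^ 2 : ℝ) : ℂ) * g' u +
      (((F' u)⁻¹ : ℝ) : ℂ) * g'' u) := ⟨_, rfl⟩
  have hkd : ∀ u ∈ Icc p q, HasDerivAt k (k' u) u := by
    intro u hu
    rw [hk, hk']
    exact ((hd1 u hu).ofReal_comp.mul (hg u hu)).add ((hd0 u hu).ofReal_comp.mul (hg' u hu))
  have hk'c : ContinuousOn k' (Icc p q) := by
    rw [hk']
    exact (((continuous_ofReal.comp_continuousOn hw2).mul hgc).add
      ((continuous_ofReal.comp_continuousOn hw1).mul hg'c)).add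
      (((continuous_ofReal.comp_continuousOn hw1).mul hg'c).add
      ((continuous_ofReal.comp_continuousOn hinv).mul hg''c))
  have hkp : k p = 0 := by
    rw [hk]
    simp only
    rw [gp, g'p, mul_zero, mul_zero, add_zero]
  have hkq : k q = 0 := by
    rw [hk]
    simp only
    rw [gq, g'q, mul_zero, mul_zero, add_zero]
  have s2 := OS3_one hpq h1 h2 hF''c h0 hkd hk'c hkp hkq
  have s3 : ‖∫ u in p..q, g u * e (F u)‖ ≤ ‖∫ u in p..q, k u * e (F u)‖ := by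
    rw [hk]
    exact s1
  refine (s3.trans s2).trans ?_
  have hb : ∀ u ∈ Icc p q, ‖(((-F'' u / F' u ^ 2 : ℝ) : ℂ) * k u + (((F' u)⁻¹ : ℝ) : ℂ) * k' u) *
        e (F u)‖ ≤ (3 * C ^ 2 + 4 * C + 1) * S / (U ^ 2 * Δ ^ 2) := by
    intro u hu
    obtain ⟨b1, b2, b3⟩ := hF u hu
    obtain ⟨c1, c2, c3⟩ := hG u hu
    have hF'p : 0 < |F' u| := lt_of_lt_of_le hΔ b1
    have w0 : |(F' u)⁻¹| ≤ 1 / Δ := by
      rw [abs_inv, ← one_div]
      exact one_div_le_one_div_of_le hΔ b1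
    have w1 : |-F'' u / F' u ^ 2| ≤ C / (U * Δ) := by
      rw [abs_div, abs_neg, abs_pow]
      calc |F'' u| / |F' u| ^ 2 ≤ (C * Δ / U) / Δ ^ 2 := by gcongr
        _ = C / (U * Δ) := by field_simp
    have w2 : |-F''' u / F' u ^ 2 + 2 * F'' u ^ 2 / F' u ^ 3| ≤ (C + 2 * C ^ 2) / (U ^ 2 * Δ) := by
      have e1 : |-F''' u / F' u ^ 2| ≤ C / (U ^ 2 * Δ) := by
        rw [abs_div, abs_neg, abs_pow]
        calc |F''' u| / |F' u| ^ 2 ≤ (C * Δ / U ^ 2) / Δ ^ 2 := by gcongr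
          _ = C / (U ^ 2 * Δ) := by field_simp
      have e2 : |2 * F'' u ^ 2 / F' u ^ 3| ≤ 2 * C ^ 2 / (U ^ 2 * Δ) := by
        rw [abs_div, abs_mul, abs_pow, abs_pow, abs_of_pos (by norm_num : (0 : ℝ) < 2)]
        calc 2 * |F'' u| ^ 2 / |F' u| ^ 3 ≤ 2 * (C * Δ / U) ^ 2 / Δ ^ 3 := by gcongr
          _ = 2 * C ^ 2 / (U ^ 2 * Δ) := by field_simp
      calc |-F''' u / F' u ^ 2 + 2 * F'' u ^ 2 / F' u ^ 3| ≤
          |-F''' u / F' u ^ 2| + |2 * F'' u ^ 2 / F' u ^ 3| := abs_add_le _ _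
        _ ≤ C / (U ^ 2 * Δ) + 2 * C ^ 2 / (U ^ 2 * Δ) := add_le_add e1 e2
        _ = (C + 2 * C ^ 2) / (U ^ 2 * Δ) := by ring
    have hkb : ‖k u‖ ≤ (C + 1) * S / (U * Δ) := by
      rw [hk]
      calc ‖((-F'' u / F' u ^ 2 : ℝ) : ℂ) * g u + (((F' u)⁻¹ : ℝ) : ℂ) * g' u‖ ≤
          ‖((-F'' u / F' u ^ 2 : ℝ) : ℂ) * g u‖ + ‖(((F' u)⁻¹ : ℝ) : ℂ) * g' u‖ := norm_add_le _ _
        _ = |-F'' u / F' u ^ 2| * ‖g u‖ + |(F' u)⁻¹| * ‖g' u‖ := by
            rw [norm_mul, norm_mul, Complex.norm_real, Complex.norm_real, Real.norm_eq_abs,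
              Real.norm_eq_abs]
        _ ≤ C / (U * Δ) * S + 1 / Δ * (S / U) := by gcongr
        _ = (C + 1) * S / (U * Δ) := by field_simp
    have hkb' : ‖k' u‖ ≤ (2 * C ^ 2 + 3 * C + 1) * S / (U ^ 2 * Δ) := by
      rw [hk']
      calc ‖(((-F''' u / F' u ^ 2 + 2 * F'' u ^ 2 / F' u ^ 3 : ℝ) : ℂ) * g u +
            ((-F'' u / F' u ^ 2 : ℝ) : ℂ) * g' u) + (((-F'' u / F' u ^ 2 : ℝ) : ℂ) * g' u +
            (((F' u)⁻¹ : ℝ) : ℂ) * g'' u)‖ ≤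
          (‖((-F''' u / F' u ^ 2 + 2 * F'' u ^ 2 / F' u ^ 3 : ℝ) : ℂ) * g u‖ +
            ‖((-F'' u / F' u ^ 2 : ℝ) : ℂ) * g' u‖) + (‖((-F'' u / F' u ^ 2 : ℝ) : ℂ) * g' u‖ +
            ‖(((F' u)⁻¹ : ℝ) : ℂ) * g'' u‖) :=
            (norm_add_le _ _).trans (add_le_add (norm_add_le _ _) (norm_add_le _ _))
        _ = (|-F''' u / F' u ^ 2 + 2 * F'' u ^ 2 / F' u ^ 3| * ‖g u‖ +
            |-F'' u / F' u ^ 2| * ‖g' u‖) + (|-F'' u / F' u ^ 2| * ‖g' u‖ +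
            |(F' u)⁻¹| * ‖g'' u‖) := by
            rw [norm_mul, norm_mul, norm_mul, Complex.norm_real, Complex.norm_real,
              Complex.norm_real, Real.norm_eq_abs, Real.norm_eq_abs, Real.norm_eq_abs]
        _ ≤ ((C + 2 * C ^ 2) / (U ^ 2 * Δ) * S + C / (U * Δ) * (S / U)) +
            (C / (U * Δ) * (S / U) + 1 / Δ * (S / U ^ 2)) := by gcongr
        _ = (2 * C ^ 2 + 3 * C + 1) * S / (U ^ 2 * Δ) := by
            field_simp
            ring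
    rw [norm_mul, OS1_e_norm, mul_one]
    calc ‖((-F'' u / F' u ^ 2 : ℝ) : ℂ) * k u + (((F' u)⁻¹ : ℝ) : ℂ) * k' u‖ ≤
          ‖((-F'' u / F' u ^ 2 : ℝ) : ℂ) * k u‖ + ‖(((F' u)⁻¹ : ℝ) : ℂ) * k' u‖ := norm_add_le _ _
      _ = |-F'' u / F' u ^ 2| * ‖k u‖ + |(F' u)⁻¹| * ‖k' u‖ := by
          rw [norm_mul, norm_mul, Complex.norm_real, Complex.norm_real, Real.norm_eq_abs,
            Real.norm_eq_abs]
      _ ≤ C / (U * Δ) * ((C + 1) * S / (U * Δ)) +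
          1 / Δ * ((2 * C ^ 2 + 3 * C + 1) * S / (U ^ 2 * Δ)) := by gcongr
      _ = (3 * C ^ 2 + 4 * C + 1) * S / (U ^ 2 * Δ ^ 2) := by
          field_simp
          ring
  have hfin := intervalIntegral.norm_integral_le_of_norm_le_const (a := p) (b := q)
    (f := fun u => (((-F'' u / F' u ^ 2 : ℝ) : ℂ) * k u + (((F' u)⁻¹ : ℝ) : ℂ) * k' u) * e (F u))
    (C := (3 * C ^ 2 + 4 * C + 1) * S / (U ^ 2 * Δ ^ 2)) (by
      intro u hu
      rw [uIoc_of_le hpq] at hu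
      exact hb u ⟨hu.1.le, hu.2⟩)
  refine hfin.trans ?_
  rw [abs_of_nonneg (by linarith)]
  calc (3 * C ^ 2 + 4 * C + 1) * S / (U ^ 2 * Δ ^ 2) * (q - p) ≤
      (3 * C ^ 2 + 4 * C + 1) * S / (U ^ 2 * Δ ^ 2) * (C * U) := by gcongr
    _ = C * (3 * C ^ 2 + 4 * C + 1) * S / (U * Δ ^ 2) := by
      field_simp
--END OS3

--BEGIN OS4
private theorem OS4_geom {t q X : ℝ} (ht : 0 < t) (hq : 0 < q) (h : q ^ 3 = t ^ 3 + X)
    (hX : 0 ≤ X) (hXt : X ≤ t ^ 3) : t ≤ q ∧ q ≤ 2 * t ∧ q - t ≤ X / t ^ 2 := by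
  have ht3 : 0 < t ^ 3 := by positivity
  have h1 : t ≤ q := by
    by_contra h2
    push Not at h2
    have h3 : q ^ 3 < t ^ 3 := pow_lt_pow_left₀ h2 hq.le (by norm_num)
    linarith
  refine ⟨h1, ?_, ?_⟩
  · by_contra h2
    push Not at h2
    have h3 : (2 * t) ^ 3 < q ^ 3 := pow_lt_pow_left₀ h2 (by positivity) (by norm_num)
    have h4 : (2 * t) ^ 3 = 8 * t ^ 3 := by ring
    rw [h4] at h3
    linarith
  · rw [le_div_iff₀ (by positivity)]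
    have h3 : (q - t) * (q ^ 2 + q * t + t ^ 2) = X := by
      have : (q - t) * (q ^ 2 + q * t + t ^ 2) = q ^ 3 - t ^ 3 := by ring
      rw [this, h]
      ring
    have h4 : 0 ≤ (q - t) * (q ^ 2 + q * t) := by
      apply mul_nonneg (by linarith)
      positivity
    nlinarith [h3, h4]

private theorem OS4_pw {t : ℝ} (ht : 0 ≤ t) (c : ℝ) : (t ^ 3) ^ c = t ^ (3 * c) := by
  rw [← Real.rpow_natCast, ← Real.rpow_mul ht]
  norm_num

private theorem OS4_F1 (l mu : ℝ) {u : ℝ} (hu : 0 < u) :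
    HasDerivAt (fun u : ℝ => 2 * l * u ^ (3 / 2 : ℝ) + mu * u) (3 * l * u ^ (1 / 2 : ℝ) + mu) u := by
  have h1 := ((Real.hasDerivAt_rpow_const (x := u) (p := 3 / 2) (Or.inl hu.ne')).const_mul
    (2 * l)).add ((hasDerivAt_id u).const_mul mu)
  refine h1.congr_deriv ?_
  rw [show (3 / 2 : ℝ) - 1 = 1 / 2 by norm_num]
  ring

private theorem OS4_F2 (l mu : ℝ) {u : ℝ} (hu : 0 < u) :
    HasDerivAt (fun u : ℝ => 3 * l * u ^ (1 / 2 : ℝ) + mu) (3 / 2 * l * u ^ (-(1 / 2) : ℝ)) u := by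
  have h1 := ((Real.hasDerivAt_rpow_const (x := u) (p := 1 / 2) (Or.inl hu.ne')).const_mul
    (3 * l)).add_const mu
  refine h1.congr_deriv ?_
  rw [show (1 / 2 : ℝ) - 1 = -(1 / 2) by norm_num]
  ring

private theorem OS4_F3 (l : ℝ) {u : ℝ} (hu : 0 < u) :
    HasDerivAt (fun u : ℝ => 3 / 2 * l * u ^ (-(1 / 2) : ℝ))
      (-(3 / 4) * l * u ^ (-(3 / 2) : ℝ)) u := by
  have h1 := (Real.hasDerivAt_rpow_const (x := u) (p := -(1 / 2)) (Or.inl hu.ne')).const_mul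
    (3 / 2 * l)
  refine h1.congr_deriv ?_
  rw [show (-(1 / 2) : ℝ) - 1 = -(3 / 2) by norm_num]
  ring

private theorem OS4_cont (l : ℝ) {t q : ℝ} (ht : 0 < t) (c r : ℝ) :
    ContinuousOn (fun u : ℝ => c * l * u ^ r) (Icc t q) := by
  intro u hu
  have hu0 : 0 < u := lt_of_lt_of_le ht hu.1
  exact ((continuousAt_const).mul (Real.continuousAt_rpow_const u r
    (Or.inl hu0.ne'))).continuousWithinAt

private theorem OS4_sub {t q : ℝ} (ht : 0 < t) (htq : t ≤ q) (l mu : ℝ) {a : ℝ → ℂ}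
    (ha : Continuous a) :
    ∫ x in (t ^ 3)..(q ^ 3), a x * e (ps l mu x) =
      ∫ u in t..q, (((3 * u ^ 2 : ℝ) : ℂ) * a (u ^ 3)) *
        e (2 * l * u ^ (3 / 2 : ℝ) + mu * u) := by
  have hps : Continuous (fun x => e (ps l mu x)) := by
    have h1 : Continuous (fun x : ℝ => x ^ (1 / 3 : ℝ)) :=
      Real.continuous_rpow_const (by norm_num)
    have h2 : Continuous (ps l mu) := by
      unfold ps
      exact (continuous_const.mul Real.continuous_sqrt).add (continuous_const.mul h1)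
    unfold e
    exact (continuous_const.mul (continuous_ofReal.comp h2)).cexp
  have h := intervalIntegral.integral_deriv_smul_comp (a := t) (b := q) (f := fun u : ℝ => u ^ 3)
    (f' := fun u => 3 * u ^ 2) (g := fun x => a x * e (ps l mu x))
    (fun u _ => by simpa using hasDerivAt_pow 3 u)
    (by fun_prop) (ha.mul hps)
  rw [← h]
  apply intervalIntegral.integral_congr
  intro u hu
  rw [uIcc_of_le htq] at hu
  have hu0 : 0 < u := lt_of_lt_of_le ht hu.1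
  have h3 : ps l mu (u ^ 3) = 2 * l * u ^ (3 / 2 : ℝ) + mu * u := by
    unfold ps
    rw [Real.sqrt_eq_rpow, OS4_pw hu0.le, OS4_pw hu0.le]
    norm_num
  simp only [Function.comp_apply]
  rw [h3, Complex.real_smul]
  ring

private theorem OS4_a {a : ℝ → ℂ} (ha : ContDiff ℝ 2 a) :
    (∀ x, HasDerivAt a (deriv a x) x) ∧ (∀ x, HasDerivAt (deriv a) (deriv (deriv a) x) x) ∧
      Continuous a ∧ Continuous (deriv a) ∧ Continuous (deriv (deriv a)) := by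
  have h1 : ContDiff ℝ 1 (deriv a) := by
    have h2 : ContDiff ℝ (1 + 1) a := by simpa [one_add_one_eq_two] using ha
    exact (contDiff_succ_iff_deriv.1 h2).2.2
  have h2 : ContDiff ℝ 0 (deriv (deriv a)) := by
    have h2 : ContDiff ℝ (0 + 1) (deriv a) := by simpa using h1
    exact (contDiff_succ_iff_deriv.1 h2).2.2
  refine ⟨fun x => (ha.differentiable (by norm_num) x).hasDerivAt,
    fun x => (h1.differentiable (by norm_num) x).hasDerivAt, ha.continuous, h1.continuous,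
    h2.continuous⟩

private theorem OS4_g1 {a : ℝ → ℂ} (ha : ContDiff ℝ 2 a) (u : ℝ) :
    HasDerivAt (fun u : ℝ => ((3 * u ^ 2 : ℝ) : ℂ) * a (u ^ 3))
      (((6 * u : ℝ) : ℂ) * a (u ^ 3) + ((9 * u ^ 4 : ℝ) : ℂ) * deriv a (u ^ 3)) u := by
  have h1 : HasDerivAt (fun u : ℝ => 3 * u ^ 2) (3 * (2 * u)) u := by
    have := (hasDerivAt_pow 2 u).const_mul (3 : ℝ)
    simpa using this
  have h2 : HasDerivAt (fun u : ℝ => u ^ 3) (3 * u ^ 2) u := by simpa using hasDerivAt_pow 3 u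
  have h3 := ((OS4_a ha).1 (u ^ 3)).scomp u h2
  have h4 := h1.ofReal_comp.mul h3
  refine h4.congr_deriv ?_
  rw [Complex.real_smul]
  simp only [Function.comp_apply]
  push_cast
  ring

private theorem OS4_g2 {a : ℝ → ℂ} (ha : ContDiff ℝ 2 a) (u : ℝ) :
    HasDerivAt (fun u : ℝ => ((6 * u : ℝ) : ℂ) * a (u ^ 3) + ((9 * u ^ 4 : ℝ) : ℂ) *
      deriv a (u ^ 3)) (((6 : ℝ) : ℂ) * a (u ^ 3) + ((54 * u ^ 3 : ℝ) : ℂ) * deriv a (u ^ 3) +
        ((27 * u ^ 6 : ℝ) : ℂ) * deriv (deriv a) (u ^ 3)) u := by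
  have h1 : HasDerivAt (fun u : ℝ => 6 * u) 6 u := by
    have := (hasDerivAt_id u).const_mul (6 : ℝ)
    simpa using this
  have h1' : HasDerivAt (fun u : ℝ => 9 * u ^ 4) (9 * (4 * u ^ 3)) u := by
    have := (hasDerivAt_pow 4 u).const_mul (9 : ℝ)
    simpa using this
  have h2 : HasDerivAt (fun u : ℝ => u ^ 3) (3 * u ^ 2) u := by simpa using hasDerivAt_pow 3 u
  have h3 := ((OS4_a ha).1 (u ^ 3)).scomp u h2
  have h3' := ((OS4_a ha).2.1 (u ^ 3)).scomp u h2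
  have h4 := (h1.ofReal_comp.mul h3).add (h1'.ofReal_comp.mul h3')
  refine h4.congr_deriv ?_
  rw [Complex.real_smul, Complex.real_smul]
  simp only [Function.comp_apply]
  push_cast
  ring

private theorem OS4_bd {t q X C0 : ℝ} {a : ℝ → ℂ} (ht : 0 < t) (hX : 0 < X) (hXt : X ≤ t ^ 3)
    (hq2 : q ≤ 2 * t) (h0 : ∀ x, ‖a x‖ ≤ C0) (h1 : ∀ x, ‖deriv a x‖ ≤ C0 / X)
    (h2 : ∀ x, ‖deriv (deriv a) x‖ ≤ C0 / X ^ 2) {u : ℝ} (hu : u ∈ Icc t q) :
    ‖((3 * u ^ 2 : ℝ) : ℂ) * a (u ^ 3)‖ ≤ 2166 * C0 * t ^ 2 ∧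
    ‖((6 * u : ℝ) : ℂ) * a (u ^ 3) + ((9 * u ^ 4 : ℝ) : ℂ) * deriv a (u ^ 3)‖ ≤
      2166 * C0 * t ^ 2 / (X / t ^ 2) ∧
    ‖((6 : ℝ) : ℂ) * a (u ^ 3) + ((54 * u ^ 3 : ℝ) : ℂ) * deriv a (u ^ 3) +
        ((27 * u ^ 6 : ℝ) : ℂ) * deriv (deriv a) (u ^ 3)‖ ≤
      2166 * C0 * t ^ 2 / (X / t ^ 2) ^ 2 := by
  have hu0 : 0 < u := lt_of_lt_of_le ht hu.1
  have hu2 : u ≤ 2 * t := hu.2.trans hq2
  have hC0 : 0 ≤ C0 := (norm_nonneg _).trans (h0 0)
  have e1 : t * X ≤ t ^ 4 := by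
    calc t * X ≤ t * t ^ 3 := by gcongr
      _ = t ^ 4 := by ring
  have n1 : ∀ r : ℝ, 0 ≤ r → ‖((r : ℝ) : ℂ)‖ = r := fun r hr => by
    rw [Complex.norm_real, Real.norm_of_nonneg hr]
  refine ⟨?_, ?_, ?_⟩
  · rw [norm_mul, n1 _ (by positivity)]
    calc 3 * u ^ 2 * ‖a (u ^ 3)‖ ≤ 3 * (2 * t) ^ 2 * C0 := by
          gcongr
          exact h0 _
      _ = 12 * (C0 * t ^ 2) := by ring
      _ ≤ 2166 * (C0 * t ^ 2) := by
          apply mul_le_mul_of_nonneg_right (by norm_num)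
          positivity
      _ = 2166 * C0 * t ^ 2 := by ring
  · refine (norm_add_le _ _).trans ?_
    rw [norm_mul, norm_mul, n1 _ (by positivity), n1 _ (by positivity)]
    calc 6 * u * ‖a (u ^ 3)‖ + 9 * u ^ 4 * ‖deriv a (u ^ 3)‖ ≤
          6 * (2 * t) * C0 + 9 * (2 * t) ^ 4 * (C0 / X) := by
          gcongr
          · exact h0 _
          · exact h1 _
      _ = (12 * (t * X) + 144 * t ^ 4) * C0 / X := by
          field_simp
          ring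
      _ ≤ (12 * t ^ 4 + 2154 * t ^ 4) * C0 / X := by
          gcongr
          norm_num
      _ = 2166 * C0 * t ^ 2 / (X / t ^ 2) := by
          field_simp
          ring
  · refine (norm_add₃_le).trans ?_
    rw [norm_mul, norm_mul, norm_mul, n1 _ (by positivity), n1 _ (by positivity),
      n1 _ (by positivity)]
    have e2 : X ^ 2 ≤ t ^ 6 := by
      calc X ^ 2 ≤ (t ^ 3) ^ 2 := by gcongr
        _ = t ^ 6 := by ring
    calc 6 * ‖a (u ^ 3)‖ + 54 * u ^ 3 * ‖deriv a (u ^ 3)‖ +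
          27 * u ^ 6 * ‖deriv (deriv a) (u ^ 3)‖ ≤
          6 * C0 + 54 * (2 * t) ^ 3 * (C0 / X) + 27 * (2 * t) ^ 6 * (C0 / X ^ 2) := by
          gcongr
          · exact h0 _
          · exact h1 _
          · exact h2 _
      _ = (6 * X ^ 2 + 432 * (t ^ 3 * X) + 1728 * t ^ 6) * C0 / X ^ 2 := by
          field_simp
          ring
      _ ≤ (6 * t ^ 6 + 432 * (t ^ 3 * t ^ 3) + 1728 * t ^ 6) * C0 / X ^ 2 := by
          gcongr
      _ = 2166 * C0 * t ^ 2 / (X / t ^ 2) ^ 2 := by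
          field_simp
          ring

/-- **OS4.** `|∫ a(x) e(2λ√x + μx^{1/3}) dx| ≪ T^{3/4} |λ|^{-1/2}`, for every `μ`: put `x = u³`,
the phase `2λu^{3/2} + μu` has second derivative `(3/2) λ u^{-1/2}` (OS2). -/
theorem osc_near (C0 : ℝ) : ∃ C : ℝ, 0 < C ∧ ∀ (T X l mu : ℝ) (a : ℝ → ℂ), 1 ≤ X → X ≤ T →
    l ≠ 0 → Am T X C0 a →
    ‖∫ x in T..(T + X), a x * e (ps l mu x)‖ ≤ C * T ^ (3 / 4 : ℝ) * |l| ^ (-(1 / 2) : ℝ) := by
  refine ⟨34656 * |C0| + 1, by positivity, ?_⟩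
  intro T X l mu a hX1 hXT hl ha
  have hX : 0 < X := by linarith
  have hT : 0 < T := by linarith
  have hC0 : 0 ≤ C0 := (norm_nonneg _).trans (ha.b0 0)
  obtain ⟨t, ht⟩ : ∃ t, t = T ^ (1 / 3 : ℝ) := ⟨_, rfl⟩
  obtain ⟨q, hq⟩ : ∃ q, q = (T + X) ^ (1 / 3 : ℝ) := ⟨_, rfl⟩
  have ht0 : 0 < t := by
    rw [ht]
    positivity
  have hq0 : 0 < q := by
    rw [hq]
    positivity
  have ht3 : T = t ^ 3 := by
    rw [ht, ← Real.rpow_natCast, ← Real.rpow_mul hT.le]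
    norm_num
  have hq3 : q ^ 3 = t ^ 3 + X := by
    rw [← ht3, hq, ← Real.rpow_natCast, ← Real.rpow_mul (by linarith)]
    norm_num
  have hXt : X ≤ t ^ 3 := by
    rw [← ht3]
    exact hXT
  obtain ⟨g1, g2, g3⟩ := OS4_geom ht0 hq0 hq3 hX.le hXt
  have hsm := ha.smooth
  obtain ⟨a1, a2, a3, a4, a5⟩ := OS4_a hsm
  have hsub : ∫ x in T..(T + X), a x * e (ps l mu x) =
      ∫ u in t..q, (((3 * u ^ 2 : ℝ) : ℂ) * a (u ^ 3)) *
        e (2 * l * u ^ (3 / 2 : ℝ) + mu * u) := by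
    rw [← OS4_sub ht0 g1 l mu a3, hq3, ht3]
  have hpos : ∀ u ∈ Icc t q, 0 < u := fun u hu => lt_of_lt_of_le ht0 hu.1
  have hbd := fun u (hu : u ∈ Icc t q) => OS4_bd ht0 hX hXt g2 ha.b0 ha.b1 ha.b2 hu
  have hlp : 0 < |l| := abs_pos.2 hl
  have hg'c : Continuous (fun u : ℝ => ((6 * u : ℝ) : ℂ) * a (u ^ 3) + ((9 * u ^ 4 : ℝ) : ℂ) *
      deriv a (u ^ 3)) := by
    have h1 : Continuous (fun u : ℝ => u ^ 3) := by fun_prop
    have h2 := a3.comp h1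
    have h3 := a4.comp h1
    exact (Continuous.mul (by fun_prop) h2).add (Continuous.mul (by fun_prop) h3)
  have key := vdc_two_amp (p := t) (q := q) (Λ := |l| * t ^ (-(1 / 2) : ℝ))
    (S := 2166 * C0 * t ^ 2) (V := 2166 * C0 * t ^ 2)
    (F := fun u => 2 * l * u ^ (3 / 2 : ℝ) + mu * u) (F' := fun u => 3 * l * u ^ (1 / 2 : ℝ) + mu)
    (F'' := fun u => 3 / 2 * l * u ^ (-(1 / 2) : ℝ))
    (g := fun u => ((3 * u ^ 2 : ℝ) : ℂ) * a (u ^ 3))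
    (g' := fun u => ((6 * u : ℝ) : ℂ) * a (u ^ 3) + ((9 * u ^ 4 : ℝ) : ℂ) * deriv a (u ^ 3))
    g1 (by positivity) (fun u hu => OS4_F1 l mu (hpos u hu)) (fun u hu => OS4_F2 l mu (hpos u hu))
    (by
      have h1 : ∀ u ∈ Icc t q, t ^ (-(1 / 2) : ℝ) ≤ 3 / 2 * u ^ (-(1 / 2) : ℝ) := by
        intro u hu
        have h2 : (2 * t) ^ (-(1 / 2) : ℝ) ≤ u ^ (-(1 / 2) : ℝ) :=
          Real.rpow_le_rpow_of_nonpos (hpos u hu) (hu.2.trans g2) (by norm_num)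
        rw [Real.mul_rpow (by norm_num) ht0.le] at h2
        have h3 : (2 / 3 : ℝ) ≤ 2 ^ (-(1 / 2) : ℝ) := by
          rw [Real.rpow_neg (by norm_num), ← Real.sqrt_eq_rpow]
          rw [le_inv_comm₀ (by norm_num) (Real.sqrt_pos.2 (by norm_num))]
          rw [Real.sqrt_le_left (by norm_num)]
          norm_num
        have h4 : (0 : ℝ) < t ^ (-(1 / 2) : ℝ) := by positivity
        nlinarith [h2, h3, h4]
      rcases lt_or_gt_of_ne hl with h | h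
      · right
        intro u hu
        rw [abs_of_neg h]
        have := h1 u hu
        nlinarith
      · left
        intro u hu
        rw [abs_of_pos h]
        have := h1 u hu
        nlinarith)
    (OS4_cont l ht0 (3 / 2) (-(1 / 2))) (fun u _ => OS4_g1 hsm u) hg'c.continuousOn
    (fun u hu => (hbd u hu).1)
    (by
      have h1 : ∫ u in t..q, ‖((6 * u : ℝ) : ℂ) * a (u ^ 3) + ((9 * u ^ 4 : ℝ) : ℂ) *
          deriv a (u ^ 3)‖ ≤ ∫ u in t..q, 2166 * C0 * t ^ 2 / (X / t ^ 2) := by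
        apply intervalIntegral.integral_mono_on g1
        · exact hg'c.norm.intervalIntegrable _ _
        · exact intervalIntegrable_const
        · exact fun u hu => (hbd u hu).2.1
      refine h1.trans ?_
      rw [intervalIntegral.integral_const, smul_eq_mul]
      calc (q - t) * (2166 * C0 * t ^ 2 / (X / t ^ 2)) ≤
            (X / t ^ 2) * (2166 * C0 * t ^ 2 / (X / t ^ 2)) := by
            apply mul_le_mul_of_nonneg_right g3
            positivity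
        _ = 2166 * C0 * t ^ 2 := by
            field_simp)
  rw [hsub]
  refine key.trans ?_
  have h5 : 8 / √(|l| * t ^ (-(1 / 2) : ℝ)) = 8 * |l| ^ (-(1 / 2) : ℝ) * t ^ (1 / 4 : ℝ) := by
    rw [Real.sqrt_eq_rpow, Real.mul_rpow hlp.le (by positivity), ← Real.rpow_mul ht0.le, div_eq_mul_inv,
      mul_inv, ← Real.rpow_neg hlp.le, ← Real.rpow_neg ht0.le]
    norm_num
    ring
  have h6 : T ^ (3 / 4 : ℝ) = t ^ 2 * t ^ (1 / 4 : ℝ) := by
    rw [ht3, OS4_pw ht0.le, ← Real.rpow_natCast, ← Real.rpow_add ht0]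
    norm_num
  rw [h5, h6]
  have h7 : (0 : ℝ) ≤ t ^ 2 * t ^ (1 / 4 : ℝ) * |l| ^ (-(1 / 2) : ℝ) := by positivity
  calc (2166 * C0 * t ^ 2 + 2166 * C0 * t ^ 2) * (8 * |l| ^ (-(1 / 2) : ℝ) * t ^ (1 / 4 : ℝ)) =
      (34656 * C0) * (t ^ 2 * t ^ (1 / 4 : ℝ) * |l| ^ (-(1 / 2) : ℝ)) := by ring
    _ ≤ (34656 * |C0| + 1) * (t ^ 2 * t ^ (1 / 4 : ℝ) * |l| ^ (-(1 / 2) : ℝ)) := by
        apply mul_le_mul_of_nonneg_right _ h7
        linarith [le_abs_self C0]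
    _ = (34656 * |C0| + 1) * (t ^ 2 * t ^ (1 / 4 : ℝ)) * |l| ^ (-(1 / 2) : ℝ) := by ring
--END OS4

--BEGIN OS5
private theorem OS5_end {T X : ℝ} (hX : 0 ≤ X) {f : ℝ → ℂ} (hf : Continuous f)
    (h : ∀ x, x ∉ Icc T (T + X) → f x = 0) : f T = 0 ∧ f (T + X) = 0 := by
  have hcl : IsClosed {x | f x = 0} := isClosed_eq hf continuous_const
  constructor
  · have h1 : Iic T ⊆ {x | f x = 0} := by
      rw [← closure_Iio T]
      refine hcl.closure_subset_iff.2 fun x hx => h x fun h2 => ?_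
      exact absurd h2.1 (not_le.2 hx)
    exact h1 (mem_Iic.2 le_rfl)
  · have h1 : Ici (T + X) ⊆ {x | f x = 0} := by
      rw [← closure_Ioi (T + X)]
      refine hcl.closure_subset_iff.2 fun x hx => h x fun h2 => ?_
      exact absurd h2.2 (not_le.2 hx)
    exact h1 (mem_Ici.2 le_rfl)

private theorem OS5_deriv {T X : ℝ} {f : ℝ → ℂ} (h : ∀ x, x ∉ Icc T (T + X) → f x = 0) :
    ∀ x, x ∉ Icc T (T + X) → deriv f x = 0 := by
  intro x hx
  have h1 : f =ᶠ[𝓝 x] fun _ => (0 : ℂ) := by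
    have h2 : (Icc T (T + X))ᶜ ∈ 𝓝 x := isClosed_Icc.isOpen_compl.mem_nhds hx
    filter_upwards [h2] with y hy
    exact h y hy
  rw [h1.deriv_eq, deriv_const]

/-- **OS5.** Away from the stationary point: `x = u³`, `F' = 3λ√u + μ`, `U = X T^{-2/3}` (OS3). -/
theorem osc_far (C0 : ℝ) : ∃ C : ℝ, 0 < C ∧ ∀ (T X l mu Δ : ℝ) (a : ℝ → ℂ), 1 ≤ T →
    T ^ (2 / 3 : ℝ) ≤ X → X ≤ T → 0 < Δ → |l| * X * T ^ (-(5 / 6) : ℝ) ≤ Δ →
    (∀ x ∈ Icc T (T + X), Δ ≤ |3 * l * x ^ (1 / 6 : ℝ) + mu|) → Am T X C0 a →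
    ‖∫ x in T..(T + X), a x * e (ps l mu x)‖ ≤ C * T ^ (4 / 3 : ℝ) / (X * Δ ^ 2) := by
  obtain ⟨C', hC', hfar⟩ := far_parts 2 (by norm_num)
  refine ⟨C' * (2166 * |C0| + 1), by positivity, ?_⟩
  intro T X l mu Δ a hT1 hTX hXT hΔ hlΔ hx ha
  have hT : 0 < T := by linarith
  have hX : 0 < X := lt_of_lt_of_le (by positivity) hTX
  have hC0 : 0 ≤ C0 := (norm_nonneg _).trans (ha.b0 0)
  obtain ⟨t, ht⟩ : ∃ t, t = T ^ (1 / 3 : ℝ) := ⟨_, rfl⟩
  obtain ⟨q, hq⟩ : ∃ q, q = (T + X) ^ (1 / 3 : ℝ) := ⟨_, rfl⟩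
  have ht0 : 0 < t := by
    rw [ht]
    positivity
  have hq0 : 0 < q := by
    rw [hq]
    positivity
  have ht3 : T = t ^ 3 := by
    rw [ht, ← Real.rpow_natCast, ← Real.rpow_mul hT.le]
    norm_num
  have hq3 : q ^ 3 = t ^ 3 + X := by
    rw [← ht3, hq, ← Real.rpow_natCast, ← Real.rpow_mul (by linarith)]
    norm_num
  have hXt : X ≤ t ^ 3 := by
    rw [← ht3]
    exact hXT
  obtain ⟨g1, g2, g3⟩ := OS4_geom ht0 hq0 hq3 hX.le hXt
  have hsm := ha.smooth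
  obtain ⟨a1, a2, a3, a4, a5⟩ := OS4_a hsm
  have hsub : ∫ x in T..(T + X), a x * e (ps l mu x) =
      ∫ u in t..q, (((3 * u ^ 2 : ℝ) : ℂ) * a (u ^ 3)) *
        e (2 * l * u ^ (3 / 2 : ℝ) + mu * u) := by
    rw [← OS4_sub ht0 g1 l mu a3, hq3, ht3]
  have hpos : ∀ u ∈ Icc t q, 0 < u := fun u hu => lt_of_lt_of_le ht0 hu.1
  have hbd := fun u (hu : u ∈ Icc t q) => OS4_bd ht0 hX hXt g2 ha.b0 ha.b1 ha.b2 hu
  obtain ⟨aT, aq⟩ := OS5_end hX.le a3 ha.supp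
  obtain ⟨dT, dq⟩ := OS5_end hX.le a4 (OS5_deriv ha.supp)
  have hg''c : Continuous (fun u : ℝ => ((6 : ℝ) : ℂ) * a (u ^ 3) + ((54 * u ^ 3 : ℝ) : ℂ) *
      deriv a (u ^ 3) + ((27 * u ^ 6 : ℝ) : ℂ) * deriv (deriv a) (u ^ 3)) := by
    have h1 : Continuous (fun u : ℝ => u ^ 3) := by fun_prop
    have h2 := a3.comp h1
    have h3 := a4.comp h1
    have h4 := a5.comp h1
    exact ((Continuous.mul (by fun_prop) h2).add (Continuous.mul (by fun_prop) h3)).add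
      (Continuous.mul (by fun_prop) h4)
  have hl1 : |l| * t ^ (-(1 / 2) : ℝ) ≤ Δ / (X / t ^ 2) := by
    rw [le_div_iff₀ (by positivity)]
    refine le_trans (le_of_eq ?_) hlΔ
    have h1 : T ^ (-(5 / 6) : ℝ) = t ^ (-(1 / 2) : ℝ) / t ^ 2 := by
      rw [ht3, OS4_pw ht0.le, ← Real.rpow_natCast, ← Real.rpow_sub ht0]
      norm_num
    rw [h1]
    ring
  have key := hfar t q (2166 * C0 * t ^ 2) (X / t ^ 2) Δ
    (fun u => 2 * l * u ^ (3 / 2 : ℝ) + mu * u) (fun u => 3 * l * u ^ (1 / 2 : ℝ) + mu)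
    (fun u => 3 / 2 * l * u ^ (-(1 / 2) : ℝ)) (fun u => -(3 / 4) * l * u ^ (-(3 / 2) : ℝ))
    (fun u => ((3 * u ^ 2 : ℝ) : ℂ) * a (u ^ 3))
    (fun u => ((6 * u : ℝ) : ℂ) * a (u ^ 3) + ((9 * u ^ 4 : ℝ) : ℂ) * deriv a (u ^ 3))
    (fun u => ((6 : ℝ) : ℂ) * a (u ^ 3) + ((54 * u ^ 3 : ℝ) : ℂ) * deriv a (u ^ 3) +
        ((27 * u ^ 6 : ℝ) : ℂ) * deriv (deriv a) (u ^ 3))
    g1 (by positivity) (by
      refine g3.trans ?_
      have : 0 < X / t ^ 2 := by positivity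
      linarith) hΔ
    (fun u hu => OS4_F1 l mu (hpos u hu)) (fun u hu => OS4_F2 l mu (hpos u hu))
    (fun u hu => OS4_F3 l (hpos u hu)) (OS4_cont l ht0 (-(3 / 4)) (-(3 / 2)))
    (fun u _ => OS4_g1 hsm u) (fun u _ => OS4_g2 hsm u) hg''c.continuousOn
    (by
      rw [← ht3, aT, mul_zero])
    (by
      rw [hq3, ← ht3, aq, mul_zero])
    (by
      rw [← ht3, aT, dT, mul_zero, mul_zero, add_zero])
    (by
      rw [hq3, ← ht3, aq, dq, mul_zero, mul_zero, add_zero])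
    (by
      intro u hu
      have hu0 := hpos u hu
      refine ⟨?_, ?_, ?_⟩
      · have h1 : u ^ 3 ∈ Icc T (T + X) := by
          constructor
          · rw [ht3]
            exact pow_le_pow_left₀ ht0.le hu.1 3
          · rw [ht3, ← hq3]
            exact pow_le_pow_left₀ hu0.le hu.2 3
        have h2 := hx _ h1
        rw [OS4_pw hu0.le] at h2
        norm_num at h2
        exact h2
      · rw [abs_mul, abs_mul, abs_of_pos (by norm_num : (0 : ℝ) < 3 / 2),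
          abs_of_nonneg (by positivity : (0 : ℝ) ≤ u ^ (-(1 / 2) : ℝ))]
        have h1 : u ^ (-(1 / 2) : ℝ) ≤ t ^ (-(1 / 2) : ℝ) :=
          Real.rpow_le_rpow_of_nonpos ht0 hu.1 (by norm_num)
        calc 3 / 2 * |l| * u ^ (-(1 / 2) : ℝ) ≤ 2 * |l| * t ^ (-(1 / 2) : ℝ) := by
              gcongr
              norm_num
          _ = 2 * (|l| * t ^ (-(1 / 2) : ℝ)) := by ring
          _ ≤ 2 * (Δ / (X / t ^ 2)) := by
              apply mul_le_mul_of_nonneg_left hl1 (by norm_num)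
          _ = 2 * Δ / (X / t ^ 2) := by ring
      · rw [abs_mul, abs_mul, abs_neg, abs_of_pos (by norm_num : (0 : ℝ) < 3 / 4),
          abs_of_nonneg (by positivity : (0 : ℝ) ≤ u ^ (-(3 / 2) : ℝ))]
        have h1 : u ^ (-(3 / 2) : ℝ) ≤ t ^ (-(3 / 2) : ℝ) :=
          Real.rpow_le_rpow_of_nonpos ht0 hu.1 (by norm_num)
        have h2 : t ^ (-(3 / 2) : ℝ) = t ^ (-(1 / 2) : ℝ) / t := by
          rw [← Real.rpow_sub_one ht0.ne']
          norm_num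
        have h3 : 1 / t ≤ t ^ 2 / X := by
          rw [div_le_div_iff₀ ht0 hX]
          calc 1 * X ≤ t ^ 3 := by rw [one_mul]; exact hXt
            _ = t ^ 2 * t := by ring
        calc 3 / 4 * |l| * u ^ (-(3 / 2) : ℝ) ≤ 2 * |l| * t ^ (-(3 / 2) : ℝ) := by
              gcongr
              norm_num
          _ = 2 * (|l| * t ^ (-(1 / 2) : ℝ)) * (1 / t) := by
              rw [h2]
              ring
          _ ≤ 2 * (Δ / (X / t ^ 2)) * (t ^ 2 / X) := by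
              gcongr
          _ = 2 * Δ / (X / t ^ 2) ^ 2 := by
              field_simp)
    hbd
  rw [hsub]
  refine key.trans ?_
  have h6 : T ^ (4 / 3 : ℝ) = t ^ 4 := by
    rw [ht3, OS4_pw ht0.le, ← Real.rpow_natCast]
    norm_num
  rw [h6]
  calc C' * (2166 * C0 * t ^ 2) / (X / t ^ 2 * Δ ^ 2) = C' * (2166 * C0) * t ^ 4 / (X * Δ ^ 2) := by
        field_simp
    _ ≤ C' * (2166 * |C0| + 1) * t ^ 4 / (X * Δ ^ 2) := by
        have h7 : 2166 * C0 ≤ 2166 * |C0| + 1 := by linarith [le_abs_self C0]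
        gcongr
--END OS5

--BEGIN OS6
/-- **OS6.** Multiplication of an amplitude by `(x/T)^β`, and sums (compare `Amp_rpow`, `Amp_lin`). -/
theorem Am_rpow (C β : ℝ) : ∃ C' : ℝ, 0 < C' ∧ ∀ (T X : ℝ) (g : ℝ → ℂ), 1 ≤ X → X ≤ T →
    Am T X C g → Am T X C' (fun x => (((x / T) ^ β : ℝ) : ℂ) * g x) := by
  obtain ⟨C', hC', h⟩ := Amp_rpow C β
  refine ⟨C', hC', ?_⟩
  intro T X g hX hXT hg
  have h1 : Amp T X C g := by
    refine ⟨hg.smooth, fun x hx => hg.supp x fun hx' => hx ⟨?_, ?_⟩, hg.b0, hg.b1, hg.b2⟩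
    · linarith [hx'.1]
    · linarith [hx'.2]
  obtain ⟨h2, -, h4, h5, h6⟩ := h T X g hX hXT h1
  refine ⟨h2, fun x hx => ?_, h4, h5, h6⟩
  rw [hg.supp x hx, mul_zero]

private theorem OS6_a {a : ℝ → ℂ} (ha : ContDiff ℝ 2 a) :
    (∀ x, HasDerivAt a (deriv a x) x) ∧ (∀ x, HasDerivAt (deriv a) (deriv (deriv a) x) x) := by
  have h1 : ContDiff ℝ 1 (deriv a) := by
    have h2 : ContDiff ℝ (1 + 1) a := by simpa [one_add_one_eq_two] using ha
    exact (contDiff_succ_iff_deriv.1 h2).2.2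
  exact ⟨fun x => (ha.differentiable (by norm_num) x).hasDerivAt,
    fun x => (h1.differentiable (by norm_num) x).hasDerivAt⟩

theorem Am_lin {T X C D : ℝ} {g h : ℝ → ℂ} (hX : 0 < X) (hg : Am T X C g) (hh : Am T X D h)
    (z : ℂ) : Am T X (C + ‖z‖ * D) (fun x => g x + z * h x) := by
  have hd1 : ∀ x, HasDerivAt (fun x => g x + z * h x) (deriv g x + z * deriv h x) x := fun x =>
    ((OS6_a hg.smooth).1 x).add (((OS6_a hh.smooth).1 x).const_mul z)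
  have hd1' : deriv (fun x => g x + z * h x) = fun x => deriv g x + z * deriv h x :=
    funext fun x => (hd1 x).deriv
  have hd2 : ∀ x, HasDerivAt (deriv (fun x => g x + z * h x))
      (deriv (deriv g) x + z * deriv (deriv h) x) x := by
    intro x
    rw [hd1']
    exact ((OS6_a hg.smooth).2 x).add (((OS6_a hh.smooth).2 x).const_mul z)
  have hn : ∀ (a b : ℂ) (A B : ℝ), ‖a‖ ≤ A → ‖b‖ ≤ B → ‖a + z * b‖ ≤ A + ‖z‖ * B := by
    intro a b A B ha hb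
    calc ‖a + z * b‖ ≤ ‖a‖ + ‖z * b‖ := norm_add_le _ _
      _ = ‖a‖ + ‖z‖ * ‖b‖ := by rw [norm_mul]
      _ ≤ A + ‖z‖ * B := by gcongr
  have _ := hX
  refine ⟨hg.smooth.add (contDiff_const.mul hh.smooth), ?_, ?_, ?_, ?_⟩
  · intro x hx
    rw [hg.supp x hx, hh.supp x hx]
    simp
  · intro x
    exact hn _ _ _ _ (hg.b0 x) (hh.b0 x)
  · intro x
    rw [(hd1 x).deriv]
    refine (hn _ _ _ _ (hg.b1 x) (hh.b1 x)).trans (le_of_eq ?_)
    ring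
  · intro x
    rw [(hd2 x).deriv]
    refine (hn _ _ _ _ (hg.b2 x) (hh.b2 x)).trans (le_of_eq ?_)
    ring

/-- The window is an amplitude. -/
theorem w1_Am {ρ : ℝ → ℝ} (hρ : IsBump ρ (1 / 4) (3 / 8) (5 / 8) (3 / 4)) : ∃ C : ℝ, 0 < C ∧
    ∀ T X : ℝ, 0 < X → Am T X C (fun x => (w1 ρ T X x : ℂ)) := by
  have hc : HasCompactSupport ρ := by
    refine HasCompactSupport.intro (isCompact_Icc (a := 1 / 4) (b := 3 / 4)) ?_
    intro x hx
    exact hρ.zero x hx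
  have hs2 : ContDiff ℝ 2 ρ := by exact_mod_cast contDiff_infty.1 hρ.smooth 2
  have hs1 : ContDiff ℝ 1 (deriv ρ) := by
    have h2 : ContDiff ℝ (1 + 1) ρ := by simpa [one_add_one_eq_two] using hs2
    exact (contDiff_succ_iff_deriv.1 h2).2.2
  have hs0 : ContDiff ℝ 0 (deriv (deriv ρ)) := by
    have h2 : ContDiff ℝ (0 + 1) (deriv ρ) := by simpa using hs1
    exact (contDiff_succ_iff_deriv.1 h2).2.2
  obtain ⟨M1, hM1⟩ := hc.deriv.exists_bound_of_continuous hs1.continuous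
  obtain ⟨M2, hM2⟩ := hc.deriv.deriv.exists_bound_of_continuous hs0.continuous
  have hM1' : 0 ≤ M1 := (norm_nonneg _).trans (hM1 0)
  have hM2' : 0 ≤ M2 := (norm_nonneg _).trans (hM2 0)
  refine ⟨1 + M1 + M2, by linarith, ?_⟩
  intro T X hX0
  have hlin : ∀ x : ℝ, HasDerivAt (fun x : ℝ => (x - T) / X) (1 / X) x := fun x =>
    ((hasDerivAt_id x).sub_const T).div_const X
  have hd1 : ∀ x, HasDerivAt (fun x => (w1 ρ T X x : ℂ))
      ((deriv ρ ((x - T) / X) * (1 / X) : ℝ) : ℂ) x := by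
    intro x
    refine HasDerivAt.ofReal_comp (f := fun x => w1 ρ T X x) ?_
    exact ((hs2.differentiable (by norm_num) ((x - T) / X)).hasDerivAt).comp x (hlin x)
  have hd1' : deriv (fun x => (w1 ρ T X x : ℂ)) =
      fun x => ((deriv ρ ((x - T) / X) * (1 / X) : ℝ) : ℂ) :=
    funext fun x => (hd1 x).deriv
  have hd2 : ∀ x, HasDerivAt (deriv (fun x => (w1 ρ T X x : ℂ)))
      ((deriv (deriv ρ) ((x - T) / X) * (1 / X) * (1 / X) : ℝ) : ℂ) x := by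
    intro x
    rw [hd1']
    refine HasDerivAt.ofReal_comp (f := fun x => deriv ρ ((x - T) / X) * (1 / X)) ?_
    exact (((hs1.differentiable (by norm_num) ((x - T) / X)).hasDerivAt).comp x
      (hlin x)).mul_const _
  refine ⟨?_, ?_, ?_, ?_, ?_⟩
  · have h3 : ContDiff ℝ 2 (fun x : ℝ => ρ ((x - T) / X)) :=
      hs2.comp ((contDiff_id.sub contDiff_const).div_const X)
    exact Complex.ofRealCLM.contDiff.comp h3
  · intro x hx
    unfold w1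
    rw [hρ.zero ((x - T) / X), ofReal_zero]
    intro hx'
    apply hx
    constructor
    · have := hx'.1
      rw [le_div_iff₀ hX0] at this
      linarith
    · have := hx'.2
      rw [div_le_iff₀ hX0] at this
      linarith
  · intro x
    rw [Complex.norm_real, Real.norm_eq_abs]
    unfold w1
    rw [abs_of_nonneg (hρ.nonneg _)]
    have := hρ.le_one ((x - T) / X)
    linarith
  · intro x
    rw [hd1', Complex.norm_real, norm_mul, Real.norm_of_nonneg (by positivity : (0 : ℝ) ≤ 1 / X)]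
    calc ‖deriv ρ ((x - T) / X)‖ * (1 / X) ≤ M1 * (1 / X) := by
          gcongr
          exact hM1 _
      _ = M1 / X := by ring
      _ ≤ (1 + M1 + M2) / X := by
          gcongr
          linarith
  · intro x
    rw [(hd2 x).deriv, Complex.norm_real, norm_mul, norm_mul,
      Real.norm_of_nonneg (by positivity : (0 : ℝ) ≤ 1 / X)]
    calc ‖deriv (deriv ρ) ((x - T) / X)‖ * (1 / X) * (1 / X) ≤ M2 * (1 / X) * (1 / X) := by
          gcongr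
          exact hM2 _
      _ = M2 / X ^ 2 := by ring
      _ ≤ (1 + M1 + M2) / X ^ 2 := by
          gcongr
          linarith
--END OS6

--BEGIN OS7
private theorem OS7_third (M : ℕ) :
    ∑ m ∈ Finset.Icc 1 M, (m : ℝ) ^ (-(2 / 3) : ℝ) ≤ 3 * (M : ℝ) ^ (1 / 3 : ℝ) := by
  induction M with
  | zero =>
    simp
  | succ n ih =>
    rw [Finset.sum_Icc_succ_top (by omega)]
    obtain ⟨x, hx⟩ : ∃ x, x = ((n + 1 : ℕ) : ℝ) ^ (1 / 3 : ℝ) := ⟨_, rfl⟩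
    obtain ⟨y, hy⟩ : ∃ y, y = (n : ℝ) ^ (1 / 3 : ℝ) := ⟨_, rfl⟩
    have hn0 : (0 : ℝ) < ((n + 1 : ℕ) : ℝ) := by positivity
    have hx0 : 0 < x := by
      rw [hx]
      positivity
    have hy0 : 0 ≤ y := by
      rw [hy]
      positivity
    have hx3 : x ^ 3 = ((n + 1 : ℕ) : ℝ) := by
      rw [hx, ← Real.rpow_natCast, ← Real.rpow_mul hn0.le]
      norm_num
    have hy3 : y ^ 3 = (n : ℝ) := by
      rw [hy, ← Real.rpow_natCast, ← Real.rpow_mul (Nat.cast_nonneg n)]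
      norm_num
    have h1 : ((n + 1 : ℕ) : ℝ) ^ (-(2 / 3) : ℝ) = 1 / x ^ 2 := by
      rw [Real.rpow_neg hn0.le, hx, ← Real.rpow_natCast, ← Real.rpow_mul hn0.le, one_div]
      norm_num
    have h2 : x ^ 3 - y ^ 3 = 1 := by
      rw [hx3, hy3]
      push_cast
      ring
    have hxy : y ≤ x := by
      by_contra h
      push Not at h
      have h3 : x ^ 3 < y ^ 3 := pow_lt_pow_left₀ h hx0.le (by norm_num)
      linarith
    have h4 : 1 / x ^ 2 ≤ 3 * (x - y) := by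
      rw [div_le_iff₀ (by positivity)]
      have h5 : (x - y) * (x ^ 2 + x * y + y ^ 2) = 1 := by
        rw [← h2]
        ring
      have h6 : x * y ≤ x ^ 2 := by nlinarith
      have h7 : y ^ 2 ≤ x ^ 2 := by nlinarith
      have h8 : 0 ≤ x - y := by linarith
      nlinarith [mul_nonneg h8 (by linarith : 0 ≤ x ^ 2 - x * y),
        mul_nonneg h8 (by linarith : 0 ≤ x ^ 2 - y ^ 2)]
    rw [h1, ← hx]
    rw [← hy] at ih
    linarith

private theorem OS7_pt {κ c om A B s : ℝ} (hκ : 0 < κ) (hom : 0 < om) (homc : 2 * om ≤ |c| / 2)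
    (hA : 0 ≤ A) (hB : 0 ≤ B) (hs : 0 ≤ s) (hs1 : s ≤ 1 / 10) (m : ℕ) :
    (m : ℝ) ^ (-(2 / 3) + s) * min A (if 2 * om ≤ |(κ * m) ^ (1 / 3 : ℝ) - c| then
      B / ((κ * m) ^ (1 / 3 : ℝ) - c) ^ 2 else A) ≤
    (if m ∈ Finset.Ioc ⌊(c - 2 * om) ^ 3 / κ⌋₊ ⌊(c + 2 * om) ^ 3 / κ⌋₊ then
      A * (4 * κ ^ (2 / 3 : ℝ) / c ^ 2 * (8 * |c| ^ 3 / κ) ^ s) else 0) +
    (if m ∈ Finset.Icc 1 ⌊8 * |c| ^ 3 / κ⌋₊ then
      (8 * |c| ^ 3 / κ) ^ s * (B / (4 * om ^ 2)) * (m : ℝ) ^ (-(2 / 3) : ℝ) else 0) +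
    4 * B / κ ^ (2 / 3 : ℝ) * (m : ℝ) ^ (-(4 / 3) + s) := by
  obtain ⟨P, hP⟩ : ∃ P, P = (8 * |c| ^ 3 / κ) ^ s := ⟨_, rfl⟩
  have hP0 : 0 ≤ P := by
    rw [hP]
    positivity
  rw [← hP]
  have hg1 : 0 ≤ (if m ∈ Finset.Ioc ⌊(c - 2 * om) ^ 3 / κ⌋₊ ⌊(c + 2 * om) ^ 3 / κ⌋₊ then
      A * (4 * κ ^ (2 / 3 : ℝ) / c ^ 2 * P) else 0) := by
    split_ifs
    · positivity
    · exact le_rfl
  have hg2 : 0 ≤ (if m ∈ Finset.Icc 1 ⌊8 * |c| ^ 3 / κ⌋₊ then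
      P * (B / (4 * om ^ 2)) * (m : ℝ) ^ (-(2 / 3) : ℝ) else 0) := by
    split_ifs
    · positivity
    · exact le_rfl
  have hg3 : 0 ≤ 4 * B / κ ^ (2 / 3 : ℝ) * (m : ℝ) ^ (-(4 / 3) + s) := by positivity
  rcases Nat.eq_zero_or_pos m with hm0 | hm0
  · have h0 : ((m : ℕ) : ℝ) ^ (-(2 / 3) + s) = 0 := by
      rw [hm0, Nat.cast_zero, Real.zero_rpow]
      linarith
    rw [h0, zero_mul]
    linarith
  have hm : (0 : ℝ) < m := by exact_mod_cast hm0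
  obtain ⟨μ, hμ⟩ : ∃ μ, μ = (m : ℝ) ^ (1 / 3 : ℝ) := ⟨_, rfl⟩
  obtain ⟨k, hk⟩ : ∃ k, k = κ ^ (1 / 3 : ℝ) := ⟨_, rfl⟩
  have hμ0 : 0 < μ := by
    rw [hμ]
    positivity
  have hk0 : 0 < k := by
    rw [hk]
    positivity
  have hmμ : (m : ℝ) = μ ^ 3 := by
    rw [hμ, ← Real.rpow_natCast, ← Real.rpow_mul hm.le]
    norm_num
  have hκk : κ = k ^ 3 := by
    rw [hk, ← Real.rpow_natCast, ← Real.rpow_mul hκ.le]
    norm_num
  have hy : (κ * m) ^ (1 / 3 : ℝ) = k * μ := by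
    rw [Real.mul_rpow hκ.le hm.le, hk, hμ]
  have hκ2 : κ ^ (2 / 3 : ℝ) = k ^ 2 := by
    rw [hk, ← Real.rpow_natCast, ← Real.rpow_mul hκ.le]
    norm_num
  have hm2 : (m : ℝ) ^ (-(2 / 3) : ℝ) = 1 / μ ^ 2 := by
    rw [Real.rpow_neg hm.le, hμ, ← Real.rpow_natCast, ← Real.rpow_mul hm.le, one_div]
    norm_num
  have hm4 : (m : ℝ) ^ (-(4 / 3) : ℝ) = 1 / μ ^ 4 := by
    rw [Real.rpow_neg hm.le, hμ, ← Real.rpow_natCast, ← Real.rpow_mul hm.le, one_div]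
    norm_num
  obtain ⟨y, hyy⟩ : ∃ y, y = k * μ := ⟨_, rfl⟩
  have hy0 : 0 < y := by
    rw [hyy]
    positivity
  have hy3 : y ^ 3 = κ * m := by
    rw [hyy, mul_pow, ← hmμ, ← hκk]
  have hmy : (m : ℝ) = y ^ 3 / κ := by
    rw [hy3, mul_div_cancel_left₀ _ hκ.ne']
  have hms : 0 < (m : ℝ) ^ s := by positivity
  rw [hy, ← hyy, Real.rpow_add hm, Real.rpow_add hm, hm2, hm4, hκ2]
  rw [hκ2] at hg1 hg3
  rw [Real.rpow_add hm, hm4] at hg3
  rw [hm2] at hg2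
  have hsP : y ≤ 2 * |c| → (m : ℝ) ^ s ≤ P := by
    intro h
    rw [hP]
    apply Real.rpow_le_rpow hm.le _ hs
    rw [hmy]
    apply div_le_div_of_nonneg_right _ hκ.le
    calc y ^ 3 ≤ (2 * |c|) ^ 3 := by gcongr
      _ = 8 * |c| ^ 3 := by ring
  by_cases hfar : 2 * om ≤ |y - c|
  · rw [if_pos hfar]
    have hyc : 4 * om ^ 2 ≤ (y - c) ^ 2 := by
      rw [← sq_abs (y - c)]
      calc 4 * om ^ 2 = (2 * om) ^ 2 := by ring
        _ ≤ |y - c| ^ 2 := by gcongr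
    by_cases hy2 : y ≤ 2 * |c|
    · have h1 : (m : ℝ) ^ s ≤ P := hsP hy2
      have hmem : m ∈ Finset.Icc 1 ⌊8 * |c| ^ 3 / κ⌋₊ := by
        rw [Finset.mem_Icc]
        refine ⟨hm0, Nat.le_floor ?_⟩
        rw [hmy]
        apply div_le_div_of_nonneg_right _ hκ.le
        calc y ^ 3 ≤ (2 * |c|) ^ 3 := by gcongr
          _ = 8 * |c| ^ 3 := by ring
      have h2 : B / (y - c) ^ 2 ≤ B / (4 * om ^ 2) := by
        apply div_le_div_of_nonneg_left hB (by positivity) hyc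
      have h3 : 1 / μ ^ 2 * (m : ℝ) ^ s * min A (B / (y - c) ^ 2) ≤
          P * (B / (4 * om ^ 2)) * (1 / μ ^ 2) := by
        calc 1 / μ ^ 2 * (m : ℝ) ^ s * min A (B / (y - c) ^ 2) ≤
              1 / μ ^ 2 * P * (B / (4 * om ^ 2)) := by
              apply mul_le_mul
              · exact mul_le_mul_of_nonneg_left h1 (by positivity)
              · exact (min_le_right _ _).trans h2
              · exact le_min hA (by positivity)
              · positivity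
          _ = P * (B / (4 * om ^ 2)) * (1 / μ ^ 2) := by ring
      rw [if_pos hmem]
      linarith
    · push Not at hy2
      have h1 : y / 2 ≤ |y - c| := by
        have h2 : c ≤ |c| := le_abs_self c
        have h3 : y - c ≤ |y - c| := le_abs_self _
        linarith
      have h2 : y ^ 2 / 4 ≤ (y - c) ^ 2 := by
        rw [← sq_abs (y - c)]
        calc y ^ 2 / 4 = (y / 2) ^ 2 := by ring
          _ ≤ |y - c| ^ 2 := by gcongr
      have h3 : B / (y - c) ^ 2 ≤ B / (y ^ 2 / 4) := by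
        apply div_le_div_of_nonneg_left hB (by positivity) h2
      have h4 : 1 / μ ^ 2 * (m : ℝ) ^ s * min A (B / (y - c) ^ 2) ≤
          4 * B / k ^ 2 * (1 / μ ^ 4 * (m : ℝ) ^ s) := by
        calc 1 / μ ^ 2 * (m : ℝ) ^ s * min A (B / (y - c) ^ 2) ≤
              1 / μ ^ 2 * (m : ℝ) ^ s * (B / (y ^ 2 / 4)) := by
              apply mul_le_mul_of_nonneg_left _ (by positivity)
              exact (min_le_right _ _).trans h3
          _ = 4 * B / k ^ 2 * (1 / μ ^ 4 * (m : ℝ) ^ s) := by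
              rw [hyy]
              field_simp
      linarith
  · rw [if_neg hfar, min_self]
    push Not at hfar
    have hc0 : 0 < c := by
      by_contra h
      push Not at h
      have h1 : |c| = -c := abs_of_nonpos h
      have h2 : y - c ≤ |y - c| := le_abs_self _
      linarith
    have hcc : |c| = c := abs_of_pos hc0
    rw [hcc] at homc
    obtain ⟨h1, h2⟩ := abs_lt.1 hfar
    have h3 : c / 2 ≤ c - 2 * om := by linarith
    have hy2 : y ≤ 2 * |c| := by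
      rw [hcc]
      linarith
    have h4 : (m : ℝ) ^ s ≤ P := hsP hy2
    have hmem : m ∈ Finset.Ioc ⌊(c - 2 * om) ^ 3 / κ⌋₊ ⌊(c + 2 * om) ^ 3 / κ⌋₊ := by
      rw [Finset.mem_Ioc]
      constructor
      · rw [Nat.floor_lt (by
          have : 0 ≤ c - 2 * om := by linarith
          positivity)]
        rw [hmy]
        apply div_lt_div_of_pos_right _ hκ
        exact pow_lt_pow_left₀ (by linarith) (by linarith) (by norm_num)
      · apply Nat.le_floor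
        rw [hmy]
        apply div_le_div_of_nonneg_right _ hκ.le
        exact pow_le_pow_left₀ hy0.le (by linarith) 3
    rw [if_pos hmem]
    have h5 : 1 / μ ^ 2 ≤ 4 * k ^ 2 / c ^ 2 := by
      rw [div_le_div_iff₀ (by positivity) (by positivity)]
      have h6 : (c / 2) ^ 2 ≤ y ^ 2 := pow_le_pow_left₀ (by linarith) (by linarith) 2
      have h7 : y ^ 2 = k ^ 2 * μ ^ 2 := by
        rw [hyy]
        ring
      rw [h7] at h6
      linarith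
    have h6 : 1 / μ ^ 2 * (m : ℝ) ^ s * A ≤ A * (4 * k ^ 2 / c ^ 2 * P) := by
      calc 1 / μ ^ 2 * (m : ℝ) ^ s * A ≤ 4 * k ^ 2 / c ^ 2 * P * A := by gcongr
        _ = A * (4 * k ^ 2 / c ^ 2 * P) := by ring
    linarith

private theorem OS7_card {α β : ℝ} (h : α ≤ β) :
    ((Finset.Ioc ⌊α⌋₊ ⌊β⌋₊).card : ℝ) ≤ β - α + 1 := by
  rw [Nat.card_Ioc]
  rcases le_or_gt ⌊β⌋₊ ⌊α⌋₊ with h1 | h1
  · rw [Nat.sub_eq_zero_of_le h1, Nat.cast_zero]
    linarith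
  · rw [Nat.cast_sub h1.le]
    have h2 : (⌊β⌋₊ : ℝ) ≤ β := by
      apply Nat.floor_le
      by_contra h3
      push Not at h3
      rw [Nat.floor_of_nonpos h3.le] at h1
      omega
    have h3 := Nat.sub_one_lt_floor α
    linarith

private theorem OS7_tot {κ c om A B s : ℝ} (hκ : 0 < κ) (hom : 0 < om) (homc : 2 * om ≤ |c| / 2)
    (hA : 0 ≤ A) (hB : 0 ≤ B) (hs : 0 ≤ s) (hs1 : s ≤ 1 / 10) :
    Summable (fun m : ℕ => (m : ℝ) ^ (-(2 / 3) + s) *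
      min A (if 2 * om ≤ |(κ * m) ^ (1 / 3 : ℝ) - c| then
        B / ((κ * m) ^ (1 / 3 : ℝ) - c) ^ 2 else A)) ∧
    ∑' m : ℕ, (m : ℝ) ^ (-(2 / 3) + s) *
      min A (if 2 * om ≤ |(κ * m) ^ (1 / 3 : ℝ) - c| then
        B / ((κ * m) ^ (1 / 3 : ℝ) - c) ^ 2 else A) ≤
    A * (4 * κ ^ (2 / 3 : ℝ) / c ^ 2 * (8 * |c| ^ 3 / κ) ^ s) * (13 * c ^ 2 * om / κ + 1) +
    (8 * |c| ^ 3 / κ) ^ s * (B / (4 * om ^ 2)) * (3 * (2 * |c| / κ ^ (1 / 3 : ℝ))) +
    4 * B / κ ^ (2 / 3 : ℝ) * ∑' m : ℕ, (m : ℝ) ^ (-(4 / 3) + s) := by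
  obtain ⟨P, hP⟩ : ∃ P, P = (8 * |c| ^ 3 / κ) ^ s := ⟨_, rfl⟩
  have hP0 : 0 ≤ P := by
    rw [hP]
    positivity
  have hpt := OS7_pt hκ hom homc hA hB hs hs1
  rw [← hP]
  rw [← hP] at hpt
  obtain ⟨D, hD⟩ : ∃ D, D = A * (4 * κ ^ (2 / 3 : ℝ) / c ^ 2 * P) := ⟨_, rfl⟩
  have hD0 : 0 ≤ D := by
    rw [hD]
    positivity
  rw [← hD]
  rw [← hD] at hpt
  obtain ⟨S1, hS1⟩ : ∃ S1, S1 = Finset.Ioc ⌊(c - 2 * om) ^ 3 / κ⌋₊ ⌊(c + 2 * om) ^ 3 / κ⌋₊ :=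
    ⟨_, rfl⟩
  obtain ⟨S2, hS2⟩ : ∃ S2, S2 = Finset.Icc 1 ⌊8 * |c| ^ 3 / κ⌋₊ := ⟨_, rfl⟩
  rw [← hS1, ← hS2] at hpt
  have hsum1 : HasSum (fun m : ℕ => if m ∈ S1 then D else 0) (∑ m ∈ S1, D) := by
    have h : HasSum (fun m : ℕ => if m ∈ S1 then D else 0)
        (∑ m ∈ S1, if m ∈ S1 then D else 0) :=
      hasSum_sum_of_ne_finset_zero (fun b hb => if_neg hb)
    have he : (∑ m ∈ S1, if m ∈ S1 then D else 0) = ∑ m ∈ S1, D :=
      Finset.sum_congr rfl (fun m hm => if_pos hm)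
    rwa [he] at h
  have hsum2 : HasSum (fun m : ℕ => if m ∈ S2 then P * (B / (4 * om ^ 2)) *
      (m : ℝ) ^ (-(2 / 3) : ℝ) else 0) (∑ m ∈ S2, P * (B / (4 * om ^ 2)) *
        (m : ℝ) ^ (-(2 / 3) : ℝ)) := by
    have h : HasSum (fun m : ℕ => if m ∈ S2 then P * (B / (4 * om ^ 2)) *
        (m : ℝ) ^ (-(2 / 3) : ℝ) else 0) (∑ m ∈ S2, if m ∈ S2 then P * (B / (4 * om ^ 2)) *
        (m : ℝ) ^ (-(2 / 3) : ℝ) else 0) :=
      hasSum_sum_of_ne_finset_zero (fun b hb => if_neg hb)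
    have he : (∑ m ∈ S2, if m ∈ S2 then P * (B / (4 * om ^ 2)) *
        (m : ℝ) ^ (-(2 / 3) : ℝ) else 0) = ∑ m ∈ S2, P * (B / (4 * om ^ 2)) *
        (m : ℝ) ^ (-(2 / 3) : ℝ) :=
      Finset.sum_congr rfl (fun m hm => if_pos hm)
    rwa [he] at h
  have hsum3 : Summable (fun m : ℕ => (m : ℝ) ^ (-(4 / 3) + s)) :=
    Real.summable_nat_rpow.2 (by linarith)
  have hall := (hsum1.add hsum2).add (hsum3.hasSum.mul_left (4 * B / κ ^ (2 / 3 : ℝ)))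
  have hnn : ∀ m : ℕ, 0 ≤ (m : ℝ) ^ (-(2 / 3) + s) *
      min A (if 2 * om ≤ |(κ * m) ^ (1 / 3 : ℝ) - c| then
        B / ((κ * m) ^ (1 / 3 : ℝ) - c) ^ 2 else A) := by
    intro m
    apply mul_nonneg (by positivity)
    apply le_min hA
    split_ifs
    · positivity
    · exact hA
  have hsf := Summable.of_nonneg_of_le hnn hpt hall.summable
  refine ⟨hsf, ?_⟩
  have h1 := hsf.tsum_le_tsum hpt hall.summable
  rw [hall.tsum_eq] at h1
  refine h1.trans ?_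
  have h2 : ∑ m ∈ S1, D ≤ D * (13 * c ^ 2 * om / κ + 1) := by
    rw [Finset.sum_const, nsmul_eq_mul, mul_comm]
    apply mul_le_mul_of_nonneg_left _ hD0
    rw [hS1]
    have h3 : (c - 2 * om) ^ 3 / κ ≤ (c + 2 * om) ^ 3 / κ := by
      apply div_le_div_of_nonneg_right _ hκ.le
      nlinarith [sq_nonneg c, sq_nonneg om, mul_nonneg hom.le (sq_nonneg c),
        mul_nonneg hom.le (sq_nonneg om)]
    refine (OS7_card h3).trans ?_
    have h4 : (c + 2 * om) ^ 3 / κ - (c - 2 * om) ^ 3 / κ = (12 * c ^ 2 * om + 16 * om ^ 3) / κ := by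
      ring
    rw [h4]
    have h5 : 16 * om ^ 3 ≤ c ^ 2 * om := by
      have h6 : (4 * om) ^ 2 ≤ c ^ 2 := by
        rw [← sq_abs c]
        apply pow_le_pow_left₀ (by positivity)
        linarith
      nlinarith
    have h6 : (12 * c ^ 2 * om + 16 * om ^ 3) / κ ≤ 13 * c ^ 2 * om / κ := by
      apply div_le_div_of_nonneg_right _ hκ.le
      linarith
    linarith
  have h3 : ∑ m ∈ S2, P * (B / (4 * om ^ 2)) * (m : ℝ) ^ (-(2 / 3) : ℝ) ≤
      P * (B / (4 * om ^ 2)) * (3 * (2 * |c| / κ ^ (1 / 3 : ℝ))) := by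
    rw [← Finset.mul_sum]
    apply mul_le_mul_of_nonneg_left _ (by positivity)
    rw [hS2]
    refine (OS7_third _).trans ?_
    apply mul_le_mul_of_nonneg_left _ (by norm_num)
    have h4 : (⌊8 * |c| ^ 3 / κ⌋₊ : ℝ) ≤ 8 * |c| ^ 3 / κ := Nat.floor_le (by positivity)
    calc (⌊8 * |c| ^ 3 / κ⌋₊ : ℝ) ^ (1 / 3 : ℝ) ≤ (8 * |c| ^ 3 / κ) ^ (1 / 3 : ℝ) :=
          Real.rpow_le_rpow (Nat.cast_nonneg _) h4 (by norm_num)
      _ = 2 * |c| / κ ^ (1 / 3 : ℝ) := by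
          rw [Real.div_rpow (by positivity) hκ.le]
          congr 1
          rw [show 8 * |c| ^ 3 = (2 * |c|) ^ 3 by ring, ← Real.rpow_natCast,
            ← Real.rpow_mul (by positivity)]
          norm_num
  linarith

/-- **OS7.** The sum over `m`: `y_m = (κm)^{1/3}`, `c ≍ λT^{1/6}`, `ω = |λ| X T^{-5/6}`. The `m` with
`|y_m - c| ≤ 2ω` satisfy `m ≍ |λ|³ T^{1/2}` and there are `≪ |λ|³ X T^{-1/2}` of them. For the others
`m^{-2/3}` is the derivative of `y_m` and `∫ dy/(y-c)² ≤ 1/(2ω)` (or use dyadic blocks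
`2^j ω < |y_m - c| ≤ 2^{j+1} ω`). -/
theorem count_sum {κ l0 c1 c2 : ℝ} (hκ : 0 < κ) (hl0 : 0 < l0) (hc1 : 0 < c1) (hc12 : c1 ≤ c2)
    {ε ξ : ℝ} (hε : 0 < ε) (hε' : ε ≤ 1) (hξ : 0 < ξ) (hξ' : ξ ≤ 1 / 6) :
    ∃ C T0 : ℝ, 0 < C ∧ 1 ≤ T0 ∧ ∀ T l c : ℝ, T0 ≤ T → l0 ≤ l → l ≤ T → c1 * l * T ^ (1 / 6 : ℝ) ≤ |c| →
      |c| ≤ c2 * l * T ^ (1 / 6 : ℝ) →
      Summable (fun m : ℕ => (m : ℝ) ^ (-(2 / 3) + ε / 10) *
        min (T ^ (3 / 4 : ℝ) * l ^ (-(1 / 2) : ℝ))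
          (if 2 * (l * T ^ (1 - ξ) * T ^ (-(5 / 6) : ℝ)) ≤ |(κ * m) ^ (1 / 3 : ℝ) - c| then
            T ^ (4 / 3 : ℝ) / (T ^ (1 - ξ) * ((κ * m) ^ (1 / 3 : ℝ) - c) ^ 2)
            else T ^ (3 / 4 : ℝ) * l ^ (-(1 / 2) : ℝ))) ∧
      ∑' m : ℕ, (m : ℝ) ^ (-(2 / 3) + ε / 10) *
        min (T ^ (3 / 4 : ℝ) * l ^ (-(1 / 2) : ℝ))
          (if 2 * (l * T ^ (1 - ξ) * T ^ (-(5 / 6) : ℝ)) ≤ |(κ * m) ^ (1 / 3 : ℝ) - c| then
            T ^ (4 / 3 : ℝ) / (T ^ (1 - ξ) * ((κ * m) ^ (1 / 3 : ℝ) - c) ^ 2)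
            else T ^ (3 / 4 : ℝ) * l ^ (-(1 / 2) : ℝ)) ≤
        C * l ^ (1 / 2 : ℝ) * T ^ (1 - ξ - 1 / 12 + ε) := by
  have hc2 : 0 < c2 := lt_of_lt_of_le hc1 hc12
  obtain ⟨Z, hZ⟩ : ∃ Z, Z = ∑' m : ℕ, (m : ℝ) ^ (-(4 / 3) + ε / 10) := ⟨_, rfl⟩
  have hZ0 : 0 ≤ Z := by
    rw [hZ]
    exact tsum_nonneg fun m => by positivity
  obtain ⟨K, hK⟩ : ∃ K, K = (8 * c2 ^ 3 / κ) ^ (ε / 10) := ⟨_, rfl⟩
  have hK0 : 0 < K := by
    rw [hK]
    positivity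
  obtain ⟨C1, hC1⟩ : ∃ C1, C1 = 4 * κ ^ (2 / 3 : ℝ) * K * (13 / κ + 1 / (c1 ^ 2 * l0 ^ 3)) :=
    ⟨_, rfl⟩
  obtain ⟨C2, hC2⟩ : ∃ C2, C2 = 3 / (2 * κ ^ (1 / 3 : ℝ)) * K * (c2 * l0 ^ (-(3 / 2) : ℝ)) :=
    ⟨_, rfl⟩
  obtain ⟨C3, hC3⟩ : ∃ C3, C3 = 4 * Z / κ ^ (2 / 3 : ℝ) * l0 ^ (-(1 / 2) : ℝ) := ⟨_, rfl⟩
  have hC1p : 0 < C1 := by
    rw [hC1]
    positivity
  have hC2p : 0 < C2 := by
    rw [hC2]
    positivity
  have hC3p : 0 ≤ C3 := by
    rw [hC3]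
    positivity
  refine ⟨C1 + C2 + C3, max 1 ((4 / c1) ^ (1 / ξ)), by positivity, le_max_left _ _, ?_⟩
  intro T l c hT hl hlT hcl hcu
  have hT1 : 1 ≤ T := (le_max_left _ _).trans hT
  have hT2 : (4 / c1) ^ (1 / ξ) ≤ T := (le_max_right _ _).trans hT
  have hT0 : 0 < T := by linarith
  have hl' : 0 < l := lt_of_lt_of_le hl0 hl
  have hTa : ∀ a b : ℝ, T ^ a * T ^ b = T ^ (a + b) := fun a b => (Real.rpow_add hT0 a b).symm
  have hTm : ∀ a b : ℝ, a ≤ b → T ^ a ≤ T ^ b := fun a b h =>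
    Real.rpow_le_rpow_of_exponent_le hT1 h
  obtain ⟨G, hG⟩ : ∃ G, G = T ^ (1 / 6 : ℝ) := ⟨_, rfl⟩
  have hG0 : 0 < G := by
    rw [hG]
    positivity
  obtain ⟨om, hom⟩ : ∃ om, om = l * T ^ (1 - ξ) * T ^ (-(5 / 6) : ℝ) := ⟨_, rfl⟩
  have hom0 : 0 < om := by
    rw [hom]
    positivity
  have hom1 : om = l * T ^ (1 / 6 - ξ) := by
    rw [hom, mul_assoc, hTa]
    congr 2
    ring
  have homc : 2 * om ≤ |c| / 2 := by
    have h1 : 4 / c1 ≤ T ^ ξ := by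
      have h2 : ((4 / c1) ^ (1 / ξ)) ^ ξ ≤ T ^ ξ := Real.rpow_le_rpow (by positivity) hT2 hξ.le
      rw [← Real.rpow_mul (by positivity), one_div_mul_cancel hξ.ne', Real.rpow_one] at h2
      exact h2
    have h2 : T ^ (1 / 6 - ξ) * T ^ ξ = G := by
      rw [hTa, hG]
      congr 1
      ring
    have h3 : 4 * T ^ (1 / 6 - ξ) ≤ c1 * G := by
      rw [← h2]
      rw [div_le_iff₀ hc1] at h1
      have h4 : 0 < T ^ (1 / 6 - ξ) := by positivity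
      nlinarith
    rw [hom1]
    rw [← hG] at hcl
    nlinarith
  obtain ⟨A, hA⟩ : ∃ A, A = T ^ (3 / 4 : ℝ) * l ^ (-(1 / 2) : ℝ) := ⟨_, rfl⟩
  have hA0 : 0 < A := by
    rw [hA]
    positivity
  obtain ⟨B, hB⟩ : ∃ B, B = T ^ (4 / 3 : ℝ) / T ^ (1 - ξ) := ⟨_, rfl⟩
  have hB0 : 0 < B := by
    rw [hB]
    positivity
  have hB1 : B = T ^ (1 / 3 + ξ) := by
    rw [hB, ← Real.rpow_sub hT0]
    congr 1
    ring
  have hBd : ∀ z : ℝ, T ^ (4 / 3 : ℝ) / (T ^ (1 - ξ) * z) = B / z := by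
    intro z
    rw [hB, div_div]
  simp only [hBd]
  rw [← hom, ← hA]
  obtain ⟨h1, h2⟩ := OS7_tot (s := ε / 10) hκ hom0 homc hA0.le hB0.le (by positivity) (by linarith)
  refine ⟨h1, h2.trans ?_⟩
  rw [← hZ]
  obtain ⟨P, hP⟩ : ∃ P, P = (8 * |c| ^ 3 / κ) ^ (ε / 10) := ⟨_, rfl⟩
  rw [← hP]
  have hP0 : 0 ≤ P := by
    rw [hP]
    positivity
  have hPK : P ≤ K * T ^ ε := by
    have h3 : |c| ≤ c2 * T ^ (7 / 6 : ℝ) := by
      refine hcu.trans ?_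
      have h4 : T ^ (7 / 6 : ℝ) = T * T ^ (1 / 6 : ℝ) := by
        nth_rewrite 2 [← Real.rpow_one T]
        rw [hTa]
        congr 1
        norm_num
      rw [h4, ← mul_assoc]
      gcongr
    have h4 : 8 * |c| ^ 3 / κ ≤ 8 * c2 ^ 3 / κ * T ^ (7 / 2 : ℝ) := by
      have h5 : T ^ (7 / 2 : ℝ) = (T ^ (7 / 6 : ℝ)) ^ 3 := by
        rw [← Real.rpow_natCast, ← Real.rpow_mul hT0.le]
        norm_num
      rw [h5]
      calc 8 * |c| ^ 3 / κ ≤ 8 * (c2 * T ^ (7 / 6 : ℝ)) ^ 3 / κ := by gcongr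
        _ = 8 * c2 ^ 3 / κ * (T ^ (7 / 6 : ℝ)) ^ 3 := by ring
    calc P ≤ (8 * c2 ^ 3 / κ * T ^ (7 / 2 : ℝ)) ^ (ε / 10) := by
          rw [hP]
          exact Real.rpow_le_rpow (by positivity) h4 (by positivity)
      _ = K * T ^ (7 / 2 * (ε / 10)) := by
          rw [Real.mul_rpow (by positivity) (by positivity), ← hK, ← Real.rpow_mul hT0.le]
      _ ≤ K * T ^ ε := by
          apply mul_le_mul_of_nonneg_left _ hK0.le
          apply hTm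
          linarith
  obtain ⟨W, hW⟩ : ∃ W, W = l ^ (1 / 2 : ℝ) * T ^ (1 - ξ - 1 / 12) := ⟨_, rfl⟩
  have hW0 : 0 < W := by
    rw [hW]
    positivity
  have hTε : 1 ≤ T ^ ε := Real.one_le_rpow hT1 hε.le
  have hfin : (C1 + C2 + C3) * l ^ (1 / 2 : ℝ) * T ^ (1 - ξ - 1 / 12 + ε) =
      C1 * (W * T ^ ε) + C2 * (W * T ^ ε) + C3 * (W * T ^ ε) := by
    rw [Real.rpow_add hT0, hW]
    ring
  rw [hfin]
  have hlh : ∀ r : ℝ, l ^ (1 / 2 : ℝ) * l ^ r = l ^ (1 / 2 + r) := fun r =>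
    (Real.rpow_add hl' _ _).symm
  have hlr : ∀ r : ℝ, r ≤ 0 → l ^ r ≤ l0 ^ r := fun r hr =>
    Real.rpow_le_rpow_of_nonpos hl0 hl hr
  -- the three terms
  have hAom : A * om = W := by
    rw [hA, hom, hW]
    have h3 : l ^ (1 / 2 : ℝ) = l ^ (-(1 / 2) : ℝ) * l := by
      nth_rewrite 3 [← Real.rpow_one l]
      rw [← Real.rpow_add hl']
      norm_num
    have h4 : T ^ (1 - ξ - 1 / 12) = T ^ (3 / 4 : ℝ) * T ^ (1 - ξ) * T ^ (-(5 / 6) : ℝ) := by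
      rw [hTa, hTa]
      congr 1
      ring
    rw [h3, h4]
    ring
  have hc0 : 0 < |c| := by
    refine lt_of_lt_of_le ?_ hcl
    positivity
  have hcsq : 0 < c ^ 2 := by
    rw [← sq_abs]
    positivity
  have hcne : c ≠ 0 := abs_pos.1 hc0
  have hAc : A / c ^ 2 ≤ 1 / (c1 ^ 2 * l0 ^ 3) * W := by
    have h3 : (c1 * l * T ^ (1 / 6 : ℝ)) ^ 2 ≤ c ^ 2 := by
      rw [← sq_abs c]
      gcongr
    have h5 : A = l ^ (1 / 2 : ℝ) * l⁻¹ * T ^ (3 / 4 : ℝ) := by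
      have h6 : l ^ (-(1 / 2) : ℝ) = l ^ (1 / 2 : ℝ) * l⁻¹ := by
        rw [← Real.rpow_neg_one l, hlh]
        norm_num
      rw [hA, h6]
      ring
    have h6 : T ^ (3 / 4 : ℝ) ≤ T ^ (1 - ξ - 1 / 12) * (T ^ (1 / 6 : ℝ)) ^ 2 := by
      rw [← Real.rpow_natCast, ← Real.rpow_mul hT0.le, hTa]
      apply hTm
      push_cast
      linarith
    calc A / c ^ 2 ≤ A / (c1 * l * T ^ (1 / 6 : ℝ)) ^ 2 := by
          apply div_le_div_of_nonneg_left hA0.le (by positivity) h3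
      _ = (1 / (c1 ^ 2 * l ^ 3)) * (l ^ (1 / 2 : ℝ) * (T ^ (3 / 4 : ℝ) / (T ^ (1 / 6 : ℝ)) ^ 2)) := by
          rw [h5]
          field_simp
      _ ≤ (1 / (c1 ^ 2 * l0 ^ 3)) * (l ^ (1 / 2 : ℝ) * T ^ (1 - ξ - 1 / 12)) := by
          have h7 : T ^ (3 / 4 : ℝ) / (T ^ (1 / 6 : ℝ)) ^ 2 ≤ T ^ (1 - ξ - 1 / 12) := by
            rw [div_le_iff₀ (by positivity)]
            exact h6
          gcongr
      _ = 1 / (c1 ^ 2 * l0 ^ 3) * W := by rw [hW]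
  have t1 : A * (4 * κ ^ (2 / 3 : ℝ) / c ^ 2 * P) * (13 * c ^ 2 * om / κ + 1) ≤
      C1 * (W * T ^ ε) := by
    calc A * (4 * κ ^ (2 / 3 : ℝ) / c ^ 2 * P) * (13 * c ^ 2 * om / κ + 1) =
          4 * κ ^ (2 / 3 : ℝ) * P * (13 / κ * (A * om) + A / c ^ 2) := by
          field_simp
      _ ≤ 4 * κ ^ (2 / 3 : ℝ) * (K * T ^ ε) * (13 / κ * W + 1 / (c1 ^ 2 * l0 ^ 3) * W) := by
          rw [hAom]
          gcongr
      _ = C1 * (W * T ^ ε) := by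
          rw [hC1]
          ring
  have hBc : B * |c| / om ^ 2 ≤ c2 * l0 ^ (-(3 / 2) : ℝ) * W := by
    have h3 : B * |c| / om ^ 2 ≤ B * (c2 * l * T ^ (1 / 6 : ℝ)) / om ^ 2 := by gcongr
    refine h3.trans ?_
    have h4 : B * (c2 * l * T ^ (1 / 6 : ℝ)) / om ^ 2 = c2 * l⁻¹ * T ^ (1 / 6 + 3 * ξ) := by
      have h5 : T ^ (1 / 3 + ξ) * T ^ (1 / 6 : ℝ) = T ^ (1 / 6 + 3 * ξ) * (T ^ (1 / 6 - ξ)) ^ 2 := by
        rw [← Real.rpow_natCast (T ^ (1 / 6 - ξ)), ← Real.rpow_mul hT0.le, hTa, hTa]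
        congr 1
        push_cast
        ring
      rw [hB1, hom1, mul_pow, div_eq_iff (by positivity)]
      calc T ^ (1 / 3 + ξ) * (c2 * l * T ^ (1 / 6 : ℝ)) =
            c2 * l * (T ^ (1 / 3 + ξ) * T ^ (1 / 6 : ℝ)) := by ring
        _ = c2 * l⁻¹ * T ^ (1 / 6 + 3 * ξ) * (l ^ 2 * (T ^ (1 / 6 - ξ)) ^ 2) := by
            rw [h5]
            field_simp
    rw [h4]
    have h5 : l⁻¹ = l ^ (-(3 / 2) : ℝ) * l ^ (1 / 2 : ℝ) := by
      rw [← Real.rpow_add hl', ← Real.rpow_neg_one]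
      norm_num
    rw [h5, hW]
    have h6 : T ^ (1 / 6 + 3 * ξ) ≤ T ^ (1 - ξ - 1 / 12) := hTm _ _ (by linarith)
    have h7 : l ^ (-(3 / 2) : ℝ) ≤ l0 ^ (-(3 / 2) : ℝ) := hlr _ (by norm_num)
    calc c2 * (l ^ (-(3 / 2) : ℝ) * l ^ (1 / 2 : ℝ)) * T ^ (1 / 6 + 3 * ξ) ≤
          c2 * (l0 ^ (-(3 / 2) : ℝ) * l ^ (1 / 2 : ℝ)) * T ^ (1 - ξ - 1 / 12) := by gcongr
      _ = c2 * l0 ^ (-(3 / 2) : ℝ) * (l ^ (1 / 2 : ℝ) * T ^ (1 - ξ - 1 / 12)) := by ring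
  have t2 : P * (B / (4 * om ^ 2)) * (3 * (2 * |c| / κ ^ (1 / 3 : ℝ))) ≤ C2 * (W * T ^ ε) := by
    calc P * (B / (4 * om ^ 2)) * (3 * (2 * |c| / κ ^ (1 / 3 : ℝ))) =
          3 / (2 * κ ^ (1 / 3 : ℝ)) * P * (B * |c| / om ^ 2) := by
          field_simp
          ring
      _ ≤ 3 / (2 * κ ^ (1 / 3 : ℝ)) * (K * T ^ ε) * (c2 * l0 ^ (-(3 / 2) : ℝ) * W) := by gcongr
      _ = C2 * (W * T ^ ε) := by
          rw [hC2]
          ring
  have t3 : 4 * B / κ ^ (2 / 3 : ℝ) * Z ≤ C3 * (W * T ^ ε) := by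
    have h3 : B ≤ l0 ^ (-(1 / 2) : ℝ) * W := by
      have h4 : 1 ≤ l0 ^ (-(1 / 2) : ℝ) * l ^ (1 / 2 : ℝ) := by
        have h5 : l0 ^ (-(1 / 2) : ℝ) * l0 ^ (1 / 2 : ℝ) = 1 := by
          rw [← Real.rpow_add hl0]
          norm_num
        calc (1 : ℝ) = l0 ^ (-(1 / 2) : ℝ) * l0 ^ (1 / 2 : ℝ) := h5.symm
          _ ≤ l0 ^ (-(1 / 2) : ℝ) * l ^ (1 / 2 : ℝ) := by gcongr
      have h6 : T ^ (1 / 3 + ξ) ≤ T ^ (1 - ξ - 1 / 12) := hTm _ _ (by linarith)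
      rw [hB1, hW]
      calc T ^ (1 / 3 + ξ) ≤ 1 * T ^ (1 - ξ - 1 / 12) := by rw [one_mul]; exact h6
        _ ≤ (l0 ^ (-(1 / 2) : ℝ) * l ^ (1 / 2 : ℝ)) * T ^ (1 - ξ - 1 / 12) := by gcongr
        _ = l0 ^ (-(1 / 2) : ℝ) * (l ^ (1 / 2 : ℝ) * T ^ (1 - ξ - 1 / 12)) := by ring
    calc 4 * B / κ ^ (2 / 3 : ℝ) * Z ≤ 4 * (l0 ^ (-(1 / 2) : ℝ) * W) / κ ^ (2 / 3 : ℝ) * Z := by
          gcongr
      _ = C3 * (W * 1) := by
          rw [hC3]
          ring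
      _ ≤ C3 * (W * T ^ ε) := by gcongr
  linarith
--END OS7

variable {b : ℕ → ℝ} {L : ℂ → ℂ}

/-- The conclusion of the weak Voronoi theorem, as a hypothesis. -/
structure Wk (b : ℕ → ℝ) (L : ℂ → ℂ) (κ C0 : ℝ) (c : Fin 3 → ℂ) (d : Fin 4 → ℂ) (S : ℝ → ℝ) :
    Prop where
  kpos : 0 < κ
  cpos : 0 < C0
  dne : d 0 ≠ 0
  scont : ContinuousOn S (Ici 1)
  sb : ∀ x : ℝ, 1 ≤ x → |S x| ≤ C0
  der : ∀ (m : ℕ), ∃ q' : ℝ → ℝ, ∀ x : ℝ, 0 < x → HasDerivAt (qm κ c m) (q' x) x ∧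
      HasDerivAt q' (km κ d m x) x
  main : ∀ δ : ℝ, 0 < δ → ∃ C : ℝ, 0 < C ∧ ∀ (p q : ℝ) (F : ℝ → ℂ), 1 ≤ p → p ≤ q →
      ContDiff ℝ 2 F → (∀ x, x ∉ Icc p q → F x = 0) →
      Summable (fun m : ℕ => ‖(b m : ℂ) * ∫ x in p..q, (km κ d m x : ℂ) * F x‖) ∧
      ‖(∫ x in p..q, (errTerm b L x : ℂ) * F x) - (∫ x in p..q, (S x : ℂ) * F x) -
        ∑' m : ℕ, (b m : ℂ) * ∫ x in p..q, (km κ d m x : ℂ) * F x‖ ≤
        C * q ^ (1 + δ) * ∫ x in p..q, ‖deriv (deriv F) x‖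
  diff : ∀ δ : ℝ, 0 < δ → ∃ C : ℝ, 0 < C ∧ ∀ x h : ℝ, 1 ≤ x → 0 < h → h ≤ x →
      |(D2 b L (x + 2 * h) - 2 * D2 b L (x + h) + D2 b L x) -
        ∑' m : ℕ, b m * (qm κ c m (x + 2 * h) - 2 * qm κ c m (x + h) + qm κ c m x)| ≤
        C * h ^ 2 + C * x ^ (1 + δ)

variable {κ C0 : ℝ} {c : Fin 3 → ℂ} {d : Fin 4 → ℂ} {S : ℝ → ℝ}

--BEGIN OS8
private theorem OS8_d1 (l mu : ℝ) {x : ℝ} (hx : 0 < x) :
    HasDerivAt (ps l mu) (l * x ^ (-(1 / 2) : ℝ) + mu / 3 * x ^ (-(2 / 3) : ℝ)) x := by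
  have h1 : HasDerivAt (fun y : ℝ => 2 * l * √y + mu * y ^ (1 / 3 : ℝ))
      (2 * l * (1 / (2 * √x)) + mu * ((1 / 3) * x ^ ((1 / 3 : ℝ) - 1))) x :=
    ((Real.hasDerivAt_sqrt hx.ne').const_mul (2 * l)).add
      ((Real.hasDerivAt_rpow_const (Or.inl hx.ne')).const_mul mu)
  have h2 : 2 * l * (1 / (2 * √x)) + mu * ((1 / 3) * x ^ ((1 / 3 : ℝ) - 1)) =
      l * x ^ (-(1 / 2) : ℝ) + mu / 3 * x ^ (-(2 / 3) : ℝ) := by
    rw [Real.sqrt_eq_rpow, Real.rpow_neg hx.le, show (1 / 3 : ℝ) - 1 = -(2 / 3) by norm_num]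
    have : x ^ (1 / 2 : ℝ) ≠ 0 := (Real.rpow_pos_of_pos hx _).ne'
    field_simp
  rw [h2] at h1
  exact h1

private theorem OS8_d2 (l mu : ℝ) {x : ℝ} (hx : 0 < x) :
    HasDerivAt (fun y : ℝ => l * y ^ (-(1 / 2) : ℝ) + mu / 3 * y ^ (-(2 / 3) : ℝ))
      (-(l / 2) * x ^ (-(3 / 2) : ℝ) - 2 * mu / 9 * x ^ (-(5 / 3) : ℝ)) x := by
  have h1 := ((Real.hasDerivAt_rpow_const (x := x) (p := -(1 / 2)) (Or.inl hx.ne')).const_mul l).add
    ((Real.hasDerivAt_rpow_const (x := x) (p := -(2 / 3)) (Or.inl hx.ne')).const_mul (mu / 3))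
  refine h1.congr_deriv ?_
  rw [show (-(1 / 2) : ℝ) - 1 = -(3 / 2) by norm_num, show (-(2 / 3) : ℝ) - 1 = -(5 / 3) by norm_num]
  ring

private theorem OS8_e {φ : ℝ → ℝ} {φ' x : ℝ} (h : HasDerivAt φ φ' x) :
    HasDerivAt (fun y => e (φ y)) (2 * π * I * φ' * e (φ x)) x := by
  unfold e
  have h1 := ((h.ofReal_comp).const_mul (2 * π * I)).cexp
  refine h1.congr_deriv ?_
  ring

private theorem OS8_norm_e (x : ℝ) : ‖e x‖ = 1 := by
  unfold e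
  rw [show (2 * π * I * x : ℂ) = ((2 * π * x : ℝ) : ℂ) * I by push_cast; ring]
  exact Complex.norm_exp_ofReal_mul_I _

private theorem OS8_formula (l mu : ℝ) {a : ℝ → ℂ} (ha : ContDiff ℝ 2 a) {x : ℝ} (hx : 0 < x) :
    deriv (deriv (fun y => a y * e (ps l mu y))) x =
      (deriv (deriv a) x + 2 * deriv a x * (2 * π * I * (l * x ^ (-(1 / 2) : ℝ) +
        mu / 3 * x ^ (-(2 / 3) : ℝ) : ℝ)) + a x * (2 * π * I * (-(l / 2) * x ^ (-(3 / 2) : ℝ) -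
        2 * mu / 9 * x ^ (-(5 / 3) : ℝ) : ℝ) + (2 * π * I * (l * x ^ (-(1 / 2) : ℝ) +
        mu / 3 * x ^ (-(2 / 3) : ℝ) : ℝ)) ^ 2)) * e (ps l mu x) := by
  have hd : ∀ y, HasDerivAt a (deriv a y) y := fun y =>
    (ha.differentiable (by norm_num) y).hasDerivAt
  have ha1 : ContDiff ℝ 1 (deriv a) := by
    have := (contDiff_succ_iff_deriv (n := 1) (f := a)).mp (by
      rw [show (1 : WithTop ℕ∞) + 1 = 2 by norm_num]
      exact ha)
    exact this.2.2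
  have hd2 : ∀ y, HasDerivAt (deriv a) (deriv (deriv a) y) y := fun y =>
    (ha1.differentiable (by norm_num) y).hasDerivAt
  have h1 : ∀ y, 0 < y → deriv (fun y => a y * e (ps l mu y)) y =
      (deriv a y + a y * (2 * π * I * (l * y ^ (-(1 / 2) : ℝ) + mu / 3 * y ^ (-(2 / 3) : ℝ) : ℝ))) *
        e (ps l mu y) := by
    intro y hy
    refine ((hd y).mul (OS8_e (OS8_d1 l mu hy))).deriv.trans ?_
    ring
  have h2 : deriv (fun y => a y * e (ps l mu y)) =ᶠ[𝓝 x] fun y =>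
      (deriv a y + a y * (2 * π * I * (l * y ^ (-(1 / 2) : ℝ) + mu / 3 * y ^ (-(2 / 3) : ℝ) : ℝ))) *
        e (ps l mu y) := by
    filter_upwards [lt_mem_nhds hx] with y hy
    exact h1 y hy
  rw [h2.deriv_eq]
  have h3 : HasDerivAt (fun y : ℝ => (2 * π * I * (l * y ^ (-(1 / 2) : ℝ) +
      mu / 3 * y ^ (-(2 / 3) : ℝ) : ℝ) : ℂ)) (2 * π * I * (-(l / 2) * x ^ (-(3 / 2) : ℝ) -
        2 * mu / 9 * x ^ (-(5 / 3) : ℝ) : ℝ)) x :=
    ((OS8_d2 l mu hx).ofReal_comp).const_mul (2 * π * I)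
  have h4 := (((hd2 x).add ((hd x).mul h3)).mul (OS8_e (OS8_d1 l mu hx))).deriv
  refine Eq.trans ?_ (h4.trans ?_)
  · rfl
  · simp only [Pi.add_apply, Pi.mul_apply]
    ring

/-- **OS8.** The second derivative of `a(x) e(ps λ μ x)`. -/
theorem amp_deriv2 {D B0 : ℝ} (hB0 : 0 ≤ B0) : ∃ C : ℝ, 0 < C ∧ ∀ (T X l mu : ℝ) (a : ℝ → ℂ),
    1 ≤ T → T ^ (1 / 2 : ℝ) ≤ X → X ≤ T → |mu| ≤ B0 → Am T X D a →
    ContDiff ℝ 2 (fun x => a x * e (ps l mu x)) ∧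
    ∀ x : ℝ, ‖deriv (deriv (fun x => a x * e (ps l mu x))) x‖ ≤ C * (1 + |l|) ^ 2 / T := by
  refine ⟨|D| * (1 + 6 * π * (1 + B0) + 4 * π ^ 2 * (1 + B0) ^ 2) + 1, by positivity, ?_⟩
  intro T X l mu a hT hX1 hXT hmu ha
  have hT0 : 0 < T := by linarith
  have hX0 : 0 < X := lt_of_lt_of_le (Real.rpow_pos_of_pos hT0 _) hX1
  have hzero : ∀ x, x ∉ Icc T (T + X) → (fun y => a y * e (ps l mu y)) =ᶠ[𝓝 x] fun _ => 0 := by
    intro x hx
    filter_upwards [isClosed_Icc.isOpen_compl.mem_nhds hx] with y hy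
    rw [ha.supp y hy, zero_mul]
  refine ⟨?_, ?_⟩
  · rw [contDiff_iff_contDiffAt]
    intro x
    rcases le_or_gt x 0 with hx | hx
    · have h1 : x ∉ Icc T (T + X) := fun h => by linarith [h.1]
      exact contDiffAt_const.congr_of_eventuallyEq (hzero x h1)
    · have h1 : ContDiffAt ℝ 2 (ps l mu) x := by
        unfold ps
        exact (contDiffAt_const.mul ((Real.contDiffAt_sqrt hx.ne'))).add
          (contDiffAt_const.mul (Real.contDiffAt_rpow_const_of_ne hx.ne'))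
      have h2 : ContDiffAt ℝ 2 (fun y => e (ps l mu y)) x := by
        unfold e
        exact (contDiffAt_const.mul (ofRealCLM.contDiff.contDiffAt.comp x h1)).cexp
      exact (ha.smooth.contDiffAt).mul h2
  · intro x
    have hD0 : 0 ≤ D := (norm_nonneg _).trans (ha.b0 x)
    have habsD : |D| = D := abs_of_nonneg hD0
    by_cases hx : x ∈ Icc T (T + X)
    · have hx0 : 0 < x := lt_of_lt_of_le hT0 hx.1
      rw [OS8_formula l mu ha.smooth hx0, norm_mul, OS8_norm_e, mul_one]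
      -- sizes
      have hl0 : 0 ≤ |l| := abs_nonneg l
      set Λ : ℝ := (1 + B0) * (1 + |l|) with hΛ
      have hΛ0 : 0 ≤ Λ := by positivity
      have hΛ1 : |l| + B0 ≤ Λ := by nlinarith [mul_nonneg hB0 hl0]
      have hΛ2 : 1 ≤ 1 + |l| := by linarith
      have hp : ∀ r : ℝ, 0 ≤ r → x ^ (-r) ≤ T ^ (-r) := fun r hr =>
        Real.rpow_le_rpow_of_nonpos hT0 hx.1 (by linarith)
      have hq : ∀ r s : ℝ, s ≤ r → T ^ (-r) ≤ T ^ (-s) := fun r s hrs =>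
        Real.rpow_le_rpow_of_exponent_le hT (by linarith)
      have hx1 : x ^ (-(1 / 2) : ℝ) ≤ T ^ (-(1 / 2) : ℝ) := hp _ (by norm_num)
      have hx2 : x ^ (-(2 / 3) : ℝ) ≤ T ^ (-(1 / 2) : ℝ) :=
        (hp _ (by norm_num)).trans (hq _ _ (by norm_num))
      have hx3 : x ^ (-(3 / 2) : ℝ) ≤ T ^ (-1 : ℝ) :=
        (hp _ (by norm_num)).trans (hq _ _ (by norm_num))
      have hx5 : x ^ (-(5 / 3) : ℝ) ≤ T ^ (-1 : ℝ) :=
        (hp _ (by norm_num)).trans (hq _ _ (by norm_num))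
      have hn1 : 0 ≤ x ^ (-(1 / 2) : ℝ) := (Real.rpow_pos_of_pos hx0 _).le
      have hn2 : 0 ≤ x ^ (-(2 / 3) : ℝ) := (Real.rpow_pos_of_pos hx0 _).le
      have hn3 : 0 ≤ x ^ (-(3 / 2) : ℝ) := (Real.rpow_pos_of_pos hx0 _).le
      have hn5 : 0 ≤ x ^ (-(5 / 3) : ℝ) := (Real.rpow_pos_of_pos hx0 _).le
      set R : ℝ := T ^ (-(1 / 2) : ℝ) with hR
      have hR0 : 0 < R := Real.rpow_pos_of_pos hT0 _
      have hR2 : R ^ 2 = T⁻¹ := by
        rw [hR, ← Real.rpow_natCast, ← Real.rpow_mul hT0.le]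
        norm_num
        rw [Real.rpow_neg_one]
      have hT1 : T ^ (-1 : ℝ) = T⁻¹ := Real.rpow_neg_one T
      rw [hT1] at hx3 hx5
      have hXR : 1 / X ≤ R := by
        rw [hR, Real.rpow_neg hT0.le, ← one_div]
        exact one_div_le_one_div_of_le (Real.rpow_pos_of_pos hT0 _) hX1
      have hphi1 : ‖(2 * π * I * (l * x ^ (-(1 / 2) : ℝ) + mu / 3 * x ^ (-(2 / 3) : ℝ) : ℝ) : ℂ)‖ ≤
          2 * π * (Λ * R) := by
        rw [norm_mul, norm_mul, norm_mul, Complex.norm_I, Complex.norm_real, Complex.norm_real,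
          Complex.norm_ofNat, mul_one, Real.norm_of_nonneg Real.pi_pos.le]
        refine mul_le_mul_of_nonneg_left ?_ (by positivity)
        refine (abs_add_le _ _).trans ?_
        rw [abs_mul, abs_mul, abs_of_nonneg hn1, abs_of_nonneg hn2, abs_div, abs_of_pos (show
          (0 : ℝ) < 3 by norm_num)]
        have h1 : |l| * x ^ (-(1 / 2) : ℝ) ≤ |l| * R := mul_le_mul_of_nonneg_left hx1 hl0
        have h2 : |mu| / 3 * x ^ (-(2 / 3) : ℝ) ≤ B0 * R := by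
          refine mul_le_mul ?_ hx2 hn2 hB0
          linarith [abs_nonneg mu]
        calc |l| * x ^ (-(1 / 2) : ℝ) + |mu| / 3 * x ^ (-(2 / 3) : ℝ) ≤ (|l| + B0) * R := by linarith
          _ ≤ Λ * R := mul_le_mul_of_nonneg_right hΛ1 hR0.le
      have hphi2 : ‖(2 * π * I * (-(l / 2) * x ^ (-(3 / 2) : ℝ) -
          2 * mu / 9 * x ^ (-(5 / 3) : ℝ) : ℝ) : ℂ)‖ ≤ 2 * π * (Λ * T⁻¹) := by
        rw [norm_mul, norm_mul, norm_mul, Complex.norm_I, Complex.norm_real, Complex.norm_real,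
          Complex.norm_ofNat, mul_one, Real.norm_of_nonneg Real.pi_pos.le]
        refine mul_le_mul_of_nonneg_left ?_ (by positivity)
        have hTi : 0 ≤ T⁻¹ := (inv_pos.mpr hT0).le
        refine (abs_sub _ _).trans ?_
        rw [abs_mul, abs_mul, abs_of_nonneg hn3, abs_of_nonneg hn5, abs_neg, abs_div, abs_div,
          abs_mul, abs_of_pos (show (0 : ℝ) < 2 by norm_num), abs_of_pos (show
          (0 : ℝ) < 9 by norm_num)]
        have h1 : |l| / 2 * x ^ (-(3 / 2) : ℝ) ≤ |l| * T⁻¹ :=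
          mul_le_mul (by linarith) hx3 hn3 hl0
        have h2 : 2 * |mu| / 9 * x ^ (-(5 / 3) : ℝ) ≤ B0 * T⁻¹ := by
          refine mul_le_mul ?_ hx5 hn5 hB0
          linarith [abs_nonneg mu]
        calc |l| / 2 * x ^ (-(3 / 2) : ℝ) + 2 * |mu| / 9 * x ^ (-(5 / 3) : ℝ) ≤
              (|l| + B0) * T⁻¹ := by linarith
          _ ≤ Λ * T⁻¹ := mul_le_mul_of_nonneg_right hΛ1 hTi
      have hb0 := ha.b0 x
      have hb1 : ‖deriv a x‖ ≤ D * R := by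
        refine (ha.b1 x).trans ?_
        rw [div_eq_mul_one_div]
        exact mul_le_mul_of_nonneg_left hXR hD0
      have hb2 : ‖deriv (deriv a) x‖ ≤ D * T⁻¹ := by
        refine (ha.b2 x).trans ?_
        rw [div_eq_mul_one_div]
        refine mul_le_mul_of_nonneg_left ?_ hD0
        rw [← hR2, ← one_div_pow]
        exact pow_le_pow_left₀ (by positivity) hXR 2
      set P1 : ℂ := (2 * π * I * (l * x ^ (-(1 / 2) : ℝ) + mu / 3 * x ^ (-(2 / 3) : ℝ) : ℝ) : ℂ)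
        with hP1
      set P2 : ℂ := (2 * π * I * (-(l / 2) * x ^ (-(3 / 2) : ℝ) -
          2 * mu / 9 * x ^ (-(5 / 3) : ℝ) : ℝ) : ℂ) with hP2
      have hTi : 0 < T⁻¹ := inv_pos.mpr hT0
      have hpi := Real.pi_pos
      have hΛsq : Λ ^ 2 = (1 + B0) ^ 2 * (1 + |l|) ^ 2 := by rw [hΛ]; ring
      have hΛle : Λ ≤ (1 + B0) * (1 + |l|) ^ 2 := by
        rw [hΛ]
        refine mul_le_mul_of_nonneg_left ?_ (by linarith)
        nlinarith
      have hone : 1 ≤ (1 + |l|) ^ 2 := one_le_pow₀ hΛ2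
      calc ‖deriv (deriv a) x + 2 * deriv a x * P1 + a x * (P2 + P1 ^ 2)‖
          ≤ ‖deriv (deriv a) x‖ + 2 * ‖deriv a x‖ * ‖P1‖ + ‖a x‖ * (‖P2‖ + ‖P1‖ ^ 2) := by
            refine (norm_add_le _ _).trans (add_le_add ((norm_add_le _ _).trans
              (add_le_add le_rfl ?_)) ?_)
            · rw [norm_mul, norm_mul, Complex.norm_ofNat]
            · rw [norm_mul]
              refine mul_le_mul_of_nonneg_left ((norm_add_le _ _).trans ?_) (norm_nonneg _)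
              rw [norm_pow]
        _ ≤ D * T⁻¹ + 2 * (D * R) * (2 * π * (Λ * R)) +
            D * (2 * π * (Λ * T⁻¹) + (2 * π * (Λ * R)) ^ 2) := by
            refine add_le_add (add_le_add hb2 ?_) ?_
            · refine mul_le_mul (mul_le_mul_of_nonneg_left hb1 zero_le_two) hphi1 (norm_nonneg _)
                (by positivity)
            · refine mul_le_mul hb0 (add_le_add hphi2 ?_) (by positivity) hD0
              exact pow_le_pow_left₀ (norm_nonneg _) hphi1 2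
        _ = D * T⁻¹ * (1 + 6 * π * Λ + 4 * π ^ 2 * Λ ^ 2) := by
            have : R * R = T⁻¹ := by rw [← sq]; exact hR2
            calc D * T⁻¹ + 2 * (D * R) * (2 * π * (Λ * R)) +
                D * (2 * π * (Λ * T⁻¹) + (2 * π * (Λ * R)) ^ 2) = D * T⁻¹ + 4 * π * D * Λ * (R * R) +
                D * (2 * π * (Λ * T⁻¹) + 4 * π ^ 2 * Λ ^ 2 * (R * R)) := by ring
              _ = _ := by rw [this]; ring
        _ ≤ D * T⁻¹ * ((1 + 6 * π * (1 + B0) + 4 * π ^ 2 * (1 + B0) ^ 2) * (1 + |l|) ^ 2) := by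
            refine mul_le_mul_of_nonneg_left ?_ (by positivity)
            rw [hΛsq]
            have h1 : 6 * π * Λ ≤ 6 * π * ((1 + B0) * (1 + |l|) ^ 2) :=
              mul_le_mul_of_nonneg_left hΛle (by positivity)
            linarith
        _ ≤ (|D| * (1 + 6 * π * (1 + B0) + 4 * π ^ 2 * (1 + B0) ^ 2) + 1) * (1 + |l|) ^ 2 / T := by
            rw [habsD, div_eq_mul_inv]
            have h2 : 0 ≤ 1 * (1 + |l|) ^ 2 * T⁻¹ := by positivity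
            linarith
    · have h1 : deriv (deriv (fun y => a y * e (ps l mu y))) x = 0 := by
        have h2 : (fun y => a y * e (ps l mu y)) =ᶠ[𝓝 x] fun _ => 0 := hzero x hx
        have h3 : deriv (fun y => a y * e (ps l mu y)) =ᶠ[𝓝 x] fun _ => 0 := by
          have := h2.deriv
          simpa using this
        rw [h3.deriv_eq, deriv_const]
      rw [h1, norm_zero]
      positivity
--END OS8

--BEGIN OS9
private theorem OS9_norm_e (x : ℝ) : ‖e x‖ = 1 := by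
  unfold e
  rw [show (2 * π * I * x : ℂ) = ((2 * π * x : ℝ) : ℂ) * I by push_cast; ring]
  exact Complex.norm_exp_ofReal_mul_I _

private theorem OS9_e_add (x y : ℝ) : e (x + y) = e x * e y := by
  unfold e
  rw [← Complex.exp_add]
  congr 1
  push_cast
  ring

private theorem OS9_e_conj (x : ℝ) : conj (e x) = e (-x) := by
  unfold e
  rw [← Complex.exp_conj]
  congr 1
  simp only [map_mul, Complex.conj_I, Complex.conj_ofReal, map_ofNat]
  push_cast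
  ring

private theorem OS9_cont (l mu : ℝ) {T X : ℝ} (hT : 0 < T) :
    ContinuousOn (fun x => e (ps l mu x)) (Icc T (T + X)) := by
  unfold e ps
  refine Continuous.comp_continuousOn (f := fun x : ℝ => (2 * π * I * ((2 * l * √x +
    mu * x ^ (1 / 3 : ℝ) : ℝ) : ℂ) : ℂ)) Complex.continuous_exp ?_
  refine continuousOn_const.mul (Complex.continuous_ofReal.comp_continuousOn ?_)
  refine (continuousOn_const.mul Real.continuous_sqrt.continuousOn).add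
    (continuousOn_const.mul fun x hx => ?_)
  exact (Real.continuousAt_rpow_const x _ (Or.inl (by linarith [hx.1]))).continuousWithinAt

private theorem OS9_point (κ : ℝ) (hκ : 0 < κ) (d : Fin 4 → ℂ) (m : ℕ) (l mu : ℝ) (a : ℝ → ℂ)
    {T x : ℝ} (hT : 0 < T) (hx : 0 < x) :
    (km κ d m x : ℂ) * (a x * e (ps l mu x)) =
      ∑ i : Fin 4, ((((m : ℝ) ^ (-((2 + (i : ℝ)) / 3)) * T ^ ((1 - (i : ℝ)) / 3) : ℝ) : ℂ) *
        ((d i / 2) * ((((x / T) ^ ((1 - (i : ℝ)) / 3) : ℝ) : ℂ) * a x *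
          e (ps l (mu + 3 * (κ * m) ^ (1 / 3 : ℝ)) x)) +
        (conj (d i) / 2) * ((((x / T) ^ ((1 - (i : ℝ)) / 3) : ℝ) : ℂ) * a x *
          e (ps l (mu + -(3 * (κ * m) ^ (1 / 3 : ℝ))) x)))) := by
  unfold km
  rw [Complex.ofReal_sum, Finset.sum_mul]
  refine Finset.sum_congr rfl fun i _ => ?_
  have hm0 : (0 : ℝ) ≤ κ * m := mul_nonneg hκ.le (Nat.cast_nonneg _)
  set y : ℝ := (κ * m) ^ (1 / 3 : ℝ) with hy
  have h1 : (κ * m * x) ^ (1 / 3 : ℝ) = y * x ^ (1 / 3 : ℝ) := Real.mul_rpow hm0 hx.le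
  have h2 : x ^ ((1 - (i : ℝ)) / 3) = T ^ ((1 - (i : ℝ)) / 3) * (x / T) ^ ((1 - (i : ℝ)) / 3) := by
    rw [← Real.mul_rpow hT.le (div_nonneg hx.le hT.le)]
    congr 1
    field_simp
  have h3 : ps l (mu + 3 * y) x = ps l mu x + 3 * (y * x ^ (1 / 3 : ℝ)) := by
    unfold ps
    ring
  have h4 : ps l (mu + -(3 * y)) x = ps l mu x + -(3 * (y * x ^ (1 / 3 : ℝ))) := by
    unfold ps
    ring
  rw [h1, h2, h3, h4, OS9_e_add, OS9_e_add, ← OS9_e_conj]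
  have h5 : (((d i * e (3 * (y * x ^ (1 / 3 : ℝ)))).re : ℝ) : ℂ) =
      (d i * e (3 * (y * x ^ (1 / 3 : ℝ))) + conj (d i) * conj (e (3 * (y * x ^ (1 / 3 : ℝ))))) / 2 := by
    rw [← map_mul, Complex.re_eq_add_conj]
  push_cast at h5 ⊢
  rw [h5]
  ring

private theorem OS9_dec {T X D : ℝ} (hT : 1 ≤ T) (hX : 0 < X) {a : ℝ → ℂ} (ha : Am T X D a)
    (κ : ℝ) (hκ : 0 < κ) (d : Fin 4 → ℂ) (m : ℕ) (l mu : ℝ) :
    (∫ x in T..(T + X), (km κ d m x : ℂ) * (a x * e (ps l mu x))) =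
      ∑ i : Fin 4, ((((m : ℝ) ^ (-((2 + (i : ℝ)) / 3)) * T ^ ((1 - (i : ℝ)) / 3) : ℝ) : ℂ) *
        ((d i / 2) * (∫ x in T..(T + X), (((x / T) ^ ((1 - (i : ℝ)) / 3) : ℝ) : ℂ) * a x *
          e (ps l (mu + 3 * (κ * m) ^ (1 / 3 : ℝ)) x)) +
        (conj (d i) / 2) * ∫ x in T..(T + X), (((x / T) ^ ((1 - (i : ℝ)) / 3) : ℝ) : ℂ) * a x *
          e (ps l (mu + -(3 * (κ * m) ^ (1 / 3 : ℝ))) x))) := by
  have hT0 : 0 < T := by linarith
  have hle : T ≤ T + X := by linarith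
  have hc1 : ∀ (i : Fin 4), ContinuousOn (fun x : ℝ => (((x / T) ^ ((1 - (i : ℝ)) / 3) : ℝ) : ℂ) *
      a x) (Icc T (T + X)) := by
    intro i
    refine ContinuousOn.mul (Complex.continuous_ofReal.comp_continuousOn fun x hx => ?_)
      ha.smooth.continuous.continuousOn
    have hxT : x / T ≠ 0 := (div_pos (lt_of_lt_of_le hT0 hx.1) hT0).ne'
    exact (ContinuousAt.rpow_const (f := fun z : ℝ => z / T) (continuousAt_id.div_const T)
      (Or.inl hxT)).continuousWithinAt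
  have hii : ∀ (i : Fin 4) (nu : ℝ), IntervalIntegrable (fun x : ℝ =>
      (((x / T) ^ ((1 - (i : ℝ)) / 3) : ℝ) : ℂ) * a x * e (ps l nu x)) volume T (T + X) := by
    intro i nu
    refine ContinuousOn.intervalIntegrable ?_
    rw [uIcc_of_le hle]
    exact (hc1 i).mul (OS9_cont l nu hT0)
  have h1 : (∫ x in T..(T + X), (km κ d m x : ℂ) * (a x * e (ps l mu x))) =
      ∫ x in T..(T + X), ∑ i : Fin 4,
        ((((m : ℝ) ^ (-((2 + (i : ℝ)) / 3)) * T ^ ((1 - (i : ℝ)) / 3) : ℝ) : ℂ) *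
        ((d i / 2) * ((((x / T) ^ ((1 - (i : ℝ)) / 3) : ℝ) : ℂ) * a x *
          e (ps l (mu + 3 * (κ * m) ^ (1 / 3 : ℝ)) x)) +
        (conj (d i) / 2) * ((((x / T) ^ ((1 - (i : ℝ)) / 3) : ℝ) : ℂ) * a x *
          e (ps l (mu + -(3 * (κ * m) ^ (1 / 3 : ℝ))) x)))) := by
    refine intervalIntegral.integral_congr fun x hx => ?_
    rw [uIcc_of_le hle] at hx
    exact OS9_point κ hκ d m l mu a hT0 (lt_of_lt_of_le hT0 hx.1)
  rw [h1, intervalIntegral.integral_finsetSum (fun i _ =>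
    (((hii i _).const_mul _).add ((hii i _).const_mul _)).const_mul _)]
  refine Finset.sum_congr rfl fun i _ => ?_
  rw [intervalIntegral.integral_const_mul, intervalIntegral.integral_add ((hii i _).const_mul _)
    ((hii i _).const_mul _), intervalIntegral.integral_const_mul, intervalIntegral.integral_const_mul]

private theorem OS9_one (D : ℝ) : ∃ C : ℝ, 0 < C ∧ ∀ (T X l mu y σ : ℝ) (a : ℝ → ℂ), 1 ≤ T →
    T ^ (2 / 3 : ℝ) ≤ X → X ≤ T → l ≠ 0 → (σ = 1 ∨ σ = -1) → Am T X D a →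
    ‖∫ x in T..(T + X), a x * e (ps l (mu + σ * (3 * y)) x)‖ ≤
      C * min (T ^ (3 / 4 : ℝ) * |l| ^ (-(1 / 2) : ℝ))
          (if 2 * (|l| * X * T ^ (-(5 / 6) : ℝ)) ≤ |y - -(σ * (l * T ^ (1 / 6 : ℝ) + mu / 3))| then
            T ^ (4 / 3 : ℝ) / (X * (y - -(σ * (l * T ^ (1 / 6 : ℝ) + mu / 3))) ^ 2)
            else T ^ (3 / 4 : ℝ) * |l| ^ (-(1 / 2) : ℝ)) := by
  obtain ⟨C1, hC1, hnear⟩ := osc_near D
  obtain ⟨C2, hC2, hfar⟩ := osc_far D
  refine ⟨C1 + C2, by positivity, ?_⟩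
  intro T X l mu y σ a hT hX1 hXT hl hσ ha
  have hT0 : 0 < T := by linarith
  have hX0 : 1 ≤ X := (Real.one_le_rpow hT (by norm_num)).trans hX1
  have hl0 : 0 < |l| := abs_pos.mpr hl
  have hσ1 : |σ| = 1 := by rcases hσ with h | h <;> rw [h] <;> norm_num
  have hσ2 : σ * σ = 1 := by rcases hσ with h | h <;> rw [h] <;> norm_num
  set c : ℝ := -(σ * (l * T ^ (1 / 6 : ℝ) + mu / 3)) with hc
  have hn := hnear T X l (mu + σ * (3 * y)) a hX0 hXT hl ha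
  have hP : 0 ≤ T ^ (3 / 4 : ℝ) * |l| ^ (-(1 / 2) : ℝ) := by positivity
  have hn' : ‖∫ x in T..(T + X), a x * e (ps l (mu + σ * (3 * y)) x)‖ ≤
      (C1 + C2) * (T ^ (3 / 4 : ℝ) * |l| ^ (-(1 / 2) : ℝ)) := by
    refine hn.trans ?_
    rw [mul_assoc]
    exact mul_le_mul_of_nonneg_right (by linarith) hP
  rw [mul_min_of_nonneg _ _ (by positivity)]
  refine le_min hn' ?_
  split_ifs with hcase
  · have hω : 0 < |l| * X * T ^ (-(5 / 6) : ℝ) := by positivity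
    have hΔ : 0 < |y - c| := by linarith
    have hf := hfar T X l (mu + σ * (3 * y)) |y - c| a hT hX1 hXT hΔ (by linarith) (by
      intro x hx
      have hx0 : 0 < x := lt_of_lt_of_le hT0 hx.1
      have h1 : 3 * l * x ^ (1 / 6 : ℝ) + (mu + σ * (3 * y)) =
          3 * (σ * (y - c)) + 3 * l * (x ^ (1 / 6 : ℝ) - T ^ (1 / 6 : ℝ)) := by
        rw [hc]
        linear_combination -(3 * (l * T ^ (1 / 6 : ℝ) + mu / 3)) * hσ2
      have h2 : |3 * (σ * (y - c))| = 3 * |y - c| := by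
        rw [abs_mul, abs_mul, hσ1, one_mul]
        norm_num
      have h3 : 0 ≤ x ^ (1 / 6 : ℝ) - T ^ (1 / 6 : ℝ) :=
        sub_nonneg.mpr (Real.rpow_le_rpow hT0.le hx.1 (by norm_num))
      have h4 : x ^ (1 / 6 : ℝ) - T ^ (1 / 6 : ℝ) ≤ 1 / 6 * (X * T ^ (-(5 / 6) : ℝ)) := by
        have h5 : (1 + (x / T - 1)) ^ (1 / 6 : ℝ) ≤ 1 + 1 / 6 * (x / T - 1) :=
          rpow_one_add_le_one_add_mul_self (by
            have : 0 ≤ x / T := (div_pos hx0 hT0).le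
            linarith) (by norm_num) (by norm_num)
        rw [show 1 + (x / T - 1) = x / T by ring, Real.div_rpow hx0.le hT0.le] at h5
        have h6 : 0 < T ^ (1 / 6 : ℝ) := Real.rpow_pos_of_pos hT0 _
        rw [div_le_iff₀ h6] at h5
        have h7 : T ^ (1 / 6 : ℝ) = T * T ^ (-(5 / 6) : ℝ) := by
          rw [← Real.rpow_one_add' hT0.le (by norm_num)]
          norm_num
        have h8 : (1 + 1 / 6 * (x / T - 1)) * T ^ (1 / 6 : ℝ) =
            T ^ (1 / 6 : ℝ) + 1 / 6 * ((x - T) * T ^ (-(5 / 6) : ℝ)) := by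
          have h9 : 1 / 6 * (x / T - 1) * T ^ (1 / 6 : ℝ) = 1 / 6 * ((x - T) * T ^ (-(5 / 6) : ℝ)) := by
            rw [h7]
            field_simp
          rw [add_mul, one_mul, h9]
        rw [h8] at h5
        have h10 : (x - T) * T ^ (-(5 / 6) : ℝ) ≤ X * T ^ (-(5 / 6) : ℝ) :=
          mul_le_mul_of_nonneg_right (by linarith [hx.2]) (Real.rpow_pos_of_pos hT0 _).le
        linarith
      have h5 : |3 * l * (x ^ (1 / 6 : ℝ) - T ^ (1 / 6 : ℝ))| ≤ 1 / 2 * (|l| * X * T ^ (-(5 / 6) : ℝ)) := by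
        rw [abs_mul, abs_mul, abs_of_nonneg h3, abs_of_pos (show (0 : ℝ) < 3 by norm_num)]
        have := mul_le_mul_of_nonneg_left h4 (show 0 ≤ 3 * |l| by positivity)
        linarith
      rw [h1]
      have h6 := abs_sub_abs_le_abs_sub (3 * (σ * (y - c)))
        (-(3 * l * (x ^ (1 / 6 : ℝ) - T ^ (1 / 6 : ℝ))))
      rw [abs_neg, sub_neg_eq_add (3 * (σ * (y - c))) (3 * l * (x ^ (1 / 6 : ℝ) - T ^ (1 / 6 : ℝ))),
        h2] at h6
      linarith) ha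
    rw [sq_abs] at hf
    refine hf.trans ?_
    rw [mul_div_assoc]
    refine mul_le_mul_of_nonneg_right (by linarith) ?_
    positivity
  · exact hn'

private theorem OS9_term {D : ℝ} {κ : ℝ} (hκ : 0 < κ) (d : Fin 4 → ℂ) : ∃ C : ℝ, 0 < C ∧
    ∀ (T X l mu : ℝ) (a : ℝ → ℂ) (m : ℕ), 1 ≤ T → T ^ (2 / 3 : ℝ) ≤ X → X ≤ T → l ≠ 0 →
    Am T X D a → 1 ≤ m →
    ‖∫ x in T..(T + X), (km κ d m x : ℂ) * (a x * e (ps l mu x))‖ ≤
      C * T ^ (1 / 3 : ℝ) * (m : ℝ) ^ (-(2 / 3) : ℝ) *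
      (min (T ^ (3 / 4 : ℝ) * |l| ^ (-(1 / 2) : ℝ))
          (if 2 * (|l| * X * T ^ (-(5 / 6) : ℝ)) ≤
              |(κ * m) ^ (1 / 3 : ℝ) - -(1 * (l * T ^ (1 / 6 : ℝ) + mu / 3))| then
            T ^ (4 / 3 : ℝ) / (X * ((κ * m) ^ (1 / 3 : ℝ) - -(1 * (l * T ^ (1 / 6 : ℝ) + mu / 3))) ^ 2)
            else T ^ (3 / 4 : ℝ) * |l| ^ (-(1 / 2) : ℝ)) +
      min (T ^ (3 / 4 : ℝ) * |l| ^ (-(1 / 2) : ℝ))
          (if 2 * (|l| * X * T ^ (-(5 / 6) : ℝ)) ≤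
              |(κ * m) ^ (1 / 3 : ℝ) - -(-1 * (l * T ^ (1 / 6 : ℝ) + mu / 3))| then
            T ^ (4 / 3 : ℝ) / (X * ((κ * m) ^ (1 / 3 : ℝ) - -(-1 * (l * T ^ (1 / 6 : ℝ) + mu / 3))) ^ 2)
            else T ^ (3 / 4 : ℝ) * |l| ^ (-(1 / 2) : ℝ))) := by
  have hA := fun i : Fin 4 => Am_rpow D ((1 - (i : ℝ)) / 3)
  choose D' hD' hAm using hA
  have hO := fun i : Fin 4 => OS9_one (D' i)
  choose E hE hEE using hO
  refine ⟨∑ i : Fin 4, ‖d i‖ * E i + 1, ?_, ?_⟩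
  · have : 0 ≤ ∑ i : Fin 4, ‖d i‖ * E i :=
      Finset.sum_nonneg fun i _ => mul_nonneg (norm_nonneg _) (hE i).le
    linarith
  intro T X l mu a m hT hX1 hXT hl ha hm
  have hT0 : 0 < T := by linarith
  have hX0 : 1 ≤ X := (Real.one_le_rpow hT (by norm_num)).trans hX1
  have hmr : (1 : ℝ) ≤ (m : ℝ) := by exact_mod_cast hm
  have hm0 : (0 : ℝ) < (m : ℝ) := by linarith
  rw [OS9_dec hT (by linarith) ha κ hκ d m l mu]
  set y : ℝ := (κ * m) ^ (1 / 3 : ℝ) with hy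
  set G1 : ℝ := min (T ^ (3 / 4 : ℝ) * |l| ^ (-(1 / 2) : ℝ))
          (if 2 * (|l| * X * T ^ (-(5 / 6) : ℝ)) ≤
              |y - -(1 * (l * T ^ (1 / 6 : ℝ) + mu / 3))| then
            T ^ (4 / 3 : ℝ) / (X * (y - -(1 * (l * T ^ (1 / 6 : ℝ) + mu / 3))) ^ 2)
            else T ^ (3 / 4 : ℝ) * |l| ^ (-(1 / 2) : ℝ)) with hG1
  set G2 : ℝ := min (T ^ (3 / 4 : ℝ) * |l| ^ (-(1 / 2) : ℝ))
          (if 2 * (|l| * X * T ^ (-(5 / 6) : ℝ)) ≤
              |y - -(-1 * (l * T ^ (1 / 6 : ℝ) + mu / 3))| then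
            T ^ (4 / 3 : ℝ) / (X * (y - -(-1 * (l * T ^ (1 / 6 : ℝ) + mu / 3))) ^ 2)
            else T ^ (3 / 4 : ℝ) * |l| ^ (-(1 / 2) : ℝ)) with hG2
  have hG10 : 0 ≤ G1 := by
    rw [hG1]
    refine le_min (by positivity) ?_
    split_ifs <;> positivity
  have hG20 : 0 ≤ G2 := by
    rw [hG2]
    refine le_min (by positivity) ?_
    split_ifs <;> positivity
  have hi : ∀ i : Fin 4, ‖((((m : ℝ) ^ (-((2 + (i : ℝ)) / 3)) * T ^ ((1 - (i : ℝ)) / 3) : ℝ) : ℂ) *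
        ((d i / 2) * (∫ x in T..(T + X), (((x / T) ^ ((1 - (i : ℝ)) / 3) : ℝ) : ℂ) * a x *
          e (ps l (mu + 3 * y) x)) +
        (conj (d i) / 2) * ∫ x in T..(T + X), (((x / T) ^ ((1 - (i : ℝ)) / 3) : ℝ) : ℂ) * a x *
          e (ps l (mu + -(3 * y)) x)))‖ ≤
      (‖d i‖ * E i) * (T ^ (1 / 3 : ℝ) * (m : ℝ) ^ (-(2 / 3) : ℝ) * (G1 + G2)) := by
    intro i
    have hi0 : (0 : ℝ) ≤ (i : ℝ) := Nat.cast_nonneg _
    have h1 := hEE i T X l mu y 1 _ hT hX1 hXT hl (Or.inl rfl) (hAm i T X a hX0 hXT ha)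
    have h2 := hEE i T X l mu y (-1) _ hT hX1 hXT hl (Or.inr rfl) (hAm i T X a hX0 hXT ha)
    rw [one_mul] at h1
    rw [neg_one_mul] at h2
    have h3 : (m : ℝ) ^ (-((2 + (i : ℝ)) / 3)) ≤ (m : ℝ) ^ (-(2 / 3) : ℝ) :=
      Real.rpow_le_rpow_of_exponent_le hmr (by linarith)
    have h4 : T ^ ((1 - (i : ℝ)) / 3) ≤ T ^ (1 / 3 : ℝ) :=
      Real.rpow_le_rpow_of_exponent_le hT (by linarith)
    have h5 : 0 ≤ (m : ℝ) ^ (-((2 + (i : ℝ)) / 3)) := (Real.rpow_pos_of_pos hm0 _).le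
    have h6 : 0 ≤ T ^ ((1 - (i : ℝ)) / 3) := (Real.rpow_pos_of_pos hT0 _).le
    rw [norm_mul, Complex.norm_real, Real.norm_of_nonneg (mul_nonneg h5 h6)]
    have h7 : (m : ℝ) ^ (-((2 + (i : ℝ)) / 3)) * T ^ ((1 - (i : ℝ)) / 3) ≤
        (m : ℝ) ^ (-(2 / 3) : ℝ) * T ^ (1 / 3 : ℝ) :=
      mul_le_mul h3 h4 h6 (Real.rpow_pos_of_pos hm0 _).le
    have h8 : ‖(d i / 2) * (∫ x in T..(T + X), (((x / T) ^ ((1 - (i : ℝ)) / 3) : ℝ) : ℂ) * a x *
          e (ps l (mu + 3 * y) x)) +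
        (conj (d i) / 2) * ∫ x in T..(T + X), (((x / T) ^ ((1 - (i : ℝ)) / 3) : ℝ) : ℂ) * a x *
          e (ps l (mu + -(3 * y)) x)‖ ≤ ‖d i‖ * E i * (G1 + G2) := by
      refine (norm_add_le _ _).trans ?_
      rw [norm_mul, norm_mul, norm_div, norm_div, Complex.norm_ofNat, RCLike.norm_conj]
      have h9 : ‖d i‖ / 2 * ‖∫ x in T..(T + X), (((x / T) ^ ((1 - (i : ℝ)) / 3) : ℝ) : ℂ) * a x *
          e (ps l (mu + 3 * y) x)‖ ≤ ‖d i‖ / 2 * (E i * G1) :=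
        mul_le_mul_of_nonneg_left h1 (by positivity)
      have h10 : ‖d i‖ / 2 * ‖∫ x in T..(T + X), (((x / T) ^ ((1 - (i : ℝ)) / 3) : ℝ) : ℂ) * a x *
          e (ps l (mu + -(3 * y)) x)‖ ≤ ‖d i‖ / 2 * (E i * G2) :=
        mul_le_mul_of_nonneg_left h2 (by positivity)
      have h11 : 0 ≤ ‖d i‖ * E i * (G1 + G2) :=
        mul_nonneg (mul_nonneg (norm_nonneg _) (hE i).le) (add_nonneg hG10 hG20)
      linarith
    calc _ ≤ ((m : ℝ) ^ (-(2 / 3) : ℝ) * T ^ (1 / 3 : ℝ)) * (‖d i‖ * E i * (G1 + G2)) :=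
          mul_le_mul h7 h8 (norm_nonneg _) (by positivity)
      _ = _ := by ring
  refine (norm_sum_le _ _).trans ((Finset.sum_le_sum fun i _ => hi i).trans ?_)
  rw [← Finset.sum_mul]
  have h12 : 0 ≤ T ^ (1 / 3 : ℝ) * (m : ℝ) ^ (-(2 / 3) : ℝ) * (G1 + G2) := by positivity
  calc (∑ i : Fin 4, ‖d i‖ * E i) * (T ^ (1 / 3 : ℝ) * (m : ℝ) ^ (-(2 / 3) : ℝ) * (G1 + G2)) ≤
        (∑ i : Fin 4, ‖d i‖ * E i + 1) * (T ^ (1 / 3 : ℝ) * (m : ℝ) ^ (-(2 / 3) : ℝ) * (G1 + G2)) :=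
      mul_le_mul_of_nonneg_right (by linarith) h12
    _ = _ := by ring

private theorem OS9_km_zero (κ : ℝ) (d : Fin 4 → ℂ) (x : ℝ) : km κ d 0 x = 0 := by
  unfold km
  refine Finset.sum_eq_zero fun i _ => ?_
  have hi0 : (0 : ℝ) ≤ (i : ℝ) := Nat.cast_nonneg _
  rw [Nat.cast_zero, Real.zero_rpow (by linarith [show 0 < (2 + (i : ℝ)) / 3 by positivity]), zero_mul,
    zero_mul]

/-- **OS9.** The sum over `m` for one `(λ, κ')`, `λ ≠ 0`: `∑ |b(m)| |∫ k_m a e(ps)|`, by OS4, OS5,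
OS7 with `μ = κ' ± 3(κm)^{1/3}` (the conjugate in `Re`), `c = ∓(λT^{1/6} + κ'/3)`. -/
theorem series_osc (h : RealSelberg b L 3) (hκ : 0 < κ) (d : Fin 4 → ℂ) {l0 B0 D ε ξ : ℝ}
    (hl0 : 0 < l0) (hB0 : 0 ≤ B0) (hε : 0 < ε) (hξ : 0 < ξ) (hξ' : ξ < 1 / 6) :
    ∃ C T0 : ℝ, 0 < C ∧ 1 ≤ T0 ∧ ∀ (T l mu : ℝ) (a : ℝ → ℂ), T0 ≤ T → l0 ≤ |l| → |l| ≤ T →
      |mu| ≤ B0 → Am T (T ^ (1 - ξ)) D a →
      ∑' m : ℕ, ‖(b m : ℂ) * ∫ x in T..(T + T ^ (1 - ξ)), (km κ d m x : ℂ) *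
        (a x * e (ps l mu x))‖ ≤ C * |l| ^ (1 / 2 : ℝ) * T ^ (1 / 3 + (1 - ξ) - 1 / 12 + ε) := by
  set ε' : ℝ := min ε 1 with hε'
  have hε'0 : 0 < ε' := lt_min hε one_pos
  have hε'1 : ε' ≤ 1 := min_le_right _ _
  obtain ⟨C7, T7, hC7, hT7, hcs⟩ := count_sum (κ := κ) (l0 := l0) (c1 := 1 / 2) (c2 := 3 / 2) hκ hl0
    (by norm_num) (by norm_num) hε'0 hε'1 hξ hξ'.le
  obtain ⟨Cb, hCb⟩ := h.ramanujan (ε' / 10) (by positivity)
  obtain ⟨Ct, hCt, hterm⟩ := OS9_term (D := D) hκ d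
  have hCb0 : 0 ≤ Cb := by
    have := hCb 1 le_rfl
    rw [Nat.cast_one, Real.one_rpow, mul_one] at this
    exact (abs_nonneg _).trans this
  obtain ⟨T1, hT1⟩ : ∃ T1 : ℝ, 1 ≤ T1 ∧ ∀ T, T1 ≤ T → 2 * B0 / 3 ≤ l0 * T ^ (1 / 6 : ℝ) := by
    refine ⟨max 1 ((2 * B0 / (3 * l0)) ^ (6 : ℝ)), le_max_left _ _, fun T hT => ?_⟩
    have hT1 : 1 ≤ T := (le_max_left _ _).trans hT
    have h2 : (2 * B0 / (3 * l0)) ^ (6 : ℝ) ≤ T := (le_max_right _ _).trans hT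
    have h3 : 0 ≤ 2 * B0 / (3 * l0) := by positivity
    have h4 : 2 * B0 / (3 * l0) ≤ T ^ (1 / 6 : ℝ) := by
      have h5 := Real.rpow_le_rpow (by positivity) h2 (show (0 : ℝ) ≤ 1 / 6 by norm_num)
      rwa [← Real.rpow_mul h3, show (6 : ℝ) * (1 / 6) = 1 by norm_num, Real.rpow_one] at h5
    rw [div_le_iff₀ (by positivity)] at h4
    linarith
  refine ⟨2 * (Cb + 1) * Ct * C7, max T7 T1, by positivity, hT7.trans (le_max_left _ _), ?_⟩
  intro T l mu a hT hl hlT hmu ha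
  have hTT7 : T7 ≤ T := (le_max_left _ _).trans hT
  have hTT1 : T1 ≤ T := (le_max_right _ _).trans hT
  have hT1' : 1 ≤ T := hT7.trans hTT7
  have hT0 : 0 < T := by linarith
  have hlpos : 0 < |l| := lt_of_lt_of_le hl0 hl
  have hlne : l ≠ 0 := abs_pos.mp hlpos
  have hX1 : T ^ (2 / 3 : ℝ) ≤ T ^ (1 - ξ) := Real.rpow_le_rpow_of_exponent_le hT1' (by linarith)
  have hXT : T ^ (1 - ξ) ≤ T := by
    have := Real.rpow_le_rpow_of_exponent_le hT1' (show 1 - ξ ≤ 1 by linarith)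
    rwa [Real.rpow_one] at this
  have hT6 : 0 < T ^ (1 / 6 : ℝ) := Real.rpow_pos_of_pos hT0 _
  -- the size of `c`
  have hcc : ∀ σ : ℝ, (σ = 1 ∨ σ = -1) → 1 / 2 * |l| * T ^ (1 / 6 : ℝ) ≤
      |-(σ * (l * T ^ (1 / 6 : ℝ) + mu / 3))| ∧ |-(σ * (l * T ^ (1 / 6 : ℝ) + mu / 3))| ≤
        3 / 2 * |l| * T ^ (1 / 6 : ℝ) := by
    intro σ hσ
    have hσ1 : |σ| = 1 := by rcases hσ with h | h <;> rw [h] <;> norm_num
    rw [abs_neg, abs_mul, hσ1, one_mul]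
    have h1 : |l * T ^ (1 / 6 : ℝ)| = |l| * T ^ (1 / 6 : ℝ) := by rw [abs_mul, abs_of_pos hT6]
    have h2 : |mu / 3| ≤ B0 / 3 := by
      rw [abs_div, abs_of_pos (show (0 : ℝ) < 3 by norm_num)]
      linarith
    have h3 := hT1.2 T hTT1
    have h4 : l0 * T ^ (1 / 6 : ℝ) ≤ |l| * T ^ (1 / 6 : ℝ) := mul_le_mul_of_nonneg_right hl hT6.le
    have h5 := abs_add_le (l * T ^ (1 / 6 : ℝ)) (mu / 3)
    have h6 := abs_sub_abs_le_abs_sub (l * T ^ (1 / 6 : ℝ)) (-(mu / 3))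
    rw [abs_neg, sub_neg_eq_add] at h6
    rw [h1] at h5 h6
    constructor <;> linarith
  obtain ⟨hs1, ht1⟩ := hcs T |l| (-(1 * (l * T ^ (1 / 6 : ℝ) + mu / 3))) hTT7 hl hlT
    (hcc 1 (Or.inl rfl)).1 (hcc 1 (Or.inl rfl)).2
  obtain ⟨hs2, ht2⟩ := hcs T |l| (-(-1 * (l * T ^ (1 / 6 : ℝ) + mu / 3))) hTT7 hl hlT
    (hcc (-1) (Or.inr rfl)).1 (hcc (-1) (Or.inr rfl)).2
  set H1 : ℕ → ℝ := fun m => (m : ℝ) ^ (-(2 / 3) + ε' / 10) *
        min (T ^ (3 / 4 : ℝ) * |l| ^ (-(1 / 2) : ℝ))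
          (if 2 * (|l| * T ^ (1 - ξ) * T ^ (-(5 / 6) : ℝ)) ≤
            |(κ * m) ^ (1 / 3 : ℝ) - -(1 * (l * T ^ (1 / 6 : ℝ) + mu / 3))| then
            T ^ (4 / 3 : ℝ) / (T ^ (1 - ξ) * ((κ * m) ^ (1 / 3 : ℝ) -
              -(1 * (l * T ^ (1 / 6 : ℝ) + mu / 3))) ^ 2)
            else T ^ (3 / 4 : ℝ) * |l| ^ (-(1 / 2) : ℝ)) with hH1
  set H2 : ℕ → ℝ := fun m => (m : ℝ) ^ (-(2 / 3) + ε' / 10) *
        min (T ^ (3 / 4 : ℝ) * |l| ^ (-(1 / 2) : ℝ))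
          (if 2 * (|l| * T ^ (1 - ξ) * T ^ (-(5 / 6) : ℝ)) ≤
            |(κ * m) ^ (1 / 3 : ℝ) - -(-1 * (l * T ^ (1 / 6 : ℝ) + mu / 3))| then
            T ^ (4 / 3 : ℝ) / (T ^ (1 - ξ) * ((κ * m) ^ (1 / 3 : ℝ) -
              -(-1 * (l * T ^ (1 / 6 : ℝ) + mu / 3))) ^ 2)
            else T ^ (3 / 4 : ℝ) * |l| ^ (-(1 / 2) : ℝ)) with hH2
  have hmin0 : ∀ (P Q : ℝ), 0 ≤ P → 0 ≤ Q → 0 ≤ min P Q := fun P Q hP hQ => le_min hP hQ
  have hH10 : ∀ m, 0 ≤ H1 m := by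
    intro m
    simp only [hH1]
    refine mul_nonneg (Real.rpow_nonneg (Nat.cast_nonneg _) _) (hmin0 _ _ (by positivity) ?_)
    split_ifs <;> positivity
  have hH20 : ∀ m, 0 ≤ H2 m := by
    intro m
    simp only [hH2]
    refine mul_nonneg (Real.rpow_nonneg (Nat.cast_nonneg _) _) (hmin0 _ _ (by positivity) ?_)
    split_ifs <;> positivity
  set K : ℝ := (Cb + 1) * Ct * T ^ (1 / 3 : ℝ) with hK
  have hK0 : 0 < K := by positivity
  have hbound : ∀ m : ℕ, ‖(b m : ℂ) * ∫ x in T..(T + T ^ (1 - ξ)), (km κ d m x : ℂ) *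
        (a x * e (ps l mu x))‖ ≤ K * (H1 m + H2 m) := by
    intro m
    rcases Nat.eq_zero_or_pos m with hm | hm
    · rw [hm]
      have h1 : (∫ x in T..(T + T ^ (1 - ξ)), (km κ d 0 x : ℂ) * (a x * e (ps l mu x))) = 0 := by
        simp only [OS9_km_zero, Complex.ofReal_zero, zero_mul, intervalIntegral.integral_zero]
      rw [h1, mul_zero, norm_zero]
      exact mul_nonneg hK0.le (add_nonneg (hH10 0) (hH20 0))
    · have hmr : (0 : ℝ) < (m : ℝ) := by exact_mod_cast hm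
      have h1 := hterm T (T ^ (1 - ξ)) l mu a m hT1' hX1 hXT hlne ha hm
      have h2 := hCb m hm
      rw [norm_mul, Complex.norm_real, Real.norm_eq_abs]
      have h3 : (m : ℝ) ^ (-(2 / 3) + ε' / 10) = (m : ℝ) ^ (-(2 / 3) : ℝ) * (m : ℝ) ^ (ε' / 10) :=
        Real.rpow_add hmr _ _
      refine (mul_le_mul h2 h1 (norm_nonneg _) (by positivity)).trans ?_
      have h4 : H1 m + H2 m = (m : ℝ) ^ (-(2 / 3) : ℝ) * (m : ℝ) ^ (ε' / 10) *
        (min (T ^ (3 / 4 : ℝ) * |l| ^ (-(1 / 2) : ℝ))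
          (if 2 * (|l| * T ^ (1 - ξ) * T ^ (-(5 / 6) : ℝ)) ≤
            |(κ * m) ^ (1 / 3 : ℝ) - -(1 * (l * T ^ (1 / 6 : ℝ) + mu / 3))| then
            T ^ (4 / 3 : ℝ) / (T ^ (1 - ξ) * ((κ * m) ^ (1 / 3 : ℝ) -
              -(1 * (l * T ^ (1 / 6 : ℝ) + mu / 3))) ^ 2)
            else T ^ (3 / 4 : ℝ) * |l| ^ (-(1 / 2) : ℝ)) +
        min (T ^ (3 / 4 : ℝ) * |l| ^ (-(1 / 2) : ℝ))
          (if 2 * (|l| * T ^ (1 - ξ) * T ^ (-(5 / 6) : ℝ)) ≤
            |(κ * m) ^ (1 / 3 : ℝ) - -(-1 * (l * T ^ (1 / 6 : ℝ) + mu / 3))| then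
            T ^ (4 / 3 : ℝ) / (T ^ (1 - ξ) * ((κ * m) ^ (1 / 3 : ℝ) -
              -(-1 * (l * T ^ (1 / 6 : ℝ) + mu / 3))) ^ 2)
            else T ^ (3 / 4 : ℝ) * |l| ^ (-(1 / 2) : ℝ))) := by
        simp only [hH1, hH2]
        rw [h3]
        ring
      have h5 : Cb * (Ct * T ^ (1 / 3 : ℝ) * (H1 m + H2 m)) ≤ K * (H1 m + H2 m) := by
        rw [hK]
        have h6 : 0 ≤ Ct * T ^ (1 / 3 : ℝ) * (H1 m + H2 m) :=
          mul_nonneg (by positivity) (add_nonneg (hH10 m) (hH20 m))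
        calc Cb * (Ct * T ^ (1 / 3 : ℝ) * (H1 m + H2 m)) ≤
              (Cb + 1) * (Ct * T ^ (1 / 3 : ℝ) * (H1 m + H2 m)) :=
            mul_le_mul_of_nonneg_right (by linarith) h6
          _ = _ := by ring
      refine le_trans (le_of_eq ?_) h5
      rw [h4]
      ring
  have hsum : Summable fun m => K * (H1 m + H2 m) := (hs1.add hs2).mul_left K
  have hsum' : Summable fun m : ℕ => ‖(b m : ℂ) * ∫ x in T..(T + T ^ (1 - ξ)), (km κ d m x : ℂ) *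
        (a x * e (ps l mu x))‖ :=
    Summable.of_nonneg_of_le (fun m => norm_nonneg _) hbound hsum
  refine (hsum'.tsum_le_tsum hbound hsum).trans ?_
  rw [tsum_mul_left, hs1.tsum_add hs2]
  have hl2 : 0 ≤ |l| ^ (1 / 2 : ℝ) := Real.rpow_nonneg hlpos.le _
  have hTe : T ^ (1 / 3 : ℝ) * T ^ (1 - ξ - 1 / 12 + ε') ≤ T ^ (1 / 3 + (1 - ξ) - 1 / 12 + ε) := by
    rw [← Real.rpow_add hT0]
    refine Real.rpow_le_rpow_of_exponent_le hT1' ?_
    have : ε' ≤ ε := min_le_left _ _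
    linarith
  calc K * (∑' m, H1 m + ∑' m, H2 m) ≤
        K * (2 * (C7 * |l| ^ (1 / 2 : ℝ) * T ^ (1 - ξ - 1 / 12 + ε'))) :=
      mul_le_mul_of_nonneg_left (by linarith) hK0.le
    _ = (2 * (Cb + 1) * Ct * C7) * |l| ^ (1 / 2 : ℝ) * (T ^ (1 / 3 : ℝ) * T ^ (1 - ξ - 1 / 12 + ε')) := by
        rw [hK]
        ring
    _ ≤ _ := mul_le_mul_of_nonneg_left hTe (by positivity)
--END OS9

--BEGIN OS10
private theorem OS10_norm_e (x : ℝ) : ‖e x‖ = 1 := by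
  unfold e
  rw [show (2 * π * I * x : ℂ) = ((2 * π * x : ℝ) : ℂ) * I by push_cast; ring]
  exact Complex.norm_exp_ofReal_mul_I _

private theorem OS10_S (hw : Wk b L κ C0 c d S) {T X l mu D : ℝ} {a : ℝ → ℂ} (hT : 1 ≤ T)
    (hX : 0 ≤ X) (ha : Am T X D a) :
    ‖∫ x in T..(T + X), (S x : ℂ) * (a x * e (ps l mu x))‖ ≤ C0 * |D| * X := by
  have h1 := intervalIntegral.norm_integral_le_of_norm_le_const (a := T) (b := T + X)
    (f := fun x => (S x : ℂ) * (a x * e (ps l mu x))) (C := C0 * |D|) (by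
      intro x hx
      rw [uIoc_of_le (by linarith)] at hx
      rw [norm_mul, norm_mul, OS10_norm_e, mul_one, Complex.norm_real, Real.norm_eq_abs]
      exact mul_le_mul (hw.sb x (by linarith [hx.1])) ((ha.b0 x).trans (le_abs_self D))
        (norm_nonneg _) hw.cpos.le)
  rwa [add_sub_cancel_left, abs_of_nonneg hX] at h1

private theorem OS10_F2 {T X l mu C8 : ℝ} {a : ℝ → ℂ} (hX : 0 ≤ X)
    (h8 : ∀ x : ℝ, ‖deriv (deriv (fun x => a x * e (ps l mu x))) x‖ ≤ C8 * (1 + |l|) ^ 2 / T) :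
    ∫ x in T..(T + X), ‖deriv (deriv (fun x => a x * e (ps l mu x))) x‖ ≤
      C8 * (1 + |l|) ^ 2 / T * X := by
  have h1 := intervalIntegral.norm_integral_le_of_norm_le_const (a := T) (b := T + X)
    (f := fun x => ‖deriv (deriv (fun x => a x * e (ps l mu x))) x‖)
    (C := C8 * (1 + |l|) ^ 2 / T) (by
      intro x _
      rw [norm_norm]
      exact h8 x)
  rw [add_sub_cancel_left, abs_of_nonneg hX] at h1
  exact (Real.le_norm_self _).trans h1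

/-- **OS10.** `∫ E_g(x) a(x) e(2λ√x + κ'x^{1/3}) dx`, `λ ≠ 0` (`Wk.main`, OS8, OS9). -/
theorem osc_Eg (h : RealSelberg b L 3) (hw : Wk b L κ C0 c d S) {l0 B0 D ε ξ : ℝ}
    (hl0 : 0 < l0) (hB0 : 0 ≤ B0) (hε : 0 < ε) (hξ : 0 < ξ) (hξ' : ξ < 1 / 6) :
    ∃ C T0 : ℝ, 0 < C ∧ 1 ≤ T0 ∧ ∀ (T l mu : ℝ) (a : ℝ → ℂ), T0 ≤ T → l0 ≤ |l| →
      |l| ≤ T ^ (1 / 8 : ℝ) → |mu| ≤ B0 → Am T (T ^ (1 - ξ)) D a →
      ‖∫ x in T..(T + T ^ (1 - ξ)), (errTerm b L x : ℂ) * (a x * e (ps l mu x))‖ ≤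
        C * |l| ^ (1 / 2 : ℝ) * T ^ ((1 - ξ) + 1 / 4 + ε) := by
  obtain ⟨C8, hC8, h8⟩ := amp_deriv2 (D := D) (B0 := B0) hB0
  obtain ⟨C9, T9, hC9, hT9, h9⟩ := series_osc h hw.kpos d (D := D) hl0 hB0 hε hξ hξ'
  obtain ⟨Cm, hCm, hm⟩ := hw.main ε hε
  have hC0 := hw.cpos
  have hl0s : 0 < l0 ^ (1 / 2 : ℝ) := Real.rpow_pos_of_pos hl0 _
  refine ⟨C9 + (C0 * |D| / l0 ^ (1 / 2 : ℝ)) +
    Cm * 2 ^ (1 + ε) * C8 * (1 + 1 / l0) ^ 2, T9, ?_, hT9, ?_⟩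
  · have h1 : 0 ≤ C0 * |D| / l0 ^ (1 / 2 : ℝ) := by positivity
    have h2 : 0 ≤ Cm * 2 ^ (1 + ε) * C8 * (1 + 1 / l0) ^ 2 := by positivity
    linarith
  intro T l mu a hTT hl hl8 hmu ha
  have hT : 1 ≤ T := hT9.trans hTT
  have hT0 : 0 < T := by linarith
  set X : ℝ := T ^ (1 - ξ) with hX
  have hX0 : 0 < X := Real.rpow_pos_of_pos hT0 _
  have hX1 : T ^ (1 / 2 : ℝ) ≤ X := Real.rpow_le_rpow_of_exponent_le hT (by linarith)
  have hXT : X ≤ T := by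
    have := Real.rpow_le_rpow_of_exponent_le hT (show 1 - ξ ≤ 1 by linarith)
    rwa [Real.rpow_one] at this
  have hlpos : 0 < |l| := lt_of_lt_of_le hl0 hl
  have hlT : |l| ≤ T := by
    refine hl8.trans ?_
    have := Real.rpow_le_rpow_of_exponent_le hT (show (1 / 8 : ℝ) ≤ 1 by norm_num)
    rwa [Real.rpow_one] at this
  obtain ⟨hsm, hd2⟩ := h8 T X l mu a hT hX1 hXT hmu ha
  have h9' := h9 T l mu a hTT hl hlT hmu ha
  obtain ⟨hsum, hmain⟩ := hm T (T + X) (fun x => a x * e (ps l mu x)) hT (by linarith) hsm (by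
    intro x hx
    rw [ha.supp x hx, zero_mul])
  set Λ : ℝ := |l| ^ (1 / 2 : ℝ) with hΛ
  have hΛ0 : 0 < Λ := Real.rpow_pos_of_pos hlpos _
  set R : ℝ := T ^ ((1 - ξ) + 1 / 4 + ε) with hR
  have hR0 : 0 < R := Real.rpow_pos_of_pos hT0 _
  have hRX : X ≤ R := Real.rpow_le_rpow_of_exponent_le hT (by linarith)
  -- the series
  have h1 : ‖∑' m : ℕ, (b m : ℂ) * ∫ x in T..(T + X), (km κ d m x : ℂ) *
      (a x * e (ps l mu x))‖ ≤ C9 * Λ * R := by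
    refine (norm_tsum_le_tsum_norm hsum).trans (h9'.trans (le_of_eq ?_))
    rw [hR]
    congr 2
    ring
  -- the bounded part
  have h2 : ‖∫ x in T..(T + X), (S x : ℂ) * (a x * e (ps l mu x))‖ ≤
      (C0 * |D| / l0 ^ (1 / 2 : ℝ)) * Λ * R := by
    refine (OS10_S hw hT hX0.le ha).trans ?_
    have h3 : l0 ^ (1 / 2 : ℝ) ≤ Λ := Real.rpow_le_rpow hl0.le hl (by norm_num)
    have h4 : 1 ≤ Λ / l0 ^ (1 / 2 : ℝ) := (one_le_div hl0s).mpr h3
    have h5 : 0 ≤ C0 * |D| := by positivity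
    calc C0 * |D| * X ≤ C0 * |D| * R := mul_le_mul_of_nonneg_left hRX h5
      _ = C0 * |D| * R * 1 := by ring
      _ ≤ C0 * |D| * R * (Λ / l0 ^ (1 / 2 : ℝ)) := mul_le_mul_of_nonneg_left h4 (by positivity)
      _ = _ := by ring
  -- the error term
  have h3 : Cm * (T + X) ^ (1 + ε) * ∫ x in T..(T + X),
      ‖deriv (deriv (fun x => a x * e (ps l mu x))) x‖ ≤
      (Cm * 2 ^ (1 + ε) * C8 * (1 + 1 / l0) ^ 2) * Λ * R := by
    have h4 := OS10_F2 hX0.le hd2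
    have h5 : (T + X) ^ (1 + ε) ≤ 2 ^ (1 + ε) * (T * T ^ ε) := by
      have h6 : (T + X) ^ (1 + ε) ≤ (2 * T) ^ (1 + ε) :=
        Real.rpow_le_rpow (by linarith) (by linarith) (by linarith)
      rwa [Real.mul_rpow zero_le_two hT0.le, Real.rpow_add hT0 1 ε, Real.rpow_one] at h6
    have h6 : (1 + |l|) ^ 2 ≤ (1 + 1 / l0) ^ 2 * (Λ * T ^ (1 / 4 : ℝ)) := by
      have h7 : 1 + |l| ≤ (1 + 1 / l0) * |l| := by
        have h8 : 1 ≤ |l| / l0 := (one_le_div hl0).mpr hl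
        have h9 : (1 + 1 / l0) * |l| = |l| + |l| / l0 := by ring
        rw [h9]
        linarith
      have h8 : (1 + |l|) ^ 2 ≤ ((1 + 1 / l0) * |l|) ^ 2 := pow_le_pow_left₀ (by positivity) h7 2
      rw [mul_pow] at h8
      refine h8.trans (mul_le_mul_of_nonneg_left ?_ (by positivity))
      have h9 : |l| ^ 2 = Λ * |l| ^ (3 / 2 : ℝ) := by
        rw [hΛ, ← Real.rpow_add hlpos, ← Real.rpow_natCast]
        norm_num
      rw [h9]
      refine mul_le_mul_of_nonneg_left ?_ hΛ0.le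
      have h10 : |l| ^ (3 / 2 : ℝ) ≤ (T ^ (1 / 8 : ℝ)) ^ (3 / 2 : ℝ) :=
        Real.rpow_le_rpow hlpos.le hl8 (by norm_num)
      rw [← Real.rpow_mul hT0.le] at h10
      exact h10.trans (Real.rpow_le_rpow_of_exponent_le hT (by norm_num))
    have h7 : T ^ ε * (T ^ (1 / 4 : ℝ) * X) = R := by
      rw [hX, hR, ← Real.rpow_add hT0, ← Real.rpow_add hT0]
      congr 1
      ring
    have h8' : 0 ≤ ∫ x in T..(T + X), ‖deriv (deriv (fun x => a x * e (ps l mu x))) x‖ :=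
      intervalIntegral.integral_nonneg (by linarith) fun x _ => norm_nonneg _
    calc Cm * (T + X) ^ (1 + ε) * ∫ x in T..(T + X),
          ‖deriv (deriv (fun x => a x * e (ps l mu x))) x‖ ≤
          Cm * (2 ^ (1 + ε) * (T * T ^ ε)) * (C8 * (1 + |l|) ^ 2 / T * X) :=
        mul_le_mul (mul_le_mul_of_nonneg_left h5 hCm.le) h4 h8' (by positivity)
      _ = Cm * 2 ^ (1 + ε) * C8 * T ^ ε * X * (1 + |l|) ^ 2 := by
        field_simp
      _ ≤ Cm * 2 ^ (1 + ε) * C8 * T ^ ε * X * ((1 + 1 / l0) ^ 2 * (Λ * T ^ (1 / 4 : ℝ))) :=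
        mul_le_mul_of_nonneg_left h6 (by positivity)
      _ = (Cm * 2 ^ (1 + ε) * C8 * (1 + 1 / l0) ^ 2) * Λ * (T ^ ε * (T ^ (1 / 4 : ℝ) * X)) := by ring
      _ = _ := by rw [h7]
  set IE := ∫ x in T..(T + X), (errTerm b L x : ℂ) * (a x * e (ps l mu x)) with hIE
  set IS := ∫ x in T..(T + X), (S x : ℂ) * (a x * e (ps l mu x)) with hIS
  set Sm := ∑' m : ℕ, (b m : ℂ) * ∫ x in T..(T + X), (km κ d m x : ℂ) *
      (a x * e (ps l mu x)) with hSm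
  have h4 : IE = (IE - IS - Sm) + IS + Sm := by ring
  rw [h4]
  refine (norm_add_le _ _).trans ?_
  have h5 := norm_add_le (IE - IS - Sm) IS
  have h6 : ‖IE - IS - Sm‖ ≤ (Cm * 2 ^ (1 + ε) * C8 * (1 + 1 / l0) ^ 2) * Λ * R := hmain.trans h3
  have h7 : (C9 + (C0 * |D| / l0 ^ (1 / 2 : ℝ)) +
    Cm * 2 ^ (1 + ε) * C8 * (1 + 1 / l0) ^ 2) * Λ * R = C9 * Λ * R +
    (C0 * |D| / l0 ^ (1 / 2 : ℝ)) * Λ * R + (Cm * 2 ^ (1 + ε) * C8 * (1 + 1 / l0) ^ 2) * Λ * R := by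
    ring
  rw [h7]
  linarith
--END OS10

--BEGIN OS11
private theorem OS11_int (D : ℝ) : ∃ E : ℝ, 0 < E ∧ ∀ (T X mu : ℝ) (a : ℝ → ℂ), 1 ≤ T →
    T ^ (2 / 3 : ℝ) ≤ X → X ≤ T → Am T X D a →
    (mu ≠ 0 → ‖∫ x in T..(T + X), a x * e (ps 0 mu x)‖ ≤ E * (T ^ (4 / 3 : ℝ) / (X * mu ^ 2))) ∧
    ‖∫ x in T..(T + X), a x * e (ps 0 mu x)‖ ≤ E * X := by
  obtain ⟨C, hC, hfar⟩ := osc_far D
  refine ⟨C + |D|, by positivity, ?_⟩
  intro T X mu a hT hX1 hXT ha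
  have hT0 : 0 < T := by linarith
  have hX0 : 0 < X := lt_of_lt_of_le (Real.rpow_pos_of_pos hT0 _) hX1
  constructor
  · intro hmu
    have h1 := hfar T X 0 mu |mu| a hT hX1 hXT (abs_pos.mpr hmu) (by
      rw [abs_zero, zero_mul, zero_mul]
      exact abs_nonneg mu) (by
      intro x _
      rw [mul_zero, zero_mul, zero_add]) ha
    rw [sq_abs, mul_div_assoc] at h1
    refine h1.trans (mul_le_mul_of_nonneg_right (by linarith [abs_nonneg D]) (by positivity))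
  · have h1 := intervalIntegral.norm_integral_le_of_norm_le_const (a := T) (b := T + X)
      (f := fun x => a x * e (ps 0 mu x)) (C := |D|) (by
        intro x _
        rw [norm_mul, OS10_norm_e, mul_one]
        exact (ha.b0 x).trans (le_abs_self D))
    rw [add_sub_cancel_left, abs_of_pos hX0] at h1
    exact h1.trans (mul_le_mul_of_nonneg_right (by linarith) hX0.le)

private theorem OS11_e_zero (x : ℝ) : e (ps 0 0 x) = 1 := by
  unfold e ps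
  simp

private theorem OS11_mu {κ : ℝ} (hκ : 0 < κ) (s : ℤ) (hs : |s| ≤ 1) (σ : ℝ) (hσ : |σ| = 1) (m : ℕ)
    (hm : 2 ≤ m) : (3 / 5 * κ ^ (1 / 3 : ℝ)) ^ 2 * (m : ℝ) ^ (2 / 3 : ℝ) ≤
      (3 * s * κ ^ (1 / 3 : ℝ) + σ * (3 * (κ * m) ^ (1 / 3 : ℝ))) ^ 2 ∧
      3 * s * κ ^ (1 / 3 : ℝ) + σ * (3 * (κ * m) ^ (1 / 3 : ℝ)) ≠ 0 := by
  have hmr : (2 : ℝ) ≤ (m : ℝ) := by exact_mod_cast hm
  have hm0 : (0 : ℝ) < (m : ℝ) := by linarith
  set k : ℝ := κ ^ (1 / 3 : ℝ) with hk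
  have hk0 : 0 < k := Real.rpow_pos_of_pos hκ _
  set u : ℝ := (m : ℝ) ^ (1 / 3 : ℝ) with hu
  have hu0 : 0 < u := Real.rpow_pos_of_pos hm0 _
  have h1 : (κ * m) ^ (1 / 3 : ℝ) = k * u := Real.mul_rpow hκ.le hm0.le
  have h2 : (m : ℝ) ^ (2 / 3 : ℝ) = u ^ 2 := by
    rw [hu, ← Real.rpow_natCast, ← Real.rpow_mul hm0.le]
    norm_num
  have h3 : 5 / 4 ≤ u := by
    have h4 : u ^ 3 = m := by
      rw [hu, ← Real.rpow_natCast, ← Real.rpow_mul hm0.le]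
      norm_num
    by_contra hlt
    push Not at hlt
    have h5 : u ^ 3 < (5 / 4) ^ 3 := pow_lt_pow_left₀ hlt hu0.le (by norm_num)
    rw [h4] at h5
    norm_num at h5
    linarith
  have hsr : |(s : ℝ)| ≤ 1 := by exact_mod_cast hs
  rw [h1, h2]
  have h4 : 3 / 5 * k * u ≤ |3 * s * k + σ * (3 * (k * u))| := by
    have h5 := abs_sub_abs_le_abs_sub (σ * (3 * (k * u))) (-(3 * s * k))
    rw [abs_neg, sub_neg_eq_add, add_comm (σ * (3 * (k * u)))] at h5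
    have h6 : |σ * (3 * (k * u))| = 3 * (k * u) := by
      rw [abs_mul, hσ, one_mul, abs_of_pos (by positivity)]
    have h7 : |3 * (s : ℝ) * k| ≤ 3 * k := by
      rw [abs_mul, abs_mul, abs_of_pos hk0, abs_of_pos (show (0 : ℝ) < 3 by norm_num)]
      have := mul_le_mul_of_nonneg_left hsr (show (0 : ℝ) ≤ 3 * k by positivity)
      linarith
    rw [h6] at h5
    have h8 : k ≤ 4 / 5 * (k * u) := by
      have := mul_le_mul_of_nonneg_left h3 hk0.le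
      linarith
    linarith
  have h5 : 0 < 3 / 5 * k * u := by positivity
  constructor
  · have h6 := pow_le_pow_left₀ h5.le h4 2
    rw [sq_abs] at h6
    calc (3 / 5 * k) ^ 2 * u ^ 2 = (3 / 5 * k * u) ^ 2 := by ring
      _ ≤ _ := h6
  · intro h6
    rw [h6, abs_zero] at h4
    linarith

private theorem OS11_series (h : RealSelberg b L 3) {κ : ℝ} (hκ : 0 < κ) (d : Fin 4 → ℂ) (D : ℝ) :
    ∃ C : ℝ, 0 < C ∧ ∀ (T X : ℝ) (a : ℝ → ℂ) (s : ℤ), 1 ≤ T → T ^ (2 / 3 : ℝ) ≤ X → X ≤ T →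
      |s| ≤ 1 → Am T X D a →
      Summable (fun m : ℕ => (b m : ℂ) * ∫ x in T..(T + X), (km κ d m x : ℂ) *
          (a x * e (ps 0 (3 * s * κ ^ (1 / 3 : ℝ)) x))) →
      ‖(∑' m : ℕ, (b m : ℂ) * ∫ x in T..(T + X), (km κ d m x : ℂ) *
          (a x * e (ps 0 (3 * s * κ ^ (1 / 3 : ℝ)) x))) -
        (if s = -1 then d 0 / 2 else if s = 1 then conj (d 0) / 2 else 0) *
          ∫ x in T..(T + X), ((x ^ (1 / 3 : ℝ) : ℝ) : ℂ) * a x‖ ≤
        C * (T ^ (5 / 3 : ℝ) / X + X) := by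
  have hA := fun i : Fin 4 => Am_rpow D ((1 - (i : ℝ)) / 3)
  choose D' hD' hAm using hA
  have hO := fun i : Fin 4 => OS11_int (D' i)
  choose E hE hEE using hO
  obtain ⟨Cb, hCb⟩ := h.ramanujan (1 / 10) (by norm_num)
  have hCb0 : 0 ≤ Cb := by
    have := hCb 1 le_rfl
    rw [Nat.cast_one, Real.one_rpow, mul_one] at this
    exact (abs_nonneg _).trans this
  have hb1 : b 1 = 1 := a_one h
  set k : ℝ := κ ^ (1 / 3 : ℝ) with hk
  have hk0 : 0 < k := Real.rpow_pos_of_pos hκ _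
  set G : ℝ := ∑ i : Fin 4, ‖d i‖ * E i with hG
  have hG0 : 0 ≤ G := Finset.sum_nonneg fun i _ => mul_nonneg (norm_nonneg _) (hE i).le
  set K : ℝ := (Cb + 1) * G * (1 / (3 / 5 * k) ^ 2) with hK
  have hK0 : 0 ≤ K := by positivity
  have hZ : Summable fun m : ℕ => (m : ℝ) ^ (-(37 / 30) : ℝ) :=
    Real.summable_nat_rpow.mpr (by norm_num)
  set Z : ℝ := ∑' m : ℕ, (m : ℝ) ^ (-(37 / 30) : ℝ) with hZd
  have hZ0 : 0 ≤ Z := tsum_nonneg fun m => Real.rpow_nonneg (Nat.cast_nonneg _) _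
  refine ⟨K * Z + G + G * (1 / (3 * k) ^ 2) + 1, by positivity, ?_⟩
  intro T X a s hT hX1 hXT hs ha hsum
  have hT0 : 0 < T := by linarith
  have hX0 : 1 ≤ X := (Real.one_le_rpow hT (by norm_num)).trans hX1
  have hXpos : 0 < X := by linarith
  set f : ℕ → ℂ := fun m : ℕ => (b m : ℂ) * ∫ x in T..(T + X), (km κ d m x : ℂ) *
          (a x * e (ps 0 (3 * s * k) x)) with hf
  set res : ℂ := (if s = -1 then d 0 / 2 else if s = 1 then conj (d 0) / 2 else 0) *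
          ∫ x in T..(T + X), ((x ^ (1 / 3 : ℝ) : ℝ) : ℂ) * a x with hres
  set W : ℝ := T ^ (5 / 3 : ℝ) / X with hW
  have hW0 : 0 ≤ W := by positivity
  have hAi := fun i => hAm i T X a hX0 hXT ha
  -- the terms with `m ≥ 2`
  have hlarge : ∀ m : ℕ, 2 ≤ m → ‖f m‖ ≤ K * W * (m : ℝ) ^ (-(37 / 30) : ℝ) := by
    intro m hm
    have hmr : (1 : ℝ) ≤ (m : ℝ) := by exact_mod_cast (by omega : 1 ≤ m)
    have hm0 : (0 : ℝ) < (m : ℝ) := by linarith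
    have hI : ∀ (i : Fin 4) (σ : ℝ), |σ| = 1 →
        ‖∫ x in T..(T + X), (((x / T) ^ ((1 - (i : ℝ)) / 3) : ℝ) : ℂ) * a x *
          e (ps 0 (3 * s * k + σ * (3 * (κ * m) ^ (1 / 3 : ℝ))) x)‖ ≤
        E i * (T ^ (4 / 3 : ℝ) / X * (1 / (3 / 5 * k) ^ 2) * (m : ℝ) ^ (-(2 / 3) : ℝ)) := by
      intro i σ hσ
      obtain ⟨hmu1, hmu2⟩ := OS11_mu hκ s hs σ hσ m hm
      refine ((hEE i T X _ _ hT hX1 hXT (hAi i)).1 hmu2).trans
        (mul_le_mul_of_nonneg_left ?_ (hE i).le)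
      rw [← hk] at hmu1
      have h1 : 0 < (3 / 5 * k) ^ 2 * (m : ℝ) ^ (2 / 3 : ℝ) := by positivity
      calc T ^ (4 / 3 : ℝ) / (X * (3 * s * k + σ * (3 * (κ * m) ^ (1 / 3 : ℝ))) ^ 2) ≤
            T ^ (4 / 3 : ℝ) / (X * ((3 / 5 * k) ^ 2 * (m : ℝ) ^ (2 / 3 : ℝ))) := by
            refine div_le_div_of_nonneg_left (by positivity) (by positivity) ?_
            exact mul_le_mul_of_nonneg_left hmu1 hXpos.le
        _ = _ := by
            rw [Real.rpow_neg hm0.le]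
            field_simp
    have h1 : ‖∫ x in T..(T + X), (km κ d m x : ℂ) * (a x * e (ps 0 (3 * s * k) x))‖ ≤
        G * ((m : ℝ) ^ (-(2 / 3) : ℝ) * T ^ (1 / 3 : ℝ) * (T ^ (4 / 3 : ℝ) / X *
          (1 / (3 / 5 * k) ^ 2) * (m : ℝ) ^ (-(2 / 3) : ℝ))) := by
      rw [OS9_dec hT hXpos ha κ hκ d m 0 (3 * s * k), hG, Finset.sum_mul]
      refine (norm_sum_le _ _).trans (Finset.sum_le_sum fun i _ => ?_)
      have hi0 : (0 : ℝ) ≤ (i : ℝ) := Nat.cast_nonneg _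
      have h2 := hI i 1 abs_one
      have h3 := hI i (-1) (by rw [abs_neg, abs_one])
      rw [one_mul] at h2
      rw [neg_one_mul] at h3
      have h4 : (m : ℝ) ^ (-((2 + (i : ℝ)) / 3)) ≤ (m : ℝ) ^ (-(2 / 3) : ℝ) :=
        Real.rpow_le_rpow_of_exponent_le hmr (by linarith)
      have h5 : T ^ ((1 - (i : ℝ)) / 3) ≤ T ^ (1 / 3 : ℝ) :=
        Real.rpow_le_rpow_of_exponent_le hT (by linarith)
      have h6 : 0 ≤ (m : ℝ) ^ (-((2 + (i : ℝ)) / 3)) := (Real.rpow_pos_of_pos hm0 _).le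
      have h7 : 0 ≤ T ^ ((1 - (i : ℝ)) / 3) := (Real.rpow_pos_of_pos hT0 _).le
      rw [norm_mul, Complex.norm_real, Real.norm_of_nonneg (mul_nonneg h6 h7)]
      set V : ℝ := T ^ (4 / 3 : ℝ) / X * (1 / (3 / 5 * k) ^ 2) * (m : ℝ) ^ (-(2 / 3) : ℝ) with hV
      have hV0 : 0 ≤ V := by positivity
      have h8 : ‖(d i / 2) * (∫ x in T..(T + X), (((x / T) ^ ((1 - (i : ℝ)) / 3) : ℝ) : ℂ) * a x *
          e (ps 0 (3 * s * k + 3 * (κ * m) ^ (1 / 3 : ℝ)) x)) +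
        (conj (d i) / 2) * ∫ x in T..(T + X), (((x / T) ^ ((1 - (i : ℝ)) / 3) : ℝ) : ℂ) * a x *
          e (ps 0 (3 * s * k + -(3 * (κ * m) ^ (1 / 3 : ℝ))) x)‖ ≤ ‖d i‖ * E i * V := by
        refine (norm_add_le _ _).trans ?_
        rw [norm_mul, norm_mul, norm_div, norm_div, Complex.norm_ofNat, RCLike.norm_conj]
        have h9 := mul_le_mul_of_nonneg_left h2 (show 0 ≤ ‖d i‖ / 2 by positivity)
        have h10 := mul_le_mul_of_nonneg_left h3 (show 0 ≤ ‖d i‖ / 2 by positivity)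
        linarith
      calc _ ≤ ((m : ℝ) ^ (-(2 / 3) : ℝ) * T ^ (1 / 3 : ℝ)) * (‖d i‖ * E i * V) :=
            mul_le_mul (mul_le_mul h4 h5 h7 (Real.rpow_pos_of_pos hm0 _).le) h8 (norm_nonneg _)
              (by positivity)
        _ = _ := by ring
    have h2 := hCb m (by omega)
    simp only [hf]
    rw [norm_mul, Complex.norm_real, Real.norm_eq_abs]
    refine (mul_le_mul h2 h1 (norm_nonneg _) (by positivity)).trans ?_
    have h3 : (m : ℝ) ^ (1 / 10 : ℝ) * ((m : ℝ) ^ (-(2 / 3) : ℝ) * (m : ℝ) ^ (-(2 / 3) : ℝ)) =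
        (m : ℝ) ^ (-(37 / 30) : ℝ) := by
      rw [← Real.rpow_add hm0, ← Real.rpow_add hm0]
      norm_num
    have h4 : T ^ (1 / 3 : ℝ) * (T ^ (4 / 3 : ℝ) / X) = W := by
      rw [hW, ← mul_div_assoc, ← Real.rpow_add hT0]
      norm_num
    calc Cb * (m : ℝ) ^ (1 / 10 : ℝ) * (G * ((m : ℝ) ^ (-(2 / 3) : ℝ) * T ^ (1 / 3 : ℝ) *
          (T ^ (4 / 3 : ℝ) / X * (1 / (3 / 5 * k) ^ 2) * (m : ℝ) ^ (-(2 / 3) : ℝ)))) =
          Cb * (G * (1 / (3 / 5 * k) ^ 2)) * (T ^ (1 / 3 : ℝ) * (T ^ (4 / 3 : ℝ) / X)) *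
          ((m : ℝ) ^ (1 / 10 : ℝ) * ((m : ℝ) ^ (-(2 / 3) : ℝ) * (m : ℝ) ^ (-(2 / 3) : ℝ))) := by ring
      _ = Cb * (G * (1 / (3 / 5 * k) ^ 2)) * (W * (m : ℝ) ^ (-(37 / 30) : ℝ)) := by
          rw [h3, h4]
          ring
      _ ≤ (Cb + 1) * (G * (1 / (3 / 5 * k) ^ 2)) * (W * (m : ℝ) ^ (-(37 / 30) : ℝ)) := by
          refine mul_le_mul_of_nonneg_right (mul_le_mul_of_nonneg_right (by linarith) (by positivity))
            (by positivity)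
      _ = _ := by rw [hK]; ring
  -- the term with `m = 1`
  have hone : ‖f 1 - res‖ ≤ G * (1 / (3 * k) ^ 2) * W + G * X := by
    -- one integral, non resonant or `i ≥ 1`
    have hI : ∀ (i : Fin 4) (σ : ℝ), (3 * s * k + σ * (3 * k) ≠ 0 →
        9 * k ^ 2 ≤ (3 * s * k + σ * (3 * k)) ^ 2) →
        (3 * s * k + σ * (3 * k) ≠ 0 ∨ i ≠ 0) →
        T ^ ((1 - (i : ℝ)) / 3) * ‖∫ x in T..(T + X), (((x / T) ^ ((1 - (i : ℝ)) / 3) : ℝ) : ℂ) * a x *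
          e (ps 0 (3 * s * k + σ * (3 * k)) x)‖ ≤ E i * ((1 / (3 * k) ^ 2) * W + X) := by
      intro i σ h9k hor
      have hi0 : (0 : ℝ) ≤ (i : ℝ) := Nat.cast_nonneg _
      have h7 : 0 ≤ T ^ ((1 - (i : ℝ)) / 3) := (Real.rpow_pos_of_pos hT0 _).le
      by_cases hmu : 3 * s * k + σ * (3 * k) = 0
      · have hi : i ≠ 0 := by
          rcases hor with h | h
          · exact absurd hmu h
          · exact h
        have hi1 : (1 : ℝ) ≤ (i : ℝ) := by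
          have : 1 ≤ (i : ℕ) := Nat.one_le_iff_ne_zero.mpr fun h => hi (Fin.ext h)
          exact_mod_cast this
        have h5 : T ^ ((1 - (i : ℝ)) / 3) ≤ 1 := Real.rpow_le_one_of_one_le_of_nonpos hT (by linarith)
        have h8 := (hEE i T X (3 * s * k + σ * (3 * k)) _ hT hX1 hXT (hAi i)).2
        have h9 : 0 ≤ E i * ((1 / (3 * k) ^ 2) * W) := mul_nonneg (hE i).le (by positivity)
        calc _ ≤ 1 * (E i * X) := mul_le_mul h5 h8 (norm_nonneg _) zero_le_one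
          _ ≤ _ := by linarith
      · have h8 := (hEE i T X (3 * s * k + σ * (3 * k)) _ hT hX1 hXT (hAi i)).1 hmu
        have h5 : T ^ ((1 - (i : ℝ)) / 3) ≤ T ^ (1 / 3 : ℝ) :=
          Real.rpow_le_rpow_of_exponent_le hT (by linarith)
        have h10 : T ^ (4 / 3 : ℝ) / (X * (3 * s * k + σ * (3 * k)) ^ 2) ≤
            T ^ (4 / 3 : ℝ) / X * (1 / (3 * k) ^ 2) := by
          calc T ^ (4 / 3 : ℝ) / (X * (3 * s * k + σ * (3 * k)) ^ 2) ≤
                T ^ (4 / 3 : ℝ) / (X * (9 * k ^ 2)) := by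
                refine div_le_div_of_nonneg_left (by positivity) (by positivity) ?_
                exact mul_le_mul_of_nonneg_left (h9k hmu) hXpos.le
            _ = _ := by
                field_simp
                ring
        have h11 : T ^ (1 / 3 : ℝ) * (T ^ (4 / 3 : ℝ) / X) = W := by
          rw [hW, ← mul_div_assoc, ← Real.rpow_add hT0]
          norm_num
        have h12 : 0 ≤ E i * X := mul_nonneg (hE i).le hXpos.le
        calc _ ≤ T ^ (1 / 3 : ℝ) * (E i * (T ^ (4 / 3 : ℝ) / X * (1 / (3 * k) ^ 2))) :=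
              mul_le_mul h5 (h8.trans (mul_le_mul_of_nonneg_left h10 (hE i).le)) (norm_nonneg _)
                (by positivity)
          _ = E i * ((1 / (3 * k) ^ 2) * (T ^ (1 / 3 : ℝ) * (T ^ (4 / 3 : ℝ) / X))) := by ring
          _ = E i * ((1 / (3 * k) ^ 2) * W) := by rw [h11]
          _ ≤ _ := by linarith
    -- the decomposition
    set Ip : Fin 4 → ℂ := fun i => ∫ x in T..(T + X),
      (((x / T) ^ ((1 - (i : ℝ)) / 3) : ℝ) : ℂ) * a x * e (ps 0 (3 * s * k + 1 * (3 * k)) x) with hIp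
    set Im : Fin 4 → ℂ := fun i => ∫ x in T..(T + X),
      (((x / T) ^ ((1 - (i : ℝ)) / 3) : ℝ) : ℂ) * a x * e (ps 0 (3 * s * k + -1 * (3 * k)) x) with hIm
    have hf1 : f 1 = ∑ i : Fin 4, ((T ^ ((1 - (i : ℝ)) / 3) : ℝ) : ℂ) *
        ((d i / 2) * Ip i + (conj (d i) / 2) * Im i) := by
      simp only [hf, hb1, Complex.ofReal_one, one_mul]
      rw [OS9_dec hT hXpos ha κ hκ d 1 0 (3 * s * k)]
      refine Finset.sum_congr rfl fun i _ => ?_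
      simp only [hIp, hIm, Nat.cast_one, Real.one_rpow, one_mul, mul_one, neg_one_mul, ← hk]
    have hT13 : ∀ g : ℝ → ℂ, (∀ x, g x = 1) → ((T ^ ((1 - ((0 : Fin 4) : ℝ)) / 3) : ℝ) : ℂ) *
        (∫ x in T..(T + X), (((x / T) ^ ((1 - ((0 : Fin 4) : ℝ)) / 3) : ℝ) : ℂ) * a x * g x) =
        ∫ x in T..(T + X), ((x ^ (1 / 3 : ℝ) : ℝ) : ℂ) * a x := by
      intro g hg
      rw [← intervalIntegral.integral_const_mul]
      refine intervalIntegral.integral_congr fun x hx => ?_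
      rw [uIcc_of_le (by linarith)] at hx
      have hx0 : 0 < x := lt_of_lt_of_le hT0 hx.1
      have h1 : T ^ (1 / 3 : ℝ) * (x / T) ^ (1 / 3 : ℝ) = x ^ (1 / 3 : ℝ) := by
        rw [← Real.mul_rpow hT0.le (div_pos hx0 hT0).le]
        congr 1
        field_simp
      simp only [hg x, mul_one, Fin.val_zero, Nat.cast_zero, sub_zero]
      rw [← h1]
      push_cast
      ring
    -- the coefficients without the resonance
    set zp : Fin 4 → ℂ := fun i => if s = -1 ∧ i = 0 then 0 else (d i / 2) * Ip i with hzp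
    set zm : Fin 4 → ℂ := fun i => if s = 1 ∧ i = 0 then 0 else (conj (d i) / 2) * Im i with hzm
    have hdiff : f 1 - res = ∑ i : Fin 4, ((T ^ ((1 - (i : ℝ)) / 3) : ℝ) : ℂ) * (zp i + zm i) := by
      rw [hf1, hres]
      by_cases hsm : s = -1
      · have hres1 : ((T ^ ((1 - ((0 : Fin 4) : ℝ)) / 3) : ℝ) : ℂ) * Ip 0 =
            ∫ x in T..(T + X), ((x ^ (1 / 3 : ℝ) : ℝ) : ℂ) * a x := by
          refine hT13 (fun x => e (ps 0 (3 * s * k + 1 * (3 * k)) x)) fun x => ?_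
          have h0 : 3 * (s : ℝ) * k + 1 * (3 * k) = 0 := by rw [hsm]; push_cast; ring
          simp only [h0]
          exact OS11_e_zero x
        have hs1 : s ≠ 1 := by omega
        rw [if_pos hsm, ← hres1, Fin.sum_univ_four, Fin.sum_univ_four]
        simp only [hzp, hzm, hsm, hs1, true_and, false_and, if_true, if_false, and_true,
          show (-1 : ℤ) = 1 ↔ False by norm_num, show ((1 : Fin 4) = 0) ↔ False by decide,
          show ((2 : Fin 4) = 0) ↔ False by decide, show ((3 : Fin 4) = 0) ↔ False by decide]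
        ring
      · by_cases hsp : s = 1
        · have hres1 : ((T ^ ((1 - ((0 : Fin 4) : ℝ)) / 3) : ℝ) : ℂ) * Im 0 =
              ∫ x in T..(T + X), ((x ^ (1 / 3 : ℝ) : ℝ) : ℂ) * a x := by
            refine hT13 (fun x => e (ps 0 (3 * s * k + -1 * (3 * k)) x)) fun x => ?_
            have h0 : 3 * (s : ℝ) * k + -1 * (3 * k) = 0 := by rw [hsp]; push_cast; ring
            simp only [h0]
            exact OS11_e_zero x
          rw [if_neg hsm, if_pos hsp, ← hres1, Fin.sum_univ_four, Fin.sum_univ_four]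
          simp only [hzp, hzm, hsp, true_and, false_and, if_true, if_false, and_true,
            show (1 : ℤ) = -1 ↔ False by norm_num, show ((1 : Fin 4) = 0) ↔ False by decide,
            show ((2 : Fin 4) = 0) ↔ False by decide, show ((3 : Fin 4) = 0) ↔ False by decide]
          ring
        · rw [if_neg hsm, if_neg hsp, zero_mul, sub_zero]
          simp only [hzp, hzm, hsm, hsp, false_and, if_false]
    rw [hdiff]
    have hsr : s = -1 ∨ s = 0 ∨ s = 1 := by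
      have := abs_le.mp hs
      omega
    have hp : ∀ i : Fin 4, T ^ ((1 - (i : ℝ)) / 3) * ‖zp i‖ ≤ ‖d i‖ / 2 * (E i * ((1 / (3 * k) ^ 2) * W + X)) := by
      intro i
      simp only [hzp]
      split_ifs with hc
      · rw [norm_zero, mul_zero]
        exact mul_nonneg (by positivity) (mul_nonneg (hE i).le (by positivity))
      · have h1 := hI i 1 (by
          intro hne
          rcases hsr with h | h | h
          · exfalso
            apply hne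
            rw [h]
            push_cast
            ring
          · rw [h]
            push_cast
            nlinarith [sq_nonneg k]
          · rw [h]
            push_cast
            nlinarith [sq_nonneg k]) (by
          rcases hsr with h | h | h
          · right
            intro hi
            exact hc ⟨h, hi⟩
          · left
            rw [h]
            push_cast
            intro h0
            linarith
          · left
            rw [h]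
            push_cast
            intro h0
            linarith)
        rw [norm_mul, norm_div, Complex.norm_ofNat]
        calc _ = ‖d i‖ / 2 * (T ^ ((1 - (i : ℝ)) / 3) * ‖Ip i‖) := by ring
          _ ≤ _ := mul_le_mul_of_nonneg_left h1 (by positivity)
    have hmm : ∀ i : Fin 4, T ^ ((1 - (i : ℝ)) / 3) * ‖zm i‖ ≤ ‖d i‖ / 2 * (E i * ((1 / (3 * k) ^ 2) * W + X)) := by
      intro i
      simp only [hzm]
      split_ifs with hc
      · rw [norm_zero, mul_zero]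
        exact mul_nonneg (by positivity) (mul_nonneg (hE i).le (by positivity))
      · have h1 := hI i (-1) (by
          intro hne
          rcases hsr with h | h | h
          · rw [h]
            push_cast
            nlinarith [sq_nonneg k]
          · rw [h]
            push_cast
            nlinarith [sq_nonneg k]
          · exfalso
            apply hne
            rw [h]
            push_cast
            ring) (by
          rcases hsr with h | h | h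
          · left
            rw [h]
            push_cast
            intro h0
            linarith
          · left
            rw [h]
            push_cast
            intro h0
            linarith
          · right
            intro hi
            exact hc ⟨h, hi⟩)
        rw [norm_mul, norm_div, Complex.norm_ofNat, RCLike.norm_conj]
        calc _ = ‖d i‖ / 2 * (T ^ ((1 - (i : ℝ)) / 3) * ‖Im i‖) := by ring
          _ ≤ _ := mul_le_mul_of_nonneg_left h1 (by positivity)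
    have hfin : ‖∑ i : Fin 4, ((T ^ ((1 - (i : ℝ)) / 3) : ℝ) : ℂ) * (zp i + zm i)‖ ≤
        ∑ i : Fin 4, ‖d i‖ * E i * ((1 / (3 * k) ^ 2) * W + X) := by
      refine (norm_sum_le _ _).trans (Finset.sum_le_sum fun i _ => ?_)
      rw [norm_mul, Complex.norm_real, Real.norm_of_nonneg (Real.rpow_pos_of_pos hT0 _).le]
      have h1 := mul_le_mul_of_nonneg_left (norm_add_le (zp i) (zm i))
        (Real.rpow_pos_of_pos hT0 ((1 - (i : ℝ)) / 3)).le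
      have h2 := hp i
      have h3 := hmm i
      linarith
    refine hfin.trans (le_of_eq ?_)
    rw [← Finset.sum_mul, ← hG]
    ring
  -- the sum
  set g : ℕ → ℂ := fun m => f m - (if m = 1 then res else 0) with hg
  have hgb : ∀ m, ‖g m‖ ≤ K * W * (m : ℝ) ^ (-(37 / 30) : ℝ) +
      (if m = 1 then G * (1 / (3 * k) ^ 2) * W + G * X else 0) := by
    intro m
    have hn : 0 ≤ K * W * (m : ℝ) ^ (-(37 / 30) : ℝ) :=
      mul_nonneg (by positivity) (Real.rpow_nonneg (Nat.cast_nonneg _) _)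
    simp only [hg]
    by_cases h1 : m = 1
    · rw [if_pos h1, if_pos h1]
      rw [h1]
      have hn1 : 0 ≤ K * W * ((1 : ℕ) : ℝ) ^ (-(37 / 30) : ℝ) := by positivity
      linarith
    · rw [if_neg h1, if_neg h1, sub_zero, add_zero]
      by_cases h2 : 2 ≤ m
      · exact hlarge m h2
      · have h3 : m = 0 := by omega
        rw [h3]
        have h4 : f 0 = 0 := by
          simp only [hf, OS9_km_zero, Complex.ofReal_zero, zero_mul, intervalIntegral.integral_zero,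
            mul_zero]
        rw [h4, norm_zero]
        exact mul_nonneg (by positivity) (Real.rpow_nonneg (Nat.cast_nonneg _) _)
  have hite : HasSum (fun m : ℕ => if m = 1 then G * (1 / (3 * k) ^ 2) * W + G * X else 0)
      (G * (1 / (3 * k) ^ 2) * W + G * X) := hasSum_ite_eq 1 _
  have hiteC : HasSum (fun m : ℕ => if m = 1 then res else 0) res := hasSum_ite_eq 1 _
  have hbs : HasSum (fun m : ℕ => K * W * (m : ℝ) ^ (-(37 / 30) : ℝ) +
      (if m = 1 then G * (1 / (3 * k) ^ 2) * W + G * X else 0))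
      (K * W * Z + (G * (1 / (3 * k) ^ 2) * W + G * X)) := (hZ.hasSum.mul_left (K * W)).add hite
  have hgs : ∑' m, g m = ∑' m, f m - res := by
    have := (hsum.hasSum.sub hiteC).tsum_eq
    exact this
  have hfinal : ‖∑' m, g m‖ ≤ K * W * Z + (G * (1 / (3 * k) ^ 2) * W + G * X) :=
    tsum_of_norm_bounded hbs hgb
  rw [hgs] at hfinal
  refine hfinal.trans ?_
  have e1 : 0 ≤ K * Z * X := by positivity
  have e2 : 0 ≤ G * W := by positivity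
  have e3 : 0 ≤ G * (1 / (3 * k) ^ 2) * X := by positivity
  have e4 : 0 ≤ W + X := by positivity
  nlinarith

/-- **OS11.** The non resonant slow integrals: for `λ = 0` and `κ'` fixed, all `m` with
`κ' ± 3(κm)^{1/3} ≠ 0` together contribute `O(T^{5/3+ε}/X)`; only `m = 1` can be resonant.
Statement for `κ' = 3 s κ^{1/3}`, `s ∈ {-1,0,1}`: subtract the resonant part of `k_1`. -/
theorem slow_Eg (h : RealSelberg b L 3) (hw : Wk b L κ C0 c d S) {D ξ : ℝ}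
    (hξ : 0 < ξ) (hξ' : ξ < 1 / 6) :
    ∃ C T0 : ℝ, 0 < C ∧ 1 ≤ T0 ∧ ∀ (T : ℝ) (a : ℝ → ℂ) (s : ℤ), T0 ≤ T → |s| ≤ 1 →
      Am T (T ^ (1 - ξ)) D a →
      ‖(∫ x in T..(T + T ^ (1 - ξ)), (errTerm b L x : ℂ) *
          (a x * e (ps 0 (3 * s * κ ^ (1 / 3 : ℝ)) x))) -
        (if s = -1 then d 0 / 2 else if s = 1 then conj (d 0) / 2 else 0) *
          ∫ x in T..(T + T ^ (1 - ξ)), ((x ^ (1 / 3 : ℝ) : ℝ) : ℂ) * a x‖ ≤
        C * T ^ ((1 - ξ) + 1 / 4 : ℝ) := by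
  have hκ := hw.kpos
  have hC0 := hw.cpos
  have hk0 : 0 < κ ^ (1 / 3 : ℝ) := Real.rpow_pos_of_pos hκ _
  obtain ⟨C8, hC8, h8⟩ := amp_deriv2 (D := D) (B0 := 3 * κ ^ (1 / 3 : ℝ)) (by positivity)
  obtain ⟨Cs, hCs, hser⟩ := OS11_series h hκ d D
  obtain ⟨Cm, hCm, hm⟩ := hw.main (1 / 4) (by norm_num)
  refine ⟨2 * Cs + C0 * |D| + Cm * 2 ^ (1 + 1 / 4 : ℝ) * C8, 1, by positivity, le_rfl, ?_⟩
  intro T a s hT hs ha
  have hT0 : 0 < T := by linarith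
  set X : ℝ := T ^ (1 - ξ) with hX
  have hX0 : 0 < X := Real.rpow_pos_of_pos hT0 _
  have hX1 : T ^ (1 / 2 : ℝ) ≤ X := Real.rpow_le_rpow_of_exponent_le hT (by linarith)
  have hX2 : T ^ (2 / 3 : ℝ) ≤ X := Real.rpow_le_rpow_of_exponent_le hT (by linarith)
  have hXT : X ≤ T := by
    have := Real.rpow_le_rpow_of_exponent_le hT (show 1 - ξ ≤ 1 by linarith)
    rwa [Real.rpow_one] at this
  have hsr : |(s : ℝ)| ≤ 1 := by exact_mod_cast hs
  have hmu : |3 * (s : ℝ) * κ ^ (1 / 3 : ℝ)| ≤ 3 * κ ^ (1 / 3 : ℝ) := by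
    rw [abs_mul, abs_mul, abs_of_pos hk0, abs_of_pos (show (0 : ℝ) < 3 by norm_num)]
    have := mul_le_mul_of_nonneg_left hsr (show (0 : ℝ) ≤ 3 * κ ^ (1 / 3 : ℝ) by positivity)
    linarith
  obtain ⟨hsm, hd2⟩ := h8 T X 0 (3 * s * κ ^ (1 / 3 : ℝ)) a hT hX1 hXT hmu ha
  obtain ⟨hsum, hmain⟩ := hm T (T + X) (fun x => a x * e (ps 0 (3 * s * κ ^ (1 / 3 : ℝ)) x)) hT
    (by linarith) hsm (by
    intro x hx
    rw [ha.supp x hx, zero_mul])
  have h1 := hser T X a s hT hX2 hXT hs ha hsum.of_norm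
  set R : ℝ := T ^ ((1 - ξ) + 1 / 4 : ℝ) with hR
  have hR0 : 0 < R := Real.rpow_pos_of_pos hT0 _
  have hRX : X ≤ R := Real.rpow_le_rpow_of_exponent_le hT (by linarith)
  have hRW : T ^ (5 / 3 : ℝ) / X ≤ R := by
    rw [hX, ← Real.rpow_sub hT0]
    exact Real.rpow_le_rpow_of_exponent_le hT (by linarith)
  have h2 := OS10_S (l := 0) (mu := 3 * s * κ ^ (1 / 3 : ℝ)) hw hT hX0.le ha
  have h3 : Cm * (T + X) ^ (1 + 1 / 4 : ℝ) * ∫ x in T..(T + X),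
      ‖deriv (deriv (fun x => a x * e (ps 0 (3 * s * κ ^ (1 / 3 : ℝ)) x))) x‖ ≤
      (Cm * 2 ^ (1 + 1 / 4 : ℝ) * C8) * R := by
    have h4 := OS10_F2 hX0.le hd2
    have h5 : (T + X) ^ (1 + 1 / 4 : ℝ) ≤ 2 ^ (1 + 1 / 4 : ℝ) * (T * T ^ (1 / 4 : ℝ)) := by
      have h6 : (T + X) ^ (1 + 1 / 4 : ℝ) ≤ (2 * T) ^ (1 + 1 / 4 : ℝ) :=
        Real.rpow_le_rpow (by linarith) (by linarith) (by norm_num)
      rwa [Real.mul_rpow zero_le_two hT0.le, Real.rpow_add hT0 1 (1 / 4), Real.rpow_one] at h6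
    have h7 : T ^ (1 / 4 : ℝ) * X = R := by
      rw [hX, hR, ← Real.rpow_add hT0]
      congr 1
      ring
    have h8' : 0 ≤ ∫ x in T..(T + X),
        ‖deriv (deriv (fun x => a x * e (ps 0 (3 * s * κ ^ (1 / 3 : ℝ)) x))) x‖ :=
      intervalIntegral.integral_nonneg (by linarith) fun x _ => norm_nonneg _
    calc _ ≤ Cm * (2 ^ (1 + 1 / 4 : ℝ) * (T * T ^ (1 / 4 : ℝ))) *
          (C8 * (1 + |(0 : ℝ)|) ^ 2 / T * X) :=
        mul_le_mul (mul_le_mul_of_nonneg_left h5 hCm.le) h4 h8' (by positivity)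
      _ = (Cm * 2 ^ (1 + 1 / 4 : ℝ) * C8) * (T ^ (1 / 4 : ℝ) * X) := by
        rw [abs_zero, add_zero]
        field_simp
      _ = _ := by rw [h7]
  set IE := ∫ x in T..(T + X), (errTerm b L x : ℂ) * (a x * e (ps 0 (3 * s * κ ^ (1 / 3 : ℝ)) x))
    with hIE
  set IS := ∫ x in T..(T + X), (S x : ℂ) * (a x * e (ps 0 (3 * s * κ ^ (1 / 3 : ℝ)) x)) with hIS
  set Sm := ∑' m : ℕ, (b m : ℂ) * ∫ x in T..(T + X), (km κ d m x : ℂ) *
      (a x * e (ps 0 (3 * s * κ ^ (1 / 3 : ℝ)) x)) with hSm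
  set res : ℂ := (if s = -1 then d 0 / 2 else if s = 1 then conj (d 0) / 2 else 0) *
          ∫ x in T..(T + X), ((x ^ (1 / 3 : ℝ) : ℝ) : ℂ) * a x with hres
  have h4 : IE - res = (IE - IS - Sm) + IS + (Sm - res) := by ring
  rw [h4]
  refine (norm_add_le _ _).trans ?_
  have h5 := norm_add_le (IE - IS - Sm) IS
  have h6 : ‖IE - IS - Sm‖ ≤ (Cm * 2 ^ (1 + 1 / 4 : ℝ) * C8) * R := hmain.trans h3
  have h7 : C0 * |D| * X ≤ C0 * |D| * R := mul_le_mul_of_nonneg_left hRX (by positivity)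
  have h9 : Cs * (T ^ (5 / 3 : ℝ) / X + X) ≤ Cs * (R + R) :=
    mul_le_mul_of_nonneg_left (add_le_add hRW hRX) hCs.le
  linarith
--END OS11

end Pool.Agent.PEt5
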